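import Pool.Agent.Run7.h889.Iface

/-!
# MP_7dd379_ag, piece FTR: traces on F-finite fields
-/

set_option autoImplicit false

namespace Run7.h889

open Module IsLocalRing

universe u

/-- `R` is generated over `R^q` by finitely many elements, for every `q = p^E` -/
theorem ffinite_pow {p : ℕ} [Fact p.Prime] {R : Type u} [CommRing R] [CharP R p]
    (h : IsFFinite p R) (E : ℕ) :
    ∃ (n : ℕ) (b : Fin n → R), ∀ x : R, ∃ a : Fin n → R, x = ∑ i, a i ^ p ^ E * b i := by
  suffices H : ∃ (ι : Type u) (_ : Fintype ι) (b : ι → R), ∀ x : R, ∃ a : ι → R,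
      x = ∑ i, a i ^ p ^ E * b i by
    obtain ⟨ι, _, b, hb⟩ := H
    refine ⟨Fintype.card ι, b ∘ (Fintype.equivFin ι).symm, fun x => ?_⟩
    obtain ⟨a, ha⟩ := hb x
    refine ⟨a ∘ (Fintype.equivFin ι).symm, ?_⟩
    rw [ha]
    exact (Equiv.sum_comp (Fintype.equivFin ι).symm (fun i => a i ^ p ^ E * b i)).symm
  induction E with
  | zero =>
    refine ⟨PUnit, inferInstance, fun _ => 1, fun x => ⟨fun _ => x, ?_⟩⟩
    simp
  | succ E ih =>
    obtain ⟨ι, _, b, hb⟩ := ih
    obtain ⟨s, hs⟩ := h
    refine ⟨ι × s, inferInstance, fun j => (j.2 : R) ^ p ^ E * b j.1, fun x => ?_⟩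
    obtain ⟨a, ha⟩ := hb x
    choose c hc using fun i => hs (a i)
    refine ⟨fun j => c j.1 j.2, ?_⟩
    rw [Fintype.sum_prod_type]
    conv_lhs => rw [ha]
    refine Finset.sum_congr rfl fun i _ => ?_
    conv_lhs => rw [hc i]
    rw [sum_pow_char_pow, Finset.sum_mul, ← Finset.sum_coe_sort]
    refine Finset.sum_congr rfl fun y _ => ?_
    simp only []
    rw [mul_pow, ← pow_mul, ← pow_succ', mul_assoc]

theorem t_FTR : S_FTR.{u} := by
  intro p E _ k _ _ hfin
  let F : k →+* k := iterateFrobenius k p E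
  have hF : ∀ a, F a = a ^ p ^ E := fun a => iterateFrobenius_def p E a
  let L : Subfield k := F.fieldRange
  let e : k ≃+* L := RingEquiv.ofBijective F.rangeRestrictField F.rangeRestrictField_bijective
  have he : ∀ a, ((e a : L) : k) = a ^ p ^ E := fun a => hF a
  have hfinL : Module.Finite L k := by
    classical
    obtain ⟨n, b, hb⟩ := ffinite_pow hfin E
    refine ⟨⟨Finset.univ.image b, ?_⟩⟩
    rw [eq_top_iff]
    intro x _
    obtain ⟨a, ha⟩ := hb x
    rw [ha]
    refine Submodule.sum_mem _ fun i _ => ?_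
    have : a i ^ p ^ E * b i = (e (a i)) • b i := by
      rw [← he]; rfl
    rw [this]
    exact Submodule.smul_mem _ _ (Submodule.subset_span (by simp))
  let bb := Module.finBasis L k
  have hpos : 0 < finrank L k := Module.finrank_pos
  let i0 : Fin (finrank L k) := ⟨0, hpos⟩
  let t : k →ₗ[L] L := bb.coord i0
  have ht : t (bb i0) = 1 := by simp [t]
  let Ψ : k →ₗ[L] (k →ₗ[L] L) := (LinearMap.mul L k).compr₂ t
  have hΨ : ∀ x y, Ψ x y = t (x * y) := fun x y => rfl
  have hinj : Function.Injective Ψ := by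
    rw [injective_iff_map_eq_zero]
    intro x hx
    by_contra hx0
    have h1 : Ψ x (x⁻¹ * bb i0) = 0 := by rw [hx]; rfl
    rw [hΨ, mul_inv_cancel_left₀ hx0, ht] at h1
    exact one_ne_zero h1
  have hsurj : Function.Surjective Ψ :=
    (LinearMap.injective_iff_surjective_of_finrank_eq_finrank
      (Subspace.dual_finrank_eq (K := L) (V := k)).symm).1 hinj
  choose b' hb' using fun l => hsurj (bb.coord l)
  refine ⟨⟨(e.symm : L →+* k).toAddMonoidHom.comp t.toAddMonoidHom, ?_, Fin (finrank L k),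
    inferInstance, bb, b', ?_⟩⟩
  · intro a f
    have h1 : a ^ p ^ E * f = (e a) • f := by rw [← he]; rfl
    show e.symm (t (a ^ p ^ E * f)) = a * e.symm (t f)
    rw [h1, map_smul, smul_eq_mul, map_mul, RingEquiv.symm_apply_apply]
  · intro u
    conv_lhs => rw [← bb.sum_repr u]
    refine Finset.sum_congr rfl fun l _ => ?_
    have h1 : t (b' l * u) = bb.repr u l := by
      rw [← hΨ, hb']; rfl
    have h2 : (e.symm (t (b' l * u))) ^ p ^ E = ((bb.repr u l : L) : k) := by
      rw [← he, RingEquiv.apply_symm_apply, h1]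
    show (bb.repr u l) • bb l = (e.symm (t (b' l * u))) ^ p ^ E * bb l
    rw [h2]; rfl

end Run7.h889
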