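import Mathlib

set_option autoImplicit false
set_option linter.unusedSimpArgs false
set_option linter.unusedVariables false
set_option linter.unusedSectionVars false
set_option linter.deprecated false

namespace Run7.h889

open Module
open scoped TensorProduct

universe u v w

section

variable {R : Type v} [CommRing R] [IsDomain R] {L : Type w} [Field L] [Algebra R L]
  [IsFractionRing R L] {M : Type v} [AddCommGroup M] [Module R M]

/-- The dual of a tensor power of a module of rank one. -/
theorem dual_tensor_equiv (G : M →ₗ[R] L) (hG : Function.Injective G) (m0 : M) (hm0 : G m0 ≠ 0)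
    (n : ℕ) (v : L) (hv : v ≠ 0)
    (h1 : ∀ m : Fin n → M, ∃ r : R, v * ∏ i, G (m i) = algebraMap R L r)
    (h2 : ∀ h : L, (∀ m : Fin n → M, ∃ r : R, h * ∏ i, G (m i) = algebraMap R L r) →
      ∃ r : R, h = v * algebraMap R L r) :
    Nonempty (Module.Dual R (⨂[R]^n M) ≃ₗ[R] R) := by
  classical
  have inj := IsFractionRing.injective R L
  let P : MultilinearMap R (fun _ : Fin n => M) L :=
    (LinearMap.mulLeft R v).compMultilinearMap
      ((MultilinearMap.mkPiAlgebra R (Fin n) L).compLinearMap (fun _ => G))
  have hP : ∀ m, P m = v * ∏ i, G (m i) := fun m => rfl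
  let F : (⨂[R]^n M) →ₗ[R] L := PiTensorProduct.lift P
  have hF : ∀ m, F (PiTensorProduct.tprod R m) = v * ∏ i, G (m i) := by
    intro m
    rw [← hP]
    exact PiTensorProduct.lift.tprod m
  have hrange : ∀ x, F x ∈ LinearMap.range (Algebra.linearMap R L) := by
    intro x
    have hx : x ∈ Submodule.span R (Set.range (PiTensorProduct.tprod R (s := fun _ : Fin n => M))) := by
      rw [PiTensorProduct.span_tprod_eq_top]
      trivial
    induction hx using Submodule.span_induction with
    | mem y hy =>
      obtain ⟨m, rfl⟩ := hy
      obtain ⟨r, hr⟩ := h1 m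
      exact ⟨r, by rw [hF, hr]; rfl⟩
    | zero => rw [map_zero]; exact Submodule.zero_mem _
    | add x y _ _ hx hy => rw [map_add]; exact Submodule.add_mem _ hx hy
    | smul r x _ hx => rw [map_smul]; exact Submodule.smul_mem _ _ hx
  have hinj' : Function.Injective (Algebra.linearMap R L) := inj
  let F' : Module.Dual R (⨂[R]^n M) :=
    (LinearEquiv.ofInjective (Algebra.linearMap R L) hinj').symm.toLinearMap.comp
      (F.codRestrict _ hrange)
  have hF' : ∀ x, algebraMap R L (F' x) = F x := by
    intro x
    have := LinearEquiv.apply_symm_apply (LinearEquiv.ofInjective (Algebra.linearMap R L) hinj')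
      (F.codRestrict _ hrange x)
    exact congrArg Subtype.val this
  have hbij : Function.Bijective (LinearMap.toSpanSingleton R (Module.Dual R (⨂[R]^n M)) F') := by
    constructor
    · rw [injective_iff_map_eq_zero]
      intro r hr
      rw [LinearMap.toSpanSingleton_apply] at hr
      have e1 := LinearMap.congr_fun hr (PiTensorProduct.tprod R (fun _ : Fin n => m0))
      rw [LinearMap.smul_apply, LinearMap.zero_apply, smul_eq_mul] at e1
      have e2 := congrArg (algebraMap R L) e1
      rw [map_mul, hF', hF, map_zero] at e2
      rcases mul_eq_zero.1 e2 with h | h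
      · exact inj (by rw [h, map_zero])
      · exfalso
        refine (mul_ne_zero hv ?_) h
        rw [Finset.prod_ne_zero_iff]
        intro _ _
        exact hm0
    · intro D
      let x0 : ⨂[R]^n M := PiTensorProduct.tprod R (fun _ : Fin n => m0)
      let h : L := algebraMap R L (D x0) / (G m0) ^ n
      have key : ∀ m : Fin n → M, h * ∏ i, G (m i) = algebraMap R L (D (PiTensorProduct.tprod R m)) := by
        intro m
        have hc : ∀ i, ∃ c c' : R, c ≠ 0 ∧ c • m i = c' • m0 := by
          intro i
          obtain ⟨⟨a, s⟩, hs⟩ := IsLocalization.surj (nonZeroDivisors R) (G (m i) / G m0)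
          refine ⟨s, a, nonZeroDivisors.ne_zero s.2, hG ?_⟩
          rw [map_smul, map_smul, Algebra.smul_def, Algebra.smul_def, ← hs]
          field_simp
        choose c c' hc0 hcc using hc
        have e1 : (∏ i, c i) • PiTensorProduct.tprod R m =
            (∏ i, c' i) • x0 := by
          rw [← MultilinearMap.map_smul_univ, ← MultilinearMap.map_smul_univ]
          congr 1
          funext i
          exact hcc i
        have e2 := congrArg (fun z => algebraMap R L (D z)) e1
        simp only [map_smul, smul_eq_mul, map_mul] at e2
        have e3 : algebraMap R L (∏ i, c i) ≠ 0 := by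
          intro h
          have : ∏ i, c i = 0 := inj (by rw [h, map_zero])
          rw [Finset.prod_eq_zero_iff] at this
          obtain ⟨i, _, hi⟩ := this
          exact hc0 i hi
        apply mul_left_cancel₀ e3
        rw [e2]
        have e4 : (∏ i, algebraMap R L (c i)) * ∏ i, G (m i) =
            (∏ i, algebraMap R L (c' i)) * (G m0) ^ n := by
          have : ∀ i, algebraMap R L (c i) * G (m i) = algebraMap R L (c' i) * G m0 := by
            intro i
            have := congrArg G (hcc i)
            rw [map_smul, map_smul, Algebra.smul_def, Algebra.smul_def] at this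
            exact this
          rw [← Finset.prod_mul_distrib, Finset.prod_congr rfl (fun i _ => this i),
            Finset.prod_mul_distrib, Finset.prod_const, Finset.card_univ, Fintype.card_fin]
        rw [map_prod, map_prod, mul_left_comm, e4]
        simp only [h]
        field_simp
      obtain ⟨r, hr⟩ := h2 h (fun m => ⟨_, key m⟩)
      refine ⟨r, ?_⟩
      rw [LinearMap.toSpanSingleton_apply]
      apply PiTensorProduct.ext
      ext m
      apply inj
      rw [LinearMap.compMultilinearMap_apply, LinearMap.compMultilinearMap_apply,
        LinearMap.smul_apply, smul_eq_mul, map_mul, hF', hF, ← key, hr]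
      ring
  exact ⟨(LinearEquiv.ofBijective _ hbij).symm⟩

end

end Run7.h889
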