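import Pool.Agent.Run7.h889.Ftr

/-!
# MP_7dd379_ag, piece COEF: coefficient fields in characteristic `p`

An F-finite field `k` of characteristic `p` is formally smooth over `𝔽_p`: a homomorphism
`f : k → B/I`, `I² = 0`, has a canonical lift on `k^p`, `c^p ↦ (any lift of f c)^p`, and this
extends step by step to `k^p(b_1, ..., b_r) = k`, since `T^p - b^p` is the minimal polynomial
of a new element `b`.
-/

set_option autoImplicit false
set_option linter.unusedSectionVars false

namespace Run7.h889

open Module IsLocalRing IntermediateField Polynomial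

universe u

namespace COEF

section

variable {p : ℕ} [hp : Fact p.Prime] {k : Type u} [Field k] [CharP k p]
  {B : Type u} [CommRing B] [CharP B p] (I : Ideal B) (hI : I ^ 2 = ⊥) (f : k →+* B ⧸ I)

/-- a set theoretic lift -/
noncomputable def ell (x : k) : B := (Ideal.Quotient.mk_surjective (f x)).choose

theorem mk_ell (x : k) : Ideal.Quotient.mk I (ell I f x) = f x :=
  (Ideal.Quotient.mk_surjective (f x)).choose_spec

include hp hI in
theorem pow_eq_of_mk_eq {x y : B} (h : Ideal.Quotient.mk I x = Ideal.Quotient.mk I y) :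
    x ^ p = y ^ p := by
  rw [Ideal.Quotient.mk_eq_mk_iff_sub_mem] at h
  have h1 : (x - y) ^ p = 0 := by
    have h2 : (x - y) ^ 2 ∈ I ^ 2 := Ideal.pow_mem_pow h 2
    rw [hI, Ideal.mem_bot] at h2
    obtain ⟨m, hm⟩ := Nat.exists_eq_add_of_le hp.out.two_le
    rw [hm, pow_add, h2, zero_mul]
  rw [sub_pow_char, sub_eq_zero] at h1
  exact h1

/-- the lift of `Frobenius ∘ f` -/
noncomputable def phi : k →+* B where
  toFun c := ell I f c ^ p
  map_one' := by
    rw [pow_eq_of_mk_eq I hI (y := 1) (by rw [mk_ell, map_one, map_one]), one_pow]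
  map_mul' x y := by
    rw [← mul_pow]
    exact pow_eq_of_mk_eq I hI (by simp only [map_mul, mk_ell])
  map_zero' := by
    rw [pow_eq_of_mk_eq I hI (y := 0) (by rw [mk_ell, map_zero, map_zero]),
      zero_pow hp.out.ne_zero]
  map_add' x y := by
    rw [← add_pow_char]
    exact pow_eq_of_mk_eq I hI (by simp only [map_add, mk_ell])

theorem phi_apply (c : k) : phi (p := p) I hI f c = ell I f c ^ p := rfl

theorem mk_phi (c : k) : Ideal.Quotient.mk I (phi (p := p) I hI f c) = f (c ^ p) := by
  rw [phi_apply, map_pow, mk_ell, map_pow]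

/-- the subfield of `p`-th powers -/
abbrev K0 (p : ℕ) [Fact p.Prime] (k : Type u) [Field k] [CharP k p] : Subfield k :=
  (frobenius k p).fieldRange

/-- the lift exists on the intermediate field `M` -/
def Q (M : IntermediateField (K0 p k) k) : Prop :=
  ∃ g : M →+* B, (∀ x : M, Ideal.Quotient.mk I (g x) = f x) ∧
    ∀ (x : M) (c : k), c ^ p = x → g x = phi (p := p) I hI f c

theorem pow_mem_K0 (c : k) (M : IntermediateField (K0 p k) k) : c ^ p ∈ M :=
  M.algebraMap_mem ⟨c ^ p, ⟨c, rfl⟩⟩

theorem base : Q (p := p) I hI f ⊥ := by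
  let e : k ≃+* K0 p k := RingEquiv.ofBijective (frobenius k p).rangeRestrictField
    (frobenius k p).rangeRestrictField_bijective
  have he : ∀ a, ((e a : K0 p k) : k) = a ^ p := fun a => rfl
  let e' := IntermediateField.botEquiv (K0 p k) k
  have he' : ∀ x : (⊥ : IntermediateField (K0 p k) k), ((e' x : K0 p k) : k) = x := by
    intro x
    obtain ⟨y, rfl⟩ := e'.symm.surjective x
    rw [AlgEquiv.apply_symm_apply, IntermediateField.botEquiv_symm]
    rfl
  let g : (⊥ : IntermediateField (K0 p k) k) →+* B :=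
    ((phi (p := p) I hI f).comp (e.symm : K0 p k →+* k)).comp (e' : _ →+* K0 p k)
  have hg : ∀ (x : (⊥ : IntermediateField (K0 p k) k)) (c : k), c ^ p = x →
      g x = phi (p := p) I hI f c := by
    intro x c hc
    show phi (p := p) I hI f (e.symm (e' x)) = _
    congr 1
    rw [RingEquiv.symm_apply_eq]
    apply Subtype.ext
    rw [he', he, hc]
  refine ⟨g, ?_, hg⟩
  intro x
  obtain ⟨c, hc⟩ := (e' x : K0 p k).2
  have hc' : c ^ p = x := by
    rw [← he' x]; exact hc
  rw [hg x c hc', mk_phi, hc']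

theorem step (M : IntermediateField (K0 p k) k) (x : k) (h : Q (p := p) I hI f M) :
    Q (p := p) I hI f (M⟮x⟯.restrictScalars (K0 p k)) := by
  classical
  obtain ⟨g, hg1, hg2⟩ := h
  let _ : Algebra M B := g.toAlgebra
  have hgalg : ∀ a : M, algebraMap M B a = g a := fun a => rfl
  have hint : IsIntegral M x := by
    refine ⟨X ^ p - C ⟨x ^ p, pow_mem_K0 x M⟩, monic_X_pow_sub_C _ hp.out.ne_zero, ?_⟩
    rw [eval₂_sub, eval₂_pow, eval₂_X, eval₂_C, sub_eq_zero]
    rfl
  -- the image of `x`
  obtain ⟨y, hy1, hy2⟩ : ∃ y : B, Ideal.Quotient.mk I y = f x ∧ aeval y (minpoly M x) = 0 := by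
    by_cases hx : x ∈ M
    · refine ⟨g ⟨x, hx⟩, hg1 _, ?_⟩
      have h1 : minpoly M x = X - C (⟨x, hx⟩ : M) := by
        have := minpoly.eq_X_sub_C (B := k) (⟨x, hx⟩ : M)
        exact this
      rw [h1, map_sub, aeval_X, aeval_C, hgalg, sub_self]
    · refine ⟨ell I f x, mk_ell I f x, ?_⟩
      have h1 : Irreducible (X ^ p - C (⟨x ^ p, pow_mem_K0 x M⟩ : M)) := by
        refine X_pow_sub_C_irreducible_of_prime hp.out ?_
        intro b hb
        apply hx
        have h2 : ((b : k)) ^ p = x ^ p := congrArg (Subtype.val) hb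
        have h3 : (b : k) = x := frobenius_inj k p h2
        rw [← h3]
        exact b.2
      have h2 : X ^ p - C (⟨x ^ p, pow_mem_K0 x M⟩ : M) = minpoly M x := by
        refine minpoly.eq_of_irreducible_of_monic h1 ?_ (monic_X_pow_sub_C _ hp.out.ne_zero)
        rw [map_sub, map_pow, aeval_X, aeval_C, sub_eq_zero]
        rfl
      rw [← h2, map_sub, map_pow, aeval_X, aeval_C, hgalg, sub_eq_zero,
        hg2 ⟨x ^ p, pow_mem_K0 x M⟩ x rfl]
      rfl
  let pb := IntermediateField.adjoin.powerBasis hint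
  have hgen : pb.gen = AdjoinSimple.gen M x := rfl
  have hmin : minpoly M pb.gen = minpoly M x := by
    rw [hgen, IntermediateField.minpoly_gen]
  let g' : M⟮x⟯ →ₐ[M] B := pb.lift y (by rw [hmin]; exact hy2)
  have hg' : g' pb.gen = y := pb.lift_gen _ _
  -- compare with `f`
  let f' : M⟮x⟯ →ₐ[M] B ⧸ I :=
    { f.comp (algebraMap M⟮x⟯ k) with
      commutes' := by
        intro a
        show f (a : k) = Ideal.Quotient.mk I (g a)
        rw [hg1] }
  have hf' : (Ideal.Quotient.mkₐ M I).comp g' = f' := by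
    refine pb.algHom_ext ?_
    rw [AlgHom.comp_apply, hg']
    show Ideal.Quotient.mk I y = f (AdjoinSimple.gen M x : k)
    rw [hy1, AdjoinSimple.coe_gen]
  refine ⟨g'.toRingHom, ?_, ?_⟩
  · intro z
    exact congrArg (fun h => h z) hf'
  · intro z c hz
    have h1 : z = algebraMap M M⟮x⟯ ⟨c ^ p, pow_mem_K0 c M⟩ := Subtype.ext hz.symm
    have h2 : g' (algebraMap M M⟮x⟯ ⟨c ^ p, pow_mem_K0 c M⟩) = g ⟨c ^ p, pow_mem_K0 c M⟩ :=
      g'.commutes _
    rw [h1]
    refine h2.trans (hg2 _ _ rfl)

end

theorem finite_over_powers {p : ℕ} [Fact p.Prime] {k : Type u} [Field k] [CharP k p]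
    (h : IsFFinite p k) : FiniteDimensional (K0 p k) k := by
  classical
  obtain ⟨s, hs⟩ := h
  refine ⟨⟨s, ?_⟩⟩
  rw [eq_top_iff]
  intro x _
  obtain ⟨a, ha⟩ := hs x
  rw [ha]
  refine Submodule.sum_mem _ fun i hi => ?_
  have : a i ^ p * i = (⟨a i ^ p, ⟨a i, rfl⟩⟩ : K0 p k) • i := rfl
  rw [this]
  exact Submodule.smul_mem _ _ (Submodule.subset_span hi)

theorem lift_ringHom {p : ℕ} [Fact p.Prime] {k : Type u} [Field k] [CharP k p]
    (h : IsFFinite p k) {B : Type u} [CommRing B] [CharP B p] (I : Ideal B) (hI : I ^ 2 = ⊥)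
    (f : k →+* B ⧸ I) : ∃ g : k →+* B, (Ideal.Quotient.mk I).comp g = f := by
  have := finite_over_powers h
  obtain ⟨g, hg, _⟩ := IntermediateField.induction_on_adjoin (F := K0 p k) (E := k)
    (Q (p := p) I hI f) (base I hI f) (fun M x hM => step I hI f M x hM) ⊤
  refine ⟨g.comp (IntermediateField.topEquiv (F := K0 p k) (E := k)).symm.toAlgHom.toRingHom, ?_⟩
  ext x
  rw [RingHom.comp_apply, RingHom.comp_apply, hg]
  rfl

theorem formallySmooth {p : ℕ} [Fact p.Prime] {k : Type u} [Field k] [CharP k p]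
    [Algebra (ZMod p) k] (h : IsFFinite p k) : Algebra.FormallySmooth (ZMod p) k := by
  refine Algebra.FormallySmooth.of_comp_surjective ?_
  intro B _ _ I hI f
  rcases subsingleton_or_nontrivial B with hB | hB
  · refine ⟨AlgHom.mk (RingHom.mk (MonoidHom.mk (OneHom.mk (fun _ => (0 : B))
        (Subsingleton.elim _ _)) (fun _ _ => Subsingleton.elim _ _)) (Subsingleton.elim _ _)
        (fun _ _ => Subsingleton.elim _ _)) (fun _ => Subsingleton.elim _ _), ?_⟩
    have : Subsingleton (B ⧸ I) := Ideal.Quotient.mk_surjective.subsingleton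
    exact AlgHom.ext fun x => Subsingleton.elim _ _
  · have : CharP B p := charP_of_injective_algebraMap (algebraMap (ZMod p) B).injective p
    obtain ⟨g, hg⟩ := lift_ringHom h I hI f.toRingHom
    refine ⟨{ g with commutes' := fun c => ?_ }, ?_⟩
    · have : (g.comp (algebraMap (ZMod p) k)) = algebraMap (ZMod p) B := Subsingleton.elim _ _
      exact congrArg (fun h => h c) this
    · exact AlgHom.ext fun x => congrArg (fun h => h x) hg

end COEF

open COEF

theorem t_COEF : S_COEF.{u} := by
  intro p _ R _ _ _ _ _ hfin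
  have hres0 : ((p : ℕ) : ResidueField R) = 0 := by
    rw [← map_natCast (residue R), CharP.cast_eq_zero, map_zero]
  have : CharP (ResidueField R) p :=
    (CharP.charP_iff_prime_eq_zero (Fact.out : p.Prime)).2 hres0
  have hff : IsFFinite p (ResidueField R) := by
    classical
    obtain ⟨s, hs⟩ := hfin
    refine ⟨s.image (residue R), fun x => ?_⟩
    obtain ⟨r, rfl⟩ := residue_surjective x
    obtain ⟨a, ha⟩ := hs r
    refine ⟨fun y => ∑ z ∈ s with residue R z = y, residue R (a z), ?_⟩
    conv_lhs => rw [ha]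
    rw [map_sum, ← Finset.sum_fiberwise_of_maps_to (s := s) (t := s.image (residue R))
      (g := residue R) (fun y hy => Finset.mem_image_of_mem _ hy)]
    refine Finset.sum_congr rfl fun z _ => ?_
    rw [sum_pow_char, Finset.sum_mul]
    refine Finset.sum_congr rfl fun y hy => ?_
    rw [map_mul, map_pow, (Finset.mem_filter.1 hy).2]
  let _ : Algebra (ZMod p) R := ZMod.algebra R p
  have := formallySmooth (k := ResidueField R) hff
  obtain ⟨g, hg⟩ := Algebra.FormallySmooth.exists_mkₐ_comp_eq_of_isAdicComplete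
    (R := ZMod p) (A := ResidueField R) (S := R) (I := maximalIdeal R)
    (AlgHom.id (ZMod p) (ResidueField R))
  exact ⟨g.toRingHom, fun x => congrArg (fun h => h x) hg⟩

end Run7.h889
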