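import Pool.Agent.Run7.h889.Iface
import Pool.Agent.Helper819.DC.EV
import Pool.Agent.Helper819.DC.COMP2
import Pool.Agent.Helper819.DC.FINF

/-!
# MP_7dd379_ag, piece STR: complete local domains are finite over power series rings
-/

set_option autoImplicit false

namespace Run7.h889

open Module IsLocalRing

universe u

namespace STR

theorem dim_le_of_isIntegral {A R : Type u} [CommRing A] [CommRing R] (f : A →+* R)
    (hf : f.IsIntegral) : ringKrullDim R ≤ ringKrullDim A := by
  let _ := f.toAlgebra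
  refine Order.krullDim_le_of_strictMono (PrimeSpectrum.comap f) ?_
  intro P Q hPQ
  have h1 : P.asIdeal < Q.asIdeal := hPQ
  obtain ⟨x, hxQ, hxP⟩ := SetLike.exists_of_lt h1
  exact Ideal.comap_lt_comap_of_integral_mem_sdiff (R := A) h1.le ⟨hxQ, hxP⟩ (hf x)

/-- modulo every power of the maximal ideal the ring is spanned by finitely many elements -/
theorem exists_span {R k : Type u} [CommRing R] [IsLocalRing R] [IsNoetherianRing R]
    [Field k] [Algebra k R] (hres : ∀ r : R, ∃ c : k, r - algebraMap k R c ∈ maximalIdeal R)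
    (n : ℕ) : ∃ W : Submodule k R, W.FG ∧ ∀ r : R, ∃ w ∈ W, r - w ∈ maximalIdeal R ^ n := by
  induction n with
  | zero => exact ⟨⊥, Submodule.fg_bot, fun r => ⟨0, Submodule.zero_mem _, by simp⟩⟩
  | succ n ih =>
    obtain ⟨W, hW, h⟩ := ih
    obtain ⟨G, hG⟩ := (maximalIdeal R ^ n).fg_of_isNoetherianRing
    refine ⟨W ⊔ Submodule.span k (G : Set R), hW.sup (Submodule.fg_span G.finite_toSet), ?_⟩
    have key : ∀ x ∈ maximalIdeal R ^ n, ∃ w ∈ Submodule.span k (G : Set R),
        x - w ∈ maximalIdeal R ^ (n + 1) := by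
      intro x hx
      rw [← hG] at hx
      induction hx using Submodule.span_induction with
      | mem g hg => exact ⟨g, Submodule.subset_span hg, by simp⟩
      | zero => exact ⟨0, Submodule.zero_mem _, by simp⟩
      | add x y _ _ hx hy =>
        obtain ⟨w, hw, h1⟩ := hx
        obtain ⟨w', hw', h2⟩ := hy
        refine ⟨w + w', Submodule.add_mem _ hw hw', ?_⟩
        have : x + y - (w + w') = (x - w) + (y - w') := by ring
        rw [this]
        exact Ideal.add_mem _ h1 h2
      | smul a x hx' hx =>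
        obtain ⟨w, hw, h1⟩ := hx
        obtain ⟨c, hc⟩ := hres a
        refine ⟨c • w, Submodule.smul_mem _ _ hw, ?_⟩
        have hx2 : x ∈ maximalIdeal R ^ n := by rw [← hG]; exact hx'
        have hw2 : w ∈ maximalIdeal R ^ n := by
          have := Ideal.sub_mem _ hx2 (Ideal.pow_le_pow_right (Nat.le_succ n) h1)
          simpa using this
        have : a • x - c • w = a * (x - w) + (a - algebraMap k R c) * w := by
          rw [smul_eq_mul, Algebra.smul_def c w]; ring
        rw [this]
        refine Ideal.add_mem _ (Ideal.mul_mem_left _ _ h1) ?_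
        rw [pow_succ']
        exact Ideal.mul_mem_mul hc hw2
    intro r
    obtain ⟨w, hw, h1⟩ := h r
    obtain ⟨w', hw', h2⟩ := key _ h1
    refine ⟨w + w', Submodule.add_mem _ (Submodule.mem_sup_left hw) (Submodule.mem_sup_right hw'), ?_⟩
    rwa [← sub_sub]

end STR

open STR

theorem t_STR : S_STR.{u} := by
  intro R _ _ _ _ _ k _ σ hres d hdim z hz s hs
  let _ : Algebra k R := σ.toAlgebra
  have halg : ∀ c, algebraMap k R c = σ c := fun c => rfl
  obtain ⟨Φ, hΦ⟩ := Pool.Agent.Helper819.DC.EV.evm_exists (K := k) (maximalIdeal R) z hz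
  have hmax : maximalIdeal (MvPowerSeries (Fin d) k) = Ideal.span (Set.range MvPowerSeries.X) :=
    Pool.Agent.Helper819.DC.COMP2.max_eq_span_aux
  have hmap : (maximalIdeal (MvPowerSeries (Fin d) k)).map Φ.toRingHom =
      Ideal.span (Set.range z) := by
    rw [hmax, Ideal.map_span, ← Set.range_comp]
    congr 1
    ext y
    simp only [Set.mem_range, Function.comp_apply]
    constructor
    · rintro ⟨i, rfl⟩
      exact ⟨i, (hΦ i).symm⟩
    · rintro ⟨i, rfl⟩
      exact ⟨i, hΦ i⟩
  have hle : Ideal.span (Set.range z) ≤ maximalIdeal R := by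
    rw [Ideal.span_le]
    rintro _ ⟨i, rfl⟩
    exact hz i
  have hloc : IsLocalHom Φ.toRingHom := by
    refine ((IsLocalRing.local_hom_TFAE Φ.toRingHom).out 0 2).2 ?_
    rw [hmap]
    exact hle
  have : IsAdicComplete (maximalIdeal (MvPowerSeries (Fin d) k)) (MvPowerSeries (Fin d) k) :=
    Pool.Agent.Helper819.DC.COMP2.complete_mvPowerSeries
  have hfd : FiniteDimensional k (R ⧸ (maximalIdeal (MvPowerSeries (Fin d) k)).map Φ.toRingHom) := by
    obtain ⟨W, hW, h⟩ := exists_span hres s
    have h1 : (W.map (Ideal.Quotient.mkₐ k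
        ((maximalIdeal (MvPowerSeries (Fin d) k)).map Φ.toRingHom)).toLinearMap) = ⊤ := by
      rw [eq_top_iff]
      intro y _
      obtain ⟨r, rfl⟩ := Ideal.Quotient.mk_surjective y
      obtain ⟨w, hw, h2⟩ := h r
      refine ⟨w, hw, ?_⟩
      have h3 : r - w ∈ (maximalIdeal (MvPowerSeries (Fin d) k)).map Φ.toRingHom := by
        rw [hmap]
        exact hs h2
      exact ((Ideal.Quotient.mk_eq_mk_iff_sub_mem _ _).2 h3).symm
    exact ⟨h1 ▸ hW.map _⟩
  have hfin : Φ.toRingHom.Finite :=
    Pool.Agent.Helper819.DC.FINF.finite_of_fibre Φ hloc hfd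
  refine ⟨Φ.toRingHom, hΦ, fun c => Φ.commutes c, hfin, ?_⟩
  rw [RingHom.injective_iff_ker_eq_bot]
  by_contra hker
  obtain ⟨a, ha, ha0⟩ := Submodule.exists_mem_ne_zero_of_ne_bot hker
  have h1 : ringKrullDim (MvPowerSeries (Fin d) k ⧸ RingHom.ker Φ.toRingHom) + 1 ≤
      ringKrullDim (MvPowerSeries (Fin d) k) := by
    refine ringKrullDim_succ_le_of_surjective (Ideal.Quotient.mk _) Ideal.Quotient.mk_surjective
      (mem_nonZeroDivisors_of_ne_zero ha0) ?_
    exact Ideal.Quotient.eq_zero_iff_mem.2 ha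
  have h2 : ringKrullDim (MvPowerSeries (Fin d) k) ≤ d := by
    refine (ringKrullDim_le_spanFinrank_maximalIdeal _).trans ?_
    have : (maximalIdeal (MvPowerSeries (Fin d) k)).spanFinrank ≤ d := by
      rw [hmax]
      refine (Submodule.spanFinrank_span_le_ncard_of_finite (Set.finite_range _)).trans ?_
      rw [← Set.image_univ]
      refine (Set.ncard_image_le Set.finite_univ).trans ?_
      simp [Set.ncard_univ]
    exact_mod_cast this
  have h3 : (Ideal.Quotient.lift (RingHom.ker Φ.toRingHom) Φ.toRingHom (fun _ h => h)).Finite := by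
    refine RingHom.Finite.of_comp_finite (f := Ideal.Quotient.mk _) ?_
    exact hfin
  have h4 := dim_le_of_isIntegral _ h3.to_isIntegral
  rw [hdim] at h4
  have h5 : ((d : WithBot ℕ∞)) + 1 ≤ d := by
    refine le_trans ?_ (h1.trans h2)
    gcongr
  have h6 : ((d + 1 : ℕ) : WithBot ℕ∞) ≤ ((d : ℕ) : WithBot ℕ∞) := by
    exact_mod_cast h5
  have h7 : d + 1 ≤ d := by exact_mod_cast h6
  omega

end Run7.h889
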