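import Mathlib

set_option autoImplicit false
set_option linter.unusedSimpArgs false
set_option linter.unusedVariables false
set_option linter.unusedSectionVars false
set_option linter.deprecated false

namespace Run7.h889

universe u v w

section AL

variable {k : Type u} [Field k] [Infinite k] {A : Type u} [CommRing A] (io : k →+* A)
  {C : Type v} [CommRing C] [IsArtinianRing C] [IsReduced C] {T : Type w} [AddCommGroup T]
  [Module A T] {J : Type} [Fintype J] [DecidableEq J] (lam : J → C →+ T)

/-- Existence of a nondegenerate linear combination of functionals. -/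
theorem exists_functional (S : Set C) (hS : ∀ s ∈ S, s ≠ 0 → IsUnit s)
    (h1 : ∀ z, (∀ j, lam j z = 0) → z ∈ S) (h2 : ∃ z, z ∉ S) :
    ∃ c : J → k, ∀ z : C, z ≠ 0 → ∃ y, ∑ j, io (c j) • lam j (z * y) ≠ 0 := by
  classical
  let Φ := IsArtinianRing.equivPi C
  -- the idempotents
  let e : MaximalSpectrum C → C := fun I => Φ.symm (Pi.single I 1)
  have he : ∀ I, Φ (e I) = Pi.single I 1 := fun I => Φ.apply_symm_apply _
  have key : ∀ z : C, z ≠ 0 → ∃ I : MaximalSpectrum C, ∃ y, z * y = e I := by
    intro z hz
    have h3 : Φ z ≠ 0 := by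
      intro h
      exact hz ((map_eq_zero_iff Φ Φ.injective).1 h)
    obtain ⟨I, hI⟩ : ∃ I, Φ z I ≠ 0 := by
      by_contra hcon
      push Not at hcon
      exact h3 (funext hcon)
    have hmax : I.asIdeal.IsMaximal := I.isMaximal
    letI := Ideal.Quotient.field I.asIdeal
    refine ⟨I, Φ.symm (Pi.single I (Φ z I)⁻¹), ?_⟩
    apply Φ.injective
    rw [map_mul, Φ.apply_symm_apply, he]
    funext I'
    by_cases h : I' = I
    · subst h
      rw [Pi.mul_apply, Pi.single_eq_same, Pi.single_eq_same]
      exact mul_inv_cancel₀ hI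
    · rw [Pi.mul_apply, Pi.single_eq_of_ne h, Pi.single_eq_of_ne h, mul_zero]
  -- the subspaces
  let V : MaximalSpectrum C → Subspace k (J → k) := fun I =>
    { carrier := {c | ∀ x : C, ∑ j, io (c j) • lam j (e I * x) = 0}
      zero_mem' := by intro x; simp
      add_mem' := by
        intro c c' hc hc' x
        have : ∑ j, io ((c + c') j) • lam j (e I * x) = ∑ j, io (c j) • lam j (e I * x) +
            ∑ j, io (c' j) • lam j (e I * x) := by
          rw [← Finset.sum_add_distrib]
          apply Finset.sum_congr rfl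
          intro j _
          rw [Pi.add_apply, map_add, add_smul]
        rw [this, hc x, hc' x, add_zero]
      smul_mem' := by
        intro a c hc x
        have : ∑ j, io ((a • c) j) • lam j (e I * x) = io a • ∑ j, io (c j) • lam j (e I * x) := by
          rw [Finset.smul_sum]
          apply Finset.sum_congr rfl
          intro j _
          rw [Pi.smul_apply, smul_eq_mul, map_mul, mul_smul]
        rw [this, hc x, smul_zero] }
  have hV : ∀ I, V I ≠ ⊤ := by
    intro I hI
    have h3 : ∀ x j, lam j (e I * x) = 0 := by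
      intro x j
      have h4 : (Pi.single j 1 : J → k) ∈ V I := by rw [hI]; trivial
      have h5 := h4 x
      rw [Finset.sum_eq_single j] at h5
      · rwa [Pi.single_eq_same, map_one, one_smul] at h5
      · intro j' _ hj'
        rw [Pi.single_eq_of_ne hj', map_zero, zero_smul]
      · intro h; exact absurd (Finset.mem_univ _) h
    have h6 : e I ∈ S := by
      have := h1 (e I * 1) (fun j => h3 1 j)
      rwa [mul_one] at this
    have hmax : I.asIdeal.IsMaximal := I.isMaximal
    have h7 : e I ≠ 0 := by
      intro h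
      have h8 := he I
      rw [h, map_zero] at h8
      have h9 := congrFun h8 I
      rw [Pi.single_eq_same, Pi.zero_apply] at h9
      haveI : Nontrivial (C ⧸ I.asIdeal) := Ideal.Quotient.nontrivial_iff.2 hmax.ne_top
      exact zero_ne_one h9
    have h10 := hS _ h6 h7
    obtain ⟨u, hu⟩ := h10.exists_right_inv
    obtain ⟨z, hz⟩ := h2
    apply hz
    have := h1 (e I * (u * z)) (fun j => h3 _ j)
    rwa [← mul_assoc, hu, one_mul] at this
  have hfin : Finite (MaximalSpectrum C) := inferInstance
  obtain ⟨c, hc⟩ : ∃ c : J → k, ∀ I, c ∉ V I := by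
    by_contra hcon
    push Not at hcon
    have h3 : ⋃ I, (V I : Set (J → k)) = Set.univ := by
      rw [Set.eq_univ_iff_forall]
      intro c
      obtain ⟨I, hI⟩ := hcon c
      exact Set.mem_iUnion.2 ⟨I, hI⟩
    obtain ⟨I, hI⟩ := Subspace.exists_eq_top_of_iUnion_eq_univ h3
    exact hV I hI
  refine ⟨c, fun z hz => ?_⟩
  obtain ⟨I, y, hy⟩ := key z hz
  have h3 : ∃ x, ∑ j, io (c j) • lam j (e I * x) ≠ 0 := by
    by_contra hcon
    push Not at hcon
    exact hc I hcon
  obtain ⟨x, hx⟩ := h3
  refine ⟨y * x, ?_⟩
  rwa [← mul_assoc, hy]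

end AL

end Run7.h889
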