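import Pool.Agent.Run7.h889.Cubic2

set_option autoImplicit false
set_option linter.unusedSimpArgs false
set_option linter.unusedVariables false
set_option linter.unusedSectionVars false
set_option linter.deprecated false

namespace Run7.h889

open Module nonZeroDivisors Polynomial

universe u v

section hart

variable {A : Type u} [CommRing A] [IsDomain A] {x y : A}

/-- `C x f ∈ (C y, χ)` implies `f ∈ (C y, χ)`. -/
lemma hart_step (hy : Prime y) (hyx : ¬ y ∣ x) (hP : (Ideal.span {x, y}).IsPrime) {χ : A[X]}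
    (hχ : χ ∉ Ideal.map C (Ideal.span {x, y})) {f f1 h : A[X]}
    (e : C x * f = C y * f1 + χ * h) : ∃ f2 h2 : A[X], f = C y * f2 + χ * h2 := by
  have hprime : (Ideal.map (C : A →+* A[X]) (Ideal.span {x, y})).IsPrime :=
    Ideal.isPrime_map_C_of_isPrime
  have mx : C x ∈ Ideal.map (C : A →+* A[X]) (Ideal.span {x, y}) :=
    Ideal.mem_map_of_mem _ (Ideal.subset_span (by simp))
  have my : C y ∈ Ideal.map (C : A →+* A[X]) (Ideal.span {x, y}) :=
    Ideal.mem_map_of_mem _ (Ideal.subset_span (by simp))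
  have h1 : χ * h ∈ Ideal.map (C : A →+* A[X]) (Ideal.span {x, y}) := by
    have : χ * h = C x * f - C y * f1 := by rw [e]; ring
    rw [this]
    exact Ideal.sub_mem _ (Ideal.mul_mem_right _ _ mx) (Ideal.mul_mem_right _ _ my)
  have h2 := (hprime.mem_or_mem h1).resolve_left hχ
  rw [Ideal.map_span, Set.image_pair, Ideal.mem_span_pair] at h2
  obtain ⟨a, b, hab⟩ := h2
  have e2 : C x * (f - χ * a) = C y * (f1 + χ * b) := by
    rw [← hab] at e
    linear_combination e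
  have hyC : Prime (C y : A[X]) := prime_C_iff.2 hy
  have hd : C y ∣ C x * (f - χ * a) := ⟨_, e2⟩
  rcases hyC.dvd_or_dvd hd with h3 | h3
  · exfalso
    apply hyx
    rw [C_dvd_iff_dvd_coeff] at h3
    have := h3 0
    rwa [coeff_C_zero] at this
  · obtain ⟨f2, hf2⟩ := h3
    exact ⟨f2, a, by rw [← hf2]; ring⟩

lemma hart_steps (hy : Prime y) (hyx : ¬ y ∣ x) (hP : (Ideal.span {x, y}).IsPrime) {χ : A[X]}
    (hχ : χ ∉ Ideal.map C (Ideal.span {x, y})) (r : ℕ) : ∀ {f f1 h : A[X]},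
    (C x ^ r * f = C y * f1 + χ * h) → ∃ f2 h2 : A[X], f = C y * f2 + χ * h2 := by
  induction r with
  | zero =>
    intro f f1 h e
    rw [pow_zero, one_mul] at e
    exact ⟨f1, h, e⟩
  | succ r ih =>
    intro f f1 h e
    have e1 : C x * (C x ^ r * f) = C y * f1 + χ * h := by rw [← e]; ring
    obtain ⟨f2, h2, e2⟩ := hart_step hy hyx hP hχ e1
    exact ih e2

/-- **Hartogs-type lemma.** -/
theorem hart_poly (hy : Prime y) (hyx : ¬ y ∣ x) (hP : (Ideal.span {x, y}).IsPrime) {χ : A[X]}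
    (hχ : χ ∉ Ideal.map C (Ideal.span {x, y})) (r k : ℕ) : ∀ {G Q H : A[X]},
    (C y ^ k * G = C x ^ r * Q + χ * H) → ∃ Q' H' : A[X], G = C x ^ r * Q' + χ * H' := by
  have hyC : Prime (C y : A[X]) := prime_C_iff.2 hy
  have hyχ : ¬ C y ∣ χ := by
    rintro ⟨c, hc⟩
    apply hχ
    rw [hc]
    exact Ideal.mul_mem_right _ _ (Ideal.mem_map_of_mem _ (Ideal.subset_span (by simp)))
  induction k with
  | zero =>
    intro G Q H e
    rw [pow_zero, one_mul] at e
    exact ⟨Q, H, e⟩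
  | succ k ih =>
    intro G Q H e
    have e1 : C x ^ r * Q = C y * (C y ^ k * G) + χ * (-H) := by
      rw [pow_succ] at e
      linear_combination -e
    obtain ⟨Q1, H1, e2⟩ := hart_steps hy hyx hP hχ r e1
    have e3 : C y * (C y ^ k * G - C x ^ r * Q1) = χ * (H + C x ^ r * H1) := by
      rw [e2] at e1
      linear_combination -e1
    obtain ⟨H2, hH2⟩ := (hyC.dvd_or_dvd ⟨_, e3.symm⟩).resolve_left hyχ
    have e4 : C y * (C y ^ k * G) = C y * (C x ^ r * Q1 + χ * H2) := by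
      rw [hH2] at e3
      linear_combination e3
    exact ih (mul_left_cancel₀ hyC.ne_zero e4)

end hart

namespace Cub

variable {A : Type u} {R : Type v} [CommRing A] [IsDomain A] [CommRing R] [IsDomain R] [Algebra A R]
variable (C' : Cub A R)

include C' in
lemma injAR : Function.Injective (algebraMap A R) := by
  rw [injective_iff_map_eq_zero]
  intro a ha
  have : C'.el a 0 0 = 0 := by simp [el, ha]
  exact (C'.el_eq_zero this).1

/-- the relation `(-φ(l))^r g' = w^r s` -/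
lemma rel_w {r : ℕ} {g h : R} (hg : g ≠ 0) (ha : C'.a ≠ 0) (l : A)
    (hh : algebraMap A R C'.a ^ r * h = g * (C'.el (-(C'.a * l)) 1 0) ^ r) {g0 g1 g2 : A}
    (hge : g = C'.el g0 g1 g2) :
    ∃ s : R, algebraMap A R (-(C'.ph l)) ^ r * C'.sh g0 g1 g2 =
      (C'.el (-(C'.a * l)) 1 0) ^ r * s := by
  have hinj := C'.injAR
  set w := C'.el (-(C'.a * l)) 1 0 with hw
  obtain ⟨ν, hν⟩ : ∃ ν, ν = Algebra.norm A g := ⟨_, rfl⟩
  obtain ⟨μ, hμ⟩ : ∃ μ, μ = Algebra.norm A h := ⟨_, rfl⟩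
  obtain ⟨s, hs⟩ : ∃ s : R, h * s = algebraMap A R μ := by
    refine ⟨C'.sh (C'.B.repr h 0) (C'.B.repr h 1) (C'.B.repr h 2), ?_⟩
    have h1 := C'.mul_sh (C'.B.repr h 0) (C'.B.repr h 1) (C'.B.repr h 2)
    rw [← norm_el, ← C'.eq_el h] at h1
    rw [h1, hμ]
  have hgg : g * C'.sh g0 g1 g2 = algebraMap A R ν := by
    rw [hge, mul_sh, ← norm_el, ← hge, hν]
  -- norms
  have hn : C'.a ^ r * μ = ν * (-(C'.ph l)) ^ r := by
    have h1 := congrArg (Algebra.norm A) hh
    rw [map_mul, map_mul, map_pow, map_pow, Algebra.norm_algebraMap_of_basis C'.B, hw, norm_w,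
      Fintype.card_fin, ← hν, ← hμ] at h1
    have h2 : (C'.a ^ 2) ^ r * (C'.a ^ r * μ) = (C'.a ^ 2) ^ r * (ν * (-(C'.ph l)) ^ r) := by
      have e1 : (C'.a ^ 3) ^ r = (C'.a ^ 2) ^ r * C'.a ^ r := by
        rw [← mul_pow]; congr 1; ring
      have e2 : (-(C'.a ^ 2 * C'.ph l)) ^ r = (C'.a ^ 2) ^ r * (-(C'.ph l)) ^ r := by
        rw [← mul_pow]; congr 1; ring
      rw [e1, e2] at h1
      linear_combination h1
    exact mul_left_cancel₀ (pow_ne_zero _ (pow_ne_zero _ ha)) h2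
  refine ⟨s, mul_left_cancel₀ hg ?_⟩
  have e3 : g * (algebraMap A R (-(C'.ph l)) ^ r * C'.sh g0 g1 g2) =
      algebraMap A R (ν * (-(C'.ph l)) ^ r) := by
    rw [map_mul, ← hgg, map_pow]; ring
  have e4 : g * (w ^ r * s) = algebraMap A R (C'.a ^ r * μ) := by
    rw [map_mul, ← hs, map_pow]
    linear_combination (-s) * hh
  rw [e3, e4, hn]

section poly

variable (o : ℕ) (y ρ : A)

/-- image of `α` -/
noncomputable def pU : A[X] := C (C'.a * y ^ o) * X

/-- image of `β` -/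
noncomputable def pV : A[X] := C (C'.a * y ^ (2 * o)) * X ^ 2 + C (C'.b * y ^ o) * X + C C'.c

/-- the polynomial `χ` -/
noncomputable def pχ : A[X] := C'.pV o y * X + C ρ

/-- representing polynomial of an element -/
noncomputable def pG (z : R) : A[X] :=
  C (C'.B.repr z 0) + C (C'.B.repr z 1) * C'.pU o y + C (C'.B.repr z 2) * C'.pV o y

lemma pG_el (z0 z1 z2 : A) : C'.pG o y (C'.el z0 z1 z2) = C z0 + C z1 * C'.pU o y + C z2 * C'.pV o y := by
  rw [pG, repr_el0, repr_el1, repr_el2]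

variable {o y ρ}

lemma pG_mul (hd : C'.d = y ^ o * ρ) (z w : R) :
    ∃ H, C'.pG o y (z * w) = C'.pG o y z * C'.pG o y w + C'.pχ o y ρ * H := by
  rw [C'.eq_el z, C'.eq_el w, el_mul, pG_el, pG_el, pG_el]
  set z0 := C'.B.repr z 0
  set z1 := C'.B.repr z 1
  set z2 := C'.B.repr z 2
  set w0 := C'.B.repr w 0
  set w1 := C'.B.repr w 1
  set w2 := C'.B.repr w 2
  refine ⟨-(C (z1 * w2 + z2 * w1) * C (C'.a * y ^ o) +
    C (z2 * w2) * (C (y ^ o) * (C'.pU o y + C C'.b))), ?_⟩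
  have e1 : C'.pU o y ^ 2 = -(C C'.a * C C'.c) - C C'.b * C'.pU o y + C C'.a * C'.pV o y := by
    simp only [pU, pV, map_mul, map_pow]; ring
  have e2 : C'.pU o y * C'.pV o y = -(C C'.a * C C'.d) + C (C'.a * y ^ o) * C'.pχ o y ρ := by
    simp only [pU, pV, pχ, hd, map_mul, map_pow]; ring
  have e3 : C'.pV o y ^ 2 = -(C C'.b * C C'.d) - C C'.d * C'.pU o y + C C'.c * C'.pV o y +
      C (y ^ o) * (C'.pU o y + C C'.b) * C'.pχ o y ρ := by
    simp only [pU, pV, pχ, hd, map_mul, map_pow]; ring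
  simp only [map_add, map_sub, map_mul, map_pow] at e1 e2 e3 ⊢
  linear_combination (- C z1 * C w1) * e1 - (C z1 * C w2 + C z2 * C w1) * e2 -
    (C z2 * C w2) * e3

lemma pG_pow (hd : C'.d = y ^ o * ρ) (z : R) (r : ℕ) :
    ∃ H, C'.pG o y (z ^ r) = C'.pG o y z ^ r + C'.pχ o y ρ * H := by
  induction r with
  | zero =>
    refine ⟨0, ?_⟩
    have : (1 : R) = C'.el 1 0 0 := by simp [el]
    rw [pow_zero, pow_zero, this, pG_el]
    simp
  | succ r ih =>
    obtain ⟨H, hH⟩ := ih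
    obtain ⟨H', hH'⟩ := C'.pG_mul (ρ := ρ) hd (z ^ r) z
    refine ⟨H * C'.pG o y z + H', ?_⟩
    rw [pow_succ, hH', hH]
    ring

lemma pG_algebraMap (a : A) : C'.pG o y (algebraMap A R a) = C a := by
  have : algebraMap A R a = C'.el a 0 0 := by simp [el]
  rw [this, pG_el]; simp

lemma pG_w (l : A) : C'.pG o y (C'.el (-(C'.a * l)) 1 0) = C C'.a * (C (y ^ o) * X - C l) := by
  rw [pG_el, pU]
  simp only [map_neg, map_mul, map_one, map_zero]
  ring

end poly

end Cub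

end Run7.h889
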