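import Pool.Agent.Run7.h889.Alpha

set_option autoImplicit false
set_option linter.unusedSimpArgs false
set_option linter.unusedVariables false
set_option linter.unusedSectionVars false
set_option linter.deprecated false

namespace Run7.h889

open Module nonZeroDivisors Polynomial

universe u v

namespace Cub

variable {A : Type u} {R : Type v} [CommRing A] [IsDomain A] [CommRing R] [IsDomain R] [Algebra A R]
variable (C' : Cub A R) {F : Fil A}

/-- `ν g` is the adjugate of `g'`: consequence for orders -/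
lemma nu_g_mem (ha : C'.a ∈ F.F 1) (hb : C'.b ∈ F.F 1) (hc : C'.c ∈ F.F 1) (hd : C'.d ∈ F.F 1)
    {g : R} (hg : g ≠ 0) {g0 g1 g2 : A} (hge : g = C'.el g0 g1 g2) {n1 : ℕ}
    (hn1 : C'.sh g0 g1 g2 ∈ GF C'.B F (Wc 1) n1) :
    algebraMap A R (Algebra.norm A g) * g ∈ GF C'.B F (Wc 1) (2 * n1) := by
  have hinj := C'.injAR
  obtain ⟨ν, hν⟩ : ∃ ν, ν = Algebra.norm A g := ⟨_, rfl⟩
  obtain ⟨g', hg'⟩ : ∃ g', g' = C'.sh g0 g1 g2 := ⟨_, rfl⟩
  have hgg : g * g' = algebraMap A R ν := by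
    rw [hg', hge, mul_sh, ← norm_el, ← hge, hν]
  have hν0 : ν ≠ 0 := by
    rw [hν]
    have h1 : Module.Finite A R := Module.Finite.of_basis C'.B
    have h2 : Module.Free A R := Module.Free.of_basis C'.B
    exact Algebra.norm_ne_zero_iff_of_basis C'.B |>.2 hg
  have hg'0 : g' ≠ 0 := by
    rintro rfl
    rw [mul_zero] at hgg
    exact hν0 (hinj (by rw [← hgg, map_zero]))
  have hnorm : Algebra.norm A g' = ν ^ 2 := by
    have h1 := congrArg (Algebra.norm A) hgg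
    rw [map_mul, Algebra.norm_algebraMap_of_basis C'.B, Fintype.card_fin, ← hν] at h1
    apply mul_left_cancel₀ hν0
    rw [h1]; ring
  obtain ⟨k0, hk0⟩ : ∃ k0, k0 = C'.B.repr g' 0 := ⟨_, rfl⟩
  obtain ⟨k1, hk1⟩ : ∃ k1, k1 = C'.B.repr g' 1 := ⟨_, rfl⟩
  obtain ⟨k2, hk2⟩ : ∃ k2, k2 = C'.B.repr g' 2 := ⟨_, rfl⟩
  have hge' : g' = C'.el k0 k1 k2 := by rw [hk0, hk1, hk2]; exact C'.eq_el g'
  have h3 : g' * C'.sh k0 k1 k2 = algebraMap A R (ν ^ 2) := by
    rw [← hnorm]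
    conv_lhs => rw [hge']
    rw [mul_sh, ← norm_el, ← hge']
  have h4 : algebraMap A R ν * g = C'.sh k0 k1 k2 := by
    apply mul_left_cancel₀ hg'0
    rw [h3, map_pow, pow_two, ← hgg]
    ring
  rw [← hν, h4]
  apply C'.sh_mem ha hb hc hd
  rw [← hge', hg']
  exact hn1

section ev

variable {L : Type v} [Field L] [Algebra R L] [IsFractionRing R L] [Algebra A L]
  [IsScalarTower A R L] {o : ℕ} {y ρ : A}

/-- evaluation of polynomials -/
noncomputable def evζ (ζ : L) : A[X] →+* L := eval₂RingHom (algebraMap A L) ζ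

omit [IsDomain A] [IsDomain R] [IsFractionRing R L] [IsScalarTower A R L] in
lemma evζ_C (ζ : L) (a : A) : evζ (A := A) ζ (C a) = algebraMap A L a := by
  rw [evζ, coe_eval₂RingHom, eval₂_C]

omit [IsDomain A] [IsDomain R] [IsFractionRing R L] [IsScalarTower A R L] in
lemma evζ_X (ζ : L) : evζ (A := A) ζ X = ζ := by
  rw [evζ, coe_eval₂RingHom, eval₂_X]

variable {ζ : L} (hxy : C'.a * y ^ o ≠ 0)
  (hζ : algebraMap A L (C'.a * y ^ o) * ζ = algebraMap R L (C'.B 1))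

include hζ hxy in
lemma ev_pU : evζ ζ (C'.pU o y) = algebraMap R L (C'.B 1) := by
  rw [pU, map_mul, evζ_C, evζ_X, hζ]

include hxy in
lemma algL_ne {a : A} (ha : a ≠ 0) : algebraMap A L a ≠ 0 := by
  rw [IsScalarTower.algebraMap_apply A R L]
  intro h
  have h1 := IsFractionRing.injective R L (h.trans (map_zero _).symm)
  exact ha (C'.injAR (h1.trans (map_zero _).symm))

include hζ hxy in
lemma ev_pV : evζ ζ (C'.pV o y) = algebraMap R L (C'.B 2) := by
  have ha : C'.a ≠ 0 := left_ne_zero_of_mul hxy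
  have ha' := C'.algL_ne (L := L) hxy ha
  apply mul_left_cancel₀ ha'
  simp only [pV, map_add, map_mul, map_pow, evζ_C, evζ_X]
  have h11 := congrArg (algebraMap R L) C'.h11
  simp only [map_add, map_mul, map_neg, ← IsScalarTower.algebraMap_apply A R L] at h11
  rw [← hζ] at h11
  simp only [map_mul, map_pow] at h11 ⊢
  linear_combination h11

include hζ hxy in
lemma ev_βζ (hd : C'.d = y ^ o * ρ) : algebraMap R L (C'.B 2) * ζ = - algebraMap A L ρ := by
  have h1 := C'.algL_ne (L := L) hxy hxy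
  apply mul_left_cancel₀ h1
  have h12 := congrArg (algebraMap R L) C'.h12
  simp only [map_add, map_mul, map_neg, ← IsScalarTower.algebraMap_apply A R L] at h12
  rw [← hζ, hd] at h12
  simp only [map_mul, map_pow] at h12 ⊢
  linear_combination h12

include hζ hxy in
lemma ev_pχ (hd : C'.d = y ^ o * ρ) : evζ ζ (C'.pχ o y ρ) = 0 := by
  rw [pχ, map_add, map_mul, evζ_C, evζ_X, C'.ev_pV hxy hζ, C'.ev_βζ hxy hζ hd]
  ring

include hζ hxy in
lemma ev_pG (z : R) : evζ ζ (C'.pG o y z) = algebraMap R L z := by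
  rw [pG, map_add, map_add, map_mul, map_mul, evζ_C, evζ_C, evζ_C, C'.ev_pU hxy hζ, C'.ev_pV hxy hζ]
  conv_rhs => rw [C'.eq_el z, el]
  simp only [map_add, map_mul, ← IsScalarTower.algebraMap_apply A R L]

include hζ hxy in
lemma ev_clear (ha : C'.a ∈ F.F 1) (hb : C'.b ∈ F.F 1) (hc : C'.c ∈ F.F 1) (hd' : C'.d ∈ F.F 1)
    (hd : C'.d = y ^ o * ρ) (hρ : ρ ∈ F.F 1) (Q : A[X]) :
    ∃ s ∈ GF C'.B F (Wc 1) Q.natDegree,
      algebraMap R L (C'.B 2) ^ Q.natDegree * evζ ζ Q = algebraMap R L s := by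
  set N := Q.natDegree
  refine ⟨∑ i ∈ Finset.range (N + 1), algebraMap A R (Q.coeff i * (-ρ) ^ i) * (C'.B 2) ^ (N - i),
    ?_, ?_⟩
  · apply Submodule.sum_mem
    intro i hi
    rw [Finset.mem_range] at hi
    have hb' := C'.hb ha hb hc hd'
    have m1 : algebraMap A R (Q.coeff i * (-ρ) ^ i) ∈ GF C'.B F (Wc 1) i := by
      apply C'.algebraMap_mem
      apply Ideal.mul_mem_left
      have := F.pow_mem (neg_mem hρ) i
      rwa [mul_one] at this
    have m2 : (C'.B 2) ^ (N - i) ∈ GF C'.B F (Wc 1) (N - i) := by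
      have := pow_mem_GF C'.B F (Wc 1) hb' (C'.B2_mem F 1) (N - i)
      rwa [mul_one] at this
    exact mul_le_GF C'.B F (Wc 1) hb' m1 m2 (by omega)
  · rw [evζ, coe_eval₂RingHom, eval₂_eq_sum_range, Finset.mul_sum, map_sum]
    apply Finset.sum_congr rfl
    intro i hi
    rw [Finset.mem_range] at hi
    have e1 : algebraMap R L (C'.B 2) ^ N = algebraMap R L (C'.B 2) ^ i *
        algebraMap R L (C'.B 2) ^ (N - i) := by
      rw [← pow_add]; congr 1; omega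
    have e2 : algebraMap R L (C'.B 2) ^ i * ζ ^ i = (- algebraMap A L ρ) ^ i := by
      rw [← mul_pow, C'.ev_βζ hxy hζ hd]
    rw [map_mul, ← IsScalarTower.algebraMap_apply A R L, map_mul, map_pow, map_pow, map_neg, ← e2, e1]
    ring

end ev

/-- **The bound (α).** -/
theorem alpha_bound (ha : C'.a ∈ F.F 1) (hb : C'.b ∈ F.F 1) (hc : C'.c ∈ F.F 1)
    (hd' : C'.d ∈ F.F 1) {o : ℕ} {y ρ : A} (hx0 : C'.a ≠ 0) (hy : Prime y) (hyx : ¬ y ∣ C'.a)
    (hP : (Ideal.span {C'.a, y}).IsPrime) (hd : C'.d = y ^ o * ρ) (hρ : ρ ∈ F.F 1)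
    (hχ : C'.pχ o y ρ ∉ Ideal.map C (Ideal.span {C'.a, y}))
    (hl : ∃ l0 ε : A, y = C'.ph l0 + ε * C'.a) {r : ℕ} {g : R} (hg : g ≠ 0)
    (hdiv : ∀ l : A, ∃ h : R, algebraMap A R C'.a ^ r * h = g * (C'.el (-(C'.a * l)) 1 0) ^ r)
    {n0 n1 : ℕ} (hn0 : Algebra.norm A g ∉ F.F (n0 + 1)) {g0 g1 g2 : A} (hge : g = C'.el g0 g1 g2)
    (hn1 : C'.sh g0 g1 g2 ∈ GF C'.B F (Wc 1) n1)
    (hβ : ∀ n, (C'.B 2) ^ n ∉ GF C'.B F (Wc 1) (n + 1)) : 2 * n1 + r ≤ 2 * n0 := by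
  classical
  have hb' := C'.hb ha hb hc hd'
  obtain ⟨g', hg'⟩ : ∃ g', g' = C'.sh g0 g1 g2 := ⟨_, rfl⟩
  obtain ⟨ν, hν⟩ : ∃ ν, ν = Algebra.norm A g := ⟨_, rfl⟩
  have hgg : g * g' = algebraMap A R ν := by
    rw [hg', hge, mul_sh, ← norm_el, ← hge, hν]
  have hy0 : y ≠ 0 := hy.ne_zero
  have hxy : C'.a * y ^ o ≠ 0 := mul_ne_zero hx0 (pow_ne_zero _ hy0)
  -- the ideal
  let I : Ideal A := {
    carrier := {s | ∃ Q H : A[X], C s * C'.pG o y g' = C C'.a ^ r * Q + C'.pχ o y ρ * H}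
    zero_mem' := ⟨0, 0, by simp⟩
    add_mem' := by
      rintro s t ⟨Q, H, h⟩ ⟨Q', H', h'⟩
      refine ⟨Q + Q', H + H', ?_⟩
      rw [map_add]
      linear_combination h + h'
    smul_mem' := by
      rintro s t ⟨Q, H, h⟩
      refine ⟨C s * Q, C s * H, ?_⟩
      rw [smul_eq_mul, map_mul]
      linear_combination (C s) * h }
  have hIx : C'.a ^ r ∈ I := ⟨C'.pG o y g', 0, by rw [map_pow]; ring⟩
  obtain ⟨l0, ε, hyl⟩ := hl
  have hIl : (C'.ph l0) ^ r ∈ I := by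
    obtain ⟨h, hh⟩ := hdiv l0
    obtain ⟨s, hs⟩ := C'.rel_w hg hx0 l0 hh hge
    obtain ⟨H1, hH1⟩ := C'.pG_mul (ρ := ρ) hd (algebraMap A R (-(C'.ph l0)) ^ r) g'
    obtain ⟨H2, hH2⟩ := C'.pG_mul (ρ := ρ) hd ((C'.el (-(C'.a * l0)) 1 0) ^ r) s
    obtain ⟨H3, hH3⟩ := C'.pG_pow (ρ := ρ) hd (C'.el (-(C'.a * l0)) 1 0) r
    rw [← hg'] at hs
    rw [hs, hH2, hH3, pG_w, ← map_pow, pG_algebraMap] at hH1
    have hI : (-(C'.ph l0)) ^ r ∈ I := by
      refine ⟨(C (y ^ o) * X - C l0) ^ r * C'.pG o y s, H3 * C'.pG o y s + H2 - H1, ?_⟩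
      rw [mul_pow] at hH1
      linear_combination -hH1
    rcases Nat.even_or_odd r with hr | hr
    · rwa [hr.neg_pow] at hI
    · rw [hr.neg_pow] at hI
      have := Ideal.neg_mem_iff _ |>.1 hI
      exact this
  have hIy : y ^ (r + r) ∈ I := by
    rw [hyl]
    have hIx' : (ε * C'.a) ^ r ∈ I := by
      rw [mul_pow]
      exact Ideal.mul_mem_left _ _ hIx
    exact Ideal.add_pow_mem_of_pow_mem_of_le I hIl hIx' (by omega)
  obtain ⟨Q, H, hQ⟩ := hIy
  rw [map_pow] at hQ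
  obtain ⟨Q', H', hQ'⟩ := hart_poly hy hyx hP hχ r (r + r) hQ
  -- evaluation
  obtain ⟨ζ, hζ⟩ : ∃ ζ : FractionRing R, algebraMap A (FractionRing R) (C'.a * y ^ o) * ζ =
      algebraMap R (FractionRing R) (C'.B 1) := by
    refine ⟨algebraMap R (FractionRing R) (C'.B 1) / algebraMap A (FractionRing R) (C'.a * y ^ o), ?_⟩
    rw [mul_div_cancel₀]
    exact C'.algL_ne hxy hxy
  obtain ⟨s, hs, hs'⟩ := C'.ev_clear hxy hζ ha hb hc hd' hd hρ Q'
  set N := Q'.natDegree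
  have e1 : (C'.B 2) ^ N * g' = algebraMap A R (C'.a ^ r) * s := by
    apply IsFractionRing.injective R (FractionRing R)
    have h1 := congrArg (evζ ζ) hQ'
    rw [map_add, map_mul, map_mul, C'.ev_pχ hxy hζ hd, zero_mul, add_zero, C'.ev_pG hxy hζ,
      map_pow, evζ_C] at h1
    rw [map_mul, map_mul, map_pow, h1, ← hs', ← IsScalarTower.algebraMap_apply A R (FractionRing R),
      map_pow]
    ring
  have m1 : (C'.B 2) ^ N * g' ∈ GF C'.B F (Wc 1) (r + N) := by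
    rw [e1]
    apply mul_mem_GF C'.B F (Wc 1) hb' _ hs
    apply C'.algebraMap_mem
    have := F.pow_mem ha r
    rwa [mul_one] at this
  have m2 := C'.nu_g_mem ha hb hc hd' hg hge hn1
  rw [← hν] at m2 hn0
  by_contra hcon
  push Not at hcon
  have m3 := mul_mem_GF C'.B F (Wc 1) hb' m2 m1
  have e2 : algebraMap A R ν * g * ((C'.B 2) ^ N * g') = (ν ^ 2) • (C'.B 2) ^ N := by
    rw [Algebra.smul_def, map_pow, pow_two, ← hgg]
    ring
  rw [e2] at m3
  have hν2 : ν ^ 2 ∉ F.F (2 * n0 + 1) := by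
    have := F.not_mem hn0 hn0
    rw [pow_two]
    have e : n0 + n0 + 1 = 2 * n0 + 1 := by ring
    rwa [e] at this
  apply hβ N
  refine cancel_GF C'.B F (Wc 1) hν2 (m := N + 1) ?_
  exact GF_le C'.B F (Wc 1) m3 (by omega)

end Cub

end Run7.h889
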