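import Pool.Agent.Run7.h889.Alpha2

set_option autoImplicit false
set_option linter.unusedSimpArgs false
set_option linter.unusedVariables false
set_option linter.unusedSectionVars false
set_option linter.deprecated false

namespace Run7.h889

open Module nonZeroDivisors Polynomial

universe u v

section powers

variable {A : Type u} {R : Type v} [CommRing A] [CommRing R] [Algebra A R]
variable {ι : Type} [Fintype ι] (b : Basis ι A R) (F : Fil A) (W : ι → ℕ)

/-- If squares of leading forms do not vanish then no power of a leading form vanishes. -/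
lemma pow_not_mem_GF (hb : ∀ i j, b i * b j ∈ GF b F W (W i + W j))
    (hbt : ∀ n z, z ∈ GF b F W n → z * z ∈ GF b F W (2 * n + 1) → z ∈ GF b F W (n + 1))
    {n : ℕ} {z : R} (hz : z ∈ GF b F W n) (hz' : z ∉ GF b F W (n + 1)) (k : ℕ) :
    z ^ k ∉ GF b F W (k * n + 1) := by
  have h2 : ∀ j, z ^ 2 ^ j ∈ GF b F W (2 ^ j * n) ∧ z ^ 2 ^ j ∉ GF b F W (2 ^ j * n + 1) := by
    intro j
    induction j with
    | zero => simpa using ⟨hz, hz'⟩
    | succ j ih =>
      have e : z ^ 2 ^ (j + 1) = z ^ 2 ^ j * z ^ 2 ^ j := by rw [← pow_add]; congr 1; ring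
      have e' : 2 ^ (j + 1) * n = 2 * (2 ^ j * n) := by ring
      rw [e, e']
      refine ⟨mul_le_GF b F W hb ih.1 ih.1 (by omega), fun h => ih.2 (hbt _ _ ih.1 h)⟩
  intro h
  have hk : k ≤ 2 ^ k := Nat.lt_two_pow_self.le
  obtain ⟨l, hl⟩ := Nat.exists_eq_add_of_le hk
  apply (h2 k).2
  rw [hl, pow_add]
  apply mul_le_GF b F W hb h (pow_mem_GF b F W hb hz l)
  have : (k + l) * n = k * n + l * n := by ring
  omega

include b in
/-- divisibility in a free module -/
lemma dvd_of_mul_dvd [IsDomain A] {x y : A} (hx : Prime x) (hxy : ¬ x ∣ y) {m n : ℕ} {z w : R}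
    (h : (y ^ m) • z = (x ^ n) • w) : ∃ v : R, z = (x ^ n) • v := by
  classical
  have key : ∀ i, ∃ c, b.repr z i = x ^ n * c := by
    intro i
    have h1 := congrArg (fun t => b.repr t i) h
    simp only [map_smul, Finsupp.smul_apply, smul_eq_mul] at h1
    have h2 : x ^ n ∣ y ^ m * b.repr z i := ⟨_, h1⟩
    have h3 : ¬ x ∣ y ^ m := fun h => hxy (hx.dvd_of_dvd_pow h)
    exact (hx.pow_dvd_of_dvd_mul_left n h3) h2
  choose c hc using key
  refine ⟨∑ i, c i • b i, ?_⟩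
  rw [← b.sum_repr z, Finset.smul_sum]
  apply Finset.sum_congr rfl
  intro i _
  rw [hc, mul_smul]

end powers

namespace Cub

variable {A : Type u} {R : Type v} [CommRing A] [IsDomain A] [CommRing R] [IsDomain R] [Algebra A R]
variable (C' : Cub A R) {F : Fil A}

/-- `g W^r ⊂ R`, formulated with polynomials in `θ`. -/
def GW (L : Type v) [Field L] [Algebra R L] [Algebra A L] (θ : L) (g : R) (r : ℕ) : Prop :=
  ∀ P : A[X], P.natDegree ≤ r → ∃ s : R, algebraMap R L g * evζ θ P = algebraMap R L s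

/-- **The bound (β).** -/
theorem beta_bound {L : Type v} [Field L] [Algebra R L] [IsFractionRing R L] [Algebra A L]
    [IsScalarTower A R L] (ha : C'.a ∈ F.F 1) (ha2 : C'.a ∉ F.F 2) (hb : C'.b ∈ F.F 1)
    (hc : C'.c ∈ F.F 1) (hd' : C'.d ∈ F.F 1)
    {μ b' c' c'' s0 s1 t0 t1 : A} (hx0 : C'.a ≠ 0) (hx : Prime C'.a)
    (hxy : ¬ C'.a ∣ C'.d) (hμ : μ ∉ F.F 1) (hbe : C'.b = C'.a * b' + C'.d * μ)
    (hce : C'.c = C'.a * c' + C'.d * c'') (h1 : c'' - μ * b' = C'.a * s1 + C'.d * t1)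
    (h0 : 1 - μ * c' = C'.a * s0 + C'.d * t0)
    (hbt : ∀ n z, z ∈ GF C'.B F (Wc 1) n → z * z ∈ GF C'.B F (Wc 1) (2 * n + 1) →
      z ∈ GF C'.B F (Wc 1) (n + 1))
    {r : ℕ} {g : R} (hg : g ≠ 0) {θ : L} (hθ : algebraMap A L C'.a * θ = algebraMap R L (C'.B 1))
    (hgW : GW (A := A) L θ g r)
    {n0 n1 : ℕ} (hn0 : Algebra.norm A g ∉ F.F (n0 + 1)) {g0 g1 g2 : A} (hge : g = C'.el g0 g1 g2)
    (hn1 : C'.sh g0 g1 g2 ∈ GF C'.B F (Wc 1) n1) {j : ℕ} (hj : 4 * j ≤ r) :
    n1 + 2 * j ≤ n0 := by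
  classical
  have hb' := C'.hb ha hb hc hd'
  have inj := IsFractionRing.injective R L
  obtain ⟨x, hxe⟩ : ∃ x, x = C'.a := ⟨_, rfl⟩
  obtain ⟨y, hye⟩ : ∃ y, y = C'.d := ⟨_, rfl⟩
  obtain ⟨g', hg'⟩ : ∃ g', g' = C'.sh g0 g1 g2 := ⟨_, rfl⟩
  obtain ⟨ν, hν⟩ : ∃ ν, ν = Algebra.norm A g := ⟨_, rfl⟩
  have hgg : g * g' = algebraMap A R ν := by
    rw [hg', hge, mul_sh, ← norm_el, ← hge, hν]
  rw [← hν] at hn0
  rw [← hg'] at hn1
  have hxy' : C'.a * y ^ 0 ≠ 0 := by rw [pow_zero, mul_one]; exact hx0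
  have hθ' : algebraMap A L (C'.a * y ^ 0) * θ = algebraMap R L (C'.B 1) := by
    rw [pow_zero, mul_one]; exact hθ
  have hφ := C'.ev_pχ (ρ := C'.d) hxy' hθ' (by rw [pow_zero, one_mul])
  -- polynomials
  obtain ⟨q1, hq1⟩ : ∃ q1 : A[X], q1 = X ^ 2 + C b' * X + C c' := ⟨_, rfl⟩
  obtain ⟨ρx, hρx⟩ : ∃ ρx : A[X], ρx = C s1 * X + C s0 := ⟨_, rfl⟩
  obtain ⟨ρy, hρy⟩ : ∃ ρy : A[X], ρy = C t1 * X + C t0 := ⟨_, rfl⟩
  obtain ⟨L2, hL2⟩ : ∃ L2 : A[X], L2 = X * (X * q1 + C y * ρx) := ⟨_, rfl⟩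
  obtain ⟨L2', hL2'⟩ : ∃ L2' : A[X], L2' = C μ ^ 2 * q1 + C x * C μ * ρx + C y * C μ * ρy -
      C x * X * ρy := ⟨_, rfl⟩
  have key : C x ^ 2 * L2 = C y ^ 2 * L2' + C'.pχ 0 y C'.d * (C x * X + C y * C μ - 2 * C y * C μ) := by
    have e0 : C'.pχ 0 y C'.d = C x * X ^ 3 + (C x * C b' + C y * C μ) * X ^ 2 +
        (C x * C c' + C y * C c'') * X + C y := by
      rw [pχ, pV, hbe, hce, ← hxe, ← hye]
      simp only [map_add, map_mul, map_pow, pow_zero, mul_one, mul_zero, map_one]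
      ring
    have e1 : (C c'' : A[X]) = C μ * C b' + C x * C s1 + C y * C t1 := by
      rw [hxe, hye, ← map_mul, ← map_mul, ← map_mul, ← map_add, ← map_add]
      congr 1
      linear_combination h1
    have e2 : (1 : A[X]) = C μ * C c' + C x * C s0 + C y * C t0 := by
      rw [hxe, hye, ← map_mul, ← map_mul, ← map_mul, ← map_add, ← map_add, ← map_one C]
      congr 1
      linear_combination h0
    rw [e0, hL2, hL2', hq1, hρx, hρy]
    linear_combination (-(C y * (C x * X + C y * C μ - 2 * C y * C μ) * X)) * e1 -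
      (C y * (C x * X + C y * C μ - 2 * C y * C μ)) * e2
  have keyL : algebraMap A L x ^ 2 * evζ θ L2 = algebraMap A L y ^ 2 * evζ θ L2' := by
    have := congrArg (evζ θ) key
    rw [map_mul, map_add, map_mul, map_mul _ (C'.pχ 0 y C'.d), hφ, zero_mul, add_zero, map_pow,
      map_pow, evζ_C, evζ_C] at this
    exact this
  -- degrees
  have dL2 : (L2 ^ j).natDegree ≤ r := by
    have : (L2).natDegree ≤ 4 := by
      rw [hL2, hq1, hρx]
      compute_degree
    exact (natDegree_pow_le_of_le j this).trans (by omega)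
  have dL2' : (L2' ^ j).natDegree ≤ r := by
    have : (L2').natDegree ≤ 4 := by
      rw [hL2', hq1, hρx, hρy]
      compute_degree
      omega
    exact (natDegree_pow_le_of_le j this).trans (by omega)
  obtain ⟨Z2, hZ2⟩ := hgW _ dL2
  obtain ⟨Z1, hZ1⟩ := hgW _ dL2'
  rw [map_pow] at hZ1 hZ2
  have hZ : (y ^ (2 * j)) • Z1 = (x ^ (2 * j)) • Z2 := by
    apply inj
    rw [Algebra.smul_def, Algebra.smul_def, map_mul (algebraMap R L), map_mul (algebraMap R L),
      ← IsScalarTower.algebraMap_apply A R L, ← IsScalarTower.algebraMap_apply A R L, ← hZ1, ← hZ2,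
      map_pow, map_pow]
    have e1 : (algebraMap A L x ^ 2 * evζ θ L2) ^ j = (algebraMap A L y ^ 2 * evζ θ L2') ^ j := by
      rw [keyL]
    rw [mul_pow, mul_pow, ← pow_mul, ← pow_mul] at e1
    linear_combination (-(algebraMap R L g)) * e1
  obtain ⟨z, hz⟩ := dvd_of_mul_dvd C'.B (by rw [hxe]; exact hx) (by rw [hxe, hye]; exact hxy) hZ
  -- the element `Λ = x² L2'(θ)`
  obtain ⟨Λ, hΛ⟩ : ∃ Λ, Λ = C'.el (-(μ ^ 2 * x * y * c'') + x ^ 3 * μ * s0 + x ^ 2 * y * μ * t0 +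
      x ^ 2 * t1 * C'.c) (-(μ ^ 2 * y * μ) + x ^ 2 * μ * s1 + x * y * μ * t1 + x * t1 * C'.b -
      x ^ 2 * t0) (μ ^ 2 * x - x ^ 2 * t1) := ⟨_, rfl⟩
  have hΛL : algebraMap R L Λ = algebraMap A L x ^ 2 * evζ θ L2' := by
    have hβ := C'.ev_pV hxy' hθ'
    simp only [pV, map_add, map_mul, map_pow, pow_zero, mul_one, mul_zero, evζ_C, evζ_X,
      map_one] at hβ
    simp only [hΛ, el, hL2', hq1, hρx, hρy, map_add, map_sub, map_neg, map_mul, map_pow, evζ_C, evζ_X,
      ← IsScalarTower.algebraMap_apply A R L]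
    rw [← hθ, ← hβ, hbe, hce, hxe, hye]
    simp only [map_add, map_mul]
    ring
  have mx : x ∈ F.F 1 := by rw [hxe]; exact ha
  have my : y ∈ F.F 1 := by rw [hye]; exact hd'
  have hx2 : x ∉ F.F 2 := by rw [hxe]; exact ha2
  have hΛ2 : Λ ∈ GF C'.B F (Wc 1) 2 := by
    rw [hΛ, el_mem]
    have xx : x ^ 2 ∈ F.F 2 := by
      have := F.pow_mem mx 2
      rwa [mul_one] at this
    have xy : x * y ∈ F.F 2 := F.mul_mem mx my
    refine ⟨?_, ?_, ?_⟩
    · refine Ideal.add_mem _ (Ideal.add_mem _ (Ideal.add_mem _ ?_ ?_) ?_) ?_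
      · have e : -(μ ^ 2 * x * y * c'') = (-(μ ^ 2) * c'') * (x * y) := by ring
        rw [e]; exact Ideal.mul_mem_left _ _ xy
      · have e : x ^ 3 * μ * s0 = (x * μ * s0) * x ^ 2 := by ring
        rw [e]; exact Ideal.mul_mem_left _ _ xx
      · have e : x ^ 2 * y * μ * t0 = (y * μ * t0) * x ^ 2 := by ring
        rw [e]; exact Ideal.mul_mem_left _ _ xx
      · have e : x ^ 2 * t1 * C'.c = (t1 * C'.c) * x ^ 2 := by ring
        rw [e]; exact Ideal.mul_mem_left _ _ xx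
    · change _ ∈ F.F 1
      refine Ideal.sub_mem _ (Ideal.add_mem _ (Ideal.add_mem _ (Ideal.add_mem _ ?_ ?_) ?_) ?_) ?_
      · have e : -(μ ^ 2 * y * μ) = (-(μ ^ 2) * μ) * y := by ring
        rw [e]; exact Ideal.mul_mem_left _ _ my
      · have e : x ^ 2 * μ * s1 = (x * μ * s1) * x := by ring
        rw [e]; exact Ideal.mul_mem_left _ _ mx
      · have e : x * y * μ * t1 = (y * μ * t1) * x := by ring
        rw [e]; exact Ideal.mul_mem_left _ _ mx
      · have e : x * t1 * C'.b = (t1 * C'.b) * x := by ring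
        rw [e]; exact Ideal.mul_mem_left _ _ mx
      · have e : x ^ 2 * t0 = (x * t0) * x := by ring
        rw [e]; exact Ideal.mul_mem_left _ _ mx
    · change _ ∈ F.F 1
      refine Ideal.sub_mem _ (Ideal.mul_mem_left _ _ mx) ?_
      have e : x ^ 2 * t1 = (x * t1) * x := by ring
      rw [e]; exact Ideal.mul_mem_left _ _ mx
  have hΛ3 : Λ ∉ GF C'.B F (Wc 1) (2 + 1) := by
    rw [hΛ, el_mem]
    rintro ⟨_, _, h⟩
    change _ ∈ F.F 2 at h
    have h3 : x ^ 2 * t1 ∈ F.F 2 := by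
      have := F.pow_mem mx 2
      rw [mul_one] at this
      exact Ideal.mul_mem_right _ _ this
    have h4 := Ideal.add_mem _ h h3
    rw [sub_add_cancel] at h4
    have h5 : μ * x ∉ F.F 2 := by
      have := F.not_mem (n := 0) (m := 1) hμ hx2
      exact this
    have h6 : μ * (μ * x) ∉ F.F 2 := by
      have := F.not_mem (n := 0) (m := 1) hμ h5
      exact this
    apply h6
    have e : μ * (μ * x) = μ ^ 2 * x := by ring
    rw [e]
    exact h4
  -- the relation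
  have hrel : (ν : A) • Λ ^ j = (x ^ (4 * j)) • (g' * z) := by
    apply inj
    rw [Algebra.smul_def, Algebra.smul_def, map_mul (algebraMap R L), map_mul (algebraMap R L),
      map_pow (algebraMap R L), hΛL]
    have e1 : algebraMap R L (algebraMap A R ν) = algebraMap R L g * algebraMap R L g' := by
      rw [← hgg, map_mul]
    have e2 : algebraMap R L Z1 = algebraMap A L x ^ (2 * j) * algebraMap R L z := by
      rw [hz, Algebra.smul_def, map_mul (algebraMap R L), ← IsScalarTower.algebraMap_apply A R L,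
        map_pow]
    rw [e1, mul_pow, ← pow_mul, map_mul (algebraMap R L) g' z,
      ← IsScalarTower.algebraMap_apply A R L, map_pow]
    rw [← hZ1] at e2
    have e3 : algebraMap A L x ^ (4 * j) = algebraMap A L x ^ (2 * j) * algebraMap A L x ^ (2 * j) := by
      rw [← pow_add]; congr 1; ring
    rw [e3]
    linear_combination (algebraMap R L g' * algebraMap A L x ^ (2 * j)) * e2
  by_contra hcon
  push Not at hcon
  have m1 : (x ^ (4 * j)) • (g' * z) ∈ GF C'.B F (Wc 1) (4 * j + n1) := by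
    apply smul_mem_GF
    · have := F.pow_mem mx (4 * j)
      rwa [mul_one] at this
    · exact mul_le_GF C'.B F (Wc 1) hb' hn1 (mem_GF_zero C'.B F (Wc 1) z) (by omega)
  rw [← hrel] at m1
  have m2 : Λ ^ j ∈ GF C'.B F (Wc 1) (j * 2 + 1) := by
    apply cancel_GF C'.B F (Wc 1) hn0
    exact GF_le C'.B F (Wc 1) m1 (by omega)
  exact pow_not_mem_GF C'.B F (Wc 1) hb' hbt hΛ2 hΛ3 j m2

end Cub

end Run7.h889
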