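import Pool.Agent.Run7.h889.Iface
import Pool.Agent.Helper819.DC.EV

/-!
# MP_7dd379_ag, piece C0: the completion of a Noetherian local ring
-/

set_option autoImplicit false

namespace Run7.h889

open Module IsLocalRing

universe u

theorem dense_completion {R : Type u} [CommRing R] [IsLocalRing R] [IsNoetherianRing R] (n : ℕ)
    (s : AdicCompletion (maximalIdeal R) R) :
    ∃ r : R, s - algebraMap R (AdicCompletion (maximalIdeal R) R) r ∈
      maximalIdeal (AdicCompletion (maximalIdeal R) R) ^ n := by
  obtain ⟨r, hr⟩ := Submodule.mkQ_surjective _ (s.1 n)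
  refine ⟨r, ?_⟩
  rw [AdicCompletion.maximalIdeal_eq_map, ← Ideal.map_pow, ← Submodule.restrictScalars_mem R,
    ← Ideal.smul_top_eq_map,
    AdicCompletion.pow_smul_top_eq_ker_eval (maximalIdeal R).fg_of_isNoetherianRing,
    LinearMap.mem_ker, map_sub, sub_eq_zero]
  exact hr.symm

theorem noeth_completion (R : Type u) [CommRing R] [IsLocalRing R] [IsNoetherianRing R] :
    IsNoetherianRing (AdicCompletion (maximalIdeal R) R) := by
  obtain ⟨n, x, hx⟩ := Submodule.fg_iff_exists_fin_generating_family.1
    (maximalIdeal R).fg_of_isNoetherianRing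
  have hb : ∀ i, algebraMap R (AdicCompletion (maximalIdeal R) R) (x i) ∈
      maximalIdeal (AdicCompletion (maximalIdeal R) R) := by
    intro i
    rw [AdicCompletion.maximalIdeal_eq_map]
    refine Ideal.mem_map_of_mem _ ?_
    rw [← hx]
    exact Submodule.subset_span ⟨i, rfl⟩
  obtain ⟨Φ, hΦ⟩ := Pool.Agent.Helper819.DC.EV.evm_exists (K := R)
    (maximalIdeal (AdicCompletion (maximalIdeal R) R))
    (fun i => algebraMap R (AdicCompletion (maximalIdeal R) R) (x i)) hb
  have hJ : (Ideal.span (Set.range (MvPowerSeries.X : Fin n → MvPowerSeries (Fin n) R))).map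
      Φ.toRingHom = maximalIdeal (AdicCompletion (maximalIdeal R) R) := by
    have h2 : ∀ f : R →+* AdicCompletion (maximalIdeal R) R,
        (maximalIdeal R).map f = Ideal.span (Set.range fun i => f (x i)) := by
      intro f
      have : maximalIdeal R = Ideal.span (Set.range x) := hx.symm
      have h3 : (maximalIdeal R).map f = (Ideal.span (Set.range x)).map f :=
        congrArg (Ideal.map f) this
      rw [h3, Ideal.map_span, ← Set.range_comp]
      rfl
    rw [AdicCompletion.maximalIdeal_eq_map, h2, Ideal.map_span, ← Set.range_comp]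
    congr 1
    ext y
    simp only [Set.mem_range, Function.comp_apply]
    constructor
    · rintro ⟨i, rfl⟩
      exact ⟨i, (hΦ i).symm⟩
    · rintro ⟨i, rfl⟩
      exact ⟨i, hΦ i⟩
  have hc : IsAdicComplete (Ideal.span (Set.range (MvPowerSeries.X : Fin n → MvPowerSeries (Fin n) R)))
      (MvPowerSeries (Fin n) R) := by infer_instance
  have hs : Function.Surjective Φ.toRingHom := by
    have : IsHausdorff ((Ideal.span (Set.range
      (MvPowerSeries.X : Fin n → MvPowerSeries (Fin n) R))).map Φ.toRingHom)
        (AdicCompletion (maximalIdeal R) R) := by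
      rw [hJ]; infer_instance
    refine surjective_of_mk_map_comp_surjective
      (I := Ideal.span (Set.range (MvPowerSeries.X : Fin n → MvPowerSeries (Fin n) R))) Φ.toRingHom ?_
    intro y
    obtain ⟨s, rfl⟩ := Ideal.Quotient.mk_surjective y
    obtain ⟨r, hr⟩ := dense_completion 1 s
    refine ⟨algebraMap R _ r, ?_⟩
    rw [RingHom.comp_apply]
    symm
    rw [Ideal.Quotient.mk_eq_mk_iff_sub_mem, hJ]
    have h1 : Φ.toRingHom (algebraMap R _ r) = algebraMap R _ r := Φ.commutes r
    rw [h1]
    simpa using hr
  exact isNoetherianRing_of_surjective _ _ Φ.toRingHom hs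

theorem t_C0 : S_C0.{u} := by
  intro R _ _ _
  have hn := noeth_completion R
  refine ⟨inferInstance, hn, inferInstance, ?_, AdicCompletion.maximalIdeal_eq_map.symm,
    dense_completion⟩
  exact Module.FaithfullyFlat.of_flat_of_isLocalHom

end Run7.h889
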