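import Pool.Agent.Run7.h889.CubMain

set_option autoImplicit false
set_option linter.unusedSimpArgs false
set_option linter.unusedVariables false
set_option linter.unusedSectionVars false
set_option linter.deprecated false

namespace Run7.h889

open Module nonZeroDivisors Polynomial

universe u v

section

variable {k : Type u} [Field k] {d : ℕ} {R : Type v} [CommRing R]
  [Algebra (MvPowerSeries (Fin d) k) R]

lemma isUnit_C_ps {s : k} (hs : s ≠ 0) : IsUnit (MvPowerSeries.C s : MvPowerSeries (Fin d) k) :=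
  (isUnit_iff_ne_zero.2 hs).map (MvPowerSeries.C (σ := Fin d) (R := k))

/-- If all values of the cubic form lie in an ideal containing `a`, so do its coefficients. -/
lemma Cub.all_mem [Infinite k] (C' : Cub (MvPowerSeries (Fin d) k) R)
    (J : Ideal (MvPowerSeries (Fin d) k)) (ha : C'.a ∈ J) (h : ∀ l, C'.ph l ∈ J) :
    C'.b ∈ J ∧ C'.c ∈ J ∧ C'.d ∈ J := by
  classical
  have hd : C'.d ∈ J := by
    have := h 0
    simpa [Cub.ph] using this
  have key : ∀ l, C'.b * l ^ 2 + C'.c * l ∈ J := by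
    intro l
    have e : C'.b * l ^ 2 + C'.c * l = C'.ph l - l ^ 3 * C'.a - C'.d := by rw [Cub.ph]; ring
    rw [e]
    exact Ideal.sub_mem _ (Ideal.sub_mem _ (h l) (Ideal.mul_mem_left _ _ ha)) hd
  have h1 : C'.b + C'.c ∈ J := by
    have := key 1
    simpa using this
  obtain ⟨s, hs⟩ := Infinite.exists_notMem_finset ({0, 1} : Finset k)
  simp only [Finset.mem_insert, Finset.mem_singleton, not_or] at hs
  have hb : C'.b ∈ J := by
    have h2 := key (MvPowerSeries.C s)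
    have h3 : (MvPowerSeries.C (s * (s - 1)) : MvPowerSeries (Fin d) k) * C'.b ∈ J := by
      have e : (MvPowerSeries.C (s * (s - 1)) : MvPowerSeries (Fin d) k) * C'.b =
          (C'.b * MvPowerSeries.C s ^ 2 + C'.c * MvPowerSeries.C s) -
            MvPowerSeries.C s * (C'.b + C'.c) := by
        simp only [map_mul, map_sub, map_one]
        ring
      rw [e]
      exact Ideal.sub_mem _ h2 (Ideal.mul_mem_left _ _ h1)
    exact (Ideal.unit_mul_mem_iff_mem _ (isUnit_C_ps (mul_ne_zero hs.1 (sub_ne_zero.2 hs.2)))).1 h3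
  refine ⟨hb, ?_, hd⟩
  have e : C'.c = (C'.b + C'.c) - C'.b := by ring
  rw [e]
  exact Ideal.sub_mem _ h1 hb

/-- dependence of linear parts -/
lemma dep_of_not_indep {x y : MvPowerSeries (Fin d) k} (hx : x ∈ (oF k d).F 1)
    (hx2 : x ∉ (oF k d).F 2) (hy : y ∈ (oF k d).F 1) (h : ¬ Indep x y) :
    ∃ s, y - s * x ∈ (oF k d).F 2 := by
  unfold Indep at h
  push Not at h
  obtain ⟨s, t, hst, h⟩ := h
  have ht : t ∉ (oF k d).F 1 := by
    intro ht
    by_cases hs : s ∈ (oF k d).F 1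
    · exact h hs ht
    · rw [not_mem_oF1_iff] at hs
      apply hx2
      rw [← Ideal.unit_mul_mem_iff_mem _ hs]
      have e : s * x = (s * x + t * y) - t * y := by ring
      rw [e]
      exact Ideal.sub_mem _ hst ((oF k d).mul_mem ht hy)
  rw [not_mem_oF1_iff] at ht
  obtain ⟨t', ht'⟩ := ht.exists_left_inv
  refine ⟨-(t' * s), ?_⟩
  have e : y - -(t' * s) * x = t' * (s * x + t * y) := by
    linear_combination (-y) * ht'
  rw [e]
  exact Ideal.mul_mem_left _ _ hst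

lemma mem_sup_iff_dep {x y : MvPowerSeries (Fin d) k} :
    y ∈ Ideal.span {x} ⊔ (oF k d).F 2 ↔ ∃ s, y - s * x ∈ (oF k d).F 2 := by
  rw [Submodule.mem_sup]
  constructor
  · rintro ⟨u, hu, v, hv, rfl⟩
    rw [Ideal.mem_span_singleton'] at hu
    obtain ⟨s, rfl⟩ := hu
    exact ⟨s, by rw [add_sub_cancel_left]; exact hv⟩
  · rintro ⟨s, hs⟩
    exact ⟨s * x, Ideal.mem_span_singleton'.2 ⟨s, rfl⟩, _, hs, by ring⟩

variable [IsDomain R]

/-- a cubic form of a domain has no root -/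
lemma Cub.ph_ne_zero (C' : Cub (MvPowerSeries (Fin d) k) R) (l : MvPowerSeries (Fin d) k) :
    C'.ph l ≠ 0 := by
  intro h
  have h1 := C'.norm_w l
  rw [h, mul_zero, neg_zero, Algebra.norm_eq_zero_iff_of_basis C'.B] at h1
  exact one_ne_zero (C'.el_eq_zero h1).2.1

end

section main

variable {k : Type u} [Field k] {d : ℕ} {p : ℕ} [hp : Fact p.Prime] [CharP k p]
  {R : Type v} [CommRing R] [IsDomain R] [IsLocalRing R] [IsIntegrallyClosed R] [CharP R p]
  [Algebra (MvPowerSeries (Fin d) k) R]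
  (K : Type u) (L : Type v) [Field K] [Algebra (MvPowerSeries (Fin d) k) K]
  [IsFractionRing (MvPowerSeries (Fin d) k) K]
  [Field L] [Algebra R L] [IsFractionRing R L] [Algebra K L] [Algebra (MvPowerSeries (Fin d) k) L]
  [IsScalarTower (MvPowerSeries (Fin d) k) R L] [IsScalarTower (MvPowerSeries (Fin d) k) K L]

omit [Field K] [Algebra (MvPowerSeries (Fin d) k) K]
  [IsFractionRing (MvPowerSeries (Fin d) k) K] [Algebra K L]
  [IsScalarTower (MvPowerSeries (Fin d) k) K L] [IsIntegrallyClosed R] [IsLocalRing R]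
  [CharP R p] [CharP k p] hp in
lemma Cub.exists_θ (C' : Cub (MvPowerSeries (Fin d) k) R) (ha0 : C'.a ≠ 0) :
    ∃ θ : L, algebraMap (MvPowerSeries (Fin d) k) L C'.a * θ = algebraMap R L (C'.B 1) := by
  refine ⟨algebraMap R L (C'.B 1) / algebraMap (MvPowerSeries (Fin d) k) L C'.a, ?_⟩
  rw [mul_div_cancel₀]
  exact C'.algL_ne (o := 0) (y := 1) (by rw [one_pow, mul_one]; exact ha0) ha0

include K L in
/-- Case D1: all the linear parts are proportional to that of `a`. -/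
theorem Cub.Pos.caseD1 [Infinite k] {C' : Cub (MvPowerSeries (Fin d) k) R} (hC : C'.Pos)
    (hT : ∀ E, Nonempty (FTr (p ^ E) k)) (hB : Big p d R) (hd : 2 ≤ d)
    (ha2 : C'.a ∉ (oF k d).F 2) (hb2 : ∃ s, C'.b - s * C'.a ∈ (oF k d).F 2)
    (hc2 : ∃ s, C'.c - s * C'.a ∈ (oF k d).F 2) (hd2 : ∃ s, C'.d - s * C'.a ∈ (oF k d).F 2) :
    False := by
  obtain ⟨F', hF1, hF2, hF3, hF4⟩ := exists_weight (p := p) hC.a ha2
  have ha0 : C'.a ≠ 0 := by
    intro h
    rw [h] at ha2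
    exact ha2 (Ideal.zero_mem _)
  have hmem : ∀ {z}, (∃ s, z - s * C'.a ∈ (oF k d).F 2) → z ∈ F'.F 2 := by
    rintro z ⟨s, hs⟩
    have e : z = (z - s * C'.a) + s * C'.a := by ring
    rw [e]
    exact Ideal.add_mem _ (hF1 _ hs) (Ideal.mul_mem_left _ _ hF2)
  obtain ⟨E0, hE0⟩ := hB 1
  obtain ⟨N, f, hf, φ, hφ, hN⟩ := hE0 E0 le_rfl
  obtain ⟨T⟩ := hT E0
  obtain ⟨T', hT'⟩ := hF4 E0 T
  obtain ⟨θ, hθ⟩ := C'.exists_θ L ha0
  have hb' := hmem hb2
  have hc' := hmem hc2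
  have hd' := hmem hd2
  obtain ⟨g, g0, g1, g2, n0, n1, hg, hge, hn0, hn0', hn1, hest, h32, hGT⟩ :=
    C'.pkg K L F' (c := d + 1) (ω := 2) T' hT' hF2 hF3 hb' hc' hd' ha0 hθ φ
      (hC.pow_le F' hF1 (by norm_num) hF2 hb' hc' hd' hf) hφ
  -- `a^r` divides the norm of `g`
  have hprime : Prime C'.a := prime_of_order hC.a ha2
  obtain ⟨r, hr⟩ : ∃ r, r = p ^ E0 - 1 := ⟨_, rfl⟩
  rw [← hr] at hest hGT hN
  have hdvd : ∀ l, C'.a ^ r ∣ Algebra.norm (MvPowerSeries (Fin d) k) g * (-(C'.ph l)) ^ r := by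
    intro l
    obtain ⟨h, hh⟩ := C'.hdiv_of_GT hθ hGT l
    refine ⟨Algebra.norm _ h, ?_⟩
    have h1 := congrArg (Algebra.norm (MvPowerSeries (Fin d) k)) hh
    rw [map_mul, map_mul, map_pow, map_pow, Algebra.norm_algebraMap_of_basis C'.B, C'.norm_w,
      Fintype.card_fin] at h1
    have e1 : (C'.a ^ 3) ^ r = (C'.a ^ 2) ^ r * C'.a ^ r := by
      rw [← mul_pow, ← pow_succ]
    have e2 : (-(C'.a ^ 2 * C'.ph l)) ^ r = (C'.a ^ 2) ^ r * (-(C'.ph l)) ^ r := by
      rw [← mul_pow, mul_neg]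
    rw [e1, e2] at h1
    apply mul_left_cancel₀ (pow_ne_zero r (pow_ne_zero 2 ha0))
    linear_combination -h1
  have hl : ∃ l, ¬ C'.a ∣ C'.ph l := by
    by_contra hcon
    push Not at hcon
    obtain ⟨hb, hc, hd⟩ := C'.all_mem (Ideal.span {C'.a}) (Ideal.subset_span rfl)
      (fun l => Ideal.mem_span_singleton.2 (hcon l))
    rw [Ideal.mem_span_singleton] at hb hc hd
    obtain ⟨b', hb⟩ := hb
    obtain ⟨c', hc⟩ := hc
    obtain ⟨d', hd⟩ := hd
    have hxy' : C'.a * (1 : MvPowerSeries (Fin d) k) ^ 0 ≠ 0 := by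
      rw [pow_zero, mul_one]; exact ha0
    have hθ' : algebraMap (MvPowerSeries (Fin d) k) L
        (C'.a * (1 : MvPowerSeries (Fin d) k) ^ 0) * θ = algebraMap R L (C'.B 1) := by
      rw [pow_zero, mul_one]; exact hθ
    have hφ' := C'.ev_pχ (ρ := C'.d) hxy' hθ' (by rw [pow_zero, one_mul])
    have haL := C'.algL_ne (L := L) hxy' ha0
    have hint : IsIntegral R θ := by
      refine ⟨X ^ 3 + (C (algebraMap _ R b') * X ^ 2 + C (algebraMap _ R c') * X +
        C (algebraMap _ R d')), ?_, ?_⟩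
      · apply Polynomial.monic_X_pow_add
        refine lt_of_le_of_lt (degree_quadratic_le) ?_
        norm_num
      · simp only [eval₂_add, eval₂_mul, eval₂_pow, eval₂_X, eval₂_C,
          ← IsScalarTower.algebraMap_apply]
        apply mul_left_cancel₀ haL
        rw [Cub.pχ, Cub.pV] at hφ'
        simp only [map_add, map_mul, map_pow, evζ_C, evζ_X, one_pow, pow_zero, mul_one,
          map_one] at hφ'
        rw [hb, hc, hd] at hφ'
        simp only [map_mul] at hφ'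
        linear_combination hφ'
    obtain ⟨t, ht⟩ := IsIntegrallyClosed.isIntegral_iff.1 hint
    have h1 : C'.B 1 = C'.a • t := by
      apply IsFractionRing.injective R L
      rw [Algebra.smul_def, map_mul, ht, ← IsScalarTower.algebraMap_apply, hθ]
    have h2 := congrArg (fun z => C'.B.repr z 1) h1
    simp only [Basis.repr_self, map_smul, Finsupp.smul_apply, smul_eq_mul,
      Finsupp.single_eq_same] at h2
    exact hprime.not_unit (IsUnit.of_mul_eq_one _ h2.symm)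
  obtain ⟨l, hl⟩ := hl
  have hν : C'.a ^ r ∣ Algebra.norm (MvPowerSeries (Fin d) k) g := by
    refine hprime.pow_dvd_of_dvd_mul_right r ?_ (hdvd l)
    intro h
    have h2 := hprime.dvd_of_dvd_pow h
    rw [dvd_neg] at h2
    exact hl h2
  obtain ⟨w, hw⟩ := hν
  have h5 : 2 * r ≤ n0 := by
    by_contra hcon
    push Not at hcon
    apply hn0'
    rw [hw]
    have h6 := F'.pow_mem hF2 r
    exact Ideal.mul_mem_right _ _ (F'.mem_le h6 (by omega))
  obtain ⟨e, rfl⟩ : ∃ e, d = e + 2 := ⟨d - 2, by omega⟩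
  have e1 : 2 * (e + 2) - 3 = 2 * e + 1 := by omega
  rw [e1] at hN
  have e2 : (2 * e + 1) * r = 2 * (e * r) + r := by ring
  have e3 : (e + 2 + 1) * r = e * r + 3 * r := by ring
  rw [e2] at hN
  rw [e3] at hest
  omega

include K in
/-- the data provided by `pkg` for the order filtration -/
theorem Cub.Pos.pkg1 {C' : Cub (MvPowerSeries (Fin d) k) R} (hC : C'.Pos)
    (hT : ∀ E, Nonempty (FTr (p ^ E) k)) (hB : Big p d R)
    (ha2 : C'.a ∉ (oF k d).F 2) {θ : L}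
    (hθ : algebraMap (MvPowerSeries (Fin d) k) L C'.a * θ = algebraMap R L (C'.B 1)) :
    ∃ (r : ℕ) (g : R) (g0 g1 g2 : MvPowerSeries (Fin d) k) (n0 n1 N : ℕ),
      g ≠ 0 ∧ g = C'.el g0 g1 g2 ∧
      Algebra.norm (MvPowerSeries (Fin d) k) g ∉ (oF k d).F (n0 + 1) ∧
      C'.sh g0 g1 g2 ∈ GF C'.B (oF k d) (Wc 1) n1 ∧
      N + n0 + r ≤ n1 + d * r ∧ (2 * d - 3) * r + 4 ≤ 2 * N ∧
      GT (R := R) θ (algebraMap R L g) r := by
  obtain ⟨E0, hE0⟩ := hB 4
  obtain ⟨N, f, hf, φ, hφ, hN⟩ := hE0 E0 le_rfl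
  obtain ⟨T⟩ := hT E0
  have ha0 : C'.a ≠ 0 := by
    intro h
    rw [h] at ha2
    exact ha2 (Ideal.zero_mem _)
  obtain ⟨g, g0, g1, g2, n0, n1, hg, hge, hn0, hn0', hn1, hest, h32, hGT⟩ :=
    C'.pkg K L (oF k d) (c := d) (ω := 1) (T.lift d) (lift_hT T) hC.a ha2 hC.b hC.c hC.d ha0 hθ φ
      (hC.pow_le (oF k d) (fun _ => le_rfl) le_rfl hC.a hC.b hC.c hC.d hf) hφ
  exact ⟨p ^ E0 - 1, g, g0, g1, g2, n0, n1, N, hg, hge, hn0', hn1, by omega, hN, hGT⟩

include K L in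
/-- Application of the bound (α). -/
theorem Cub.Pos.alpha {C' : Cub (MvPowerSeries (Fin d) k) R} (hC : C'.Pos)
    (hT : ∀ E, Nonempty (FTr (p ^ E) k)) (hB : Big p d R) (hd : 2 ≤ d)
    (ha2 : C'.a ∉ (oF k d).F 2) {y ρ : MvPowerSeries (Fin d) k} {o : ℕ}
    (hy : y ∈ (oF k d).F 1) (hI : Indep C'.a y) (hde : C'.d = y ^ o * ρ)
    (hρ : ρ ∈ (oF k d).F 1) (hχ : C'.pχ o y ρ ∉ Ideal.map C (Ideal.span {C'.a, y}))
    (hl : ∃ l0 ε : MvPowerSeries (Fin d) k, y = C'.ph l0 + ε * C'.a) : False := by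
  have ha0 : C'.a ≠ 0 := by
    intro h
    rw [h] at ha2
    exact ha2 (Ideal.zero_mem _)
  obtain ⟨θ, hθ⟩ := C'.exists_θ L ha0
  obtain ⟨r, g, g0, g1, g2, n0, n1, N, hg, hge, hn0, hn1, hest, hN, hGT⟩ :=
    hC.pkg1 K L hT hB ha2 hθ
  have h1 := C'.alpha_bound hC.a hC.b hC.c hC.d ha0 (prime_of_order hy hI.symm.not_mem)
    (hI.symm.not_dvd hy) (indep_prime hC.a hy hI) hde hρ hχ hl hg
    (C'.hdiv_of_GT hθ hGT) hn0 hge hn1 (hC.pow_B2 hT hB hd)
  obtain ⟨e, rfl⟩ : ∃ e, d = e + 2 := ⟨d - 2, by omega⟩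
  have e1 : 2 * (e + 2) - 3 = 2 * e + 1 := by omega
  rw [e1] at hN
  have e2 : (2 * e + 1) * r = 2 * (e * r) + r := by ring
  have e3 : (e + 2) * r = e * r + 2 * r := by ring
  rw [e2] at hN
  rw [e3] at hest
  omega

end main

end Run7.h889
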