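import Pool.Agent.Run7.h889.CubM2

set_option autoImplicit false
set_option linter.unusedSimpArgs false
set_option linter.unusedVariables false
set_option linter.unusedSectionVars false
set_option linter.deprecated false

namespace Run7.h889

open Module nonZeroDivisors Polynomial

universe u v

section iter

variable {k : Type u} [Field k] {d : ℕ} {R : Type v} [CommRing R] [IsDomain R]
  [Algebra (MvPowerSeries (Fin d) k) R]

/-- Improving an approximate root. -/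
lemma Cub.iterate (C' : Cub (MvPowerSeries (Fin d) k) R) {Y lam : MvPowerSeries (Fin d) k}
    (hY : Y ∈ (oF k d).F 1)
    (hder : ∀ l, l - lam ∈ (oF k d).F 1 → ∃ v w, IsUnit v ∧ C'.ph' l = C'.a * v + Y * w)
    (h0 : ∃ l, l - lam ∈ (oF k d).F 1 ∧ Y ∣ C'.ph l) :
    ∃ (o : ℕ) (l ρ : MvPowerSeries (Fin d) k), 1 ≤ o ∧ l - lam ∈ (oF k d).F 1 ∧
      C'.ph l = Y ^ o * ρ ∧ ρ ∉ Ideal.span {C'.a, Y} := by
  classical
  by_contra hcon
  push Not at hcon
  have step : ∀ (o : ℕ) (l : {l : MvPowerSeries (Fin d) k // l - lam ∈ (oF k d).F 1 ∧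
      Y ^ (o + 1) ∣ C'.ph l}), ∃ l' : {l : MvPowerSeries (Fin d) k // l - lam ∈ (oF k d).F 1 ∧
      Y ^ (o + 1 + 1) ∣ C'.ph l}, l'.1 - l.1 ∈ (oF k d).F (o + 1) := by
    rintro o ⟨l, hl, ρ, hρ⟩
    have h1 := hcon (o + 1) l ρ (by omega) hl hρ
    rw [Ideal.mem_span_pair] at h1
    obtain ⟨s, t, hst⟩ := h1
    obtain ⟨v, w, hv, hvw⟩ := hder l hl
    obtain ⟨v', hv'⟩ := hv.exists_left_inv
    have hY1 : Y ^ (o + 1) ∈ (oF k d).F (o + 1) := by
      have := (oF k d).pow_mem hY (o + 1)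
      rwa [mul_one] at this
    refine ⟨⟨l - Y ^ (o + 1) * (s * v'), ?_, ?_⟩, ?_⟩
    · have e : l - Y ^ (o + 1) * (s * v') - lam = (l - lam) - Y ^ (o + 1) * (s * v') := by ring
      rw [e]
      exact Ideal.sub_mem _ hl (Ideal.mul_mem_right _ _ ((oF k d).mem_le hY1 (by omega)))
    · refine ⟨t - s * v' * w + Y ^ o * ((s * v') ^ 2 * (3 * C'.a * l + C'.b) -
        C'.a * (s * v') ^ 3 * Y ^ (o + 1)), ?_⟩
      have e1 : C'.ph (l - Y ^ (o + 1) * (s * v')) = C'.ph l - Y ^ (o + 1) * (s * v') * C'.ph' l +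
          (Y ^ (o + 1) * (s * v')) ^ 2 * (3 * C'.a * l + C'.b) -
          C'.a * (Y ^ (o + 1) * (s * v')) ^ 3 := by
        rw [Cub.ph, Cub.ph, Cub.ph']; ring
      rw [e1, hρ, hvw, ← hst]
      have e2 : Y ^ (o + 1) * (s * v') * (C'.a * v + Y * w) =
          Y ^ (o + 1) * (s * C'.a * (v' * v) + Y * w * (s * v')) := by ring
      rw [e2, hv']
      ring
    · change l - Y ^ (o + 1) * (s * v') - l ∈ _
      have e : l - Y ^ (o + 1) * (s * v') - l = -(Y ^ (o + 1) * (s * v')) := by ring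
      rw [e]
      exact neg_mem (Ideal.mul_mem_right _ _ hY1)
  choose nxt hnxt using step
  obtain ⟨l0, hl0, hl0'⟩ := h0
  let seq : ∀ n : ℕ, {l : MvPowerSeries (Fin d) k // l - lam ∈ (oF k d).F 1 ∧
      Y ^ (n + 1) ∣ C'.ph l} := fun n => Nat.rec ⟨l0, hl0, by
          rw [show Nat.zero + 1 = 1 from rfl, pow_one]; exact hl0'⟩
        (fun n l => nxt n l) n
  obtain ⟨a, ha⟩ := exists_limit (fun n => (seq n).1) (by
    intro n
    exact (oF k d).mem_le (hnxt n (seq n)) (by omega))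
  apply C'.ph_ne_zero a
  apply (oF k d).sep
  intro n
  obtain ⟨z, hz⟩ := (seq n).2.2
  have e : C'.ph a = C'.ph (seq n).1 + (a - (seq n).1) * (C'.a * (a ^ 2 + a * (seq n).1 +
      (seq n).1 ^ 2) + C'.b * (a + (seq n).1) + C'.c) := by
    rw [Cub.ph, Cub.ph]; ring
  rw [e]
  refine Ideal.add_mem _ ?_ (Ideal.mul_mem_right _ _ (ha n))
  rw [hz]
  apply Ideal.mul_mem_right
  have := (oF k d).pow_mem hY (n + 1)
  rw [mul_one] at this
  exact (oF k d).mem_le this (by omega)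

end iter

section main

variable {k : Type u} [Field k] {d : ℕ} {p : ℕ} [hp : Fact p.Prime] [CharP k p]
  {R : Type v} [CommRing R] [IsDomain R] [IsLocalRing R] [IsIntegrallyClosed R] [CharP R p]
  [Algebra (MvPowerSeries (Fin d) k) R]
  (K : Type u) (L : Type v) [Field K] [Algebra (MvPowerSeries (Fin d) k) K]
  [IsFractionRing (MvPowerSeries (Fin d) k) K]
  [Field L] [Algebra R L] [IsFractionRing R L] [Algebra K L] [Algebra (MvPowerSeries (Fin d) k) L]
  [IsScalarTower (MvPowerSeries (Fin d) k) R L] [IsScalarTower (MvPowerSeries (Fin d) k) K L]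

omit [IsDomain R] [IsIntegrallyClosed R] [CharP R p] in
/-- (star) for translates -/
lemma Cub.Pos.star_at {C' : Cub (MvPowerSeries (Fin d) k) R} (hC : C'.Pos)
    (hT : ∀ E, Nonempty (FTr (p ^ E) k)) (hB : Big p d R) (hd : 2 ≤ d)
    (l : MvPowerSeries (Fin d) k) :
    ¬ (C'.ph' l ∈ (oF k d).F 2 ∧ C'.ph l ∈ (oF k d).F 2) := by
  obtain ⟨C'', h1, h2, h3, h4, _, _⟩ := C'.exists_trans l
  have h5 := (hC.trans l h1 h2 h3 h4).star hT hB hd
  rwa [h3, h4] at h5

lemma mem_F2_of {x y s t : MvPowerSeries (Fin d) k} (hx : x ∈ (oF k d).F 1)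
    (hy : y ∈ (oF k d).F 1) (hs : s ∈ (oF k d).F 1) (ht : t ∈ (oF k d).F 1) :
    x * s + y * t ∈ (oF k d).F 2 :=
  Ideal.add_mem _ ((oF k d).mul_mem hx hs) ((oF k d).mul_mem hy ht)

include K L in
/-- Case `κ = 1`. -/
theorem Cub.Pos.case_k1 {C' : Cub (MvPowerSeries (Fin d) k) R} (hC : C'.Pos)
    (hT : ∀ E, Nonempty (FTr (p ^ E) k)) (hB : Big p d R) (hd : 2 ≤ d)
    (hI : Indep C'.a C'.d) {b' b'' c' c'' : MvPowerSeries (Fin d) k}
    (hbe : C'.b = C'.a * b' + C'.d * b'') (hce : C'.c = C'.a * c' + C'.d * c'')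
    {lam : MvPowerSeries (Fin d) k} (hl1 : lam ^ 2 + b' * lam + c' ∈ (oF k d).F 1)
    (hl2 : b'' * lam ^ 2 + c'' * lam + 1 ∈ (oF k d).F 1)
    (hr1 : c'' - b'' * b' ∉ (oF k d).F 1) : IsQGorenstein p R := by
  classical
  have ha2 : C'.a ∉ (oF k d).F 2 := hI.not_mem
  -- choice of `Y`
  obtain ⟨ε, hε⟩ : ∃ ε : MvPowerSeries (Fin d) k,
      3 * lam ^ 2 + 2 * (b' - ε * b'') * lam + (c' - ε * c'') ∉ (oF k d).F 1 := by
    by_contra hcon
    push Not at hcon
    have m0 := hcon 0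
    have m1 := hcon 1
    apply hC.star_at hT hB hd lam
    have e1 : C'.ph' lam = C'.a * (3 * lam ^ 2 + 2 * (b' - 0 * b'') * lam + (c' - 0 * c'')) +
        C'.d * ((3 * lam ^ 2 + 2 * (b' - 0 * b'') * lam + (c' - 0 * c'')) -
          (3 * lam ^ 2 + 2 * (b' - 1 * b'') * lam + (c' - 1 * c''))) := by
      rw [Cub.ph', hbe, hce]; ring
    have e2 : C'.ph lam = C'.a * (lam * (lam ^ 2 + b' * lam + c')) +
        C'.d * (b'' * lam ^ 2 + c'' * lam + 1) := by
      rw [Cub.ph, hbe, hce]; ring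
    rw [e1, e2]
    exact ⟨mem_F2_of hC.a hC.d m0 (Ideal.sub_mem _ m0 m1),
      mem_F2_of hC.a hC.d (Ideal.mul_mem_left _ _ hl1) hl2⟩
  obtain ⟨Y, hY⟩ : ∃ Y, Y = C'.d + ε * C'.a := ⟨_, rfl⟩
  have hYm : Y ∈ (oF k d).F 1 := by
    rw [hY]; exact Ideal.add_mem _ hC.d (Ideal.mul_mem_left _ _ hC.a)
  have hIY : Indep C'.a Y := by
    intro s t hst
    have e : s * C'.a + t * Y = (s + t * ε) * C'.a + t * C'.d := by rw [hY]; ring
    rw [e] at hst
    obtain ⟨h1, h2⟩ := hI _ _ hst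
    refine ⟨?_, h2⟩
    have e : s = (s + t * ε) - t * ε := by ring
    rw [e]
    exact Ideal.sub_mem _ h1 (Ideal.mul_mem_right _ _ h2)
  have hph : ∀ l, C'.ph l = C'.a * (l * (l ^ 2 + b' * l + c') - ε * (b'' * l ^ 2 + c'' * l + 1)) +
      Y * (b'' * l ^ 2 + c'' * l + 1) := by
    intro l
    rw [Cub.ph, hbe, hce, hY]; ring
  have hph' : ∀ l, C'.ph' l = C'.a * (3 * l ^ 2 + 2 * (b' - ε * b'') * l + (c' - ε * c'')) +
      Y * (2 * b'' * l + c'') := by
    intro l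
    rw [Cub.ph', hbe, hce, hY]; ring
  -- perturbation
  have pert : ∀ {l}, l - lam ∈ (oF k d).F 1 →
      l ^ 2 + b' * l + c' ∈ (oF k d).F 1 ∧ b'' * l ^ 2 + c'' * l + 1 ∈ (oF k d).F 1 ∧
      3 * l ^ 2 + 2 * (b' - ε * b'') * l + (c' - ε * c'') ∉ (oF k d).F 1 := by
    intro l hl
    refine ⟨?_, ?_, ?_⟩
    · have e : l ^ 2 + b' * l + c' = (lam ^ 2 + b' * lam + c') + (l - lam) * (l + lam + b') := by
        ring
      rw [e]
      exact Ideal.add_mem _ hl1 (Ideal.mul_mem_right _ _ hl)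
    · have e : b'' * l ^ 2 + c'' * l + 1 = (b'' * lam ^ 2 + c'' * lam + 1) +
          (l - lam) * (b'' * (l + lam) + c'') := by ring
      rw [e]
      exact Ideal.add_mem _ hl2 (Ideal.mul_mem_right _ _ hl)
    · intro h
      apply hε
      have e : 3 * lam ^ 2 + 2 * (b' - ε * b'') * lam + (c' - ε * c'') =
          (3 * l ^ 2 + 2 * (b' - ε * b'') * l + (c' - ε * c'')) -
          (l - lam) * (3 * (l + lam) + 2 * (b' - ε * b'')) := by ring
      rw [e]
      exact Ideal.sub_mem _ h (Ideal.mul_mem_right _ _ hl)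
  -- Hensel
  obtain ⟨l0, hl0, hl0'⟩ : ∃ l, l - lam ∈ (oF k d).F 1 ∧ Y ∣ C'.ph l := by
    obtain ⟨f, hf⟩ : ∃ f : (MvPowerSeries (Fin d) k)[X], f = X ^ 3 + (C (b' - ε * b'') * X ^ 2 +
      C (c' - ε * c'') * X + C (-ε)) := ⟨_, rfl⟩
    have hmon : f.Monic := by
      rw [hf]
      apply Polynomial.monic_X_pow_add
      refine lt_of_le_of_lt (degree_quadratic_le) ?_
      norm_num
    have hev : ∀ l, f.eval l = l * (l ^ 2 + b' * l + c') - ε * (b'' * l ^ 2 + c'' * l + 1) := by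
      intro l
      rw [hf]
      simp only [eval_add, eval_mul, eval_pow, eval_X, eval_C]
      ring
    have hdv : f.derivative.eval lam =
        3 * lam ^ 2 + 2 * (b' - ε * b'') * lam + (c' - ε * c'') := by
      rw [hf]
      simp only [derivative_add, derivative_mul, derivative_C, derivative_X_pow, derivative_X,
        eval_add, eval_mul, eval_pow, eval_X, eval_C, map_ofNat, Nat.cast_ofNat, eval_ofNat,
        zero_mul, mul_one, zero_add, add_zero, eval_zero, eval_one]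
      norm_num
      ring
    obtain ⟨l0, h1, h2⟩ := hensel f hmon lam (by
      rw [hev]
      exact Ideal.sub_mem _ (Ideal.mul_mem_left _ _ hl1) (Ideal.mul_mem_left _ _ hl2)) (by
      rw [hdv]; exact hε)
    refine ⟨l0, h2, ?_⟩
    rw [hph, ← hev, h1, mul_zero, zero_add]
    exact Dvd.intro _ rfl
  obtain ⟨o, l, ρ, ho, hl, hle, hρ⟩ := C'.iterate hYm (lam := lam) (by
    intro l hl
    exact ⟨_, _, not_mem_oF1_iff.1 (pert hl).2.2, hph' l⟩) ⟨l0, hl0, hl0'⟩
  obtain ⟨p1, p2, p3⟩ := pert hl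
  obtain ⟨C'', t1, t2, t3, t4, t5, t6⟩ := C'.exists_trans l
  have hC'' := hC.trans l t1 t2 t3 t4
  have hde : C''.d = Y ^ o * ρ := by rw [t4, hle]
  have ha0 : C''.a ≠ 0 := by
    intro h
    rw [t1] at h
    rw [h] at ha2
    exact ha2 (Ideal.zero_mem _)
  by_cases hρ1 : ρ ∈ (oF k d).F 1
  · exfalso
    refine hC''.alpha K L hT hB hd (by rw [t1]; exact ha2) hYm (by rw [t1]; exact hIY) hde hρ1 ?_
      ⟨-l, ε, ?_⟩
    · intro h
      rw [Ideal.mem_map_C_iff] at h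
      have h1 := h 0
      rw [Cub.pχ] at h1
      simp only [coeff_add, coeff_C_zero, mul_coeff_zero, coeff_X_zero, mul_zero, zero_add] at h1
      rw [t1] at h1
      exact hρ h1
    · rw [hY, Cub.ph, t1, t2, t3, t4, Cub.ph', Cub.ph]
      ring
  · have ho2 : 2 ≤ o := by
      by_contra hcon
      have : o = 1 := by omega
      subst this
      apply hIY.symm.not_mem
      have h1 : ρ * Y ∈ (oF k d).F 2 := by
        have e : ρ * Y = C'.ph l := by rw [hle, pow_one, mul_comm]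
        rw [e, hph]
        exact mem_F2_of hC.a hYm (Ideal.sub_mem _ (Ideal.mul_mem_left _ _ p1)
          (Ideal.mul_mem_left _ _ p2)) p2
      exact (Ideal.unit_mul_mem_iff_mem _ (not_mem_oF1_iff.1 hρ1)).1 h1
    obtain ⟨θ, hθ⟩ := C''.exists_θ L ha0
    obtain ⟨T⟩ := hT 1
    have hY0 : Y ≠ 0 := by
      intro h
      apply hIY.symm.not_mem
      rw [h]
      exact Ideal.zero_mem _
    refine C''.k1_qgor K L (T.lift d) (prime_of_order (by rw [t1]; exact hC.a)
      (by rw [t1]; exact ha2)) hY0 (by rw [t1, ← oF1_eq]; exact hC.a) (by rw [← oF1_eq]; exact hYm)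
      (by rw [t1]; exact hIY.not_dvd hC.a) hθ ho2 hde (not_mem_oF1_iff.1 hρ1)
      (b' := b' - ε * b'' + 3 * l) (b'' := b'')
      (c' := 3 * l ^ 2 + 2 * (b' - ε * b'') * l + (c' - ε * c'')) (c'' := 2 * b'' * l + c'')
      ?_ ?_ (not_mem_oF1_iff.1 p3) ?_
    · rw [t1, t2, hbe, hY]; ring
    · rw [t1, t3, hph']
    · rw [← not_mem_oF1_iff]
      intro h
      have e : (2 * b'' * l + c'') ^ 2 - (b' - ε * b'' + 3 * l) * b'' * (2 * b'' * l + c'') +
          (3 * l ^ 2 + 2 * (b' - ε * b'') * l + (c' - ε * c'')) * b'' ^ 2 =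
          (b'' * l + c'') * (c'' - b'' * b') + (l ^ 2 + b' * l + c') * b'' ^ 2 := by ring
      rw [e] at h
      have h1 : (b'' * l + c'') * (c'' - b'' * b') ∈ (oF k d).F 1 := by
        have := Ideal.sub_mem _ h (Ideal.mul_mem_right (b'' ^ 2) _ p1)
        rwa [add_sub_cancel_right] at this
      have h2 : b'' * l + c'' ∉ (oF k d).F 1 := by
        intro h2
        apply one_not_mem (k := k) (d := d)
        have e : (1 : MvPowerSeries (Fin d) k) = (b'' * l ^ 2 + c'' * l + 1) -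
          l * (b'' * l + c'') := by ring
        rw [e]
        exact Ideal.sub_mem _ p2 (Ideal.mul_mem_left _ _ h2)
      exact (oF k d).not_mem (n := 0) (m := 0) h2 hr1 h1

end main

end Run7.h889
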