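import Pool.Agent.Run7.h889.CubM3

set_option autoImplicit false
set_option linter.unusedSimpArgs false
set_option linter.unusedVariables false
set_option linter.unusedSectionVars false
set_option linter.deprecated false

namespace Run7.h889

open Module nonZeroDivisors Polynomial

universe u v

section main

variable {k : Type u} [Field k] {d : ℕ} {p : ℕ} [hp : Fact p.Prime] [CharP k p]
  {R : Type v} [CommRing R] [IsDomain R] [IsLocalRing R] [IsIntegrallyClosed R] [CharP R p]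
  [Algebra (MvPowerSeries (Fin d) k) R]
  (K : Type u) (L : Type v) [Field K] [Algebra (MvPowerSeries (Fin d) k) K]
  [IsFractionRing (MvPowerSeries (Fin d) k) K]
  [Field L] [Algebra R L] [IsFractionRing R L] [Algebra K L] [Algebra (MvPowerSeries (Fin d) k) L]
  [IsScalarTower (MvPowerSeries (Fin d) k) R L] [IsScalarTower (MvPowerSeries (Fin d) k) K L]

include K L in
/-- Case `κ = 2`, the bound (β). -/
theorem Cub.Pos.case_beta {C' : Cub (MvPowerSeries (Fin d) k) R} (hC : C'.Pos)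
    (hT : ∀ E, Nonempty (FTr (p ^ E) k)) (hB : Big p d R) (hd : 2 ≤ d)
    (hI : Indep C'.a C'.d) {b' b'' c' c'' : MvPowerSeries (Fin d) k}
    (hbe : C'.b = C'.a * b' + C'.d * b'') (hce : C'.c = C'.a * c' + C'.d * c'')
    (hr0 : 1 - b'' * c' ∈ (oF k d).F 1)
    (hr0' : 1 - b'' * c' ∈ Ideal.span {C'.a, C'.d})
    (hr1' : c'' - b'' * b' ∈ Ideal.span {C'.a, C'.d}) : False := by
  have ha2 : C'.a ∉ (oF k d).F 2 := hI.not_mem
  have ha0 : C'.a ≠ 0 := by
    intro h
    rw [h] at ha2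
    exact ha2 (Ideal.zero_mem _)
  rw [Ideal.mem_span_pair] at hr0' hr1'
  obtain ⟨s0, t0, h0⟩ := hr0'
  obtain ⟨s1, t1, h1⟩ := hr1'
  have hμ : b'' ∉ (oF k d).F 1 := by
    intro h
    apply one_not_mem (k := k) (d := d)
    have e : (1 : MvPowerSeries (Fin d) k) = (1 - b'' * c') + b'' * c' := by ring
    rw [e]
    exact Ideal.add_mem _ hr0 (Ideal.mul_mem_right _ _ h)
  obtain ⟨θ, hθ⟩ := C'.exists_θ L ha0
  obtain ⟨r, g, g0, g1, g2, n0, n1, N, hg, hge, hn0, hn1, hest, hN, hGT⟩ :=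
    hC.pkg1 K L hT hB ha2 hθ
  have h2 := C'.beta_bound (L := L) hC.a ha2 hC.b hC.c hC.d ha0 (prime_of_order hC.a ha2)
    (hI.not_dvd hC.a) hμ hbe hce (s0 := s0) (s1 := s1) (t0 := t0) (t1 := t1)
    (by rw [← h1]; ring) (by rw [← h0]; ring) (hC.bt hT hB hd) hg hθ
    (GW_of_GT (A := MvPowerSeries (Fin d) k) L hGT) hn0 hge hn1 (j := r / 4) (by omega)
  obtain ⟨e, rfl⟩ : ∃ e, d = e + 2 := ⟨d - 2, by omega⟩
  have e1 : 2 * (e + 2) - 3 = 2 * e + 1 := by omega
  rw [e1] at hN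
  have e2 : (2 * e + 1) * r = 2 * (e * r) + r := by ring
  have e3 : (e + 2) * r = e * r + 2 * r := by ring
  rw [e2] at hN
  rw [e3] at hest
  omega

include K L in
/-- Case `κ = 2`, the root case. -/
theorem Cub.Pos.case_root {C' : Cub (MvPowerSeries (Fin d) k) R} (hC : C'.Pos)
    (hT : ∀ E, Nonempty (FTr (p ^ E) k)) (hB : Big p d R) (hd : 2 ≤ d)
    (hI : Indep C'.a C'.d) {b' b'' c' c'' : MvPowerSeries (Fin d) k}
    (hbe : C'.b = C'.a * b' + C'.d * b'') (hce : C'.c = C'.a * c' + C'.d * c'')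
    (hr0 : 1 - b'' * c' ∈ (oF k d).F 1) (hr1 : c'' - b'' * b' ∈ (oF k d).F 1)
    {lam : MvPowerSeries (Fin d) k} (hl1 : lam ^ 2 + b' * lam + c' ∈ (oF k d).F 1)
    (hP : ¬ (1 - b'' * c' ∈ Ideal.span {C'.a, C'.d} ∧
      c'' - b'' * b' ∈ Ideal.span {C'.a, C'.d})) : False := by
  classical
  have ha2 : C'.a ∉ (oF k d).F 2 := hI.not_mem
  obtain ⟨r0, hr0e⟩ : ∃ r0, r0 = 1 - b'' * c' := ⟨_, rfl⟩
  obtain ⟨r1, hr1e⟩ : ∃ r1, r1 = c'' - b'' * b' := ⟨_, rfl⟩
  rw [← hr0e] at hr0 hP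
  rw [← hr1e] at hr1 hP
  have hph : ∀ l, C'.ph l = (l ^ 2 + b' * l + c') * (C'.a * l + b'' * C'.d) +
      C'.d * (r1 * l + r0) := by
    intro l
    rw [Cub.ph, hbe, hce, hr0e, hr1e]; ring
  -- simple root
  have hq' : 2 * lam + b' ∉ (oF k d).F 1 := by
    intro h
    apply hC.star_at hT hB hd lam
    constructor
    · have e : C'.ph' lam = C'.a * ((lam ^ 2 + b' * lam + c') + lam * (2 * lam + b')) +
        C'.d * (b'' * (2 * lam + b') + r1) := by
        rw [Cub.ph', hbe, hce, hr1e]; ring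
      rw [e]
      exact mem_F2_of hC.a hC.d (Ideal.add_mem _ hl1 (Ideal.mul_mem_left _ _ h))
        (Ideal.add_mem _ (Ideal.mul_mem_left _ _ h) hr1)
    · have e : C'.ph lam = C'.a * ((lam ^ 2 + b' * lam + c') * lam) +
        C'.d * ((lam ^ 2 + b' * lam + c') * b'' + (r1 * lam + r0)) := by
        rw [hph]; ring
      rw [e]
      exact mem_F2_of hC.a hC.d (Ideal.mul_mem_right _ _ hl1)
        (Ideal.add_mem _ (Ideal.mul_mem_right _ _ hl1)
          (Ideal.add_mem _ (Ideal.mul_mem_right _ _ hr1) hr0))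
  obtain ⟨l1, hl1', hl1''⟩ : ∃ l1, l1 ^ 2 + b' * l1 + c' = 0 ∧ l1 - lam ∈ (oF k d).F 1 := by
    obtain ⟨f, hf⟩ : ∃ f : (MvPowerSeries (Fin d) k)[X], f = X ^ 2 + (C b' * X + C c') := ⟨_, rfl⟩
    have hmon : f.Monic := by
      rw [hf]
      apply Polynomial.monic_X_pow_add
      refine lt_of_le_of_lt (degree_linear_le) ?_
      norm_num
    have hev : ∀ l, f.eval l = l ^ 2 + b' * l + c' := by
      intro l
      rw [hf]
      simp only [eval_add, eval_mul, eval_pow, eval_X, eval_C]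
      ring
    have hdv : f.derivative.eval lam = 2 * lam + b' := by
      rw [hf]
      simp only [derivative_add, derivative_mul, derivative_C, derivative_X_pow, derivative_X,
        eval_add, eval_mul, eval_pow, eval_X, eval_C, map_ofNat, Nat.cast_ofNat, eval_ofNat,
        zero_mul, mul_one, zero_add, add_zero, eval_zero, eval_one]
      norm_num
    obtain ⟨l0, h1, h2⟩ := hensel f hmon lam (by rw [hev]; exact hl1) (by rw [hdv]; exact hq')
    exact ⟨l0, by rw [← hev, h1], h2⟩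
  obtain ⟨l2, hl2⟩ : ∃ l2, l2 = -b' - l1 := ⟨_, rfl⟩
  have hl2' : l2 ^ 2 + b' * l2 + c' = 0 := by
    rw [← hl1', hl2]; ring
  have hu : IsUnit (l1 - l2) := by
    rw [← not_mem_oF1_iff]
    intro h
    apply hq'
    have e : 2 * lam + b' = (l1 - l2) - 2 * (l1 - lam) := by rw [hl2]; ring
    rw [e]
    exact Ideal.sub_mem _ h (Ideal.mul_mem_left _ _ hl1'')
  obtain ⟨l, hl, hlP⟩ : ∃ l, l ^ 2 + b' * l + c' = 0 ∧
      r1 * l + r0 ∉ Ideal.span {C'.a, C'.d} := by
    by_contra hcon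
    push Not at hcon
    have m1 := hcon l1 hl1'
    have m2 := hcon l2 hl2'
    have m3 : r1 ∈ Ideal.span {C'.a, C'.d} := by
      rw [← Ideal.unit_mul_mem_iff_mem _ hu]
      have e : (l1 - l2) * r1 = (r1 * l1 + r0) - (r1 * l2 + r0) := by ring
      rw [e]
      exact Ideal.sub_mem _ m1 m2
    apply hP
    refine ⟨?_, m3⟩
    have e : r0 = (r1 * l1 + r0) - r1 * l1 := by ring
    rw [e]
    exact Ideal.sub_mem _ m1 (Ideal.mul_mem_right _ _ m3)
  obtain ⟨C'', t1, t2, t3, t4, t5, t6⟩ := C'.exists_trans l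
  have hC'' := hC.trans l t1 t2 t3 t4
  refine hC''.alpha K L hT hB hd (by rw [t1]; exact ha2) (y := C'.d) (o := 1) (ρ := r1 * l + r0)
    hC.d (by rw [t1]; exact hI) ?_
    (Ideal.add_mem _ (Ideal.mul_mem_right _ _ hr1) hr0) ?_ ⟨-l, 0, ?_⟩
  · rw [t4, hph, hl, zero_mul, zero_add, pow_one]
  · intro h
    rw [Ideal.mem_map_C_iff] at h
    have h1 := h 0
    rw [Cub.pχ] at h1
    simp only [coeff_add, coeff_C_zero, mul_coeff_zero, coeff_X_zero, mul_zero, zero_add] at h1
    rw [t1] at h1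
    exact hlP h1
  · rw [Cub.ph, t1, t2, t3, t4, Cub.ph', Cub.ph]
    ring

/-- the missing case: no root modulo the maximal ideal -/
def QuadCase (p : ℕ) (k : Type u) [Field k] (d : ℕ) (R : Type v) [CommRing R] [IsLocalRing R]
    [Algebra (MvPowerSeries (Fin d) k) R] : Prop :=
  ∀ (C' : Cub (MvPowerSeries (Fin d) k) R), C'.Pos → Indep C'.a C'.d →
    ∀ b' b'' c' c'' : MvPowerSeries (Fin d) k,
      C'.b = C'.a * b' + C'.d * b'' → C'.c = C'.a * c' + C'.d * c'' →
      1 - b'' * c' ∈ (oF k d).F 1 → c'' - b'' * b' ∈ (oF k d).F 1 →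
      (∀ l : MvPowerSeries (Fin d) k, l ^ 2 + b' * l + c' ∉ (oF k d).F 1) →
      ¬ (1 - b'' * c' ∈ Ideal.span {C'.a, C'.d} ∧ c'' - b'' * b' ∈ Ideal.span {C'.a, C'.d}) →
      False

include K L in
/-- The cubic case in normal form. -/
theorem Cub.Pos.case_nf {C' : Cub (MvPowerSeries (Fin d) k) R} (hC : C'.Pos)
    (hT : ∀ E, Nonempty (FTr (p ^ E) k)) (hB : Big p d R) (hd : 2 ≤ d)
    (hQ : QuadCase p k d R)
    (hI : Indep C'.a C'.d) {b' b'' c' c'' : MvPowerSeries (Fin d) k}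
    (hbe : C'.b = C'.a * b' + C'.d * b'') (hce : C'.c = C'.a * c' + C'.d * c'') :
    IsQGorenstein p R := by
  classical
  have ha2 : C'.a ∉ (oF k d).F 2 := hI.not_mem
  have ha0 : C'.a ≠ 0 := by
    intro h
    rw [h] at ha2
    exact ha2 (Ideal.zero_mem _)
  have hd0 : C'.d ≠ 0 := by
    intro h
    apply hI.symm.not_mem
    rw [h]
    exact Ideal.zero_mem _
  by_cases hD : IsUnit ((1 - b'' * c') ^ 2 - b' * (1 - b'' * c') * (c'' - b'' * b') +
      c' * (c'' - b'' * b') ^ 2)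
  · obtain ⟨θ, hθ⟩ := C'.exists_θ L ha0
    obtain ⟨T⟩ := hT 1
    exact C'.k0_qgor K L (T.lift d) (prime_of_order hC.a ha2) hd0 (hI.not_dvd hC.a) hθ hbe hce hD
  · rw [← not_mem_oF1_iff, not_not] at hD
    by_cases hr1 : c'' - b'' * b' ∈ (oF k d).F 1
    · have hr0 : 1 - b'' * c' ∈ (oF k d).F 1 := by
        by_contra h
        have h2 := (oF k d).not_mem (n := 0) (m := 0) h h
        apply h2
        have e : (1 - b'' * c') * (1 - b'' * c') = ((1 - b'' * c') ^ 2 -
          b' * (1 - b'' * c') * (c'' - b'' * b') + c' * (c'' - b'' * b') ^ 2) +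
          (c'' - b'' * b') * (b' * (1 - b'' * c') - c' * (c'' - b'' * b')) := by ring
        rw [e]
        exact Ideal.add_mem _ hD (Ideal.mul_mem_right _ _ hr1)
      exfalso
      by_cases hP : 1 - b'' * c' ∈ Ideal.span {C'.a, C'.d} ∧
          c'' - b'' * b' ∈ Ideal.span {C'.a, C'.d}
      · exact hC.case_beta K L hT hB hd hI hbe hce hr0 hP.1 hP.2
      · by_cases hroot : ∃ l, l ^ 2 + b' * l + c' ∈ (oF k d).F 1
        · obtain ⟨l, hl⟩ := hroot
          exact hC.case_root K L hT hB hd hI hbe hce hr0 hr1 hl hP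
        · push Not at hroot
          exact hQ C' hC hI b' b'' c' c'' hbe hce hr0 hr1 hroot hP
    · obtain ⟨v, hv⟩ := (not_mem_oF1_iff.1 hr1).exists_right_inv
      obtain ⟨lam, hlam⟩ : ∃ lam, lam = -(1 - b'' * c') * v := ⟨_, rfl⟩
      have h1 : (c'' - b'' * b') * lam + (1 - b'' * c') = 0 := by
        rw [hlam]
        linear_combination (-(1 - b'' * c')) * hv
      have h2 : lam ^ 2 + b' * lam + c' ∈ (oF k d).F 1 := by
        have e : (c'' - b'' * b') ^ 2 * (lam ^ 2 + b' * lam + c') =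
            (1 - b'' * c') ^ 2 - b' * (1 - b'' * c') * (c'' - b'' * b') +
            c' * (c'' - b'' * b') ^ 2 := by
          linear_combination ((c'' - b'' * b') * lam - (1 - b'' * c') +
            b' * (c'' - b'' * b')) * h1
        rw [← e] at hD
        by_contra h3
        have h4 := (oF k d).not_mem (n := 0) (m := 0) hr1 hr1
        have h5 := (oF k d).not_mem (n := 0) (m := 0) h4 h3
        apply h5
        rw [← pow_two]
        exact hD
      refine hC.case_k1 K L hT hB hd hI hbe hce (lam := lam) h2 ?_ hr1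
      have e : b'' * lam ^ 2 + c'' * lam + 1 = b'' * (lam ^ 2 + b' * lam + c') +
          ((c'' - b'' * b') * lam + (1 - b'' * c')) := by ring
      rw [e, h1, add_zero]
      exact Ideal.mul_mem_left _ _ h2

include K L in
/-- **The cubic case.** -/
theorem Cub.Pos.cubic [Infinite k] {C' : Cub (MvPowerSeries (Fin d) k) R} (hC : C'.Pos)
    (hT : ∀ E, Nonempty (FTr (p ^ E) k)) (hB : Big p d R) (hd : 2 ≤ d)
    (hQ : QuadCase p k d R) : IsQGorenstein p R := by
  classical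
  -- normalise so that `a` has order one
  wlog ha2 : C'.a ∉ (oF k d).F 2 generalizing C'
  · rw [not_not] at ha2
    obtain ⟨l, hl⟩ : ∃ l, C'.ph l ∉ (oF k d).F 2 := by
      by_contra hcon
      push Not at hcon
      obtain ⟨h1, _, _⟩ := C'.all_mem ((oF k d).F 2) ha2 hcon
      exact hC.star' hT hB hd ⟨ha2, h1⟩
    obtain ⟨C1, t1, t2, t3, t4, _, _⟩ := C'.exists_trans l
    have hC1 := hC.trans l t1 t2 t3 t4
    obtain ⟨C2, s1, s2, s3, s4, _, _⟩ := C1.exists_swap
    exact this (C' := C2) ⟨by rw [s1]; exact hC1.d, by rw [s2]; exact hC1.c,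
      by rw [s3]; exact hC1.b, by rw [s4]; exact hC1.a⟩ (by rw [s1, t4]; exact hl)
  by_cases hind : ∃ l, Indep C'.a (C'.ph l)
  · obtain ⟨l, hl⟩ := hind
    obtain ⟨C1, t1, t2, t3, t4, _, _⟩ := C'.exists_trans l
    have hC1 := hC.trans l t1 t2 t3 t4
    rw [← t1, ← t4] at hl
    rw [← t1] at ha2
    by_cases hP : C1.b ∈ Ideal.span {C1.a, C1.d} ∧ C1.c ∈ Ideal.span {C1.a, C1.d}
    · obtain ⟨hb, hc⟩ := hP
      rw [Ideal.mem_span_pair] at hb hc
      obtain ⟨b', b'', hb⟩ := hb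
      obtain ⟨c', c'', hc⟩ := hc
      exact hC1.case_nf K L hT hB hd hQ hl (b' := b') (b'' := b'') (c' := c') (c'' := c'')
        (by rw [← hb]; ring) (by rw [← hc]; ring)
    · exfalso
      refine hC1.alpha K L hT hB hd ha2 (y := C1.d) (o := 0) (ρ := C1.d) hC1.d hl
        (by rw [pow_zero, one_mul]) hC1.d ?_ ⟨0, 0, ?_⟩
      · intro h
        apply hP
        rw [Ideal.mem_map_C_iff] at h
        have e : C1.pχ 0 C1.d C1.d = C C1.a * X ^ 3 + C C1.b * X ^ 2 + C C1.c * X + C C1.d := by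
          rw [Cub.pχ, Cub.pV]
          simp only [pow_zero, mul_one, mul_zero]
          ring
        constructor
        · have := h 2
          rw [e] at this
          simpa [coeff_X, coeff_C] using this
        · have := h 1
          rw [e] at this
          simpa [coeff_X, coeff_C] using this
      · rw [Cub.ph]; ring
  · exfalso
    push Not at hind
    have h1 : ∀ l, C'.ph l ∈ Ideal.span {C'.a} ⊔ (oF k d).F 2 := by
      intro l
      rw [mem_sup_iff_dep]
      apply dep_of_not_indep hC.a ha2 _ (hind l)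
      rw [Cub.ph]
      refine Ideal.add_mem _ (Ideal.add_mem _ (Ideal.add_mem _ ?_ ?_) ?_) hC.d
      · exact Ideal.mul_mem_right _ _ hC.a
      · exact Ideal.mul_mem_right _ _ hC.b
      · exact Ideal.mul_mem_right _ _ hC.c
    obtain ⟨hb, hc, hd'⟩ := C'.all_mem _
      (Ideal.mem_sup_left (Ideal.subset_span (Set.mem_singleton _))) h1
    rw [mem_sup_iff_dep] at hb hc hd'
    exact hC.caseD1 K L hT hB hd ha2 hb hc hd'

end main

end Run7.h889
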