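import Pool.Agent.Run7.h889.CubPkg

set_option autoImplicit false
set_option linter.unusedSimpArgs false
set_option linter.unusedVariables false
set_option linter.unusedSectionVars false
set_option linter.deprecated false

namespace Run7.h889

open Module nonZeroDivisors

universe u v

section main

variable {k : Type u} [Field k] {d : ℕ} {R : Type v} [CommRing R] [IsLocalRing R]
  [Algebra (MvPowerSeries (Fin d) k) R]

/-- coefficients of positive order -/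
structure Cub.Pos (C' : Cub (MvPowerSeries (Fin d) k) R) : Prop where
  a : C'.a ∈ (oF k d).F 1
  b : C'.b ∈ (oF k d).F 1
  c : C'.c ∈ (oF k d).F 1
  d : C'.d ∈ (oF k d).F 1

lemma one_not_mem : (1 : MvPowerSeries (Fin d) k) ∉ (oF k d).F 1 := by
  rw [not_mem_oF1_iff]; exact isUnit_one

namespace Cub

variable (C' : Cub (MvPowerSeries (Fin d) k) R)

include C' in
omit [IsLocalRing R] in
lemma isUnit_of_isUnit_map {a : MvPowerSeries (Fin d) k} (h : IsUnit (algebraMap _ R a)) :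
    IsUnit a := by
  obtain ⟨r, hr⟩ := h.exists_right_inv
  rw [C'.eq_el r] at hr
  have e : algebraMap (MvPowerSeries (Fin d) k) R a * C'.el (C'.B.repr r 0) (C'.B.repr r 1)
      (C'.B.repr r 2) = C'.el (a * C'.B.repr r 0) (a * C'.B.repr r 1) (a * C'.B.repr r 2) := by
    simp only [el, map_mul]; ring
  rw [e] at hr
  have h1 := C'.repr_el0 (a * C'.B.repr r 0) (a * C'.B.repr r 1) (a * C'.B.repr r 2)
  rw [hr] at h1
  have h2 : (1 : R) = C'.el 1 0 0 := by simp [el]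
  rw [h2, repr_el0] at h1
  exact IsUnit.of_mul_eq_one _ h1.symm

include C' in
lemma map_mem_max {a : MvPowerSeries (Fin d) k} (ha : a ∈ (oF k d).F 1) :
    algebraMap _ R a ∈ IsLocalRing.maximalIdeal R := by
  rw [IsLocalRing.mem_maximalIdeal, mem_nonunits_iff]
  intro h
  exact (not_mem_oF1_iff.2 (C'.isUnit_of_isUnit_map h)) ha

variable {C'}

lemma Pos.B_mem (hC : C'.Pos) : C'.B 1 ∈ IsLocalRing.maximalIdeal R ∧
    C'.B 2 ∈ IsLocalRing.maximalIdeal R := by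
  have hp : (IsLocalRing.maximalIdeal R).IsPrime := inferInstance
  constructor
  · have h : C'.B 1 * C'.B 1 ∈ IsLocalRing.maximalIdeal R := by
      rw [C'.h11]
      refine Ideal.add_mem _ (Ideal.add_mem _ ?_ ?_) ?_
      · exact C'.map_mem_max (neg_mem (Ideal.mul_mem_right _ _ hC.a))
      · exact Ideal.mul_mem_right _ _ (C'.map_mem_max (neg_mem hC.b))
      · exact Ideal.mul_mem_right _ _ (C'.map_mem_max hC.a)
    rcases hp.mem_or_mem h with h | h <;> exact h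
  · have h : C'.B 2 * C'.B 2 ∈ IsLocalRing.maximalIdeal R := by
      rw [C'.h22]
      refine Ideal.add_mem _ (Ideal.add_mem _ ?_ ?_) ?_
      · exact C'.map_mem_max (neg_mem (Ideal.mul_mem_right _ _ hC.b))
      · exact Ideal.mul_mem_right _ _ (C'.map_mem_max (neg_mem hC.d))
      · exact Ideal.mul_mem_right _ _ (C'.map_mem_max hC.c)
    rcases hp.mem_or_mem h with h | h <;> exact h

lemma Pos.coeff_mem (hC : C'.Pos) {z : R} (hz : z ∈ IsLocalRing.maximalIdeal R) :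
    C'.B.repr z 0 ∈ (oF k d).F 1 := by
  by_contra hc
  have hu := (not_mem_oF1_iff.1 hc).map (algebraMap _ R)
  have h1 : algebraMap _ R (C'.B.repr z 0) ∈ IsLocalRing.maximalIdeal R := by
    have e : algebraMap _ R (C'.B.repr z 0) = z - algebraMap _ R (C'.B.repr z 1) * C'.B 1 -
        algebraMap _ R (C'.B.repr z 2) * C'.B 2 := by
      conv_rhs => rw [C'.eq_el z]
      rw [repr_el1, repr_el2, el]; ring
    rw [e]
    exact Ideal.sub_mem _ (Ideal.sub_mem _ hz (Ideal.mul_mem_left _ _ hC.B_mem.1))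
      (Ideal.mul_mem_left _ _ hC.B_mem.2)
  exact (IsLocalRing.mem_maximalIdeal _).1 h1 hu

/-- powers of the maximal ideal, for any filtration finer than the order -/
lemma Pos.pow_le (hC : C'.Pos) (F' : Fil (MvPowerSeries (Fin d) k)) (hF : ∀ n, (oF k d).F n ≤ F'.F n)
    {ω : ℕ} (hω : 1 ≤ ω) (ha : C'.a ∈ F'.F ω) (hb : C'.b ∈ F'.F ω) (hc : C'.c ∈ F'.F ω)
    (hd : C'.d ∈ F'.F ω) {N : ℕ} {z : R} (hz : z ∈ (IsLocalRing.maximalIdeal R) ^ N) :
    z ∈ GF C'.B F' (Wc ω) N := by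
  have hb' := C'.hb ha hb hc hd
  have h1 : ∀ z ∈ IsLocalRing.maximalIdeal R, z ∈ GF C'.B F' (Wc ω) 1 := by
    intro z hz
    rw [C'.eq_el z, el_mem]
    have e : 1 - ω = 0 := by omega
    rw [e]
    exact ⟨hF 1 (hC.coeff_mem hz), F'.mem_zero _, F'.mem_zero _⟩
  induction N generalizing z with
  | zero => exact mem_GF_zero C'.B F' (Wc ω) z
  | succ N ih =>
    rw [pow_succ] at hz
    induction hz using Submodule.mul_induction_on' with
    | mem_mul_mem x hx y hy => exact mul_mem_GF C'.B F' (Wc ω) hb' (ih hx) (h1 y hy)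
    | add x _ y _ hx hy => exact Submodule.add_mem _ hx hy

lemma Pos.trans (hC : C'.Pos) (l : MvPowerSeries (Fin d) k)
    {C'' : Cub (MvPowerSeries (Fin d) k) R} (h1 : C''.a = C'.a) (h2 : C''.b = C'.b + 3 * C'.a * l)
    (h3 : C''.c = C'.ph' l) (h4 : C''.d = C'.ph l) : C''.Pos := by
  refine ⟨by rw [h1]; exact hC.a, ?_, ?_, ?_⟩
  · rw [h2]
    exact Ideal.add_mem _ hC.b (Ideal.mul_mem_right _ _ (Ideal.mul_mem_left _ _ hC.a))
  · rw [h3, ph']
    refine Ideal.add_mem _ (Ideal.add_mem _ ?_ ?_) hC.c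
    · exact Ideal.mul_mem_right _ _ (Ideal.mul_mem_left _ _ hC.a)
    · exact Ideal.mul_mem_right _ _ (Ideal.mul_mem_left _ _ hC.b)
  · rw [h4, ph]
    refine Ideal.add_mem _ (Ideal.add_mem _ (Ideal.add_mem _ ?_ ?_) ?_) hC.d
    · exact Ideal.mul_mem_right _ _ hC.a
    · exact Ideal.mul_mem_right _ _ hC.b
    · exact Ideal.mul_mem_right _ _ hC.c

end Cub

end main

section bt

variable {k : Type u} [Field k] {d : ℕ} {p : ℕ} [hp : Fact p.Prime] [CharP k p]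
  {R : Type v} [CommRing R] [IsLocalRing R]
  [Algebra (MvPowerSeries (Fin d) k) R]

lemma lift_hT {E : ℕ} (T : FTr (p ^ E) k) (j : ℕ) (u : MvPowerSeries (Fin d) k)
    (hu : u ∈ (oF k d).F (j * p ^ E + d * (p ^ E - 1) + 1)) :
    (T.lift d).Tr u ∈ (oF k d).F (j + 1) := by
  apply Tr_mem_wFil T (fun _ => 1) (fun _ => Nat.one_pos)
  have e : ∑ _i : Fin d, 1 = d := by simp
  rw [e]
  exact hu

/-- the squares of leading forms do not vanish -/
lemma Cub.Pos.bt {C' : Cub (MvPowerSeries (Fin d) k) R} (hC : C'.Pos)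
    (hT : ∀ E, Nonempty (FTr (p ^ E) k)) (hB : Big p d R) (hd : 2 ≤ d) :
    ∀ n z, z ∈ GF C'.B (oF k d) (Wc 1) n → z * z ∈ GF C'.B (oF k d) (Wc 1) (2 * n + 1) →
      z ∈ GF C'.B (oF k d) (Wc 1) (n + 1) := by
  obtain ⟨E0, hE0⟩ := hB 4
  obtain ⟨N, f, hf, φ, hφ, hN⟩ := hE0 E0 le_rfl
  obtain ⟨T⟩ := hT E0
  refine b_trick C'.B (oF k d) (Wc 1) (C'.hb hC.a hC.b hC.c hC.d) 0 C'.B0 rfl ?_ (q_pos p E0)
    (T.lift d) (lift_hT T) φ.1 φ.2
    (hC.pow_le (oF k d) (fun _ => le_rfl) le_rfl hC.a hC.b hC.c hC.d hf) hφ ?_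
  · intro i hi
    fin_cases i
    · exact absurd rfl hi
    · rfl
    · rfl
  · have h1 := q_pos p E0
    obtain ⟨r, hr⟩ : ∃ r, p ^ E0 = r + 1 := ⟨p ^ E0 - 1, by omega⟩
    rw [hr] at hN ⊢
    rw [Nat.add_sub_cancel] at hN ⊢
    obtain ⟨e, rfl⟩ : ∃ e, d = e + 2 := ⟨d - 2, by omega⟩
    have e1 : 2 * (e + 2) - 3 = 2 * e + 1 := by omega
    rw [e1] at hN
    have e2 : (2 * e + 1) * r = 2 * (e * r) + r := by ring
    have e3 : (e + 2) * r = e * r + 2 * r := by ring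
    rw [e2] at hN
    rw [e3]
    omega

lemma Cub.Pos.star {C' : Cub (MvPowerSeries (Fin d) k) R} (hC : C'.Pos)
    (hT : ∀ E, Nonempty (FTr (p ^ E) k)) (hB : Big p d R) (hd : 2 ≤ d) :
    ¬ (C'.c ∈ (oF k d).F 2 ∧ C'.d ∈ (oF k d).F 2) := by
  rintro ⟨hc, hd'⟩
  have h1 := hC.bt hT hB hd 1 (C'.B 2) (C'.B2_mem _ _) (by
    have e2 : C'.B 2 = C'.el 0 0 1 := by simp [Cub.el]
    rw [e2, Cub.el_mul, Cub.el_mem]
    simp only [mul_zero, zero_mul, mul_one, one_mul, zero_add, add_zero, sub_zero, zero_sub]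
    refine ⟨neg_mem ((oF k d).mul_le hC.b hd' (by omega)), neg_mem hd', hc⟩)
  have e2 : C'.B 2 = C'.el 0 0 1 := by simp [Cub.el]
  rw [e2, Cub.el_mem] at h1
  exact one_not_mem h1.2.2

lemma Cub.Pos.star' {C' : Cub (MvPowerSeries (Fin d) k) R} (hC : C'.Pos)
    (hT : ∀ E, Nonempty (FTr (p ^ E) k)) (hB : Big p d R) (hd : 2 ≤ d) :
    ¬ (C'.a ∈ (oF k d).F 2 ∧ C'.b ∈ (oF k d).F 2) := by
  rintro ⟨ha, hb⟩
  have h1 := hC.bt hT hB hd 1 (C'.B 1) (C'.B1_mem _ _) (by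
    have e2 : C'.B 1 = C'.el 0 1 0 := by simp [Cub.el]
    rw [e2, Cub.el_mul, Cub.el_mem]
    simp only [mul_zero, zero_mul, mul_one, one_mul, zero_add, add_zero, sub_zero, zero_sub]
    refine ⟨neg_mem ((oF k d).mul_le ha hC.c (by omega)), neg_mem hb, ha⟩)
  have e2 : C'.B 1 = C'.el 0 1 0 := by simp [Cub.el]
  rw [e2, Cub.el_mem] at h1
  exact one_not_mem h1.2.1

lemma Cub.Pos.pow_B2 {C' : Cub (MvPowerSeries (Fin d) k) R} (hC : C'.Pos)
    (hT : ∀ E, Nonempty (FTr (p ^ E) k)) (hB : Big p d R) (hd : 2 ≤ d) (n : ℕ) :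
    (C'.B 2) ^ n ∉ GF C'.B (oF k d) (Wc 1) (n + 1) := by
  have h := pow_not_mem_GF C'.B (oF k d) (Wc 1) (C'.hb hC.a hC.b hC.c hC.d) (hC.bt hT hB hd)
    (n := 1) (z := C'.B 2) (C'.B2_mem _ _) (by
      have e2 : C'.B 2 = C'.el 0 0 1 := by simp [Cub.el]
      rw [e2, Cub.el_mem]
      rintro ⟨_, _, h⟩
      exact one_not_mem h) n
  rwa [mul_one] at h

end bt

end Run7.h889
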