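import Pool.Agent.Run7.h889.PS2

set_option autoImplicit false
set_option linter.unusedSimpArgs false
set_option linter.unusedVariables false
set_option linter.unusedSectionVars false
set_option linter.deprecated false

namespace Run7.h889

open MvPowerSeries IsLocalRing

universe u

section transport

variable {A : Type u} [CommRing A]

/-- transport of a filtration -/
def Fil.map (σ : A ≃+* A) (F : Fil A) : Fil A where
  F n := (F.F n).comap σ.symm.toRingHom
  F_zero := by rw [F.F_zero]; rfl
  anti n := Ideal.comap_mono (F.anti n)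
  mul_mem := by
    intro n m a b ha hb
    rw [Ideal.mem_comap] at ha hb ⊢
    rw [map_mul]
    exact F.mul_mem ha hb
  not_mem := by
    intro n m a b ha hb
    rw [Ideal.mem_comap] at ha hb ⊢
    rw [map_mul]
    exact F.not_mem ha hb
  sep := by
    intro a ha
    have h : σ.symm a = 0 := F.sep ha
    exact (map_eq_zero_iff σ.symm σ.symm.injective).1 h

lemma Fil.mem_map (σ : A ≃+* A) (F : Fil A) (n : ℕ) (a : A) :
    a ∈ (F.map σ).F n ↔ σ.symm a ∈ F.F n := Iff.rfl

/-- transport of a trace -/
def FTr.map {q : ℕ} (σ : A ≃+* A) (T : FTr q A) : FTr q A where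
  Tr := (σ : A →+ A).comp (T.Tr.comp (σ.symm : A →+ A))
  Tr_pow_mul := by
    intro a f
    change σ (T.Tr (σ.symm (a ^ q * f))) = a * σ (T.Tr (σ.symm f))
    rw [map_mul, map_pow, T.Tr_pow_mul, map_mul, RingEquiv.apply_symm_apply]
  ι := T.ι
  fin := T.fin
  b := fun i => σ (T.b i)
  b' := fun i => σ (T.b' i)
  sum_eq := by
    intro u
    have h := T.sum_eq (σ.symm u)
    have h2 := congrArg σ h
    rw [RingEquiv.apply_symm_apply, map_sum] at h2
    refine h2.trans ?_
    apply Finset.sum_congr rfl
    intro i _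
    change σ (_ ^ q * _) = (σ (T.Tr (σ.symm (σ (T.b' i) * u)))) ^ q * σ (T.b i)
    rw [map_mul σ, map_pow σ, map_mul σ.symm, RingEquiv.symm_apply_apply]

lemma FTr.map_Tr {q : ℕ} (σ : A ≃+* A) (T : FTr q A) (u : A) :
    (T.map σ).Tr u = σ (T.Tr (σ.symm u)) := rfl

end transport

section weights

variable {k : Type u} [Field k] {d : ℕ} {p : ℕ} [hp : Fact p.Prime] [CharP k p]

/-- A filtration in which a given parameter has weight two. -/
theorem exists_weight {x : MvPowerSeries (Fin d) k} (hx : x ∈ (oF k d).F 1)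
    (hx2 : x ∉ (oF k d).F 2) : ∃ F' : Fil (MvPowerSeries (Fin d) k),
      (∀ n, (oF k d).F n ≤ F'.F n) ∧ x ∈ F'.F 2 ∧ x ∉ F'.F 3 ∧
      (∀ (E : ℕ) (T : FTr (p ^ E) k), ∃ T' : FTr (p ^ E) (MvPowerSeries (Fin d) k),
        ∀ j u, u ∈ F'.F (j * p ^ E + (d + 1) * (p ^ E - 1) + 1) → T'.Tr u ∈ F'.F (j + 1)) := by
  classical
  obtain ⟨i, hi⟩ := exists_lin hx hx2
  obtain ⟨σ, hσ, _⟩ := exists_aut i hx hi
  let w : Fin d → ℕ := fun j => if j = i then 2 else 1
  have hw : ∀ j, 0 < w j := by
    intro j
    simp only [w]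
    split_ifs <;> omega
  have hσ' : σ.symm x = X i := by rw [← hσ, RingEquiv.symm_apply_apply]
  refine ⟨(wFil w hw).map σ, ?_, ?_, ?_, ?_⟩
  · intro n f hf
    rw [Fil.mem_map, mem_wFil]
    have h1 := aut_mem_oF σ.symm hf
    rw [mem_oF] at h1
    intro u hu
    refine (h1 u hu).trans ?_
    rw [← wg_one, wg, wg]
    apply Finset.sum_le_sum
    intro j _
    exact Nat.mul_le_mul_left _ (hw j)
  · rw [Fil.mem_map, hσ', mem_wFil]
    intro u hu
    rw [coeff_X] at hu
    split_ifs at hu with h
    · subst h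
      rw [wg, Finset.sum_eq_single i]
      · simp [w]
      · intro j _ hj
        rw [Finsupp.single_apply, if_neg (Ne.symm hj), zero_mul]
      · intro h; exact absurd (Finset.mem_univ _) h
    · exact absurd rfl hu
  · rw [Fil.mem_map, hσ', mem_wFil]
    intro h
    have := h (Finsupp.single i 1) (by rw [coeff_index_single_self_X]; exact one_ne_zero)
    rw [wg, Finset.sum_eq_single i] at this
    · simp [w] at this
    · intro j _ hj
      rw [Finsupp.single_apply, if_neg (Ne.symm hj), zero_mul]
    · intro h; exact absurd (Finset.mem_univ _) h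
  · intro E T
    refine ⟨(T.lift d).map σ, ?_⟩
    intro j u hu
    rw [Fil.mem_map] at hu ⊢
    rw [FTr.map_Tr, RingEquiv.symm_apply_apply]
    apply Tr_mem_wFil T w hw
    have hs : ∑ i, w i = d + 1 := by
      have : ∀ j, w j = 1 + (if j = i then 1 else 0) := by
        intro j
        simp only [w]
        split_ifs <;> rfl
      rw [Finset.sum_congr rfl (fun j _ => this j), Finset.sum_add_distrib, Finset.sum_ite_eq']
      simp
    rw [hs]
    exact hu

end weights

end Run7.h889
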