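import Pool.Agent.Run7.h889.Beta
import Pool.Agent.Run7.h889.PS3

set_option autoImplicit false
set_option linter.unusedSimpArgs false
set_option linter.unusedVariables false
set_option linter.unusedSectionVars false
set_option linter.deprecated false

namespace Run7.h889

open Module

universe u v

/-- `fpt(𝔪) > d - 3/2` in a usable form -/
def Big (p d : ℕ) (R : Type v) [CommRing R] [IsLocalRing R] : Prop :=
  ∀ C : ℕ, ∃ E0 : ℕ, ∀ E, E0 ≤ E → ∃ N : ℕ, ∃ f ∈ (IsLocalRing.maximalIdeal R) ^ N,
    ∃ φ : FHom p E R, φ.1 f = 1 ∧ (2 * d - 3) * (p ^ E - 1) + C ≤ 2 * N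

section btrick

variable {A : Type u} {R : Type v} [CommRing A] [CommRing R] [Algebra A R]
variable {ι : Type} [Fintype ι] (b : Basis ι A R) (F : Fil A) (W : ι → ℕ)

/-- A `q^{-1}`-linear map sends elements with coefficients of large order to elements with
coefficients of order `n`. -/
lemma phi_coeff {q c : ℕ} (T : FTr q A)
    (hT : ∀ j u, u ∈ F.F (j * q + c * (q - 1) + 1) → T.Tr u ∈ F.F (j + 1))
    (φ : R →+ R) (hφ : ∀ r x, φ (r ^ q * x) = r * φ x) {n : ℕ} {h : R}
    (hh : ∀ i, b.repr h i ∈ F.F (n * q + c * (q - 1) + 1)) :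
    ∀ i, b.repr (φ h) i ∈ F.F (n + 1) := by
  classical
  let M : Submodule A R :=
    { carrier := {z | ∀ i, b.repr z i ∈ F.F (n + 1)}
      zero_mem' := by intro i; rw [map_zero]; exact Ideal.zero_mem _
      add_mem' := by
        intro x y hx hy i
        rw [map_add]
        exact Ideal.add_mem _ (hx i) (hy i)
      smul_mem' := by
        intro a x hx i
        rw [map_smul]
        exact Ideal.mul_mem_left _ _ (hx i) }
  have key : φ h ∈ M := by
    rw [← b.sum_repr h, map_sum]
    apply Submodule.sum_mem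
    intro i _
    obtain ⟨u, hu⟩ : ∃ u, u = b.repr h i := ⟨_, rfl⟩
    rw [← hu, T.sum_eq u, Finset.sum_smul, map_sum]
    apply Submodule.sum_mem
    intro l _
    have e : ((T.Tr (T.b' l * u)) ^ q * T.b l) • b i =
        (algebraMap A R (T.Tr (T.b' l * u))) ^ q * (T.b l • b i) := by
      rw [mul_smul, Algebra.smul_def, map_pow]
    rw [e, hφ]
    intro j
    rw [← Algebra.smul_def, map_smul, Finsupp.smul_apply, smul_eq_mul]
    apply Ideal.mul_mem_right
    apply hT
    apply Ideal.mul_mem_left
    rw [hu]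
    exact hh i
  exact key

/-- **The squares of leading forms do not vanish.** -/
theorem b_trick (hb : ∀ i j, b i * b j ∈ GF b F W (W i + W j)) (i0 : ι) (hb0 : b i0 = 1)
    (hW0 : W i0 = 0) (hW1 : ∀ i, i ≠ i0 → W i = 1) {q c : ℕ} (hq : 1 ≤ q) (T : FTr q A)
    (hT : ∀ j u, u ∈ F.F (j * q + c * (q - 1) + 1) → T.Tr u ∈ F.F (j + 1))
    (φ : R →+ R) (hφ : ∀ r x, φ (r ^ q * x) = r * φ x) {f : R} {N : ℕ}
    (hf : f ∈ GF b F W N) (h1 : φ f = 1) (hN : c * (q - 1) + 2 ≤ N + q / 2 + q) :
    ∀ n z, z ∈ GF b F W n → z * z ∈ GF b F W (2 * n + 1) → z ∈ GF b F W (n + 1) := by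
  classical
  intro n z hz hzz
  -- all coefficients of `z` have order at least `n`
  have hzn : ∀ i, b.repr z i ∈ F.F n := by
    rcases n with _ | n
    · intro i; exact F.mem_zero _
    · have e1 : φ (f * z ^ q) = z := by
        rw [mul_comm, hφ, h1, mul_one]
      rw [← e1]
      apply phi_coeff b F T hT φ hφ
      have m1 : z ^ q ∈ GF b F W ((n + 1) * q + q / 2) := by
        have e2 : z ^ q = (z * z) ^ (q / 2) * z ^ (q % 2) := by
          rw [← pow_two, ← pow_mul, ← pow_add, Nat.div_add_mod]
        rw [e2]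
        apply mul_le_GF b F W hb (pow_mem_GF b F W hb hzz _) (pow_mem_GF b F W hb hz _)
        have h2 := Nat.div_add_mod q 2
        have h3 : (n + 1) * q = (n + 1) * (2 * (q / 2) + q % 2) := by rw [h2]
        rw [h3]
        ring_nf
        omega
      have m2 := mul_mem_GF b F W hb hf m1
      intro i
      refine F.mem_le (m2 i) ?_
      have hWi : W i ≤ 1 := by
        by_cases h : i = i0
        · rw [h, hW0]; omega
        · rw [hW1 i h]
      have e3 : (n + 1) * q = n * q + q := by ring
      omega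
  -- split off the constant coefficient
  obtain ⟨z0, hz0⟩ : ∃ z0, z0 = b.repr z i0 := ⟨_, rfl⟩
  obtain ⟨w, hw⟩ : ∃ w, w = z - algebraMap A R z0 := ⟨_, rfl⟩
  have alg : algebraMap A R z0 = z0 • b i0 := by rw [hb0, Algebra.algebraMap_eq_smul_one]
  have hwm : w ∈ GF b F W (n + 1) := by
    intro i
    rw [hw, alg, map_sub, map_smul, Basis.repr_self, Finsupp.smul_single, smul_eq_mul, mul_one,
      Finsupp.sub_apply]
    by_cases h : i = i0
    · subst h
      rw [Finsupp.single_eq_same, ← hz0, sub_self]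
      exact Ideal.zero_mem _
    · rw [Finsupp.single_apply, if_neg (Ne.symm h), sub_zero]
      refine F.mem_le (hzn i) ?_
      rw [hW1 i h]
      omega
  have hz0n : z0 ∈ F.F n := by rw [hz0]; exact hzn i0
  have am : ∀ {m : ℕ} {a : A}, a ∈ F.F m → algebraMap A R a ∈ GF b F W m := by
    intro m a ha i
    rw [Algebra.algebraMap_eq_smul_one, ← hb0, map_smul, Basis.repr_self, Finsupp.smul_single,
      smul_eq_mul, mul_one, Finsupp.single_apply]
    split_ifs with h
    · exact F.mem_le ha (by omega)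
    · exact Ideal.zero_mem _
  have hsq : algebraMap A R (z0 * z0) ∈ GF b F W (2 * n + 1) := by
    have e : algebraMap A R (z0 * z0) = z * z - (algebraMap A R z0 * w + algebraMap A R z0 * w) -
        w * w := by
      rw [hw, map_mul]; ring
    rw [e]
    have m1 : algebraMap A R z0 * w ∈ GF b F W (2 * n + 1) :=
      mul_le_GF b F W hb (am hz0n) hwm (by omega)
    exact Submodule.sub_mem _ (Submodule.sub_mem _ hzz (Submodule.add_mem _ m1 m1))
      (mul_le_GF b F W hb hwm hwm (by omega))
  have hz0sq : z0 * z0 ∈ F.F (2 * n + 1) := by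
    have := hsq i0
    rw [Algebra.algebraMap_eq_smul_one, ← hb0, map_smul, Basis.repr_self, Finsupp.smul_single,
      smul_eq_mul, mul_one, Finsupp.single_eq_same, hW0, Nat.sub_zero] at this
    exact this
  have hz0' : z0 ∈ F.F (n + 1) := by
    by_contra hc
    have := F.not_mem hc hc
    apply this
    have e : n + n + 1 = 2 * n + 1 := by ring
    rwa [e]
  have e : z = w + algebraMap A R z0 := by rw [hw]; ring
  rw [e]
  exact Submodule.add_mem _ hwm (am hz0')

end btrick

end Run7.h889
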