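import Pool.Agent.Run7.h889.CubQG4
import Pool.Agent.Run7.h889.Steps

set_option autoImplicit false
set_option linter.unusedSimpArgs false
set_option linter.unusedVariables false
set_option linter.unusedSectionVars false
set_option linter.deprecated false

namespace Run7.h889

open Module nonZeroDivisors Polynomial

universe u v

namespace Cub

variable {A : Type u} {R : Type v} [CommRing A] [IsDomain A] [CommRing R] [IsDomain R] [Algebra A R]
variable (K : Type u) (L : Type v) [Field K] [Algebra A K] [IsFractionRing A K]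
  [Field L] [Algebra R L] [IsFractionRing R L] [Algebra K L] [Algebra A L]
  [IsScalarTower A R L] [IsScalarTower A K L]
variable (C' : Cub A R) (F : Fil A) {p : ℕ} [hp : Fact p.Prime] [CharP R p] [IsIntegrallyClosed R]

include K in
/-- The element `g` and the first two estimates. -/
theorem pkg {E c ω : ℕ} (T : FTr (p ^ E) A)
    (hT : ∀ j u, u ∈ F.F (j * p ^ E + c * (p ^ E - 1) + 1) → T.Tr u ∈ F.F (j + 1))
    (ha : C'.a ∈ F.F ω) (ha' : C'.a ∉ F.F (ω + 1)) (hb : C'.b ∈ F.F ω) (hc : C'.c ∈ F.F ω)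
    (hd : C'.d ∈ F.F ω) (ha0 : C'.a ≠ 0) {θ : L}
    (hθ : algebraMap A L C'.a * θ = algebraMap R L (C'.B 1))
    (φ : FHom p E R) {f : R} {N : ℕ} (hf : f ∈ GF C'.B F (Wc ω) N) (h1 : φ.1 f = 1) :
    ∃ (g : R) (g0 g1 g2 : A) (n0 n1 : ℕ), g ≠ 0 ∧ g = C'.el g0 g1 g2 ∧
      Algebra.norm A g ∈ F.F n0 ∧ Algebra.norm A g ∉ F.F (n0 + 1) ∧
      C'.sh g0 g1 g2 ∈ GF C'.B F (Wc ω) n1 ∧
      N + n0 + ω * (p ^ E - 1) ≤ n1 + c * (p ^ E - 1) ∧ 3 * n1 ≤ 2 * n0 ∧
      GT (R := R) θ (algebraMap R L g) (p ^ E - 1) := by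
  classical
  have hq := q_pos p E
  have hb' := C'.hb ha hb hc hd
  have injA := IsFractionRing.injective A K
  have injL := IsFractionRing.injective R L
  obtain ⟨G, hG⟩ : ∃ G, G = gL K L C'.B C'.eps_ne p E T φ := ⟨_, rfl⟩
  have hmem := gL_mem K L C'.B C'.eps_ne p E T φ
  rw [← hG] at hmem
  obtain ⟨g, hg⟩ := hmem 1 (by
    have := Submodule.pow_mem_pow _ (one_mem_WW K L C'.B C'.eps) (p ^ E - 1)
    rwa [one_pow] at this)
  rw [mul_one] at hg
  have hg0 : g ≠ 0 := by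
    rintro rfl
    rw [map_zero] at hg
    have h2 : φ = 0 := gL_inj K L C'.B C'.eps_ne p E T (by rw [← hG, hg, map_zero])
    rw [h2] at h1
    change (0 : R) = 1 at h1
    exact zero_ne_one h1
  have hrel : ∀ w x, C'.eps (w * φ.1 x) = T.Tr (C'.eps (g * w ^ p ^ E * x)) := by
    intro w x
    obtain ⟨c, h3, h4⟩ := gL_spec K L C'.B C'.eps_ne p E T φ (algebraMap R L w)
      (algebraMap_mem_WW K L C'.B C'.eps w) x
    rw [← hG, hg, ← map_pow, ← map_mul, ← map_mul, eL_algebraMap] at h3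
    rw [← map_mul, eL_algebraMap] at h4
    rw [injA h3]
    exact injA h4
  obtain ⟨ν, hν⟩ : ∃ ν, ν = Algebra.norm A g := ⟨_, rfl⟩
  have hν0 : ν ≠ 0 := by
    rw [hν]
    exact Algebra.norm_ne_zero_iff_of_basis C'.B |>.2 hg0
  obtain ⟨n0, hn0, hn0'⟩ := F.exists_ord hν0
  obtain ⟨g0, hg0e⟩ : ∃ g0, g0 = C'.B.repr g 0 := ⟨_, rfl⟩
  obtain ⟨g1, hg1e⟩ : ∃ g1, g1 = C'.B.repr g 1 := ⟨_, rfl⟩
  obtain ⟨g2, hg2e⟩ : ∃ g2, g2 = C'.B.repr g 2 := ⟨_, rfl⟩
  have hge : g = C'.el g0 g1 g2 := by rw [hg0e, hg1e, hg2e]; exact C'.eq_el g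
  obtain ⟨g', hg'⟩ : ∃ g', g' = C'.sh g0 g1 g2 := ⟨_, rfl⟩
  have hgg : g * g' = algebraMap A R ν := by
    rw [hg', hge, mul_sh, ← norm_el, ← hge, hν]
  have hg'0 : g' ≠ 0 := by
    rintro rfl
    rw [mul_zero] at hgg
    exact hν0 (C'.injAR (by rw [← hgg, map_zero]))
  obtain ⟨n1, hn1, hn1'⟩ := exists_ord_GF C'.B F (Wc ω) hg'0
  have hnorm : Algebra.norm A g' = ν ^ 2 := by
    have h1 := congrArg (Algebra.norm A) hgg
    rw [map_mul, Algebra.norm_algebraMap_of_basis C'.B, Fintype.card_fin, ← hν] at h1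
    apply mul_left_cancel₀ hν0
    rw [h1]; ring
  refine ⟨g, g0, g1, g2, n0, n1, hg0, hge, by rw [← hν]; exact hn0, by rw [← hν]; exact hn0',
    by rw [← hg']; exact hn1, ?_, ?_, ?_⟩
  · exact estimate_a C'.B F (Wc ω) hb' hq T hT ω C'.eps (C'.eps_mem F ω) g g' ν hgg φ.1 φ.2 hrel f N
      hf h1 n0 n1 hn0 hn1 (C'.nd ha ha' hc hn1 hn1')
  · have h3 := norm_mem_Fil C'.B F (Wc ω) hb' hn1
    rw [hnorm, Fintype.card_fin] at h3
    by_contra hcon
    push Not at hcon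
    have h4 := F.not_mem hn0' hn0'
    rw [← pow_two] at h4
    exact h4 (F.mem_le h3 (by omega))
  · apply C'.GT_of_WW K L ha0 hθ
    intro z hz
    rw [← hg]
    exact hmem z hz

/-- division: `x^r h = g (α - x l)^r` -/
lemma hdiv_of_GT {L : Type v} [Field L] [Algebra R L] [IsFractionRing R L] [Algebra A L]
    [IsScalarTower A R L] {θ : L} (hθ : algebraMap A L C'.a * θ = algebraMap R L (C'.B 1))
    {g : R} {r : ℕ} (hGT : GT (R := R) θ (algebraMap R L g) r) (l : A) :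
    ∃ h : R, algebraMap A R C'.a ^ r * h = g * (C'.el (-(C'.a * l)) 1 0) ^ r := by
  have hGW := GW_of_GT (A := A) L hGT
  obtain ⟨h, hh⟩ := hGW ((X - C l) ^ r) (by
    refine (natDegree_pow_le_of_le r (natDegree_X_sub_C_le l)).trans (by omega))
  refine ⟨h, ?_⟩
  apply IsFractionRing.injective R L
  rw [map_mul, map_mul, ← hh, map_pow, map_pow, map_pow, map_sub, evζ_X, evζ_C,
    ← IsScalarTower.algebraMap_apply A R L]
  have e : algebraMap R L (C'.el (-(C'.a * l)) 1 0) =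
      algebraMap A L C'.a * (θ - algebraMap A L l) := by
    simp only [el, map_add, map_mul, map_neg, map_one, map_zero,
      ← IsScalarTower.algebraMap_apply A R L]
    rw [← hθ]
    ring
  rw [e, mul_pow]
  ring

end Cub

end Run7.h889
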