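import Pool.Agent.Run7.h889.Beta

set_option autoImplicit false
set_option linter.unusedSimpArgs false
set_option linter.unusedVariables false
set_option linter.unusedSectionVars false
set_option linter.deprecated false

namespace Run7.h889

open Module nonZeroDivisors Polynomial

universe u v

namespace Cub

variable {A : Type u} {R : Type v} [CommRing A] [IsDomain A] [CommRing R] [IsDomain R] [Algebra A R]
variable (K : Type u) (L : Type v) [Field K] [Algebra A K] [IsFractionRing A K]
  [Field L] [Algebra R L] [IsFractionRing R L] [Algebra K L] [Algebra A L]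
  [IsScalarTower A R L] [IsScalarTower A K L]
variable (C' : Cub A R)

lemma eps_ne : ∃ x, C'.eps x ≠ 0 := by
  refine ⟨C'.B 2, ?_⟩
  have : C'.B 2 = C'.el 0 0 1 := by simp [el]
  rw [this, eps_el]
  exact one_ne_zero

variable {θ : L} (ha0 : C'.a ≠ 0) (hθ : algebraMap A L C'.a * θ = algebraMap R L (C'.B 1))

include ha0 hθ in
lemma eL_θ (r0 r1 r2 : A) : eL K L C'.B C'.eps (θ * algebraMap R L (C'.el r0 r1 r2)) =
    algebraMap A K r1 := by
  have inj := IsFractionRing.injective A K
  have h1 : algebraMap A K C'.a ≠ 0 := by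
    intro h
    exact ha0 (inj (by rw [h, map_zero]))
  apply mul_left_cancel₀ h1
  rw [← eL_smul_A, ← mul_assoc, hθ, ← map_mul (algebraMap R L), eL_algebraMap, ← map_mul]
  congr 1
  have e1 : C'.B 1 = C'.el 0 1 0 := by simp [el]
  rw [e1, el_mul, eps_el]
  ring

include ha0 hθ in
lemma θ_mem : θ ∈ WW K L C'.B C'.eps := by
  intro r
  rw [C'.eq_el r, C'.eL_θ K L ha0 hθ]
  exact ⟨_, rfl⟩

include ha0 hθ in
lemma WW_le : WW K L C'.B C'.eps ≤ Submodule.span R {1, θ} := by
  intro z hz
  obtain ⟨c0, h0⟩ := hz (C'.B 0)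
  obtain ⟨c1, h1⟩ := hz (C'.B 1)
  obtain ⟨c2, h2⟩ := hz (C'.B 2)
  have key : z = algebraMap R L (C'.el (c2 - C'.c * c0) 0 c0) + algebraMap A L c1 * θ := by
    rw [← sub_eq_zero]
    apply eL_nondeg K L C'.B C'.eps_ne
    intro r
    rw [C'.eq_el r]
    set r0 := C'.B.repr r 0
    set r1 := C'.B.repr r 1
    set r2 := C'.B.repr r 2
    rw [sub_mul, map_sub, add_mul, map_add, mul_assoc, eL_smul_A, C'.eL_θ K L ha0 hθ,
      ← map_mul (algebraMap R L), eL_algebraMap, el_mul, eps_el]
    have e1 : eL K L C'.B C'.eps (z * algebraMap R L (C'.el r0 r1 r2)) =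
        algebraMap A K (r0 * c0 + r1 * c1 + r2 * c2) := by
      have e2 : z * algebraMap R L (C'.el r0 r1 r2) =
          algebraMap A L r0 * (z * algebraMap R L (C'.B 0)) +
          algebraMap A L r1 * (z * algebraMap R L (C'.B 1)) +
          algebraMap A L r2 * (z * algebraMap R L (C'.B 2)) := by
        rw [el, C'.B0]
        simp only [map_add, map_mul, map_one, ← IsScalarTower.algebraMap_apply A R L]
        ring
      rw [e2, map_add (eL K L C'.B C'.eps), map_add (eL K L C'.B C'.eps), eL_smul_A, eL_smul_A,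
        eL_smul_A, h0, h1, h2]
      simp only [map_add, map_mul]
    rw [e1]
    simp only [map_add, map_mul, map_sub, map_zero, mul_zero, zero_mul, add_zero]
    ring
  rw [key]
  apply Submodule.add_mem
  · have := Submodule.smul_mem (Submodule.span R {1, θ}) (C'.el (c2 - C'.c * c0) 0 c0)
      (Submodule.subset_span (by simp : (1 : L) ∈ ({1, θ} : Set L)))
    rwa [Algebra.smul_def, mul_one] at this
  · have := Submodule.smul_mem (Submodule.span R {1, θ}) (algebraMap A R c1)
      (Submodule.subset_span (by simp : θ ∈ ({1, θ} : Set L)))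
    rwa [Algebra.smul_def, ← IsScalarTower.algebraMap_apply A R L] at this

/-- `g θ^i ∈ R` for `i ≤ r` -/
def GT {L : Type v} [Field L] [Algebra R L] (θ : L) (g : L) (r : ℕ) : Prop :=
  ∀ i ≤ r, ∃ s : R, g * θ ^ i = algebraMap R L s

omit [IsDomain A] [IsDomain R] [IsFractionRing R L] in
lemma GW_of_GT {g : R} {r : ℕ} (h : GT (R := R) θ (algebraMap R L g) r) : GW (A := A) L θ g r := by
  intro P hP
  rw [evζ, coe_eval₂RingHom, eval₂_eq_sum_range' _ (Nat.lt_succ_of_le hP), Finset.mul_sum]
  choose s hs using fun i : ℕ => fun hi : i ≤ r => h i hi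
  refine ⟨∑ i ∈ (Finset.range (r + 1)).attach, algebraMap A R (P.coeff i.1) *
    s i.1 (by have := Finset.mem_range.1 i.2; omega), ?_⟩
  rw [map_sum, ← Finset.sum_attach]
  apply Finset.sum_congr rfl
  intro i _
  rw [map_mul, ← hs, ← IsScalarTower.algebraMap_apply A R L]
  ring

include ha0 hθ in
lemma GT_of_WW {g : L} {r : ℕ}
    (h : ∀ z ∈ (WW K L C'.B C'.eps) ^ r, ∃ s : R, g * z = algebraMap R L s) :
    GT (R := R) θ g r := by
  intro i hi
  apply h
  have h1 : θ ^ i ∈ (WW K L C'.B C'.eps) ^ i := Submodule.pow_mem_pow _ (C'.θ_mem K L ha0 hθ) i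
  obtain ⟨j, rfl⟩ := Nat.exists_eq_add_of_le hi
  have h2 : (1 : L) ^ j ∈ (WW K L C'.B C'.eps) ^ j :=
    Submodule.pow_mem_pow _ (one_mem_WW K L C'.B C'.eps) j
  rw [pow_add]
  have := Submodule.mul_mem_mul h1 h2
  rwa [one_pow, mul_one] at this

include ha0 hθ in
lemma WW_of_GT {g : L} {r : ℕ} (h : GT (R := R) θ g r) :
    ∀ z ∈ (WW K L C'.B C'.eps) ^ r, ∃ s : R, g * z = algebraMap R L s := by
  have key : ∀ n, (WW K L C'.B C'.eps) ^ n ≤
      Submodule.span R {z | ∃ i ≤ n, z = θ ^ i} := by
    intro n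
    induction n with
    | zero =>
      rw [pow_zero, Submodule.one_le]
      exact Submodule.subset_span ⟨0, le_rfl, by rw [pow_zero]⟩
    | succ n ih =>
      rw [pow_succ]
      refine (mul_le_mul' ih (C'.WW_le K L ha0 hθ)).trans ?_
      rw [Submodule.span_mul_span, Submodule.span_le]
      rintro _ ⟨_, ⟨i, hi, rfl⟩, w, hw, rfl⟩
      rcases hw with rfl | hw
      · exact Submodule.subset_span ⟨i, by omega, by simp⟩
      · rw [Set.mem_singleton_iff] at hw
        subst hw
        exact Submodule.subset_span ⟨i + 1, by omega, by simp [pow_succ]⟩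
  let T : Submodule R L :=
    { carrier := {z | ∃ s : R, g * z = algebraMap R L s}
      zero_mem' := ⟨0, by rw [mul_zero, map_zero]⟩
      add_mem' := by
        rintro x y ⟨s, hs⟩ ⟨t, ht⟩
        exact ⟨s + t, by rw [mul_add, hs, ht, map_add]⟩
      smul_mem' := by
        rintro c x ⟨s, hs⟩
        exact ⟨c * s, by rw [mul_smul_comm, hs, Algebra.smul_def, map_mul]⟩ }
  have hT : Submodule.span R {z | ∃ i ≤ r, z = θ ^ i} ≤ T := by
    rw [Submodule.span_le]
    rintro _ ⟨i, hi, rfl⟩
    exact h i hi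
  intro z hz
  exact hT (key r hz)

end Cub

end Run7.h889
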