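import Pool.Agent.Run7.h889.CubQG

set_option autoImplicit false
set_option linter.unusedSimpArgs false
set_option linter.unusedVariables false
set_option linter.unusedSectionVars false
set_option linter.deprecated false

namespace Run7.h889

open Module nonZeroDivisors Polynomial

universe u v

section

variable {A : Type u} {R : Type v} [CommRing A] [IsDomain A] [CommRing R] [IsDomain R] [Algebra A R]
variable {L : Type v} [Field L] [Algebra R L] [IsFractionRing R L] [Algebra A L]
  [IsScalarTower A R L]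

/-- `z ∈ R` -/
def InR (R : Type v) {L : Type v} [CommRing R] [Field L] [Algebra R L] (z : L) : Prop :=
  ∃ s : R, z = algebraMap R L s

omit [IsDomain R] [IsFractionRing R L] in
lemma InR.mul {z w : L} (hz : InR R z) (hw : InR R w) : InR R (z * w) := by
  obtain ⟨s, rfl⟩ := hz
  obtain ⟨t, rfl⟩ := hw
  exact ⟨s * t, by rw [map_mul]⟩

omit [IsDomain R] [IsFractionRing R L] in
lemma InR.add {z w : L} (hz : InR R z) (hw : InR R w) : InR R (z + w) := by
  obtain ⟨s, rfl⟩ := hz
  obtain ⟨t, rfl⟩ := hw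
  exact ⟨s + t, by rw [map_add]⟩

omit [IsDomain R] [IsFractionRing R L] in
lemma InR.pow {z : L} (hz : InR R z) (n : ℕ) : InR R (z ^ n) := by
  obtain ⟨s, rfl⟩ := hz
  exact ⟨s ^ n, by rw [map_pow]⟩

omit [IsDomain R] [IsFractionRing R L] in
lemma InR.map (s : R) : InR R (algebraMap R L s) := ⟨s, rfl⟩

omit [IsDomain A] [IsDomain R] [IsFractionRing R L] in
lemma InR.mapA (a : A) : InR R (algebraMap A L a) :=
  ⟨algebraMap A R a, by rw [← IsScalarTower.algebraMap_apply A R L]⟩

omit [IsDomain R] [IsFractionRing R L] in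
lemma InR.sum {κ : Type*} (s : Finset κ) (f : κ → L) (h : ∀ i ∈ s, InR R (f i)) :
    InR R (∑ i ∈ s, f i) := by
  classical
  induction s using Finset.induction_on with
  | empty => exact ⟨0, by simp⟩
  | insert a s ha ih =>
    rw [Finset.sum_insert ha]
    exact (h a (Finset.mem_insert_self _ _)).add (ih fun i hi => h i (Finset.mem_insert_of_mem hi))

omit [IsDomain R] [IsFractionRing R L] in
lemma InR.prod {κ : Type*} (s : Finset κ) (f : κ → L) (h : ∀ i ∈ s, InR R (f i)) :
    InR R (∏ i ∈ s, f i) := by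
  classical
  induction s using Finset.induction_on with
  | empty => exact ⟨1, by simp⟩
  | insert a s ha ih =>
    rw [Finset.prod_insert ha]
    exact (h a (Finset.mem_insert_self _ _)).mul (ih fun i hi => h i (Finset.mem_insert_of_mem hi))

omit [IsDomain A] [IsDomain R] [IsFractionRing R L] in
/-- clearing denominators of a polynomial -/
lemma InR.clear {w : L} {s : A} (hw : InR R (algebraMap A L s * w)) (P : A[X]) {N : ℕ}
    (hN : P.natDegree ≤ N) : InR R (algebraMap A L s ^ N * Cub.evζ w P) := by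
  rw [Cub.evζ, coe_eval₂RingHom, eval₂_eq_sum_range' _ (Nat.lt_succ_of_le hN), Finset.mul_sum]
  apply InR.sum
  intro i hi
  rw [Finset.mem_range] at hi
  obtain ⟨j, hj⟩ := Nat.exists_eq_add_of_le (show i ≤ N by omega)
  have e : algebraMap A L s ^ N * (algebraMap A L (P.coeff i) * w ^ i) =
      algebraMap A L (s ^ j * P.coeff i) * (algebraMap A L s * w) ^ i := by
    rw [hj, map_mul, map_pow]
    ring
  rw [e]
  exact (InR.mapA _).mul (hw.pow i)

/-- `x`, `y` is a regular sequence on `R`. -/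
lemma InR.reg (C' : Cub A R) {x y : A} (hx : Prime x) (hxy : ¬ x ∣ y) {z : L} {m n : ℕ}
    (h1 : InR R (algebraMap A L x ^ m * z)) (h2 : InR R (algebraMap A L y ^ n * z)) : InR R z := by
  obtain ⟨s, hs⟩ := h1
  obtain ⟨t, ht⟩ := h2
  have inj := IsFractionRing.injective R L
  have e : (y ^ n) • s = (x ^ m) • t := by
    apply inj
    rw [Algebra.smul_def, Algebra.smul_def, map_mul, map_mul, ← hs, ← ht,
      ← IsScalarTower.algebraMap_apply A R L, ← IsScalarTower.algebraMap_apply A R L, map_pow,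
      map_pow]
    ring
  obtain ⟨v, hv⟩ := dvd_of_mul_dvd C'.B hx hxy e
  refine ⟨v, ?_⟩
  have hx0 : algebraMap A L x ≠ 0 := by
    rw [IsScalarTower.algebraMap_apply A R L]
    intro h
    have h1 := inj (h.trans (map_zero _).symm)
    exact hx.ne_zero (C'.injAR (h1.trans (map_zero _).symm))
  apply mul_left_cancel₀ (pow_ne_zero m hx0)
  rw [hs, hv, Algebra.smul_def, map_mul, ← IsScalarTower.algebraMap_apply A R L, map_pow]

end

namespace Cub

variable {A : Type u} {R : Type v} [CommRing A] [IsDomain A] [CommRing R] [IsDomain R] [Algebra A R]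
variable (K : Type u) (L : Type v) [Field K] [Algebra A K] [IsFractionRing A K]
  [Field L] [Algebra R L] [IsFractionRing R L] [Algebra K L] [Algebra A L]
  [IsScalarTower A R L] [IsScalarTower A K L]
variable (C' : Cub A R) {p : ℕ} [hp : Fact p.Prime] [CharP R p] [IsIntegrallyClosed R]

include K in
/-- Criterion for a cubic ring to be `ℚ`-Gorenstein. -/
theorem cub_qgor (T : FTr (p ^ 1) A) {θ : L} (hx : Prime C'.a) {y : A} (hy0 : y ≠ 0)
    (hxy : ¬ C'.a ∣ y) (hθ : algebraMap A L C'.a * θ = algebraMap R L (C'.B 1)) {o : ℕ} {ρ : A}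
    (hd : C'.d = y ^ o * ρ) (hρ : IsUnit ρ) {n : ℕ} (hn : 1 ≤ n) {u : L} (hu : u ≠ 0)
    (X1 : ∃ N : ℕ, InR R (algebraMap A L C'.a ^ N * u))
    (X2 : ∃ N : ℕ, InR R (algebraMap A L C'.a ^ N * u⁻¹))
    (Y1 : ∃ N : ℕ, InR R (algebraMap A L y ^ N * (u * θ⁻¹ ^ n)))
    (Y2 : ∃ N : ℕ, InR R (algebraMap A L y ^ N * (u * θ⁻¹ ^ n)⁻¹)) : IsQGorenstein p R := by
  have ha0 : C'.a ≠ 0 := hx.ne_zero
  have inj := IsFractionRing.injective R L
  have hxL : algebraMap A L C'.a ≠ 0 := by
    rw [IsScalarTower.algebraMap_apply A R L]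
    intro h
    have h1 := inj (h.trans (map_zero _).symm)
    exact ha0 (C'.injAR (h1.trans (map_zero _).symm))
  have hyL : algebraMap A L y ≠ 0 := by
    rw [IsScalarTower.algebraMap_apply A R L]
    intro h
    have h1 := inj (h.trans (map_zero _).symm)
    exact hy0 (C'.injAR (h1.trans (map_zero _).symm))
  have hB1 : C'.B 1 ≠ 0 := C'.B.ne_zero 1
  have hθ0 : θ ≠ 0 := by
    rintro rfl
    rw [mul_zero] at hθ
    exact hB1 (inj (by rw [← hθ, map_zero]))
  have hβθ : algebraMap R L (C'.B 2) * θ = - algebraMap A L C'.d := by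
    apply mul_left_cancel₀ hxL
    have h12 := congrArg (algebraMap R L) C'.h12
    simp only [map_add, map_mul, map_neg, ← IsScalarTower.algebraMap_apply A R L] at h12
    rw [← hθ] at h12
    linear_combination h12
  obtain ⟨Nx1, X1⟩ := X1
  obtain ⟨Nx2, X2⟩ := X2
  obtain ⟨Ny1, Y1⟩ := Y1
  obtain ⟨Ny2, Y2⟩ := Y2
  obtain ⟨r, hr⟩ : ∃ r, r = p ^ 1 - 1 := ⟨_, rfl⟩
  -- two elements of the ideal
  have gx : GT (R := R) θ (algebraMap A L C'.a ^ r) r := by
    intro i hi
    obtain ⟨j, hj⟩ := Nat.exists_eq_add_of_le hi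
    refine ⟨C'.B 1 ^ i * algebraMap A R C'.a ^ j, ?_⟩
    rw [hj, map_mul, map_pow, map_pow, ← IsScalarTower.algebraMap_apply A R L, ← hθ]
    ring
  have gy : GT (R := R) θ (algebraMap R L (C'.B 2) ^ r) r := by
    intro i hi
    obtain ⟨j, hj⟩ := Nat.exists_eq_add_of_le hi
    refine ⟨(- algebraMap A R C'.d) ^ i * C'.B 2 ^ j, ?_⟩
    rw [hj, map_mul, map_pow, map_pow, map_neg, ← IsScalarTower.algebraMap_apply A R L, ← hβθ]
    ring
  refine qgor_criterion K L C'.B C'.eps_ne p T n hn (u ^ r) (pow_ne_zero _ hu)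
    ⟨algebraMap A L C'.a ^ r, pow_ne_zero _ hxL, ?_⟩ ?_ ?_
  · rw [← hr]
    exact C'.WW_of_GT K L ha0 hθ gx
  · intro g hg
    have hg' : ∀ i, GT (R := R) θ (g i) r := fun i =>
      C'.GT_of_WW K L ha0 hθ (by rw [hr]; exact hg i)
    change InR R _
    apply InR.reg C' hx hxy (m := Nx1 * r) (n := Ny1 * r)
    · have e : algebraMap A L C'.a ^ (Nx1 * r) * (u ^ r * ∏ i, g i) =
        (algebraMap A L C'.a ^ Nx1 * u) ^ r * ∏ i, g i := by ring
      rw [e]
      apply (X1.pow r).mul
      apply InR.prod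
      intro i _
      have := hg' i 0 (Nat.zero_le _)
      rwa [pow_zero, mul_one] at this
    · have e : algebraMap A L y ^ (Ny1 * r) * (u ^ r * ∏ i, g i) =
        (algebraMap A L y ^ Ny1 * (u * θ⁻¹ ^ n)) ^ r * ∏ i, (g i * θ ^ r) := by
        rw [Finset.prod_mul_distrib, Finset.prod_const, Finset.card_univ, Fintype.card_fin,
          mul_pow, mul_pow, ← pow_mul, ← pow_mul, ← pow_mul, inv_pow, mul_comm n r]
        have : θ ^ (r * n) ≠ 0 := pow_ne_zero _ hθ0
        field_simp
      rw [e]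
      apply (Y1.pow r).mul
      apply InR.prod
      intro i _
      exact hg' i r le_rfl
  · intro h hh
    have h1 : InR R (h * algebraMap A L C'.a ^ (r * n)) := by
      have := hh (fun _ => algebraMap A L C'.a ^ r) (fun _ => by
        rw [← hr]
        exact C'.WW_of_GT K L ha0 hθ gx)
      rwa [Finset.prod_const, Finset.card_univ, Fintype.card_fin, ← pow_mul] at this
    have h2 : InR R (h * algebraMap R L (C'.B 2) ^ (r * n)) := by
      have := hh (fun _ => algebraMap R L (C'.B 2) ^ r) (fun _ => by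
        rw [← hr]
        exact C'.WW_of_GT K L ha0 hθ gy)
      rwa [Finset.prod_const, Finset.card_univ, Fintype.card_fin, ← pow_mul] at this
    have key : InR R (h * (u⁻¹) ^ r) := by
      apply InR.reg C' hx hxy (m := Nx2 * r + r * n) (n := Ny2 * r + o * (r * n))
      · have e : algebraMap A L C'.a ^ (Nx2 * r + r * n) * (h * u⁻¹ ^ r) =
          (algebraMap A L C'.a ^ Nx2 * u⁻¹) ^ r * (h * algebraMap A L C'.a ^ (r * n)) := by ring
        rw [e]
        exact (X2.pow r).mul h1
      · obtain ⟨ρ', hρ'⟩ := hρ.exists_right_inv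
        have e : algebraMap A L y ^ (Ny2 * r + o * (r * n)) * (h * u⁻¹ ^ r) =
          algebraMap A L ((-ρ') ^ (r * n)) * (algebraMap A L y ^ Ny2 * (u * θ⁻¹ ^ n)⁻¹) ^ r *
            (h * algebraMap R L (C'.B 2) ^ (r * n)) := by
          have e1 : algebraMap R L (C'.B 2) = - algebraMap A L C'.d * θ⁻¹ := by
            rw [← hβθ, mul_assoc, mul_inv_cancel₀ hθ0, mul_one]
          have e2 : algebraMap A L ρ * algebraMap A L ρ' = 1 := by rw [← map_mul, hρ', map_one]
          have e3 : algebraMap A L ((-ρ') ^ (r * n)) * (- algebraMap A L C'.d) ^ (r * n) =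
              algebraMap A L y ^ (o * (r * n)) := by
            rw [hd, map_pow, map_neg, ← mul_pow, map_mul, map_pow]
            have : -algebraMap A L ρ' * -(algebraMap A L y ^ o * algebraMap A L ρ) =
                algebraMap A L y ^ o := by
              linear_combination (algebraMap A L y ^ o) * e2
            rw [this, ← pow_mul]
          have e4 : (u * θ⁻¹ ^ n)⁻¹ ^ r = u⁻¹ ^ r * θ ^ (r * n) := by
            rw [mul_inv, mul_pow, inv_pow θ, inv_inv, ← pow_mul, mul_comm n r]
          rw [e1, mul_pow, mul_pow, e4, pow_add, ← e3, inv_pow θ, ← pow_mul]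
          have : θ ^ (r * n) ≠ 0 := pow_ne_zero _ hθ0
          field_simp
        rw [e]
        exact ((InR.mapA _).mul (Y2.pow r)).mul h2
    obtain ⟨s, hs⟩ := key
    refine ⟨s, ?_⟩
    rw [← hs, inv_pow]
    have : u ^ r ≠ 0 := pow_ne_zero _ hu
    field_simp

end Cub

end Run7.h889
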