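import Pool.Agent.Run7.h889.CubQG2

set_option autoImplicit false
set_option linter.unusedSimpArgs false
set_option linter.unusedVariables false
set_option linter.unusedSectionVars false
set_option linter.deprecated false

namespace Run7.h889

open Module nonZeroDivisors Polynomial

universe u v

namespace Cub

variable {A : Type u} {R : Type v} [CommRing A] [IsDomain A] [CommRing R] [IsDomain R] [Algebra A R]
variable (K : Type u) (L : Type v) [Field K] [Algebra A K] [IsFractionRing A K]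
  [Field L] [Algebra R L] [IsFractionRing R L] [Algebra K L] [Algebra A L]
  [IsScalarTower A R L] [IsScalarTower A K L]
variable (C' : Cub A R) {p : ℕ} [hp : Fact p.Prime] [CharP R p] [IsIntegrallyClosed R]

include K in
/-- A cubic ring in normal form with two coprimality conditions is `ℚ`-Gorenstein. -/
theorem nf_qgor (T : FTr (p ^ 1) A) {θ : L} (hx : Prime C'.a) {y : A} (hy0 : y ≠ 0)
    (hxy : ¬ C'.a ∣ y) (hθ : algebraMap A L C'.a * θ = algebraMap R L (C'.B 1)) {o : ℕ} {ρ : A}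
    (hd : C'.d = y ^ o * ρ) (hρ : IsUnit ρ) {b' b'' c' c'' : A}
    (hbe : C'.b = C'.a * b' + y * b'') (hce : C'.c = C'.a * c' + y * c'')
    (BX : ∃ e1 e2 G H : A[X], e1 * (X ^ 2 + C b' * X + C c') ^ o + e2 * G = 1 ∧
      (-(C C'.a * (X ^ 2 + C b' * X + C c'))) ^ o * X = C y ^ o * G + C'.pχ 0 y C'.d * H)
    (BY : ∃ (E1 E2 : A[X]) (ρ2 : A), y * ρ2 = y ^ o * ρ ∧
      E1 * (1 + C b' * X + C c' * X ^ 2) + E2 * (X * (C b'' + C c'' * X + C ρ2 * X ^ 2)) = 1) :
    IsQGorenstein p R := by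
  have ha0 : C'.a ≠ 0 := hx.ne_zero
  have inj := IsFractionRing.injective R L
  obtain ⟨x, hxe⟩ : ∃ x, x = C'.a := ⟨_, rfl⟩
  have hxL : algebraMap A L x ≠ 0 := by
    rw [IsScalarTower.algebraMap_apply A R L]
    intro h
    have h1 := inj (h.trans (map_zero _).symm)
    exact ha0 (hxe ▸ C'.injAR (h1.trans (map_zero _).symm))
  have hyL : algebraMap A L y ≠ 0 := by
    rw [IsScalarTower.algebraMap_apply A R L]
    intro h
    have h1 := inj (h.trans (map_zero _).symm)
    exact hy0 (C'.injAR (h1.trans (map_zero _).symm))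
  have hB1 : C'.B 1 ≠ 0 := C'.B.ne_zero 1
  have hθ0 : θ ≠ 0 := by
    rintro rfl
    rw [mul_zero] at hθ
    exact hB1 (inj (by rw [← hθ, map_zero]))
  have hxy' : C'.a * y ^ 0 ≠ 0 := by rw [pow_zero, mul_one]; exact ha0
  have hθ' : algebraMap A L (C'.a * y ^ 0) * θ = algebraMap R L (C'.B 1) := by
    rw [pow_zero, mul_one]; exact hθ
  have hφ := C'.ev_pχ (ρ := C'.d) hxy' hθ' (by rw [pow_zero, one_mul])
  have hβθ := C'.ev_βζ (ρ := C'.d) hxy' hθ' (by rw [pow_zero, one_mul])
  have hβ := C'.ev_pV hxy' hθ'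
  obtain ⟨q, hq⟩ : ∃ q, q = evζ (A := A) θ (X ^ 2 + C b' * X + C c') := ⟨_, rfl⟩
  have hq' : q = θ ^ 2 + algebraMap A L b' * θ + algebraMap A L c' := by
    rw [hq]
    simp only [map_add, map_mul, map_pow, evζ_C, evζ_X]
  have hβ' : algebraMap R L (C'.B 2) = algebraMap A L x * q +
      algebraMap A L y * (algebraMap A L b'' * θ + algebraMap A L c'') := by
    rw [← hβ, hq', pV, hbe, hce, hxe]
    simp only [map_add, map_mul, map_pow, pow_zero, mul_one, mul_zero, evζ_C, evζ_X, map_one]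
    ring
  obtain ⟨ρ', hρ'⟩ := hρ.exists_right_inv
  have hρρ : algebraMap A L ρ * algebraMap A L ρ' = 1 := by rw [← map_mul, hρ', map_one]
  obtain ⟨β, hβe⟩ : ∃ β, β = algebraMap R L (C'.B 2) := ⟨_, rfl⟩
  rw [← hβe] at hβ' hβθ
  have hdL : algebraMap A L C'.d = algebraMap A L y ^ o * algebraMap A L ρ := by
    rw [hd, map_mul, map_pow]
  rw [hdL] at hβθ
  -- `y ^ o * θ⁻¹ = - β ρ'`
  have hyη : algebraMap A L y ^ o * θ⁻¹ = - (β * algebraMap A L ρ') := by
    apply mul_right_cancel₀ hθ0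
    rw [mul_assoc, inv_mul_cancel₀ hθ0, mul_one]
    linear_combination (-(algebraMap A L y ^ o)) * hρρ + (algebraMap A L ρ') * hβθ
  have hq0 : q ≠ 0 := by
    intro h0
    rw [h0, mul_zero, zero_add] at hβ'
    have h1 : algebraMap R L (C'.el (x * y * c'') (y * b'') (-x)) = 0 := by
      simp only [el, map_add, map_mul, map_neg, ← IsScalarTower.algebraMap_apply A R L]
      rw [← hθ, ← hβe, hβ', ← hxe]
      ring
    have h2 := inj (h1.trans (map_zero _).symm)
    have h3 := (C'.el_eq_zero h2).2.2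
    exact ha0 (hxe ▸ neg_eq_zero.1 h3)
  obtain ⟨u, hu⟩ : ∃ u, u = (-q) ^ o * θ / algebraMap A L y ^ o := ⟨_, rfl⟩
  have hyo : algebraMap A L y ^ o ≠ 0 := pow_ne_zero _ hyL
  have hqo : (-q) ^ o ≠ 0 := pow_ne_zero _ (neg_ne_zero.2 hq0)
  have hu0 : u ≠ 0 := by
    rw [hu]
    exact div_ne_zero (mul_ne_zero hqo hθ0) hyo
  obtain ⟨e1, e2, G, H, hBX, hG⟩ := BX
  obtain ⟨E1, E2, ρ2, hρ2, hBY⟩ := BY
  have hGu : algebraMap A L x ^ o * u = evζ θ G := by
    have h1 := congrArg (evζ θ) hG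
    rw [map_mul, map_pow, map_neg, map_mul, ← hq, evζ_C, evζ_X, map_add, map_mul, map_pow, evζ_C,
      map_mul _ (C'.pχ 0 y C'.d), hφ, zero_mul, add_zero, ← hxe] at h1
    apply mul_left_cancel₀ hyo
    rw [← h1, hu, neg_mul_eq_mul_neg, mul_pow]
    field_simp
  have hXθ : InR R (algebraMap A L x * θ) := ⟨C'.B 1, by rw [hxe]; exact hθ⟩
  have hYη : InR R (algebraMap A L (y ^ o) * θ⁻¹) := by
    rw [map_pow, hyη]
    refine ⟨-(C'.B 2 * algebraMap A R ρ'), ?_⟩
    rw [map_neg, map_mul, ← IsScalarTower.algebraMap_apply A R L, hβe]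
  refine C'.cub_qgor K L T hx hy0 hxy hθ hd hρ (n := 2 * o + 1) (by omega) hu0 ?_ ?_ ?_ ?_
  · refine ⟨G.natDegree + o, ?_⟩
    rw [← hxe, pow_add, mul_assoc, hGu]
    exact InR.clear hXθ G le_rfl
  · obtain ⟨N, hN⟩ : ∃ N, N = max e1.natDegree e2.natDegree := ⟨_, rfl⟩
    refine ⟨N, ?_⟩
    have h1 : u⁻¹ = evζ θ e1 * ((-1) ^ o * -(β * algebraMap A L ρ')) +
        evζ θ e2 * algebraMap A L x ^ o := by
      have h2 := congrArg (evζ θ) hBX
      rw [map_add, map_mul, map_pow, ← hq, map_mul, map_one, ← hGu] at h2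
      apply mul_right_cancel₀ hu0
      rw [inv_mul_cancel₀ hu0, ← hyη]
      have e5 : (-1) ^ o * (-q) ^ o = q ^ o := by rw [← mul_pow]; congr 1; ring
      have hyu : algebraMap A L y ^ o * θ⁻¹ * u = (-q) ^ o := by
        rw [hu]
        field_simp
      linear_combination (-1 : L) * h2 - (evζ θ e1) * e5 - (evζ θ e1 * (-1) ^ o) * hyu
    rw [h1, mul_add, ← hxe]
    have c1 := InR.clear (R := R) hXθ e1 (N := N) (by omega)
    have c2 := InR.clear (R := R) hXθ e2 (N := N) (by omega)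
    have e3 : algebraMap A L x ^ N * (evζ θ e1 * ((-1) ^ o * -(β * algebraMap A L ρ'))) =
        (algebraMap A L x ^ N * evζ θ e1) *
          algebraMap R L ((-1) ^ o * -(C'.B 2 * algebraMap A R ρ')) := by
      simp only [map_mul, map_pow, map_neg, map_one, ← IsScalarTower.algebraMap_apply A R L, hβe]
      ring
    have e4 : algebraMap A L x ^ N * (evζ θ e2 * algebraMap A L x ^ o) =
        (algebraMap A L x ^ N * evζ θ e2) * algebraMap A L (x ^ o) := by
      rw [map_pow]; ring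
    rw [e3, e4]
    exact (c1.mul (InR.map _)).add (c2.mul (InR.mapA _))
  all_goals
    obtain ⟨η, hη⟩ : ∃ η, η = θ⁻¹ := ⟨_, rfl⟩
    have hθη : θ * η = 1 := by rw [hη, mul_inv_cancel₀ hθ0]
    obtain ⟨Q, hQ⟩ : ∃ Q, Q = evζ (A := A) η (1 + C b' * X + C c' * X ^ 2) := ⟨_, rfl⟩
    have hQ' : Q = 1 + algebraMap A L b' * η + algebraMap A L c' * η ^ 2 := by
      rw [hQ]
      simp only [map_add, map_mul, map_pow, evζ_C, evζ_X, map_one]
    have hQq : Q = q * η ^ 2 := by
      rw [hQ', hq']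
      linear_combination (-(θ * η) - 1 - algebraMap A L b' * η) * hθη
    have hη0 : η ≠ 0 := by rw [hη]; exact inv_ne_zero hθ0
    have hQ0 : Q ≠ 0 := by
      rw [hQq]
      exact mul_ne_zero hq0 (pow_ne_zero _ hη0)
    have huη : u * η ^ (2 * o + 1) = (-Q) ^ o / algebraMap A L y ^ o := by
      have e3 : (-(q * η ^ 2)) ^ o = (-q) ^ o * η ^ (2 * o) := by
        rw [neg_mul_eq_neg_mul, mul_pow, ← pow_mul]
      rw [hu, hQq, e3, div_mul_eq_mul_div]
      congr 1
      rw [pow_succ]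
      linear_combination ((-q) ^ o * η ^ (2 * o)) * hθη
    rw [← hη] at hYη
  · refine ⟨o + o * 2 * o, ?_⟩
    rw [← hη, huη]
    have c1 := InR.clear (R := R) hYη (1 + C b' * X + C c' * X ^ 2) (N := 2) (by compute_degree)
    rw [← hQ] at c1
    have e3 : algebraMap A L y ^ (o + o * 2 * o) * ((-Q) ^ o / algebraMap A L y ^ o) =
        algebraMap A L ((-1) ^ o) * (algebraMap A L (y ^ o) ^ 2 * Q) ^ o := by
      have e5 : (-Q) ^ o = (-1) ^ o * Q ^ o := by rw [← mul_pow]; congr 1; ring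
      rw [e5, mul_pow, ← pow_mul, map_pow, map_neg, map_one, map_pow, ← pow_mul, pow_add]
      have e6 : o * (2 * o) = o * 2 * o := by ring
      rw [e6]
      field_simp
    rw [e3]
    exact (InR.mapA _).mul (c1.pow o)
  · obtain ⟨N, hN⟩ : ∃ N, N = max E1.natDegree E2.natDegree := ⟨_, rfl⟩
    refine ⟨o * N * o, ?_⟩
    have hrel : algebraMap A L x * Q = - (algebraMap A L y * (η * (algebraMap A L b'' +
        algebraMap A L c'' * η + algebraMap A L ρ2 * η ^ 2))) := by
      have h3 : algebraMap A L y * algebraMap A L ρ2 = algebraMap A L y ^ o * algebraMap A L ρ := by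
        rw [← map_mul, hρ2, map_mul, map_pow]
      have h4 : β = - (algebraMap A L y ^ o * algebraMap A L ρ) * η := by
        rw [← hβθ, mul_assoc, hθη, mul_one]
      rw [hQq]
      rw [hβ'] at h4
      linear_combination (η ^ 2) * h4 + (η ^ 3) * h3 -
        (algebraMap A L y * algebraMap A L b'' * η) * hθη
    have h5 : algebraMap A L y = Q * (algebraMap A L y * evζ η E1 - algebraMap A L x * evζ η E2) := by
      have h6 := congrArg (evζ η) hBY
      rw [map_add, map_mul, ← hQ, map_mul, map_mul, map_one, evζ_X] at h6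
      have h7 : evζ (A := A) η (C b'' + C c'' * X + C ρ2 * X ^ 2) = algebraMap A L b'' +
          algebraMap A L c'' * η + algebraMap A L ρ2 * η ^ 2 := by
        simp only [map_add, map_mul, map_pow, evζ_C, evζ_X]
      rw [h7] at h6
      linear_combination (-(algebraMap A L y)) * h6 + (evζ η E2) * hrel
    rw [← hη, huη, inv_div]
    have e3 : algebraMap A L y ^ (o * N * o) * (algebraMap A L y ^ o / (-Q) ^ o) =
        algebraMap A L ((-1) ^ o) * (algebraMap A L (y ^ o) ^ N *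
          (algebraMap A L y * evζ η E1 - algebraMap A L x * evζ η E2)) ^ o := by
      obtain ⟨Θ, hΘ⟩ : ∃ Θ, Θ = algebraMap A L y * evζ η E1 - algebraMap A L x * evζ η E2 :=
        ⟨_, rfl⟩
      rw [← hΘ] at h5 ⊢
      have e5 : algebraMap A L y ^ o / (-Q) ^ o = (-1) ^ o * Θ ^ o := by
        rw [div_eq_iff (pow_ne_zero _ (neg_ne_zero.2 hQ0)), h5, ← mul_pow, ← mul_pow]
        congr 1
        ring
      rw [e5, map_pow, map_neg, map_one, mul_pow, map_pow, ← pow_mul, ← pow_mul]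
      ring
    rw [e3]
    apply (InR.mapA _).mul
    apply InR.pow
    rw [mul_sub]
    have c1 := InR.clear (R := R) hYη E1 (N := N) (by omega)
    have c2 := InR.clear (R := R) hYη (-E2) (N := N) (by rw [natDegree_neg]; omega)
    have e7 : algebraMap A L (y ^ o) ^ N * (algebraMap A L y * evζ η E1) -
        algebraMap A L (y ^ o) ^ N * (algebraMap A L x * evζ η E2) =
        algebraMap A L y * (algebraMap A L (y ^ o) ^ N * evζ η E1) +
          algebraMap A L x * (algebraMap A L (y ^ o) ^ N * evζ η (-E2)) := by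
      rw [map_neg]; ring
    rw [e7]
    exact ((InR.mapA _).mul c1).add ((InR.mapA _).mul c2)

end Cub

end Run7.h889
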