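import Pool.Agent.Run7.h889.CubQG3

set_option autoImplicit false
set_option linter.unusedSimpArgs false
set_option linter.unusedVariables false
set_option linter.unusedSectionVars false
set_option linter.deprecated false

namespace Run7.h889

open Module nonZeroDivisors Polynomial

universe u v

section bz

variable {A : Type u} [CommRing A] [IsLocalRing A]

/-- Coprimality can be tested modulo the maximal ideal. -/
lemma bz {f g : A[X]} (hf : f.Monic)
    (h : ∃ e1 e2 : A[X], 1 - e1 * f - e2 * g ∈ Ideal.map C (IsLocalRing.maximalIdeal A)) :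
    ∃ e1 e2 : A[X], e1 * f + e2 * g = 1 := by
  classical
  obtain ⟨a1, a2, ha⟩ := h
  set S := AdjoinRoot f
  have hfin : Module.Finite A S := (AdjoinRoot.powerBasis' hf).finite
  let J : Submodule A S := (Ideal.span {AdjoinRoot.mk f g}).restrictScalars A
  have key : (⊤ : Submodule A S) ≤ J ⊔ (IsLocalRing.maximalIdeal A) • ⊤ := by
    intro s _
    obtain ⟨P, rfl⟩ := AdjoinRoot.mk_surjective s
    have e : P = P * (1 - a1 * f - a2 * g) + P * a2 * g + P * a1 * f := by ring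
    rw [e, map_add, map_add]
    have z1 : AdjoinRoot.mk f (P * a1 * f) = 0 := by
      rw [map_mul, AdjoinRoot.mk_self, mul_zero]
    rw [z1, add_zero, add_comm]
    apply Submodule.add_mem_sup
    · change _ ∈ Ideal.span {AdjoinRoot.mk f g}
      rw [map_mul]
      exact Ideal.mul_mem_left _ _ (Ideal.subset_span rfl)
    · have h1 : P * (1 - a1 * f - a2 * g) ∈ Ideal.map C (IsLocalRing.maximalIdeal A) :=
        Ideal.mul_mem_left _ _ ha
      have h2 : AdjoinRoot.mk f (P * (1 - a1 * f - a2 * g)) ∈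
          Ideal.map (algebraMap A S) (IsLocalRing.maximalIdeal A) := by
        have := Ideal.mem_map_of_mem (AdjoinRoot.mk f) h1
        rw [Ideal.map_map] at this
        exact this
      rw [Ideal.smul_top_eq_map]
      exact h2
  have hJ : (⊤ : Submodule A S) ≤ J := by
    apply Submodule.le_of_le_smul_of_le_jacobson_bot (Module.Finite.fg_top)
      (IsLocalRing.maximalIdeal_le_jacobson ⊥) key
  have h1 : (1 : S) ∈ Ideal.span {AdjoinRoot.mk f g} := hJ (Submodule.mem_top (x := (1 : S)))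
  rw [Ideal.mem_span_singleton'] at h1
  obtain ⟨s, hs⟩ := h1
  obtain ⟨P, rfl⟩ := AdjoinRoot.mk_surjective s
  rw [← map_mul, ← map_one (AdjoinRoot.mk f), AdjoinRoot.mk_eq_mk] at hs
  obtain ⟨Q, hQ⟩ := hs
  exact ⟨-Q, P, by linear_combination hQ⟩

end bz

namespace Cub

variable {A : Type u} {R : Type v} [CommRing A] [IsDomain A] [CommRing R] [IsDomain R] [Algebra A R]
variable (K : Type u) (L : Type v) [Field K] [Algebra A K] [IsFractionRing A K]
  [Field L] [Algebra R L] [IsFractionRing R L] [Algebra K L] [Algebra A L]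
  [IsScalarTower A R L] [IsScalarTower A K L]
variable (C' : Cub A R) {p : ℕ} [hp : Fact p.Prime] [CharP R p] [IsIntegrallyClosed R]

include K in
/-- Case `κ = 0`. -/
theorem k0_qgor (T : FTr (p ^ 1) A) {θ : L} (hx : Prime C'.a) (hy0 : C'.d ≠ 0)
    (hxy : ¬ C'.a ∣ C'.d) (hθ : algebraMap A L C'.a * θ = algebraMap R L (C'.B 1))
    {b' b'' c' c'' : A}
    (hbe : C'.b = C'.a * b' + C'.d * b'') (hce : C'.c = C'.a * c' + C'.d * c'')
    (hD : IsUnit ((1 - b'' * c') ^ 2 - b' * (1 - b'' * c') * (c'' - b'' * b') +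
      c' * (c'' - b'' * b') ^ 2)) : IsQGorenstein p R := by
  obtain ⟨r0, hr0⟩ : ∃ r0, r0 = 1 - b'' * c' := ⟨_, rfl⟩
  obtain ⟨r1, hr1⟩ : ∃ r1, r1 = c'' - b'' * b' := ⟨_, rfl⟩
  rw [← hr0, ← hr1] at hD
  obtain ⟨D, hDe⟩ : ∃ D, D = r0 ^ 2 - b' * r0 * r1 + c' * r1 ^ 2 := ⟨_, rfl⟩
  rw [← hDe] at hD
  obtain ⟨E, hE⟩ := hD.exists_left_inv
  have hEC : (C E : A[X]) * C D = 1 := by rw [← map_mul, hE, map_one]
  have hDC : (C D : A[X]) = C r0 ^ 2 - C b' * C r0 * C r1 + C c' * C r1 ^ 2 := by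
    rw [hDe]; simp only [map_add, map_sub, map_mul, map_pow]
  have h0C : (C r0 : A[X]) = 1 - C b'' * C c' := by
    rw [hr0]; simp only [map_sub, map_mul, map_one]
  have h1C : (C r1 : A[X]) = C c'' - C b'' * C b' := by
    rw [hr1]; simp only [map_sub, map_mul]
  refine C'.nf_qgor K L T hx hy0 hxy hθ (o := 1) (ρ := 1) (by ring) isUnit_one hbe hce ?_ ?_
  · refine ⟨C E * (C r1 ^ 2 + C b'' * (C r1 * X + C b' * C r1 - C r0)),
      - (C E * (C r1 * X + C b' * C r1 - C r0)), C b'' * X ^ 2 + C c'' * X + 1, -1, ?_, ?_⟩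
    · rw [pow_one]
      linear_combination hEC + (-(C E)) * hDC +
        (C E * (C r1 * X + C b' * C r1 - C r0)) * h0C +
        (C E * (C r1 * X + C b' * C r1 - C r0) * X) * h1C
    · rw [pow_one, pow_one, pχ, pV, hbe, hce]
      simp only [map_add, map_mul, map_pow, pow_zero, mul_one, mul_zero, map_one]
      ring
  · obtain ⟨M, hM⟩ : ∃ M : A[X], M = C c' * C r0 * X + C b' * C r0 - C c' * C r1 := ⟨_, rfl⟩
    obtain ⟨w, hw⟩ : ∃ w : A[X], w = C b' + C c' * X := ⟨_, rfl⟩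
    obtain ⟨Q1, hQ1⟩ : ∃ Q1 : A[X], Q1 = 1 + C b' * X + C c' * X ^ 2 := ⟨_, rfl⟩
    refine ⟨C E * (C D * (Q1 - 2 * X * w) + C r0 ^ 2 * X ^ 2 * w ^ 2 + C b'' * X * M * w ^ 2),
      - (C E * M * w ^ 2), 1, by ring, ?_⟩
    have e1 : C D = C r0 ^ 2 * Q1 - (C r0 * X + C r1) * M := by
      rw [hDC, hQ1, hM]; ring
    have e2 : (C b'' + C c'' * X + C 1 * X ^ 2 : A[X]) = C b'' * Q1 + X * (C r1 + C r0 * X) := by
      rw [h0C, h1C, hQ1, map_one]; ring
    have e3 : (1 : A[X]) = Q1 - X * w := by rw [hQ1, hw]; ring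
    rw [← hQ1, e2]
    have e4 : (1 : A[X]) = Q1 * (Q1 - 2 * X * w) + X ^ 2 * w ^ 2 := by
      linear_combination (1 + (Q1 - X * w)) * e3
    linear_combination hEC - (C E * C D) * e4 - (C E * X ^ 2 * w ^ 2) * e1

include K in
/-- Case `κ = 1`. -/
theorem k1_qgor [IsLocalRing A] (T : FTr (p ^ 1) A) {θ : L} (hx : Prime C'.a) {y : A} (hy0 : y ≠ 0)
    (hxm : C'.a ∈ IsLocalRing.maximalIdeal A) (hym : y ∈ IsLocalRing.maximalIdeal A)
    (hxy : ¬ C'.a ∣ y) (hθ : algebraMap A L C'.a * θ = algebraMap R L (C'.B 1)) {o : ℕ} {ρ : A}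
    (ho : 2 ≤ o) (hd : C'.d = y ^ o * ρ) (hρ : IsUnit ρ) {b' b'' c' c'' : A}
    (hbe : C'.b = C'.a * b' + y * b'') (hce : C'.c = C'.a * c' + y * c'') (hc' : IsUnit c')
    (hD : IsUnit (c'' ^ 2 - b' * b'' * c'' + c' * b'' ^ 2)) : IsQGorenstein p R := by
  obtain ⟨D, hDe⟩ : ∃ D, D = c'' ^ 2 - b' * b'' * c'' + c' * b'' ^ 2 := ⟨_, rfl⟩
  rw [← hDe] at hD
  obtain ⟨g, hg⟩ := hc'.exists_left_inv
  have hgC : (C g : A[X]) * C c' = 1 := by rw [← map_mul, hg, map_one]
  have hDC : (C D : A[X]) = C c'' ^ 2 - C b' * C b'' * C c'' + C c' * C b'' ^ 2 := by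
    rw [hDe]; simp only [map_add, map_sub, map_mul, map_pow]
  obtain ⟨o', ho'⟩ : ∃ o', o = o' + 1 := ⟨o - 1, by omega⟩
  refine C'.nf_qgor K L T hx hy0 hxy hθ (o := o) (ρ := ρ) hd hρ hbe hce ?_ ?_
  · obtain ⟨E, hE⟩ := hD.exists_left_inv
    have hEC : (C E : A[X]) * C D = 1 := by rw [← map_mul, hE, map_one]
    obtain ⟨q1, hq1⟩ : ∃ q1 : A[X], q1 = X ^ 2 + C b' * X + C c' := ⟨_, rfl⟩
    obtain ⟨q2, hq2⟩ : ∃ q2 : A[X], q2 = C b'' * X + C c'' := ⟨_, rfl⟩
    have hmon : q1.Monic := by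
      rw [hq1, add_assoc]
      apply Polynomial.monic_X_pow_add
      refine lt_of_le_of_lt (degree_linear_le) ?_
      norm_num
    have cop1 : IsCoprime q1 q2 := by
      refine ⟨C E * C b'' ^ 2, C E * (C c'' - C b' * C b'' - C b'' * X), ?_⟩
      rw [hq1, hq2]
      linear_combination hEC - (C E) * hDC
    have cop2 : IsCoprime q1 X := by
      refine ⟨C g, -(C g * (X + C b')), ?_⟩
      rw [hq1]
      linear_combination hgC
    have cop : IsCoprime (q1 ^ o) (q2 ^ o * X) :=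
      (IsCoprime.mul_right (cop1.pow_right) cop2).pow_left
    obtain ⟨f1, f2, hf⟩ := cop
    -- the polynomial `S`
    obtain ⟨S, hS⟩ : ∃ S : A[X], S = ∑ i ∈ Finset.range o,
        (-(C C'.a * q1)) ^ i * (C y * q2) ^ (o - 1 - i) := ⟨_, rfl⟩
    have hS1 : (-(C C'.a * q1)) ^ o - (C y * q2) ^ o = (-(C C'.a * q1) - C y * q2) * S := by
      have h0 := (Commute.all (-(C C'.a * q1)) (C y * q2)).geom_sum₂_mul o
      rw [hS]
      linear_combination -h0
    have hSm : S ∈ Ideal.map C (IsLocalRing.maximalIdeal A) := by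
      rw [hS]
      apply Ideal.sum_mem
      intro i hi
      rw [Finset.mem_range] at hi
      have m1 : -(C C'.a * q1) ∈ Ideal.map C (IsLocalRing.maximalIdeal A) :=
        neg_mem (Ideal.mul_mem_right _ _ (Ideal.mem_map_of_mem _ hxm))
      have m2 : C y * q2 ∈ Ideal.map C (IsLocalRing.maximalIdeal A) :=
        Ideal.mul_mem_right _ _ (Ideal.mem_map_of_mem _ hym)
      rcases Nat.eq_zero_or_pos i with rfl | hi0
      · apply Ideal.mul_mem_left
        exact Ideal.pow_mem_of_mem _ m2 _ (by omega)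
      · apply Ideal.mul_mem_right
        exact Ideal.pow_mem_of_mem _ m1 _ hi0
    obtain ⟨e1, e2, he⟩ := bz (f := q1 ^ o) (g := q2 ^ o * X + C ρ * S) (hmon.pow o)
      ⟨f1, f2, by
        have : 1 - f1 * q1 ^ o - f2 * (q2 ^ o * X + C ρ * S) = -(f2 * C ρ * S) := by
          linear_combination -hf
        rw [this]
        exact neg_mem (Ideal.mul_mem_left _ _ hSm)⟩
    refine ⟨e1, e2, q2 ^ o * X + C ρ * S, -S, ?_, ?_⟩
    · rw [← hq1]
      exact he
    · rw [← hq1]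
      have h3 : C'.pχ 0 y C'.d = X * (C C'.a * q1 + C y * q2) + C y ^ o * C ρ := by
        rw [pχ, pV, hbe, hce, hd, hq1, hq2]
        simp only [map_add, map_mul, map_pow, pow_zero, mul_one, mul_zero, map_one]
        ring
      rw [h3]
      linear_combination X * hS1 + X * (mul_pow (C y) q2 o)
  · -- the linear polynomial
    obtain ⟨k, hk⟩ : ∃ k, k = y ^ o' * ρ * g := ⟨_, rfl⟩
    obtain ⟨v', hv'⟩ : ∃ v', v' = b'' - k := ⟨_, rfl⟩
    obtain ⟨u', hu'⟩ : ∃ u', u' = c'' - k * b' := ⟨_, rfl⟩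
    obtain ⟨D', hD'⟩ : ∃ D', D' = u' ^ 2 - b' * u' * v' + c' * v' ^ 2 := ⟨_, rfl⟩
    have hkm : k ∈ IsLocalRing.maximalIdeal A := by
      rw [hk]
      apply Ideal.mul_mem_right
      apply Ideal.mul_mem_right
      exact Ideal.pow_mem_of_mem _ hym _ (by omega)
    have hDu : IsUnit D' := by
      have e : D = D' + k * (b' * (2 * c'' - k * b') - b' * (c'' + b' * (b'' - k)) +
          c' * (2 * b'' - k)) := by
        rw [hDe, hD', hu', hv']; ring
      by_contra hn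
      have h1 : D' ∈ IsLocalRing.maximalIdeal A := (IsLocalRing.mem_maximalIdeal _).2 hn
      have h2 : D ∈ IsLocalRing.maximalIdeal A := by
        rw [e]
        exact Ideal.add_mem _ h1 (Ideal.mul_mem_right _ _ hkm)
      exact (IsLocalRing.mem_maximalIdeal _).1 h2 hD
    obtain ⟨E, hE⟩ := hDu.exists_left_inv
    have hEC : (C E : A[X]) * C D' = 1 := by rw [← map_mul, hE, map_one]
    have hDC' : (C D' : A[X]) = C u' ^ 2 - C b' * C u' * C v' + C c' * C v' ^ 2 := by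
      rw [hD']; simp only [map_add, map_sub, map_mul, map_pow]
    have hvC : (C v' : A[X]) = C b'' - C k := by rw [hv', map_sub]
    have huC : (C u' : A[X]) = C c'' - C k * C b' := by rw [hu', map_sub, map_mul]
    have hkC : (C k : A[X]) * C c' = C (y ^ o' * ρ) := by
      rw [← map_mul, hk, mul_assoc, hg, mul_one]
    obtain ⟨M, hM⟩ : ∃ M : A[X], M = C c' * C u' * X + C b' * C u' - C c' * C v' := ⟨_, rfl⟩
    obtain ⟨w, hw⟩ : ∃ w : A[X], w = C b' + C c' * X := ⟨_, rfl⟩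
    obtain ⟨Q1, hQ1⟩ : ∃ Q1 : A[X], Q1 = 1 + C b' * X + C c' * X ^ 2 := ⟨_, rfl⟩
    refine ⟨C E * (C D' - X * w * (C u' ^ 2 + C k * M)), C E * (w * M), y ^ o' * ρ, ?_, ?_⟩
    · rw [ho']; ring
    · have e1 : C D' = C u' ^ 2 * Q1 - (C u' * X + C v') * M := by
        rw [hDC', hQ1, hM]; ring
      have e2 : (C b'' + C c'' * X + C (y ^ o' * ρ) * X ^ 2 : A[X]) =
          C k * Q1 + (C u' * X + C v') := by
        rw [huC, hvC, hQ1, ← hkC]; ring
      have e3 : (1 : A[X]) = Q1 - X * w := by rw [hQ1, hw]; ring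
      rw [← hQ1, e2]
      linear_combination hEC - (C E * C D') * e3 + (C E * X * w) * e1

end Cub

end Run7.h889
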