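import Pool.Agent.Run7.h889.DualM

set_option autoImplicit false
set_option linter.unusedSimpArgs false
set_option linter.unusedVariables false
set_option linter.unusedSectionVars false
set_option linter.deprecated false

namespace Run7.h889

open Module nonZeroDivisors

universe u v

/-- A cubic algebra: the ring attached to the binary cubic form `(a, b, c, d)`. -/
structure Cub (A : Type u) (R : Type v) [CommRing A] [CommRing R] [Algebra A R] where
  B : Basis (Fin 3) A R
  a : A
  b : A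
  c : A
  d : A
  B0 : B 0 = 1
  h11 : B 1 * B 1 = algebraMap A R (-(a * c)) + algebraMap A R (-b) * B 1 + algebraMap A R a * B 2
  h12 : B 1 * B 2 = algebraMap A R (-(a * d))
  h22 : B 2 * B 2 = algebraMap A R (-(b * d)) + algebraMap A R (-d) * B 1 + algebraMap A R c * B 2

namespace Cub

variable {A : Type u} {R : Type v} [CommRing A] [CommRing R] [Algebra A R] (C : Cub A R)

/-- an element from its coordinates -/
noncomputable def el (z0 z1 z2 : A) : R :=
  algebraMap A R z0 + algebraMap A R z1 * C.B 1 + algebraMap A R z2 * C.B 2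

lemma eq_el (z : R) : z = C.el (C.B.repr z 0) (C.B.repr z 1) (C.B.repr z 2) := by
  conv_lhs => rw [← C.B.sum_repr z, Fin.sum_univ_three]
  rw [el, Algebra.smul_def, Algebra.smul_def, Algebra.smul_def, C.B0, mul_one]

lemma repr_el (z0 z1 z2 : A) :
    C.B.repr (C.el z0 z1 z2) = Finsupp.single 0 z0 + Finsupp.single 1 z1 + Finsupp.single 2 z2 := by
  rw [el, ← Algebra.smul_def, ← Algebra.smul_def, Algebra.algebraMap_eq_smul_one, ← C.B0,
    map_add, map_add, map_smul, map_smul, map_smul, Basis.repr_self, Basis.repr_self,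
    Basis.repr_self]
  simp

lemma repr_el0 (z0 z1 z2 : A) : C.B.repr (C.el z0 z1 z2) 0 = z0 := by
  rw [repr_el]; simp [Finsupp.single_apply]

lemma repr_el1 (z0 z1 z2 : A) : C.B.repr (C.el z0 z1 z2) 1 = z1 := by
  rw [repr_el]; simp [Finsupp.single_apply]

lemma repr_el2 (z0 z1 z2 : A) : C.B.repr (C.el z0 z1 z2) 2 = z2 := by
  rw [repr_el]; simp [Finsupp.single_apply]

lemma el_mul (z0 z1 z2 w0 w1 w2 : A) : C.el z0 z1 z2 * C.el w0 w1 w2 =
    C.el (z0 * w0 - C.a * C.c * z1 * w1 - C.a * C.d * (z1 * w2 + z2 * w1) - C.b * C.d * z2 * w2)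
      (z0 * w1 + z1 * w0 - C.b * z1 * w1 - C.d * z2 * w2)
      (z0 * w2 + z2 * w0 + C.a * z1 * w1 + C.c * z2 * w2) := by
  have h1 := C.h11
  have h2 := C.h12
  have h3 := C.h22
  simp only [el, map_add, map_sub, map_mul, map_neg] at h1 h2 h3 ⊢
  linear_combination (algebraMap A R z1 * algebraMap A R w1) * h1 +
    (algebraMap A R z1 * algebraMap A R w2 + algebraMap A R z2 * algebraMap A R w1) * h2 +
    (algebraMap A R z2 * algebraMap A R w2) * h3

/-- explicit norm -/
def nm (z0 z1 z2 : A) : A :=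
  z0 * ((z0 - C.b * z1) * (z0 + C.c * z2) + C.a * C.d * z1 * z2) +
    (-(C.a * C.c) * z1 - C.a * C.d * z2) * (-(z1 * (z0 + C.c * z2) + C.d * z2 * z2)) +
    (-(C.a * C.d) * z1 - C.b * C.d * z2) * (C.a * z1 * z1 - z0 * z2 + C.b * z1 * z2)

/-- explicit adjugate -/
noncomputable def sh (z0 z1 z2 : A) : R :=
  C.el ((z0 - C.b * z1) * (z0 + C.c * z2) + C.a * C.d * z1 * z2)
    (-(z1 * (z0 + C.c * z2) + C.d * z2 * z2)) (C.a * z1 * z1 - z0 * z2 + C.b * z1 * z2)

lemma mul_sh (z0 z1 z2 : A) : C.el z0 z1 z2 * C.sh z0 z1 z2 = algebraMap A R (C.nm z0 z1 z2) := by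
  rw [sh, el_mul]
  have : algebraMap A R (C.nm z0 z1 z2) = C.el (C.nm z0 z1 z2) 0 0 := by
    simp [el]
  rw [this]
  congr 1
  · rw [nm]; ring
  · ring
  · ring

lemma norm_el (z0 z1 z2 : A) : Algebra.norm A (C.el z0 z1 z2) = C.nm z0 z1 z2 := by
  classical
  rw [Algebra.norm_eq_matrix_det C.B, Matrix.det_fin_three]
  simp only [Algebra.leftMulMatrix_eq_repr_mul]
  have e0 : C.B 0 = C.el 1 0 0 := by rw [C.B0]; simp [el]
  have e1 : C.B 1 = C.el 0 1 0 := by simp [el]
  have e2 : C.B 2 = C.el 0 0 1 := by simp [el]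
  rw [e0, e1, e2, el_mul, el_mul, el_mul]
  simp only [repr_el0, repr_el1, repr_el2]
  rw [nm]
  ring

/-- The cubic form. -/
def ph (l : A) : A := C.a * l ^ 3 + C.b * l ^ 2 + C.c * l + C.d

/-- derivative of the cubic form -/
def ph' (l : A) : A := 3 * C.a * l ^ 2 + 2 * C.b * l + C.c

lemma norm_w (l : A) : Algebra.norm A (C.el (-(C.a * l)) 1 0) = -(C.a ^ 2 * C.ph l) := by
  rw [norm_el, nm, ph]
  ring

end Cub

section basis3

variable {A : Type u} {R : Type v} [CommRing A] [CommRing R] [Algebra A R]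

/-- A new basis `1, y, z` from an old one -/
lemma exists_basis3 (B : Basis (Fin 3) A R) (v : Fin 3 → R)
    (hli : ∀ c : Fin 3 → A, c 0 • v 0 + c 1 • v 1 + c 2 • v 2 = 0 → ∀ i, c i = 0)
    (hsp : ∀ i, B i ∈ Submodule.span A (Set.range v)) :
    ∃ B' : Basis (Fin 3) A R, ∀ i, B' i = v i := by
  have h1 : LinearIndependent A v := by
    rw [Fintype.linearIndependent_iff]
    intro g hg i
    rw [Fin.sum_univ_three] at hg
    exact hli g hg i
  have h2 : ⊤ ≤ Submodule.span A (Set.range v) := by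
    rw [← B.span_eq, Submodule.span_le]
    rintro _ ⟨i, rfl⟩
    exact hsp i
  exact ⟨Basis.mk h1 h2, fun i => Basis.mk_apply h1 h2 i⟩

end basis3

namespace Cub

variable {A : Type u} {R : Type v} [CommRing A] [CommRing R] [Algebra A R] (C : Cub A R)

lemma el_eq_zero {z0 z1 z2 : A} (h : C.el z0 z1 z2 = 0) : z0 = 0 ∧ z1 = 0 ∧ z2 = 0 := by
  have h0 := C.repr_el0 z0 z1 z2
  have h1 := C.repr_el1 z0 z1 z2
  have h2 := C.repr_el2 z0 z1 z2
  rw [h, map_zero C.B.repr, Finsupp.zero_apply] at h0 h1 h2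
  exact ⟨h0.symm, h1.symm, h2.symm⟩

/-- Translation. -/
lemma exists_trans (l : A) : ∃ C' : Cub A R, C'.a = C.a ∧ C'.b = C.b + 3 * C.a * l ∧
    C'.c = C.ph' l ∧ C'.d = C.ph l ∧ C'.B 1 = C.el (-(C.a * l)) 1 0 ∧
    C'.B 2 = C.el (C.b * l + C.a * l ^ 2) l 1 := by
  have e0 : (1 : R) = C.el 1 0 0 := by simp [el]
  have e1 : C.B 1 = C.el 0 1 0 := by simp [el]
  have e2 : C.B 2 = C.el 0 0 1 := by simp [el]
  obtain ⟨B', hB'⟩ := exists_basis3 C.B ![1, C.el (-(C.a * l)) 1 0,
      C.el (C.b * l + C.a * l ^ 2) l 1] (by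
    intro c hc
    simp only [Matrix.cons_val_zero, Matrix.cons_val_one, Matrix.cons_val_two, Matrix.head_cons,
      Matrix.tail_cons, Algebra.smul_def, Matrix.cons_val] at hc
    have h : C.el (c 0 + c 1 * (-(C.a * l)) + c 2 * (C.b * l + C.a * l ^ 2))
        (c 1 + c 2 * l) (c 2) = 0 := by
      rw [← hc]
      simp only [el, map_add, map_mul, map_neg, map_one, map_zero, map_pow]
      ring
    obtain ⟨h0, h1, h2⟩ := C.el_eq_zero h
    rw [h2, zero_mul, add_zero] at h1
    rw [h2, h1, zero_mul, zero_mul, add_zero, add_zero] at h0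
    intro i
    fin_cases i
    · exact h0
    · exact h1
    · exact h2) (by
    have m0 : (1 : R) ∈ Submodule.span A (Set.range ![(1 : R), C.el (-(C.a * l)) 1 0,
      C.el (C.b * l + C.a * l ^ 2) l 1]) := Submodule.subset_span ⟨0, rfl⟩
    have m1 : C.el (-(C.a * l)) 1 0 ∈ Submodule.span A (Set.range ![(1 : R), C.el (-(C.a * l)) 1 0,
      C.el (C.b * l + C.a * l ^ 2) l 1]) := Submodule.subset_span ⟨1, rfl⟩
    have m2 : C.el (C.b * l + C.a * l ^ 2) l 1 ∈ Submodule.span A (Set.range ![(1 : R),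
      C.el (-(C.a * l)) 1 0, C.el (C.b * l + C.a * l ^ 2) l 1]) := Submodule.subset_span ⟨2, rfl⟩
    have n1 : C.B 1 ∈ Submodule.span A (Set.range ![(1 : R), C.el (-(C.a * l)) 1 0,
      C.el (C.b * l + C.a * l ^ 2) l 1]) := by
      have : C.B 1 = C.el (-(C.a * l)) 1 0 + (C.a * l) • (1 : R) := by
        rw [el, Algebra.smul_def]
        simp only [map_neg, map_one, map_zero]
        ring
      rw [this]
      exact Submodule.add_mem _ m1 (Submodule.smul_mem _ _ m0)
    intro i
    fin_cases i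
    · change C.B 0 ∈ _
      rw [C.B0]
      exact m0
    · exact n1
    · change C.B 2 ∈ _
      have : C.B 2 = C.el (C.b * l + C.a * l ^ 2) l 1 - (C.b * l + C.a * l ^ 2) • (1 : R) -
          l • C.B 1 := by
        rw [el, Algebra.smul_def, Algebra.smul_def]
        simp only [map_neg, map_one, map_zero]
        ring
      rw [this]
      exact Submodule.sub_mem _ (Submodule.sub_mem _ m2 (Submodule.smul_mem _ _ m0))
        (Submodule.smul_mem _ _ n1))
  have b0 : B' 0 = 1 := hB' 0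
  have b1 : B' 1 = C.el (-(C.a * l)) 1 0 := hB' 1
  have b2 : B' 2 = C.el (C.b * l + C.a * l ^ 2) l 1 := hB' 2
  refine ⟨{ B := B', a := C.a, b := C.b + 3 * C.a * l, c := C.ph' l, d := C.ph l, B0 := b0,
            h11 := ?_, h12 := ?_, h22 := ?_ }, rfl, rfl, rfl, rfl, b1, b2⟩
  · rw [b1, b2, el_mul]
    have h1 := C.h11
    simp only [el, ph', ph, map_add, map_sub, map_mul, map_neg, map_one, map_zero, map_pow,
      map_ofNat] at h1 ⊢
    ring
  · rw [b1, b2, el_mul]
    simp only [el, ph', ph, map_add, map_sub, map_mul, map_neg, map_one, map_zero, map_pow,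
      map_ofNat]
    ring
  · rw [b1, b2, el_mul]
    simp only [el, ph', ph, map_add, map_sub, map_mul, map_neg, map_one, map_zero, map_pow,
      map_ofNat]
    ring

/-- The swap. -/
lemma exists_swap : ∃ C' : Cub A R, C'.a = C.d ∧ C'.b = C.c ∧
    C'.c = C.b ∧ C'.d = C.a ∧ C'.B 1 = - C.B 2 ∧ C'.B 2 = - C.B 1 := by
  obtain ⟨B', hB'⟩ := exists_basis3 C.B ![1, - C.B 2, - C.B 1] (by
    intro c hc
    simp only [Matrix.cons_val_zero, Matrix.cons_val_one, Matrix.cons_val_two, Matrix.head_cons,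
      Matrix.tail_cons, Algebra.smul_def, Matrix.cons_val] at hc
    have h : C.el (c 0) (- c 2) (- c 1) = 0 := by
      rw [← hc]
      simp only [el, map_add, map_mul, map_neg, map_one, map_zero, map_pow]
      ring
    obtain ⟨h0, h1, h2⟩ := C.el_eq_zero h
    intro i
    fin_cases i
    · exact h0
    · exact neg_eq_zero.1 h2
    · exact neg_eq_zero.1 h1) (by
    have m0 : (1 : R) ∈ Submodule.span A (Set.range ![(1 : R), - C.B 2, - C.B 1]) :=
      Submodule.subset_span ⟨0, rfl⟩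
    have m1 : - C.B 2 ∈ Submodule.span A (Set.range ![(1 : R), - C.B 2, - C.B 1]) :=
      Submodule.subset_span ⟨1, rfl⟩
    have m2 : - C.B 1 ∈ Submodule.span A (Set.range ![(1 : R), - C.B 2, - C.B 1]) :=
      Submodule.subset_span ⟨2, rfl⟩
    intro i
    fin_cases i
    · change C.B 0 ∈ _
      rw [C.B0]
      exact m0
    · change C.B 1 ∈ _
      have := Submodule.neg_mem _ m2
      rwa [neg_neg] at this
    · change C.B 2 ∈ _
      have := Submodule.neg_mem _ m1
      rwa [neg_neg] at this)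
  have b0 : B' 0 = 1 := hB' 0
  have b1 : B' 1 = - C.B 2 := hB' 1
  have b2 : B' 2 = - C.B 1 := hB' 2
  refine ⟨{ B := B', a := C.d, b := C.c, c := C.b, d := C.a, B0 := b0,
            h11 := ?_, h12 := ?_, h22 := ?_ }, rfl, rfl, rfl, rfl, b1, b2⟩
  · rw [b1, b2]
    have h1 := C.h22
    simp only [map_mul, map_neg] at h1 ⊢
    linear_combination h1
  · rw [b1, b2]
    have h1 := C.h12
    simp only [map_mul, map_neg] at h1 ⊢
    linear_combination h1
  · rw [b1, b2]
    have h1 := C.h11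
    simp only [map_mul, map_neg] at h1 ⊢
    linear_combination h1

end Cub

end Run7.h889
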