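import Pool.Agent.Run7.h889.Cubic

set_option autoImplicit false
set_option linter.unusedSimpArgs false
set_option linter.unusedVariables false
set_option linter.unusedSectionVars false
set_option linter.deprecated false

namespace Run7.h889

open Module nonZeroDivisors

universe u v

section exists_cub

variable {A : Type u} {R : Type v} [CommRing A] [CommRing R] [Algebra A R]

/-- Delone–Faddeev normal form. -/
lemma exists_cub (B : Basis (Fin 3) A R) (hB0 : B 0 = 1) (u0 u1 u2 l0 l1 l2 m0 m1 m2 : A)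
    (h12 : B 1 * B 2 = algebraMap A R u0 + algebraMap A R u1 * B 1 + algebraMap A R u2 * B 2)
    (h11 : B 1 * B 1 = algebraMap A R l0 + algebraMap A R l1 * B 1 + algebraMap A R l2 * B 2)
    (h22 : B 2 * B 2 = algebraMap A R m0 + algebraMap A R m1 * B 1 + algebraMap A R m2 * B 2) :
    ∃ C : Cub A R, C.a = l2 ∧ C.b = 2 * u2 - l1 ∧ C.c = m2 - 2 * u1 ∧ C.d = -m1 ∧
      C.B 1 = B 1 - algebraMap A R u2 ∧ C.B 2 = B 2 - algebraMap A R u1 := by
  obtain ⟨B', hB'⟩ := exists_basis3 B ![1, B 1 - algebraMap A R u2, B 2 - algebraMap A R u1] (by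
    intro c hc
    simp only [Matrix.cons_val_zero, Matrix.cons_val_one, Matrix.cons_val_two, Matrix.head_cons,
      Matrix.tail_cons, Algebra.smul_def, Matrix.cons_val] at hc
    have h : (c 0 - c 1 * u2 - c 2 * u1) • B 0 + c 1 • B 1 + c 2 • B 2 = 0 := by
      rw [← hc, hB0]
      simp only [Algebra.smul_def, map_sub, map_mul]
      ring
    have hli := Fintype.linearIndependent_iff.1 B.linearIndependent
      ![c 0 - c 1 * u2 - c 2 * u1, c 1, c 2] (by
        rw [Fin.sum_univ_three]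
        exact h)
    have h0 : c 0 - c 1 * u2 - c 2 * u1 = 0 := hli 0
    have h1 : c 1 = 0 := hli 1
    have h2 : c 2 = 0 := hli 2
    rw [h1, h2, zero_mul, zero_mul, sub_zero, sub_zero] at h0
    intro i
    fin_cases i
    · exact h0
    · exact h1
    · exact h2) (by
    have m0 : (1 : R) ∈ Submodule.span A (Set.range ![(1 : R), B 1 - algebraMap A R u2,
      B 2 - algebraMap A R u1]) := Submodule.subset_span ⟨0, rfl⟩
    have m1 : B 1 - algebraMap A R u2 ∈ Submodule.span A (Set.range ![(1 : R),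
      B 1 - algebraMap A R u2, B 2 - algebraMap A R u1]) := Submodule.subset_span ⟨1, rfl⟩
    have m2 : B 2 - algebraMap A R u1 ∈ Submodule.span A (Set.range ![(1 : R),
      B 1 - algebraMap A R u2, B 2 - algebraMap A R u1]) := Submodule.subset_span ⟨2, rfl⟩
    intro i
    fin_cases i
    · change B 0 ∈ _
      rw [hB0]
      exact m0
    · change B 1 ∈ _
      have h := Submodule.add_mem _ m1 (Submodule.smul_mem _ u2 m0)
      have e : (B 1 - algebraMap A R u2) + u2 • (1 : R) = B 1 := by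
        rw [Algebra.smul_def]; ring
      rwa [e] at h
    · change B 2 ∈ _
      have h := Submodule.add_mem _ m2 (Submodule.smul_mem _ u1 m0)
      have e : (B 2 - algebraMap A R u1) + u1 • (1 : R) = B 2 := by
        rw [Algebra.smul_def]; ring
      rwa [e] at h)
  have b0 : B' 0 = 1 := hB' 0
  have b1 : B' 1 = B 1 - algebraMap A R u2 := hB' 1
  have b2 : B' 2 = B 2 - algebraMap A R u1 := hB' 2
  have b1' : B 1 = B' 1 + algebraMap A R u2 := by rw [b1]; ring
  have b2' : B 2 = B' 2 + algebraMap A R u1 := by rw [b2]; ring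
  -- products in the new basis
  set x := B' 1 with hx
  set y := B' 2 with hy
  rw [b1', b2'] at h12 h11 h22
  obtain ⟨e0, he0⟩ : ∃ e0, e0 = u0 + u1 * u2 := ⟨_, rfl⟩
  obtain ⟨k0, hk0⟩ : ∃ k0, k0 = l0 + l1 * u2 + l2 * u1 - u2 * u2 := ⟨_, rfl⟩
  obtain ⟨n0, hn0⟩ : ∃ n0, n0 = m0 + m1 * u2 + m2 * u1 - u1 * u1 := ⟨_, rfl⟩
  have p12 : x * y = algebraMap A R e0 := by
    rw [he0]
    simp only [map_add, map_mul]
    linear_combination h12
  have p11 : x * x = algebraMap A R k0 + algebraMap A R (l1 - 2 * u2) * x +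
      algebraMap A R l2 * y := by
    rw [hk0]
    simp only [map_add, map_mul, map_sub, map_ofNat] at h11 ⊢
    linear_combination h11
  have p22 : y * y = algebraMap A R n0 + algebraMap A R m1 * x +
      algebraMap A R (m2 - 2 * u1) * y := by
    rw [hn0]
    simp only [map_add, map_mul, map_sub, map_ofNat] at h22 ⊢
    linear_combination h22
  have li : ∀ c0 c1 c2 : A, algebraMap A R c0 + algebraMap A R c1 * x + algebraMap A R c2 * y = 0 →
      c0 = 0 ∧ c1 = 0 ∧ c2 = 0 := by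
    intro c0 c1 c2 h
    have hli := Fintype.linearIndependent_iff.1 B'.linearIndependent
      ![c0, c1, c2] (by
        rw [Fin.sum_univ_three]
        change c0 • B' 0 + c1 • B' 1 + c2 • B' 2 = 0
        rw [b0, Algebra.smul_def, Algebra.smul_def, Algebra.smul_def, mul_one]
        exact h)
    exact ⟨hli 0, hli 1, hli 2⟩
  have s1 := li ((l1 - 2 * u2) * e0 + l2 * n0) (-e0 + l2 * m1) (k0 + l2 * (m2 - 2 * u1)) (by
    simp only [map_add, map_mul, map_sub, map_neg, map_ofNat] at p11 p22 p12 ⊢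
    linear_combination (-y) * p11 + (x - (algebraMap A R l1 - 2 * algebraMap A R u2)) * p12 -
      (algebraMap A R l2) * p22)
  have s2 := li (m1 * k0 + (m2 - 2 * u1) * e0) (n0 + m1 * (l1 - 2 * u2)) (-e0 + m1 * l2) (by
    simp only [map_add, map_mul, map_sub, map_neg, map_ofNat] at p11 p22 p12 ⊢
    linear_combination (-x) * p22 + (y - (algebraMap A R m2 - 2 * algebraMap A R u1)) * p12 -
      (algebraMap A R m1) * p11)
  have r1 : e0 = l2 * m1 := by linear_combination -s1.2.1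
  have r2 : k0 = -(l2 * (m2 - 2 * u1)) := by linear_combination s1.2.2
  have r3 : n0 = -(m1 * (l1 - 2 * u2)) := by linear_combination s2.2.1
  refine ⟨{ B := B', a := l2, b := 2 * u2 - l1, c := m2 - 2 * u1, d := -m1, B0 := b0,
            h11 := ?_, h12 := ?_, h22 := ?_ }, rfl, rfl, rfl, rfl, b1, b2⟩
  · rw [← hx, ← hy, p11, r2]
    simp only [map_add, map_mul, map_sub, map_neg, map_ofNat]
    ring
  · rw [← hx, ← hy, p12, r1]
    simp only [map_add, map_mul, map_sub, map_neg, map_ofNat]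
    ring
  · rw [← hx, ← hy, p22, r3]
    simp only [map_add, map_mul, map_sub, map_neg, map_ofNat]
    ring

end exists_cub

/-- weights -/
def Wc (ω : ℕ) : Fin 3 → ℕ := ![0, ω, ω]

namespace Cub

variable {A : Type u} {R : Type v} [CommRing A] [CommRing R] [Algebra A R] (C : Cub A R)
variable (F : Fil A) (ω : ℕ)

lemma el_mem (n : ℕ) (z0 z1 z2 : A) : C.el z0 z1 z2 ∈ GF C.B F (Wc ω) n ↔
    z0 ∈ F.F n ∧ z1 ∈ F.F (n - ω) ∧ z2 ∈ F.F (n - ω) := by
  rw [mem_GF]
  constructor
  · intro h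
    have h0 := h 0
    have h1 := h 1
    have h2 := h 2
    rw [repr_el0] at h0
    rw [repr_el1] at h1
    rw [repr_el2] at h2
    exact ⟨h0, h1, h2⟩
  · rintro ⟨h0, h1, h2⟩ i
    fin_cases i
    · change C.B.repr (C.el z0 z1 z2) 0 ∈ _
      rw [repr_el0]; exact h0
    · change C.B.repr (C.el z0 z1 z2) 1 ∈ _
      rw [repr_el1]; exact h1
    · change C.B.repr (C.el z0 z1 z2) 2 ∈ _
      rw [repr_el2]; exact h2

lemma B1_mem : C.B 1 ∈ GF C.B F (Wc ω) ω := b_mem_GF C.B F (Wc ω) 1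

lemma B2_mem : C.B 2 ∈ GF C.B F (Wc ω) ω := b_mem_GF C.B F (Wc ω) 2

lemma algebraMap_mem {n : ℕ} {z : A} (hz : z ∈ F.F n) :
    algebraMap A R z ∈ GF C.B F (Wc ω) n := by
  have : algebraMap A R z = C.el z 0 0 := by simp [el]
  rw [this, el_mem]
  exact ⟨hz, Ideal.zero_mem _, Ideal.zero_mem _⟩

lemma algebraMap_mem_iff {n : ℕ} {z : A} :
    algebraMap A R z ∈ GF C.B F (Wc ω) n ↔ z ∈ F.F n := by
  have : algebraMap A R z = C.el z 0 0 := by simp [el]
  rw [this, el_mem]
  exact ⟨fun h => h.1, fun h => ⟨h, Ideal.zero_mem _, Ideal.zero_mem _⟩⟩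

variable {F ω}

lemma hb (ha : C.a ∈ F.F ω) (hb : C.b ∈ F.F ω) (hc : C.c ∈ F.F ω) (hd : C.d ∈ F.F ω) (i j : Fin 3) :
    C.B i * C.B j ∈ GF C.B F (Wc ω) (Wc ω i + Wc ω j) := by
  have e0 : C.B 0 = C.el 1 0 0 := by rw [C.B0]; simp [el]
  have e1 : C.B 1 = C.el 0 1 0 := by simp [el]
  have e2 : C.B 2 = C.el 0 0 1 := by simp [el]
  have key : ∀ i j : Fin 3, i ≤ j → C.B i * C.B j ∈ GF C.B F (Wc ω) (Wc ω i + Wc ω j) := by
    intro i j hij
    rcases Fin.eq_zero_or_eq_succ i with rfl | ⟨i, rfl⟩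
    · rw [C.B0, one_mul]
      change C.B j ∈ GF C.B F (Wc ω) (0 + Wc ω j)
      rw [zero_add]
      exact b_mem_GF C.B F (Wc ω) j
    · fin_cases i
      · fin_cases j
        · exact absurd hij (by decide)
        · change C.B 1 * C.B 1 ∈ GF C.B F (Wc ω) (ω + ω)
          rw [e1, el_mul, el_mem, Nat.add_sub_cancel]
          simp only [mul_zero, zero_mul, mul_one, one_mul, zero_add, add_zero, sub_zero, zero_sub]
          exact ⟨neg_mem (F.mul_mem ha hc), neg_mem hb, ha⟩
        · change C.B 1 * C.B 2 ∈ GF C.B F (Wc ω) (ω + ω)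
          rw [e1, e2, el_mul, el_mem, Nat.add_sub_cancel]
          simp only [mul_zero, zero_mul, mul_one, one_mul, zero_add, add_zero, sub_zero, zero_sub]
          exact ⟨neg_mem (F.mul_mem ha hd), Ideal.zero_mem _, Ideal.zero_mem _⟩
      · fin_cases j
        · exact absurd hij (by decide)
        · exact absurd hij (by decide)
        · change C.B 2 * C.B 2 ∈ GF C.B F (Wc ω) (ω + ω)
          rw [e2, el_mul, el_mem, Nat.add_sub_cancel]
          simp only [mul_zero, zero_mul, mul_one, one_mul, zero_add, add_zero, sub_zero, zero_sub]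
          exact ⟨neg_mem (F.mul_mem hb hd), neg_mem hd, hc⟩
  rcases le_total i j with h | h
  · exact key i j h
  · rw [mul_comm, add_comm]
    exact key j i h

/-- the adjugate has order at least `2n` -/
lemma sh_mem (ha : C.a ∈ F.F ω) (hb : C.b ∈ F.F ω) (hc : C.c ∈ F.F ω) (hd : C.d ∈ F.F ω) {n : ℕ}
    {z0 z1 z2 : A} (hz : C.el z0 z1 z2 ∈ GF C.B F (Wc ω) n) :
    C.sh z0 z1 z2 ∈ GF C.B F (Wc ω) (2 * n) := by
  rw [el_mem] at hz
  obtain ⟨h0, h1, h2⟩ := hz
  rw [sh, el_mem]
  refine ⟨?_, ?_, ?_⟩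
  · apply Ideal.add_mem
    · exact F.mul_le (Ideal.sub_mem _ h0 (F.mul_le hb h1 (l := n) (by omega)))
        (Ideal.add_mem _ h0 (F.mul_le hc h2 (l := n) (by omega))) (by omega)
    · exact F.mul_le (F.mul_mem (F.mul_mem ha hd) h1) h2 (by omega)
  · apply Ideal.neg_mem_iff _ |>.2
    apply Ideal.add_mem
    · exact F.mul_le h1 (Ideal.add_mem _ h0 (F.mul_le hc h2 (l := n) (by omega))) (by omega)
    · exact F.mul_le (F.mul_mem hd h2) h2 (by omega)
  · apply Ideal.add_mem
    · apply Ideal.sub_mem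
      · exact F.mul_le (F.mul_mem ha h1) h1 (by omega)
      · exact F.mul_le h0 h2 (by omega)
    · exact F.mul_le (F.mul_mem hb h1) h2 (by omega)

variable (F ω)

/-- the functional `β^∨` -/
noncomputable def eps : R →ₗ[A] A := C.B.coord 2

lemma eps_el (z0 z1 z2 : A) : C.eps (C.el z0 z1 z2) = z2 := by
  rw [eps, Basis.coord_apply, repr_el2]

lemma eps_mem (n : ℕ) (z : R) (hz : z ∈ GF C.B F (Wc ω) n) : C.eps z ∈ F.F (n - ω) := by
  rw [C.eq_el z, el_mem] at hz
  rw [C.eq_el z, eps_el]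
  exact hz.2.2

variable {F ω}

/-- nondegeneracy of `β^∨` -/
lemma nd (ha : C.a ∈ F.F ω) (ha' : C.a ∉ F.F (ω + 1)) (hc : C.c ∈ F.F ω) {n : ℕ} {z : R}
    (hz : z ∈ GF C.B F (Wc ω) n) (hz' : z ∉ GF C.B F (Wc ω) (n + 1)) :
    ∃ y ∈ GF C.B F (Wc ω) ω, C.eps (z * y) ∉ F.F (n + 1) := by
  rw [C.eq_el z] at hz hz' ⊢
  set z0 := C.B.repr z 0
  set z1 := C.B.repr z 1
  set z2 := C.B.repr z 2
  rw [el_mem] at hz hz'
  obtain ⟨h0, h1, h2⟩ := hz
  have e1 : C.B 1 = C.el 0 1 0 := by simp [el]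
  have e2 : C.B 2 = C.el 0 0 1 := by simp [el]
  by_cases c2 : z2 ∈ F.F (n + 1 - ω)
  · by_cases c1 : z1 ∈ F.F (n + 1 - ω)
    · have c0 : z0 ∉ F.F (n + 1) := fun h => hz' ⟨h, c1, c2⟩
      refine ⟨C.B 2, C.B2_mem F ω, ?_⟩
      rw [e2, el_mul, eps_el]
      simp only [mul_zero, mul_one, add_zero, zero_mul]
      intro h
      apply c0
      have h3 : C.c * z2 ∈ F.F (n + 1) := F.mul_le hc c2 (by omega)
      have := Ideal.sub_mem _ h h3
      rwa [add_sub_cancel_right] at this
    · refine ⟨C.B 1, C.B1_mem F ω, ?_⟩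
      rw [e1, el_mul, eps_el]
      simp only [mul_zero, mul_one, add_zero, zero_mul, zero_add]
      have hle : ω ≤ n := by
        by_contra hc'
        apply c1
        rw [Nat.sub_eq_zero_of_le (by omega)]
        exact F.mem_zero _
      have e : n + 1 - ω = (n - ω) + 1 := by omega
      rw [e] at c1
      have := F.not_mem ha' c1
      have e' : ω + (n - ω) + 1 = n + 1 := by omega
      rwa [e'] at this
  · refine ⟨algebraMap A R C.a, C.algebraMap_mem F ω ha, ?_⟩
    have : algebraMap A R C.a = C.el C.a 0 0 := by simp [el]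
    rw [this, el_mul, eps_el]
    simp only [mul_zero, mul_one, add_zero, zero_mul, zero_add]
    have hle : ω ≤ n := by
      by_contra hc'
      apply c2
      rw [Nat.sub_eq_zero_of_le (by omega)]
      exact F.mem_zero _
    have e : n + 1 - ω = (n - ω) + 1 := by omega
    rw [e] at c2
    have := F.not_mem ha' c2
    have e' : ω + (n - ω) + 1 = n + 1 := by omega
    rw [e'] at this
    rwa [mul_comm]

end Cub

end Run7.h889
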