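import Mathlib

/-!
# F-pure pairs, F-pure thresholds and the `ℚ`-Gorenstein property

`R` is a ring of characteristic `p`, and `q = p^e`.
-/

set_option autoImplicit false
set_option linter.unusedSimpArgs false
set_option linter.unusedVariables false
set_option linter.unusedSectionVars false
set_option linter.deprecated false

namespace Run7.h889

open scoped TensorProduct

universe u

/-- `Hom_R(R^{1/q}, R)` for `q = p^e`, that is `Hom_R(F^e_* R, R)`: the additive maps `φ : R → R`
with `φ (r ^ q * x) = r * φ x` (identify `x` with `x^{1/q}`). -/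
def FHom (p e : ℕ) (R : Type u) [CommRing R] : AddSubgroup (R →+ R) where
  carrier := {φ | ∀ r x, φ (r ^ p ^ e * x) = r * φ x}
  zero_mem' := fun r _ => (mul_zero r).symm
  add_mem' := by
    intro φ ψ h1 h2 r x
    rw [AddMonoidHom.add_apply, AddMonoidHom.add_apply, h1, h2, mul_add]
  neg_mem' := by
    intro φ h1 r x
    rw [AddMonoidHom.neg_apply, AddMonoidHom.neg_apply, h1, mul_neg]

/-- `(c φ)(x) = φ(c x)`: the structure of `Hom_R(F^e_* R, R)` as a module over `F^e_* R`. -/
instance instSMulFHom (p e : ℕ) (R : Type u) [CommRing R] : SMul R (FHom p e R) where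
  smul c φ := ⟨φ.1.comp (AddMonoidHom.mulLeft c), by
    intro r x
    change φ.1 (c * (r ^ p ^ e * x)) = r * φ.1 (c * x)
    rw [mul_left_comm, φ.2]⟩

lemma FHom_smul_apply {p e : ℕ} {R : Type u} [CommRing R] (c : R) (φ : FHom p e R) (x : R) :
    (c • φ).1 x = φ.1 (c * x) := rfl

lemma FHom_ext {p e : ℕ} {R : Type u} [CommRing R] {φ ψ : FHom p e R}
    (h : ∀ x, φ.1 x = ψ.1 x) : φ = ψ := Subtype.ext (AddMonoidHom.ext h)

/-- The module structure `(c φ)(x) = φ(c x)` of `Hom_R(F^e_* R, R)` over `F^e_* R`. -/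
instance instModuleFHom (p e : ℕ) (R : Type u) [CommRing R] : Module R (FHom p e R) where
  one_smul φ := FHom_ext fun x => by rw [FHom_smul_apply, one_mul]
  mul_smul a b φ := FHom_ext fun x => by
    rw [FHom_smul_apply, FHom_smul_apply, FHom_smul_apply, mul_comm a b, mul_assoc]
  smul_zero a := FHom_ext fun x => rfl
  smul_add a φ ψ := FHom_ext fun x => rfl
  add_smul a b φ := FHom_ext fun x => by
    change φ.1 ((a + b) * x) = φ.1 (a * x) + φ.1 (b * x)
    rw [add_mul, map_add]
  zero_smul φ := FHom_ext fun x => by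
    change φ.1 (0 * x) = 0
    rw [zero_mul, map_zero]

/-- The pair `(R, 𝔞^t)` is F-pure: for every sufficiently large `q = p^e` there is
`f ∈ 𝔞^⌈t(q-1)⌉` such that the `R`-linear map `R → R^{1/q}`, `1 ↦ f^{1/q}`, splits, i.e. such that
`φ(f^{1/q}) = 1` for some `R`-linear map `φ : R^{1/q} → R`. -/
def PairFPure (p : ℕ) (R : Type u) [CommRing R] (𝔞 : Ideal R) (t : ℝ) : Prop :=
  ∃ e₀ : ℕ, ∀ e, e₀ ≤ e → ∃ f ∈ 𝔞 ^ ⌈t * ((p : ℝ) ^ e - 1)⌉₊, ∃ φ : FHom p e R, φ.1 f = 1

/-- The F-pure threshold of `𝔞`: the supremum (in the extended reals) of the real `t ≥ 0` such that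
`(R, 𝔞^t)` is F-pure. -/
noncomputable def fpt (p : ℕ) (R : Type u) [CommRing R] (𝔞 : Ideal R) : EReal :=
  sSup {x : EReal | ∃ t : ℝ, 0 ≤ t ∧ PairFPure p R 𝔞 t ∧ x = (t : EReal)}

/-- `R` is F-finite: finitely generated as a module over its subring `R^p`. -/
def IsFFinite (p : ℕ) (R : Type u) [CommRing R] : Prop :=
  ∃ s : Finset R, ∀ x : R, ∃ a : R → R, x = ∑ y ∈ s, a y ^ p * y

/-- `R` is F-pure: `R → R^{1/p}` splits. -/
def IsFPure (p : ℕ) (R : Type u) [CommRing R] : Prop := ∃ φ : FHom p 1 R, φ.1 1 = 1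

/-- The F-finite normal local domain `R` is `ℚ`-Gorenstein. By duality
`Hom_R(F_* R, R) = F_* R((1 - p) K_R)`; so, for `n ≥ 1`, the reflexive module
`(Hom_R(F_* R, R)^{⊗ n})^*` is `R(n (p - 1) K_R)`, and it is free if and only if `n (p - 1) K_R` is
principal. The condition says that this happens for some `n ≥ 1`, i.e. that the class of `K_R` is
torsion. -/
def IsQGorenstein (p : ℕ) (R : Type u) [CommRing R] : Prop :=
  ∃ n : ℕ, 1 ≤ n ∧ Nonempty (Module.Dual R (⨂[R]^n (FHom p 1 R)) ≃ₗ[R] R)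

/-- `R` is an F-finite and F-pure Noetherian normal local domain of characteristic `p` and Krull
dimension `d` that is not `ℚ`-Gorenstein. -/
structure IsFPureNonQGor (p d : ℕ) (R : Type u) [CommRing R] : Prop where
  prime : p.Prime
  char : CharP R p
  isDomain : IsDomain R
  isNoetherian : IsNoetherianRing R
  isLocal : IsLocalRing R
  isNormal : IsIntegrallyClosed R
  isFFinite : IsFFinite p R
  isFPure : IsFPure p R
  dim_eq : ringKrullDim R = (d : WithBot ℕ∞)
  not_qgor : ¬ IsQGorenstein p R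

end Run7.h889
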