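import Mathlib

set_option autoImplicit false
set_option linter.unusedSimpArgs false
set_option linter.unusedVariables false
set_option linter.unusedSectionVars false
set_option linter.deprecated false

namespace Run7.h889

open MvPowerSeries

section

variable (p e : ℕ) [hp : Fact p.Prime] {K : Type*} [Field K] [CharP K p] [PerfectRing K p] {d : ℕ}

omit [PerfectRing K p] [CharP K p] [Field K] in
lemma q_pos : 0 < p ^ e := pow_pos hp.out.pos e

/-- the `q`-th root in `K` -/
noncomputable def rt : K ≃+* K := (iterateFrobeniusEquiv K p e).symm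

lemma rt_pow (a : K) : rt p e (a ^ p ^ e) = a := by
  rw [rt, ← iterateFrobeniusEquiv_def K p e a, RingEquiv.symm_apply_apply]

lemma pow_rt (a : K) : (rt p e a) ^ p ^ e = a := by
  rw [rt, ← iterateFrobeniusEquiv_def K p e, RingEquiv.apply_symm_apply]

omit [PerfectRing K p] in
lemma pow_eq_expand (f : MvPowerSeries (Fin d) K) :
    f ^ p ^ e = map (iterateFrobenius K p e)
      (expand (p ^ e) (pow_ne_zero e hp.out.ne_zero) f) :=
  (map_iterateFrobenius_expand p hp.out.ne_zero f e).symm

omit [PerfectRing K p] in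
lemma coeff_pow_smul (f : MvPowerSeries (Fin d) K) (m : Fin d →₀ ℕ) :
    coeff (p ^ e • m) (f ^ p ^ e) = (coeff m f) ^ p ^ e := by
  rw [pow_eq_expand, coeff_map, coeff_expand_smul, iterateFrobenius_def]

omit [PerfectRing K p] in
lemma coeff_pow_of_not_dvd (f : MvPowerSeries (Fin d) K) {m : Fin d →₀ ℕ} {i : Fin d}
    (h : ¬ p ^ e ∣ m i) :
    coeff m (f ^ p ^ e) = 0 := by
  rw [pow_eq_expand, coeff_map, coeff_expand_of_not_dvd _ _ _ h, map_zero]

/-- The digit operator. -/
noncomputable def dig (v : Fin d →₀ ℕ) : MvPowerSeries (Fin d) K →+ MvPowerSeries (Fin d) K where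
  toFun f := fun w => rt p e (coeff (p ^ e • w + v) f)
  map_zero' := by
    ext w
    change rt p e (coeff _ 0) = coeff w 0
    rw [coeff_zero, map_zero, coeff_zero]
  map_add' := by
    intro f g
    ext w
    change rt p e (coeff _ (f + g)) = rt p e (coeff _ f) + rt p e (coeff _ g)
    rw [map_add, map_add]

lemma coeff_dig (v w : Fin d →₀ ℕ) (f : MvPowerSeries (Fin d) K) :
    coeff w (dig p e v f) = rt p e (coeff (p ^ e • w + v) f) := rfl

lemma dig_pow_mul (v : Fin d →₀ ℕ) (hv : ∀ i, v i < p ^ e) (a f : MvPowerSeries (Fin d) K) :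
    dig p e v (a ^ p ^ e * f) = a * dig p e v f := by
  classical
  ext w
  rw [coeff_dig, coeff_mul, coeff_mul, map_sum]
  symm
  apply Finset.sum_of_injOn (fun x => (p ^ e • x.1, p ^ e • x.2 + v))
  · intro x _ y _ hxy
    simp only [Prod.mk.injEq, add_left_inj] at hxy
    have hq := (q_pos p e).ne'
    exact Prod.ext ((nsmul_right_inj hq).1 hxy.1) ((nsmul_right_inj hq).1 hxy.2)
  · intro x hx
    simp only [Finset.mem_coe, Finset.HasAntidiagonal.mem_antidiagonal] at hx ⊢
    rw [← add_assoc, ← smul_add, hx]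
  · intro x hx hx'
    rw [Finset.HasAntidiagonal.mem_antidiagonal] at hx
    by_cases h : ∀ i, p ^ e ∣ x.1 i
    · exfalso
      apply hx'
      obtain ⟨s, hs⟩ : ∃ s : Fin d →₀ ℕ, x.1 = p ^ e • s := by
        refine ⟨x.1.mapRange (fun a => a / p ^ e) (by simp), ?_⟩
        ext i
        simp [Nat.mul_div_cancel' (h i)]
      have hle : s ≤ w := by
        intro i
        have h1 := DFunLike.congr_fun hx i
        rw [hs] at h1
        simp only [Finsupp.add_apply, Finsupp.smul_apply, smul_eq_mul] at h1
        have h2 := hv i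
        by_contra hc
        push Not at hc
        have : p ^ e * (w i + 1) ≤ p ^ e * s i := Nat.mul_le_mul_left _ hc
        rw [mul_add] at this
        omega
      refine ⟨(s, w - s), ?_, ?_⟩
      · rw [Finset.mem_coe, Finset.HasAntidiagonal.mem_antidiagonal]
        exact add_tsub_cancel_of_le hle
      · simp only
        apply Prod.ext
        · exact hs.symm
        · have h3 : p ^ e • s + (p ^ e • (w - s) + v) = p ^ e • s + x.2 := by
            rw [← add_assoc, ← smul_add, add_tsub_cancel_of_le hle, ← hs, hx]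
          exact add_left_cancel h3
    · push Not at h
      obtain ⟨i, hi⟩ := h
      rw [coeff_pow_of_not_dvd p e a hi, zero_mul, map_zero]
  · intro x hx
    simp only
    rw [coeff_pow_smul, coeff_dig, map_mul, rt_pow]

/-- exponent vectors with all entries `< q` -/
noncomputable def bx (v : Fin d → Fin (p ^ e)) : Fin d →₀ ℕ :=
  Finsupp.equivFunOnFinite.symm (fun i => (v i : ℕ))

omit hp [Field K] [CharP K p] [PerfectRing K p] in
lemma bx_apply (v : Fin d → Fin (p ^ e)) (i : Fin d) : bx p e v i = v i := rfl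

omit hp [Field K] [CharP K p] [PerfectRing K p] in
lemma bx_lt (v : Fin d → Fin (p ^ e)) (i : Fin d) : bx p e v i < p ^ e := (v i).2

/-- Base `q` digit decomposition. -/
lemma digit_sum (f : MvPowerSeries (Fin d) K) :
    f = ∑ v : Fin d → Fin (p ^ e), (dig p e (bx p e v) f) ^ p ^ e * monomial (bx p e v) 1 := by
  classical
  ext u
  rw [map_sum]
  have hq := q_pos p e
  let v0 : Fin d → Fin (p ^ e) := fun i => ⟨u i % p ^ e, Nat.mod_lt _ hq⟩
  have hu : u = p ^ e • (u.mapRange (fun a => a / p ^ e) (by simp)) + bx p e v0 := by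
    ext i
    simp only [Finsupp.add_apply, Finsupp.smul_apply, Finsupp.mapRange_apply, smul_eq_mul,
      bx_apply, v0]
    exact (Nat.div_add_mod _ _).symm
  rw [Finset.sum_eq_single v0]
  · rw [coeff_mul_monomial, if_pos, mul_one]
    · conv_rhs => rw [hu]
      rw [add_tsub_cancel_right, coeff_pow_smul, coeff_dig, ← hu, pow_rt]
    · conv_rhs => rw [hu]
      exact le_add_self
  · intro v _ hv
    rw [coeff_mul_monomial]
    split_ifs with hle
    · rw [mul_one]
      obtain ⟨i, hi⟩ : ∃ i, v i ≠ v0 i := by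
        by_contra hc
        push Not at hc
        exact hv (funext hc)
      apply coeff_pow_of_not_dvd p e _ (i := i)
      intro hdvd
      apply hi
      apply Fin.ext
      simp only [v0]
      have h1 : bx p e v i ≤ u i := hle i
      rw [Finsupp.tsub_apply, bx_apply] at hdvd
      rw [bx_apply] at h1
      obtain ⟨k, hk⟩ := hdvd
      have h2 : u i = v i + p ^ e * k := by omega
      rw [h2, Nat.add_mul_mod_self_left, Nat.mod_eq_of_lt (v i).2]
    · rfl
  · intro h
    exact absurd (Finset.mem_univ _) h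

/-- The exponent vector `(q-1, …, q-1)`. -/
noncomputable def topv (d : ℕ) : Fin d →₀ ℕ :=
  Finsupp.equivFunOnFinite.symm (fun _ => p ^ e - 1)

omit hp [Field K] [CharP K p] [PerfectRing K p] in
lemma topv_apply (i : Fin d) : topv p e d i = p ^ e - 1 := rfl

/-- The generating `q^{-1}`-linear map of the power series ring. -/
noncomputable def Tr : MvPowerSeries (Fin d) K →+ MvPowerSeries (Fin d) K := dig p e (topv p e d)

lemma Tr_pow_mul (a f : MvPowerSeries (Fin d) K) : Tr p e (a ^ p ^ e * f) = a * Tr p e f := by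
  apply dig_pow_mul
  intro i
  have := q_pos p e
  rw [topv_apply]
  omega

/-- complementary exponent -/
noncomputable def cmp (v : Fin d → Fin (p ^ e)) : Fin d →₀ ℕ :=
  Finsupp.equivFunOnFinite.symm (fun i => p ^ e - 1 - (v i : ℕ))

omit hp [Field K] [CharP K p] [PerfectRing K p] in
lemma cmp_apply (v : Fin d → Fin (p ^ e)) (i : Fin d) : cmp p e v i = p ^ e - 1 - v i := rfl

omit hp [Field K] [CharP K p] [PerfectRing K p] in
lemma cmp_add (v : Fin d → Fin (p ^ e)) : bx p e v + cmp p e v = topv p e d := by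
  ext i
  rw [Finsupp.add_apply, bx_apply, cmp_apply, topv_apply]
  have := (v i).2
  omega

lemma Tr_mul_monomial (c : MvPowerSeries (Fin d) K) (v : Fin d → Fin (p ^ e)) :
    Tr p e (c * monomial (cmp p e v) 1) = dig p e (bx p e v) c := by
  classical
  ext w
  rw [Tr, coeff_dig, coeff_dig, ← cmp_add p e v, ← add_assoc, coeff_add_mul_monomial, mul_one]

lemma Tr_unique (c : MvPowerSeries (Fin d) K) (h : ∀ f, Tr p e (c * f) = 0) : c = 0 := by
  rw [digit_sum p e c]
  apply Finset.sum_eq_zero
  intro v _
  rw [← Tr_mul_monomial, h, zero_pow (q_pos p e).ne', zero_mul]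

/-- orthogonality of the complementary monomials -/
lemma Tr_cmp_bx (u v : Fin d → Fin (p ^ e)) :
    Tr p e (monomial (cmp p e u + bx p e v) (1 : K)) = if v = u then 1 else 0 := by
  classical
  split_ifs with h
  · subst h
    rw [add_comm, cmp_add]
    ext w
    rw [Tr, coeff_dig, coeff_monomial, coeff_one]
    by_cases hw : w = 0
    · rw [if_pos hw, hw, smul_zero, zero_add, if_pos rfl, map_one]
    · rw [if_neg hw, if_neg, map_zero]
      intro h
      apply hw
      have h2 : p ^ e • w = 0 := by
        rwa [add_eq_right] at h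
      rcases smul_eq_zero.1 h2 with h3 | h3
      · exact absurd h3 (q_pos p e).ne'
      · exact h3
  · ext w
    rw [Tr, coeff_dig, coeff_monomial, coeff_zero, if_neg, map_zero]
    intro h1
    apply h
    funext i
    have h2 := DFunLike.congr_fun h1 i
    simp only [Finsupp.add_apply, Finsupp.smul_apply, smul_eq_mul, topv_apply, cmp_apply,
      bx_apply] at h2
    have h3 := (v i).2
    have h4 := (u i).2
    have h5 : w i = 0 := by
      by_contra hc
      have : p ^ e * 1 ≤ p ^ e * w i := Nat.mul_le_mul_left _ (Nat.one_le_iff_ne_zero.2 hc)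
      omega
    rw [h5] at h2
    apply Fin.ext
    omega

/-- Every `q^{-1}`-linear map is `f ↦ Tr (c f)`. -/
lemma Tr_exists (χ : MvPowerSeries (Fin d) K →+ MvPowerSeries (Fin d) K)
    (hχ : ∀ a f, χ (a ^ p ^ e * f) = a * χ f) :
    ∃ c, ∀ f, χ f = Tr p e (c * f) := by
  classical
  have key : ∀ u : Fin d → Fin (p ^ e),
      ∃ c : MvPowerSeries (Fin d) K, ∀ v : Fin d → Fin (p ^ e),
        Tr p e (c * monomial (bx p e v) 1) = if v = u then χ (monomial (bx p e u) 1) else 0 := by
    intro u
    refine ⟨(χ (monomial (bx p e u) 1)) ^ p ^ e * monomial (cmp p e u) 1, ?_⟩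
    intro v
    rw [mul_assoc, Tr_pow_mul, monomial_mul_monomial, mul_one, Tr_cmp_bx]
    split_ifs with h
    · rw [mul_one]
    · rw [mul_zero]
  choose c hc using key
  refine ⟨∑ u, c u, fun f => ?_⟩
  conv_lhs => rw [digit_sum p e f]
  conv_rhs => rw [digit_sum p e f]
  rw [Finset.mul_sum, map_sum, map_sum]
  apply Finset.sum_congr rfl
  intro v _
  rw [hχ, mul_left_comm, Tr_pow_mul, Finset.sum_mul, map_sum]
  congr 1
  rw [Finset.sum_eq_single v]
  · rw [hc, if_pos rfl]
  · intro u _ hu
    rw [hc, if_neg (Ne.symm hu)]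
  · intro h
    exact absurd (Finset.mem_univ _) h

end

end Run7.h889
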