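import Pool.Agent.Run7.h889.Iface

/-!
# MP_7dd379_ag, piece DIM
-/

set_option autoImplicit false

namespace Run7.h889

open Module IsLocalRing

universe u

theorem t_DIM : S_DIM.{u} := by
  intro R S _ _ _ _ _ _ _ _ hm
  have hover : (maximalIdeal S).LiesOver (maximalIdeal R) := by
    refine ⟨?_⟩
    refine ((IsLocalRing.maximalIdeal.isMaximal R).eq_of_le ?_ ?_)
    · exact Ideal.comap_ne_top _ (Ideal.IsPrime.ne_top inferInstance)
    · rw [Ideal.under_def, ← Ideal.map_le_iff_le_comap, hm]
  have h := Ideal.height_eq_height_add_of_liesOver_of_hasGoingDown (maximalIdeal R) (maximalIdeal S)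
  have h0 : (Ideal.map (Ideal.Quotient.mk (Ideal.map (algebraMap R S) (maximalIdeal R)))
      (maximalIdeal S)).height = 0 := by
    have h1 : Ideal.map (Ideal.Quotient.mk (Ideal.map (algebraMap R S) (maximalIdeal R)))
      (maximalIdeal S) = ⊥ := by
      rw [hm]
      exact Ideal.map_quotient_self _
    rw [h1]
    have : (Ideal.map (algebraMap R S) (maximalIdeal R)).IsMaximal := by
      rw [hm]; infer_instance
    let _ := Ideal.Quotient.field (Ideal.map (algebraMap R S) (maximalIdeal R))
    exact Ideal.height_bot
  rw [h0, add_zero] at h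
  rw [← maximalIdeal_height_eq_ringKrullDim, ← maximalIdeal_height_eq_ringKrullDim, h]

end Run7.h889
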