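import Pool.Agent.Run7.h889.Small

set_option autoImplicit false
set_option linter.unusedSimpArgs false
set_option linter.unusedVariables false
set_option linter.unusedSectionVars false
set_option linter.deprecated false

namespace Run7.h889

open Module nonZeroDivisors IsLocalRing

universe u v

section adj

variable {A : Type u} {R : Type v} [CommRing A] [CommRing R] [Algebra A R]
variable {ι : Type} [Fintype ι] [DecidableEq ι] (b : Basis ι A R)

/-- the adjugate element -/
lemma exists_adj (i0 : ι) (hb : b i0 = 1) (g : R) :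
    ∃ g' : R, g * g' = algebraMap A R (Algebra.norm A g) := by
  classical
  refine ⟨∑ i, ((Algebra.leftMulMatrix b g).adjugate i i0) • b i, ?_⟩
  apply b.repr.injective
  ext j
  have h1 : b.repr (g * ∑ i, ((Algebra.leftMulMatrix b g).adjugate i i0) • b i) j =
      ((Algebra.leftMulMatrix b g) * (Algebra.leftMulMatrix b g).adjugate) j i0 := by
    rw [Finset.mul_sum, map_sum, Finsupp.finset_sum_apply, Matrix.mul_apply]
    apply Finset.sum_congr rfl
    intro i _
    rw [mul_smul_comm, map_smul, Finsupp.smul_apply, smul_eq_mul, Algebra.leftMulMatrix_eq_repr_mul,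
      mul_comm]
  rw [h1, Matrix.mul_adjugate, ← Algebra.norm_eq_matrix_det b, Matrix.smul_apply, smul_eq_mul,
    Algebra.algebraMap_eq_smul_one, ← hb, map_smul, Basis.repr_self, Finsupp.smul_apply,
    smul_eq_mul, Matrix.one_apply, Finsupp.single_apply]
  simp only [eq_comm]

end adj

section pkg

variable {A : Type u} {R : Type v} [CommRing A] [IsDomain A] [CommRing R] [IsDomain R] [Algebra A R]
variable (K : Type u) (L : Type v) [Field K] [Algebra A K] [IsFractionRing A K]
  [Field L] [Algebra R L] [IsFractionRing R L] [Algebra K L] [Algebra A L]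
  [IsScalarTower A R L] [IsScalarTower A K L]
variable {ι : Type} [Fintype ι] [Nonempty ι] (b : Basis ι A R) (F : Fil A) (W : ι → ℕ)
  {p : ℕ} [hp : Fact p.Prime] [CharP R p] [IsIntegrallyClosed R]

include K L in
/-- The element `g` and the first two estimates, for a general basis. -/
theorem pkgG (hb : ∀ i j, b i * b j ∈ GF b F W (W i + W j)) (i0 : ι) (hi0 : b i0 = 1)
    {E c ω : ℕ} (T : FTr (p ^ E) A)
    (hT : ∀ j u, u ∈ F.F (j * p ^ E + c * (p ^ E - 1) + 1) → T.Tr u ∈ F.F (j + 1))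
    {ε : R →ₗ[A] A} (hε : ∃ x, ε x ≠ 0)
    (hεm : ∀ n z, z ∈ GF b F W n → ε z ∈ F.F (n - ω))
    (ND : ∀ n z, z ∈ GF b F W n → z ∉ GF b F W (n + 1) →
      ∃ y ∈ GF b F W ω, ε (z * y) ∉ F.F (n + 1))
    (φ : FHom p E R) {f : R} {N : ℕ} (hf : f ∈ GF b F W N) (h1 : φ.1 f = 1) :
    ∃ (g : R) (n0 n1 : ℕ), g ≠ 0 ∧ Algebra.norm A g ∈ F.F n0 ∧ Algebra.norm A g ∉ F.F (n0 + 1) ∧
      N + n0 + ω * (p ^ E - 1) ≤ n1 + c * (p ^ E - 1) ∧
      Fintype.card ι * n1 ≤ (Fintype.card ι - 1) * n0 ∧
      (∀ z ∈ (WW K L b ε) ^ (p ^ E - 1), ∃ r : R, algebraMap R L g * z = algebraMap R L r) := by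
  classical
  have hq := q_pos p E
  have injA := IsFractionRing.injective A K
  have injL := IsFractionRing.injective R L
  obtain ⟨G, hG⟩ : ∃ G, G = gL K L b hε p E T φ := ⟨_, rfl⟩
  have hmem := gL_mem K L b hε p E T φ
  rw [← hG] at hmem
  obtain ⟨g, hg⟩ := hmem 1 (by
    have := Submodule.pow_mem_pow _ (one_mem_WW K L b ε) (p ^ E - 1)
    rwa [one_pow] at this)
  rw [mul_one] at hg
  have hg0 : g ≠ 0 := by
    rintro rfl
    rw [map_zero] at hg
    have h2 : φ = 0 := gL_inj K L b hε p E T (by rw [← hG, hg, map_zero])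
    rw [h2] at h1
    change (0 : R) = 1 at h1
    exact zero_ne_one h1
  have hrel : ∀ w x, ε (w * φ.1 x) = T.Tr (ε (g * w ^ p ^ E * x)) := by
    intro w x
    obtain ⟨c, h3, h4⟩ := gL_spec K L b hε p E T φ (algebraMap R L w)
      (algebraMap_mem_WW K L b ε w) x
    rw [← hG, hg, ← map_pow, ← map_mul, ← map_mul, eL_algebraMap] at h3
    rw [← map_mul, eL_algebraMap] at h4
    rw [injA h3]
    exact injA h4
  obtain ⟨ν, hν⟩ : ∃ ν, ν = Algebra.norm A g := ⟨_, rfl⟩
  have hν0 : ν ≠ 0 := by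
    rw [hν]
    exact Algebra.norm_ne_zero_iff_of_basis b |>.2 hg0
  obtain ⟨n0, hn0, hn0'⟩ := F.exists_ord hν0
  obtain ⟨g', hgg⟩ := exists_adj b i0 hi0 g
  rw [← hν] at hgg
  have hinj : ∀ a : A, algebraMap A R a = 0 → a = 0 := by
    intro a ha
    have h2 : a • b i0 = 0 := by rw [hi0, ← Algebra.algebraMap_eq_smul_one, ha]
    have h3 := congrArg (fun z => b.repr z i0) h2
    simpa using h3
  have hg'0 : g' ≠ 0 := by
    rintro rfl
    rw [mul_zero] at hgg
    exact hν0 (hinj _ hgg.symm)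
  obtain ⟨n1, hn1, hn1'⟩ := exists_ord_GF b F W hg'0
  obtain ⟨m, hm⟩ : ∃ m, Fintype.card ι = m + 1 :=
    ⟨Fintype.card ι - 1, by have := Fintype.card_pos (α := ι); omega⟩
  have hnorm : Algebra.norm A g' = ν ^ m := by
    have h1 := congrArg (Algebra.norm A) hgg
    rw [map_mul, Algebra.norm_algebraMap_of_basis b, hm, ← hν] at h1
    apply mul_left_cancel₀ hν0
    rw [h1]; ring
  refine ⟨g, n0, n1, hg0, by rw [← hν]; exact hn0, by rw [← hν]; exact hn0', ?_, ?_, ?_⟩
  · exact estimate_a b F W hb hq T hT ω ε hεm g g' ν hgg φ.1 φ.2 hrel f N hf h1 n0 n1 hn0 hn1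
      (ND n1 g' hn1 hn1')
  · have h3 := norm_mem_Fil b F W hb hn1
    rw [hnorm] at h3
    by_contra hcon
    push Not at hcon
    have h1F : (1 : A) ∉ F.F 1 := by
      intro h
      have h4 : ν ∈ F.F (n0 + 1) := by
        have := F.mul_mem h hn0
        rw [one_mul] at this
        exact F.mem_le this (by omega)
      exact hn0' h4
    have h4 := F.pow_not_mem h1F hn0' m
    rw [hm, Nat.add_sub_cancel] at hcon
    rw [hm] at h3
    exact h4 (F.mem_le h3 (by omega))
  · intro z hz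
    rw [← hg]
    exact hmem z hz

end pkg

end Run7.h889
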