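import Pool.Agent.Run7.h889.HOne
import Pool.Agent.Run7.h889.GenPkg

set_option autoImplicit false
set_option linter.unusedSimpArgs false
set_option linter.unusedVariables false
set_option linter.unusedSectionVars false
set_option linter.deprecated false

namespace Run7.h889

open Module nonZeroDivisors IsLocalRing

universe u v

section disc

variable {A : Type u} {R : Type v} [CommRing A] [IsDomain A] [CommRing R] [IsDomain R] [Algebra A R]
variable (K : Type u) (L : Type v) [Field K] [Algebra A K] [IsFractionRing A K]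
  [Field L] [Algebra R L] [IsFractionRing R L] [Algebra K L] [Algebra A L]
  [IsScalarTower A R L] [IsScalarTower A K L]
variable {ι : Type} [Fintype ι] [DecidableEq ι] [Nonempty ι] (b : Basis ι A R) {ε : R →ₗ[A] A}
variable (hε : ∃ x, ε x ≠ 0)

/-- the Gram matrix -/
noncomputable def gram (ε : R →ₗ[A] A) : Matrix ι ι A := fun i j => ε (b i * b j)

include K L hε in
lemma gram_det_ne : (gram b ε).det ≠ 0 := by
  classical
  intro h
  obtain ⟨v, hv, hv'⟩ := Matrix.exists_mulVec_eq_zero_iff.2 h
  apply hv
  have injL := IsFractionRing.injective R L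
  have h1 : (∑ j, v j • b j) = 0 := by
    apply injL
    rw [map_zero]
    apply eL_nondeg K L b hε
    intro x
    rw [← map_mul (algebraMap R L), eL_algebraMap, ← b.sum_repr x, Finset.mul_sum, map_sum]
    have : ∀ i, ε ((∑ j, v j • b j) * (b.repr x i • b i)) = 0 := by
      intro i
      rw [mul_smul_comm, map_smul, Finset.sum_mul, map_sum]
      have h2 := congrFun hv' i
      rw [Matrix.mulVec, dotProduct] at h2
      have h3 : ∑ j, ε (v j • b j * b i) = 0 := by
        rw [← Pi.zero_apply (M := fun _ => A) i, ← h2]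
        apply Finset.sum_congr rfl
        intro j _
        rw [smul_mul_assoc, map_smul, smul_eq_mul, gram, mul_comm (b j), mul_comm]
      rw [h3, smul_zero]
    rw [Finset.sum_congr rfl (fun i _ => this i), Finset.sum_const_zero, map_zero]
  have h2 := Fintype.linearIndependent_iff.1 b.linearIndependent v h1
  funext i
  exact h2 i

/-- the form of `w` -/
lemma form_det {w : L} {C : Matrix ι ι A}
    (hC : ∀ i j, eL K L b ε (w * algebraMap R L (b i * b j)) = algebraMap A K (C i j)) :
    algebraMap A K C.det = Algebra.norm K w * algebraMap A K (gram b ε).det := by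
  classical
  have h1 : (algebraMap A K).mapMatrix C =
      (Algebra.leftMulMatrix (bL K L b) w).transpose * (algebraMap A K).mapMatrix (gram b ε) := by
    ext i j
    rw [RingHom.mapMatrix_apply, Matrix.map_apply, ← hC, Matrix.mul_apply]
    have e1 : w * algebraMap R L (b i) = ∑ l, (Algebra.leftMulMatrix (bL K L b) w) l i •
        bL K L b l := by
      conv_lhs => rw [← bL_apply K L b i, ← (bL K L b).sum_repr (w * bL K L b i)]
      apply Finset.sum_congr rfl
      intro l _
      rw [Algebra.leftMulMatrix_eq_repr_mul]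
    rw [map_mul (algebraMap R L), ← mul_assoc, e1, Finset.sum_mul, map_sum]
    apply Finset.sum_congr rfl
    intro l _
    rw [smul_mul_assoc, map_smul, smul_eq_mul, bL_apply, ← map_mul (algebraMap R L), eL_algebraMap,
      Matrix.transpose_apply, RingHom.mapMatrix_apply, Matrix.map_apply, gram]
  rw [RingHom.map_det, h1, Matrix.det_mul, Matrix.det_transpose, ← RingHom.map_det,
    Algebra.norm_eq_matrix_det (bL K L b)]

include b in
lemma normKL (x : R) : Algebra.norm K (algebraMap R L x) = algebraMap A K (Algebra.norm A x) := by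
  classical
  rw [Algebra.norm_eq_matrix_det (bL K L b), Algebra.norm_eq_matrix_det b, RingHom.map_det]
  congr 1
  ext i j
  rw [RingHom.mapMatrix_apply, Matrix.map_apply, Algebra.leftMulMatrix_eq_repr_mul,
    Algebra.leftMulMatrix_eq_repr_mul, bL_apply, ← map_mul (algebraMap R L), bL_repr]

include K L hε in
/-- **The power of the discriminant divides the norm.** -/
theorem disc_dvd [IsNoetherianRing A] [IsIntegrallyClosed A] [IsIntegrallyClosed R]
    {g : R} {r : ℕ}
    (hg : ∀ z ∈ (WW K L b ε) ^ r, ∃ s : R, algebraMap R L g * z = algebraMap R L s) :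
    (gram b ε).det ^ r ∣ Algebra.norm A g := by
  classical
  have injA := IsFractionRing.injective A K
  have injL := IsFractionRing.injective R L
  have hfin : Module.Finite A R := Module.Finite.of_basis b
  obtain ⟨δ, hδ⟩ : ∃ δ, δ = (gram b ε).det := ⟨_, rfl⟩
  have hδ0 : δ ≠ 0 := by rw [hδ]; exact gram_det_ne K L b hε
  obtain ⟨ν, hν⟩ : ∃ ν, ν = Algebra.norm A g := ⟨_, rfl⟩
  rw [← hδ, ← hν]
  have hδK : algebraMap A K δ ≠ 0 := by
    intro h
    exact hδ0 (injA (by rw [h, map_zero]))
  -- the forms
  have hform : ∀ w ∈ WW K L b ε, ∃ C : Matrix ι ι A,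
      ∀ i j, eL K L b ε (w * algebraMap R L (b i * b j)) = algebraMap A K (C i j) := by
    intro w hw
    choose C hC using fun i j => hw (b i * b j)
    exact ⟨C, hC⟩
  have key : ∀ w ∈ WW K L b ε, ∀ C : Matrix ι ι A,
      (∀ i j, eL K L b ε (w * algebraMap R L (b i * b j)) = algebraMap A K (C i j)) →
      ∃ s : A, ν * C.det ^ r = δ ^ r * s := by
    intro w hw C hC
    obtain ⟨s, hs⟩ := hg (w ^ r) (Submodule.pow_mem_pow _ hw r)
    refine ⟨Algebra.norm A s, ?_⟩
    apply injA
    have h1 := congrArg (Algebra.norm K) hs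
    rw [map_mul, map_pow, normKL K L b, normKL K L b] at h1
    rw [map_mul, map_pow, map_mul, map_pow, form_det K L b hC, ← h1, hν, hδ]
    ring
  by_contra hndvd
  have hz : ∀ a : A, algebraMap A K a ≠ algebraMap A K ν / algebraMap A K δ ^ r := by
    intro a ha
    apply hndvd
    refine ⟨a, ?_⟩
    apply injA
    rw [map_mul, map_pow, ha, mul_div_cancel₀ _ (pow_ne_zero _ hδK)]
  obtain ⟨P, hP, hP0, hH, hPz⟩ := exists_prime_of_not_mem hz
  have hinj : Function.Injective (algebraMap A R) := by
    rw [injective_iff_map_eq_zero]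
    intro a ha
    obtain ⟨i⟩ := ‹Nonempty ι›
    have h2 : a • b i = 0 := by rw [Algebra.smul_def, ha, zero_mul]
    have h3 := congrArg (fun z => b.repr z i) h2
    simpa using h3
  have hbound : ∃ a : R, a ≠ 0 ∧ ∀ z ∈ WW K L b ε, ∃ r : R,
      algebraMap R L a * z = algebraMap R L r := by
    choose a ha r hr using fun i => exists_smul_mem (A := A) L b (wd K L b hε i)
    refine ⟨algebraMap A R (∏ i, a i), ?_, ?_⟩
    · intro h
      have : ∏ i, a i = 0 := hinj (by rw [h, map_zero])
      exact (Finset.prod_ne_zero_iff.2 (fun i _ => ha i)) this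
    · intro z hz
      choose c hc using fun i => hz (b i)
      rw [WW_expand K L b hε c hc, Finset.mul_sum]
      refine ⟨∑ i, algebraMap A R (c i * ∏ j ∈ Finset.univ.erase i, a j) * r i, ?_⟩
      rw [map_sum]
      apply Finset.sum_congr rfl
      intro i _
      rw [← Finset.mul_prod_erase _ _ (Finset.mem_univ i), map_mul (algebraMap R L),
        ← IsScalarTower.algebraMap_apply A R L, ← hr, ← IsScalarTower.algebraMap_apply A R L,
        map_mul, map_mul]
      ring
  obtain ⟨w, hw, hcyc⟩ := cyc hinj P hP0 hH (WW K L b ε) hbound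
  obtain ⟨C, hC⟩ := hform w hw
  obtain ⟨s, hs⟩ := key w hw C hC
  have h1 : C.det ^ r ∈ P := by
    apply hPz
    refine ⟨s, ?_⟩
    rw [mul_div_assoc', ← map_mul, mul_comm _ ν, hs, map_mul, map_pow,
      mul_div_cancel_left₀ _ (pow_ne_zero _ hδK)]
  have h2 : C.det ∈ P := hP.mem_of_pow_mem _ h1
  choose v hv c hc using fun i => hcyc (wd K L b hε i) (wd_mem K L b hε i)
  have h3 : (Matrix.of (fun i l => b.repr (c i) l)) * C = Matrix.diagonal v := by
    ext i j
    apply injA
    rw [Matrix.mul_apply, map_sum]
    have e1 : ∑ l, algebraMap A K ((Matrix.of (fun i l => b.repr (c i) l)) i l * C l j) =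
        eL K L b ε (algebraMap R L (c i) * w * algebraMap R L (b j)) := by
      conv_rhs => rw [← b.sum_repr (c i), map_sum, Finset.sum_mul, Finset.sum_mul, map_sum]
      apply Finset.sum_congr rfl
      intro l _
      rw [Matrix.of_apply, map_mul, ← hC, Algebra.smul_def, ← eL_smul_A]
      congr 1
      simp only [map_mul, ← IsScalarTower.algebraMap_apply A R L]
      ring
    rw [e1, ← hc, mul_assoc, eL_smul_A, eL_wd, Basis.repr_self, Matrix.diagonal_apply,
      Finsupp.single_apply]
    by_cases hij : i = j
    · subst hij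
      simp
    · rw [if_neg (Ne.symm hij), if_neg hij, map_zero, mul_zero]
  have h4 := congrArg Matrix.det h3
  rw [Matrix.det_mul, Matrix.det_diagonal] at h4
  have h5 : ∏ i, v i ∈ P := by
    rw [← h4]
    exact Ideal.mul_mem_left _ _ h2
  rw [Ideal.IsPrime.prod_mem_iff] at h5
  obtain ⟨i, _, hi⟩ := h5
  exact hv i hi

end disc

end Run7.h889
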