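import Pool.Agent.Run7.h889.OFil

set_option autoImplicit false
set_option linter.unusedSimpArgs false
set_option linter.unusedVariables false
set_option linter.unusedSectionVars false
set_option linter.deprecated false

namespace Run7.h889

open Module nonZeroDivisors

universe u v

section dual

variable {A : Type u} {R : Type v} [CommRing A] [IsDomain A] [CommRing R] [IsDomain R] [Algebra A R]
variable (K : Type u) (L : Type v) [Field K] [Algebra A K] [IsFractionRing A K]
  [Field L] [Algebra R L] [IsFractionRing R L] [Algebra K L] [Algebra A L]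
  [IsScalarTower A R L] [IsScalarTower A K L]
variable {ι : Type} [Fintype ι] [Nonempty ι] (b : Basis ι A R)

include b in
lemma isLocL : IsLocalization (Algebra.algebraMapSubmonoid R A⁰) L := by
  have h1 : Module.Finite A R := Module.Finite.of_basis b
  have h2 : Module.Free A R := Module.Free.of_basis b
  have h3 : Algebra.IsIntegral A R := inferInstance
  have h4 : FaithfulSMul A R := by
    obtain ⟨i⟩ := ‹Nonempty ι›
    rw [faithfulSMul_iff_algebraMap_injective]
    intro x y hxy
    have : x • b i = y • b i := by rw [Algebra.smul_def, Algebra.smul_def, hxy]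
    have h5 := congrArg (fun z => b.repr z i) this
    simpa using h5
  infer_instance

/-- the `K`-basis of `L` -/
noncomputable def bL : Basis ι K L :=
  haveI := isLocL (A := A) L b
  b.localizationLocalization K A⁰ L

lemma bL_apply (i : ι) : bL K L b i = algebraMap R L (b i) := by
  haveI := isLocL (A := A) L b
  exact b.localizationLocalization_apply K A⁰ L i

lemma bL_repr (x : R) (i : ι) :
    (bL K L b).repr (algebraMap R L x) i = algebraMap A K (b.repr x i) := by
  haveI := isLocL (A := A) L b
  exact b.localizationLocalization_repr_algebraMap K A⁰ L x i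

variable (ε : R →ₗ[A] A)

/-- extension of a functional -/
noncomputable def eL : L →ₗ[K] K := (bL K L b).constr K (fun i => algebraMap A K (ε (b i)))

lemma eL_algebraMap (x : R) : eL K L b ε (algebraMap R L x) = algebraMap A K (ε x) := by
  rw [eL, Basis.constr_apply_fintype]
  conv_rhs => rw [← b.sum_repr x]
  rw [map_sum, map_sum]
  apply Finset.sum_congr rfl
  intro i _
  rw [Basis.equivFun_apply, bL_repr, map_smul, smul_eq_mul, smul_eq_mul, map_mul]

include b in
lemma exists_smul_mem (z : L) : ∃ a : A, a ≠ 0 ∧ ∃ r : R, algebraMap A L a * z = algebraMap R L r := by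
  haveI := isLocL (A := A) L b
  obtain ⟨⟨r, s⟩, hs⟩ := IsLocalization.surj (Algebra.algebraMapSubmonoid R A⁰) z
  obtain ⟨a, ha, has⟩ := s.2
  refine ⟨a, nonZeroDivisors.ne_zero ha, r, ?_⟩
  rw [← hs, ← has, mul_comm, ← IsScalarTower.algebraMap_apply A R L]

include K in
lemma algebraMap_AL_ne_zero {a : A} (ha : a ≠ 0) : algebraMap A L a ≠ 0 := by
  rw [IsScalarTower.algebraMap_apply A K L]
  have h1 : algebraMap A K a ≠ 0 := by
    intro h
    exact ha ((IsFractionRing.injective A K) (by rw [h, map_zero]))
  intro h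
  exact h1 ((algebraMap K L).injective (by rw [h, map_zero]))

lemma eL_smul_A (a : A) (z : L) :
    eL K L b ε (algebraMap A L a * z) = algebraMap A K a * eL K L b ε z := by
  rw [IsScalarTower.algebraMap_apply A K L, ← Algebra.smul_def, map_smul, smul_eq_mul]

variable {ε}

lemma eL_nondeg (hε : ∃ x, ε x ≠ 0) {z : L} (hz : ∀ x : R, eL K L b ε (z * algebraMap R L x) = 0) :
    z = 0 := by
  by_contra h
  obtain ⟨x, hx⟩ := hε
  obtain ⟨a, ha, r, hr⟩ := exists_smul_mem (A := A) L b (z⁻¹ * algebraMap R L x)
  have h1 := hz r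
  rw [← hr, mul_left_comm, ← mul_assoc z, mul_inv_cancel₀ h, one_mul, eL_smul_A,
    eL_algebraMap] at h1
  have inj := IsFractionRing.injective A K
  rw [← map_mul] at h1
  have h2 : a * ε x = 0 := inj (by rw [h1, map_zero])
  exact (mul_ne_zero ha hx) h2

lemma eL_riesz (hε : ∃ x, ε x ≠ 0) (f : L →ₗ[K] K) : ∃ g : L, ∀ z, f z = eL K L b ε (g * z) := by
  let Φ : L →ₗ[K] (L →ₗ[K] K) :=
    { toFun := fun g => (eL K L b ε).comp (LinearMap.mulLeft K g)
      map_add' := by
        intro x y
        ext z
        simp [add_mul]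
      map_smul' := by
        intro c x
        ext z
        simp }
  have hinj : Function.Injective Φ := by
    rw [injective_iff_map_eq_zero]
    intro g hg
    apply eL_nondeg K L b hε
    intro x
    exact LinearMap.congr_fun hg (algebraMap R L x)
  have hfin : FiniteDimensional K L := Module.Finite.of_basis (bL K L b)
  have hdim : finrank K L = finrank K (L →ₗ[K] K) := (Subspace.dual_finrank_eq (K := K) (V := L)).symm
  have hsurj := (LinearMap.injective_iff_surjective_of_finrank_eq_finrank hdim).1 hinj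
  obtain ⟨g, hg⟩ := hsurj f
  exact ⟨g, fun z => (LinearMap.congr_fun hg z).symm⟩

lemma eL_riesz_R (hε : ∃ x, ε x ≠ 0) (f : R →ₗ[A] A) :
    ∃ g : L, ∀ x, eL K L b ε (g * algebraMap R L x) = algebraMap A K (f x) := by
  obtain ⟨g, hg⟩ := eL_riesz K L b hε (eL K L b f)
  exact ⟨g, fun x => by rw [← hg, eL_algebraMap]⟩

variable (ε)

/-- `W = {z ∈ L | ε(zR) ⊂ A}` -/
def WW : Submodule R L where
  carrier := {z | ∀ x : R, ∃ c : A, eL K L b ε (z * algebraMap R L x) = algebraMap A K c}
  zero_mem' := fun x => ⟨0, by rw [zero_mul, map_zero, map_zero]⟩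
  add_mem' := by
    intro y z hy hz x
    obtain ⟨c, hc⟩ := hy x
    obtain ⟨c', hc'⟩ := hz x
    exact ⟨c + c', by rw [add_mul, map_add, map_add, hc, hc']⟩
  smul_mem' := by
    intro r z hz x
    obtain ⟨c, hc⟩ := hz (r * x)
    refine ⟨c, ?_⟩
    rw [← hc, Algebra.smul_def, map_mul (algebraMap R L)]
    congr 1
    ring

lemma mem_WW (z : L) : z ∈ WW K L b ε ↔
    ∀ x : R, ∃ c : A, eL K L b ε (z * algebraMap R L x) = algebraMap A K c := Iff.rfl

lemma algebraMap_mem_WW (r : R) : algebraMap R L r ∈ WW K L b ε := by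
  intro x
  exact ⟨ε (r * x), by rw [← map_mul, eL_algebraMap]⟩

lemma one_mem_WW : (1 : L) ∈ WW K L b ε := by
  have := algebraMap_mem_WW K L b ε 1
  rwa [map_one] at this

lemma one_le_WW : 1 ≤ WW K L b ε := by
  intro z hz
  rw [Submodule.mem_one] at hz
  obtain ⟨r, rfl⟩ := hz
  exact algebraMap_mem_WW K L b ε r

variable {ε}

/-- dual basis -/
lemma exists_dual (hε : ∃ x, ε x ≠ 0) : ∃ w : ι → L, ∀ i x,
    eL K L b ε (w i * algebraMap R L x) = algebraMap A K (b.repr x i) := by
  choose w hw using fun i : ι => eL_riesz_R K L b hε (b.coord i)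
  exact ⟨w, fun i x => by rw [hw, Basis.coord_apply]⟩

/-- the dual basis -/
noncomputable def wd (hε : ∃ x, ε x ≠ 0) : ι → L := Classical.choose (exists_dual K L b hε)

lemma eL_wd (hε : ∃ x, ε x ≠ 0) (i : ι) (x : R) :
    eL K L b ε (wd K L b hε i * algebraMap R L x) = algebraMap A K (b.repr x i) :=
  Classical.choose_spec (exists_dual K L b hε) i x

lemma wd_mem (hε : ∃ x, ε x ≠ 0) (i : ι) : wd K L b hε i ∈ WW K L b ε :=
  fun x => ⟨b.repr x i, eL_wd K L b hε i x⟩

/-- expansion of an element of `W` in the dual basis -/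
lemma WW_expand (hε : ∃ x, ε x ≠ 0) {z : L} (c : ι → A)
    (hc : ∀ i, eL K L b ε (z * algebraMap R L (b i)) = algebraMap A K (c i)) :
    z = ∑ i, algebraMap A L (c i) * wd K L b hε i := by
  classical
  rw [← sub_eq_zero]
  apply eL_nondeg K L b hε
  intro x
  rw [← b.sum_repr x, map_sum, Finset.mul_sum, map_sum]
  apply Finset.sum_eq_zero
  intro j _
  rw [Algebra.smul_def, map_mul (algebraMap R L), ← IsScalarTower.algebraMap_apply A R L,
    mul_left_comm, eL_smul_A, sub_mul, map_sub, hc, Finset.sum_mul, map_sum]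
  have : ∑ i, eL K L b ε (algebraMap A L (c i) * wd K L b hε i * algebraMap R L (b j)) =
      algebraMap A K (c j) := by
    rw [Finset.sum_eq_single j]
    · rw [mul_assoc, eL_smul_A, eL_wd, b.repr_self, Finsupp.single_eq_same, map_one, mul_one]
    · intro i _ hi
      rw [mul_assoc, eL_smul_A, eL_wd, b.repr_self, Finsupp.single_apply, if_neg (Ne.symm hi),
        map_zero, mul_zero]
    · intro h
      exact absurd (Finset.mem_univ j) h
  rw [this, sub_self, mul_zero]

lemma WW_eq_span (hε : ∃ x, ε x ≠ 0) :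
    WW K L b ε = Submodule.span R (Set.range (wd K L b hε)) := by
  apply le_antisymm
  · intro z hz
    choose c hc using fun i => hz (b i)
    rw [WW_expand K L b hε c hc]
    apply Submodule.sum_mem
    intro i _
    rw [IsScalarTower.algebraMap_apply A R L, ← Algebra.smul_def]
    exact Submodule.smul_mem _ _ (Submodule.subset_span ⟨i, rfl⟩)
  · rw [Submodule.span_le]
    rintro _ ⟨i, rfl⟩
    exact wd_mem K L b hε i

lemma WW_fg (hε : ∃ x, ε x ≠ 0) : (WW K L b ε).FG := by
  rw [WW_eq_span K L b hε]
  exact Submodule.fg_span (Set.finite_range _)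

/-- the dual of `W` is `R` -/
lemma mem_R_of_WW (hε : ∃ x, ε x ≠ 0) {z : L}
    (h : ∀ w ∈ WW K L b ε, ∃ c : A, eL K L b ε (z * w) = algebraMap A K c) :
    ∃ r : R, z = algebraMap R L r := by
  choose c hc using fun i => h _ (wd_mem K L b hε i)
  refine ⟨∑ i, c i • b i, ?_⟩
  obtain ⟨a, ha, r, hr⟩ := exists_smul_mem (A := A) L b z
  have h1 : ∀ i, b.repr r i = a * c i := by
    intro i
    have h2 := eL_wd K L b hε i r
    rw [← hr, mul_left_comm, eL_smul_A, mul_comm _ z, hc, ← map_mul] at h2
    exact (IsFractionRing.injective A K h2).symm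
  have h3 : algebraMap A L a * z = algebraMap A L a * algebraMap R L (∑ i, c i • b i) := by
    rw [hr, ← b.sum_repr r, IsScalarTower.algebraMap_apply A R L, ← map_mul, Finset.mul_sum]
    congr 1
    apply Finset.sum_congr rfl
    intro i _
    rw [h1, mul_smul, Algebra.smul_def a]
  exact mul_left_cancel₀ (algebraMap_AL_ne_zero K L ha) h3

end dual

end Run7.h889
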