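import Pool.Agent.Run7.h889.DualG

set_option autoImplicit false
set_option linter.unusedSimpArgs false
set_option linter.unusedVariables false
set_option linter.unusedSectionVars false
set_option linter.deprecated false

namespace Run7.h889

open Module nonZeroDivisors

universe u v

section dual

variable {A : Type u} {R : Type v} [CommRing A] [IsDomain A] [CommRing R] [IsDomain R] [Algebra A R]
variable (K : Type u) (L : Type v) [Field K] [Algebra A K] [IsFractionRing A K]
  [Field L] [Algebra R L] [IsFractionRing R L] [Algebra K L] [Algebra A L]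
  [IsScalarTower A R L] [IsScalarTower A K L]
variable {ι : Type} [Fintype ι] [Nonempty ι] (b : Basis ι A R) {ε : R →ₗ[A] A}

/-- The element `g` attached to a `q^{-1}`-linear map. -/
theorem exists_g (hε : ∃ x, ε x ≠ 0) {q : ℕ} (hq : 0 < q) (T : FTr q A)
    (φ : R →+ R) (hφ : ∀ r x, φ (r ^ q * x) = r * φ x) :
    ∃ g : L, ∀ w ∈ WW K L b ε, ∀ x : R, ∃ c : A,
      eL K L b ε (g * w ^ q * algebraMap R L x) = algebraMap A K c ∧
      eL K L b ε (w * algebraMap R L (φ x)) = algebraMap A K (T.Tr c) := by
  have inj := IsFractionRing.injective A K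
  have injL := IsFractionRing.injective R L
  -- uniqueness
  have uniq : ∀ c c' : A, (∀ a, T.Tr (a * c) = T.Tr (a * c')) → c = c' := by
    intro c c' h
    rw [← sub_eq_zero]
    apply T.eq_zero hq
    intro a
    rw [mul_sub, map_sub, h, sub_self]
  -- for each `w` a functional `χ_w`
  have step : ∀ w ∈ WW K L b ε, ∃ c : R → A, (∀ x,
      eL K L b ε (w * algebraMap R L (φ x)) = algebraMap A K (T.Tr (c x))) ∧
      (∀ a x, c (a • x) = a * c x) ∧ (∀ x y, c (x + y) = c x + c y) := by
    intro w hw
    choose e he using fun x => hw (φ x)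
    have e_add : ∀ x y, e (x + y) = e x + e y := by
      intro x y
      apply inj
      rw [← he, map_add, map_add, mul_add, map_add, he, he, map_add]
    have e_mul : ∀ (a : A) x, e ((algebraMap A R a) ^ q * x) = a * e x := by
      intro a x
      apply inj
      rw [← he, hφ, map_mul (algebraMap R L), ← IsScalarTower.algebraMap_apply A R L,
        mul_left_comm, eL_smul_A, he, map_mul]
    have e_zero : e 0 = 0 := by
      have := e_add 0 0
      rw [add_zero] at this
      exact left_eq_add.1 this
    have hrep : ∀ x : R, ∃ c : A, ∀ a : A, e (a • x) = T.Tr (c * a) := by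
      intro x
      let χ : A →+ A := { toFun := fun a => e (a • x)
                          map_zero' := by simp only [zero_smul, e_zero]
                          map_add' := fun a a' => by simp only [add_smul, e_add] }
      refine T.exists_rep χ ?_
      intro a f
      change e ((a ^ q * f) • x) = a * e (f • x)
      rw [mul_smul, Algebra.smul_def (a ^ q), map_pow, e_mul]
    choose c hc using hrep
    refine ⟨c, ?_, ?_, ?_⟩
    · intro x
      have := hc x 1
      rw [one_smul, mul_one] at this
      rw [he, this]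
    · intro a x
      apply uniq
      intro a'
      rw [mul_comm a', ← hc, smul_smul, hc]
      congr 1
      ring
    · intro x y
      apply uniq
      intro a
      rw [mul_comm a, ← hc, smul_add, e_add, hc, hc, ← map_add]
      congr 1
      ring
  obtain ⟨c1, h1, h1s, h1a⟩ := step 1 (one_mem_WW K L b ε)
  let χ : R →ₗ[A] A := { toFun := c1, map_add' := h1a, map_smul' := h1s }
  obtain ⟨g, hg⟩ := eL_riesz_R K L b hε χ
  refine ⟨g, fun w hw x => ?_⟩
  obtain ⟨c, h, hs, ha⟩ := step w hw
  refine ⟨c x, ?_, h x⟩
  obtain ⟨a, ha0, r, hr⟩ := exists_smul_mem (A := A) L b w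
  -- `a ^ q * c x = c1 (r ^ q * x)`
  have key : a ^ q * c x = c1 (r ^ q * x) := by
    apply uniq
    intro a'
    have e1 : T.Tr (a' * (a ^ q * c x)) = a * T.Tr (c (a' • x)) := by
      rw [hs, ← T.Tr_pow_mul]
      congr 1
      ring
    have e2 : T.Tr (a' * c1 (r ^ q * x)) = T.Tr (c1 (a' • (r ^ q * x))) := by rw [h1s]
    rw [e1, e2]
    apply inj
    rw [map_mul, ← h, ← h1, one_mul]
    have e3 : a' • (r ^ q * x) = r ^ q * (a' • x) := by
      rw [Algebra.smul_def, Algebra.smul_def]
      ring
    rw [e3, hφ, map_mul (algebraMap R L), ← hr, mul_assoc, eL_smul_A]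
  have e4 : algebraMap A K (a ^ q) * eL K L b ε (g * w ^ q * algebraMap R L x) =
      algebraMap A K (a ^ q) * algebraMap A K (c x) := by
    rw [← eL_smul_A, ← map_mul (algebraMap A K), key]
    have e5 : algebraMap A L (a ^ q) * (g * w ^ q * algebraMap R L x) =
        g * algebraMap R L (r ^ q * x) := by
      rw [map_mul (algebraMap R L), map_pow (algebraMap R L), ← hr, map_pow]
      ring
    rw [e5, hg]
    rfl
  have ha1 : algebraMap A K (a ^ q) ≠ 0 := by
    intro h
    exact (pow_ne_zero q ha0) (inj (by rw [h, map_zero]))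
  exact mul_left_cancel₀ ha1 e4

variable [IsIntegrallyClosed R]

/-- Pigeonhole for powers of `W`. -/
lemma g_mul_mem (hε : ∃ x, ε x ≠ 0) {q : ℕ} {g : L}
    (hg : ∀ w ∈ WW K L b ε, g * w ^ q ∈ WW K L b ε) (n : ℕ)
    (hn : Fintype.card ι * (q - 1) < n) (hqn : q ≤ n) :
    ∀ z ∈ (WW K L b ε) ^ n, g * z ∈ (WW K L b ε) ^ (n - q + 1) := by
  classical
  intro z hz
  have hW := WW_eq_span K L b hε
  rw [hW, Submodule.span_pow] at hz
  induction hz using Submodule.span_induction with
  | mem z hz =>
    rw [Set.mem_pow] at hz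
    obtain ⟨f, rfl⟩ := hz
    rw [List.prod_ofFn]
    choose j hj using fun i => (f i).2
    obtain ⟨y, -, hy⟩ := Finset.exists_lt_card_fiber_of_mul_lt_card_of_maps_to
      (s := (Finset.univ : Finset (Fin n))) (t := (Finset.univ : Finset ι)) (f := j)
      (fun _ _ => Finset.mem_univ _) (n := q - 1) (by simpa using hn)
    obtain ⟨s, hs, hsc⟩ := Finset.exists_subset_card_eq (s := Finset.univ.filter fun i => j i = y)
      (n := q) (by omega)
    rw [← Finset.prod_sdiff (Finset.subset_univ s)]
    have e1 : ∏ i ∈ s, (f i : L) = wd K L b hε y ^ q := by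
      rw [← hsc]
      apply Finset.prod_eq_pow_card
      intro i hi
      have := hs hi
      rw [Finset.mem_filter] at this
      rw [← hj, this.2]
    rw [e1, mul_comm (∏ i ∈ _, _), ← mul_assoc, pow_succ']
    apply Submodule.mul_mem_mul (hg _ (wd_mem K L b hε y))
    have hcard : (Finset.univ \ s).card = n - q := by
      rw [Finset.card_sdiff_of_subset (Finset.subset_univ s), hsc, Finset.card_univ, Fintype.card_fin]
    rw [← hcard]
    have key : ∀ t : Finset (Fin n), ∏ i ∈ t, (f i : L) ∈ (WW K L b ε) ^ t.card := by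
      intro t
      induction t using Finset.induction_on with
      | empty =>
        rw [Finset.prod_empty, Finset.card_empty, pow_zero]
        exact Submodule.one_le.1 le_rfl
      | insert a t ha ih =>
        rw [Finset.prod_insert ha, Finset.card_insert_of_notMem ha, pow_succ']
        apply Submodule.mul_mem_mul _ ih
        rw [← hj]
        exact wd_mem K L b hε _
    exact key _
  | zero => rw [mul_zero]; exact Submodule.zero_mem _
  | add x y _ _ hx hy => rw [mul_add]; exact Submodule.add_mem _ hx hy
  | smul r x _ hx => rw [mul_smul_comm]; exact Submodule.smul_mem _ _ hx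

/-- `g W^{q-1} ⊂ R`. -/
theorem g_pow_mem (hε : ∃ x, ε x ≠ 0) {q : ℕ} (hq : 1 ≤ q) {g : L}
    (hg : ∀ w ∈ WW K L b ε, g * w ^ q ∈ WW K L b ε) (z : L) (hz : z ∈ (WW K L b ε) ^ (q - 1)) :
    ∃ r : R, g * z = algebraMap R L r := by
  classical
  have hcard : 0 < Fintype.card ι := Fintype.card_pos
  set e := Fintype.card ι with he
  have hN : (e - 1) * (q - 1) + (q - 1) = e * (q - 1) := by
    obtain ⟨e', he'⟩ : ∃ e', e = e' + 1 := ⟨e - 1, by omega⟩
    rw [he', Nat.add_sub_cancel]
    ring
  have hint : IsIntegral R (g * z) := by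
    apply isIntegral_of_smul_mem_submodule (M := L) ((WW K L b ε) ^ ((e - 1) * (q - 1) + 1))
    · intro h
      have h1 : (1 : L) ∈ (WW K L b ε) ^ ((e - 1) * (q - 1) + 1) := by
        have := Submodule.pow_mem_pow (WW K L b ε) (one_mem_WW K L b ε) ((e - 1) * (q - 1) + 1)
        rwa [one_pow] at this
      rw [h, Submodule.mem_bot] at h1
      exact one_ne_zero h1
    · exact (WW_fg K L b hε).pow _
    · intro n hn
      rw [smul_eq_mul, mul_assoc]
      have h1 : z * n ∈ (WW K L b ε) ^ (e * (q - 1) + 1) := by
        have := Submodule.mul_mem_mul hz hn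
        rw [← pow_add] at this
        have e1 : q - 1 + ((e - 1) * (q - 1) + 1) = e * (q - 1) + 1 := by omega
        rwa [e1] at this
      have h2 := g_mul_mem K L b hε hg (e * (q - 1) + 1) (by rw [← he]; omega) (by
        have : 1 * (q - 1) ≤ e * (q - 1) := Nat.mul_le_mul_right _ hcard
        omega) _ h1
      have e2 : e * (q - 1) + 1 - q + 1 = (e - 1) * (q - 1) + 1 := by
        have : 1 * (q - 1) ≤ e * (q - 1) := Nat.mul_le_mul_right _ hcard
        omega
      rwa [e2] at h2
  obtain ⟨r, hr⟩ := IsIntegrallyClosed.isIntegral_iff.1 hint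
  exact ⟨r, hr.symm⟩

end dual

end Run7.h889
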