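import Pool.Agent.Run7.h889.DualH
import Pool.Agent.Run7.h889.Defs
import Pool.Agent.Run7.h889.QG

set_option autoImplicit false
set_option linter.unusedSimpArgs false
set_option linter.unusedVariables false
set_option linter.unusedSectionVars false
set_option linter.deprecated false

namespace Run7.h889

open Module nonZeroDivisors

universe u v

section dual

variable {A : Type u} {R : Type v} [CommRing A] [IsDomain A] [CommRing R] [IsDomain R] [Algebra A R]
variable (K : Type u) (L : Type v) [Field K] [Algebra A K] [IsFractionRing A K]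
  [Field L] [Algebra R L] [IsFractionRing R L] [Algebra K L] [Algebra A L]
  [IsScalarTower A R L] [IsScalarTower A K L]
variable {ι : Type} [Fintype ι] [Nonempty ι] (b : Basis ι A R) {ε : R →ₗ[A] A}
variable (hε : ∃ x, ε x ≠ 0) {p e : ℕ} [hp : Fact p.Prime] (T : FTr (p ^ e) A)

/-- the relation between `φ` and `g` -/
def RelG (ε : R →ₗ[A] A) {q : ℕ} (T : FTr q A) (φ : R →+ R) (g : L) : Prop :=
  ∀ w ∈ WW K L b ε, ∀ x : R, ∃ c : A,
      eL K L b ε (g * w ^ q * algebraMap R L x) = algebraMap A K c ∧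
      eL K L b ε (w * algebraMap R L (φ x)) = algebraMap A K (T.Tr c)

include hε in
omit hp in
lemma RelG_unique {q : ℕ} (hq : 0 < q) (T : FTr q A) {φ : R →+ R} {g g' : L}
    (h : RelG K L b ε T φ g) (h' : RelG K L b ε T φ g') : g = g' := by
  have inj := IsFractionRing.injective A K
  rw [← sub_eq_zero]
  apply eL_nondeg K L b hε
  intro x
  obtain ⟨c, hc, hc'⟩ := h 1 (one_mem_WW K L b ε) x
  obtain ⟨d, hd, hd'⟩ := h' 1 (one_mem_WW K L b ε) x
  rw [one_pow, mul_one] at hc hd
  rw [sub_mul, map_sub, hc, hd, ← map_sub]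
  have : c - d = 0 := by
    apply T.eq_zero hq
    intro a
    obtain ⟨c1, h1, h1'⟩ := h 1 (one_mem_WW K L b ε) (a • x)
    obtain ⟨d1, h2, h2'⟩ := h' 1 (one_mem_WW K L b ε) (a • x)
    rw [one_pow, mul_one, Algebra.smul_def, map_mul (algebraMap R L),
      ← IsScalarTower.algebraMap_apply A R L, mul_left_comm, eL_smul_A] at h1 h2
    rw [hc, ← map_mul] at h1
    rw [hd, ← map_mul] at h2
    have e1 := inj h1
    have e2 := inj h2
    have e3 : T.Tr c1 = T.Tr d1 := by
      apply inj
      rw [← h1', ← h2']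
    rw [mul_sub, map_sub, e1, e2, e3, sub_self]
  rw [this, map_zero]

variable (p e)

/-- `φ ↦ g` -/
noncomputable def gLfun (φ : FHom p e R) : L :=
  Classical.choose (exists_g K L b hε (q_pos p e) T φ.1 φ.2)

lemma gLfun_spec (φ : FHom p e R) : RelG K L b ε T φ.1 (gLfun K L b hε p e T φ) :=
  Classical.choose_spec (exists_g K L b hε (q_pos p e) T φ.1 φ.2)

/-- `φ ↦ g` as a linear map -/
noncomputable def gL : FHom p e R →ₗ[R] L where
  toFun := gLfun K L b hε p e T
  map_add' := by
    intro φ ψ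
    apply RelG_unique K L b hε (q_pos p e) T (gLfun_spec K L b hε p e T (φ + ψ))
    intro w hw x
    obtain ⟨c, h1, h2⟩ := gLfun_spec K L b hε p e T φ w hw x
    obtain ⟨d, h3, h4⟩ := gLfun_spec K L b hε p e T ψ w hw x
    refine ⟨c + d, ?_, ?_⟩
    · rw [add_mul, add_mul, map_add, h1, h3, map_add]
    · change eL K L b ε (w * algebraMap R L (φ.1 x + ψ.1 x)) = _
      rw [map_add (algebraMap R L), mul_add, map_add, h2, h4, map_add, map_add]
  map_smul' := by
    intro r φ
    apply RelG_unique K L b hε (q_pos p e) T (gLfun_spec K L b hε p e T (r • φ))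
    intro w hw x
    obtain ⟨c, h1, h2⟩ := gLfun_spec K L b hε p e T φ w hw (r * x)
    refine ⟨c, ?_, ?_⟩
    · rw [← h1, RingHom.id_apply, Algebra.smul_def, map_mul (algebraMap R L)]
      congr 1
      ring
    · rw [← h2, FHom_smul_apply]

lemma gL_spec (φ : FHom p e R) : RelG K L b ε T φ.1 (gL K L b hε p e T φ) :=
  gLfun_spec K L b hε p e T φ

lemma gL_apply (φ : FHom p e R) (x : R) : ∃ c : A,
    eL K L b ε (gL K L b hε p e T φ * algebraMap R L x) = algebraMap A K c ∧
      ε (φ.1 x) = T.Tr c := by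
  obtain ⟨c, h1, h2⟩ := gL_spec K L b hε p e T φ 1 (one_mem_WW K L b ε) x
  rw [one_pow, mul_one] at h1
  rw [one_mul, eL_algebraMap] at h2
  exact ⟨c, h1, IsFractionRing.injective A K h2⟩

lemma gL_inj : Function.Injective (gL K L b hε p e T) := by
  rw [injective_iff_map_eq_zero]
  intro φ hφ
  apply FHom_ext
  intro x
  change φ.1 x = 0
  have injA := IsFractionRing.injective A K
  have injL := IsFractionRing.injective R L
  apply injL
  rw [map_zero]
  apply eL_nondeg K L b hε
  intro y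
  obtain ⟨c, h1, h2⟩ := gL_apply K L b hε p e T φ (y ^ p ^ e * x)
  rw [φ.2, mul_comm] at h2
  rw [hφ, zero_mul, map_zero] at h1
  have h3 : c = 0 := injA (by rw [← h1, map_zero])
  rw [h3, map_zero] at h2
  rw [← map_mul, eL_algebraMap, h2, map_zero]

lemma gL_mul_pow_mem (φ : FHom p e R) (w : L) (hw : w ∈ WW K L b ε) :
    gL K L b hε p e T φ * w ^ p ^ e ∈ WW K L b ε := by
  intro x
  obtain ⟨c, h1, _⟩ := gL_spec K L b hε p e T φ w hw x
  exact ⟨c, h1⟩

lemma gL_mem [IsIntegrallyClosed R] (φ : FHom p e R) (z : L)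
    (hz : z ∈ (WW K L b ε) ^ (p ^ e - 1)) :
    ∃ r : R, gL K L b hε p e T φ * z = algebraMap R L r :=
  g_pow_mem K L b hε (q_pos p e) (fun w hw => gL_mul_pow_mem K L b hε p e T φ w hw) z hz

/-- every `g` with `g W^{q-1} ⊂ R` comes from some `φ` -/
lemma gL_surj [CharP R p] (g : L)
    (hg : ∀ z ∈ (WW K L b ε) ^ (p ^ e - 1), ∃ r : R, g * z = algebraMap R L r) :
    ∃ φ : FHom p e R, gL K L b hε p e T φ = g := by
  classical
  have inj := IsFractionRing.injective A K
  have injL := IsFractionRing.injective R L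
  have hcharL : CharP L p := charP_of_injective_algebraMap injL p
  have hq := q_pos p e
  -- `c w x`
  have hc : ∀ w : WW K L b ε, ∀ x : R, ∃ c : A,
      eL K L b ε (g * w.1 ^ p ^ e * algebraMap R L x) = algebraMap A K c := by
    intro w x
    obtain ⟨r, hr⟩ := hg _ (Submodule.pow_mem_pow _ w.2 (p ^ e - 1))
    obtain ⟨c, hc⟩ := w.2 (r * x)
    refine ⟨c, ?_⟩
    rw [← hc, map_mul (algebraMap R L), ← hr]
    congr 1
    have : w.1 ^ p ^ e = w.1 ^ (p ^ e - 1) * w.1 := by
      rw [← pow_succ]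
      congr 1
      omega
    rw [this]
    ring
  choose c hc using hc
  have cadd : ∀ w x y, c w (x + y) = c w x + c w y := by
    intro w x y
    apply inj
    rw [← hc, map_add (algebraMap R L), mul_add, map_add, hc, hc, map_add]
  let wi : ι → WW K L b ε := fun i => ⟨wd K L b hε i, wd_mem K L b hε i⟩
  let f : R → R := fun x => ∑ i, T.Tr (c (wi i) x) • b i
  have fadd : ∀ x y, f (x + y) = f x + f y := by
    intro x y
    simp only [f, cadd, map_add, add_smul, Finset.sum_add_distrib]
  -- key property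
  have key : ∀ (w : WW K L b ε) (x : R),
      eL K L b ε (w.1 * algebraMap R L (f x)) = algebraMap A K (T.Tr (c w x)) := by
    intro w x
    choose a ha using fun i => w.2 (b i)
    have hw := WW_expand K L b hε a ha
    -- left hand side
    have e1 : eL K L b ε (w.1 * algebraMap R L (f x)) =
        algebraMap A K (∑ i, a i * T.Tr (c (wi i) x)) := by
      rw [map_sum (algebraMap R L), Finset.mul_sum, map_sum, map_sum]
      apply Finset.sum_congr rfl
      intro i _
      rw [Algebra.smul_def, map_mul (algebraMap R L), ← IsScalarTower.algebraMap_apply A R L,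
        mul_left_comm, eL_smul_A, ha, ← map_mul, mul_comm]
    have e2 : c w x = ∑ i, (a i) ^ p ^ e * c (wi i) x := by
      apply inj
      rw [← hc, map_sum]
      have e3 : w.1 ^ p ^ e = ∑ i, algebraMap A L (a i ^ p ^ e) * (wd K L b hε i) ^ p ^ e := by
        rw [hw, sum_pow_char_pow]
        apply Finset.sum_congr rfl
        intro i _
        rw [mul_pow, map_pow]
      rw [e3, Finset.mul_sum, Finset.sum_mul, map_sum]
      apply Finset.sum_congr rfl
      intro i _
      rw [map_mul (algebraMap A K), ← hc (wi i) x, ← eL_smul_A]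
      congr 1
      ring
    rw [e1, e2, map_sum T.Tr]
    congr 1
    apply Finset.sum_congr rfl
    intro i _
    rw [T.Tr_pow_mul]
  have fmul : ∀ r x, f (r ^ p ^ e * x) = r * f x := by
    intro r x
    apply injL
    rw [← sub_eq_zero]
    apply eL_nondeg K L b hε
    intro y
    rw [sub_mul, map_sub]
    have h1 := key ⟨algebraMap R L y, algebraMap_mem_WW K L b ε y⟩ (r ^ p ^ e * x)
    have h2 := key ⟨algebraMap R L (r * y), algebraMap_mem_WW K L b ε _⟩ x
    have h3 : c ⟨algebraMap R L y, algebraMap_mem_WW K L b ε y⟩ (r ^ p ^ e * x) =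
        c ⟨algebraMap R L (r * y), algebraMap_mem_WW K L b ε _⟩ x := by
      apply inj
      rw [← hc, ← hc]
      congr 1
      simp only [map_mul, map_pow]
      ring
    rw [h3, ← h2] at h1
    simp only at h1
    rw [mul_comm, h1, map_mul (algebraMap R L), map_mul (algebraMap R L), sub_eq_zero]
    congr 1
    ring
  have f0 : f 0 = 0 := by
    have := fadd 0 0
    rw [add_zero] at this
    exact left_eq_add.1 this
  let φ : FHom p e R := ⟨{ toFun := f, map_zero' := f0, map_add' := fadd }, fmul⟩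
  refine ⟨φ, ?_⟩
  apply RelG_unique K L b hε hq T (gL_spec K L b hε p e T φ)
  intro w hw x
  exact ⟨c ⟨w, hw⟩ x, hc ⟨w, hw⟩ x, key ⟨w, hw⟩ x⟩

include hε in
/-- **Criterion for the `ℚ`-Gorenstein property.** -/
theorem qgor_criterion [IsIntegrallyClosed R] [CharP R p] (T : FTr (p ^ 1) A) (n : ℕ) (hn : 1 ≤ n)
    (v : L) (hv : v ≠ 0)
    (hg0 : ∃ g : L, g ≠ 0 ∧ ∀ z ∈ (WW K L b ε) ^ (p ^ 1 - 1), ∃ r : R, g * z = algebraMap R L r)
    (h1 : ∀ g : Fin n → L, (∀ i, ∀ z ∈ (WW K L b ε) ^ (p ^ 1 - 1), ∃ r : R,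
      g i * z = algebraMap R L r) → ∃ r : R, v * ∏ i, g i = algebraMap R L r)
    (h2 : ∀ h : L, (∀ g : Fin n → L, (∀ i, ∀ z ∈ (WW K L b ε) ^ (p ^ 1 - 1), ∃ r : R,
      g i * z = algebraMap R L r) → ∃ r : R, h * ∏ i, g i = algebraMap R L r) →
      ∃ r : R, h = v * algebraMap R L r) : IsQGorenstein p R := by
  obtain ⟨g0, hg0, hg0'⟩ := hg0
  obtain ⟨φ0, hφ0⟩ := gL_surj K L b hε p 1 T g0 hg0'
  refine ⟨n, hn, dual_tensor_equiv (gL K L b hε p 1 T) (gL_inj K L b hε p 1 T) φ0
    (by rw [hφ0]; exact hg0) n v hv ?_ ?_⟩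
  · intro m
    exact h1 _ (fun i => gL_mem K L b hε p 1 T (m i))
  · intro h hh
    apply h2
    intro g hg
    choose m hm using fun i => gL_surj K L b hε p 1 T (g i) (hg i)
    obtain ⟨r, hr⟩ := hh m
    refine ⟨r, ?_⟩
    rw [← hr]
    simp only [hm]

end dual

end Run7.h889
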