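import Pool.Agent.Run7.h889.Dig

set_option autoImplicit false
set_option linter.unusedSimpArgs false
set_option linter.unusedVariables false
set_option linter.unusedSectionVars false
set_option linter.deprecated false

namespace Run7.h889

open MvPowerSeries

universe u

/-- A trace for the `q`-th power map: a `q^{-1}`-linear map `Tr` together with dual bases. -/
structure FTr (q : ℕ) (A : Type u) [CommRing A] where
  Tr : A →+ A
  Tr_pow_mul : ∀ a f, Tr (a ^ q * f) = a * Tr f
  ι : Type
  fin : Fintype ι
  b : ι → A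
  b' : ι → A
  sum_eq : ∀ u, u = ∑ l, (Tr (b' l * u)) ^ q * b l

attribute [instance] FTr.fin

namespace FTr

variable {q : ℕ} {A : Type u} [CommRing A] (T : FTr q A)

lemma eq_zero (hq : 0 < q) {c : A} (h : ∀ a, T.Tr (a * c) = 0) : c = 0 := by
  rw [T.sum_eq c]
  apply Finset.sum_eq_zero
  intro l _
  rw [h, zero_pow hq.ne', zero_mul]

/-- Every `q^{-1}`-linear map is `a ↦ Tr (c a)`. -/
lemma exists_rep (χ : A →+ A) (hχ : ∀ a f, χ (a ^ q * f) = a * χ f) :
    ∃ c, ∀ a, χ a = T.Tr (c * a) := by
  refine ⟨∑ l, χ (T.b l) ^ q * T.b' l, fun a => ?_⟩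
  conv_lhs => rw [T.sum_eq a]
  rw [map_sum, Finset.sum_mul, map_sum]
  apply Finset.sum_congr rfl
  intro l _
  rw [hχ, mul_assoc, T.Tr_pow_mul]
  ring

end FTr

section lift

variable {p E : ℕ} [hp : Fact p.Prime] {k : Type u} [Field k] [CharP k p] {d : ℕ}

/-- the lifted digit operator -/
noncomputable def digT (τ : k →+ k) (c : k) (v : Fin d →₀ ℕ) :
    MvPowerSeries (Fin d) k →+ MvPowerSeries (Fin d) k where
  toFun f := fun w => τ (c * coeff (p ^ E • w + v) f)
  map_zero' := by
    ext w
    change τ (c * coeff _ 0) = coeff w 0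
    rw [coeff_zero, mul_zero, map_zero, coeff_zero]
  map_add' := by
    intro f g
    ext w
    change τ (c * coeff _ (f + g)) = τ (c * coeff _ f) + τ (c * coeff _ g)
    rw [map_add, mul_add, map_add]

omit hp [CharP k p] in
lemma coeff_digT (τ : k →+ k) (c : k) (v w : Fin d →₀ ℕ) (f : MvPowerSeries (Fin d) k) :
    coeff w (digT (p := p) (E := E) τ c v f) = τ (c * coeff (p ^ E • w + v) f) := rfl

lemma digT_pow_mul (τ : k →+ k) (hτ : ∀ a f, τ (a ^ p ^ E * f) = a * τ f) (c : k)
    (v : Fin d →₀ ℕ) (hv : ∀ i, v i < p ^ E) (a f : MvPowerSeries (Fin d) k) :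
    digT (p := p) (E := E) τ c v (a ^ p ^ E * f) = a * digT (p := p) (E := E) τ c v f := by
  classical
  ext w
  rw [coeff_digT, coeff_mul, coeff_mul, Finset.mul_sum, map_sum]
  symm
  apply Finset.sum_of_injOn (fun x => (p ^ E • x.1, p ^ E • x.2 + v))
  · intro x _ y _ hxy
    simp only [Prod.mk.injEq, add_left_inj] at hxy
    have hq := (q_pos p E).ne'
    exact Prod.ext ((nsmul_right_inj hq).1 hxy.1) ((nsmul_right_inj hq).1 hxy.2)
  · intro x hx
    simp only [Finset.mem_coe, Finset.HasAntidiagonal.mem_antidiagonal] at hx ⊢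
    rw [← add_assoc, ← smul_add, hx]
  · intro x hx hx'
    rw [Finset.HasAntidiagonal.mem_antidiagonal] at hx
    by_cases h : ∀ i, p ^ E ∣ x.1 i
    · exfalso
      apply hx'
      obtain ⟨s, hs⟩ : ∃ s : Fin d →₀ ℕ, x.1 = p ^ E • s := by
        refine ⟨x.1.mapRange (fun a => a / p ^ E) (by simp), ?_⟩
        ext i
        simp [Nat.mul_div_cancel' (h i)]
      have hle : s ≤ w := by
        intro i
        have h1 := DFunLike.congr_fun hx i
        rw [hs] at h1
        simp only [Finsupp.add_apply, Finsupp.smul_apply, smul_eq_mul] at h1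
        have h2 := hv i
        by_contra hc
        push Not at hc
        have : p ^ E * (w i + 1) ≤ p ^ E * s i := Nat.mul_le_mul_left _ hc
        rw [mul_add] at this
        omega
      refine ⟨(s, w - s), ?_, ?_⟩
      · rw [Finset.mem_coe, Finset.HasAntidiagonal.mem_antidiagonal]
        exact add_tsub_cancel_of_le hle
      · simp only
        apply Prod.ext
        · exact hs.symm
        · have h3 : p ^ E • s + (p ^ E • (w - s) + v) = p ^ E • s + x.2 := by
            rw [← add_assoc, ← smul_add, add_tsub_cancel_of_le hle, ← hs, hx]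
          exact add_left_cancel h3
    · push Not at h
      obtain ⟨i, hi⟩ := h
      rw [coeff_pow_of_not_dvd p E a hi, zero_mul, mul_zero, map_zero]
  · intro x hx
    simp only
    rw [coeff_pow_smul, coeff_digT, mul_left_comm, hτ]

/-- Lifting a trace from `k` to the power series ring. -/
noncomputable def FTr.lift (T : FTr (p ^ E) k) (d : ℕ) :
    FTr (p ^ E) (MvPowerSeries (Fin d) k) where
  Tr := digT (p := p) (E := E) T.Tr 1 (topv p E d)
  Tr_pow_mul := by
    intro a f
    apply digT_pow_mul T.Tr T.Tr_pow_mul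
    intro i
    have := q_pos p E
    rw [topv_apply]
    omega
  ι := T.ι × (Fin d → Fin (p ^ E))
  fin := inferInstance
  b := fun x => monomial (bx p E x.2) (T.b x.1)
  b' := fun x => monomial (cmp p E x.2) (T.b' x.1)
  sum_eq := by
    classical
    intro f
    have key : ∀ (l : T.ι) (v : Fin d → Fin (p ^ E)) (w : Fin d →₀ ℕ),
        coeff w (digT (p := p) (E := E) T.Tr 1 (topv p E d)
          (monomial (cmp p E v) (T.b' l) * f)) =
          T.Tr (T.b' l * coeff (p ^ E • w + bx p E v) f) := by
      intro l v w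
      have h1 : p ^ E • w + topv p E d = cmp p E v + (p ^ E • w + bx p E v) := by
        rw [← cmp_add p E v]
        abel
      rw [coeff_digT, one_mul, h1, coeff_add_monomial_mul]
    ext u
    rw [map_sum]
    have hq := q_pos p E
    let v0 : Fin d → Fin (p ^ E) := fun i => ⟨u i % p ^ E, Nat.mod_lt _ hq⟩
    have hu : u = p ^ E • (u.mapRange (fun a => a / p ^ E) (by simp)) + bx p E v0 := by
      ext i
      simp only [Finsupp.add_apply, Finsupp.smul_apply, Finsupp.mapRange_apply, smul_eq_mul,
        bx_apply, v0]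
      exact (Nat.div_add_mod _ _).symm
    rw [Fintype.sum_prod_type, Finset.sum_comm, Finset.sum_eq_single v0]
    · have h2 : ∀ l : T.ι, coeff u ((digT (p := p) (E := E) T.Tr 1 (topv p E d)
          (monomial (cmp p E v0) (T.b' l) * f)) ^ p ^ E * monomial (bx p E v0) (T.b l)) =
          (T.Tr (T.b' l * coeff u f)) ^ p ^ E * T.b l := by
        intro l
        rw [coeff_mul_monomial, if_pos]
        · congr 1
          conv_lhs => rw [hu]
          rw [add_tsub_cancel_right, coeff_pow_smul, key, ← hu]
        · conv_rhs => rw [hu]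
          exact le_add_self
      rw [Finset.sum_congr rfl (fun l _ => h2 l)]
      exact T.sum_eq _
    · intro v _ hv
      apply Finset.sum_eq_zero
      intro l _
      rw [coeff_mul_monomial]
      split_ifs with hle
      · obtain ⟨i, hi⟩ : ∃ i, v i ≠ v0 i := by
          by_contra hc
          push Not at hc
          exact hv (funext hc)
        rw [coeff_pow_of_not_dvd p E _ (i := i), zero_mul]
        intro hdvd
        apply hi
        apply Fin.ext
        simp only [v0]
        have h1 : bx p E v i ≤ u i := hle i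
        have hdvd' : p ^ E ∣ (u - bx p E v) i := hdvd
        rw [Finsupp.tsub_apply, bx_apply] at hdvd'
        rw [bx_apply] at h1
        obtain ⟨k, hk⟩ := hdvd'
        have h2 : u i = v i + p ^ E * k := by omega
        rw [h2, Nat.add_mul_mod_self_left, Nat.mod_eq_of_lt (v i).2]
      · rfl
    · intro h
      exact absurd (Finset.mem_univ _) h

end lift

/-- A valuation-type filtration of a ring. -/
structure Fil (A : Type u) [CommRing A] where
  F : ℕ → Ideal A
  F_zero : F 0 = ⊤
  anti : ∀ n, F (n + 1) ≤ F n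
  mul_mem : ∀ {n m a b}, a ∈ F n → b ∈ F m → a * b ∈ F (n + m)
  not_mem : ∀ {n m a b}, a ∉ F (n + 1) → b ∉ F (m + 1) → a * b ∉ F (n + m + 1)
  sep : ∀ {a}, (∀ n, a ∈ F n) → a = 0

namespace Fil

variable {A : Type u} [CommRing A] (F : Fil A)

lemma anti' {n m : ℕ} (h : n ≤ m) : F.F m ≤ F.F n := antitone_nat_of_succ_le F.anti h

lemma mem_zero (a : A) : a ∈ F.F 0 := by rw [F.F_zero]; trivial

lemma mem_le {n m : ℕ} {a : A} (h : a ∈ F.F m) (hnm : n ≤ m) : a ∈ F.F n := F.anti' hnm h

lemma mul_le {n m l : ℕ} {a b : A} (ha : a ∈ F.F n) (hb : b ∈ F.F m) (h : l ≤ n + m) :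
    a * b ∈ F.F l := F.mem_le (F.mul_mem ha hb) h

/-- cancellation -/
lemma cancel {n m : ℕ} {a b : A} (ha : a ∉ F.F (n + 1)) (h : a * b ∈ F.F (n + m)) :
    b ∈ F.F m := by
  rcases m with _ | m
  · exact F.mem_zero b
  · by_contra hb
    exact F.not_mem ha hb h

lemma pow_mem {n : ℕ} {a : A} (ha : a ∈ F.F n) (k : ℕ) : a ^ k ∈ F.F (k * n) := by
  induction k with
  | zero => rw [zero_mul]; exact F.mem_zero _
  | succ k ih =>
    rw [pow_succ]
    exact F.mul_le ih ha (by rw [add_mul, one_mul])

lemma pow_not_mem {n : ℕ} {a : A} (h1 : (1 : A) ∉ F.F 1) (ha : a ∉ F.F (n + 1)) (k : ℕ) :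
    a ^ k ∉ F.F (k * n + 1) := by
  induction k with
  | zero => rw [zero_mul, pow_zero]; exact h1
  | succ k ih =>
    rw [pow_succ]
    have := F.not_mem ih ha
    have e : k * n + n + 1 = (k + 1) * n + 1 := by ring
    rwa [e] at this

lemma exists_ord {a : A} (ha : a ≠ 0) : ∃ n, a ∈ F.F n ∧ a ∉ F.F (n + 1) := by
  classical
  have h : ∃ n, a ∉ F.F n := by
    by_contra hc
    push Not at hc
    exact ha (F.sep hc)
  obtain ⟨m, hm⟩ : ∃ m, m = Nat.find h := ⟨_, rfl⟩
  have h1 : a ∉ F.F m := hm ▸ Nat.find_spec h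
  have h2 : m ≠ 0 := by
    rintro rfl
    exact h1 (F.mem_zero a)
  obtain ⟨n, rfl⟩ := Nat.exists_eq_succ_of_ne_zero h2
  refine ⟨n, ?_, h1⟩
  have := Nat.find_min h (m := n) (by omega)
  exact not_not.1 this

end Fil

section order

variable {k : Type u} [Field k] {d : ℕ}

/-- the weight of an exponent vector -/
def wg (w : Fin d → ℕ) (u : Fin d →₀ ℕ) : ℕ := ∑ i, u i * w i

lemma wg_add (w : Fin d → ℕ) (u v : Fin d →₀ ℕ) : wg w (u + v) = wg w u + wg w v := by
  simp only [wg, Finsupp.add_apply, add_mul, Finset.sum_add_distrib]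

lemma wg_smul (w : Fin d → ℕ) (n : ℕ) (u : Fin d →₀ ℕ) : wg w (n • u) = n * wg w u := by
  simp only [wg, Finsupp.smul_apply, smul_eq_mul, Finset.mul_sum, mul_assoc]

lemma weight_eq_wg (w : Fin d → ℕ) (u : Fin d →₀ ℕ) : Finsupp.weight w u = wg w u := by
  rw [Finsupp.weight_apply, Finsupp.sum_fintype _ _ (by simp)]
  rfl

/-- The filtration of the power series ring by the weighted order. -/
noncomputable def wFil (w : Fin d → ℕ) (hw : ∀ i, 0 < w i) : Fil (MvPowerSeries (Fin d) k) where
  F n := { carrier := {f | ∀ u, coeff u f ≠ 0 → n ≤ wg w u}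
           zero_mem' := by
            intro u hu
            exact absurd (coeff_zero u) hu
           add_mem' := by
            intro f g hf hg u hu
            rw [map_add] at hu
            by_cases h : coeff u f = 0
            · rw [h, zero_add] at hu
              exact hg u hu
            · exact hf u h
           smul_mem' := by
            classical
            intro c f hf u hu
            rw [smul_eq_mul, coeff_mul] at hu
            obtain ⟨x, hx, hx'⟩ := Finset.exists_ne_zero_of_sum_ne_zero hu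
            rw [Finset.HasAntidiagonal.mem_antidiagonal] at hx
            have := hf _ (right_ne_zero_of_mul hx')
            rw [← hx, wg_add]
            omega }
  F_zero := by
    rw [eq_top_iff]
    intro f _ u _
    exact Nat.zero_le _
  anti := by
    intro n f hf u hu
    have := hf u hu
    omega
  mul_mem := by
    classical
    intro n m f g hf hg u hu
    rw [coeff_mul] at hu
    obtain ⟨x, hx, hx'⟩ := Finset.exists_ne_zero_of_sum_ne_zero hu
    rw [Finset.HasAntidiagonal.mem_antidiagonal] at hx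
    have h1 := hf _ (left_ne_zero_of_mul hx')
    have h2 := hg _ (right_ne_zero_of_mul hx')
    rw [← hx, wg_add]
    omega
  not_mem := by
    classical
    intro n m f g hf hg hfg
    have key : ∀ (l : ℕ) (h : MvPowerSeries (Fin d) k),
        (∀ u, coeff u h ≠ 0 → l ≤ wg w u) ↔ (l : ℕ∞) ≤ h.weightedOrder w := by
      intro l h
      constructor
      · intro h1
        apply nat_le_weightedOrder
        intro u hu
        by_contra hc
        have := h1 u hc
        rw [weight_eq_wg] at hu
        omega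
      · intro h1 u hu
        have h2 := weightedOrder_le (w := w) hu
        rw [weight_eq_wg] at h2
        exact_mod_cast h1.trans h2
    have hf' : ¬ ((n + 1 : ℕ) : ℕ∞) ≤ f.weightedOrder w := fun h => hf ((key _ _).2 h)
    have hg' : ¬ ((m + 1 : ℕ) : ℕ∞) ≤ g.weightedOrder w := fun h => hg ((key _ _).2 h)
    have hfg' : ((n + m + 1 : ℕ) : ℕ∞) ≤ (f * g).weightedOrder w := (key _ _).1 hfg
    rw [weightedOrder_mul] at hfg'
    push Not at hf' hg'
    have h1 : f.weightedOrder w ≤ n := by
      have := ENat.lt_add_one_iff (m := f.weightedOrder w) (n := n) (by simp)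
      push_cast at hf'
      exact this.1 hf'
    have h2 : g.weightedOrder w ≤ m := by
      have := ENat.lt_add_one_iff (m := g.weightedOrder w) (n := m) (by simp)
      push_cast at hg'
      exact this.1 hg'
    have h3 : ((n + m + 1 : ℕ) : ℕ∞) ≤ ((n + m : ℕ) : ℕ∞) := by
      refine hfg'.trans ?_
      push_cast
      exact add_le_add h1 h2
    have h4 : n + m + 1 ≤ n + m := by exact_mod_cast h3
    omega
  sep := by
    intro f hf
    ext u
    rw [coeff_zero]
    by_contra hc
    have := hf (wg w u + 1) u hc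
    omega

lemma mem_wFil (w : Fin d → ℕ) (hw : ∀ i, 0 < w i) (n : ℕ) (f : MvPowerSeries (Fin d) k) :
    f ∈ (wFil w hw).F n ↔ ∀ u, coeff u f ≠ 0 → n ≤ wg w u := Iff.rfl

lemma wFil_one (w : Fin d → ℕ) (hw : ∀ i, 0 < w i) :
    (1 : MvPowerSeries (Fin d) k) ∉ (wFil w hw).F 1 := by
  classical
  intro h
  have := h 0 (by rw [coeff_zero_one]; exact one_ne_zero)
  simp [wg] at this

/-- The trace and the weighted order. -/
lemma Tr_mem_wFil {p E : ℕ} [hp : Fact p.Prime] [CharP k p] (T : FTr (p ^ E) k)
    (w : Fin d → ℕ) (hw : ∀ i, 0 < w i) (j : ℕ) (f : MvPowerSeries (Fin d) k)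
    (hf : f ∈ (wFil w hw).F (j * p ^ E + (∑ i, w i) * (p ^ E - 1) + 1)) :
    (T.lift d).Tr f ∈ (wFil w hw).F (j + 1) := by
  intro u hu
  have h1 : coeff (p ^ E • u + topv p E d) f ≠ 0 := by
    intro h
    apply hu
    change coeff u (digT (p := p) (E := E) T.Tr 1 (topv p E d) f) = 0
    rw [coeff_digT, h, mul_zero, map_zero]
  have h2 := hf _ h1
  rw [wg_add, wg_smul] at h2
  have h3 : wg w (topv p E d) = (∑ i, w i) * (p ^ E - 1) := by
    simp only [wg, topv_apply, Finset.sum_mul]
    apply Finset.sum_congr rfl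
    intro i _
    ring
  rw [h3] at h2
  have h4 : j * p ^ E < wg w u * p ^ E := by
    rw [mul_comm (wg w u)]
    omega
  have := lt_of_mul_lt_mul_right h4 (Nat.zero_le _)
  omega

end order

end Run7.h889
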