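import Pool.Agent.Run7.h889.Free1

set_option autoImplicit false
set_option linter.unusedSimpArgs false
set_option linter.unusedVariables false
set_option linter.unusedSectionVars false
set_option linter.deprecated false

namespace Run7.h889

open Module IsLocalRing

universe u v

section good

variable {A : Type u} [CommRing A] [IsDomain A] [IsLocalRing A] [IsNoetherianRing A]
  {R : Type v} [CommRing R] [Algebra A R] [Module.Finite A R] [Module.IsTorsionFree A R] {n : ℕ} (y : Fin n → R)

/-- multipliers of the presentation -/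
noncomputable def goodI : Ideal A where
  carrier := {a | ∃ s : R →ₗ[A] (Fin n → A), ∀ r, pr y (s r) = a • r}
  zero_mem' := ⟨0, fun r => by rw [LinearMap.zero_apply, map_zero, zero_smul]⟩
  add_mem' := by
    rintro a b ⟨s, hs⟩ ⟨t, ht⟩
    exact ⟨s + t, fun r => by rw [LinearMap.add_apply, map_add, hs, ht, add_smul]⟩
  smul_mem' := by
    rintro c a ⟨s, hs⟩
    exact ⟨c • s, fun r => by rw [LinearMap.smul_apply, map_smul, hs, smul_smul, smul_eq_mul]⟩

lemma mem_goodI (a : A) : a ∈ goodI (A := A) y ↔
    ∃ s : R →ₗ[A] (Fin n → A), ∀ r, pr y (s r) = a • r := Iff.rfl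

theorem goodI_not_le (hgen : Function.Surjective (pr (A := A) y)) (P : Ideal A) [hP : P.IsPrime]
    (hpid : IsPrincipalIdealRing (Localization.AtPrime P)) : ¬ goodI (A := A) y ≤ P := by
  classical
  let AP := Localization P.primeCompl
  let M := LocalizedModule P.primeCompl R
  have hpid' : IsPrincipalIdealRing AP := hpid
  have hdom : IsDomain AP := IsLocalization.isDomain_localization P.primeCompl_le_nonZeroDivisors
  have hfin : Module.Finite AP M :=
    Module.Finite.of_isLocalizedModule P.primeCompl (LocalizedModule.mkLinearMap P.primeCompl R)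
  have htf : Module.IsTorsionFree AP M := inferInstance
  have hfree : Module.Free AP M := Module.free_of_finite_type_torsion_free'
  -- the presentation of `M`
  let mk : R →ₗ[A] M := LocalizedModule.mkLinearMap P.primeCompl R
  let π : (Fin n → AP) →ₗ[AP] M := Fintype.linearCombination AP (fun j => mk (y j))
  have hπ : ∀ c, π c = ∑ j, c j • mk (y j) := fun c => Fintype.linearCombination_apply AP _ c
  let ℓ : (Fin n → A) →ₗ[A] (Fin n → AP) :=
    LinearMap.pi (fun j => (Algebra.linearMap A AP).comp (LinearMap.proj j))
  have hℓ : ∀ c j, ℓ c j = algebraMap A AP (c j) := fun c j => rfl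
  have hπℓ : ∀ c, π (ℓ c) = mk (pr y c) := by
    intro c
    rw [hπ, pr_apply, map_sum]
    apply Finset.sum_congr rfl
    intro j _
    rw [hℓ, map_smul, algebraMap_smul]
  have hsurj : Function.Surjective π := by
    intro m
    obtain ⟨⟨r, s⟩, hrs⟩ := IsLocalizedModule.surj P.primeCompl mk m
    obtain ⟨c, rfl⟩ := hgen r
    simp only at hrs
    refine ⟨IsLocalization.mk' AP (1 : A) s • ℓ c, ?_⟩
    rw [map_smul, hπℓ, ← hrs]
    have h1 : (s : A) • m = algebraMap A AP s • m := (algebraMap_smul AP (s : A) m).symm
    change IsLocalization.mk' AP (1 : A) s • ((s : A) • m) = m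
    rw [h1, smul_smul, IsLocalization.mk'_spec, map_one, one_smul]
  obtain ⟨σ, hσ⟩ := Module.projective_lifting_property π (LinearMap.id : M →ₗ[AP] M) hsurj
  -- clear denominators
  have hℓloc : IsLocalizedModule P.primeCompl ℓ := by
    have h1 : ∀ j : Fin n, IsLocalizedModule P.primeCompl (Algebra.linearMap A AP) :=
      fun _ => inferInstance
    exact IsLocalizedModule.pi P.primeCompl (fun _ : Fin n => Algebra.linearMap A AP)
  have hfp : Module.FinitePresentation A R := Module.finitePresentation_of_finite A R
  obtain ⟨s, a, hs⟩ := Module.FinitePresentation.exists_lift_of_isLocalizedModule P.primeCompl ℓ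
    ((σ.restrictScalars A).comp mk)
  intro hle
  apply a.2
  apply hle
  rw [mem_goodI]
  refine ⟨s, fun r => ?_⟩
  have hinj : Function.Injective mk := by
    intro x x' hx
    rw [IsLocalizedModule.eq_iff_exists P.primeCompl mk] at hx
    obtain ⟨c, hc⟩ := hx
    have hc0 : (c : A) ≠ 0 := fun h => c.2 (by rw [h]; exact P.zero_mem)
    exact smul_right_injective R hc0 hc
  apply hinj
  rw [← hπℓ]
  have h1 := LinearMap.congr_fun hs r
  rw [LinearMap.comp_apply, LinearMap.smul_apply, LinearMap.comp_apply] at h1
  rw [h1]
  have h2 : π (σ (mk r)) = mk r := LinearMap.congr_fun hσ (mk r)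
  have h3 : (a • (σ.restrictScalars A) (mk r) : Fin n → AP) = algebraMap A AP a • σ (mk r) := by
    rw [algebraMap_smul]; rfl
  rw [h3, map_smul, h2, algebraMap_smul, map_smul]

end good

section height

variable {A : Type u} [CommRing A] [IsDomain A] [IsNoetherianRing A] [IsIntegrallyClosed A]

/-- localisations of a normal Noetherian domain at primes of height at most one -/
theorem pid_of_height_le (P : Ideal A) [hP : P.IsPrime] (hh : P.height ≤ 1) :
    IsPrincipalIdealRing (Localization.AtPrime P) := by
  classical
  by_cases hP0 : P = ⊥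
  · subst hP0
    have hf : IsField (Localization.AtPrime (⊥ : Ideal A)) := by
      rw [isField_iff_maximalIdeal_eq, ← Localization.AtPrime.map_eq_maximalIdeal, Ideal.map_bot]
    exact hf.isPrincipalIdealRing
  have hnf : ¬ IsField (Localization.AtPrime P) := by
    rw [isField_iff_maximalIdeal_eq]
    intro h
    apply hP0
    rw [eq_bot_iff]
    intro s hs
    have h2 : algebraMap A (Localization.AtPrime P) s ∈ maximalIdeal _ := by
      rw [← Localization.AtPrime.map_eq_maximalIdeal]
      exact Ideal.mem_map_of_mem _ hs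
    rw [h, Ideal.mem_bot] at h2
    rw [Ideal.mem_bot]
    apply IsLocalization.injective (Localization.AtPrime P) P.primeCompl_le_nonZeroDivisors
    rw [h2, map_zero]
  have hic : IsIntegrallyClosed (Localization.AtPrime P) :=
    isIntegrallyClosed_of_isLocalization _ P.primeCompl P.primeCompl_le_nonZeroDivisors
  have hdvr : IsDiscreteValuationRing (Localization.AtPrime P) := by
    have hT := (IsDiscreteValuationRing.TFAE (Localization.AtPrime P) hnf).out 3 0
    apply hT.1
    refine ⟨hic, maximalIdeal _, ⟨fun h => hnf (isField_iff_maximalIdeal_eq.2 h), inferInstance⟩, ?_⟩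
    rintro Q ⟨hQ0, hQ⟩
    have h1 : (Q.comap (algebraMap A (Localization.AtPrime P))).IsPrime := Ideal.comap_isPrime _ _
    have e0 : Ideal.map (algebraMap A (Localization.AtPrime P))
        (Q.comap (algebraMap A (Localization.AtPrime P))) = Q :=
      IsLocalization.map_comap P.primeCompl (Localization.AtPrime P) Q
    have e1 : Ideal.comap (algebraMap A (Localization.AtPrime P))
        (maximalIdeal (Localization.AtPrime P)) = P := Localization.AtPrime.comap_maximalIdeal
    have h2 : Q.comap (algebraMap A (Localization.AtPrime P)) ≤ P := by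
      have := Ideal.comap_mono (f := algebraMap A (Localization.AtPrime P))
        (IsLocalRing.le_maximalIdeal hQ.ne_top)
      rwa [e1] at this
    have h3 : Q.comap (algebraMap A (Localization.AtPrime P)) ≠ ⊥ := by
      intro h
      apply hQ0
      rw [← e0, h, Ideal.map_bot]
    have h4 : Q.comap (algebraMap A (Localization.AtPrime P)) = P := by
      by_contra hne
      have hlt : Q.comap (algebraMap A (Localization.AtPrime P)) < P := lt_of_le_of_ne h2 hne
      have h5 := Ideal.height_add_one_le_of_lt_of_isPrime hlt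
      have h6 : (⊥ : Ideal A) < Q.comap (algebraMap A (Localization.AtPrime P)) :=
        bot_lt_iff_ne_bot.2 h3
      have h7 := Ideal.height_add_one_le_of_lt_of_isPrime h6
      have h8 : (1 : ℕ∞) + 1 ≤ 1 := by
        calc (1 : ℕ∞) + 1 ≤ (Q.comap (algebraMap A (Localization.AtPrime P))).height + 1 := by
              gcongr
              exact le_trans le_add_self h7
          _ ≤ P.height := h5
          _ ≤ 1 := hh
      exact absurd h8 (by decide)
    rw [← e0, h4, Localization.AtPrime.map_eq_maximalIdeal]
  infer_instance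

/-- an ideal not contained in a prime of height at most one has coheight at least two -/
theorem dim_quot_le (hloc : IsLocalRing A) (𝔞 : Ideal A)
    (h𝔞 : ∀ P : Ideal A, P.IsPrime → P.height ≤ 1 → ¬ 𝔞 ≤ P) (d : ℕ)
    (hd : (maximalIdeal A).height ≤ d + 2) : ringKrullDim (A ⧸ 𝔞) ≤ d := by
  classical
  apply iSup_le
  intro l
  let Q : Fin (l.length + 1) → Ideal A := fun j => (l j).asIdeal.comap (Ideal.Quotient.mk 𝔞)
  have hQ : ∀ j, (Q j).IsPrime := fun j => Ideal.comap_isPrime _ _
  have hQa : ∀ j, 𝔞 ≤ Q j := by
    intro j a ha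
    rw [Ideal.mem_comap, Ideal.Quotient.eq_zero_iff_mem.2 ha]
    exact Ideal.zero_mem _
  have key : ∀ j : ℕ, ∀ hj : j < l.length + 1, ((j : ℕ∞) + 2) ≤ (Q ⟨j, hj⟩).height := by
    intro j
    induction j with
    | zero =>
      intro hj
      by_contra hc
      push Not at hc
      refine h𝔞 (Q ⟨0, hj⟩) (hQ _) ?_ (hQa _)
      rw [Nat.cast_zero, zero_add] at hc
      exact Order.le_of_lt_add_one (by simpa [one_add_one_eq_two] using hc)
    | succ j ih =>
      intro hj
      have h1 := ih (by omega)
      have hlt : Q ⟨j, by omega⟩ < Q ⟨j + 1, hj⟩ := by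
        have h2 : l ⟨j, by omega⟩ < l ⟨j + 1, hj⟩ := l.strictMono (by simp [Fin.lt_def])
        have h3 : (l ⟨j, by omega⟩).asIdeal < (l ⟨j + 1, hj⟩).asIdeal := h2
        refine lt_of_le_of_ne (Ideal.comap_mono h3.le) ?_
        intro h4
        exact h3.ne (Ideal.comap_injective_of_surjective _ Ideal.Quotient.mk_surjective h4)
      have hQ1 := hQ ⟨j, by omega⟩
      have hQ2 := hQ ⟨j + 1, hj⟩
      have h2 := Ideal.height_add_one_le_of_lt_of_isPrime hlt
      refine le_trans ?_ h2
      push_cast
      rw [add_right_comm]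
      gcongr
  have h1 := key l.length (by omega)
  have hQl := hQ ⟨l.length, by omega⟩
  have h2 : (Q ⟨l.length, by omega⟩).height ≤ (maximalIdeal A).height :=
    Ideal.height_mono (IsLocalRing.le_maximalIdeal hQl.ne_top)
  have h3 : ((l.length : ℕ∞) + 2) ≤ (d : ℕ∞) + 2 := (h1.trans h2).trans hd
  have h4 : l.length ≤ d := by
    have h5 : ((l.length + 2 : ℕ) : ℕ∞) ≤ ((d + 2 : ℕ) : ℕ∞) := by push_cast; exact h3
    have h6 := Nat.cast_le.1 h5
    omega
  exact_mod_cast h4

end height

end Run7.h889
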