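import Pool.Agent.Run7.h889.DualM

set_option autoImplicit false
set_option linter.unusedSimpArgs false
set_option linter.unusedVariables false
set_option linter.unusedSectionVars false
set_option linter.deprecated false

namespace Run7.h889

open Module nonZeroDivisors IsLocalRing

universe u v

section N1

variable {A : Type u} [CommRing A] [IsDomain A] [IsNoetherianRing A] [IsIntegrallyClosed A]
  {K : Type u} [Field K] [Algebra A K] [IsFractionRing A K]

/-- Membership in a normal domain can be tested at the primes whose localisation has principal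
maximal ideal. -/
theorem exists_prime_of_not_mem {z : K} (hz : ∀ a : A, algebraMap A K a ≠ z) :
    ∃ P : Ideal A, P.IsPrime ∧ P ≠ ⊥ ∧ (∃ t ∈ P, ∃ u ∉ P, ∀ s ∈ P, t ∣ s * u) ∧
      ∀ a : A, (∃ b : A, algebraMap A K a * z = algebraMap A K b) → a ∈ P := by
  classical
  have inj := IsFractionRing.injective A K
  let J : K → Ideal A := fun y =>
    { carrier := {a | ∃ b : A, algebraMap A K a * y = algebraMap A K b}
      zero_mem' := ⟨0, by rw [map_zero, zero_mul]⟩
      add_mem' := by
        rintro a a' ⟨b, hb⟩ ⟨b', hb'⟩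
        exact ⟨b + b', by rw [map_add, add_mul, hb, hb', map_add]⟩
      smul_mem' := by
        rintro c a ⟨b, hb⟩
        exact ⟨c * b, by rw [smul_eq_mul, map_mul, mul_assoc, hb, map_mul]⟩ }
  have hJ : ∀ y a, a ∈ J y ↔ ∃ b : A, algebraMap A K a * y = algebraMap A K b := fun y a => Iff.rfl
  let 𝒮 : Set (Ideal A) := {I | ∃ a : A, (∀ b : A, algebraMap A K b ≠ algebraMap A K a * z) ∧
    I = J (algebraMap A K a * z)}
  have hne : 𝒮.Nonempty := ⟨J z, 1, by rw [map_one, one_mul]; exact hz, by rw [map_one, one_mul]⟩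
  obtain ⟨P, ⟨a, ha, rfl⟩, hmax⟩ := set_has_maximal_iff_noetherian.2
    (inferInstance : IsNoetherian A A) 𝒮 hne
  obtain ⟨y, hy⟩ : ∃ y, y = algebraMap A K a * z := ⟨_, rfl⟩
  rw [← hy] at ha hmax
  have h1 : (1 : A) ∉ J y := by
    rintro ⟨b, hb⟩
    rw [map_one, one_mul] at hb
    exact ha b hb.symm
  have hprime : (J y).IsPrime := by
    refine ⟨fun h => h1 (by rw [h]; trivial), ?_⟩
    intro x x' hxx
    by_cases hx' : x' ∈ J y
    · exact Or.inr hx'
    · left
      have h2 : ∀ b : A, algebraMap A K b ≠ algebraMap A K (x' * a) * z := by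
        intro b hb
        apply hx'
        exact ⟨b, by rw [hy, ← mul_assoc, ← map_mul, hb]⟩
      have h3 : ¬ J y < J (algebraMap A K (x' * a) * z) := hmax _ ⟨x' * a, h2, rfl⟩
      have h4 : J y ≤ J (algebraMap A K (x' * a) * z) := by
        rintro c ⟨b, hb⟩
        refine ⟨x' * b, ?_⟩
        rw [map_mul (algebraMap A K) x' b, ← hb, hy, map_mul]
        ring
      have h5 : J y = J (algebraMap A K (x' * a) * z) := by
        by_contra hne
        exact h3 (lt_of_le_of_ne h4 hne)
      rw [h5]
      obtain ⟨b, hb⟩ := hxx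
      refine ⟨b, ?_⟩
      rw [← hb, hy, map_mul, map_mul]
      ring
  have hbot : J y ≠ ⊥ := by
    intro hb
    obtain ⟨s, t, ht, hst⟩ := IsFractionRing.div_surjective (A := A) y
    have ht0 : algebraMap A K t ≠ 0 := by
      intro h
      exact (nonZeroDivisors.ne_zero ht) (inj (by rw [h, map_zero]))
    have h2 : t ∈ J y := ⟨s, by rw [← hst, mul_div_cancel₀ _ ht0]⟩
    rw [hb, Ideal.mem_bot] at h2
    exact (nonZeroDivisors.ne_zero ht) h2
  refine ⟨J y, hprime, hbot, ?_, ?_⟩
  · by_contra hcon
    push Not at hcon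
    -- then `y` maps `J y` into itself
    have h2 : ∀ t ∈ J y, ∃ b ∈ J y, algebraMap A K t * y = algebraMap A K b := by
      intro t ht
      obtain ⟨b, hb⟩ := ht
      refine ⟨b, ?_, hb⟩
      by_contra hbJ
      obtain ⟨s, hs, hs'⟩ := hcon t ⟨b, hb⟩ b hbJ
      apply hs'
      obtain ⟨c, hc⟩ := hs
      refine ⟨c, ?_⟩
      apply inj
      rw [map_mul, map_mul, ← hb, ← hc]
      ring
    have hint : IsIntegral A y := by
      let N : Submodule A K := Submodule.map (Algebra.linearMap A K) (J y)
      refine isIntegral_of_smul_mem_submodule (M := K) N ?_ ?_ y ?_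
      · intro hN
        apply hbot
        rw [eq_bot_iff]
        intro t ht
        have h3 : algebraMap A K t ∈ N := ⟨t, ht, rfl⟩
        rw [hN, Submodule.mem_bot] at h3
        rw [Ideal.mem_bot]
        exact inj (by rw [h3, map_zero])
      · exact (IsNoetherian.noetherian (J y)).map _
      · rintro _ ⟨t, ht, rfl⟩
        obtain ⟨b, hb, hb'⟩ := h2 t ht
        refine ⟨b, hb, ?_⟩
        rw [Algebra.linearMap_apply, Algebra.linearMap_apply, ← hb', smul_eq_mul, mul_comm]
    obtain ⟨c, hc⟩ := IsIntegrallyClosed.isIntegral_iff.1 hint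
    exact ha c hc
  · rintro c ⟨b, hb⟩
    refine ⟨a * b, ?_⟩
    rw [hy, map_mul, ← hb]
    ring

end N1

section loc

variable {A : Type u} {R : Type v} [CommRing A] [IsDomain A] [IsNoetherianRing A]
  [CommRing R] [IsDomain R] [IsIntegrallyClosed R] [Algebra A R] [Module.Finite A R]

/-- The localisation of `A` is a discrete valuation ring. -/
theorem locDVR (P : Ideal A) [hP : P.IsPrime] (hP0 : P ≠ ⊥)
    (hH : ∃ t ∈ P, ∃ u ∉ P, ∀ s ∈ P, t ∣ s * u) :
    IsDiscreteValuationRing (Localization.AtPrime P) := by
  classical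
  obtain ⟨t, ht, u, hu, hs⟩ := hH
  have hprinc : (maximalIdeal (Localization.AtPrime P)).IsPrincipal := by
    refine ⟨algebraMap A _ t, ?_⟩
    rw [Ideal.submodule_span_eq]
    apply le_antisymm
    · intro z hz
      rw [← Localization.AtPrime.map_eq_maximalIdeal,
        IsLocalization.mem_map_algebraMap_iff P.primeCompl] at hz
      obtain ⟨⟨⟨s, hs'⟩, v⟩, hv⟩ := hz
      obtain ⟨x, hx⟩ := hs s hs'
      rw [Ideal.mem_span_singleton]
      have hvu : IsUnit (algebraMap A (Localization.AtPrime P) (v.1 * u)) :=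
        IsLocalization.map_units _ (⟨v.1 * u, P.primeCompl.mul_mem v.2 hu⟩ : P.primeCompl)
      have h2 : algebraMap A (Localization.AtPrime P) (v.1 * u) * z =
          algebraMap A _ t * algebraMap A _ x := by
        rw [map_mul, ← map_mul _ t x, ← hx, map_mul]
        simp only at hv
        rw [← hv]
        ring
      obtain ⟨w, hw⟩ := hvu.exists_left_inv
      refine ⟨w * algebraMap A _ x, ?_⟩
      calc z = w * (algebraMap A (Localization.AtPrime P) (v.1 * u) * z) := by
            rw [← mul_assoc, hw, one_mul]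
        _ = _ := by rw [h2]; ring
    · rw [Ideal.span_le, Set.singleton_subset_iff]
      rw [← Localization.AtPrime.map_eq_maximalIdeal]
      exact Ideal.mem_map_of_mem _ ht
  have hnf : ¬ IsField (Localization.AtPrime P) := by
    rw [isField_iff_maximalIdeal_eq]
    intro h
    apply hP0
    rw [eq_bot_iff]
    intro s hs
    have h2 : algebraMap A (Localization.AtPrime P) s ∈ maximalIdeal _ := by
      rw [← Localization.AtPrime.map_eq_maximalIdeal]
      exact Ideal.mem_map_of_mem _ hs
    rw [h, Ideal.mem_bot] at h2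
    rw [Ideal.mem_bot]
    apply IsLocalization.injective (Localization.AtPrime P) P.primeCompl_le_nonZeroDivisors
    rw [h2, map_zero]
  exact ((IsDiscreteValuationRing.TFAE (Localization.AtPrime P) hnf).out 4 0).1 hprinc

/-- The localisation of a finite normal extension at a height one prime is a principal ideal
domain. -/
theorem locPID (hinj : Function.Injective (algebraMap A R)) (P : Ideal A) [hP : P.IsPrime]
    (hP0 : P ≠ ⊥) (hH : ∃ t ∈ P, ∃ u ∉ P, ∀ s ∈ P, t ∣ s * u) :
    IsDomain (Localization (Algebra.algebraMapSubmonoid R P.primeCompl)) ∧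
    IsPrincipalIdealRing (Localization (Algebra.algebraMapSubmonoid R P.primeCompl)) := by
  classical
  have hM : Algebra.algebraMapSubmonoid R P.primeCompl ≤ R⁰ := by
    rintro _ ⟨x, hx, rfl⟩
    rw [mem_nonZeroDivisors_iff_ne_zero]
    intro h
    apply hx
    have : x = 0 := hinj (by rw [map_zero]; exact h)
    rw [this]
    exact P.zero_mem
  have hdom : IsDomain (Localization (Algebra.algebraMapSubmonoid R P.primeCompl)) :=
    IsLocalization.isDomain_localization hM
  refine ⟨hdom, ?_⟩
  have hnR : IsNoetherianRing R := by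
    have h1 : IsNoetherian A R := isNoetherian_of_isNoetherianRing_of_finite A R
    exact isNoetherian_of_tower A h1
  have hnS : IsNoetherianRing (Localization (Algebra.algebraMapSubmonoid R P.primeCompl)) :=
    IsLocalization.isNoetherianRing (Algebra.algebraMapSubmonoid R P.primeCompl) _ hnR
  have hiS : IsIntegrallyClosed (Localization (Algebra.algebraMapSubmonoid R P.primeCompl)) :=
    isIntegrallyClosed_of_isLocalization _ (Algebra.algebraMapSubmonoid R P.primeCompl) hM
  have hdvr := locDVR P hP0 hH
  have hA : Algebra.IsIntegral A R := inferInstance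
  have hint : Algebra.IsIntegral (Localization P.primeCompl)
      (Localization (Algebra.algebraMapSubmonoid R P.primeCompl)) := ⟨isIntegral_localization⟩
  have hpid : IsPrincipalIdealRing (Localization.AtPrime P) := inferInstance
  have hdim1 : Ring.DimensionLEOne (Localization.AtPrime P) := inferInstance
  have hdim : Ring.DimensionLEOne (Localization (Algebra.algebraMapSubmonoid R P.primeCompl)) :=
    Ring.DimensionLEOne.of_isIntegral (R := Localization.AtPrime P) _
  have hded : IsDedekindDomain (Localization (Algebra.algebraMapSubmonoid R P.primeCompl)) := by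
    have : IsDedekindRing (Localization (Algebra.algebraMapSubmonoid R P.primeCompl)) := by
      rw [isDedekindRing_iff _ (FractionRing
        (Localization (Algebra.algebraMapSubmonoid R P.primeCompl)))]
      exact ⟨hnS, hdim, fun {x} hx => IsIntegrallyClosed.isIntegral_iff.1 hx⟩
    infer_instance
  apply IsPrincipalIdealRing.of_finite_primes
  -- all primes are minimal over `t` or zero
  obtain ⟨t, ht, u, hu, hs⟩ := hH
  have ht0 : t ≠ 0 := by
    rintro rfl
    apply hP0
    rw [eq_bot_iff]
    intro s hs'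
    have := hs s hs'
    rw [zero_dvd_iff] at this
    rcases mul_eq_zero.1 this with h | h
    · exact h
    · exfalso
      apply hu
      rw [h]
      exact P.zero_mem
  obtain ⟨S, hSe⟩ : ∃ S, S = Localization (Algebra.algebraMapSubmonoid R P.primeCompl) := ⟨_, rfl⟩
  have hfin := Ideal.finite_minimalPrimes_of_isNoetherianRing
    (Localization (Algebra.algebraMapSubmonoid R P.primeCompl))
    (Ideal.span {algebraMap R (Localization (Algebra.algebraMapSubmonoid R P.primeCompl))
      (algebraMap A R t)})
  refine (hfin.union (Set.finite_singleton ⊥)).subset ?_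
  intro Q hQ
  have hQ' : Q.IsPrime := hQ
  by_cases hQ0 : Q = ⊥
  · right; exact hQ0
  left
  have hcomap := Ideal.IsIntegral.comap_ne_bot (Localization.AtPrime P) hQ0
  have hmax : (Q.comap (algebraMap (Localization.AtPrime P)
      (Localization (Algebra.algebraMapSubmonoid R P.primeCompl)))) =
      maximalIdeal (Localization.AtPrime P) := by
    have h1 : (Q.comap (algebraMap (Localization.AtPrime P)
      (Localization (Algebra.algebraMapSubmonoid R P.primeCompl)))).IsPrime :=
      Ideal.comap_isPrime _ _
    exact IsLocalRing.eq_maximalIdeal (h1.isMaximal hcomap)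
  have htQ : algebraMap R (Localization (Algebra.algebraMapSubmonoid R P.primeCompl))
      (algebraMap A R t) ∈ Q := by
    have h1 : algebraMap A (Localization.AtPrime P) t ∈ maximalIdeal (Localization.AtPrime P) := by
      rw [← Localization.AtPrime.map_eq_maximalIdeal]
      exact Ideal.mem_map_of_mem _ ht
    rw [← hmax, Ideal.mem_comap] at h1
    rw [← IsScalarTower.algebraMap_apply A R]
    rw [← IsScalarTower.algebraMap_apply A (Localization.AtPrime P)] at h1
    exact h1
  refine ⟨⟨hQ', by rw [Ideal.span_le, Set.singleton_subset_iff]; exact htQ⟩, ?_⟩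
  rintro Q' ⟨hQ1, hQ2⟩ hle
  have hQ'0 : Q' ≠ ⊥ := by
    rintro rfl
    rw [le_bot_iff, Ideal.span_singleton_eq_bot] at hQ2
    apply ht0
    apply hinj
    rw [map_zero]
    exact (IsLocalization.injective (Localization (Algebra.algebraMapSubmonoid R P.primeCompl)) hM)
      (by rw [hQ2, map_zero])
  have := (hQ1.isMaximal hQ'0).eq_of_le hQ'.ne_top hle
  rw [this]

end loc

section cyc

variable {A : Type u} {R : Type v} [CommRing A] [IsDomain A] [IsNoetherianRing A]
  [CommRing R] [IsDomain R] [IsIntegrallyClosed R] [Algebra A R] [Module.Finite A R]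
  {L : Type v} [Field L] [Algebra R L] [IsFractionRing R L] [Algebra A L] [IsScalarTower A R L]

/-- A fractional ideal is locally cyclic at a height one prime of the base. -/
theorem cyc (hinj : Function.Injective (algebraMap A R)) (P : Ideal A) [hP : P.IsPrime]
    (hP0 : P ≠ ⊥) (hH : ∃ t ∈ P, ∃ u ∉ P, ∀ s ∈ P, t ∣ s * u) (W : Submodule R L)
    (hW : ∃ a : R, a ≠ 0 ∧ ∀ z ∈ W, ∃ r : R, algebraMap R L a * z = algebraMap R L r) :
    ∃ w ∈ W, ∀ z ∈ W, ∃ v ∉ P, ∃ r : R, algebraMap A L v * z = algebraMap R L r * w := by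
  classical
  obtain ⟨hdom, hpid⟩ := locPID (R := R) hinj P hP0 hH
  obtain ⟨a, ha, haW⟩ := hW
  have injL := IsFractionRing.injective R L
  have ha' : algebraMap R L a ≠ 0 := by
    intro h
    exact ha (injL (by rw [h, map_zero]))
  let I : Ideal R :=
    { carrier := {r | ∃ z ∈ W, algebraMap R L a * z = algebraMap R L r}
      zero_mem' := ⟨0, W.zero_mem, by rw [mul_zero, map_zero]⟩
      add_mem' := by
        rintro r r' ⟨z, hz, hz'⟩ ⟨y, hy, hy'⟩
        exact ⟨z + y, W.add_mem hz hy, by rw [mul_add, hz', hy', map_add]⟩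
      smul_mem' := by
        rintro c r ⟨z, hz, hz'⟩
        refine ⟨c • z, W.smul_mem c hz, ?_⟩
        rw [mul_smul_comm, hz', Algebra.smul_def, smul_eq_mul, map_mul] }
  have hM : Algebra.algebraMapSubmonoid R P.primeCompl ≤ R⁰ := by
    rintro _ ⟨x, hx, rfl⟩
    rw [mem_nonZeroDivisors_iff_ne_zero]
    intro h
    apply hx
    have : x = 0 := hinj (by rw [map_zero]; exact h)
    rw [this]
    exact P.zero_mem
  have injS := IsLocalization.injective
    (Localization (Algebra.algebraMapSubmonoid R P.primeCompl)) hM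
  obtain ⟨s0, hs0⟩ := (hpid.principal (I.map (algebraMap R
    (Localization (Algebra.algebraMapSubmonoid R P.primeCompl)))))
  rw [Ideal.submodule_span_eq] at hs0
  have h1 : s0 ∈ I.map (algebraMap R
    (Localization (Algebra.algebraMapSubmonoid R P.primeCompl))) := by
    rw [hs0]; exact Ideal.subset_span rfl
  rw [IsLocalization.mem_map_algebraMap_iff (Algebra.algebraMapSubmonoid R P.primeCompl)] at h1
  obtain ⟨⟨⟨i0, hi0⟩, m⟩, hm⟩ := h1
  simp only at hm
  obtain ⟨w, hw, hw'⟩ := hi0
  refine ⟨w, hw, ?_⟩
  intro z hz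
  obtain ⟨r, hr⟩ := haW z hz
  have h2 : algebraMap R (Localization (Algebra.algebraMapSubmonoid R P.primeCompl)) r ∈
      I.map (algebraMap R (Localization (Algebra.algebraMapSubmonoid R P.primeCompl))) :=
    Ideal.mem_map_of_mem _ ⟨z, hz, hr⟩
  rw [hs0, Ideal.mem_span_singleton'] at h2
  obtain ⟨c, hc⟩ := h2
  obtain ⟨⟨c1, m1⟩, hc1⟩ := IsLocalization.surj (Algebra.algebraMapSubmonoid R P.primeCompl) c
  simp only at hc1
  obtain ⟨v, hv, hv'⟩ := m.2
  obtain ⟨v1, hv1, hv1'⟩ := m1.2
  refine ⟨v * v1, ?_, c1, ?_⟩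
  · exact P.primeCompl.mul_mem hv hv1
  · have e1 : algebraMap A R (v * v1) * r = c1 * i0 := by
      apply injS
      have hv2 : algebraMap A R v = m.1 := hv'
      have hv3 : algebraMap A R v1 = m1.1 := hv1'
      rw [map_mul (algebraMap A R), hv2, hv3, map_mul, map_mul, map_mul, ← hc, ← hm, ← hc1]
      ring
    apply mul_left_cancel₀ ha'
    rw [mul_left_comm, hr, mul_left_comm, hw', ← map_mul, ← e1, map_mul (algebraMap R L),
      ← IsScalarTower.algebraMap_apply A R L]

end cyc

end Run7.h889
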