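import Pool.Agent.Run7.h889.Iface
import Pool.Agent.Run7.h889.Free2
import Pool.Agent.Run7.h889.HOne

set_option autoImplicit false
set_option linter.unusedSimpArgs false
set_option linter.unusedVariables false
set_option linter.unusedSectionVars false
set_option linter.deprecated false

namespace Run7.h889

open Module IsLocalRing

universe u v

/-- `F_* R` is generically free, with multiplier `g` -/
def Jg (p : ℕ) (R : Type u) [CommRing R] (g : R) : Prop :=
  ∃ (n : ℕ) (e : Fin n → R) (θ : Fin n → FHom p 1 R), ∀ x, g ^ p * x = ∑ i, ((θ i).1 x) ^ p * e i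

/-- the Frobenius push-forward -/
def FrT (R : Type u) : Type u := R

instance (R : Type u) [CommRing R] : CommRing (FrT R) := inferInstanceAs (CommRing R)

/-- the identification -/
def toF (R : Type u) [CommRing R] : R ≃+* FrT R := RingEquiv.refl R

section frob

variable {p : ℕ} [hp : Fact p.Prime] {R : Type u} [CommRing R] [IsDomain R] [CharP R p]

/-- the structure map of the Frobenius push-forward -/
noncomputable def frA (p : ℕ) [hp : Fact p.Prime] (R : Type u) [CommRing R] [CharP R p] :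
    R →+* FrT R := (toF R : R →+* FrT R).comp (frobenius R p)

/-- **`J` is not contained in the primes at which `R` is a principal ideal domain.** -/
theorem exists_Jg [IsNoetherianRing R] [IsLocalRing R] (hF : IsFFinite p R) :
    ∃ J : Ideal R, (∀ g, g ∈ J → Jg p R g) ∧ ∀ (P : Ideal R) [P.IsPrime],
      IsPrincipalIdealRing (Localization.AtPrime P) → ¬ J ≤ P := by
  classical
  letI : Algebra R (FrT R) := (frA p R).toAlgebra
  have hsm : ∀ (r x : R), r • toF R x = toF R (r ^ p * x) := by
    intro r x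
    rw [Algebra.smul_def, map_mul]
    rfl
  obtain ⟨s, hs⟩ := hF
  obtain ⟨n, ⟨en⟩⟩ : ∃ n, Nonempty (s ≃ Fin n) := ⟨s.card, ⟨s.equivFin⟩⟩
  let y : Fin n → FrT R := fun i => toF R (en.symm i).1
  have hprc : ∀ c : Fin n → R, pr (A := R) y c = toF R (∑ i, c i ^ p * (en.symm i).1) := by
    intro c
    rw [pr_apply, map_sum]
    apply Finset.sum_congr rfl
    intro i _
    exact hsm _ _
  have hgen : Function.Surjective (pr (A := R) y) := by
    intro x
    obtain ⟨x, rfl⟩ := (toF R).surjective x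
    obtain ⟨a, ha⟩ := hs x
    refine ⟨fun i => a (en.symm i).1, ?_⟩
    rw [hprc]
    congr 1
    rw [Equiv.sum_comp en.symm (fun z : s => (a z.1 ^ p * z.1 : R)),
      Finset.sum_coe_sort s (fun z => a z ^ p * z)]
    exact ha.symm
  haveI hfin : Module.Finite R (FrT R) := by
    refine Module.Finite.of_surjective (pr (A := R) y) hgen
  have hinj : Function.Injective (algebraMap R (FrT R)) :=
    (toF R).injective.comp (frobenius_inj R p)
  haveI : IsDomain (FrT R) := inferInstanceAs (IsDomain R)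
  haveI : FaithfulSMul R (FrT R) := (faithfulSMul_iff_algebraMap_injective _ _).2 hinj
  haveI htf : Module.IsTorsionFree R (FrT R) := inferInstance
  refine ⟨goodI y, ?_, fun P hP hpid => goodI_not_le y hgen P hpid⟩
  intro g hg
  rw [mem_goodI] at hg
  obtain ⟨σ, hσ⟩ := hg
  refine ⟨n, fun i => (en.symm i).1, fun i => ⟨⟨⟨fun x => σ (toF R x) i, ?_⟩, ?_⟩, ?_⟩, ?_⟩
  · rw [map_zero, map_zero]; rfl
  · intro x x'
    change σ (toF R (x + x')) i = σ (toF R x) i + σ (toF R x') i
    rw [map_add, map_add]; rfl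
  · intro r x
    change σ (toF R (r ^ p ^ 1 * x)) i = r * σ (toF R x) i
    rw [pow_one, ← hsm, map_smul]; rfl
  · intro x
    have h1 := hσ (toF R x)
    rw [hprc, hsm] at h1
    exact ((toF R).injective h1).symm

/-- two elements of `J` forming a regular sequence -/
theorem exists_reg [IsNoetherianRing R] [IsIntegrallyClosed R] [IsLocalRing R]
    (hF : IsFFinite p R) :
    ∃ g h : R, g ≠ 0 ∧ Jg p R g ∧ Jg p R h ∧ ∀ u, g ∣ h * u → g ∣ u := by
  classical
  obtain ⟨J, hJ, hJP⟩ := exists_Jg hF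
  obtain ⟨g, hgJ, hg0⟩ : ∃ g ∈ J, g ≠ 0 := by
    have h1 := hJP (⊥ : Ideal R) (pid_of_height_le _ (by rw [Ideal.height_bot]; exact zero_le_one))
    by_contra hc
    push Not at hc
    apply h1
    intro x hx
    rw [Ideal.mem_bot]
    exact hc x hx
  let M := R ⧸ Ideal.span {g}
  have hne : ¬ (J : Set R) ⊆ ⋃ P ∈ associatedPrimes R M, (P : Set R) := by
    intro hsub
    rw [Ideal.subset_union_prime_finite (associatedPrimes.finite R M) ⊥ ⊥
      (fun P hP _ _ => hP.isPrime)] at hsub
    obtain ⟨P, hP, hJle⟩ := hsub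
    have hP' : IsAssociatedPrime P M := hP
    rw [isAssociatedPrime_iff] at hP'
    obtain ⟨hPp, m, hm⟩ := hP'
    obtain ⟨u, rfl⟩ := Ideal.Quotient.mk_surjective m
    -- `P = (g : u)`
    have hPu : ∀ a, a ∈ P ↔ g ∣ a * u := by
      intro a
      rw [hm, Submodule.mem_colon_singleton, Submodule.mem_bot, ← Ideal.mem_span_singleton,
        ← Ideal.Quotient.eq_zero_iff_mem, map_mul, Algebra.smul_def]
      rfl
    have inj := IsFractionRing.injective R (FractionRing R)
    have hg0' : algebraMap R (FractionRing R) g ≠ 0 := by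
      intro h
      exact hg0 (inj (by rw [h, map_zero]))
    have hz : ∀ a : R, algebraMap R (FractionRing R) a ≠
        algebraMap R (FractionRing R) u / algebraMap R (FractionRing R) g := by
      intro a ha
      apply hPp.ne_top
      rw [Ideal.eq_top_iff_one, hPu, one_mul]
      rw [eq_div_iff hg0', ← map_mul] at ha
      exact ⟨a, by rw [mul_comm]; exact (inj ha).symm⟩
    obtain ⟨Q, hQ, hQ0, hQH, hQd⟩ := exists_prime_of_not_mem hz
    have hdvr := locDVR Q hQ0 hQH
    refine hJP Q inferInstance (hJle.trans ?_)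
    intro a ha
    obtain ⟨b, hb⟩ := (hPu a).1 ha
    apply hQd
    refine ⟨b, ?_⟩
    rw [mul_div_assoc', ← map_mul, hb, map_mul]
    field_simp
  rw [Set.not_subset] at hne
  obtain ⟨h, hhJ, hh⟩ := hne
  refine ⟨g, h, hg0, hJ g hgJ, hJ h hhJ, ?_⟩
  intro u hu
  by_contra hgu
  apply hh
  rw [biUnion_associatedPrimes_eq_zero_divisors]
  refine ⟨Ideal.Quotient.mk _ u, ?_, ?_⟩
  · intro h0
    rw [Ideal.Quotient.eq_zero_iff_mem, Ideal.mem_span_singleton] at h0
    exact hgu h0
  · rw [Algebra.smul_def]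
    change Ideal.Quotient.mk _ h * Ideal.Quotient.mk _ u = 0
    rw [← map_mul, Ideal.Quotient.eq_zero_iff_mem, Ideal.mem_span_singleton]
    exact hu

end frob

section tc

variable {p : ℕ} [hp : Fact p.Prime] {S : Type u} [CommRing S] [IsNoetherianRing S] [CharP S p]

/-- the tight closure argument -/
theorem tc {g : S} (hg : Jg p S g) {a b c : S} (hc : ∀ x, c * x = 0 → x = 0)
    (h : ∀ e : ℕ, b ^ p ^ e ∣ c * a ^ p ^ e) : ∃ N : ℕ, b ∣ g ^ N * a := by
  classical
  obtain ⟨n, ee, θ, hθ⟩ := hg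
  let I : Ideal S :=
    { carrier := {x | b ∣ x * a}
      zero_mem' := by simp
      add_mem' := by
        intro x y hx hy
        simp only [Set.mem_setOf_eq, add_mul] at *
        exact dvd_add hx hy
      smul_mem' := by
        intro x y hy
        simp only [Set.mem_setOf_eq, smul_eq_mul, mul_assoc] at *
        exact dvd_mul_of_dvd_right hy x }
  have hI : ∀ x, x ∈ I ↔ b ∣ x * a := fun x => Iff.rfl
  by_contra hcon
  push Not at hcon
  have hdis : Disjoint (I : Set S) (Submonoid.powers g : Set S) := by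
    rw [Set.disjoint_left]
    rintro x hx ⟨N, rfl⟩
    exact hcon N ((hI _).1 hx)
  obtain ⟨Q, hQp, hQI, hQd⟩ := Ideal.exists_le_prime_disjoint I (Submonoid.powers g) hdis
  have hgQ : g ∉ Q := fun hgq => Set.disjoint_left.1 hQd hgq ⟨1, pow_one g⟩
  have key : ∀ e : ℕ, ∀ x : S, b ^ p ^ e ∣ x * a ^ p ^ e → ∃ m : ℕ, g ^ m * x ∈ Q ^ p ^ e := by
    intro e
    induction e with
    | zero =>
      intro x hx
      rw [pow_zero, pow_one, pow_one] at hx
      refine ⟨0, ?_⟩
      have h1 := hQI ((hI x).2 hx)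
      rwa [pow_zero p, pow_one, pow_zero g, one_mul]
    | succ e ih =>
      rintro x ⟨u, hu⟩
      have h1 : ∀ i, b ^ p ^ e ∣ (θ i).1 x * a ^ p ^ e := by
        intro i
        refine ⟨(θ i).1 u, ?_⟩
        have e1 : (θ i).1 ((a ^ p ^ e) ^ p ^ 1 * x) = (θ i).1 ((b ^ p ^ e) ^ p ^ 1 * u) := by
          congr 1
          rw [← pow_mul, ← pow_mul, ← pow_add, mul_comm, hu]
        rw [(θ i).2, (θ i).2] at e1
        rw [mul_comm, e1]
      choose m hm using fun i => ih _ (h1 i)
      refine ⟨p * (∑ i, m i) + p, ?_⟩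
      have e2 : g ^ (p * (∑ i, m i) + p) * x =
          ∑ i, (g ^ (∑ j, m j) * (θ i).1 x) ^ p * ee i := by
        rw [pow_add, mul_assoc, hθ, Finset.mul_sum]
        apply Finset.sum_congr rfl
        intro i _
        ring
      rw [e2]
      apply Ideal.sum_mem
      intro i _
      apply Ideal.mul_mem_right
      have e3 : g ^ (∑ j, m j) * (θ i).1 x ∈ Q ^ p ^ e := by
        have e4 : g ^ (∑ j, m j) = g ^ (∑ j ∈ Finset.univ.erase i, m j) * g ^ m i := by
          rw [← pow_add, Finset.sum_erase_add _ _ (Finset.mem_univ i)]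
        rw [e4, mul_assoc]
        exact Ideal.mul_mem_left _ _ (hm i)
      rw [pow_succ, pow_mul]
      exact Ideal.pow_mem_pow e3 p
  -- localise at `Q`
  have hmem : ∀ N : ℕ, algebraMap S (Localization.AtPrime Q) c ∈
      (maximalIdeal (Localization.AtPrime Q)) ^ N := by
    intro N
    obtain ⟨m, hm⟩ := key N c (h N)
    have h1 : algebraMap S (Localization.AtPrime Q) (g ^ m * c) ∈
        (maximalIdeal (Localization.AtPrime Q)) ^ p ^ N := by
      rw [← Localization.AtPrime.map_eq_maximalIdeal, ← Ideal.map_pow]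
      exact Ideal.mem_map_of_mem _ hm
    have hu : IsUnit (algebraMap S (Localization.AtPrime Q) (g ^ m)) := by
      rw [map_pow]
      exact (IsLocalization.map_units _ (⟨g, hgQ⟩ : Q.primeCompl)).pow m
    rw [map_mul, Ideal.unit_mul_mem_iff_mem _ hu] at h1
    exact Ideal.pow_le_pow_right (Nat.lt_pow_self hp.out.one_lt).le h1
  have h0 : algebraMap S (Localization.AtPrime Q) c = 0 := by
    have hn : IsNoetherianRing (Localization.AtPrime Q) :=
      IsLocalization.isNoetherianRing Q.primeCompl _ inferInstance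
    have h1 := Ideal.iInf_pow_eq_bot_of_isLocalRing (maximalIdeal (Localization.AtPrime Q))
      (maximalIdeal.isMaximal _).ne_top
    have h2 : algebraMap S (Localization.AtPrime Q) c ∈
        ⨅ i : ℕ, (maximalIdeal (Localization.AtPrime Q)) ^ i := by
      rw [Ideal.mem_iInf]
      exact hmem
    rw [h1, Ideal.mem_bot] at h2
    exact h2
  rw [IsLocalization.map_eq_zero_iff Q.primeCompl] at h0
  obtain ⟨v, hv⟩ := h0
  apply v.2
  rw [hc v (by rw [mul_comm]; exact hv)]
  exact Q.zero_mem

/-- in the presence of a regular sequence -/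
theorem tc_dvd {g h : S} (hg : Jg p S g) (hh : Jg p S h) (hg0 : ∀ x, g * x = 0 → x = 0)
    (hreg : ∀ u, g ∣ h * u → g ∣ u) {a b c : S} (hb : ∀ x, b * x = 0 → x = 0)
    (hc : ∀ x, c * x = 0 → x = 0) (habc : ∀ e : ℕ, b ^ p ^ e ∣ c * a ^ p ^ e) : b ∣ a := by
  obtain ⟨N1, h1⟩ := tc hg hc habc
  obtain ⟨N2, h2⟩ := tc hh hc habc
  have hregh : ∀ N u, g ∣ h ^ N * u → g ∣ u := by
    intro N
    induction N with
    | zero => intro u hu; rwa [pow_zero, one_mul] at hu
    | succ N ih =>
      intro u hu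
      rw [pow_succ', mul_assoc] at hu
      exact ih u (hreg _ hu)
  have hregg : ∀ M N u, g ^ M ∣ h ^ N * u → g ^ M ∣ u := by
    intro M
    induction M with
    | zero => intro N u _; rw [pow_zero]; exact one_dvd _
    | succ M ih =>
      rintro N u ⟨v, hv⟩
      obtain ⟨u', rfl⟩ := hregh N u ⟨g ^ M * v, by rw [hv, pow_succ]; ring⟩
      have h3 : g * (h ^ N * u' - g ^ M * v) = 0 := by
        rw [mul_sub, sub_eq_zero, mul_left_comm, hv, pow_succ]; ring
      have h4 := sub_eq_zero.1 (hg0 _ h3)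
      obtain ⟨w, rfl⟩ := ih N u' ⟨v, h4⟩
      exact ⟨w, by rw [pow_succ]; ring⟩
  obtain ⟨u, hu⟩ := h1
  obtain ⟨v, hv⟩ := h2
  have h3 : b * (h ^ N2 * u - g ^ N1 * v) = 0 := by
    linear_combination (-h ^ N2) * hu + g ^ N1 * hv
  have h4 := sub_eq_zero.1 (hb _ h3)
  obtain ⟨u', rfl⟩ := hregg N1 N2 u ⟨v, h4⟩
  have hgN : ∀ N x, g ^ N * x = 0 → x = 0 := by
    intro N
    induction N with
    | zero => intro x hx; rwa [pow_zero, one_mul] at hx
    | succ N ih =>
      intro x hx
      rw [pow_succ', mul_assoc] at hx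
      exact ih x (hg0 _ hx)
  have h5 : g ^ N1 * (a - b * u') = 0 := by linear_combination hu
  exact ⟨u', sub_eq_zero.1 (hgN N1 _ h5)⟩

end tc

section dom

variable {p : ℕ} [hp : Fact p.Prime] {S : Type u} [CommRing S] [IsNoetherianRing S] [IsLocalRing S]
  [CharP S p]

/-- a reduced local ring in which principal ideals are tightly closed is a domain -/
theorem dom_of_tc (hred : ∀ x : S, x ^ p = 0 → x = 0)
    (htc : ∀ a b c : S, (∀ x, b * x = 0 → x = 0) → (∀ x, c * x = 0 → x = 0) →
      (∀ e : ℕ, b ^ p ^ e ∣ c * a ^ p ^ e) → b ∣ a) : IsDomain S := by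
  classical
  have hsq : ∀ x : S, x * x = 0 → x = 0 := by
    intro x hx
    apply hred
    obtain ⟨r, hr⟩ : ∃ r, p = r + 2 := ⟨p - 2, by have := hp.out.two_le; omega⟩
    rw [hr, pow_add, pow_two, hx, mul_zero]
  have hnzd : NoZeroDivisors S := by
    refine ⟨?_⟩
    intro x y hxy
    let I : Ideal S := Submodule.annihilator (Ideal.span {x})
    have hI : ∀ z, z ∈ I ↔ z * x = 0 := by
      intro z
      rw [Submodule.mem_annihilator_span_singleton, smul_eq_mul]
    let J : Ideal S := Submodule.annihilator I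
    have hJ : ∀ z, z ∈ J ↔ ∀ i ∈ I, z * i = 0 := by
      intro z
      rw [Submodule.mem_annihilator]
      rfl
    have hfa : FaithfulSMul S (I ⊔ J : Ideal S) := by
      refine ⟨fun {z z'} hz => ?_⟩
      have h1 : ∀ w ∈ I ⊔ J, (z - z') * w = 0 := by
        intro w hw
        have := congrArg Subtype.val (hz ⟨w, hw⟩)
        simp only [Submodule.coe_smul, smul_eq_mul] at this
        rw [sub_mul, this, sub_self]
      have h2 : z - z' ∈ J := (hJ _).2 fun i hi => h1 i (Ideal.mem_sup_left hi)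
      exact sub_eq_zero.1 (hsq _ (h1 _ (Ideal.mem_sup_right h2)))
    obtain ⟨b, hb, hbn⟩ := Ideal.nonempty_inter_nonZeroDivisors_of_faithfulSMul (I := I ⊔ J)
    have hb' : b ∈ I ⊔ J := hb
    obtain ⟨i, hi, j, hj, rfl⟩ := Submodule.mem_sup.1 hb'
    have hbn' : ∀ x, (i + j) * x = 0 → x = 0 := by
      intro x hx
      rw [mul_comm] at hx
      exact (mem_nonZeroDivisors_iff.1 hbn).2 x hx
    have hij : i * j = 0 := by
      rw [mul_comm]
      exact (hJ j).1 hj i hi
    have hpow : ∀ n : ℕ, (i + j) * i ^ n = i ^ (n + 1) + j * i ^ n := by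
      intro n; ring
    have hpow2 : ∀ n : ℕ, (i + j) ^ (n + 1) * i = (i + j) * i ^ (n + 1) := by
      intro n
      induction n with
      | zero => ring
      | succ n ih =>
        rw [pow_succ', mul_assoc, ih]
        have : (i + j) * i ^ (n + 1) = i ^ (n + 1 + 1) := by
          rw [pow_succ i n]
          linear_combination i ^ n * hij
        rw [this]
    have hdiv := htc i (i + j) (i + j) hbn' hbn' (by
      intro e
      obtain ⟨r, hr⟩ : ∃ r, p ^ e = r + 1 := ⟨p ^ e - 1, by have := q_pos p e; omega⟩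
      rw [hr, ← hpow2]
      exact dvd_mul_right _ _)
    obtain ⟨s, hs⟩ := hdiv
    have h1 : i * (1 - s) = 0 := by
      apply hsq
      have h3 : i * i * (1 - s) = 0 := by linear_combination i * hs + s * hij
      linear_combination (1 - s) * h3
    have h2 : j * s = 0 := by linear_combination (-1 : S) * hs + h1
    rcases IsLocalRing.isUnit_or_isUnit_one_sub_self s with hs1 | hs1
    · have hj0 : j = 0 := by
        obtain ⟨t, ht⟩ := hs1.exists_right_inv
        calc j = j * s * t := by rw [mul_assoc, ht, mul_one]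
          _ = 0 := by rw [h2, zero_mul]
      left
      apply hbn'
      rw [hj0, add_zero]
      exact (hI i).1 hi
    · have hi0 : i = 0 := by
        obtain ⟨t, ht⟩ := hs1.exists_right_inv
        calc i = i * (1 - s) * t := by rw [mul_assoc, ht, mul_one]
          _ = 0 := by rw [h1, zero_mul]
      right
      apply hbn'
      rw [hi0, zero_add]
      apply (hJ j).1 hj
      rw [hI, mul_comm]
      exact hxy
  exact NoZeroDivisors.to_isDomain S

/-- normality -/
theorem norm_of_tc [IsDomain S]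
    (htc : ∀ a b c : S, (∀ x, b * x = 0 → x = 0) → (∀ x, c * x = 0 → x = 0) →
      (∀ e : ℕ, b ^ p ^ e ∣ c * a ^ p ^ e) → b ∣ a) : IsIntegrallyClosed S := by
  classical
  rw [isIntegrallyClosed_iff (FractionRing S)]
  intro x hx
  obtain ⟨c, hc, hcx⟩ := hx.isAlmostIntegral
  have hc0 : c ≠ 0 := nonZeroDivisors.ne_zero hc
  obtain ⟨s, t, ht, rfl⟩ := IsFractionRing.div_surjective (A := S) x
  have ht0 : t ≠ 0 := nonZeroDivisors.ne_zero ht
  have inj := IsFractionRing.injective S (FractionRing S)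
  have ht1 : algebraMap S (FractionRing S) t ≠ 0 := by
    intro h
    exact ht0 (inj (by rw [h, map_zero]))
  have h1 : t ∣ s := by
    refine htc s t c (fun x hx => (mul_eq_zero.1 hx).resolve_left ht0)
      (fun x hx => (mul_eq_zero.1 hx).resolve_left hc0) ?_
    intro e
    obtain ⟨w, hw⟩ := hcx (p ^ e)
    refine ⟨w, ?_⟩
    apply inj
    rw [map_mul (algebraMap S (FractionRing S)) (t ^ p ^ e), hw, Algebra.smul_def, div_pow,
      map_mul, map_pow, map_pow]
    field_simp
  obtain ⟨y, rfl⟩ := h1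
  refine ⟨y, ?_⟩
  rw [map_mul]
  field_simp

end dom

/-- NORM -/
theorem t_NORM : S_NORM.{u} := by
  classical
  intro p hp R S _ _ _ _ _ _ _ _ _ hC hF hFP hG
  haveI := hC.noethR
  haveI := hC.noethS
  haveI := hC.ff
  have hinj : Function.Injective (algebraMap R S) := FaithfulSMul.algebraMap_injective R S
  obtain ⟨g, h, hg0, hg, hh, hreg⟩ := exists_reg (p := p) (R := R) hF
  obtain ⟨⟨s, hs, hsS⟩, hext⟩ := hG
  -- transfer of `Jg`
  have hJ : ∀ g : R, Jg p R g → Jg p S (algebraMap R S g) := by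
    rintro g ⟨n, e, θ, hθ⟩
    choose ψ hψ using fun i => hext 1 (θ i)
    refine ⟨n, fun i => algebraMap R S (e i), ψ, ?_⟩
    intro x
    obtain ⟨a, ha⟩ := hsS x
    have h1 : ∀ i, (ψ i).1 x = ∑ y ∈ s, a y * algebraMap R S ((θ i).1 y) := by
      intro i
      conv_lhs => rw [ha]
      rw [map_sum]
      apply Finset.sum_congr rfl
      intro y _
      have := (ψ i).2 (a y) (algebraMap R S y)
      rw [pow_one] at this
      rw [this, hψ]
    have h2 : ∀ i, (ψ i).1 x ^ p * algebraMap R S (e i) =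
        ∑ y ∈ s, a y ^ p * algebraMap R S ((θ i).1 y ^ p * e i) := by
      intro i
      rw [h1, sum_pow_char, Finset.sum_mul]
      apply Finset.sum_congr rfl
      intro y _
      rw [map_mul, map_pow]
      ring
    rw [Finset.sum_congr rfl (fun i _ => h2 i), Finset.sum_comm]
    conv_lhs => rw [ha]
    rw [Finset.mul_sum]
    apply Finset.sum_congr rfl
    intro y _
    rw [← Finset.mul_sum, ← map_sum, ← hθ, map_mul, map_pow]
    ring
  have hflat : Module.Flat R S := inferInstance
  -- regularity in `S`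
  have hg0S : ∀ x : S, algebraMap R S g * x = 0 → x = 0 := by
    intro x hx
    have h1 : ∑ i : Fin 1, (fun _ => g) i • (fun _ => x) i = 0 := by
      rw [Fin.sum_univ_one, Algebra.smul_def]; exact hx
    obtain ⟨k, a, y, h2, h3⟩ := Module.Flat.isTrivialRelation_of_sum_smul_eq_zero (R := R) (M := S)
      (f := fun _ : Fin 1 => g) (x := fun _ => x) h1
    have h4 := h2 0
    simp only at h4
    rw [h4]
    apply Finset.sum_eq_zero
    intro j _
    have h5 := h3 j
    rw [Fin.sum_univ_one] at h5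
    rw [(mul_eq_zero.1 h5).resolve_left hg0, zero_smul]
  have hregS : ∀ u : S, algebraMap R S g ∣ algebraMap R S h * u → algebraMap R S g ∣ u := by
    rintro u ⟨v, hv⟩
    have h1 : ∑ i : Fin 2, (![h, -g] : Fin 2 → R) i • (![u, v] : Fin 2 → S) i = 0 := by
      rw [Fin.sum_univ_two]
      simp only [Matrix.cons_val_zero, Matrix.cons_val_one, Algebra.smul_def, map_neg]
      rw [hv]; ring
    obtain ⟨k, a, y, h2, h3⟩ := Module.Flat.isTrivialRelation_of_sum_smul_eq_zero (R := R) (M := S)
      (f := ![h, -g]) (x := ![u, v]) h1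
    have h4 := h2 0
    simp only [Matrix.cons_val_zero] at h4
    rw [h4]
    apply Finset.dvd_sum
    intro j _
    have h5 := h3 j
    rw [Fin.sum_univ_two] at h5
    simp only [Matrix.cons_val_zero, Matrix.cons_val_one] at h5
    obtain ⟨w, hw⟩ := hreg (a 0 j) ⟨a 1 j, by linear_combination h5⟩
    rw [hw, Algebra.smul_def, map_mul, mul_assoc]
    exact dvd_mul_right _ _
  have htc : ∀ a b c : S, (∀ x, b * x = 0 → x = 0) → (∀ x, c * x = 0 → x = 0) →
      (∀ e : ℕ, b ^ p ^ e ∣ c * a ^ p ^ e) → b ∣ a :=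
    fun a b c hb hc habc => tc_dvd (hJ g hg) (hJ h hh) hg0S hregS hb hc habc
  have hred : ∀ x : S, x ^ p = 0 → x = 0 := by
    intro x hx
    obtain ⟨φ, hφ⟩ := hFP
    obtain ⟨ψ, hψ⟩ := hext 1 φ
    have h1 := ψ.2 x 1
    rw [pow_one, hx, zero_mul, map_zero, ← map_one (algebraMap R S), hψ, hφ, map_one, mul_one] at h1
    exact h1.symm
  have hdom : IsDomain S := dom_of_tc hred htc
  exact ⟨hdom, norm_of_tc htc⟩

end Run7.h889
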