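import Pool.Agent.Run7.h889.Main
import Pool.Agent.Run7.h889.Norm
import Pool.Agent.Run7.h889.Ftr
import Pool.Agent.Run7.h889.C0
import Pool.Agent.Run7.h889.Dim
import Pool.Agent.Run7.h892.P889.CE

set_option autoImplicit false
set_option linter.unusedSimpArgs false
set_option linter.unusedVariables false
set_option linter.unusedSectionVars false
set_option linter.deprecated false

namespace Run7.h889

open Module IsLocalRing

universe u v

/-- **The upper bound** `fpt(𝔪) ≤ d - 3/2` for rings that are not `ℚ`-Gorenstein. -/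
theorem fpt_le (hCOEF : S_COEF.{u}) (hSTR : S_STR.{u}) (hDESC : S_DESC.{u}) (hRT : S_RT.{u})
    {p d : ℕ} (hd : 2 ≤ d) {R : Type u} [CommRing R] [IsLocalRing R]
    (h : IsFPureNonQGor p d R) :
    fpt p R (maximalIdeal R) ≤ (((d : ℝ) - 3 / 2 : ℝ) : EReal) := by
  by_contra hc
  push Not at hc
  haveI := Fact.mk h.prime
  haveI := h.char
  haveI := h.isDomain
  haveI := h.isNoetherian
  haveI := h.isNormal
  exact h.not_qgor (upper_bound hCOEF t_FTR hSTR t_C0 t_DIM Run7.h892.P889.t_CE t_NORM hDESC hRT
    h.isFFinite h.isFPure h.dim_eq hd (big_of_fpt hd hc))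

end Run7.h889
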