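import Pool.Agent.Run7.h889.WEx2

set_option autoImplicit false
set_option linter.unusedSimpArgs false
set_option linter.unusedVariables false
set_option linter.unusedSectionVars false
set_option linter.deprecated false

namespace Run7.h889

open MvPowerSeries
open scoped TensorProduct

universe u

section

variable (n : ℕ) (K : Type u) [Field K]

/-- the index of `z_k` -/
def vz (k : Fin n) : Fin (n + 4) := ⟨k.val + 4, by omega⟩

lemma eq_vz {i : Fin (n + 4)} (h : 4 ≤ i.val) : ∃ k, i = vz n k :=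
  ⟨⟨i.val - 4, by omega⟩, Fin.ext (by simp only [vz]; omega)⟩

lemma wt_z (k : Fin n) : wt (exw n) (Finsupp.single (vz n k) 1) = 0 := by
  rw [wt_single, exw_z n (by simp [vz]), mul_zero]

lemma wt_mo0 (a b c e : ℕ) (h : a + b = 2 * c + e) : wt (exw n) (mo n a b c e) = 0 := by
  rw [wt_mo]
  have : (a : ℤ) + b = 2 * c + e := by exact_mod_cast h
  linarith

/-- the rank function -/
def rk (i : Fin (n + 4)) : ℕ :=
  if i.val = 0 then n else if i.val = 1 then n + 3 else if i.val = 2 then n + 2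
    else if i.val = 3 then n + 1 else i.val - 4

lemma rk_s : rk n (vs n) = n := by simp [rk, vs]
lemma rk_t : rk n (vt n) = n + 3 := by simp [rk, vt]
lemma rk_x : rk n (vx n) = n + 2 := by simp [rk, vx]
lemma rk_y : rk n (vy n) = n + 1 := by simp [rk, vy]
lemma rk_z (k : Fin n) : rk n (vz n k) = k.val := by simp [rk, vz]

/-- the test monomials -/
noncomputable def tm (k : Fin (n + 3)) : Fin (n + 4) →₀ ℕ :=
  if h : k.val < n then Finsupp.single (vz n ⟨k.val, h⟩) 1
  else if k.val = n then mo n 1 0 0 1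
  else if k.val = n + 1 then mo n 0 1 0 1
  else mo n 0 2 1 0

lemma dim_ge_ex : ((n + 3 : ℕ) : WithBot ℕ∞) ≤ ringKrullDim (WR (exw n) K) := by
  refine dim_ge K (exw n) (n + 3) (rk n) (tm n) ?_ ?_ ?_
  · intro k
    unfold tm
    split_ifs
    · exact wt_z n _
    · exact wt_mo0 n _ _ _ _ rfl
    · exact wt_mo0 n _ _ _ _ rfl
    · exact wt_mo0 n _ _ _ _ rfl
  · intro k i
    unfold tm
    split_ifs with h1 h2 h3
    · intro hi
      by_cases h : vz n ⟨k.val, h1⟩ = i
      · rw [← h, rk_z]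
      · rw [Finsupp.single_apply, if_neg h] at hi
        exact absurd rfl hi
    · intro hi
      rcases cases_v n i with rfl | rfl | rfl | rfl | h
      · rw [rk_s]; omega
      · rw [rk_t]; omega
      · rw [rk_x]; omega
      · rw [rk_y]; omega
      · rw [mo_z n _ _ _ _ h] at hi
        exact absurd rfl hi
    · intro hi
      rcases cases_v n i with rfl | rfl | rfl | rfl | h
      · rw [mo_s] at hi; exact absurd rfl hi
      · rw [rk_t]; omega
      · rw [rk_x]; omega
      · rw [rk_y]; omega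
      · rw [mo_z n _ _ _ _ h] at hi
        exact absurd rfl hi
    · intro hi
      have hk := k.2
      rcases cases_v n i with rfl | rfl | rfl | rfl | h
      · rw [mo_s] at hi; exact absurd rfl hi
      · rw [rk_t]; omega
      · rw [rk_x]; omega
      · rw [mo_y] at hi; exact absurd rfl hi
      · rw [mo_z n _ _ _ _ h] at hi
        exact absurd rfl hi
  · intro k
    unfold tm
    split_ifs with h1 h2 h3
    · refine ⟨vz n ⟨k.val, h1⟩, ?_, rk_z n _⟩
      simp
    · refine ⟨vs n, ?_, by rw [rk_s, h2]⟩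
      rw [mo_s]; norm_num
    · refine ⟨vy n, ?_, by rw [rk_y, h3]⟩
      rw [mo_y]; norm_num
    · refine ⟨vx n, ?_, ?_⟩
      · rw [mo_x]; norm_num
      · rw [rk_x]
        have := k.2
        omega

/-- the system of parameters -/
noncomputable def thex (k : Fin (n + 3)) : WR (exw n) K :=
  if h : k.val < n then Mon (exw n) (Finsupp.single (vz n ⟨k.val, h⟩) 1) (wt_z n _)
  else if k.val = n then Mon (exw n) (mo n 2 0 1 0) (wt_mo0 n _ _ _ _ rfl)
  else if k.val = n + 1 then Mon (exw n) (mo n 0 2 1 0) (wt_mo0 n _ _ _ _ rfl) +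
    Mon (exw n) (mo n 1 0 0 1) (wt_mo0 n _ _ _ _ rfl)
  else Mon (exw n) (mo n 0 1 0 1) (wt_mo0 n _ _ _ _ rfl)

lemma dim_le_ex : ringKrullDim (WR (exw n) K) ≤ ((n + 3 : ℕ) : WithBot ℕ∞) := by
  classical
  refine dim_le K (exw n) (n + 3) (thex n K) ?_ ?_
  · intro k
    unfold thex
    split_ifs
    · apply Mon_mem_max
      intro h
      have := DFunLike.congr_fun h (vz n ⟨k.val, by assumption⟩)
      simp at this
    · exact Mon_mem_max _ _ _ (mo_ne n _ _ _ _ (by norm_num))
    · exact Ideal.add_mem _ (Mon_mem_max _ _ _ (mo_ne n _ _ _ _ (by norm_num)))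
        (Mon_mem_max _ _ _ (mo_ne n _ _ _ _ (by norm_num)))
    · exact Mon_mem_max _ _ _ (mo_ne n _ _ _ _ (by norm_num))
  · intro P hP hθ
    set A : WR (exw n) K := Mon (exw n) (mo n 2 0 1 0) (wt_mo0 n _ _ _ _ rfl) with hA
    set B : WR (exw n) K := Mon (exw n) (mo n 1 1 1 0) (wt_mo0 n _ _ _ _ rfl) with hB
    set C' : WR (exw n) K := Mon (exw n) (mo n 0 2 1 0) (wt_mo0 n _ _ _ _ rfl) with hC
    set D : WR (exw n) K := Mon (exw n) (mo n 1 0 0 1) (wt_mo0 n _ _ _ _ rfl) with hD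
    set E : WR (exw n) K := Mon (exw n) (mo n 0 1 0 1) (wt_mo0 n _ _ _ _ rfl) with hE
    have tA : A ∈ P := by
      have := hθ ⟨n, by omega⟩
      unfold thex at this
      simp only [lt_irrefl, dite_false, if_true] at this
      exact this
    have tCD : C' + D ∈ P := by
      have := hθ ⟨n + 1, by omega⟩
      unfold thex at this
      rw [dif_neg (by simp), if_neg (by simp), if_pos rfl] at this
      exact this
    have tE : E ∈ P := by
      have := hθ ⟨n + 2, by omega⟩
      unfold thex at this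
      rw [dif_neg (by simp), if_neg (by simp), if_neg (by simp)] at this
      exact this
    have mm : ∀ a b c e a' b' c' e' : ℕ,
        (monomial (mo n a b c e) (1 : K) : MvPowerSeries (Fin (n + 4)) K) *
          monomial (mo n a' b' c' e') 1 =
        monomial (mo n (a + a') (b + b') (c + c') (e + e')) 1 := by
      intro a b c e a' b' c' e'
      rw [monomial_mul_monomial, one_mul]
      congr 2
      ext i
      rw [Finsupp.add_apply]
      rcases cases_v n i with rfl | rfl | rfl | rfl | h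
      · rw [mo_s, mo_s, mo_s]
      · rw [mo_t, mo_t, mo_t]
      · rw [mo_x, mo_x, mo_x]
      · rw [mo_y, mo_y, mo_y]
      · rw [mo_z n _ _ _ _ h, mo_z n _ _ _ _ h, mo_z n _ _ _ _ h]
    have r1 : B * B = A * C' := by
      apply Subtype.ext
      change monomial (mo n 1 1 1 0) (1 : K) * monomial (mo n 1 1 1 0) 1 =
        monomial (mo n 2 0 1 0) 1 * monomial (mo n 0 2 1 0) 1
      rw [mm, mm]
    have r2 : C' * D = B * E := by
      apply Subtype.ext
      change monomial (mo n 0 2 1 0) (1 : K) * monomial (mo n 1 0 0 1) 1 =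
        monomial (mo n 1 1 1 0) 1 * monomial (mo n 0 1 0 1) 1
      rw [mm, mm]
    have tB : B ∈ P := by
      have : B * B ∈ P := by
        rw [r1]
        exact P.mul_mem_right _ tA
      exact (hP.mem_or_mem this).elim id id
    have tCD' : C' ∈ P ∧ D ∈ P := by
      have : C' * D ∈ P := by
        rw [r2]
        exact P.mul_mem_right _ tB
      rcases hP.mem_or_mem this with h | h
      · exact ⟨h, by simpa using P.sub_mem tCD h⟩
      · exact ⟨by simpa using P.sub_mem tCD h, h⟩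
    intro f hf
    let T : Finset (Fin (n + 4) →₀ ℕ) :=
      {mo n 2 0 1 0, mo n 1 1 1 0, mo n 0 2 1 0, mo n 1 0 0 1, mo n 0 1 0 1} ∪
        Finset.univ.image (fun k : Fin n => Finsupp.single (vz n k) 1)
    refine mem_of_mono (exw n) P T ?_ f ?_
    · intro v hv
      simp only [T, Finset.mem_union, Finset.mem_insert, Finset.mem_singleton, Finset.mem_image,
        Finset.mem_univ, true_and] at hv
      rcases hv with (rfl | rfl | rfl | rfl | rfl) | ⟨k, rfl⟩
      · exact ⟨_, tA⟩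
      · exact ⟨_, tB⟩
      · exact ⟨_, tCD'.1⟩
      · exact ⟨_, tCD'.2⟩
      · exact ⟨_, tE⟩
      · refine ⟨wt_z n k, ?_⟩
        have := hθ ⟨k.val, by omega⟩
        unfold thex at this
        rw [dif_pos k.2] at this
        exact this
    · intro u hu
      rw [mem_max] at hf
      have hw := f.2 u hu
      have hu0 : u ≠ 0 := by
        rintro rfl
        exact hu hf
      simp only [T, Finset.mem_union, Finset.mem_insert, Finset.mem_singleton, Finset.mem_image,
        Finset.mem_univ, true_and]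
      by_cases hz : ∃ k, u (vz n k) ≠ 0
      · obtain ⟨k, hk⟩ := hz
        refine ⟨_, Or.inr ⟨k, rfl⟩, ?_⟩
        rw [Finsupp.single_le_iff]
        omega
      · push Not at hz
        rw [wt_ex] at hw
        have hne : ¬ (u (vx n) = 0 ∧ u (vy n) = 0) := by
          rintro ⟨h2, h3⟩
          apply hu0
          ext i
          rcases cases_v n i with rfl | rfl | rfl | rfl | h
          · simp only [Finsupp.coe_zero, Pi.zero_apply]; omega
          · simp only [Finsupp.coe_zero, Pi.zero_apply]; omega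
          · exact h2
          · exact h3
          · obtain ⟨k, rfl⟩ := eq_vz n h
            exact hz k
        by_cases h3 : u (vy n) = 0
        · have h2 : 1 ≤ u (vx n) := by omega
          by_cases h0 : 2 ≤ u (vs n)
          · exact ⟨_, Or.inl (Or.inl rfl), mo_le n _ _ _ _ u h0 (Nat.zero_le _) h2 (Nat.zero_le _)⟩
          · by_cases h1 : 2 ≤ u (vt n)
            · exact ⟨_, Or.inl (Or.inr (Or.inr (Or.inl rfl))),
                mo_le n _ _ _ _ u (Nat.zero_le _) h1 h2 (Nat.zero_le _)⟩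
            · exact ⟨_, Or.inl (Or.inr (Or.inl rfl)),
                mo_le n _ _ _ _ u (by omega) (by omega) h2 (Nat.zero_le _)⟩
        · by_cases h0 : 1 ≤ u (vs n)
          · exact ⟨_, Or.inl (Or.inr (Or.inr (Or.inr (Or.inl rfl)))),
              mo_le n _ _ _ _ u h0 (Nat.zero_le _) (Nat.zero_le _) (by omega)⟩
          · exact ⟨_, Or.inl (Or.inr (Or.inr (Or.inr (Or.inr rfl)))),
              mo_le n _ _ _ _ u (Nat.zero_le _) (by omega) (Nat.zero_le _) (by omega)⟩

theorem dim_ex : ringKrullDim (WR (exw n) K) = ((n + 3 : ℕ) : WithBot ℕ∞) :=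
  le_antisymm (dim_le_ex n K) (dim_ge_ex n K)

variable (p : ℕ) [hp : Fact p.Prime] [CharP K p] [PerfectRing K p]

theorem not_qgor_ex : ¬ IsQGorenstein p (WR (exw n) K) := by
  classical
  intro hQ
  have hdom := dom_mv (m := n + 4) K
  obtain ⟨r, hr, l, hl⟩ := qgor_form (exw n) p (enough_ex n) hQ
  obtain ⟨Q, hQ'⟩ : ∃ Q, Q = p ^ 1 - 1 := ⟨_, rfl⟩
  have hQ1 : 1 ≤ Q := by
    have := hp.out.two_le
    rw [hQ', pow_one]
    omega
  have hg1 : HasWt (exw n) (((p ^ 1 - 1 : ℕ) : ℤ) * tot (exw n))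
      (monomial (mo n 0 0 0 Q) (1 : K)) := by
    have := hasWt_monomial (K := K) (exw n) (mo n 0 0 0 Q) 1
    rw [wt_mo] at this
    rw [tot_ex, ← hQ']
    have e : ((0 : ℕ) : ℤ) + (0 : ℕ) - 2 * (0 : ℕ) - Q = (Q : ℤ) * -1 := by push_cast; ring
    rwa [e] at this
  have hg2 : HasWt (exw n) (((p ^ 1 - 1 : ℕ) : ℤ) * tot (exw n))
      (monomial (mo n Q 0 Q 0) (1 : K)) := by
    have := hasWt_monomial (K := K) (exw n) (mo n Q 0 Q 0) 1
    rw [wt_mo] at this
    rw [tot_ex, ← hQ']
    have e : (Q : ℤ) + (0 : ℕ) - 2 * Q - (0 : ℕ) = (Q : ℤ) * -1 := by push_cast; ring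
    rwa [e] at this
  let φ1 : FHom p 1 (WR (exw n) K) := phiG (exw n) p 1 _ hg1
  let φ2 : FHom p 1 (WR (exw n) K) := phiG (exw n) p 1 _ hg2
  have G1 : Gof (exw n) p (enough_ex n) 1 φ1 = monomial (mo n 0 0 0 Q) 1 :=
    Gof_eq (exw n) p (enough_ex n) 1 φ1 _ hg1 (fun f => rfl)
  have G2 : Gof (exw n) p (enough_ex n) 1 φ2 = monomial (mo n Q 0 Q 0) 1 :=
    Gof_eq (exw n) p (enough_ex n) 1 φ2 _ hg2 (fun f => rfl)
  obtain ⟨N, hN⟩ : ∃ N, N = r * Q := ⟨_, rfl⟩
  have hN1 : 1 ≤ N := by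
    rw [hN]
    exact Nat.mul_pos hr hQ1
  have mm : ∀ a b c e a' b' c' e' : ℕ,
      (monomial (mo n a b c e) (1 : K) : MvPowerSeries (Fin (n + 4)) K) *
        monomial (mo n a' b' c' e') 1 =
      monomial (mo n (a + a') (b + b') (c + c') (e + e')) 1 := by
    intro a b c e a' b' c' e'
    rw [monomial_mul_monomial, one_mul]
    congr 2
    ext i
    rw [Finsupp.add_apply]
    rcases cases_v n i with rfl | rfl | rfl | rfl | h
    · rw [mo_s, mo_s, mo_s]
    · rw [mo_t, mo_t, mo_t]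
    · rw [mo_x, mo_x, mo_x]
    · rw [mo_y, mo_y, mo_y]
    · rw [mo_z n _ _ _ _ h, mo_z n _ _ _ _ h, mo_z n _ _ _ _ h]
  have mp : ∀ a b c e k : ℕ, (monomial (mo n a b c e) (1 : K) : MvPowerSeries (Fin (n + 4)) K) ^ k =
      monomial (mo n (k * a) (k * b) (k * c) (k * e)) 1 := by
    intro a b c e k
    rw [monomial_pow, one_pow]
    congr 2
    ext i
    rw [Finsupp.smul_apply, smul_eq_mul]
    rcases cases_v n i with rfl | rfl | rfl | rfl | h
    · rw [mo_s, mo_s]
    · rw [mo_t, mo_t]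
    · rw [mo_x, mo_x]
    · rw [mo_y, mo_y]
    · rw [mo_z n _ _ _ _ h, mo_z n _ _ _ _ h, mul_zero]
  obtain ⟨cs, hcs⟩ := hl (monomial (mo n N 0 0 0) 1)
  obtain ⟨ct, hct⟩ := hl (monomial (mo n 0 N 0 0) 1)
  set ρ := l (fun _ => φ1) with hρ
  set ρ' := l (fun _ => φ2) with hρ'
  have hval : ∀ (a b c e : ℕ) (h : a + b = 2 * c + e) (x : WR (exw n) K),
      rho (exw n) (monomial (mo n a b c e) (1 : K)) = x →
      x.1 = monomial (mo n a b c e) 1 := by
    intro a b c e h x hx
    rw [← hx]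
    apply comp0_of_hasWt
    have := hasWt_monomial (K := K) (exw n) (mo n a b c e) 1
    rwa [wt_mo0 n a b c e h] at this
  have E1 : cs.1 * ρ.1 = monomial (mo n N 0 0 N) 1 := by
    have h1 := hcs (fun _ => φ1)
    simp only [G1, Finset.prod_const, Finset.card_univ, Fintype.card_fin] at h1
    rw [mp, mm, ← hN] at h1
    exact hval N 0 0 N (by omega) _ (by simpa using h1)
  have E2 : ct.1 * ρ.1 = monomial (mo n 0 N 0 N) 1 := by
    have h1 := hct (fun _ => φ1)
    simp only [G1, Finset.prod_const, Finset.card_univ, Fintype.card_fin] at h1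
    rw [mp, mm, ← hN] at h1
    exact hval 0 N 0 N (by omega) _ (by simpa using h1)
  have E3 : cs.1 * ρ'.1 = monomial (mo n (N + N) 0 N 0) 1 := by
    have h1 := hcs (fun _ => φ2)
    simp only [G2, Finset.prod_const, Finset.card_univ, Fintype.card_fin] at h1
    rw [mp, mm, ← hN] at h1
    exact hval (N + N) 0 N 0 (by omega) _ (by simpa using h1)
  -- `(xs)^N ρ = y^N ρ'`
  have E4 : monomial (mo n N 0 N 0) 1 * ρ.1 = monomial (mo n 0 0 0 N) 1 * ρ'.1 := by
    have hcs0 : cs.1 ≠ 0 := by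
      intro h
      rw [h, zero_mul] at E1
      exact mono_ne_zero (K := K) _ E1.symm
    apply mul_left_cancel₀ hcs0
    have h1 : cs.1 * (monomial (mo n N 0 N 0) 1 * ρ.1) =
        monomial (mo n N 0 N 0) 1 * (cs.1 * ρ.1) := by ring
    have h2 : cs.1 * (monomial (mo n 0 0 0 N) 1 * ρ'.1) =
        monomial (mo n 0 0 0 N) 1 * (cs.1 * ρ'.1) := by ring
    rw [h1, h2, E1, E3, mm, mm]
    simp
  have E5 := mono_dvd (u := mo n N 0 N 0) (u' := mo n 0 0 0 N) (by
    intro i
    rcases cases_v n i with rfl | rfl | rfl | rfl | h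
    · right; rw [mo_s]
    · right; rw [mo_t]
    · right; rw [mo_x]
    · left; rw [mo_y]
    · left; rw [mo_z n _ _ _ _ h]) E4
  set σ := shift (mo n 0 0 0 N) ρ.1 with hσ
  have F1 : cs.1 * σ = monomial (mo n N 0 0 0) 1 := by
    apply mul_left_cancel₀ (mono_ne_zero (K := K) (mo n 0 0 0 N))
    have h1 : monomial (mo n 0 0 0 N) 1 * (cs.1 * σ) = cs.1 * (monomial (mo n 0 0 0 N) 1 * σ) := by
      ring
    rw [h1, ← E5, E1, mm]
    simp
  have F2 : ct.1 * σ = monomial (mo n 0 N 0 0) 1 := by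
    apply mul_left_cancel₀ (mono_ne_zero (K := K) (mo n 0 0 0 N))
    have h1 : monomial (mo n 0 0 0 N) 1 * (ct.1 * σ) = ct.1 * (monomial (mo n 0 0 0 N) 1 * σ) := by
      ring
    rw [h1, ← E5, E2, mm]
    simp
  have hs : (monomial (mo n N 0 0 0) (1 : K) : MvPowerSeries (Fin (n + 4)) K) = X (vs n) ^ N := by
    rw [X_pow_eq]
    congr 2
    simp [mo]
  have ht : (monomial (mo n 0 N 0 0) (1 : K) : MvPowerSeries (Fin (n + 4)) K) = X (vt n) ^ N := by
    rw [X_pow_eq]
    congr 2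
    simp [mo]
  have hd1 : σ ∣ X (vs n) ^ N := by
    rw [← hs, ← F1]
    exact Dvd.intro_left _ rfl
  have hd2 : σ ∣ X (vt n) ^ N := by
    rw [← ht, ← F2]
    exact Dvd.intro_left _ rfl
  have hunit : IsUnit σ := by
    obtain ⟨i, hi, has⟩ := (dvd_prime_pow (X_prime' (K := K) (vs n)) N).1 hd1
    have hi0 : i = 0 := by
      by_contra hne
      have h1 : (X (vs n) : MvPowerSeries (Fin (n + 4)) K) ∣ X (vt n) ^ N :=
        ((dvd_pow_self _ hne).trans has.symm.dvd).trans hd2
      have h2 := (X_prime' (K := K) (vs n)).dvd_of_dvd_pow h1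
      rw [X_dvd_iff] at h2
      have h3 := h2 (Finsupp.single (vt n) 1) (by
        rw [Finsupp.single_apply, if_neg (ne_st n).symm])
      rw [X_def, coeff_monomial_same] at h3
      exact one_ne_zero h3
    rw [hi0, pow_zero] at has
    exact has.symm.isUnit isUnit_one
  have hc := hunit.map (constantCoeff (σ := Fin (n + 4)) (R := K))
  have hc' : coeff (mo n 0 0 0 N) ρ.1 ≠ 0 := by
    rw [E5]
    have h1 : coeff (mo n 0 0 0 N + 0) (monomial (mo n 0 0 0 N) (1 : K) * σ) = coeff 0 σ := by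
      rw [coeff_add_monomial_mul, one_mul]
    rw [add_zero] at h1
    rw [h1]
    exact hc.ne_zero
  have h9 := ρ.2 _ hc'
  rw [wt_mo] at h9
  simp at h9
  omega

/-- the F-pure threshold of the example -/
theorem fpt_ex : fpt p (WR (exw n) K) (IsLocalRing.maximalIdeal (WR (exw n) K)) =
    (((n : ℝ) + 3 / 2 : ℝ) : EReal) := by
  apply le_antisymm
  · apply sSup_le
    rintro x ⟨t, ht0, ⟨e0, he0⟩, rfl⟩
    rw [EReal.coe_le_coe_iff]
    obtain ⟨f, hf, φ, hφ⟩ := he0 (e0 + 1) (by omega)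
    have h1 := upper_ex n K p (e0 + 1) _ f hf φ hφ
    have h2 : t * ((p : ℝ) ^ (e0 + 1) - 1) ≤ (⌈t * ((p : ℝ) ^ (e0 + 1) - 1)⌉₊ : ℝ) := Nat.le_ceil _
    have hp1 : 1 < p ^ (e0 + 1) := Nat.one_lt_pow (by omega) hp.out.one_lt
    have h3 : ((p ^ (e0 + 1) - 1 : ℕ) : ℝ) = (p : ℝ) ^ (e0 + 1) - 1 := by
      rw [Nat.cast_sub hp1.le]
      push_cast
      ring
    have h4 : (2 * (⌈t * ((p : ℝ) ^ (e0 + 1) - 1)⌉₊ : ℝ)) ≤
        (2 * n + 3) * ((p : ℝ) ^ (e0 + 1) - 1) := by
      have h7 : ((2 * ⌈t * ((p : ℝ) ^ (e0 + 1) - 1)⌉₊ : ℕ) : ℝ) ≤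
          (((2 * n + 3) * (p ^ (e0 + 1) - 1) : ℕ) : ℝ) := Nat.cast_le.2 h1
      rw [Nat.cast_mul, Nat.cast_mul, h3] at h7
      push_cast at h7
      exact h7
    have h5 : (0 : ℝ) < (p : ℝ) ^ (e0 + 1) - 1 := by
      have : (1 : ℝ) < (p : ℝ) ^ (e0 + 1) := by exact_mod_cast hp1
      linarith
    have h6 : t * ((p : ℝ) ^ (e0 + 1) - 1) ≤ ((n : ℝ) + 3 / 2) * ((p : ℝ) ^ (e0 + 1) - 1) := by
      linarith
    exact le_of_mul_le_mul_right h6 h5
  · by_contra hc
    push Not at hc
    obtain ⟨t, ht1, ht2⟩ := EReal.lt_iff_exists_real_btwn.1 hc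
    have ht2' : t < (n : ℝ) + 3 / 2 := EReal.coe_lt_coe_iff.1 ht2
    have hn0 : (0 : ℝ) ≤ n := Nat.cast_nonneg n
    have hmem : ((max t 0 : ℝ) : EReal) ∈ {x : EReal | ∃ t : ℝ, 0 ≤ t ∧
        PairFPure p (WR (exw n) K) (IsLocalRing.maximalIdeal (WR (exw n) K)) t ∧
        x = (t : EReal)} := by
      refine ⟨max t 0, le_max_right _ _, ?_, rfl⟩
      obtain ⟨t', ht'⟩ : ∃ t', t' = max t 0 := ⟨_, rfl⟩
      rw [← ht']
      have ht'0 : 0 ≤ t' := by rw [ht']; exact le_max_right _ _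
      have ht'1 : t' < (n : ℝ) + 3 / 2 := by
        rw [ht']
        exact max_lt ht2' (by positivity)
      obtain ⟨e0, he0⟩ := exists_nat_ge ((3 / 2) / ((n : ℝ) + 3 / 2 - t'))
      refine ⟨e0, fun e he => ?_⟩
      obtain ⟨f, hf, φ, hφ⟩ := lower_ex n K p e
      refine ⟨f, ?_, φ, hφ⟩
      refine Ideal.pow_le_pow_right ?_ hf
      rw [Nat.ceil_le]
      have hpe : e + 1 ≤ p ^ e := Nat.lt_pow_self hp.out.one_lt
      have h3 : ((p ^ e - 1 : ℕ) : ℝ) = (p : ℝ) ^ e - 1 := by
        rw [Nat.cast_sub (by omega)]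
        push_cast
        ring
      have h4 : (e : ℝ) ≤ (p : ℝ) ^ e - 1 := by
        have : ((e + 1 : ℕ) : ℝ) ≤ ((p ^ e : ℕ) : ℝ) := by exact_mod_cast hpe
        push_cast at this
        linarith
      have h5 : (((p ^ e - 1) / 2 : ℕ) : ℝ) ≥ ((p : ℝ) ^ e - 1) / 2 - 1 / 2 := by
        have h6 : p ^ e - 1 ≤ 2 * ((p ^ e - 1) / 2) + 1 := by omega
        have h7 : ((p ^ e - 1 : ℕ) : ℝ) ≤ ((2 * ((p ^ e - 1) / 2) + 1 : ℕ) : ℝ) := by
          exact_mod_cast h6
        rw [h3] at h7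
        push_cast at h7
        linarith
      have hδ : 0 < (n : ℝ) + 3 / 2 - t' := by linarith
      have h8 : 3 / 2 ≤ ((n : ℝ) + 3 / 2 - t') * ((p : ℝ) ^ e - 1) := by
        have h9 : (3 / 2) / ((n : ℝ) + 3 / 2 - t') ≤ (p : ℝ) ^ e - 1 := by
          have : (e0 : ℝ) ≤ e := by exact_mod_cast he
          linarith
        rw [div_le_iff₀ hδ] at h9
        linarith
      push_cast
      rw [h3]
      nlinarith
    have h1 := le_sSup hmem
    have h2 : (t : EReal) ≤ ((max t 0 : ℝ) : EReal) := EReal.coe_le_coe_iff.2 (le_max_left _ _)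
    exact absurd (lt_of_lt_of_le ht1 (h2.trans h1)) (lt_irrefl _)

theorem isFPureNonQGor_ex : IsFPureNonQGor p (n + 3) (WR (exw n) K) where
  prime := hp.out
  char := charP_WR (exw n) p
  isDomain := inferInstance
  isNoetherian := inferInstance
  isLocal := inferInstance
  isNormal := inferInstance
  isFFinite := isFFinite_WR (exw n) K p (enough_ex n).mon
  isFPure := by
    obtain ⟨φ, hφ⟩ := exists_phi_one (K := K) (exw n) p 1 0 (wt_zero _) (fun i => by
      have := q_pos p 1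
      simpa using this)
    refine ⟨φ, ?_⟩
    have h1 : (Mon (exw n) 0 (wt_zero _) : WR (exw n) K) = 1 := by
      apply Subtype.ext
      change monomial 0 (1 : K) = 1
      exact monomial_zero_one
    rw [← h1]
    exact hφ
  dim_eq := dim_ex n K
  not_qgor := not_qgor_ex n K p

end

end Run7.h889
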