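import Pool.Agent.Run7.h889.Final
import Pool.Agent.Run7.h889.WEx3

set_option autoImplicit false

namespace Run7.h889

open Module IsLocalRing

universe u v

/-- the lower bound -/
theorem attained (d : ℕ) (hd : 3 ≤ d) (p : ℕ) (hp : p.Prime) :
    ∃ (R : Type) (_ : CommRing R) (_ : IsLocalRing R), IsFPureNonQGor p d R ∧
      fpt p R (IsLocalRing.maximalIdeal R) = (((d : ℝ) - 3 / 2 : ℝ) : EReal) := by
  have := Fact.mk hp
  obtain ⟨n, rfl⟩ : ∃ n, d = n + 3 := ⟨d - 3, by omega⟩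
  refine ⟨WR (exw n) (ZMod p), inferInstance, inferInstance,
    isFPureNonQGor_ex n (ZMod p) p, ?_⟩
  rw [fpt_ex n (ZMod p) p]
  congr 1
  push_cast
  ring

theorem final_of (hCOEF : S_COEF.{u}) (hSTR : S_STR.{u}) (hDESC : S_DESC.{u}) (hRT : S_RT.{u})
    (hCOEF' : S_COEF.{0}) (hSTR' : S_STR.{0}) (hDESC' : S_DESC.{0}) (hRT' : S_RT.{0})
    (d : ℕ) (hd : 3 ≤ d) :
    (∀ (p : ℕ) (R : Type u) [CommRing R] [IsLocalRing R], IsFPureNonQGor p d R →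
      fpt p R (IsLocalRing.maximalIdeal R) ≤ (((d : ℝ) - 3 / 2 : ℝ) : EReal)) ∧
    (∀ p : ℕ, p.Prime → ∃ (R : Type) (_ : CommRing R) (_ : IsLocalRing R),
      IsFPureNonQGor p d R ∧
      fpt p R (IsLocalRing.maximalIdeal R) = (((d : ℝ) - 3 / 2 : ℝ) : EReal)) ∧
    IsGreatest {x : EReal | ∃ (p : ℕ) (R : Type) (_ : CommRing R) (_ : IsLocalRing R),
      IsFPureNonQGor p d R ∧ x = fpt p R (IsLocalRing.maximalIdeal R)}
      (((d : ℝ) - 3 / 2 : ℝ) : EReal) := by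
  refine ⟨fun p R _ _ h => fpt_le hCOEF hSTR hDESC hRT (by omega) h,
    fun p hp => attained d hd p hp, ?_, ?_⟩
  · obtain ⟨R, i1, i2, h1, h2⟩ := attained d hd 2 Nat.prime_two
    exact ⟨2, R, i1, i2, h1, h2.symm⟩
  · rintro x ⟨p, R, i1, i2, h1, rfl⟩
    exact fpt_le hCOEF' hSTR' hDESC' hRT' (by omega) h1

end Run7.h889
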