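import Pool.Agent.Run7.h889.ND
import Pool.Agent.Run7.h889.Disc

set_option autoImplicit false
set_option linter.unusedSimpArgs false
set_option linter.unusedVariables false
set_option linter.unusedSectionVars false
set_option linter.deprecated false

namespace Run7.h889

open Module nonZeroDivisors IsLocalRing

universe u v

section four

variable {k : Type u} [Field k] {d : ℕ} {p : ℕ} [hp : Fact p.Prime] [CharP k p]
  {R : Type v} [CommRing R] [IsDomain R] [IsLocalRing R] [IsIntegrallyClosed R] [CharP R p]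
  [Algebra (MvPowerSeries (Fin d) k) R]
  (K : Type u) (L : Type v) [Field K] [Algebra (MvPowerSeries (Fin d) k) K]
  [IsFractionRing (MvPowerSeries (Fin d) k) K]
  [Field L] [Algebra R L] [IsFractionRing R L] [Algebra K L] [Algebra (MvPowerSeries (Fin d) k) L]
  [IsScalarTower (MvPowerSeries (Fin d) k) R L] [IsScalarTower (MvPowerSeries (Fin d) k) K L]
  {n : ℕ} (B : Basis (Fin (n + 1)) (MvPowerSeries (Fin d) k) R)

omit [IsDomain R] [IsIntegrallyClosed R] [CharP R p] in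
/-- squares of leading forms do not vanish -/
lemma bt_gen (hB0 : B 0 = 1) (hBm : ∀ i, i ≠ 0 → B i ∈ maximalIdeal R)
    (hb : ∀ i j, B i * B j ∈ GF B (oF k d) (W1 n) (W1 n i + W1 n j))
    (hT : ∀ E, Nonempty (FTr (p ^ E) k)) (hB : Big p d R) (hd : 2 ≤ d) :
    ∀ m z, z ∈ GF B (oF k d) (W1 n) m → z * z ∈ GF B (oF k d) (W1 n) (2 * m + 1) →
      z ∈ GF B (oF k d) (W1 n) (m + 1) := by
  obtain ⟨E0, hE0⟩ := hB 4
  obtain ⟨N, f, hf, φ, hφ, hN⟩ := hE0 E0 le_rfl
  obtain ⟨T⟩ := hT E0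
  refine b_trick B (oF k d) (W1 n) hb 0 hB0 (W1_zero n) (fun i hi => W1_ne n hi) (q_pos p E0)
    (T.lift d) (lift_hT T) φ.1 φ.2 (pow_mem_GF_of_max B hB0 hBm hb hf) hφ ?_
  have h1 := q_pos p E0
  obtain ⟨r, hr⟩ : ∃ r, p ^ E0 = r + 1 := ⟨p ^ E0 - 1, by omega⟩
  rw [hr] at hN ⊢
  rw [Nat.add_sub_cancel] at hN ⊢
  obtain ⟨e, rfl⟩ : ∃ e, d = e + 2 := ⟨d - 2, by omega⟩
  have e1 : 2 * (e + 2) - 3 = 2 * e + 1 := by omega
  rw [e1] at hN
  have e2 : (2 * e + 1) * r = 2 * (e * r) + r := by ring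
  have e3 : (e + 2) * r = e * r + 2 * r := by ring
  rw [e2] at hN
  rw [e3]
  omega

include K L in
/-- **The multiplicity is at most three.** -/
theorem four_false [Infinite k] (hn : 3 ≤ n) (hB0 : B 0 = 1)
    (hBm : ∀ i, i ≠ 0 → B i ∈ maximalIdeal R) (hR : Red k d R)
    (hT : ∀ E, Nonempty (FTr (p ^ E) k)) (hB : Big p d R) (hd : 2 ≤ d) : False := by
  classical
  have hb := hb_of_red (n := n) B hB0 hBm hR hB hd
  have hbt := bt_gen B hB0 hBm hb hT hB hd
  -- a parameter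
  obtain ⟨x, hx, hx2⟩ : ∃ x : MvPowerSeries (Fin d) k, x ∈ (oF k d).F 1 ∧ x ∉ (oF k d).F 2 := by
    refine ⟨MvPowerSeries.X ⟨0, by omega⟩, X_mem_oF _, ?_⟩
    intro h
    rw [mem_oF] at h
    have := h (Finsupp.single ⟨0, by omega⟩ 1) (by
      rw [MvPowerSeries.coeff_index_single_self_X]; exact one_ne_zero)
    rw [Finsupp.degree_single] at this
    omega
  have hne1 : (1 : Fin (n + 1)) ≠ 0 := by
    intro h
    have := congrArg Fin.val h
    rw [Fin.val_zero, Fin.val_one', Nat.mod_eq_of_lt (by omega)] at this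
    exact one_ne_zero this
  obtain ⟨c, hc⟩ := exists_ND K L B (oF k d) (W1 n) (MvPowerSeries.C (σ := Fin d) (R := k)) hb
    one_not_mem 0 hB0 (W1_zero n) (fun i hi => W1_ne n hi) hx hx2 1 hne1 hbt
  obtain ⟨ε, hε⟩ : ∃ ε : R →ₗ[MvPowerSeries (Fin d) k] (MvPowerSeries (Fin d) k),
      ε = ∑ j : {i : Fin (n + 1) // i ≠ 0},
        (MvPowerSeries.C (c j) : MvPowerSeries (Fin d) k) • B.coord j.1 := ⟨_, rfl⟩
  have hε' : ∀ w, ε w = ∑ j : {i : Fin (n + 1) // i ≠ 0},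
      (MvPowerSeries.C (c j) : MvPowerSeries (Fin d) k) * B.coord j.1 w := by
    intro w
    rw [hε, LinearMap.sum_apply]
    apply Finset.sum_congr rfl
    intro j _
    rw [LinearMap.smul_apply, smul_eq_mul]
  have ND : ∀ m z, z ∈ GF B (oF k d) (W1 n) m → z ∉ GF B (oF k d) (W1 n) (m + 1) →
      ∃ y ∈ GF B (oF k d) (W1 n) 1, ε (z * y) ∉ (oF k d).F (m + 1) := by
    intro m z hz hz'
    obtain ⟨y, hy, hy'⟩ := hc m z hz hz'
    exact ⟨y, hy, by rw [hε']; exact hy'⟩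
  have hεm : ∀ m z, z ∈ GF B (oF k d) (W1 n) m → ε z ∈ (oF k d).F (m - 1) := by
    intro m z hz
    rw [hε']
    apply Ideal.sum_mem
    intro j _
    apply Ideal.mul_mem_left
    have := hz j.1
    rw [W1_ne n j.2] at this
    exact this
  have hεne : ∃ w, ε w ≠ 0 := by
    obtain ⟨y, hy, hy'⟩ := ND 0 1 (mem_GF_zero _ _ _ _) (by
      intro h
      have := h 0
      rw [W1_zero, ← hB0, Basis.repr_self, Finsupp.single_eq_same] at this
      exact one_not_mem this)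
    refine ⟨1 * y, fun h => hy' ?_⟩
    rw [h]
    exact Ideal.zero_mem _
  obtain ⟨E0, hE0⟩ := hB 4
  obtain ⟨N, f, hf, φ, hφ, hN⟩ := hE0 E0 le_rfl
  obtain ⟨T⟩ := hT E0
  have hAn := normal_ps (d := d) hT
  obtain ⟨g, n0, n1, hg, hn0, hn0', hest, hnn, hW⟩ := pkgG K L B (oF k d) (W1 n) hb 0 hB0
    (T.lift d) (lift_hT T) hεne hεm ND φ (pow_mem_GF_of_max B hB0 hBm hb hf) hφ
  have hdvd := disc_dvd K L B hεne hW
  -- order of the discriminant
  have hδ : (gram B ε).det ∈ (oF k d).F (n - 1) := by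
    rw [Matrix.det_apply]
    apply Ideal.sum_mem
    intro σ _
    have h4 : Equiv.Perm.sign σ • ∏ i, gram B ε (σ i) i =
        ((Equiv.Perm.sign σ : ℤ) : MvPowerSeries (Fin d) k) * ∏ i, gram B ε (σ i) i := by
      rw [Units.smul_def, zsmul_eq_mul]
    rw [h4]
    apply Ideal.mul_mem_left
    have h1 : ∀ i ∈ Finset.univ, gram B ε (σ i) i ∈ (oF k d).F (W1 n (σ i) + W1 n i - 1) :=
      fun i _ => hεm _ _ (hb _ _)
    refine (oF k d).mem_le (prod_mem_Fil (oF k d) _ _ _ h1) ?_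
    have h2 : ∑ i, (W1 n (σ i) + W1 n i) ≤ ∑ i, (W1 n (σ i) + W1 n i - 1) + ∑ _i : Fin (n + 1), 1 := by
      rw [← Finset.sum_add_distrib]
      apply Finset.sum_le_sum
      intro i _
      omega
    have h3 : ∑ i, W1 n (σ i) = ∑ i, W1 n i := Equiv.sum_comp σ (W1 n)
    have h5 : ∑ i, W1 n i = n := by
      rw [Fin.sum_univ_succ, W1_zero, zero_add]
      have : ∀ i : Fin n, W1 n i.succ = 1 := fun i => W1_ne n (Fin.succ_ne_zero i)
      rw [Finset.sum_congr rfl (fun i _ => this i)]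
      simp
    rw [Finset.sum_add_distrib, h3, h5] at h2
    simp only [Finset.sum_const, Finset.card_univ, Fintype.card_fin, smul_eq_mul, mul_one] at h2
    omega
  obtain ⟨r, hr⟩ : ∃ r, r = p ^ E0 - 1 := ⟨_, rfl⟩
  rw [← hr] at hN hest hdvd
  have h5 : r * (n - 1) ≤ n0 := by
    by_contra hcon
    push Not at hcon
    apply hn0'
    obtain ⟨w, hw⟩ := hdvd
    rw [hw]
    have h6 := (oF k d).pow_mem hδ r
    exact Ideal.mul_mem_right _ _ ((oF k d).mem_le h6 (by omega))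
  rw [Fintype.card_fin, Nat.add_sub_cancel] at hnn
  obtain ⟨e, rfl⟩ : ∃ e, d = e + 2 := ⟨d - 2, by omega⟩
  obtain ⟨m, rfl⟩ : ∃ m, n = m + 3 := ⟨n - 3, by omega⟩
  have e1 : 2 * (e + 2) - 3 = 2 * e + 1 := by omega
  have e2 : m + 3 - 1 = m + 2 := by omega
  rw [e1] at hN
  rw [e2] at h5
  rw [one_mul] at hest
  nlinarith [hN, h5, hest, hnn, Nat.zero_le (m * r), Nat.zero_le (m * N), Nat.zero_le m,
    Nat.zero_le r, Nat.mul_le_mul_left (m + 4) hest, Nat.mul_le_mul_left (m + 4) hN]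

end four

end Run7.h889
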