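import Pool.Agent.Run7.h889.FT

set_option autoImplicit false
set_option linter.unusedSimpArgs false
set_option linter.unusedVariables false
set_option linter.unusedSectionVars false
set_option linter.deprecated false

namespace Run7.h889

open Module IsLocalRing

universe u v

section free

variable {A : Type u} [CommRing A] [IsLocalRing A] [IsNoetherianRing A] {R : Type v} [CommRing R]
  [Algebra A R] {p E : ℕ} [hp : Fact p.Prime] [CharP R p] [CharP A p] {n : ℕ} (y : Fin n → R)

/-- the presentation -/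
noncomputable def pr : (Fin n → A) →ₗ[A] R := Fintype.linearCombination A y

lemma pr_apply (c : Fin n → A) : pr (A := A) y c = ∑ j, c j • y j :=
  Fintype.linearCombination_apply A y c

lemma pr_single [DecidableEq (Fin n)] (j : Fin n) : pr (A := A) y (Pi.single j 1) = y j := by
  rw [pr_apply, Finset.sum_eq_single j]
  · rw [Pi.single_eq_same, one_smul]
  · intro i _ hi
    rw [Pi.single_eq_of_ne hi, zero_smul]
  · intro h; exact absurd (Finset.mem_univ _) h

/-- **Freeness criterion.** -/
theorem rel_trivial (hgen : Function.Surjective (pr (A := A) y))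
    (hmin : ∀ c : Fin n → A, pr y c = 0 → ∀ j, c j ∈ maximalIdeal A)
    (T : FTr (p ^ E) A) (φ : R →+ R) (hφ : ∀ r x, φ (r ^ p ^ E * x) = r * φ x) {f : R}
    (hf1 : φ f = 1) (z : Set A) (hz : ∀ x ∈ z, x ∈ maximalIdeal A) (𝔞 : Ideal A)
    (h𝔞 : ∀ a ∈ 𝔞, ∃ s : R →ₗ[A] (Fin n → A), ∀ r, pr y (s r) = a • r)
    (hf : f ∈ Ideal.map (algebraMap A R) (Ideal.span ((fun x => x ^ p ^ E) '' z) ⊔ 𝔞)) :
    ∀ c : Fin n → A, pr y c = 0 → c = 0 := by
  classical
  obtain ⟨Rel, hRel⟩ : ∃ Rel, Rel = LinearMap.ker (pr (A := A) y) := ⟨_, rfl⟩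
  have hRelm : ∀ c, c ∈ Rel ↔ pr y c = 0 := fun c => by rw [hRel, LinearMap.mem_ker]
  choose lam hlam using hgen
  -- the lift of `φ`
  let φt : (Fin n → A) →+ (Fin n → A) :=
    { toFun := fun u => ∑ j, ∑ l, T.Tr (T.b' l * u j) • lam (φ (algebraMap A R (T.b l) * y j))
      map_zero' := by
        apply Finset.sum_eq_zero
        intro j _
        apply Finset.sum_eq_zero
        intro l _
        rw [Pi.zero_apply, mul_zero, map_zero, zero_smul]
      map_add' := by
        intro u v
        rw [← Finset.sum_add_distrib]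
        apply Finset.sum_congr rfl
        intro j _
        rw [← Finset.sum_add_distrib]
        apply Finset.sum_congr rfl
        intro l _
        rw [Pi.add_apply, mul_add, map_add, add_smul] }
  have hφt : ∀ u, φt u = ∑ j, ∑ l, T.Tr (T.b' l * u j) •
      lam (φ (algebraMap A R (T.b l) * y j)) := fun u => rfl
  have hφt1 : ∀ (a : A) u, φt (a ^ p ^ E • u) = a • φt u := by
    intro a u
    rw [hφt, hφt, Finset.smul_sum]
    apply Finset.sum_congr rfl
    intro j _
    rw [Finset.smul_sum]
    apply Finset.sum_congr rfl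
    intro l _
    rw [Pi.smul_apply, smul_eq_mul, mul_left_comm, T.Tr_pow_mul, mul_smul]
  have hφt2 : ∀ u, pr y (φt u) = φ (pr y u) := by
    intro u
    rw [hφt, map_sum, pr_apply, map_sum]
    apply Finset.sum_congr rfl
    intro j _
    rw [map_sum]
    conv_rhs => rw [T.sum_eq (u j), Finset.sum_smul, map_sum]
    apply Finset.sum_congr rfl
    intro l _
    obtain ⟨t, ht⟩ : ∃ t, t = T.Tr (T.b' l * u j) := ⟨_, rfl⟩
    rw [← ht, map_smul, hlam, Algebra.smul_def, Algebra.smul_def, map_mul (algebraMap A R),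
      map_pow, mul_assoc, hφ]
  -- the ideal
  have hchar : ∀ c : Fin n → A, c ∈ Rel → ∑ j, (c j) ^ p ^ E • (y j) ^ p ^ E = 0 := by
    intro c hc
    rw [hRelm, pr_apply] at hc
    have h1 : (∑ j, c j • y j) ^ p ^ E = 0 := by
      rw [hc, zero_pow (q_pos p E).ne']
    rw [sum_pow_char_pow] at h1
    rw [← h1]
    apply Finset.sum_congr rfl
    intro j _
    rw [Algebra.smul_def, Algebra.smul_def, mul_pow, map_pow]
  obtain ⟨NR, hNR⟩ : ∃ NR, NR = maximalIdeal A • Rel := ⟨_, rfl⟩
  have hφRel : ∀ u ∈ Rel, φt u ∈ Rel := by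
    intro u hu
    rw [hRelm] at hu ⊢
    rw [hφt2, hu, map_zero]
  have hcomb : ∀ (c : Fin n → A), c ∈ Rel → ∀ w : Fin n → (Fin n → A), (∀ j, w j ∈ Rel) →
      φt (∑ j, (c j) ^ p ^ E • w j) ∈ NR := by
    intro c hc w hw
    rw [map_sum]
    apply Submodule.sum_mem
    intro j _
    rw [hφt1, hNR]
    exact Submodule.smul_mem_smul (hmin c ((hRelm c).1 hc) j) (hφRel _ (hw j))
  let P : R → Prop := fun g => ∀ c ∈ Rel, ∃ v : Fin n → (Fin n → A),
    (∀ j, pr y (v j) = g * (y j) ^ p ^ E) ∧ φt (∑ j, (c j) ^ p ^ E • v j) ∈ NR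
  let D : Ideal R :=
    { carrier := {g | ∀ r, P (r * g)}
      zero_mem' := by
        intro r c hc
        refine ⟨fun _ => 0, fun j => by rw [map_zero, mul_zero, zero_mul], ?_⟩
        simp only [smul_zero, Finset.sum_const_zero, map_zero]
        exact NR.zero_mem
      add_mem' := by
        intro g g' hg hg' r c hc
        obtain ⟨v, hv, hv'⟩ := hg r c hc
        obtain ⟨w, hw, hw'⟩ := hg' r c hc
        refine ⟨fun j => v j + w j, fun j => by rw [map_add, hv, hw]; ring, ?_⟩
        have : ∑ j, (c j) ^ p ^ E • (v j + w j) = ∑ j, (c j) ^ p ^ E • v j +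
            ∑ j, (c j) ^ p ^ E • w j := by
          rw [← Finset.sum_add_distrib]
          exact Finset.sum_congr rfl fun j _ => smul_add _ _ _
        rw [this, map_add]
        exact NR.add_mem hv' hw'
      smul_mem' := by
        intro r' g hg r
        rw [smul_eq_mul, ← mul_assoc]
        exact hg (r * r') }
  have hD : Ideal.map (algebraMap A R) (Ideal.span ((fun x => x ^ p ^ E) '' z) ⊔ 𝔞) ≤ D := by
    rw [Ideal.map_le_iff_le_comap, sup_le_iff]
    constructor
    · rw [Ideal.span_le]
      rintro _ ⟨x, hx, rfl⟩ r c hc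
      refine ⟨fun j => x ^ p ^ E • lam (r * (y j) ^ p ^ E), ?_, ?_⟩
      · intro j
        rw [map_smul, hlam, Algebra.smul_def]
        ring
      · have e : ∑ j, (c j) ^ p ^ E • x ^ p ^ E • lam (r * (y j) ^ p ^ E) =
            x ^ p ^ E • ∑ j, (c j) ^ p ^ E • lam (r * (y j) ^ p ^ E) := by
          rw [Finset.smul_sum]
          exact Finset.sum_congr rfl fun j _ => smul_comm _ _ _
        rw [e, hφt1, hNR]
        apply Submodule.smul_mem_smul (hz x hx)
        apply hφRel
        rw [hRelm, map_sum]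
        have : ∀ j, pr y ((c j) ^ p ^ E • lam (r * (y j) ^ p ^ E)) =
            r * ((c j) ^ p ^ E • (y j) ^ p ^ E) := by
          intro j
          rw [map_smul, hlam, mul_smul_comm]
        rw [Finset.sum_congr rfl (fun j _ => this j), ← Finset.mul_sum, hchar c hc, mul_zero]
    · intro a ha r c hc
      obtain ⟨s, hs⟩ := h𝔞 a ha
      -- the projection `u ↦ a u - s (π u)`
      refine ⟨fun j => a • lam (r * (y j) ^ p ^ E), ?_, ?_⟩
      · intro j
        rw [map_smul, hlam, Algebra.smul_def]
        ring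
      · have h2 : ∑ j, (c j) ^ p ^ E • s (r * (y j) ^ p ^ E) = 0 := by
          have : ∀ j, (c j) ^ p ^ E • s (r * (y j) ^ p ^ E) =
              s (r * ((c j) ^ p ^ E • (y j) ^ p ^ E)) := by
            intro j
            rw [mul_smul_comm, map_smul]
          rw [Finset.sum_congr rfl (fun j _ => this j), ← map_sum, ← Finset.mul_sum, hchar c hc,
            mul_zero, map_zero]
        have e : ∑ j, (c j) ^ p ^ E • a • lam (r * (y j) ^ p ^ E) =
            ∑ j, (c j) ^ p ^ E • (a • lam (r * (y j) ^ p ^ E) - s (r * (y j) ^ p ^ E)) := by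
          rw [← sub_zero (∑ j, (c j) ^ p ^ E • a • lam (r * (y j) ^ p ^ E)), ← h2,
            ← Finset.sum_sub_distrib]
          exact Finset.sum_congr rfl fun j _ => (smul_sub _ _ _).symm
        rw [e]
        apply hcomb c hc
        intro j
        rw [hRelm, map_sub, map_smul, hlam, hs, sub_self]
  have hfD : P f := by
    have := hD hf 1
    rwa [one_mul] at this
  have hle : Rel ≤ maximalIdeal A • Rel := by
    intro c hc
    obtain ⟨v, hv, hv'⟩ := hfD c hc
    have h1 : ∀ j, φt (v j) - Pi.single j 1 ∈ Rel := by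
      intro j
      rw [hRelm, map_sub, hφt2, hv, pr_single, mul_comm, hφ, hf1, mul_one, sub_self]
    have h2 : φt (∑ j, (c j) ^ p ^ E • v j) = c + ∑ j, c j • (φt (v j) - Pi.single j 1) := by
      rw [map_sum]
      have h3 : c = ∑ j, c j • (Pi.single j 1 : Fin n → A) := by
        funext i
        rw [Finset.sum_apply, Finset.sum_eq_single i]
        · rw [Pi.smul_apply, Pi.single_eq_same, smul_eq_mul, mul_one]
        · intro j _ hj
          rw [Pi.smul_apply, Pi.single_eq_of_ne (Ne.symm hj), smul_zero]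
        · intro h; exact absurd (Finset.mem_univ _) h
      conv_rhs => rw [h3]
      rw [← Finset.sum_add_distrib]
      apply Finset.sum_congr rfl
      intro j _
      rw [hφt1, ← h3, smul_sub]
      abel
    have h4 : c = φt (∑ j, (c j) ^ p ^ E • v j) - ∑ j, c j • (φt (v j) - Pi.single j 1) := by
      rw [h2, add_sub_cancel_right]
    rw [h4]
    apply Submodule.sub_mem
    · rw [← hNR]; exact hv'
    · apply Submodule.sum_mem
      intro j _
      exact Submodule.smul_mem_smul (hmin c ((hRelm c).1 hc) j) (h1 j)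
  have hbot : Rel = ⊥ := Submodule.eq_bot_of_le_smul_of_le_jacobson_bot (maximalIdeal A) Rel
    (IsNoetherian.noetherian Rel) hle (IsLocalRing.maximalIdeal_le_jacobson ⊥)
  intro c hc
  have : c ∈ Rel := (hRelm c).2 hc
  rw [hbot, Submodule.mem_bot] at this
  exact this

end free

end Run7.h889
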