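import Mathlib

/-!
# Northcott-Rees: reductions of the maximal ideal

The maximal ideal of a Noetherian local ring with infinite residue field has a reduction
generated by `dim` elements.
-/

set_option autoImplicit false
set_option linter.unusedSimpArgs false
set_option linter.unusedVariables false
set_option linter.unusedSectionVars false

namespace Run7.h889.RL

open IsLocalRing

universe u

section mon

variable {S : Type u} [CommRing S] {r : ℕ}

/-- the monomial with the multiset `s` of indices. -/
def mon (l : Fin r → S) (s : Multiset (Fin r)) : S := (s.map l).prod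

@[simp] lemma mon_zero (l : Fin r → S) : mon l 0 = 1 := by simp [mon]

@[simp] lemma mon_cons (l : Fin r → S) (i : Fin r) (s : Multiset (Fin r)) :
    mon l (i ::ₘ s) = l i * mon l s := by simp [mon]

lemma mon_mem_pow (l : Fin r → S) (I : Ideal S) (h : ∀ i, l i ∈ I) (s : Multiset (Fin r)) :
    mon l s ∈ I ^ Multiset.card s := by
  induction s using Multiset.induction with
  | empty => simp
  | cons i t ih =>
    rw [mon_cons, Multiset.card_cons, pow_succ']
    exact Ideal.mul_mem_mul (h i) ih

lemma mon_diff (L' L : Ideal S) (u v : Fin r → S) (hu : ∀ i, u i ∈ L) (hv : ∀ i, v i ∈ L)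
    (huv : ∀ i, u i - v i ∈ L') (s : Multiset (Fin r)) :
    mon u s - mon v s ∈ L' * L ^ (Multiset.card s - 1) := by
  induction s using Multiset.induction with
  | empty => simp
  | cons i t ih =>
    rw [mon_cons, mon_cons, Multiset.card_cons, Nat.add_sub_cancel]
    have e : u i * mon u t - v i * mon v t =
        (u i - v i) * mon u t + v i * (mon u t - mon v t) := by ring
    rw [e]
    refine Ideal.add_mem _ (Ideal.mul_mem_mul (huv i) (mon_mem_pow u L hu t)) ?_
    rcases Nat.eq_zero_or_pos (Multiset.card t) with h0 | h0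
    · have ht : t = 0 := Multiset.card_eq_zero.mp h0
      subst ht
      simp
    · have e2 : L' * L ^ Multiset.card t = L * (L' * L ^ (Multiset.card t - 1)) := by
        conv_lhs => rw [show Multiset.card t = (Multiset.card t - 1) + 1 by omega, pow_succ']
        rw [← mul_assoc, ← mul_assoc, mul_comm L' L]
      rw [e2]
      exact Ideal.mul_mem_mul (hv i) ih

lemma mon_smul (b : Fin r → S) (x : S) (s : Multiset (Fin r)) :
    mon (fun i => b i * x) s = mon b s * x ^ Multiset.card s := by
  induction s using Multiset.induction with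
  | empty => simp
  | cons i t ih =>
    rw [mon_cons, mon_cons, Multiset.card_cons, ih, pow_succ]
    ring

/-- powers of an ideal are generated by monomials. -/
lemma span_pow_eq (l : Fin r → S) (n : ℕ) :
    Ideal.span (Set.range l) ^ n = Ideal.span (Set.range fun s : Sym (Fin r) n => mon l s.1) := by
  induction n with
  | zero =>
    rw [pow_zero, Ideal.one_eq_top, eq_comm, Ideal.eq_top_iff_one]
    apply Ideal.subset_span
    exact ⟨⟨0, by simp⟩, by simp⟩
  | succ n ih =>
    rw [pow_succ', ih]
    apply le_antisymm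
    · rw [Ideal.span_mul_span', Ideal.span_le]
      rintro _ ⟨_, ⟨i, rfl⟩, _, ⟨s, rfl⟩, rfl⟩
      apply Ideal.subset_span
      exact ⟨i ::ₛ s, by simp [Sym.cons]⟩
    · rw [Ideal.span_le]
      rintro _ ⟨s, rfl⟩
      obtain ⟨i, t, rfl⟩ := s.exists_eq_cons_of_succ
      have : mon l (i ::ₛ t).1 = l i * mon l t.1 := by
        change mon l (i ::ₘ t.1) = _
        rw [mon_cons]
      change mon l (i ::ₛ t).1 ∈ _
      rw [this]
      exact Ideal.mul_mem_mul (Ideal.subset_span ⟨i, rfl⟩) (Ideal.subset_span ⟨t, rfl⟩)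

end mon

section main

variable {S : Type u} [CommRing S] [IsLocalRing S]

/-- `l` generates a reduction of the maximal ideal. -/
def Red (r : ℕ) (S : Type u) [CommRing S] [IsLocalRing S] : Prop :=
  ∃ l : Fin r → S, (∀ i, l i ∈ maximalIdeal S) ∧
      ∃ s : ℕ, maximalIdeal S ^ (s + 1) ≤
        Ideal.span (Set.range l) * maximalIdeal S ^ s

lemma sup_span_pow_le (L' : Ideal S) (x : S) (D : ℕ) (hD : 1 ≤ D) :
    (L' ⊔ Ideal.span {x}) ^ D ≤ L' * (L' ⊔ Ideal.span {x}) ^ (D - 1) ⊔ Ideal.span {x ^ D} := by
  obtain ⟨D, rfl⟩ : ∃ E, D = E + 1 := ⟨D - 1, by omega⟩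
  clear hD
  simp only [Nat.add_sub_cancel]
  induction D with
  | zero => simp
  | succ D ih =>
    set L := L' ⊔ Ideal.span {x} with hL
    calc L ^ (D + 1 + 1) = L * L ^ (D + 1) := pow_succ' _ _
      _ = (L' ⊔ Ideal.span {x}) * L ^ (D + 1) := rfl
      _ = L' * L ^ (D + 1) ⊔ Ideal.span {x} * L ^ (D + 1) := Ideal.sup_mul _ _ _
      _ ≤ L' * L ^ (D + 1) ⊔ Ideal.span {x} * (L' * L ^ D ⊔ Ideal.span {x ^ (D + 1)}) := by
          gcongr
      _ = L' * L ^ (D + 1) ⊔ (Ideal.span {x} * (L' * L ^ D) ⊔
            Ideal.span {x} * Ideal.span {x ^ (D + 1)}) := by rw [Ideal.mul_sup]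
      _ ≤ L' * L ^ (D + 1) ⊔ Ideal.span {x ^ (D + 1 + 1)} := by
          refine sup_le le_sup_left (sup_le ?_ ?_)
          · refine le_trans ?_ le_sup_left
            have : Ideal.span {x} * (L' * L ^ D) = L' * (Ideal.span {x} * L ^ D) := by
              rw [← mul_assoc, ← mul_assoc, mul_comm (Ideal.span {x}) L']
            rw [this, pow_succ']
            gcongr
            exact le_sup_right
          · rw [Ideal.span_singleton_mul_span_singleton, ← pow_succ']
            exact le_sup_right

/-- one step down. -/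
lemma step [IsNoetherianRing S] {r : ℕ} (l : Fin (r + 1) → S) (hl : ∀ i, l i ∈ maximalIdeal S)
    (s : ℕ) (hs : maximalIdeal S ^ (s + 1) ≤ Ideal.span (Set.range l) * maximalIdeal S ^ s)
    (D : ℕ) (hD : 1 ≤ D) (b : Fin (r + 1) → S) (i0 : Fin (r + 1)) (hb : b i0 = 1)
    (c : Sym (Fin (r + 1)) D → S) (hc : ∑ t, c t * mon l t.1 ∈ maximalIdeal S ^ (D + 1))
    (hu : IsUnit (∑ t, c t * mon b t.1)) : Red r S := by
  classical
  set m := maximalIdeal S with hm
  set x := l i0 with hx
  set l' : Fin r → S := fun j => l (i0.succAbove j) - b (i0.succAbove j) * x with hl'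
  set L' := Ideal.span (Set.range l') with hL'
  set L := Ideal.span (Set.range l) with hL
  have hLm : L ≤ m := by
    rw [hL, Ideal.span_le]
    rintro _ ⟨i, rfl⟩
    exact hl i
  have hxL : x ∈ L := Ideal.subset_span ⟨i0, rfl⟩
  have hlL : ∀ i, l i ∈ L := fun i => Ideal.subset_span ⟨i, rfl⟩
  have hdiff : ∀ i, l i - b i * x ∈ L' := by
    intro i
    by_cases h : i = i0
    · subst h
      rw [hb, one_mul, hx, sub_self]
      exact L'.zero_mem
    · obtain ⟨j, rfl⟩ := Fin.exists_succAbove_eq h
      exact Ideal.subset_span ⟨j, rfl⟩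
  have hLsup : L = L' ⊔ Ideal.span {x} := by
    apply le_antisymm
    · rw [hL, Ideal.span_le]
      rintro _ ⟨i, rfl⟩
      have : l i = (l i - b i * x) + b i * x := by ring
      rw [this]
      exact Ideal.add_mem _ (Ideal.mem_sup_left (hdiff i))
        (Ideal.mem_sup_right (Ideal.mul_mem_left _ _ (Ideal.mem_span_singleton_self x)))
    · refine sup_le ?_ ?_
      · rw [hL', Ideal.span_le]
        rintro _ ⟨j, rfl⟩
        exact L.sub_mem (hlL _) (L.mul_mem_left _ hxL)
      · rw [Ideal.span_le, Set.singleton_subset_iff]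
        exact hxL
  have hbx : ∀ i, b i * x ∈ L := fun i => L.mul_mem_left _ hxL
  -- x ^ D
  have hxD : x ^ D ∈ L' * L ^ (D - 1) ⊔ m ^ (D + 1) := by
    have h1 : ∑ t, c t * mon l t.1 - (∑ t, c t * mon b t.1) * x ^ D ∈ L' * L ^ (D - 1) := by
      rw [Finset.sum_mul, ← Finset.sum_sub_distrib]
      refine Ideal.sum_mem _ fun t _ => ?_
      have h2 := mon_diff L' L l (fun i => b i * x) hlL hbx hdiff t.1
      rw [mon_smul, t.2] at h2
      have : c t * mon l t.1 - c t * mon b t.1 * x ^ D =
          c t * (mon l t.1 - mon b t.1 * x ^ D) := by ring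
      rw [this]
      exact Ideal.mul_mem_left _ _ h2
    have h3 : (∑ t, c t * mon b t.1) * x ^ D ∈ L' * L ^ (D - 1) ⊔ m ^ (D + 1) := by
      have : (∑ t, c t * mon b t.1) * x ^ D = ∑ t, c t * mon l t.1 -
          (∑ t, c t * mon l t.1 - (∑ t, c t * mon b t.1) * x ^ D) := by ring
      rw [this]
      exact Ideal.sub_mem _ (Ideal.mem_sup_right hc) (Ideal.mem_sup_left h1)
    exact (Ideal.unit_mul_mem_iff_mem _ hu).mp h3
  have hLD : L ^ D ≤ L' * L ^ (D - 1) ⊔ m ^ (D + 1) := by
    have h1 := sup_span_pow_le L' x D hD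
    rw [← hLsup] at h1
    refine h1.trans (sup_le le_sup_left ?_)
    rw [Ideal.span_le, Set.singleton_subset_iff]
    exact hxD
  have hpow : ∀ E : ℕ, m ^ (s + E) ≤ L ^ E * m ^ s := by
    intro E
    induction E with
    | zero => simp
    | succ E ih =>
      calc m ^ (s + (E + 1)) = m ^ (s + E) * m := by rw [← add_assoc, pow_succ]
        _ ≤ (L ^ E * m ^ s) * m := by gcongr
        _ = L ^ E * m ^ (s + 1) := by rw [mul_assoc, ← pow_succ]
        _ ≤ L ^ E * (L * m ^ s) := by gcongr
        _ = L ^ (E + 1) * m ^ s := by rw [← mul_assoc, ← pow_succ]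
  have hL'm : L' ≤ m := by
    refine le_trans ?_ hLm
    rw [hLsup]
    exact le_sup_left
  have hN : m ^ (s + D) ≤ L' * m ^ (s + D - 1) ⊔ m • m ^ (s + D) := by
    calc m ^ (s + D) ≤ L ^ D * m ^ s := hpow D
      _ ≤ (L' * L ^ (D - 1) ⊔ m ^ (D + 1)) * m ^ s := by gcongr
      _ = L' * L ^ (D - 1) * m ^ s ⊔ m ^ (D + 1) * m ^ s := Ideal.sup_mul _ _ _
      _ ≤ L' * m ^ (s + D - 1) ⊔ m • m ^ (s + D) := by
          refine sup_le_sup ?_ ?_
          · calc L' * L ^ (D - 1) * m ^ s ≤ L' * m ^ (D - 1) * m ^ s := by gcongr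
              _ = L' * m ^ (s + D - 1) := by
                rw [mul_assoc, ← pow_add]
                congr 2
                omega
          · rw [smul_eq_mul, ← pow_succ', ← pow_add]
            apply le_of_eq
            congr 1
            omega
  have hfin : m ^ (s + D) ≤ L' * m ^ (s + D - 1) := by
    refine Submodule.le_of_le_smul_of_le_jacobson_bot (I := m) (IsNoetherian.noetherian _) ?_ hN
    rw [IsLocalRing.jacobson_eq_maximalIdeal ⊥ bot_ne_top]
  refine ⟨l', fun j => ?_, s + D - 1, ?_⟩
  · exact Ideal.sub_mem _ (hl _) (Ideal.mul_mem_left _ _ (hl _))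
  · have : s + D - 1 + 1 = s + D := by omega
    rw [this]
    exact hfin

/-- analytic independence of a minimal reduction. -/
lemma indep [IsNoetherianRing S] [Infinite (ResidueField S)] {r : ℕ}
    (hmin : ∀ r' < r, ¬ Red r' S) (l : Fin r → S) (hl : ∀ i, l i ∈ maximalIdeal S)
    (s : ℕ) (hs : maximalIdeal S ^ (s + 1) ≤ Ideal.span (Set.range l) * maximalIdeal S ^ s)
    (D : ℕ) (c : Sym (Fin r) D → S) (hc : ∑ t, c t * mon l t.1 ∈ maximalIdeal S ^ (D + 1)) :
    ∀ t, c t ∈ maximalIdeal S := by
  classical
  rcases Nat.eq_zero_or_pos D with hD | hD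
  · subst hD
    intro t
    have h0 : ∀ t : Sym (Fin r) 0, t = Sym.nil := fun t => Sym.eq_nil_of_card_zero t
    have huniv : (Finset.univ : Finset (Sym (Fin r) 0)) = {Sym.nil} := by
      ext t
      exact ⟨fun _ => Finset.mem_singleton.mpr (h0 t), fun _ => Finset.mem_univ _⟩
    rw [huniv, Finset.sum_singleton, zero_add, pow_one] at hc
    rw [h0 t]
    have : mon l (Sym.nil : Sym (Fin r) 0).1 = 1 := mon_zero l
    rwa [this, mul_one] at hc
  · by_contra hcon
    push Not at hcon
    obtain ⟨t0, ht0⟩ := hcon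
    set k := ResidueField S with hk
    -- the reduced polynomial
    let F : MvPolynomial (Fin r) k :=
      ∑ t : Sym (Fin r) D, MvPolynomial.monomial (Multiset.toFinsupp t.1) (residue S (c t))
    have hF : F ≠ 0 := by
      intro h
      have h1 := congrArg (MvPolynomial.coeff (Multiset.toFinsupp t0.1)) h
      rw [MvPolynomial.coeff_sum, MvPolynomial.coeff_zero, Finset.sum_eq_single t0] at h1
      · rw [MvPolynomial.coeff_monomial, if_pos rfl, residue_eq_zero_iff] at h1
        exact ht0 h1
      · intro t _ hne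
        rw [MvPolynomial.coeff_monomial, if_neg]
        intro h2
        apply hne
        exact Subtype.ext (Multiset.toFinsupp.injective h2)
      · intro h2
        exact absurd (Finset.mem_univ _) h2
    have hFeval : ∀ a : Fin r → k, MvPolynomial.eval a F =
        ∑ t : Sym (Fin r) D, residue S (c t) * mon a t.1 := by
      intro a
      rw [map_sum]
      refine Finset.sum_congr rfl fun t _ => ?_
      rw [MvPolynomial.eval_monomial]
      congr 1
      rw [mon, Finsupp.prod, Multiset.toFinsupp_support]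
      rw [Finset.prod_multiset_map_count]
      rfl
    obtain ⟨a, ha⟩ : ∃ a, MvPolynomial.eval a F ≠ 0 := by
      by_contra h
      push Not at h
      apply hF
      apply MvPolynomial.funext
      intro a
      rw [h a, map_zero]
    obtain ⟨i0, hi0⟩ : ∃ i, a i ≠ 0 := by
      by_contra h
      push Not at h
      apply ha
      rw [hFeval]
      apply Finset.sum_eq_zero
      intro t _
      have : mon a t.1 = 0 := by
        obtain ⟨D', rfl⟩ : ∃ E, D = E + 1 := ⟨D - 1, by omega⟩
        obtain ⟨i, t', rfl⟩ := t.exists_eq_cons_of_succ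
        change mon a (i ::ₘ t'.1) = 0
        rw [mon_cons, h i, zero_mul]
      rw [this, mul_zero]
    obtain ⟨r', rfl⟩ : ∃ r', r = r' + 1 := ⟨r - 1, by have := i0.2; omega⟩
    -- lift `a / a i0`
    have hlift : ∀ i, ∃ b : S, residue S b = a i / a i0 := fun i => residue_surjective _
    choose b0 hb0 using hlift
    let b : Fin (r' + 1) → S := Function.update b0 i0 1
    have hb : ∀ i, residue S (b i) = a i / a i0 := by
      intro i
      by_cases h : i = i0
      · subst h
        simp [b, div_self hi0]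
      · simp [b, Function.update_of_ne h, hb0]
    have hunit : IsUnit (∑ t, c t * mon b t.1) := by
      rw [← residue_ne_zero_iff_isUnit, map_sum]
      have h1 : ∀ t : Sym (Fin (r' + 1)) D, residue S (c t * mon b t.1) =
          residue S (c t) * mon a t.1 * (a i0)⁻¹ ^ D := by
        intro t
        rw [map_mul, mul_assoc]
        congr 1
        have h2 : residue S (mon b t.1) = mon (fun i => a i * (a i0)⁻¹) t.1 := by
          rw [mon, map_multiset_prod, Multiset.map_map, mon]
          congr 1
          apply Multiset.map_congr rfl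
          intro i _
          rw [Function.comp_apply, hb, div_eq_mul_inv]
        rw [h2, mon_smul, t.2]
      rw [Finset.sum_congr rfl fun t _ => h1 t, ← Finset.sum_mul, ← hFeval]
      exact mul_ne_zero ha (pow_ne_zero _ (inv_ne_zero hi0))
    exact hmin r' (by omega) (step l hl s hs D hD b i0 (by simp [b]) c hc hunit)

end main

section length

variable {S : Type u} [CommRing S]

/-- comparison of the lengths of two quotients of a module. -/
lemma len_le {A B C : Type*} [AddCommGroup A] [AddCommGroup B] [AddCommGroup C] [Module S A]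
    [Module S B] [Module S C] (f : A →ₗ[S] B) (g : A →ₗ[S] C) (hf : Function.Surjective f)
    (hg : Function.Surjective g) (h : LinearMap.ker f ≤ LinearMap.ker g) :
    Module.length S C ≤ Module.length S B := by
  rw [← (f.quotKerEquivOfSurjective hf).length_eq, ← (g.quotKerEquivOfSurjective hg).length_eq]
  exact Module.length_le_of_surjective (Submodule.factor h) (Submodule.factor_surjective h)

/-- `I ^ n / I ^ (n+1)` inside `S / I ^ (n+1)`. -/
def gr (I : Ideal S) (n : ℕ) : Submodule S (S ⧸ I ^ (n + 1)) :=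
  Submodule.map (Submodule.mkQ (I ^ (n + 1))) (I ^ n)

lemma length_succ (I : Ideal S) (n : ℕ) : Module.length S (S ⧸ I ^ (n + 1)) =
    Module.length S (gr I n) + Module.length S (S ⧸ I ^ n) := by
  have hle : I ^ (n + 1) ≤ I ^ n := Ideal.pow_le_pow_right n.le_succ
  refine Module.length_eq_add_of_exact (gr I n).subtype (Submodule.factor hle)
    (Submodule.subtype_injective _) (Submodule.factor_surjective hle) ?_
  rw [LinearMap.exact_iff, Submodule.range_subtype]
  ext x
  obtain ⟨a, rfl⟩ := Submodule.mkQ_surjective _ x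
  constructor
  · intro h
    have h1 : Submodule.factor hle (Submodule.mkQ (I ^ (n + 1)) a) = 0 := h
    have h2 : Submodule.mkQ (I ^ n) a = 0 := h1
    rw [Submodule.mkQ_apply, Submodule.Quotient.mk_eq_zero] at h2
    exact ⟨a, h2, rfl⟩
  · rintro ⟨b, hb, hab⟩
    have h1 : Submodule.factor hle (Submodule.mkQ (I ^ (n + 1)) b) = 0 := by
      change Submodule.mkQ (I ^ n) b = 0
      rw [Submodule.mkQ_apply, Submodule.Quotient.mk_eq_zero]
      exact hb
    rw [LinearMap.mem_ker, ← hab]
    exact h1

lemma length_eq_sum (I : Ideal S) (n : ℕ) : Module.length S (S ⧸ I ^ n) =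
    ∑ j ∈ Finset.range n, Module.length S (gr I j) := by
  induction n with
  | zero =>
    rw [Finset.sum_range_zero, pow_zero, Ideal.one_eq_top]
    have : Subsingleton (S ⧸ (⊤ : Ideal S)) := Ideal.Quotient.subsingleton_iff.mpr rfl
    exact Module.length_eq_zero
  | succ n ih => rw [length_succ, ih, Finset.sum_range_succ, add_comm]

/-- the monomials of degree `n`. -/
noncomputable def K (I : Ideal S) {r : ℕ} (l : Fin r → S) (n : ℕ) :
    (Sym (Fin r) n → S) →ₗ[S] S ⧸ I ^ (n + 1) :=
  (Submodule.mkQ (I ^ (n + 1))).comp (Fintype.linearCombination S (fun t => mon l t.1))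

lemma K_apply (I : Ideal S) {r : ℕ} (l : Fin r → S) (n : ℕ) (c : Sym (Fin r) n → S) :
    K I l n c = Submodule.mkQ (I ^ (n + 1)) (∑ t, c t * mon l t.1) := by
  simp [K, Fintype.linearCombination_apply]

/-- the coordinates modulo `I`. -/
noncomputable def P (I : Ideal S) (ι : Type) : (ι → S) →ₗ[S] (ι → S ⧸ I) :=
  LinearMap.pi fun i => (Submodule.mkQ I).comp (LinearMap.proj i)

lemma P_surj (I : Ideal S) (ι : Type) : Function.Surjective (P I ι) := by
  intro c
  choose b hb using fun i => Submodule.mkQ_surjective I (c i)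
  exact ⟨b, funext hb⟩

lemma P_ker (I : Ideal S) (ι : Type) (c : ι → S) :
    c ∈ LinearMap.ker (P I ι) ↔ ∀ i, c i ∈ I := by
  rw [LinearMap.mem_ker, funext_iff]
  refine forall_congr' fun i => ?_
  change Submodule.mkQ I (c i) = 0 ↔ _
  rw [Submodule.mkQ_apply, Submodule.Quotient.mk_eq_zero]

lemma length_P (I : Ideal S) (r n : ℕ) : Module.length S (Sym (Fin r) n → S ⧸ I) =
    (Nat.multichoose r n : ℕ∞) * Module.length S (S ⧸ I) := by
  rw [Module.length_pi, ENat.card_eq_coe_fintype_card, Sym.card_sym_fin_eq_multichoose]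

lemma upper {d : ℕ} (θ : Fin d → S) (n : ℕ) :
    Module.length S (gr (Ideal.span (Set.range θ)) n) ≤
      (Nat.multichoose d n : ℕ∞) * Module.length S (S ⧸ Ideal.span (Set.range θ)) := by
  set Q := Ideal.span (Set.range θ) with hQ
  rw [← length_P]
  have hrange : gr Q n = LinearMap.range (K Q θ n) := by
    have h1 : Q ^ n = LinearMap.range (Fintype.linearCombination S
        (fun t : Sym (Fin d) n => mon θ t.1)) := by
      rw [Fintype.range_linearCombination, hQ, span_pow_eq]
    rw [K, LinearMap.range_comp, ← h1, gr]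
  rw [hrange]
  refine len_le (P Q (Sym (Fin d) n)) (K Q θ n).rangeRestrict (P_surj _ _)
    (LinearMap.surjective_rangeRestrict _) ?_
  rw [LinearMap.ker_rangeRestrict]
  intro c hc
  rw [P_ker] at hc
  rw [LinearMap.mem_ker, K_apply, Submodule.mkQ_apply, Submodule.Quotient.mk_eq_zero]
  refine Ideal.sum_mem _ fun t _ => ?_
  rw [pow_succ']
  refine Ideal.mul_mem_mul (hc t) ?_
  have := mon_mem_pow θ Q (fun i => Ideal.subset_span ⟨i, rfl⟩) t.1
  rwa [t.2] at this

lemma lower [IsLocalRing S] {r : ℕ} (l : Fin r → S) (hl : ∀ i, l i ∈ maximalIdeal S) (n : ℕ)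
    (h : ∀ (c : Sym (Fin r) n → S), ∑ t, c t * mon l t.1 ∈ maximalIdeal S ^ (n + 1) →
      ∀ t, c t ∈ maximalIdeal S) :
    (Nat.multichoose r n : ℕ∞) ≤ Module.length S (gr (maximalIdeal S) n) := by
  set m := maximalIdeal S with hm
  have hsimple : IsSimpleModule S (S ⧸ m) :=
    isSimpleModule_iff_isCoatom.mpr (Ideal.IsMaximal.out (self := maximalIdeal.isMaximal S))
  have h1 : (Nat.multichoose r n : ℕ∞) = Module.length S (Sym (Fin r) n → S ⧸ m) := by
    rw [length_P, Module.length_eq_one, mul_one]
  rw [h1]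
  have hrange : LinearMap.range (K m l n) ≤ gr m n := by
    rintro _ ⟨c, rfl⟩
    rw [K_apply]
    refine ⟨_, ?_, rfl⟩
    refine Ideal.sum_mem _ fun t _ => Ideal.mul_mem_left _ _ ?_
    have := mon_mem_pow l m hl t.1
    rwa [t.2] at this
  refine le_trans ?_ (Module.length_le_of_injective (Submodule.inclusion hrange)
    (Submodule.inclusion_injective hrange))
  refine len_le (K m l n).rangeRestrict (P m (Sym (Fin r) n))
    (LinearMap.surjective_rangeRestrict _) (P_surj _ _) ?_
  rw [LinearMap.ker_rangeRestrict]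
  intro c hc
  rw [P_ker]
  rw [LinearMap.mem_ker, K_apply, Submodule.mkQ_apply, Submodule.Quotient.mk_eq_zero] at hc
  exact h c hc

end length

section count

/-- growth of the number of monomials. -/
lemma growth (r d L : ℕ)
    (h : ∀ n : ℕ, ∑ j ∈ Finset.range (n + 1), Nat.multichoose r j ≤
      L * ∑ j ∈ Finset.range (n + 1), Nat.multichoose d j) : r ≤ d := by
  by_contra hcon
  push Not at hcon
  simp only [Nat.sum_range_multichoose] at h
  have h1 : ∀ n : ℕ, (n + (d + 1)).choose (d + 1) ≤ L * (n + d).choose d := by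
    intro n
    refine le_trans ?_ (h n)
    have e1 : (n + (d + 1)).choose (d + 1) = (n + (d + 1)).choose n :=
      (Nat.choose_symm_add (a := n) (b := d + 1)).symm
    have e2 : (n + r).choose r = (n + r).choose n := (Nat.choose_symm_add (a := n) (b := r)).symm
    rw [e1, e2]
    exact Nat.choose_le_choose n (by omega)
  have h2 := h1 (L * (d + 1))
  have h3 := Nat.add_one_mul_choose_eq (L * (d + 1) + d) d
  rw [← add_assoc] at h2
  have h4 : 0 < (L * (d + 1) + d).choose d := Nat.choose_pos (by omega)
  nlinarith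

end count

/-- **Northcott-Rees**: the maximal ideal of a Noetherian local ring with infinite residue field
has a reduction generated by `dim` many elements. -/
theorem exists_reduction {S : Type u} [CommRing S] [IsLocalRing S] [IsNoetherianRing S]
    [Infinite (IsLocalRing.ResidueField S)] (d : ℕ) (hdim : ringKrullDim S ≤ d) :
    ∃ l : Fin d → S, (∀ i, l i ∈ IsLocalRing.maximalIdeal S) ∧
      ∃ s : ℕ, IsLocalRing.maximalIdeal S ^ (s + 1) ≤
        Ideal.span (Set.range l) * IsLocalRing.maximalIdeal S ^ s := by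
  classical
  set m := maximalIdeal S with hm
  -- some reduction
  have hex : ∃ r, Red r S := by
    obtain ⟨T, hT⟩ := (IsNoetherian.noetherian m : m.FG)
    refine ⟨T.card, fun i => (T.equivFin.symm i : S), fun i => ?_, 0, ?_⟩
    · rw [← hm, ← hT]
      exact Submodule.subset_span (T.equivFin.symm i).2
    · have : Set.range (fun i => (T.equivFin.symm i : S)) = (T : Set S) := by
        ext x
        constructor
        · rintro ⟨i, rfl⟩
          exact (T.equivFin.symm i).2
        · intro hx
          exact ⟨T.equivFin ⟨x, hx⟩, by simp⟩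
      rw [this, zero_add, pow_one, pow_zero, mul_one, ← hm]
      exact hT.ge
  obtain ⟨r, hr, hmin⟩ : ∃ r, Red r S ∧ ∀ r' < r, ¬ Red r' S :=
    ⟨Nat.find hex, Nat.find_spec hex, fun r' h => Nat.find_min hex h⟩
  obtain ⟨l, hl, s, hs⟩ := hr
  -- parameters
  obtain ⟨T, hT, hcard⟩ := Ideal.exists_finset_card_eq_height_of_isNoetherianRing m
  have hTd : T.card ≤ d := by
    have h1 : ((m.height : ℕ∞) : WithBot ℕ∞) = ringKrullDim S :=
      IsLocalRing.maximalIdeal_height_eq_ringKrullDim
    rw [← h1, ← hcard] at hdim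
    exact_mod_cast hdim
  set θ : Fin T.card → S := fun i => (T.equivFin.symm i : S) with hθ
  have hθr : Set.range θ = (T : Set S) := by
    ext x
    constructor
    · rintro ⟨i, rfl⟩
      exact (T.equivFin.symm i).2
    · intro hx
      exact ⟨T.equivFin ⟨x, hx⟩, by simp [hθ]⟩
  set Q := Ideal.span (Set.range θ) with hQ
  have hQT : Q = Ideal.span (T : Set S) := by rw [hQ, hθr]
  have hart : IsArtinianRing (S ⧸ Q) := by
    rw [hQT]
    exact IsLocalRing.quotient_artinian_of_mem_minimalPrimes_of_isLocalRing _ hT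
  have hQm : Q ≤ m := by
    rw [hQT]
    exact hT.1.2
  have hfin : Module.length S (S ⧸ Q) ≠ ⊤ := by
    have : IsArtinian S (S ⧸ Q) := by
      have h1 : IsArtinian (S ⧸ Q) (S ⧸ Q) := hart
      exact isArtinian_of_surjective_algebraMap (R := S ⧸ Q) (S := S) (M := S ⧸ Q)
        Ideal.Quotient.mk_surjective
    exact Module.length_ne_top
  obtain ⟨L, hL⟩ := ENat.ne_top_iff_exists.mp hfin
  have hgrow : ∀ n : ℕ, ∑ j ∈ Finset.range (n + 1), Nat.multichoose r j ≤
      L * ∑ j ∈ Finset.range (n + 1), Nat.multichoose T.card j := by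
    intro n
    have h1 : ((∑ j ∈ Finset.range (n + 1), Nat.multichoose r j : ℕ) : ℕ∞) ≤
        Module.length S (S ⧸ m ^ (n + 1)) := by
      rw [length_eq_sum]
      push_cast
      exact Finset.sum_le_sum fun j _ => lower l hl j (indep hmin l hl s hs j)
    have h2 : Module.length S (S ⧸ m ^ (n + 1)) ≤ Module.length S (S ⧸ Q ^ (n + 1)) :=
      Module.length_le_of_surjective (Submodule.factor (Ideal.pow_right_mono hQm (n + 1)))
        (Submodule.factor_surjective _)
    have h3 : Module.length S (S ⧸ Q ^ (n + 1)) ≤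
        ((L * ∑ j ∈ Finset.range (n + 1), Nat.multichoose T.card j : ℕ) : ℕ∞) := by
      rw [length_eq_sum]
      push_cast
      rw [Finset.mul_sum]
      refine Finset.sum_le_sum fun j _ => ?_
      rw [hL, mul_comm]
      exact upper θ j
    exact_mod_cast h1.trans (h2.trans h3)
  have hrd : r ≤ d := (growth r T.card L hgrow).trans hTd
  -- padding
  refine ⟨fun i => if h : (i : ℕ) < r then l ⟨i, h⟩ else 0, fun i => ?_, s, ?_⟩
  · dsimp only
    split_ifs with h
    · exact hl _
    · exact zero_mem _
  · refine hs.trans ?_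
    refine Ideal.mul_mono_left (Ideal.span_mono ?_)
    rintro _ ⟨i, rfl⟩
    refine ⟨⟨i, by omega⟩, ?_⟩
    simp

end Run7.h889.RL
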