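import Pool.Agent.Run7.h889.Free2
import Pool.Agent.Run7.h889.Four
import Pool.Agent.Run7.h889.RL

set_option autoImplicit false
set_option linter.unusedSimpArgs false
set_option linter.unusedVariables false
set_option linter.unusedSectionVars false
set_option linter.deprecated false

namespace Run7.h889

open Module IsLocalRing

universe u v

lemma pow_red {S : Type u} [CommRing S] (m I : Ideal S) (s : ℕ) (hs : m ^ (s + 1) ≤ I * m ^ s)
    (j : ℕ) : m ^ (s + j) ≤ I ^ j := by
  have key : m ^ (s + j) ≤ I ^ j * m ^ s := by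
    induction j with
    | zero => rw [add_zero, pow_zero, one_mul]
    | succ j ih =>
      calc m ^ (s + (j + 1))
          = m ^ (s + j) * m := by rw [← add_assoc, pow_succ]
        _ ≤ (I ^ j * m ^ s) * m := Ideal.mul_mono_left ih
        _ = I ^ j * m ^ (s + 1) := by rw [mul_assoc, ← pow_succ]
        _ ≤ I ^ j * (I * m ^ s) := Ideal.mul_mono_right hs
        _ = _ := by rw [← mul_assoc, ← pow_succ]
  exact key.trans Ideal.mul_le_left

section

variable {k : Type u} [Field k] {d : ℕ}

lemma height_max_le : (maximalIdeal (MvPowerSeries (Fin d) k)).height ≤ d := by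
  classical
  have h1 : maximalIdeal (MvPowerSeries (Fin d) k) ∈ (Ideal.span (Set.range
      (fun i : Fin d => (MvPowerSeries.X i : MvPowerSeries (Fin d) k)))).minimalPrimes := by
    have e : Ideal.span (Set.range
      (fun i : Fin d => (MvPowerSeries.X i : MvPowerSeries (Fin d) k))) = maximalIdeal _ :=
      span_X.symm
    rw [e]
    refine ⟨⟨inferInstance, le_rfl⟩, ?_⟩
    intro Q hQ _
    exact hQ.2
  have h2 := Ideal.height_le_card_of_mem_minimalPrimes_span (Set.finite_range _) h1
  refine h2.trans ?_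
  have h3 : (Set.range (fun i : Fin d => (MvPowerSeries.X i : MvPowerSeries (Fin d) k))).ncard ≤
      d := by
    rw [← Set.image_univ]
    refine (Set.ncard_image_le Set.finite_univ).trans ?_
    rw [Set.ncard_univ, Nat.card_eq_fintype_card, Fintype.card_fin]
  exact_mod_cast h3

variable {p : ℕ} [hp : Fact p.Prime] [CharP k p]

/-- a partial reduction modulo an ideal of coheight two -/
theorem exists_z [Infinite k] (hT : ∀ E, Nonempty (FTr (p ^ E) k)) (hd : 2 ≤ d)
    (𝔞 : Ideal (MvPowerSeries (Fin d) k))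
    (h𝔞 : ∀ P : Ideal (MvPowerSeries (Fin d) k), P.IsPrime → P.height ≤ 1 → ¬ 𝔞 ≤ P) :
    ∃ z : Fin (d - 2) → MvPowerSeries (Fin d) k, (∀ i, z i ∈ maximalIdeal _) ∧
      ∃ s : ℕ, ∀ j : ℕ, (maximalIdeal (MvPowerSeries (Fin d) k)) ^ (s + j) ≤
        (Ideal.span (Set.range z)) ^ j ⊔ 𝔞 := by
  classical
  have hnorm : IsIntegrallyClosed (MvPowerSeries (Fin d) k) := normal_ps hT
  by_cases htop : 𝔞 = ⊤
  · refine ⟨fun _ => 0, fun _ => Ideal.zero_mem _, 0, fun j => ?_⟩
    rw [htop]
    exact le_top.trans le_sup_right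
  have hnt : Nontrivial (MvPowerSeries (Fin d) k ⧸ 𝔞) := Ideal.Quotient.nontrivial_iff.2 htop
  have hloc : IsLocalRing (MvPowerSeries (Fin d) k ⧸ 𝔞) :=
    IsLocalRing.of_surjective' (Ideal.Quotient.mk 𝔞) Ideal.Quotient.mk_surjective
  have hinf : Infinite (ResidueField (MvPowerSeries (Fin d) k ⧸ 𝔞)) := by
    let F : k →+* ResidueField (MvPowerSeries (Fin d) k ⧸ 𝔞) :=
      (residue _).comp ((Ideal.Quotient.mk 𝔞).comp MvPowerSeries.C)
    exact Infinite.of_injective F F.injective
  have hdim : ringKrullDim (MvPowerSeries (Fin d) k ⧸ 𝔞) ≤ (d - 2 : ℕ) := by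
    apply dim_quot_le inferInstance 𝔞 h𝔞
    refine height_max_le.trans ?_
    obtain ⟨e, rfl⟩ : ∃ e, d = e + 2 := ⟨d - 2, by omega⟩
    rw [Nat.add_sub_cancel]
    push_cast
    exact le_rfl
  obtain ⟨l, hl, s, hs⟩ := RL.exists_reduction (d - 2) hdim
  have hmap : (maximalIdeal (MvPowerSeries (Fin d) k)).map (Ideal.Quotient.mk 𝔞) =
      maximalIdeal (MvPowerSeries (Fin d) k ⧸ 𝔞) := by
    apply IsLocalRing.eq_maximalIdeal
    refine (Ideal.map_eq_top_or_isMaximal_of_surjective (Ideal.Quotient.mk 𝔞)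
      Ideal.Quotient.mk_surjective (maximalIdeal.isMaximal _)).resolve_left ?_
    intro h
    rw [Ideal.eq_top_iff_one, Ideal.mem_map_iff_of_surjective _ Ideal.Quotient.mk_surjective] at h
    obtain ⟨x, hx, hx1⟩ := h
    have h2 : x - 1 ∈ 𝔞 := Ideal.Quotient.eq.1 (hx1.trans (map_one _).symm)
    have h3 : x - (x - 1) ∈ maximalIdeal (MvPowerSeries (Fin d) k) :=
      Ideal.sub_mem _ hx (IsLocalRing.le_maximalIdeal htop h2)
    rw [sub_sub_cancel] at h3
    exact (maximalIdeal.isMaximal _).ne_top ((Ideal.eq_top_iff_one _).2 h3)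
  have hlift : ∀ i, ∃ z ∈ maximalIdeal (MvPowerSeries (Fin d) k), Ideal.Quotient.mk 𝔞 z = l i := by
    intro i
    have h1 := hl i
    rw [← hmap, Ideal.mem_map_iff_of_surjective _ Ideal.Quotient.mk_surjective] at h1
    exact h1
  choose z hz hzl using hlift
  refine ⟨z, hz, s, ?_⟩
  have hspan : (Ideal.span (Set.range z)).map (Ideal.Quotient.mk 𝔞) =
      Ideal.span (Set.range l) := by
    rw [Ideal.map_span, ← Set.range_comp]
    congr 2
    funext i
    exact hzl i
  have hpow := fun j => pow_red _ _ s hs j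
  intro j x hx
  have h1 : Ideal.Quotient.mk 𝔞 x ∈ ((Ideal.span (Set.range z)) ^ j).map (Ideal.Quotient.mk 𝔞) := by
    rw [Ideal.map_pow, hspan]
    refine (hpow j) ?_
    rw [← hmap, ← Ideal.map_pow]
    exact Ideal.mem_map_of_mem _ hx
  rw [Ideal.mem_map_iff_of_surjective _ Ideal.Quotient.mk_surjective] at h1
  obtain ⟨x', hx', hxx⟩ := h1
  have h2 : x - x' ∈ 𝔞 := Ideal.Quotient.eq.1 hxx.symm
  have h3 : x = x' + (x - x') := by ring
  rw [h3]
  exact Submodule.add_mem_sup hx' h2

end

section free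

variable {k : Type u} [Field k] {d : ℕ} {p : ℕ} [hp : Fact p.Prime] [CharP k p]
  {R : Type v} [CommRing R] [IsDomain R] [IsLocalRing R] [CharP R p]
  [Algebra (MvPowerSeries (Fin d) k) R] [Module.Finite (MvPowerSeries (Fin d) k) R]
  [Module.IsTorsionFree (MvPowerSeries (Fin d) k) R]

/-- **`R` is free over the power series ring.** -/
theorem free_of_big [Infinite k] (hR : Red k d R) (hT : ∀ E, Nonempty (FTr (p ^ E) k))
    (hB : Big p d R) (hd : 2 ≤ d) {n : ℕ} (y : Fin n → R)
    (hgen : Function.Surjective (pr (A := MvPowerSeries (Fin d) k) y))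
    (hmin : ∀ c : Fin n → MvPowerSeries (Fin d) k, pr y c = 0 → ∀ j, c j ∈ maximalIdeal _) :
    ∀ c : Fin n → MvPowerSeries (Fin d) k, pr y c = 0 → c = 0 := by
  classical
  have hnorm : IsIntegrallyClosed (MvPowerSeries (Fin d) k) := normal_ps hT
  have hchar : CharP (MvPowerSeries (Fin d) k) p := charP_of_injective_ringHom
    (MvPowerSeries.C_injective (σ := Fin d) (R := k)) p
  obtain ⟨z, hz, s, hs⟩ := exists_z (p := p) hT hd (goodI y)
    (fun P hP hh => goodI_not_le y hgen P (pid_of_height_le P hh))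
  obtain ⟨s', hs'⟩ := hR
  obtain ⟨E, hE⟩ := hB (2 * s + 2 * s' + 2 * d)
  obtain ⟨N, f, hf, φ, hφ, hN⟩ := hE E le_rfl
  obtain ⟨T⟩ := hT E
  refine rel_trivial y hgen hmin (T.lift d) φ.1 φ.2 hφ (Set.range z) ?_ (goodI y)
    (fun a ha => ha) ?_
  · rintro _ ⟨i, rfl⟩
    exact hz i
  · have hq := q_pos p E
    obtain ⟨q, hqe⟩ : ∃ q, q = p ^ E := ⟨_, rfl⟩
    rw [← hqe] at hN hq
    obtain ⟨t, ht⟩ : ∃ t, q = t + 1 := ⟨q - 1, by omega⟩
    obtain ⟨e, rfl⟩ : ∃ e, d = e + 2 := ⟨d - 2, by omega⟩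
    have h2 : s' + (s + (e * q + 1)) ≤ N := by
      have e1 : 2 * (e + 2) - 3 = 2 * e + 1 := by omega
      rw [e1, ht] at hN
      have e2 : (2 * e + 1) * (t + 1 - 1) = 2 * (e * t) + t := by
        rw [Nat.add_sub_cancel]; ring
      have e3 : e * (t + 1) = e * t + e := by ring
      rw [e2] at hN
      rw [ht, e3]
      omega
    have h3 := hs' (s + (e * q + 1)) (Ideal.pow_le_pow_right h2 hf)
    refine Ideal.map_mono ?_ h3
    refine (hs (e * q + 1)).trans ?_
    apply sup_le_sup_right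
    have h4 := span_pow_le q e z
    refine h4.trans (Ideal.span_mono ?_)
    rintro _ ⟨i, rfl⟩
    rw [hqe]
    exact ⟨z i, ⟨i, rfl⟩, rfl⟩

/-- a minimal system of generators -/
theorem exists_min_gen {A : Type u} [CommRing A] [IsLocalRing A] [IsNoetherianRing A] [Algebra A R]
    [Module.Finite A R]
    (hAR : ∀ a ∈ maximalIdeal A, algebraMap A R a ∈ maximalIdeal R)
    (hk : ∀ r : R, ∃ c : A, r - algebraMap A R c ∈ maximalIdeal R) :
    ∃ (n : ℕ) (y : Fin (n + 1) → R), y 0 = 1 ∧ (∀ i, i ≠ 0 → y i ∈ maximalIdeal R) ∧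
      Function.Surjective (pr (A := A) y) ∧
      ∀ c : Fin (n + 1) → A, pr y c = 0 → ∀ j, c j ∈ maximalIdeal A := by
  classical
  let Pn : ℕ → Prop := fun n => ∃ y : Fin (n + 1) → R, y 0 = 1 ∧
    (∀ i, i ≠ 0 → y i ∈ maximalIdeal R) ∧ Function.Surjective (pr (A := A) y)
  have hex : ∃ n, Pn n := by
    obtain ⟨n, g, hg⟩ := Module.Finite.exists_fin (R := A) (M := R)
    choose c hc using hk
    refine ⟨n, Fin.cons 1 (fun i => g i - algebraMap A R (c (g i))), rfl, ?_, ?_⟩
    · intro i hi
      obtain ⟨j, rfl⟩ := Fin.exists_succ_eq.2 hi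
      rw [Fin.cons_succ]
      exact hc _
    · intro r
      have hr : r ∈ Submodule.span A (Set.range g) := by rw [hg]; trivial
      rw [Submodule.mem_span_range_iff_exists_fun] at hr
      obtain ⟨a, rfl⟩ := hr
      refine ⟨Fin.cons (∑ i, a i * c (g i)) a, ?_⟩
      rw [pr_apply, Fin.sum_univ_succ]
      simp only [Fin.cons_zero, Fin.cons_succ]
      rw [Algebra.smul_def, mul_one, map_sum, ← Finset.sum_add_distrib]
      apply Finset.sum_congr rfl
      intro i _
      rw [Algebra.smul_def, Algebra.smul_def, map_mul]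
      ring
  obtain ⟨n, ⟨y, hy0, hym, hgen⟩, hmin⟩ : ∃ n, Pn n ∧ ∀ m < n, ¬ Pn m :=
    ⟨Nat.find hex, Nat.find_spec hex, fun m h => Nat.find_min hex h⟩
  refine ⟨n, y, hy0, hym, hgen, ?_⟩
  intro c hc j
  by_contra hj
  have hu : IsUnit (c j) := by
    by_contra h
    exact hj ((mem_maximalIdeal _).2 h)
  rw [pr_apply] at hc
  by_cases hj0 : j = 0
  · subst hj0
    rw [Fin.sum_univ_succ, hy0, Algebra.smul_def, mul_one] at hc
    have h1 : algebraMap A R (c 0) ∈ maximalIdeal R := by
      have e : algebraMap A R (c 0) = - ∑ i : Fin n, c i.succ • y i.succ := by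
        rw [eq_neg_iff_add_eq_zero]; exact hc
      rw [e]
      apply neg_mem
      apply Ideal.sum_mem
      intro i _
      rw [Algebra.smul_def]
      exact Ideal.mul_mem_left _ _ (hym _ (Fin.succ_ne_zero i))
    exact (mem_maximalIdeal _).1 h1 (hu.map _)
  · -- remove `y j`
    obtain ⟨m, rfl⟩ : ∃ m, n = m + 1 := by
      refine ⟨n - 1, ?_⟩
      have := j.2
      have h0 : (j : ℕ) ≠ 0 := fun h => hj0 (Fin.ext h)
      omega
    obtain ⟨v, hv⟩ := hu.exists_left_inv
    refine hmin m (by omega) ⟨fun i => y (j.succAbove i), ?_, ?_, ?_⟩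
    · change y (j.succAbove 0) = 1
      rw [Fin.succAbove_ne_zero_zero hj0]
      exact hy0
    · intro i hi
      apply hym
      intro h
      apply hi
      rw [← Fin.succAbove_ne_zero_zero hj0] at h
      exact Fin.succAbove_right_injective h
    · intro r
      obtain ⟨a, rfl⟩ := hgen r
      refine ⟨fun i => a (j.succAbove i) - a j * v * c (j.succAbove i), ?_⟩
      rw [pr_apply, pr_apply, Fin.sum_univ_succAbove _ j]
      rw [Fin.sum_univ_succAbove _ j] at hc
      have e1 : y j = - ∑ i, (v * c (j.succAbove i)) • y (j.succAbove i) := by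
        have h1 : v • (c j • y j + ∑ i, c (j.succAbove i) • y (j.succAbove i)) = 0 := by
          rw [hc, smul_zero]
        rw [smul_add, smul_smul, hv, one_smul, Finset.smul_sum] at h1
        rw [eq_neg_iff_add_eq_zero, ← h1]
        congr 1
        apply Finset.sum_congr rfl
        intro i _
        rw [smul_smul]
      rw [e1, smul_neg, Finset.smul_sum, neg_add_eq_sub, ← Finset.sum_sub_distrib]
      apply Finset.sum_congr rfl
      intro i _
      rw [sub_smul, smul_smul, mul_assoc]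

end free

section main

variable {k : Type u} [Field k] {d : ℕ} {p : ℕ} [hp : Fact p.Prime] [CharP k p]
  {R : Type u} [CommRing R] [IsDomain R] [IsLocalRing R] [IsIntegrallyClosed R] [CharP R p]
  [Algebra (MvPowerSeries (Fin d) k) R] [Module.Finite (MvPowerSeries (Fin d) k) R]
  [FaithfulSMul (MvPowerSeries (Fin d) k) R]

/-- **The upper bound for complete local rings.** -/
theorem qgor_of_big [Infinite k]
    (hAR : ∀ a ∈ maximalIdeal (MvPowerSeries (Fin d) k), algebraMap _ R a ∈ maximalIdeal R)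
    (hk : ∀ r : R, ∃ c : MvPowerSeries (Fin d) k, r - algebraMap _ R c ∈ maximalIdeal R)
    (hR : Red k d R) (hT : ∀ E, Nonempty (FTr (p ^ E) k)) (hB : Big p d R) (hd : 2 ≤ d) :
    IsQGorenstein p R := by
  classical
  have htf : Module.IsTorsionFree (MvPowerSeries (Fin d) k) R := inferInstance
  obtain ⟨n, y, hy0, hym, hgen, hmin⟩ := exists_min_gen (A := MvPowerSeries (Fin d) k) hAR hk
  have hrel := free_of_big hR hT hB hd y hgen hmin
  have hli : LinearIndependent (MvPowerSeries (Fin d) k) y := by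
    rw [Fintype.linearIndependent_iff]
    intro c hc
    have := hrel c (by rw [pr_apply]; exact hc)
    intro i
    rw [this]; rfl
  have hsp : ⊤ ≤ Submodule.span (MvPowerSeries (Fin d) k) (Set.range y) := by
    intro r _
    obtain ⟨c, rfl⟩ := hgen r
    rw [Submodule.mem_span_range_iff_exists_fun]
    exact ⟨c, (pr_apply y c).symm⟩
  let B : Basis (Fin (n + 1)) (MvPowerSeries (Fin d) k) R := Basis.mk hli hsp
  have hBy : ∀ i, B i = y i := fun i => by rw [Basis.mk_apply]
  have hB0 : B 0 = 1 := by rw [hBy, hy0]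
  have hBm : ∀ i, i ≠ 0 → B i ∈ maximalIdeal R := fun i hi => by rw [hBy]; exact hym i hi
  let L := FractionRing R
  let K := FractionRing (MvPowerSeries (Fin d) k)
  letI : Algebra K L := FractionRing.liftAlgebra _ L
  have hst : IsScalarTower (MvPowerSeries (Fin d) k) K L := inferInstance
  rcases n with _ | _ | _ | n
  · obtain ⟨T⟩ := hT 1
    exact one_qgor K L (T.lift d) B hB0
  · obtain ⟨T⟩ := hT 1
    exact two_qgor K L (T.lift d) B hB0
  · exact three_qgor K L B hB0 hBm hR hT hB hd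
  · exact (four_false K L B (by omega) hB0 hBm hR hT hB hd).elim

end main

end Run7.h889
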