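import Pool.Agent.Run7.h889.Small
import Pool.Agent.Run7.h889.RL

/-!
# MP_7dd379_ag: the remaining pieces (statements)

`FHom`, `IsFFinite`, `IsFPure`, `IsQGorenstein` are in `Defs`, `FTr` is in `FT`.
-/

set_option autoImplicit false
set_option linter.unusedSimpArgs false
set_option linter.unusedVariables false
set_option linter.unusedSectionVars false
set_option linter.deprecated false

namespace Run7.h889

open Module IsLocalRing

universe u v

/-- `S` looks like the completion of the Noetherian local ring `R` -/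
structure CExt (R S : Type u) [CommRing R] [CommRing S] [IsLocalRing R] [IsLocalRing S]
    [Algebra R S] : Prop where
  noethR : IsNoetherianRing R
  noethS : IsNoetherianRing S
  complete : IsAdicComplete (maximalIdeal S) S
  ff : Module.FaithfullyFlat R S
  max_eq : (maximalIdeal R).map (algebraMap R S) = maximalIdeal S
  dense : ∀ (n : ℕ) (s : S), ∃ r : R, s - algebraMap R S r ∈ maximalIdeal S ^ n

/-- `S` is generated over `S^p` by elements of `R`, and every `p^{-e}`-linear map of `R` extends
to `S` -/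
def GenExt (p : ℕ) (R S : Type u) [CommRing R] [CommRing S] [Algebra R S] : Prop :=
  (∃ s : Finset R, (∀ x : R, ∃ a : R → R, x = ∑ y ∈ s, a y ^ p * y) ∧
    ∀ x : S, ∃ a : R → S, x = ∑ y ∈ s, a y ^ p * algebraMap R S y) ∧
  ∀ (E : ℕ) (φ : FHom p E R), ∃ ψ : FHom p E S, ∀ r,
    ψ.1 (algebraMap R S r) = algebraMap R S (φ.1 r)

/-- `FHom p 1 S` is generated over `S` by (twisted) extensions of the elements of `FHom p 1 R` -/
def FExt (p : ℕ) (R S : Type u) [CommRing R] [CommRing S] [Algebra R S] : Prop :=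
  ∃ (ext : FHom p 1 R →+ FHom p 1 S) (w : S),
    (∀ (c : R) (φ : FHom p 1 R), ext (c • φ) = algebraMap R S c • ext φ) ∧
    (∀ (φ : FHom p 1 R) (r : R), (ext φ).1 (w * algebraMap R S r) = algebraMap R S (φ.1 r)) ∧
    Submodule.span S (Set.range ext) = ⊤

/-- COEF: a coefficient field -/
def S_COEF : Prop := ∀ (p : ℕ) [Fact p.Prime] (R : Type u) [CommRing R] [IsLocalRing R]
  [IsNoetherianRing R] [CharP R p] [IsAdicComplete (maximalIdeal R) R], IsFFinite p R →
  ∃ σ : ResidueField R →+* R, ∀ x, residue R (σ x) = x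

/-- FTR: F-finite fields have traces -/
def S_FTR : Prop := ∀ (p E : ℕ) [Fact p.Prime] (k : Type u) [Field k] [CharP k p],
  IsFFinite p k → Nonempty (FTr (p ^ E) k)

/-- STR: a complete local domain is finite over a power series ring -/
def S_STR : Prop := ∀ (R : Type u) [CommRing R] [IsDomain R] [IsLocalRing R]
  [IsNoetherianRing R] [IsAdicComplete (maximalIdeal R) R] (k : Type u) [Field k] (σ : k →+* R),
  (∀ r : R, ∃ c : k, r - σ c ∈ maximalIdeal R) → ∀ (d : ℕ), ringKrullDim R = d →
  ∀ (z : Fin d → R), (∀ i, z i ∈ maximalIdeal R) → ∀ (s : ℕ),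
  maximalIdeal R ^ s ≤ Ideal.span (Set.range z) →
  ∃ F : MvPowerSeries (Fin d) k →+* R, (∀ i, F (MvPowerSeries.X i) = z i) ∧
    (∀ c, F (MvPowerSeries.C c) = σ c) ∧ F.Finite ∧ Function.Injective F

/-- C0: the completion is a completion -/
def S_C0 : Prop := ∀ (R : Type u) [CommRing R] [IsLocalRing R] [IsNoetherianRing R],
  CExt R (AdicCompletion (maximalIdeal R) R)

/-- DIM -/
def S_DIM : Prop := ∀ (R S : Type u) [CommRing R] [CommRing S] [IsLocalRing R] [IsLocalRing S]
  [IsNoetherianRing R] [IsNoetherianRing S] [Algebra R S] [Module.FaithfullyFlat R S],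
  (maximalIdeal R).map (algebraMap R S) = maximalIdeal S → ringKrullDim S = ringKrullDim R

/-- CE: extension of `p^{-e}`-linear maps to the completion -/
def S_CE : Prop := ∀ (p : ℕ) [Fact p.Prime] (R S : Type u) [CommRing R] [CommRing S]
  [IsLocalRing R] [IsLocalRing S] [Algebra R S] [CharP R p] [CharP S p],
  CExt R S → IsFFinite p R → GenExt p R S ∧ FExt p R S

/-- NORM: the completion of an F-finite, F-pure normal domain is a normal domain -/
def S_NORM : Prop := ∀ (p : ℕ) [Fact p.Prime] (R S : Type u) [CommRing R] [CommRing S]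
  [IsLocalRing R] [IsLocalRing S] [Algebra R S] [CharP R p] [CharP S p] [IsDomain R]
  [IsIntegrallyClosed R],
  CExt R S → IsFFinite p R → IsFPure p R → GenExt p R S → IsDomain S ∧ IsIntegrallyClosed S

/-- DESC: descent of the `ℚ`-Gorenstein property -/
def S_DESC : Prop := ∀ (p : ℕ) [Fact p.Prime] (R S : Type u) [CommRing R] [CommRing S]
  [IsLocalRing R] [IsLocalRing S] [IsNoetherianRing R] [IsNoetherianRing S] [IsDomain R]
  [IsDomain S] [Algebra R S] [CharP R p] [CharP S p] [Module.FaithfullyFlat R S],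
  IsFFinite p R → IsFFinite p S → FExt p R S → IsQGorenstein p S → IsQGorenstein p R

/-- RT: `R(t)`, for finite residue fields -/
def S_RT : Prop := ∀ (p : ℕ) [Fact p.Prime] (R : Type u) [CommRing R] [IsDomain R]
  [IsLocalRing R] [IsNoetherianRing R] [IsIntegrallyClosed R] [CharP R p], IsFFinite p R →
  ∃ (S : Type u) (_ : CommRing S) (_ : IsDomain S) (_ : IsLocalRing S) (_ : Algebra R S),
    IsNoetherianRing S ∧ IsIntegrallyClosed S ∧ CharP S p ∧ IsFFinite p S ∧
    Infinite (ResidueField S) ∧ Module.FaithfullyFlat R S ∧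
    (maximalIdeal R).map (algebraMap R S) = maximalIdeal S ∧ FExt p R S ∧
    ∀ (E : ℕ) (φ : FHom p E R), ∃ (ψ : FHom p E S) (w : S), ∀ r,
      ψ.1 (w * algebraMap R S r) = algebraMap R S (φ.1 r)

end Run7.h889
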