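import Pool.Agent.Run7.h889.Free3
import Pool.Agent.Run7.h889.Iface

set_option autoImplicit false
set_option linter.unusedSimpArgs false
set_option linter.unusedVariables false
set_option linter.unusedSectionVars false
set_option linter.deprecated false

namespace Run7.h889

open Module IsLocalRing

universe u v

lemma ffinite_of_fin {p : ℕ} [hp : Fact p.Prime] {R : Type u} [CommRing R] [CharP R p] {ι : Type v}
    [Fintype ι] (y : ι → R) (h : ∀ x, ∃ a : ι → R, x = ∑ i, a i ^ p * y i) : IsFFinite p R := by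
  classical
  refine ⟨Finset.univ.image y, fun x => ?_⟩
  obtain ⟨a, ha⟩ := h x
  refine ⟨fun w => ∑ i ∈ Finset.univ.filter (fun i => y i = w), a i, ?_⟩
  have h1 : ∀ w ∈ Finset.univ.image y, (∑ i ∈ Finset.univ.filter (fun i => y i = w), a i) ^ p * w =
      ∑ i ∈ Finset.univ.filter (fun i => y i = w), a i ^ p * y i := by
    intro w _
    rw [sum_pow_char, Finset.sum_mul]
    apply Finset.sum_congr rfl
    intro i hi
    rw [(Finset.mem_filter.1 hi).2]
  rw [Finset.sum_congr rfl h1, ha]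
  exact (Finset.sum_fiberwise_of_maps_to (fun i _ => Finset.mem_image_of_mem y (Finset.mem_univ i))
    _).symm

lemma ffinite_surj {p : ℕ} [hp : Fact p.Prime] {R S : Type u} [CommRing R] [CommRing S]
    [CharP S p] (f : R →+* S) (hf : Function.Surjective f) (h : IsFFinite p R) :
    IsFFinite p S := by
  classical
  obtain ⟨s, hs⟩ := h
  apply ffinite_of_fin (fun y : s => f y.1)
  intro x
  obtain ⟨r, rfl⟩ := hf x
  obtain ⟨a, ha⟩ := hs r
  refine ⟨fun y => f (a y.1), ?_⟩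
  conv_lhs => rw [ha]
  rw [map_sum, ← Finset.sum_coe_sort]
  apply Finset.sum_congr rfl
  intro y _
  rw [map_mul, map_pow]

/-- from the F-pure threshold to `Big` -/
theorem big_of_fpt {p : ℕ} [hp : Fact p.Prime] {R : Type u} [CommRing R] [IsLocalRing R] {d : ℕ}
    (hd : 2 ≤ d) (h : (((d : ℝ) - 3 / 2 : ℝ) : EReal) < fpt p R (maximalIdeal R)) : Big p d R := by
  obtain ⟨x, ⟨t, ht0, ht, rfl⟩, hlt⟩ := lt_sSup_iff.1 h
  have hlt' : (d : ℝ) - 3 / 2 < t := by exact_mod_cast hlt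
  obtain ⟨e0, he0⟩ := ht
  intro C
  -- choose `E0` with `C ≤ 2 (t - (d - 3/2)) (p^E - 1)`
  obtain ⟨δ, hδ⟩ : ∃ δ, δ = 2 * (t - ((d : ℝ) - 3 / 2)) := ⟨_, rfl⟩
  have hδ0 : 0 < δ := by rw [hδ]; linarith
  obtain ⟨m, hm⟩ := exists_nat_gt ((C : ℝ) / δ + 1)
  refine ⟨max e0 m, fun E hE => ?_⟩
  obtain ⟨f, hf, φ, hφ⟩ := he0 E (le_trans (le_max_left _ _) hE)
  refine ⟨_, f, hf, φ, hφ, ?_⟩
  have h1 : (m : ℝ) ≤ (p : ℝ) ^ E := by
    have h2 : m < 2 ^ m := Nat.lt_two_pow_self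
    have h3 : 2 ^ m ≤ p ^ E := (Nat.pow_le_pow_left hp.out.two_le m).trans
      (Nat.pow_le_pow_right hp.out.pos (le_trans (le_max_right _ _) hE))
    exact_mod_cast (h2.le.trans h3)
  have h4 : (C : ℝ) ≤ δ * ((p : ℝ) ^ E - 1) := by
    have h5 : (C : ℝ) / δ ≤ (p : ℝ) ^ E - 1 := by linarith
    rw [div_le_iff₀ hδ0] at h5
    linarith
  have h6 : t * ((p : ℝ) ^ E - 1) ≤ ⌈t * ((p : ℝ) ^ E - 1)⌉₊ := Nat.le_ceil _
  have h7 : (((2 * d - 3) * (p ^ E - 1) + C : ℕ) : ℝ) ≤
      ((2 * ⌈t * ((p : ℝ) ^ E - 1)⌉₊ : ℕ) : ℝ) := by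
    have h8 : 1 ≤ p ^ E := q_pos p E
    have h9 : 3 ≤ 2 * d := by omega
    push_cast [Nat.cast_sub h8, Nat.cast_sub h9]
    have h10 : δ * ((p : ℝ) ^ E - 1) = 2 * t * ((p : ℝ) ^ E - 1) - (2 * d - 3) * ((p : ℝ) ^ E - 1) := by
      rw [hδ]; ring
    rw [h10] at h4
    linarith
  exact_mod_cast h7

section complete

/-- **The upper bound for complete local domains with infinite residue field.** -/
theorem complete_case (hCOEF : S_COEF.{u}) (hFTR : S_FTR.{u}) (hSTR : S_STR.{u}) {p : ℕ}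
    [hp : Fact p.Prime] {R : Type u} [CommRing R] [IsDomain R] [IsLocalRing R] [IsNoetherianRing R]
    [IsIntegrallyClosed R] [CharP R p] [IsAdicComplete (maximalIdeal R) R] (hF : IsFFinite p R)
    [Infinite (ResidueField R)] {d : ℕ} (hdim : ringKrullDim R = d) (hd : 2 ≤ d)
    (hB : Big p d R) : IsQGorenstein p R := by
  classical
  obtain ⟨σ, hσ⟩ := hCOEF p R hF
  obtain ⟨l, hl, s, hs⟩ := RL.exists_reduction (S := R) d hdim.le
  have hchar : CharP (ResidueField R) p := (σ.charP_iff σ.injective p).2 inferInstance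
  have hFk : IsFFinite p (ResidueField R) := ffinite_surj (residue R) residue_surjective hF
  have hT : ∀ E, Nonempty (FTr (p ^ E) (ResidueField R)) := fun E => hFTR p E _ hFk
  have hpow := pow_red (maximalIdeal R) (Ideal.span (Set.range l)) s hs
  have hc : ∀ r : R, ∃ c, r - σ c ∈ maximalIdeal R := by
    intro r
    refine ⟨residue R r, ?_⟩
    rw [← residue_eq_zero_iff, map_sub, hσ, sub_self]
  obtain ⟨F, hFX, hFC, hfin, hinj⟩ := hSTR R (ResidueField R) σ hc d hdim l hl (s + 1) (by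
    have := hpow 1
    rwa [pow_one] at this)
  letI : Algebra (MvPowerSeries (Fin d) (ResidueField R)) R := F.toAlgebra
  have hF' : ∀ a, algebraMap (MvPowerSeries (Fin d) (ResidueField R)) R a = F a := fun _ => rfl
  haveI : Module.Finite (MvPowerSeries (Fin d) (ResidueField R)) R := hfin
  haveI : FaithfulSMul (MvPowerSeries (Fin d) (ResidueField R)) R :=
    (faithfulSMul_iff_algebraMap_injective _ _).2 hinj
  have hmap : (maximalIdeal (MvPowerSeries (Fin d) (ResidueField R))).map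
      (algebraMap _ R) = Ideal.span (Set.range l) := by
    rw [span_X, Ideal.map_span, ← Set.range_comp]
    congr 2
    funext i
    exact hFX i
  have hAR : ∀ a ∈ maximalIdeal (MvPowerSeries (Fin d) (ResidueField R)),
      algebraMap _ R a ∈ maximalIdeal R := by
    intro a ha
    have h1 := Ideal.mem_map_of_mem (algebraMap _ R) ha
    rw [hmap] at h1
    refine (Ideal.span_le.2 ?_) h1
    rintro _ ⟨i, rfl⟩
    exact hl i
  refine qgor_of_big hAR ?_ ⟨s, fun j => ?_⟩ hT hB hd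
  · intro r
    obtain ⟨c, hc⟩ := hc r
    exact ⟨MvPowerSeries.C c, by rw [hF', hFC]; exact hc⟩
  · rw [Ideal.map_pow, hmap]
    exact hpow j

end complete

section general

/-- **The upper bound.** -/
theorem upper_bound (hCOEF : S_COEF.{u}) (hFTR : S_FTR.{u}) (hSTR : S_STR.{u}) (hC0 : S_C0.{u})
    (hDIM : S_DIM.{u}) (hCE : S_CE.{u}) (hNORM : S_NORM.{u}) (hDESC : S_DESC.{u})
    (hRT : S_RT.{u}) {p : ℕ} [hp : Fact p.Prime] {R : Type u} [CommRing R] [IsDomain R]
    [IsLocalRing R] [IsNoetherianRing R] [IsIntegrallyClosed R] [CharP R p] (hF : IsFFinite p R)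
    (hFP : IsFPure p R) {d : ℕ} (hdim : ringKrullDim R = d) (hd : 2 ≤ d) (hB : Big p d R) :
    IsQGorenstein p R := by
  classical
  -- pass to an infinite residue field
  obtain ⟨R1, i1, i2, i3, i4, hN1, hI1, hc1, hF1, hinf, hff1, hm1, hfe1, hext1⟩ := hRT p R hF
  have hdim1 : ringKrullDim R1 = d := (hDIM R R1 hm1).trans hdim
  have hloc : ∀ n : ℕ, ∀ f ∈ maximalIdeal R ^ n, algebraMap R R1 f ∈ maximalIdeal R1 ^ n := by
    intro n f hf
    rw [← hm1, ← Ideal.map_pow]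
    exact Ideal.mem_map_of_mem _ hf
  have hFP1 : IsFPure p R1 := by
    obtain ⟨φ, hφ⟩ := hFP
    obtain ⟨ψ, w, hψ⟩ := hext1 1 φ
    refine ⟨w • ψ, ?_⟩
    rw [FHom_smul_apply, ← map_one (algebraMap R R1), hψ, hφ, map_one]
  have hB1 : Big p d R1 := by
    intro C
    obtain ⟨E0, hE0⟩ := hB C
    refine ⟨E0, fun E hE => ?_⟩
    obtain ⟨N, f, hf, φ, hφ, hN⟩ := hE0 E hE
    obtain ⟨ψ, w, hψ⟩ := hext1 E φ
    refine ⟨N, w * algebraMap R R1 f, Ideal.mul_mem_left _ _ (hloc N f hf), ψ, ?_, hN⟩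
    rw [hψ, hφ, map_one]
  -- pass to the completion
  obtain ⟨S, hS⟩ : ∃ S, S = AdicCompletion (maximalIdeal R1) R1 := ⟨_, rfl⟩
  have hC := hC0 R1
  haveI := hC.noethS
  haveI := hC.ff
  haveI := hC.complete
  have hdim2 : ringKrullDim (AdicCompletion (maximalIdeal R1) R1) = d :=
    (hDIM R1 _ hC.max_eq).trans hdim1
  haveI hc2 : CharP (AdicCompletion (maximalIdeal R1) R1) p :=
    charP_of_injective_ringHom (FaithfulSMul.algebraMap_injective R1
      (AdicCompletion (maximalIdeal R1) R1)) p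
  obtain ⟨hg2, hfe2⟩ := hCE p R1 (AdicCompletion (maximalIdeal R1) R1) hC hF1
  obtain ⟨hdom2, hn2⟩ := hNORM p R1 (AdicCompletion (maximalIdeal R1) R1) hC hF1 hFP1 hg2
  have hF2 : IsFFinite p (AdicCompletion (maximalIdeal R1) R1) := by
    obtain ⟨⟨s, -, hs⟩, -⟩ := hg2
    apply ffinite_of_fin (fun y : s => algebraMap R1 (AdicCompletion (maximalIdeal R1) R1) y.1)
    intro x
    obtain ⟨a, ha⟩ := hs x
    refine ⟨fun y => a y.1, ?_⟩
    rw [ha, ← Finset.sum_coe_sort]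
  have hinf2 : Infinite (ResidueField (AdicCompletion (maximalIdeal R1) R1)) := by
    let g : ResidueField R1 →+* ResidueField (AdicCompletion (maximalIdeal R1) R1) :=
      IsLocalRing.ResidueField.map (algebraMap R1 _)
    exact Infinite.of_injective g g.injective
  have hB2 : Big p d (AdicCompletion (maximalIdeal R1) R1) := by
    intro C
    obtain ⟨E0, hE0⟩ := hB1 C
    refine ⟨E0, fun E hE => ?_⟩
    obtain ⟨N, f, hf, φ, hφ, hN⟩ := hE0 E hE
    obtain ⟨ψ, hψ⟩ := hg2.2 E φ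
    refine ⟨N, algebraMap R1 _ f, ?_, ψ, ?_, hN⟩
    · rw [← hC.max_eq, ← Ideal.map_pow]
      exact Ideal.mem_map_of_mem _ hf
    · rw [hψ, hφ, map_one]
  have hq2 := complete_case hCOEF hFTR hSTR hF2 hdim2 hd hB2
  have hq1 := hDESC p R1 _ hF1 hF2 hfe2 hq2
  exact hDESC p R R1 hF hF1 hfe1 hq1

end general

end Run7.h889
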