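import Pool.Agent.Run7.h889.Quad2

set_option autoImplicit false
set_option linter.unusedSimpArgs false
set_option linter.unusedVariables false
set_option linter.unusedSectionVars false
set_option linter.deprecated false

namespace Run7.h889

open Module nonZeroDivisors IsLocalRing

universe u v

section pow

lemma span_pow_le {A : Type u} [CommRing A] (q : ℕ) : ∀ (n : ℕ) (x : Fin n → A),
    (Ideal.span (Set.range x)) ^ (n * q + 1) ≤ Ideal.span (Set.range (fun i => x i ^ q)) := by
  intro n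
  induction n with
  | zero =>
    intro x
    rw [Set.range_eq_empty, Ideal.span_empty, zero_mul, zero_add, pow_one]
    exact bot_le
  | succ n ih =>
    intro x
    have e1 : Ideal.span (Set.range x) = Ideal.span (Set.range (fun i : Fin n => x i.castSucc)) ⊔
        Ideal.span {x (Fin.last n)} := by
      rw [← Ideal.span_union]
      congr 1
      ext z
      simp only [Set.mem_range, Set.mem_union, Set.mem_singleton_iff]
      constructor
      · rintro ⟨i, rfl⟩
        rcases Fin.eq_castSucc_or_eq_last i with ⟨j, rfl⟩ | rfl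
        · exact Or.inl ⟨j, rfl⟩
        · exact Or.inr rfl
      · rintro (⟨i, rfl⟩ | rfl)
        · exact ⟨_, rfl⟩
        · exact ⟨_, rfl⟩
    have e2 : (n + 1) * q + 1 = (n * q + 1) + q := by ring
    rw [e1, e2]
    refine (Ideal.sup_pow_add_le_pow_sup_pow).trans (sup_le ?_ ?_)
    · refine (ih _).trans (Ideal.span_mono ?_)
      rintro _ ⟨i, rfl⟩
      exact ⟨i.castSucc, rfl⟩
    · rw [Ideal.span_singleton_pow]
      refine Ideal.span_mono ?_
      rintro _ h
      rw [Set.mem_singleton_iff] at h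
      subst h
      exact ⟨Fin.last n, rfl⟩

/-- `q^{-1}`-linear maps and Frobenius powers -/
lemma phi_span {R : Type v} [CommRing R] {q : ℕ} (φ : R →+ R) (hφ : ∀ r x, φ (r ^ q * x) = r * φ x)
    {ι : Type} (x : ι → R) {z : R} (hz : z ∈ Ideal.span (Set.range (fun i => x i ^ q))) :
    φ z ∈ Ideal.span (Set.range x) := by
  induction hz using Submodule.span_induction with
  | mem y hy =>
    obtain ⟨i, rfl⟩ := hy
    have := hφ (x i) 1
    rw [mul_one] at this
    change φ (x i ^ q) ∈ _
    rw [this]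
    exact Ideal.mul_mem_right _ _ (Ideal.subset_span ⟨i, rfl⟩)
  | zero => rw [map_zero]; exact Ideal.zero_mem _
  | add x y _ _ hx hy => rw [map_add]; exact Ideal.add_mem _ hx hy
  | smul a w hw ih =>
    -- need a version for multiples
    clear ih
    rw [smul_eq_mul]
    have key : ∀ a : R, φ (a * w) ∈ Ideal.span (Set.range x) := by
      induction hw using Submodule.span_induction with
      | mem y hy =>
        obtain ⟨i, rfl⟩ := hy
        intro a
        change φ (a * x i ^ q) ∈ _
        rw [mul_comm, hφ]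
        exact Ideal.mul_mem_right _ _ (Ideal.subset_span ⟨i, rfl⟩)
      | zero => intro a; rw [mul_zero, map_zero]; exact Ideal.zero_mem _
      | add x y _ _ hx hy => intro a; rw [mul_add, map_add]; exact Ideal.add_mem _ (hx a) (hy a)
      | smul b w _ ih => intro a; rw [smul_eq_mul, ← mul_assoc]; exact ih _
    exact key a

end pow

section red

variable {k : Type u} [Field k] {d : ℕ} {R : Type v} [CommRing R] [IsLocalRing R]
  [Algebra (MvPowerSeries (Fin d) k) R]

/-- the parameters generate a reduction of the maximal ideal -/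
def Red (k : Type u) [Field k] (d : ℕ) (R : Type v) [CommRing R] [IsLocalRing R]
    [Algebra (MvPowerSeries (Fin d) k) R] : Prop :=
  ∃ s : ℕ, ∀ j : ℕ, (maximalIdeal R) ^ (s + j) ≤
    ((maximalIdeal (MvPowerSeries (Fin d) k)) ^ j).map (algebraMap _ R)

variable {p : ℕ} [hp : Fact p.Prime]

/-- `𝔪² ⊂ 𝔫 R` -/
theorem sq_le (hR : Red k d R) (hB : Big p d R) (hd : 2 ≤ d) :
    (maximalIdeal R) ^ 2 ≤ (maximalIdeal (MvPowerSeries (Fin d) k)).map (algebraMap _ R) := by
  obtain ⟨s, hs⟩ := hR
  obtain ⟨E, hE⟩ := hB (2 * s + 2 * d + 2)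
  obtain ⟨N, f, hf, φ, hφ, hN⟩ := hE E le_rfl
  intro z hz
  have hq := q_pos p E
  obtain ⟨q, hqe⟩ : ∃ q, q = p ^ E := ⟨_, rfl⟩
  rw [← hqe] at hN hq
  have e1 : φ.1 (z ^ p ^ E * f) = z := by rw [φ.2, hφ, mul_one]
  rw [← e1, span_X, Ideal.map_span, ← Set.range_comp]
  apply phi_span (q := p ^ E) φ.1 φ.2
  obtain ⟨t, ht⟩ : ∃ t, q = t + 1 := ⟨q - 1, by omega⟩
  obtain ⟨e, rfl⟩ : ∃ e, d = e + 2 := ⟨d - 2, by omega⟩
  have h2 : (e + 2) * q + 1 + s ≤ N + 2 * q := by
    have e1 : 2 * (e + 2) - 3 = 2 * e + 1 := by omega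
    rw [e1, ht] at hN
    have e2 : (2 * e + 1) * (t + 1 - 1) = 2 * (e * t) + t := by
      rw [Nat.add_sub_cancel]; ring
    have e3 : (e + 2) * (t + 1) = e * t + e + 2 * t + 2 := by ring
    rw [e2] at hN
    rw [ht, e3]
    omega
  have h3 : z ^ p ^ E * f ∈ (maximalIdeal R) ^ (s + ((e + 2) * q + 1)) := by
    have h4 : z ^ p ^ E * f ∈ (maximalIdeal R) ^ (2 * q + N) := by
      rw [pow_add]
      apply Ideal.mul_mem_mul _ hf
      rw [pow_mul, hqe]
      exact Ideal.pow_mem_pow hz _
    exact Ideal.pow_le_pow_right (by omega) h4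
  have h4 := hs _ h3
  have h5 := Ideal.map_mono (f := algebraMap (MvPowerSeries (Fin (e + 2)) k) R)
    (span_pow_le (p ^ E) (e + 2) (fun i => (MvPowerSeries.X i : MvPowerSeries (Fin (e + 2)) k)))
  rw [← hqe] at h5 ⊢
  have h6 : Ideal.span (Set.range fun i => (MvPowerSeries.X i : MvPowerSeries (Fin (e + 2)) k)) =
      maximalIdeal _ := span_X.symm
  rw [h6] at h5
  have h7 := h5 h4
  rw [Ideal.map_span, ← Set.range_comp] at h7
  have h8 : (algebraMap (MvPowerSeries (Fin (e + 2)) k) R) ∘ (fun i => (MvPowerSeries.X i :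
      MvPowerSeries (Fin (e + 2)) k) ^ q) = fun i => ((algebraMap (MvPowerSeries (Fin (e + 2)) k) R)
        ∘ MvPowerSeries.X) i ^ q := by
    funext i
    simp
  rw [h8, ← hqe] at h7
  exact h7

end red

section basis

variable {k : Type u} [Field k] {d : ℕ} {R : Type v} [CommRing R] [IsLocalRing R]
  [Algebra (MvPowerSeries (Fin d) k) R] {n : ℕ} (B : Basis (Fin (n + 1)) (MvPowerSeries (Fin d) k) R)

/-- weights -/
def W1 (n : ℕ) : Fin (n + 1) → ℕ := fun i => if i = 0 then 0 else 1

lemma W1_zero (n : ℕ) : W1 n 0 = 0 := by simp [W1]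

lemma W1_ne (n : ℕ) {i : Fin (n + 1)} (h : i ≠ 0) : W1 n i = 1 := by simp [W1, h]

lemma W1_le (n : ℕ) (i : Fin (n + 1)) : W1 n i ≤ 1 := by
  unfold W1
  split_ifs <;> omega

lemma coord_of_map {j : ℕ} {z : R}
    (hz : z ∈ ((maximalIdeal (MvPowerSeries (Fin d) k)) ^ j).map (algebraMap _ R)) (i : Fin (n + 1)) :
    B.repr z i ∈ (oF k d).F j := by
  rw [oF_eq_pow]
  rw [Ideal.map, ← Submodule.mem_toAddSubmonoid] at hz
  revert i
  rw [Submodule.mem_toAddSubmonoid] at hz
  induction hz using Submodule.span_induction with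
  | mem y hy =>
    obtain ⟨a, ha, rfl⟩ := hy
    intro i
    rw [Algebra.algebraMap_eq_smul_one, map_smul, Finsupp.smul_apply, smul_eq_mul]
    exact Ideal.mul_mem_right _ _ ha
  | zero => intro i; rw [map_zero]; exact Ideal.zero_mem _
  | add x y _ _ hx hy =>
    intro i
    rw [map_add]
    exact Ideal.add_mem _ (hx i) (hy i)
  | smul r x _ hx =>
    intro i
    rw [← B.sum_repr x, Finset.smul_sum, map_sum, Finsupp.finset_sum_apply]
    apply Ideal.sum_mem
    intro l _
    rw [smul_comm, map_smul, Finsupp.smul_apply, smul_eq_mul]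
    exact Ideal.mul_mem_right _ _ (hx l)

variable (hB0 : B 0 = 1) (hBm : ∀ i, i ≠ 0 → B i ∈ maximalIdeal R)

include hB0 in
lemma repr_algebraMap_zero (a : MvPowerSeries (Fin d) k) :
    B.repr (algebraMap _ R a) 0 = a := by
  rw [Algebra.algebraMap_eq_smul_one, ← hB0, map_smul, Basis.repr_self, Finsupp.smul_single,
    smul_eq_mul, mul_one, Finsupp.single_eq_same]

include hB0 in
lemma split_zero (z : R) : z = algebraMap _ R (B.repr z 0) +
    ∑ i ∈ Finset.univ.erase 0, algebraMap _ R (B.repr z i) * B i := by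
  classical
  conv_lhs => rw [← B.sum_repr z, ← Finset.add_sum_erase _ _ (Finset.mem_univ 0)]
  rw [hB0, Algebra.smul_def, mul_one]
  congr 1
  apply Finset.sum_congr rfl
  intro i _
  rw [Algebra.smul_def]

include hB0 in
lemma map_max_mem {a : MvPowerSeries (Fin d) k} (ha : a ∈ (oF k d).F 1) :
    algebraMap _ R a ∈ maximalIdeal R := by
  rw [mem_maximalIdeal, mem_nonunits_iff]
  intro h
  obtain ⟨r, hr⟩ := h.exists_right_inv
  have h1 := congrArg (fun z => B.repr z 0) hr
  rw [← Algebra.smul_def, map_smul, Finsupp.smul_apply, smul_eq_mul, ← hB0, Basis.repr_self,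
    Finsupp.single_eq_same] at h1
  exact (not_mem_oF1_iff.2 (IsUnit.of_mul_eq_one _ h1)) ha

include hB0 hBm in
/-- `𝔪² ⊂ 𝔫² ⊕ 𝔫 y` -/
theorem sq_mem_GF {p : ℕ} [hp : Fact p.Prime] (hR : Red k d R) (hB : Big p d R) (hd : 2 ≤ d) {z : R}
    (hz : z ∈ (maximalIdeal R) ^ 2) : z ∈ GF B (oF k d) (W1 n) 2 := by
  classical
  have h1 : ∀ i, B.repr z i ∈ (oF k d).F 1 := by
    intro i
    apply coord_of_map B (j := 1)
    rw [pow_one]
    exact sq_le hR hB hd hz
  intro i
  by_cases hi : i = 0
  · subst hi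
    rw [W1_zero, Nat.sub_zero]
    obtain ⟨s, hs⟩ := hR
    obtain ⟨a, ha⟩ : ∃ a, a = B.repr z 0 := ⟨_, rfl⟩
    rw [← ha]
    have h2 : algebraMap _ R a ∈ (maximalIdeal R) ^ 2 := by
      have e := split_zero B hB0 z
      rw [← ha] at e
      have e' : algebraMap _ R a = z - ∑ i ∈ Finset.univ.erase 0,
          algebraMap _ R (B.repr z i) * B i := by
        rw [eq_sub_iff_add_eq]; exact e.symm
      rw [e']
      apply Ideal.sub_mem _ hz
      apply Ideal.sum_mem
      intro i hi
      rw [pow_two]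
      exact Ideal.mul_mem_mul (map_max_mem B hB0 (h1 i)) (hBm i (Finset.ne_of_mem_erase hi))
    by_contra hc
    have h3 := (oF k d).pow_not_mem one_not_mem hc (s + 1)
    apply h3
    have h4 : algebraMap _ R (a ^ (s + 1)) ∈ (maximalIdeal R) ^ (s + (s + 2)) := by
      rw [map_pow]
      have := Ideal.pow_mem_pow h2 (s + 1)
      rw [← pow_mul] at this
      have e : 2 * (s + 1) = s + (s + 2) := by ring
      rwa [e] at this
    have h5 := coord_of_map B (hs _ h4) 0
    rw [repr_algebraMap_zero B hB0] at h5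
    have e : (s + 1) * 1 + 1 = s + 2 := by ring
    rwa [e]
  · rw [W1_ne n hi]
    exact h1 i

include hB0 hBm in
theorem hb_of_red {p : ℕ} [hp : Fact p.Prime] (hR : Red k d R) (hB : Big p d R) (hd : 2 ≤ d) :
    ∀ i j, B i * B j ∈ GF B (oF k d) (W1 n) (W1 n i + W1 n j) := by
  intro i j
  by_cases hi : i = 0
  · subst hi
    rw [hB0, one_mul, W1_zero, zero_add]
    exact b_mem_GF B (oF k d) (W1 n) j
  · by_cases hj : j = 0
    · subst hj
      rw [hB0, mul_one, W1_zero, add_zero]
      exact b_mem_GF B (oF k d) (W1 n) i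
    · rw [W1_ne n hi, W1_ne n hj]
      apply sq_mem_GF B hB0 hBm hR hB hd
      rw [pow_two]
      exact Ideal.mul_mem_mul (hBm i hi) (hBm j hj)

include hB0 hBm in
lemma coeff_zero_mem {z : R} (hz : z ∈ maximalIdeal R) : B.repr z 0 ∈ (oF k d).F 1 := by
  classical
  by_contra hc
  have hu := (not_mem_oF1_iff.1 hc).map (algebraMap _ R)
  have h1 : algebraMap _ R (B.repr z 0) ∈ maximalIdeal R := by
    have e := split_zero B hB0 z
    have e' : algebraMap _ R (B.repr z 0) = z - ∑ i ∈ Finset.univ.erase 0,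
          algebraMap _ R (B.repr z i) * B i := by
      rw [eq_sub_iff_add_eq]; exact e.symm
    rw [e']
    apply Ideal.sub_mem _ hz
    apply Ideal.sum_mem
    intro i hi
    exact Ideal.mul_mem_left _ _ (hBm i (Finset.ne_of_mem_erase hi))
  exact (mem_maximalIdeal _).1 h1 hu

include hB0 hBm in
lemma pow_mem_GF_of_max (hb : ∀ i j, B i * B j ∈ GF B (oF k d) (W1 n) (W1 n i + W1 n j))
    {N : ℕ} {z : R} (hz : z ∈ (maximalIdeal R) ^ N) : z ∈ GF B (oF k d) (W1 n) N := by
  have h1 : ∀ z ∈ maximalIdeal R, z ∈ GF B (oF k d) (W1 n) 1 := by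
    intro z hz i
    by_cases hi : i = 0
    · subst hi
      rw [W1_zero]
      exact coeff_zero_mem B hB0 hBm hz
    · rw [W1_ne n hi]
      exact (oF k d).mem_zero _
  induction N generalizing z with
  | zero => exact mem_GF_zero B (oF k d) (W1 n) z
  | succ N ih =>
    rw [pow_succ] at hz
    induction hz using Submodule.mul_induction_on' with
    | mem_mul_mem x hx y hy => exact mul_mem_GF B (oF k d) (W1 n) hb (ih hx) (h1 y hy)
    | add x _ y _ hx hy => exact Submodule.add_mem _ hx hy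

end basis

end Run7.h889
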