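import Pool.Agent.Run7.h889.AL
import Pool.Agent.Run7.h889.DualG

set_option autoImplicit false
set_option linter.unusedSimpArgs false
set_option linter.unusedVariables false
set_option linter.unusedSectionVars false
set_option linter.deprecated false

namespace Run7.h889

open Module nonZeroDivisors

universe u v

section LF

variable {A : Type u} {R : Type v} [CommRing A] [IsDomain A] [CommRing R] [IsDomain R] [Algebra A R]
variable (L : Type v) [Field L] [Algebra R L] [IsFractionRing R L] [Algebra A L]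
  [IsScalarTower A R L]
variable {ι : Type} [Fintype ι] (b : Basis ι A R) (F : Fil A) (W : ι → ℕ)

/-- elements of order at least `m` in the fraction field -/
def LF (m : ℕ) : Set L := {z | ∃ (n : ℕ) (z' : R) (c : A), c ∈ F.F n ∧ c ∉ F.F (n + 1) ∧
  z' ∈ GF b F W (n + m) ∧ z * algebraMap A L c = algebraMap R L z'}

variable (hb : ∀ i j, b i * b j ∈ GF b F W (W i + W j)) (hAL : ∀ a : A, algebraMap A L a = 0 → a = 0)

variable {L}

omit [IsDomain A] [IsDomain R] in
lemma LF_iff {z : L} {n m : ℕ} {z' : R} {c : A} (hc : c ∈ F.F n)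
    (hc' : c ∉ F.F (n + 1)) (h : z * algebraMap A L c = algebraMap R L z') :
    z ∈ LF L b F W m ↔ z' ∈ GF b F W (n + m) := by
  constructor
  · rintro ⟨n1, z1, c1, h1, h2, h3, h4⟩
    have e : c1 • z' = c • z1 := by
      apply IsFractionRing.injective R L
      rw [Algebra.smul_def, Algebra.smul_def, map_mul (algebraMap R L), map_mul (algebraMap R L),
        ← IsScalarTower.algebraMap_apply A R L, ← IsScalarTower.algebraMap_apply A R L, ← h, ← h4]
      ring
    apply cancel_GF b F W h2
    rw [e]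
    have := smul_mem_GF b F W hc h3
    exact GF_le b F W this (by omega)
  · intro h'
    exact ⟨n, z', c, hc, hc', h', h⟩

omit [IsDomain A] [IsDomain R] [IsFractionRing R L] in
lemma LF_add {m : ℕ} {y z : L} (hy : y ∈ LF L b F W m) (hz : z ∈ LF L b F W m) :
    y + z ∈ LF L b F W m := by
  obtain ⟨n1, y1, c1, h1, h1', h1'', e1⟩ := hy
  obtain ⟨n2, z2, c2, h2, h2', h2'', e2⟩ := hz
  refine ⟨n1 + n2, c2 • y1 + c1 • z2, c1 * c2, F.mul_mem h1 h2, F.not_mem h1' h2', ?_, ?_⟩
  · apply Submodule.add_mem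
    · exact GF_le b F W (smul_mem_GF b F W h2 h1'') (by omega)
    · exact GF_le b F W (smul_mem_GF b F W h1 h2'') (by omega)
  · rw [map_add, Algebra.smul_def, Algebra.smul_def, map_mul (algebraMap R L),
      map_mul (algebraMap R L), ← IsScalarTower.algebraMap_apply A R L,
      ← IsScalarTower.algebraMap_apply A R L, ← e1, ← e2, map_mul]
    ring

include hb in
omit [IsDomain A] [IsDomain R] [IsFractionRing R L] in
lemma LF_mul {m m' : ℕ} {y z : L} (hy : y ∈ LF L b F W m) (hz : z ∈ LF L b F W m') :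
    y * z ∈ LF L b F W (m + m') := by
  obtain ⟨n1, y1, c1, h1, h1', h1'', e1⟩ := hy
  obtain ⟨n2, z2, c2, h2, h2', h2'', e2⟩ := hz
  refine ⟨n1 + n2, y1 * z2, c1 * c2, F.mul_mem h1 h2, F.not_mem h1' h2', ?_, ?_⟩
  · exact mul_le_GF b F W hb h1'' h2'' (by omega)
  · rw [map_mul, map_mul, ← e1, ← e2]
    ring

omit [IsDomain A] [IsDomain R] [IsFractionRing R L] in
lemma LF_neg {m : ℕ} {y : L} (hy : y ∈ LF L b F W m) : -y ∈ LF L b F W m := by
  obtain ⟨n1, y1, c1, h1, h1', h1'', e1⟩ := hy
  exact ⟨n1, -y1, c1, h1, h1', neg_mem h1'', by rw [map_neg, ← e1]; ring⟩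

omit [IsDomain A] [IsDomain R] [IsFractionRing R L] in
lemma LF_le {m m' : ℕ} (h : m ≤ m') {y : L} (hy : y ∈ LF L b F W m') : y ∈ LF L b F W m := by
  obtain ⟨n1, y1, c1, h1, h1', h1'', e1⟩ := hy
  exact ⟨n1, y1, c1, h1, h1', GF_le b F W h1'' (by omega), e1⟩

variable (h1F : (1 : A) ∉ F.F 1)

include h1F in
omit [IsDomain A] [IsDomain R] [IsFractionRing R L] [IsScalarTower A R L] in
lemma LF_zero (m : ℕ) : (0 : L) ∈ LF L b F W m :=
  ⟨0, 0, 1, F.mem_zero _, h1F, Submodule.zero_mem _, by rw [zero_mul, map_zero]⟩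

include h1F in
omit [IsDomain A] [IsDomain R] [IsFractionRing R L] [IsScalarTower A R L] in
lemma LF_one : (1 : L) ∈ LF L b F W 0 :=
  ⟨0, 1, 1, F.mem_zero _, h1F, mem_GF_zero b F W _, by rw [map_one, map_one, mul_one]⟩

variable (L)

/-- the ring of elements of order at least zero -/
def LR : Subring L where
  carrier := LF L b F W 0
  mul_mem' := fun hy hz => by
    have := LF_mul b F W hb hy hz
    rwa [Nat.zero_add] at this
  one_mem' := LF_one b F W h1F
  add_mem' := fun hy hz => LF_add b F W hy hz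
  zero_mem' := LF_zero b F W h1F 0
  neg_mem' := fun hy => LF_neg b F W hy

/-- the ideal of elements of positive order -/
def LI : Ideal (LR L b F W hb h1F) where
  carrier := {z | z.1 ∈ LF L b F W 1}
  add_mem' := fun hy hz => LF_add b F W hy hz
  zero_mem' := LF_zero b F W h1F 1
  smul_mem' := by
    intro c z hz
    have := LF_mul b F W hb c.2 hz
    rwa [Nat.zero_add] at this

end LF

section ND

variable {A : Type u} {R : Type v} [CommRing A] [IsDomain A] [CommRing R] [IsDomain R] [Algebra A R]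
variable (K : Type u) (L : Type v) [Field K] [Algebra A K] [IsFractionRing A K]
  [Field L] [Algebra R L] [IsFractionRing R L] [Algebra K L] [Algebra A L]
  [IsScalarTower A R L] [IsScalarTower A K L]
variable {ι : Type} [Fintype ι] [DecidableEq ι] [Nonempty ι] (b : Basis ι A R) (F : Fil A)
  (W : ι → ℕ)

/-- the trivial basis -/
noncomputable def tb (A : Type u) [CommRing A] : Basis Unit A A := Basis.singleton Unit A

lemma tb_GF (n : ℕ) (a : A) : a ∈ GF (tb A) F (fun _ => 0) n ↔ a ∈ F.F n := by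
  rw [mem_GF]
  simp [tb, Basis.singleton_repr]

lemma tb_hb : ∀ i j, (tb A) i * (tb A) j ∈ GF (tb A) F (fun _ => 0) (0 + 0) := by
  intro i j
  exact mem_GF_zero _ _ _ _

include K L in
/-- **Existence of a good functional.** -/
theorem exists_ND {k : Type u} [Field k] [Infinite k] (io : k →+* A)
    (hb : ∀ i j, b i * b j ∈ GF b F W (W i + W j)) (h1F : (1 : A) ∉ F.F 1)
    (i0 : ι) (hbi0 : b i0 = 1) (hW0 : W i0 = 0) (hW1 : ∀ i, i ≠ i0 → W i = 1)
    {x : A} (hx : x ∈ F.F 1) (hx2 : x ∉ F.F 2) (i1 : ι) (hi1 : i1 ≠ i0)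
    (hbt : ∀ n z, z ∈ GF b F W n → z * z ∈ GF b F W (2 * n + 1) → z ∈ GF b F W (n + 1)) :
    ∃ c : {i // i ≠ i0} → k, ∀ n z, z ∈ GF b F W n → z ∉ GF b F W (n + 1) →
      ∃ y ∈ GF b F W 1, (∑ j : {i // i ≠ i0}, io (c j) * b.coord j.1 (z * y)) ∉ F.F (n + 1) := by
  classical
  have injA := IsFractionRing.injective A K
  have injL := IsFractionRing.injective R L
  have hx0 : x ≠ 0 := by rintro rfl; exact hx2 (Ideal.zero_mem _)
  have hxK : algebraMap A K x ≠ 0 := fun h => hx0 (injA (by rw [h, map_zero]))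
  have hxL : algebraMap A L x ≠ 0 := algebraMap_AL_ne_zero K L hx0
  have hKb := tb_hb (A := A) F
  -- coordinates
  have hcoord : ∀ (z : L) (z' : R) (c : A), z * algebraMap A L c = algebraMap R L z' →
      ∀ i, (bL K L b).repr z i * algebraMap A K c = algebraMap A K (b.repr z' i) := by
    intro z z' c h i
    rw [← bL_repr K L, ← h]
    have e : z * algebraMap A L c = algebraMap A K c • z := by
      rw [Algebra.smul_def, ← IsScalarTower.algebraMap_apply A K L, mul_comm]
    rw [e, map_smul, Finsupp.smul_apply, smul_eq_mul, mul_comm]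
  have hcoordF : ∀ (m : ℕ) (z : L), z ∈ LF L b F W m → ∀ i,
      algebraMap A K (x ^ W i) * (bL K L b).repr z i ∈ LF K (tb A) F (fun _ => 0) m := by
    rintro m z ⟨n, z', c, hc, hc', hz', h⟩ i
    refine ⟨n, x ^ W i * b.repr z' i, c, hc, hc', ?_, ?_⟩
    · rw [tb_GF]
      have h1 := F.pow_mem hx (W i)
      rw [mul_one] at h1
      exact F.mul_le h1 (hz' i) (by omega)
    · rw [mul_assoc, hcoord z z' c h, ← map_mul]
  -- the ring
  obtain ⟨LRK, hLRK⟩ : ∃ LRK, LRK = LR K (tb A) F (fun _ => 0) hKb h1F := ⟨_, rfl⟩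
  let K0 := LR K (tb A) F (fun _ => 0) hKb h1F
  let K1 : Ideal K0 := LI K (tb A) F (fun _ => 0) hKb h1F
  let L0 := LR L b F W hb h1F
  let L1 : Ideal L0 := LI L b F W hb h1F
  have hinvK : ∀ y : K, y ∈ LF K (tb A) F (fun _ => 0) 0 → y ∉ LF K (tb A) F (fun _ => 0) 1 →
      ∃ y' ∈ LF K (tb A) F (fun _ => 0) 0, y * y' = 1 := by
    rintro y ⟨n, a, c, hc, hc', ha, h⟩ hy
    have ha1 : a ∈ F.F n := by
      rw [tb_GF] at ha; exact ha
    have ha2 : a ∉ F.F (n + 1) := by
      intro h2
      apply hy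
      rw [LF_iff (tb A) F (fun _ => 0) hc hc' h, tb_GF]
      exact h2
    have ha0 : algebraMap A K a ≠ 0 := by
      intro h2
      have : a = 0 := injA (by rw [h2, map_zero])
      rw [this] at ha2
      exact ha2 (Ideal.zero_mem _)
    refine ⟨algebraMap A K c / algebraMap A K a, ⟨n, c, a, ha1, ha2, ?_, ?_⟩, ?_⟩
    · rw [tb_GF]; exact hc
    · rw [div_mul_cancel₀ _ ha0]
    · have h' : y * algebraMap A K c = algebraMap A K a := h
      rw [← mul_div_assoc, h', div_self ha0]
  have hmapK : ∀ (m : ℕ) (y : K), y ∈ LF K (tb A) F (fun _ => 0) m →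
      algebraMap K L y ∈ LF L b F W m := by
    rintro m y ⟨n, a, c, hc, hc', ha, h⟩
    rw [tb_GF] at ha
    refine ⟨n, algebraMap A R a, c, hc, hc', ?_, ?_⟩
    · intro i
      rw [Algebra.algebraMap_eq_smul_one, ← hbi0, map_smul, Basis.repr_self, Finsupp.smul_apply,
        smul_eq_mul, Finsupp.single_apply]
      split_ifs with h2
      · rw [mul_one]; exact F.mem_le ha (by omega)
      · rw [mul_zero]; exact Ideal.zero_mem _
    · have h' : y * algebraMap A K c = algebraMap A K a := h
      rw [IsScalarTower.algebraMap_apply A K L c, ← map_mul, h', ← IsScalarTower.algebraMap_apply,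
        ← IsScalarTower.algebraMap_apply]
  have hK1max : K1.IsMaximal := by
    rw [Ideal.isMaximal_iff]
    constructor
    · intro h
      have h2 : (1 : K) ∈ LF K (tb A) F (fun _ => 0) 1 := h
      rw [LF_iff (tb A) F (fun _ => 0) (n := 0) (c := 1) (z' := 1) (F.mem_zero _) h1F
        (by rw [map_one, mul_one]), tb_GF] at h2
      exact h1F h2
    · intro J y hJ hy hyJ
      obtain ⟨y', hy', hyy⟩ := hinvK y.1 y.2 hy
      have : (1 : K0) = (⟨y', hy'⟩ : K0) * y := by
        apply Subtype.ext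
        change (1 : K) = y' * y.1
        rw [mul_comm, hyy]
      rw [this]
      exact Ideal.mul_mem_left _ _ hyJ
  let ρ : K0 →+* L0 :=
    { toFun := fun y => ⟨algebraMap K L y.1, hmapK 0 y.1 y.2⟩
      map_one' := by apply Subtype.ext; exact map_one _
      map_mul' := by intro y z; apply Subtype.ext; exact map_mul _ _ _
      map_zero' := by apply Subtype.ext; exact map_zero _
      map_add' := by intro y z; apply Subtype.ext; exact map_add _ _ _ }
  have hρ : K1 ≤ L1.comap ρ := fun y hy => hmapK 1 y.1 hy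
  letI : Field (K0 ⧸ K1) := Ideal.Quotient.field K1
  letI algC : Algebra (K0 ⧸ K1) (L0 ⧸ L1) := (Ideal.quotientMap L1 ρ hρ).toAlgebra
  have halg : ∀ y : K0, algebraMap (K0 ⧸ K1) (L0 ⧸ L1) (Ideal.Quotient.mk K1 y) =
      Ideal.Quotient.mk L1 (ρ y) := fun y => rfl
  -- the basis elements of order zero
  have hβ : ∀ i, algebraMap R L (b i) / algebraMap A L (x ^ W i) ∈ LF L b F W 0 := by
    intro i
    have hxp : algebraMap A L (x ^ W i) ≠ 0 := algebraMap_AL_ne_zero K L (pow_ne_zero _ hx0)
    have h1 := F.pow_mem hx (W i)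
    have h2 := F.pow_not_mem h1F hx2 (W i)
    rw [mul_one] at h1 h2
    exact ⟨W i, b i, x ^ W i, h1, h2, b_mem_GF b F W i, by rw [div_mul_cancel₀ _ hxp]⟩
  let β : ι → L0 := fun i => ⟨_, hβ i⟩
  have hexp : ∀ z : L, z = ∑ i, algebraMap K L (algebraMap A K (x ^ W i) * (bL K L b).repr z i) *
      (algebraMap R L (b i) / algebraMap A L (x ^ W i)) := by
    intro z
    conv_lhs => rw [← (bL K L b).sum_repr z]
    apply Finset.sum_congr rfl
    intro i _
    have hxp : algebraMap A L (x ^ W i) ≠ 0 := algebraMap_AL_ne_zero K L (pow_ne_zero _ hx0)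
    rw [Algebra.smul_def, bL_apply, map_mul, ← IsScalarTower.algebraMap_apply A K L]
    field_simp
  have hfin : Module.Finite (K0 ⧸ K1) (L0 ⧸ L1) := by
    refine ⟨⟨Finset.univ.image (fun i => Ideal.Quotient.mk L1 (β i)), ?_⟩⟩
    rw [eq_top_iff]
    intro q _
    obtain ⟨z, rfl⟩ := Ideal.Quotient.mk_surjective q
    have e : z = ∑ i, ρ ⟨_, hcoordF 0 z.1 z.2 i⟩ * β i := by
      apply Subtype.ext
      rw [AddSubmonoidClass.coe_finset_sum]
      exact hexp z.1
    rw [e, map_sum]
    apply Submodule.sum_mem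
    intro i _
    rw [map_mul, ← halg, ← Algebra.smul_def]
    apply Submodule.smul_mem
    apply Submodule.subset_span
    rw [Finset.coe_image]
    exact ⟨i, by simp, rfl⟩
  have hart : IsArtinianRing (L0 ⧸ L1) := IsArtinianRing.of_finite (K0 ⧸ K1) (L0 ⧸ L1)
  have hred : IsReduced (L0 ⧸ L1) := by
    rw [isReduced_iff_pow_one_lt 2 (by norm_num)]
    intro q hq
    obtain ⟨z, rfl⟩ := Ideal.Quotient.mk_surjective q
    rw [← map_pow, Ideal.Quotient.eq_zero_iff_mem] at hq
    rw [Ideal.Quotient.eq_zero_iff_mem]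
    have hq' : (z.1 ^ 2 : L) ∈ LF L b F W 1 := hq
    obtain ⟨n, z', c, hc, hc', hz', h⟩ := z.2
    have h2 : z.1 ^ 2 * algebraMap A L (c * c) = algebraMap R L (z' * z') := by
      rw [map_mul, map_mul, ← h]; ring
    rw [LF_iff b F W (n := n + n) (F.mul_mem hc hc) (F.not_mem hc' hc') h2] at hq'
    have hz1 : z' ∈ GF b F W n := hz'
    have h3 := hbt n z' hz1 (by
      have e : 2 * n + 1 = n + n + 1 := by ring
      rw [e]; exact hq')
    exact ⟨n, z', c, hc, hc', h3, h⟩
  -- the target
  let T1 : Submodule A K :=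
    { carrier := LF K (tb A) F (fun _ => 0) 1
      add_mem' := fun hy hz => LF_add (tb A) F (fun _ => 0) hy hz
      zero_mem' := LF_zero (tb A) F (fun _ => 0) h1F 1
      smul_mem' := by
        rintro a y ⟨n, z', c, hc, hc', hz', h⟩
        refine ⟨n, a * z', c, hc, hc', ?_, ?_⟩
        · rw [tb_GF] at hz' ⊢
          exact Ideal.mul_mem_left _ _ hz'
        · have h' : y * algebraMap A K c = algebraMap A K z' := h
          change a • y * algebraMap A K c = algebraMap A K (a * z')
          rw [Algebra.smul_def, mul_assoc, h', map_mul] }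
  have hsurj : Function.Surjective (Ideal.Quotient.mk L1) := Ideal.Quotient.mk_surjective
  let J := {i // i ≠ i0}
  have hwd : ∀ (j : J) (z z' : L0), Ideal.Quotient.mk L1 z = Ideal.Quotient.mk L1 z' →
      T1.mkQ (algebraMap A K x * (bL K L b).repr z.1 j.1) =
      T1.mkQ (algebraMap A K x * (bL K L b).repr z'.1 j.1) := by
    intro j z z' h
    rw [Ideal.Quotient.eq] at h
    rw [← sub_eq_zero, ← map_sub, ← mul_sub, ← Finsupp.sub_apply, ← map_sub, Submodule.mkQ_apply,
      Submodule.Quotient.mk_eq_zero]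
    have h2 := hcoordF 1 (z.1 - z'.1) h j.1
    rw [hW1 j.1 j.2, pow_one] at h2
    exact h2
  let lam : J → (L0 ⧸ L1) →+ (K ⧸ T1) := fun j => AddMonoidHom.mk'
    (fun q => T1.mkQ (algebraMap A K x * (bL K L b).repr (Function.surjInv hsurj q).1 j.1)) (by
      intro q q'
      rw [← map_add, ← mul_add, ← Finsupp.add_apply, ← map_add]
      apply hwd j _ (Function.surjInv hsurj q + Function.surjInv hsurj q')
      rw [Function.surjInv_eq hsurj, map_add, Function.surjInv_eq hsurj, Function.surjInv_eq hsurj])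
  have hlam : ∀ j z, lam j (Ideal.Quotient.mk L1 z) =
      T1.mkQ (algebraMap A K x * (bL K L b).repr z.1 j.1) := by
    intro j z
    exact hwd j _ _ (Function.surjInv_eq hsurj _)
  have hi0coord : ∀ (a : K) i, i ≠ i0 → (bL K L b).repr (algebraMap K L a) i = 0 := by
    intro a i hi
    have e : algebraMap K L a = a • bL K L b i0 := by
      rw [bL_apply, hbi0, map_one, Algebra.smul_def, mul_one]
    rw [e, map_smul, Basis.repr_self, Finsupp.smul_apply, Finsupp.single_apply,
      if_neg (Ne.symm hi), smul_zero]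
  obtain ⟨c, hc⟩ := exists_functional io lam
    {q | ∃ a : K0, q = Ideal.Quotient.mk L1 (ρ a)} (by
      rintro q ⟨a, rfl⟩ hq
      have ha : a.1 ∉ LF K (tb A) F (fun _ => 0) 1 := by
        intro h
        apply hq
        rw [Ideal.Quotient.eq_zero_iff_mem]
        exact hmapK 1 a.1 h
      obtain ⟨a', ha', haa⟩ := hinvK a.1 a.2 ha
      apply IsUnit.of_mul_eq_one (Ideal.Quotient.mk L1 (ρ ⟨a', ha'⟩))
      rw [← map_mul, ← map_mul]
      have : a * ⟨a', ha'⟩ = (1 : K0) := Subtype.ext haa
      rw [this, map_one, map_one]) (by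
      intro q hq
      obtain ⟨z, rfl⟩ := Ideal.Quotient.mk_surjective q
      have h0 := hcoordF 0 z.1 z.2 i0
      rw [hW0, pow_zero, map_one, one_mul] at h0
      refine ⟨⟨_, h0⟩, ?_⟩
      rw [Ideal.Quotient.eq]
      have e : z.1 - algebraMap K L ((bL K L b).repr z.1 i0) = ∑ i ∈ Finset.univ.erase i0,
          algebraMap K L (algebraMap A K (x ^ W i) * (bL K L b).repr z.1 i) *
          (algebraMap R L (b i) / algebraMap A L (x ^ W i)) := by
        have hz0 := hexp z.1
        rw [← Finset.add_sum_erase _ _ (Finset.mem_univ i0), hW0, pow_zero, map_one, one_mul, hbi0,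
          map_one, map_one, div_one, mul_one] at hz0
        rw [sub_eq_iff_eq_add']
        exact hz0
      change z.1 - algebraMap K L ((bL K L b).repr z.1 i0) ∈ LF L b F W 1
      rw [e]
      have hsum : ∀ s : Finset ι, (∀ i ∈ s, i ≠ i0) → ∑ i ∈ s,
          algebraMap K L (algebraMap A K (x ^ W i) * (bL K L b).repr z.1 i) *
          (algebraMap R L (b i) / algebraMap A L (x ^ W i)) ∈ LF L b F W 1 := by
        intro s
        induction s using Finset.induction_on with
        | empty => intro _; rw [Finset.sum_empty]; exact LF_zero b F W h1F 1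
        | insert a s ha ih =>
          intro hs
          rw [Finset.sum_insert ha]
          apply LF_add b F W _ (ih fun i hi => hs i (Finset.mem_insert_of_mem hi))
          have hai : a ≠ i0 := hs a (Finset.mem_insert_self _ _)
          have h3 := hq ⟨a, hai⟩
          rw [hlam, Submodule.mkQ_apply, Submodule.Quotient.mk_eq_zero] at h3
          have h4 : algebraMap A K (x ^ W a) * (bL K L b).repr z.1 a ∈
              LF K (tb A) F (fun _ => 0) 1 := by
            rw [hW1 a hai, pow_one]; exact h3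
          have := LF_mul b F W hb (hmapK 1 _ h4) (hβ a)
          exact this
      exact hsum _ (fun i hi => Finset.ne_of_mem_erase hi)) ⟨Ideal.Quotient.mk L1 (β i1), by
      rintro ⟨a, ha⟩
      rw [Ideal.Quotient.eq] at ha
      have ha' : (β i1).1 - algebraMap K L a.1 ∈ LF L b F W 1 := ha
      have h2 := hcoordF 1 _ ha' i1
      rw [map_sub, Finsupp.sub_apply, hi0coord a.1 i1 hi1, sub_zero] at h2
      have h3 : (bL K L b).repr (β i1).1 i1 * algebraMap A K (x ^ W i1) = 1 := by
        have := hcoord (β i1).1 (b i1) (x ^ W i1) (by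
          change algebraMap R L (b i1) / algebraMap A L (x ^ W i1) * algebraMap A L (x ^ W i1) = _
          rw [div_mul_cancel₀]
          exact algebraMap_AL_ne_zero K L (pow_ne_zero _ hx0)) i1
        rw [this, Basis.repr_self, Finsupp.single_eq_same, map_one]
      rw [mul_comm, h3] at h2
      rw [LF_iff (tb A) F (fun _ => 0) (n := 0) (c := 1) (z' := 1) (F.mem_zero _) h1F
        (by rw [map_one, mul_one]), tb_GF] at h2
      exact h1F h2⟩
  refine ⟨c, ?_⟩
  intro n z hz hz'
  have hxn1 := F.pow_mem hx n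
  have hxn2 := F.pow_not_mem h1F hx2 n
  rw [mul_one] at hxn1 hxn2
  have hxnL : algebraMap A L (x ^ n) ≠ 0 := algebraMap_AL_ne_zero K L (pow_ne_zero _ hx0)
  have hzL : algebraMap R L z / algebraMap A L (x ^ n) ∈ LF L b F W 0 :=
    ⟨n, z, x ^ n, hxn1, hxn2, hz, by rw [div_mul_cancel₀ _ hxnL]⟩
  obtain ⟨q, hq⟩ := hc (Ideal.Quotient.mk L1 ⟨_, hzL⟩) (by
    intro h
    rw [Ideal.Quotient.eq_zero_iff_mem] at h
    have h' : algebraMap R L z / algebraMap A L (x ^ n) ∈ LF L b F W 1 := h
    rw [LF_iff b F W hxn1 hxn2 (by rw [div_mul_cancel₀ _ hxnL])] at h'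
    exact hz' h')
  obtain ⟨⟨y, hy⟩, rfl⟩ := Ideal.Quotient.mk_surjective q
  obtain ⟨m, y', a, ha, ha', hy', hya⟩ := id hy
  rw [Nat.add_zero] at hy'
  -- the functional
  obtain ⟨ε, hε⟩ : ∃ ε : R →ₗ[A] A, ε = ∑ j : J, io (c j) • b.coord j.1 := ⟨_, rfl⟩
  have hε' : ∀ w, ε w = ∑ j : J, io (c j) * b.coord j.1 w := by
    intro w
    rw [hε, LinearMap.sum_apply]
    apply Finset.sum_congr rfl
    intro j _
    rw [LinearMap.smul_apply, smul_eq_mul]
  have key : ε (z * y') ∉ F.F (n + m) := by
    intro hmem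
    apply hq
    have e : ∀ j : J, lam j (Ideal.Quotient.mk L1 ⟨_, hzL⟩ * Ideal.Quotient.mk L1 ⟨y, hy⟩) =
        T1.mkQ (algebraMap A K x * (bL K L b).repr
          (algebraMap R L z / algebraMap A L (x ^ n) * y) j.1) := by
      intro j
      rw [← map_mul, hlam]
      rfl
    have hrep : algebraMap R L z / algebraMap A L (x ^ n) * y * algebraMap A L (x ^ n * a) =
        algebraMap R L (z * y') := by
      rw [map_mul (algebraMap A L), map_mul (algebraMap R L), ← hya]
      have h6 : algebraMap R L z / algebraMap A L (x ^ n) * algebraMap A L (x ^ n) =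
        algebraMap R L z := div_mul_cancel₀ _ hxnL
      linear_combination (y * algebraMap A L a) * h6
    rw [Finset.sum_congr rfl (fun j _ => by rw [e j, ← map_smul]), ← map_sum, Submodule.mkQ_apply,
      Submodule.Quotient.mk_eq_zero]
    have h5 : (∑ j : J, io (c j) • (algebraMap A K x * (bL K L b).repr
          (algebraMap R L z / algebraMap A L (x ^ n) * y) j.1)) * algebraMap A K (x ^ n * a) =
        algebraMap A K (x * ε (z * y')) := by
      rw [Finset.sum_mul, hε', Finset.mul_sum, map_sum]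
      apply Finset.sum_congr rfl
      intro j _
      rw [Algebra.smul_def, mul_assoc, mul_assoc, hcoord _ _ _ hrep, Basis.coord_apply,
        map_mul (algebraMap A K), map_mul (algebraMap A K)]
      ring
    change _ ∈ LF K (tb A) F (fun _ => 0) 1
    rw [LF_iff (tb A) F (fun _ => 0) (n := n + m) (F.mul_mem hxn1 ha) (F.not_mem hxn2 ha') h5, tb_GF]
    exact F.mul_le hx hmem (by omega)
  obtain ⟨i, hi⟩ : ∃ i, ε (z * b i) ∉ F.F (n + W i) := by
    by_contra hcon
    push Not at hcon
    apply key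
    rw [← b.sum_repr y', Finset.mul_sum, map_sum]
    apply Ideal.sum_mem
    intro i _
    rw [mul_smul_comm, map_smul, smul_eq_mul]
    exact F.mul_le (hy' i) (hcon i) (by omega)
  by_cases h : i = i0
  · subst h
    rw [hW0, Nat.add_zero, hbi0, mul_one] at hi
    refine ⟨algebraMap A R x, ?_, ?_⟩
    · intro j
      rw [Algebra.algebraMap_eq_smul_one, ← hbi0, map_smul, Basis.repr_self, Finsupp.smul_apply,
        smul_eq_mul, Finsupp.single_apply]
      split_ifs with h2
      · rw [mul_one]; exact F.mem_le hx (by omega)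
      · rw [mul_zero]; exact Ideal.zero_mem _
    · rw [← hε']
      have e : z * algebraMap A R x = x • z := by rw [Algebra.smul_def, mul_comm]
      rw [e, map_smul, smul_eq_mul]
      rcases n with _ | n
      · exact absurd (F.mem_zero _) hi
      · have := F.not_mem (n := 1) (m := n) hx2 hi
        have e2 : 1 + n + 1 = n + 1 + 1 := by ring
        rwa [e2] at this
  · refine ⟨b i, ?_, ?_⟩
    · have := b_mem_GF b F W i
      rwa [hW1 i h] at this
    · rw [← hε']
      rwa [hW1 i h] at hi

end ND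

end Run7.h889
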