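import Pool.Agent.Run7.h889.PS3

set_option autoImplicit false
set_option linter.unusedSimpArgs false
set_option linter.unusedVariables false
set_option linter.unusedSectionVars false
set_option linter.deprecated false

namespace Run7.h889

open MvPowerSeries nonZeroDivisors

universe u v

section

variable {k : Type u} [Field k] {d : ℕ} {p : ℕ} [hp : Fact p.Prime] [CharP k p]

/-- A nonzero power series has a unit trace after multiplication. -/
lemma exists_unit_trace (hT : ∀ E, Nonempty (FTr (p ^ E) k)) {c : MvPowerSeries (Fin d) k}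
    (hc : c ≠ 0) : ∃ E0 : ℕ, ∀ E, E0 ≤ E → ∀ T : FTr (p ^ E) k,
      ∃ b', IsUnit ((T.lift d).Tr (b' * c)) := by
  classical
  obtain ⟨u, hu⟩ : ∃ u, coeff u c ≠ 0 := by
    by_contra hcon
    push Not at hcon
    exact hc (MvPowerSeries.ext hcon)
  refine ⟨u.degree + 1, fun E hE T => ?_⟩
  have hq : ∀ i, u i < p ^ E := by
    intro i
    have h1 : u i ≤ u.degree := Finsupp.le_degree i u
    have h2 : E < p ^ E := Nat.lt_pow_self hp.out.one_lt
    omega
  obtain ⟨κ, hκ⟩ : ∃ κ : k, T.Tr (κ * coeff u c) ≠ 0 := by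
    by_contra hcon
    push Not at hcon
    exact hu (T.eq_zero (q_pos p E) hcon)
  obtain ⟨v, hv⟩ : ∃ v, v + u = topv p E d := by
    have hle : u ≤ topv p E d := by
      intro i
      rw [topv_apply]
      have := hq i
      omega
    obtain ⟨v, hv⟩ := exists_add_of_le hle
    exact ⟨v, by rw [add_comm, hv]⟩
  refine ⟨monomial v κ, ?_⟩
  rw [MvPowerSeries.isUnit_iff_constantCoeff, ← coeff_zero_eq_constantCoeff_apply]
  have e : coeff 0 ((T.lift d).Tr (monomial v κ * c)) = T.Tr (κ * coeff u c) := by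
    change coeff 0 (digT (p := p) (E := E) T.Tr 1 (topv p E d) (monomial v κ * c)) = _
    rw [coeff_digT, one_mul, smul_zero, zero_add, ← hv, coeff_add_monomial_mul]
  rw [e]
  exact isUnit_iff_ne_zero.2 hκ

/-- The power series ring is integrally closed. -/
theorem normal_ps (hT : ∀ E, Nonempty (FTr (p ^ E) k)) :
    IsIntegrallyClosed (MvPowerSeries (Fin d) k) := by
  classical
  rw [isIntegrallyClosed_iff (FractionRing (MvPowerSeries (Fin d) k))]
  intro x hx
  obtain ⟨c, hc, hcx⟩ := hx.isAlmostIntegral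
  have hc0 : c ≠ 0 := nonZeroDivisors.ne_zero hc
  obtain ⟨s, t, ht, rfl⟩ := IsFractionRing.div_surjective (A := MvPowerSeries (Fin d) k) x
  have ht0 : t ≠ 0 := nonZeroDivisors.ne_zero ht
  have inj := IsFractionRing.injective (MvPowerSeries (Fin d) k)
    (FractionRing (MvPowerSeries (Fin d) k))
  obtain ⟨E0, hE0⟩ := exists_unit_trace hT hc0
  obtain ⟨T⟩ := hT E0
  obtain ⟨b', hb'⟩ := hE0 E0 le_rfl T
  obtain ⟨w, hw⟩ := hcx (p ^ E0)
  have ht1 : algebraMap (MvPowerSeries (Fin d) k) (FractionRing (MvPowerSeries (Fin d) k)) t ≠ 0 := by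
    intro h
    exact ht0 (inj (by rw [h, map_zero]))
  have e1 : t ^ p ^ E0 * w = s ^ p ^ E0 * c := by
    apply inj
    rw [map_mul, hw, Algebra.smul_def, div_pow, map_mul, map_pow, map_pow]
    field_simp
  have e2 : t * (T.lift d).Tr (b' * w) = s * (T.lift d).Tr (b' * c) := by
    rw [← (T.lift d).Tr_pow_mul, ← (T.lift d).Tr_pow_mul]
    congr 1
    linear_combination b' * e1
  obtain ⟨v, hv⟩ := hb'.exists_right_inv
  refine ⟨(T.lift d).Tr (b' * w) * v, ?_⟩
  rw [eq_div_iff ht1, ← map_mul]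
  congr 1
  linear_combination v * e2 + s * hv

end

section anis

variable {k : Type u} [Field k] {d : ℕ} {p : ℕ} [hp : Fact p.Prime] [CharP k p]

omit hp [CharP k p] in
lemma kill_sub_mem (i j : Fin d) (f : MvPowerSeries (Fin d) k) :
    killV i j f - f ∈ (oF k d).F 1 := by
  rw [mem_oF1, map_sub, ← coeff_zero_eq_constantCoeff_apply, ← coeff_zero_eq_constantCoeff_apply,
    coeff_kill, if_pos (by simp), sub_self]

/-- Anisotropy of the norm form modulo a prime generated by parameters. -/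
theorem anis (hT : ∀ E, Nonempty (FTr (p ^ E) k)) {b' c' : MvPowerSeries (Fin d) k}
    (hroot : ∀ l : MvPowerSeries (Fin d) k, l ^ 2 + b' * l + c' ∉ (oF k d).F 1)
    (σ : MvPowerSeries (Fin d) k ≃+* MvPowerSeries (Fin d) k) (i j : Fin d)
    {r0 r1 : MvPowerSeries (Fin d) k}
    (h : r0 ^ 2 - b' * r0 * r1 + c' * r1 ^ 2 ∈ Ideal.span {σ (X i), σ (X j)}) :
    r0 ∈ Ideal.span {σ (X i), σ (X j)} ∧ r1 ∈ Ideal.span {σ (X i), σ (X j)} := by
  classical
  have hspan : ∀ z, z ∈ Ideal.span {σ (X i), σ (X j)} ↔ killV i j (σ.symm z) = 0 := by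
    intro z
    rw [← RingHom.mem_ker, ker_kill]
    have e : Ideal.span {σ (X i), σ (X j)} = Ideal.map (σ : MvPowerSeries (Fin d) k →+*
        MvPowerSeries (Fin d) k) (Ideal.span {X i, X j}) := by
      rw [Ideal.map_span, Set.image_pair]
      rfl
    rw [e, Ideal.map_comap_of_equiv, Ideal.mem_comap]
  rw [hspan] at h
  rw [hspan, hspan]
  obtain ⟨s0, hs0⟩ : ∃ s0, s0 = killV i j (σ.symm r0) := ⟨_, rfl⟩
  obtain ⟨s1, hs1⟩ : ∃ s1, s1 = killV i j (σ.symm r1) := ⟨_, rfl⟩
  obtain ⟨β, hβ⟩ : ∃ β, β = killV i j (σ.symm b') := ⟨_, rfl⟩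
  obtain ⟨γ, hγ⟩ : ∃ γ, γ = killV i j (σ.symm c') := ⟨_, rfl⟩
  simp only [map_add, map_sub, map_mul, map_pow, ← hs0, ← hs1, ← hβ, ← hγ] at h
  rw [← hs0, ← hs1]
  have h1 : s1 = 0 := by
    by_contra hs10
    have hN := normal_ps (d := d) hT
    have inj := IsFractionRing.injective (MvPowerSeries (Fin d) k)
      (FractionRing (MvPowerSeries (Fin d) k))
    obtain ⟨f, hf⟩ : ∃ f : MvPowerSeries (Fin d) k →+* FractionRing (MvPowerSeries (Fin d) k),
      f = algebraMap _ _ := ⟨_, rfl⟩
    have hs1' : f s1 ≠ 0 := by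
      intro h0
      rw [hf] at h0
      exact hs10 (inj (by rw [h0, map_zero]))
    have h2 := congrArg f h
    simp only [map_add, map_sub, map_mul, map_pow, map_zero] at h2
    obtain ⟨x, hx⟩ : ∃ x, x = - (f s0 / f s1) := ⟨_, rfl⟩
    have hx' : x ^ 2 + f β * x + f γ = 0 := by
      rw [hx]
      field_simp
      linear_combination h2
    have hint : IsIntegral (MvPowerSeries (Fin d) k) x := by
      refine ⟨Polynomial.X ^ 2 + (Polynomial.C β * Polynomial.X + Polynomial.C γ), ?_, ?_⟩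
      · apply Polynomial.monic_X_pow_add
        refine lt_of_le_of_lt (Polynomial.degree_linear_le) ?_
        norm_num
      · simp only [Polynomial.eval₂_add, Polynomial.eval₂_mul, Polynomial.eval₂_pow,
          Polynomial.eval₂_X, Polynomial.eval₂_C]
        rw [← hx', hf]
        ring
    obtain ⟨l, hl⟩ := IsIntegrallyClosed.isIntegral_iff.1 hint
    have h3 : l ^ 2 + β * l + γ = 0 := by
      apply inj
      rw [map_add, map_add, map_mul, map_pow, hl, map_zero, ← hx', hf]
    have h4 : l ^ 2 + σ.symm b' * l + σ.symm c' ∈ (oF k d).F 1 := by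
      have e : l ^ 2 + σ.symm b' * l + σ.symm c' = (l ^ 2 + β * l + γ) -
          ((killV i j (σ.symm b') - σ.symm b') * l + (killV i j (σ.symm c') - σ.symm c')) := by
        rw [← hβ, ← hγ]; ring
      rw [e, h3, zero_sub]
      exact neg_mem (Ideal.add_mem _ (Ideal.mul_mem_right _ _ (kill_sub_mem i j _))
        (kill_sub_mem i j _))
    have h5 := aut_mem_oF σ h4
    simp only [map_add, map_mul, map_pow, RingEquiv.apply_symm_apply] at h5
    exact hroot _ h5
  refine ⟨?_, h1⟩
  rw [h1] at h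
  have : s0 ^ 2 = 0 := by
    rw [← h]; ring
  exact pow_eq_zero_iff (two_ne_zero) |>.1 this

end anis

end Run7.h889
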