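import Pool.Agent.Run7.h889.FT

set_option autoImplicit false
set_option linter.unusedSimpArgs false
set_option linter.unusedVariables false
set_option linter.unusedSectionVars false
set_option linter.deprecated false

namespace Run7.h889

open Module

universe u v

section

variable {A : Type u} {R : Type v} [CommRing A] [CommRing R] [Algebra A R]
variable {ι : Type} [Fintype ι] (b : Basis ι A R) (F : Fil A) (W : ι → ℕ)

/-- The filtration of `R = ⊕ A b_i` where `b_i` has weight `W i`. -/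
def GF (n : ℕ) : Submodule A R where
  carrier := {z | ∀ i, b.repr z i ∈ F.F (n - W i)}
  zero_mem' := by
    intro i
    rw [map_zero]
    exact Ideal.zero_mem _
  add_mem' := by
    intro y z hy hz i
    rw [map_add]
    exact Ideal.add_mem _ (hy i) (hz i)
  smul_mem' := by
    intro a z hz i
    rw [map_smul]
    exact Ideal.mul_mem_left _ _ (hz i)

lemma mem_GF (n : ℕ) (z : R) : z ∈ GF b F W n ↔ ∀ i, b.repr z i ∈ F.F (n - W i) := Iff.rfl

lemma GF_anti {n m : ℕ} (h : n ≤ m) : GF b F W m ≤ GF b F W n := by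
  intro z hz i
  exact F.mem_le (hz i) (by omega)

lemma GF_le {n m : ℕ} {z : R} (hz : z ∈ GF b F W m) (h : n ≤ m) : z ∈ GF b F W n :=
  GF_anti b F W h hz

lemma mem_GF_zero (z : R) : z ∈ GF b F W 0 := by
  intro i
  rw [Nat.zero_sub]
  exact F.mem_zero _

lemma smul_mem_GF {n m : ℕ} {a : A} {z : R} (ha : a ∈ F.F n) (hz : z ∈ GF b F W m) :
    a • z ∈ GF b F W (n + m) := by
  intro i
  rw [map_smul, Finsupp.smul_apply, smul_eq_mul]
  exact F.mul_le ha (hz i) (by omega)

/-- cancellation of a scalar -/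
lemma cancel_GF {n m : ℕ} {a : A} {z : R} (ha : a ∉ F.F (n + 1))
    (hz : a • z ∈ GF b F W (n + m)) : z ∈ GF b F W m := by
  intro i
  have h := hz i
  rw [map_smul, Finsupp.smul_apply, smul_eq_mul] at h
  rcases le_total m (W i) with h1 | h1
  · rw [Nat.sub_eq_zero_of_le h1]
    exact F.mem_zero _
  · have e : n + m - W i = n + (m - W i) := by omega
    rw [e] at h
    exact F.cancel ha h

variable (hb : ∀ i j, b i * b j ∈ GF b F W (W i + W j))

include hb in
lemma mul_mem_GF {n m : ℕ} {y z : R} (hy : y ∈ GF b F W n) (hz : z ∈ GF b F W m) :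
    y * z ∈ GF b F W (n + m) := by
  classical
  rw [← b.sum_repr y, ← b.sum_repr z, Finset.sum_mul_sum]
  apply Submodule.sum_mem
  intro i _
  apply Submodule.sum_mem
  intro j _
  rw [smul_mul_smul_comm]
  have h1 := F.mul_mem (hy i) (hz j)
  have h2 := smul_mem_GF b F W h1 (hb i j)
  exact GF_le b F W h2 (by omega)

include hb in
lemma mul_le_GF {n m l : ℕ} {y z : R} (hy : y ∈ GF b F W n) (hz : z ∈ GF b F W m)
    (h : l ≤ n + m) : y * z ∈ GF b F W l :=
  GF_le b F W (mul_mem_GF b F W hb hy hz) h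

include hb in
lemma pow_mem_GF {n : ℕ} {y : R} (hy : y ∈ GF b F W n) (k : ℕ) :
    y ^ k ∈ GF b F W (k * n) := by
  induction k with
  | zero => rw [zero_mul]; exact mem_GF_zero b F W _
  | succ k ih =>
    rw [pow_succ]
    exact mul_le_GF b F W hb ih hy (by rw [add_mul, one_mul])

lemma b_mem_GF (i : ι) : b i ∈ GF b F W (W i) := by
  classical
  intro j
  rw [b.repr_self, Finsupp.single_apply]
  split_ifs with h
  · subst h
    rw [Nat.sub_self]
    exact F.mem_zero _
  · exact Ideal.zero_mem _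

lemma exists_ord_GF {z : R} (hz : z ≠ 0) : ∃ n, z ∈ GF b F W n ∧ z ∉ GF b F W (n + 1) := by
  classical
  have h : ∃ n, z ∉ GF b F W n := by
    by_contra hc
    push Not at hc
    apply hz
    apply b.repr.injective
    rw [map_zero]
    ext i
    apply F.sep
    intro n
    have := hc (n + W i) i
    rwa [Nat.add_sub_cancel] at this
  obtain ⟨m, hm⟩ : ∃ m, m = Nat.find h := ⟨_, rfl⟩
  have h1 : z ∉ GF b F W m := hm ▸ Nat.find_spec h
  have h2 : m ≠ 0 := by
    rintro rfl
    exact h1 (mem_GF_zero b F W z)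
  obtain ⟨n, rfl⟩ := Nat.exists_eq_succ_of_ne_zero h2
  refine ⟨n, ?_, h1⟩
  have := Nat.find_min h (m := n) (by omega)
  exact not_not.1 this

lemma prod_mem_Fil {κ : Type*} (s : Finset κ) (f : κ → A) (n : κ → ℕ)
    (h : ∀ i ∈ s, f i ∈ F.F (n i)) : ∏ i ∈ s, f i ∈ F.F (∑ i ∈ s, n i) := by
  classical
  induction s using Finset.induction_on with
  | empty => simpa using F.mem_zero _
  | insert a s ha ih =>
    rw [Finset.prod_insert ha, Finset.sum_insert ha]
    exact F.mul_mem (h a (Finset.mem_insert_self _ _))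
      (ih fun i hi => h i (Finset.mem_insert_of_mem hi))

include hb in
/-- The norm of an element of order `n` has order at least `n` times the rank. -/
lemma norm_mem_Fil {n : ℕ} {z : R} (hz : z ∈ GF b F W n) :
    Algebra.norm A z ∈ F.F (Fintype.card ι * n) := by
  classical
  rw [Algebra.norm_eq_matrix_det b, Matrix.det_apply]
  apply Ideal.sum_mem
  intro σ _
  have key : ∏ i, Algebra.leftMulMatrix b z (σ i) i ∈ F.F (Fintype.card ι * n) := by
    have h1 : ∀ i ∈ Finset.univ, Algebra.leftMulMatrix b z (σ i) i ∈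
        F.F (n + W i - W (σ i)) := by
      intro i _
      rw [Algebra.leftMulMatrix_eq_repr_mul]
      exact mul_mem_GF b F W hb hz (b_mem_GF b F W i) (σ i)
    refine F.mem_le (prod_mem_Fil F _ _ _ h1) ?_
    have h2 : ∑ i, (n + W i) ≤ ∑ i, (n + W i - W (σ i)) + ∑ i, W (σ i) := by
      rw [← Finset.sum_add_distrib]
      apply Finset.sum_le_sum
      intro i _
      omega
    have h3 : ∑ i, W (σ i) = ∑ i, W i := Equiv.sum_comp σ W
    rw [Finset.sum_add_distrib, Finset.sum_const, Finset.card_univ, smul_eq_mul, h3] at h2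
    omega
  have h4 : Equiv.Perm.sign σ • ∏ i, Algebra.leftMulMatrix b z (σ i) i =
      ((Equiv.Perm.sign σ : ℤ) : A) * ∏ i, Algebra.leftMulMatrix b z (σ i) i := by
    rw [Units.smul_def, zsmul_eq_mul]
  rw [h4]
  exact Ideal.mul_mem_left _ _ key

include hb in
/-- **Estimate (a).** -/
theorem estimate_a {q c : ℕ} (hq : 1 ≤ q) (T : FTr q A)
    (hT : ∀ j u, u ∈ F.F (j * q + c * (q - 1) + 1) → T.Tr u ∈ F.F (j + 1))
    (ω : ℕ) (ε : R →ₗ[A] A) (hε : ∀ n z, z ∈ GF b F W n → ε z ∈ F.F (n - ω))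
    (g g' : R) (ν : A) (hν : g * g' = algebraMap A R ν)
    (φ : R →+ R) (hφ : ∀ r x, φ (r ^ q * x) = r * φ x)
    (hg : ∀ w x, ε (w * φ x) = T.Tr (ε (g * w ^ q * x)))
    (f : R) (N : ℕ) (hf : f ∈ GF b F W N) (h1 : φ f = 1)
    (n0 n1 : ℕ) (hn0 : ν ∈ F.F n0) (hn1 : g' ∈ GF b F W n1)
    (hND : ∃ y ∈ GF b F W ω, ε (g' * y) ∉ F.F (n1 + 1)) :
    N + n0 + ω * (q - 1) ≤ n1 + c * (q - 1) := by
  obtain ⟨y, hy, hy'⟩ := hND
  by_contra hc
  apply hy'
  have e1 : ε (g' * y) = T.Tr (ε (g * (g' * y) ^ q * f)) := by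
    rw [← hg, h1, mul_one]
  obtain ⟨r, rfl⟩ : ∃ r, q = r + 1 := ⟨q - 1, by omega⟩
  have e2 : g * (g' * y) ^ (r + 1) * f = ν • (g' ^ r * y ^ (r + 1) * f) := by
    rw [Algebra.smul_def, ← hν]
    ring
  rw [e1, e2]
  apply hT
  have m1 : g' ^ r * y ^ (r + 1) * f ∈ GF b F W (r * n1 + (r + 1) * ω + N) :=
    mul_mem_GF b F W hb (mul_mem_GF b F W hb (pow_mem_GF b F W hb hn1 r)
      (pow_mem_GF b F W hb hy (r + 1))) hf
  have m2 := smul_mem_GF b F W hn0 m1
  have m3 := hε _ _ m2
  refine F.mem_le m3 ?_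
  simp only [Nat.add_sub_cancel] at hc ⊢
  have e3 : n1 * (r + 1) = r * n1 + n1 := by ring
  have e4 : (r + 1) * ω = ω * r + ω := by ring
  rw [e3, e4]
  omega

end

end Run7.h889
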