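import Pool.Agent.Run7.h889.FT
import Pool.Agent.Helper819.DC.EV
import Pool.Agent.Helper819.DC.COMP2

set_option autoImplicit false
set_option linter.unusedSimpArgs false
set_option linter.unusedVariables false
set_option linter.unusedSectionVars false
set_option linter.deprecated false

namespace Run7.h889

open MvPowerSeries IsLocalRing

universe u

section endo

/-- A surjective endomorphism of a Noetherian ring is injective. -/
lemma endo_injective {A : Type u} [CommRing A] [IsNoetherianRing A] (f : A →+* A)
    (hf : Function.Surjective f) : Function.Injective f := by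
  rw [injective_iff_map_eq_zero]
  intro x hx
  let I : ℕ →o Ideal A := ⟨fun n => RingHom.ker (f ^ n), by
    refine monotone_nat_of_le_succ fun n => ?_
    intro z hz
    rw [RingHom.mem_ker] at hz ⊢
    rw [pow_succ', RingHom.mul_def, RingHom.comp_apply, hz, map_zero]⟩
  obtain ⟨n, hn⟩ := monotone_stabilizes_iff_noetherian.2 (inferInstance : IsNoetherian A A) I
  have hs : Function.Surjective (f ^ n) := by
    have : ∀ m : ℕ, Function.Surjective (f ^ m) := by
      intro m
      induction m with
      | zero => intro y; exact ⟨y, rfl⟩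
      | succ m ih =>
        rw [pow_succ', RingHom.mul_def]
        exact hf.comp ih
    exact this n
  obtain ⟨y, rfl⟩ := hs x
  have h1 : y ∈ RingHom.ker (f ^ (n + 1)) := by
    rw [RingHom.mem_ker, pow_succ', RingHom.mul_def, RingHom.comp_apply, hx]
  have h2 := hn (n + 1) (by omega)
  have h3 : y ∈ RingHom.ker (f ^ n) := by
    have : I n = I (n + 1) := h2
    change y ∈ I n
    rw [this]
    exact h1
  exact h3

/-- Surjectivity can be tested modulo the ideal. -/
lemma surj_of_complete {S T : Type u} [CommRing S] [CommRing T] (Φ : S →+* T) (I : Ideal S)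
    [IsPrecomplete I S] (J : Ideal T) (hIJ : I.map Φ ≤ J) [IsHausdorff J T]
    (h : ∀ t : T, ∃ s : S, t - Φ s ∈ I.map Φ) : Function.Surjective Φ := by
  letI : Algebra S T := Φ.toAlgebra
  have hH : IsHausdorff I T := IsHausdorff.of_map (J := J) hIJ
  have key : Function.Surjective (Algebra.linearMap S T) := by
    apply surjective_of_mkQ_comp_surjective (I := I)
    intro y
    obtain ⟨t, rfl⟩ := Submodule.mkQ_surjective _ y
    obtain ⟨s, hs⟩ := h t
    refine ⟨s, ?_⟩
    rw [LinearMap.comp_apply, ← sub_eq_zero, ← map_sub, Submodule.mkQ_apply,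
      Submodule.Quotient.mk_eq_zero, Ideal.smul_top_eq_map, Submodule.restrictScalars_mem]
    rw [← neg_sub]
    exact neg_mem hs
  exact key

end endo

section ps

variable {k : Type u} [Field k] {d : ℕ}

instance dom_ps : IsDomain (MvPowerSeries (Fin d) k) := NoZeroDivisors.to_isDomain _

/-- the order filtration -/
noncomputable def oF (k : Type u) [Field k] (d : ℕ) : Fil (MvPowerSeries (Fin d) k) :=
  wFil (fun _ => 1) (fun _ => Nat.one_pos)

lemma wg_one (u : Fin d →₀ ℕ) : wg (fun _ => 1) u = u.degree := by
  rw [wg, Finsupp.degree_eq_sum]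
  simp

lemma mem_oF {n : ℕ} {f : MvPowerSeries (Fin d) k} :
    f ∈ (oF k d).F n ↔ ∀ u, coeff u f ≠ 0 → n ≤ u.degree := by
  rw [oF, mem_wFil]
  simp only [wg_one]

lemma mem_oF1 {f : MvPowerSeries (Fin d) k} : f ∈ (oF k d).F 1 ↔ constantCoeff f = 0 := by
  rw [mem_oF]
  constructor
  · intro h
    by_contra hc
    have := h 0 (by rwa [coeff_zero_eq_constantCoeff_apply])
    simp at this
  · intro h u hu
    by_contra hc
    push Not at hc
    have h0 : u.degree = 0 := by omega
    rw [Finsupp.degree_eq_zero_iff] at h0
    subst h0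
    rw [coeff_zero_eq_constantCoeff_apply] at hu
    exact hu h

lemma oF1_eq : (oF k d).F 1 = maximalIdeal (MvPowerSeries (Fin d) k) := by
  ext f
  rw [mem_oF1, Pool.Agent.Helper819.DC.COMP2.mem_max_mv_aux]

lemma not_mem_oF1_iff {f : MvPowerSeries (Fin d) k} : f ∉ (oF k d).F 1 ↔ IsUnit f := by
  rw [oF1_eq, mem_maximalIdeal, mem_nonunits_iff, not_not]

lemma span_X : maximalIdeal (MvPowerSeries (Fin d) k) =
    Ideal.span (Set.range (X : Fin d → MvPowerSeries (Fin d) k)) :=
  Pool.Agent.Helper819.DC.COMP2.max_eq_span_aux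

lemma pow_le_oF (n : ℕ) : (maximalIdeal (MvPowerSeries (Fin d) k)) ^ n ≤ (oF k d).F n := by
  induction n with
  | zero => rw [pow_zero, (oF k d).F_zero]; exact le_top
  | succ n ih =>
    rw [pow_succ, Ideal.mul_le]
    intro a ha b hb
    rw [← oF1_eq] at hb
    exact (oF k d).mul_mem (ih ha) hb

lemma oF_le_pow (n : ℕ) : (oF k d).F n ≤ (maximalIdeal (MvPowerSeries (Fin d) k)) ^ n := by
  intro f hf
  have h1 := Pool.Agent.Helper819.DC.EV.sub_trunc_mem n f
  have h2 : (MvPowerSeries.truncTotal n f : MvPolynomial (Fin d) k) = 0 := by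
    ext u
    rw [MvPolynomial.coeff_zero]
    by_cases hu : u.degree < n
    · rw [MvPowerSeries.coeff_truncTotal _ hu]
      by_contra hc
      have := mem_oF.1 hf u hc
      omega
    · exact MvPowerSeries.coeff_truncTotal_eq_zero _ (by omega)
  rw [h2, MvPolynomial.coe_zero, sub_zero] at h1
  have h3 : ∀ g ∈ ((MvPolynomial.idealOfVars (Fin d) k ^ n) •
      (⊤ : Submodule (MvPolynomial (Fin d) k) (MvPowerSeries (Fin d) k))),
      g ∈ (maximalIdeal (MvPowerSeries (Fin d) k)) ^ n := by
    intro g hg
    induction hg using Submodule.smul_induction_on' with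
    | smul p hp g _ =>
      rw [Algebra.smul_def]
      apply Ideal.mul_mem_right
      have h4 : (MvPolynomial.idealOfVars (Fin d) k).map
          (algebraMap (MvPolynomial (Fin d) k) (MvPowerSeries (Fin d) k)) ≤
          maximalIdeal (MvPowerSeries (Fin d) k) := by
        unfold MvPolynomial.idealOfVars
        rw [Ideal.map_span, Ideal.span_le]
        rintro _ ⟨_, ⟨i, rfl⟩, rfl⟩
        rw [span_X]
        apply Ideal.subset_span
        refine ⟨i, ?_⟩
        exact (MvPolynomial.coe_X i).symm
      have h5 := Ideal.pow_right_mono h4 n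
      rw [← Ideal.map_pow] at h5
      exact h5 (Ideal.mem_map_of_mem _ hp)
    | add x _ y _ hx hy => exact Ideal.add_mem _ hx hy
  exact h3 f h1

lemma oF_eq_pow (n : ℕ) : (oF k d).F n = (maximalIdeal (MvPowerSeries (Fin d) k)) ^ n :=
  le_antisymm (oF_le_pow n) (pow_le_oF n)

instance complete_mv : IsAdicComplete (maximalIdeal (MvPowerSeries (Fin d) k))
    (MvPowerSeries (Fin d) k) :=
  Pool.Agent.Helper819.DC.COMP2.complete_mvPowerSeries

/-- ring automorphisms preserve the order -/
lemma aut_mem_oF (σ : MvPowerSeries (Fin d) k ≃+* MvPowerSeries (Fin d) k) {n : ℕ}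
    {f : MvPowerSeries (Fin d) k} (hf : f ∈ (oF k d).F n) : σ f ∈ (oF k d).F n := by
  rw [oF_eq_pow] at hf ⊢
  have h1 := Ideal.mem_map_of_mem σ.toRingHom hf
  rw [Ideal.map_pow] at h1
  refine Ideal.pow_right_mono ?_ n h1
  rw [Ideal.map_le_iff_le_comap]
  intro z hz
  rw [Ideal.mem_comap, mem_maximalIdeal, mem_nonunits_iff]
  rw [mem_maximalIdeal, mem_nonunits_iff] at hz
  intro h
  exact hz ((MulEquiv.isUnit_map σ.toMulEquiv).1 h)

lemma aut_mem_oF_iff (σ : MvPowerSeries (Fin d) k ≃+* MvPowerSeries (Fin d) k) {n : ℕ}
    {f : MvPowerSeries (Fin d) k} : σ f ∈ (oF k d).F n ↔ f ∈ (oF k d).F n := by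
  refine ⟨fun h => ?_, aut_mem_oF σ⟩
  have := aut_mem_oF σ.symm h
  rwa [RingEquiv.symm_apply_apply] at this

/-- the residue of an element -/
lemma exists_residue (f : MvPowerSeries (Fin d) k) : f - C (constantCoeff f) ∈ (oF k d).F 1 := by
  rw [mem_oF1, map_sub, constantCoeff_C, sub_self]

lemma degree_one {u : Fin d →₀ ℕ} (h : u.degree = 1) : ∃ i, u = Finsupp.single i 1 := by
  classical
  have h0 : u ≠ 0 := by
    rintro rfl
    simp at h
  obtain ⟨i, hi⟩ : ∃ i, u i ≠ 0 := by
    by_contra hc
    push Not at hc
    exact h0 (Finsupp.ext hc)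
  refine ⟨i, ?_⟩
  have hle : Finsupp.single i 1 ≤ u := by
    rw [Finsupp.single_le_iff]
    omega
  obtain ⟨v, hv⟩ := exists_add_of_le hle
  have h1 : v.degree = 0 := by
    rw [hv, map_add, Finsupp.degree_single] at h
    omega
  rw [Finsupp.degree_eq_zero_iff] at h1
  rw [hv, h1, add_zero]

/-- an element of order one has a nonzero linear coefficient -/
lemma exists_lin {x : MvPowerSeries (Fin d) k} (hx : x ∈ (oF k d).F 1) (hx2 : x ∉ (oF k d).F 2) :
    ∃ i, coeff (Finsupp.single i 1) x ≠ 0 := by
  rw [mem_oF] at hx2
  push Not at hx2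
  obtain ⟨u, hu, hu2⟩ := hx2
  have h1 := mem_oF.1 hx u hu
  have h3 : u.degree = 1 := by omega
  obtain ⟨i, rfl⟩ := degree_one h3
  exact ⟨i, hu⟩

/-- the basic automorphism -/
lemma exists_aut (i : Fin d) {x : MvPowerSeries (Fin d) k} (hx : x ∈ (oF k d).F 1)
    (hx1 : coeff (Finsupp.single i 1) x ≠ 0) :
    ∃ σ : MvPowerSeries (Fin d) k ≃+* MvPowerSeries (Fin d) k, σ (X i) = x ∧
      ∀ j, j ≠ i → σ (X j) = X j := by
  classical
  let z : Fin d → MvPowerSeries (Fin d) k := fun j => if j = i then x else X j
  have hz : ∀ j, z j ∈ maximalIdeal (MvPowerSeries (Fin d) k) := by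
    intro j
    by_cases h : j = i
    · simp only [z, h, if_true]
      rwa [← oF1_eq]
    · simp only [z, h, if_false]
      rw [span_X]
      exact Ideal.subset_span ⟨j, rfl⟩
  obtain ⟨Φ, hΦ⟩ := Pool.Agent.Helper819.DC.EV.evm_exists (K := k)
    (maximalIdeal (MvPowerSeries (Fin d) k)) z hz
  -- the `z j` generate the maximal ideal
  have hspan : maximalIdeal (MvPowerSeries (Fin d) k) ≤ Ideal.span (Set.range z) := by
    have h1 : maximalIdeal (MvPowerSeries (Fin d) k) ≤ Ideal.span (Set.range z) ⊔
        maximalIdeal (MvPowerSeries (Fin d) k) • maximalIdeal (MvPowerSeries (Fin d) k) := by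
      conv_lhs => rw [span_X]
      rw [Ideal.span_le]
      rintro _ ⟨j, rfl⟩
      by_cases h : j = i
      · subst h
        have e : x - ∑ l, C (coeff (Finsupp.single l 1) x) * X l ∈ (oF k d).F 2 := by
          rw [mem_oF]
          intro u hu
          by_contra hc
          push Not at hc
          apply hu
          rw [map_sub, map_sum]
          simp only [coeff_C_mul, coeff_X]
          rcases Nat.lt_or_ge u.degree 1 with h0 | h0
          · have h0' : u.degree = 0 := by omega
            rw [Finsupp.degree_eq_zero_iff] at h0'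
            subst h0'
            rw [coeff_zero_eq_constantCoeff_apply, mem_oF1.1 hx]
            rw [Finset.sum_eq_zero, sub_zero]
            intro l _
            rw [if_neg, mul_zero]
            intro h
            have := congrArg (fun f => f l) h
            simp at this
          · have h0' : u.degree = 1 := by omega
            obtain ⟨l, rfl⟩ := degree_one h0'
            rw [Finset.sum_eq_single l]
            · rw [if_pos rfl, mul_one, sub_self]
            · intro m _ hm
              rw [if_neg, mul_zero]
              intro h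
              rw [Finsupp.single_left_inj one_ne_zero] at h
              exact hm h.symm
            · intro h; exact absurd (Finset.mem_univ _) h
        rw [oF_eq_pow, pow_two] at e
        have hc : IsUnit (C (coeff (Finsupp.single j 1) x) : MvPowerSeries (Fin d) k) :=
          (isUnit_iff_ne_zero.2 hx1).map (C (σ := Fin d) (R := k))
        obtain ⟨c, hc'⟩ := hc.exists_left_inv
        have e2 : (X j : MvPowerSeries (Fin d) k) = c * (z j - ∑ l ∈ Finset.univ.erase j,
            C (coeff (Finsupp.single l 1) x) * z l) -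
            c * (x - ∑ l, C (coeff (Finsupp.single l 1) x) * X l) := by
          have e3 : z j = x := by simp only [z, if_true]
          have e4 : ∑ l ∈ Finset.univ.erase j, C (coeff (Finsupp.single l 1) x) * z l =
              ∑ l ∈ Finset.univ.erase j, C (coeff (Finsupp.single l 1) x) * X l := by
            apply Finset.sum_congr rfl
            intro l hl
            have : l ≠ j := Finset.ne_of_mem_erase hl
            simp only [z, this, if_false]
          rw [e3, e4, ← Finset.add_sum_erase _ _ (Finset.mem_univ j)]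
          linear_combination (-(X j : MvPowerSeries (Fin d) k)) * hc'
        rw [e2]
        apply Submodule.sub_mem
        · apply Submodule.mem_sup_left
          apply Ideal.mul_mem_left
          refine Ideal.sub_mem _ (Ideal.subset_span (Set.mem_range_self j)) ?_
          apply Ideal.sum_mem
          intro l _
          exact Ideal.mul_mem_left _ _ (Ideal.subset_span ⟨l, rfl⟩)
        · apply Submodule.mem_sup_right
          apply Ideal.mul_mem_left
          exact e
      · apply Submodule.mem_sup_left
        apply Ideal.subset_span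
        refine ⟨j, ?_⟩
        simp only [z, h, if_false]
    exact Submodule.le_of_le_smul_of_le_jacobson_bot (IsNoetherian.noetherian _)
      (IsLocalRing.maximalIdeal_le_jacobson ⊥) h1
  -- surjectivity
  have hmap : Ideal.map Φ.toRingHom (maximalIdeal (MvPowerSeries (Fin d) k)) =
      maximalIdeal (MvPowerSeries (Fin d) k) := by
    conv_lhs => rw [span_X]
    rw [Ideal.map_span, ← Set.range_comp]
    have e : (Φ.toRingHom ∘ X : Fin d → MvPowerSeries (Fin d) k) = z := by
      funext j
      exact hΦ j
    rw [e]
    apply le_antisymm _ hspan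
    rw [Ideal.span_le]
    rintro _ ⟨j, rfl⟩
    exact hz j
  have hsurj : Function.Surjective Φ := by
    apply surj_of_complete Φ.toRingHom (maximalIdeal (MvPowerSeries (Fin d) k))
      (maximalIdeal (MvPowerSeries (Fin d) k)) hmap.le
    intro t
    refine ⟨C (constantCoeff t), ?_⟩
    rw [hmap]
    have e : Φ.toRingHom (C (constantCoeff t)) = C (constantCoeff t) := by
      have := Φ.commutes (constantCoeff t)
      rw [MvPowerSeries.algebraMap_apply] at this
      exact this
    rw [e, ← oF1_eq]
    exact exists_residue t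
  have hinj : Function.Injective (Φ.toRingHom : MvPowerSeries (Fin d) k →+* _) :=
    endo_injective Φ.toRingHom hsurj
  have hbij : Function.Bijective (Φ.toRingHom : MvPowerSeries (Fin d) k →+* _) :=
    And.intro hinj hsurj
  refine ⟨RingEquiv.ofBijective Φ.toRingHom hbij, ?_, ?_⟩
  · change Φ (X i) = x
    rw [hΦ]
    simp only [z, if_true]
  · intro j hj
    change Φ (X j) = X j
    rw [hΦ]
    simp only [z, hj, if_false]

end ps

end Run7.h889
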