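import Pool.Agent.Run7.h889.PS

set_option autoImplicit false
set_option linter.unusedSimpArgs false
set_option linter.unusedVariables false
set_option linter.unusedSectionVars false
set_option linter.deprecated false

namespace Run7.h889

open MvPowerSeries IsLocalRing

universe u

section ps

variable {k : Type u} [Field k] {d : ℕ}

/-- killing two variables -/
noncomputable def killV (i j : Fin d) : MvPowerSeries (Fin d) k →+* MvPowerSeries (Fin d) k where
  toFun f := fun u => if u i = 0 ∧ u j = 0 then coeff u f else 0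
  map_zero' := by
    ext u
    change (if u i = 0 ∧ u j = 0 then coeff u 0 else 0) = coeff u 0
    rw [coeff_zero, ite_self]
  map_one' := by
    classical
    ext u
    change (if u i = 0 ∧ u j = 0 then coeff u 1 else 0) = coeff u 1
    rw [coeff_one]
    split_ifs with h1 h2 h3
    · rfl
    · rfl
    · exfalso; apply h1; rw [h3]; simp
    · rfl
  map_add' := by
    intro f g
    ext u
    change (if u i = 0 ∧ u j = 0 then coeff u (f + g) else 0) =
      (if u i = 0 ∧ u j = 0 then coeff u f else 0) + (if u i = 0 ∧ u j = 0 then coeff u g else 0)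
    split_ifs
    · rw [map_add]
    · rw [add_zero]
  map_mul' := by
    classical
    intro f g
    ext u
    change (if u i = 0 ∧ u j = 0 then coeff u (f * g) else 0) = _
    rw [coeff_mul, coeff_mul]
    split_ifs with h
    · apply Finset.sum_congr rfl
      intro x hx
      rw [Finset.HasAntidiagonal.mem_antidiagonal] at hx
      have h1 := DFunLike.congr_fun hx i
      have h2 := DFunLike.congr_fun hx j
      simp only [Finsupp.add_apply] at h1 h2
      change _ = (if x.1 i = 0 ∧ x.1 j = 0 then coeff x.1 f else 0) *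
        (if x.2 i = 0 ∧ x.2 j = 0 then coeff x.2 g else 0)
      rw [if_pos (by omega), if_pos (by omega)]
    · symm
      apply Finset.sum_eq_zero
      intro x hx
      rw [Finset.HasAntidiagonal.mem_antidiagonal] at hx
      have h1 := DFunLike.congr_fun hx i
      have h2 := DFunLike.congr_fun hx j
      simp only [Finsupp.add_apply] at h1 h2
      change (if x.1 i = 0 ∧ x.1 j = 0 then coeff x.1 f else 0) *
        (if x.2 i = 0 ∧ x.2 j = 0 then coeff x.2 g else 0) = 0
      by_cases h3 : x.1 i = 0 ∧ x.1 j = 0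
      · rw [if_neg (c := x.2 i = 0 ∧ x.2 j = 0) (by omega), mul_zero]
      · rw [if_neg h3, zero_mul]

lemma coeff_kill (i j : Fin d) (f : MvPowerSeries (Fin d) k) (u : Fin d →₀ ℕ) :
    coeff u (killV i j f) = if u i = 0 ∧ u j = 0 then coeff u f else 0 := rfl

lemma ker_kill (i j : Fin d) : RingHom.ker (killV (k := k) i j) = Ideal.span {X i, X j} := by
  classical
  apply le_antisymm
  · intro f hf
    rw [RingHom.mem_ker] at hf
    have h : ∀ u : Fin d →₀ ℕ, u i = 0 → u j = 0 → coeff u f = 0 := by
      intro u h1 h2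
      have := congrArg (coeff u) hf
      rw [coeff_kill, if_pos ⟨h1, h2⟩, coeff_zero] at this
      exact this
    let g : MvPowerSeries (Fin d) k := fun u => if u i = 0 then 0 else coeff u f
    have hg : ∀ u, coeff u g = if u i = 0 then 0 else coeff u f := fun u => rfl
    have h1 : X i ∣ g := by
      rw [X_dvd_iff]
      intro u hu
      rw [hg, if_pos hu]
    have h2 : X j ∣ (f - g) := by
      rw [X_dvd_iff]
      intro u hu
      rw [map_sub, hg]
      split_ifs with h3
      · rw [h u h3 hu, sub_zero]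
      · rw [sub_self]
    have e : f = g + (f - g) := by ring
    rw [e]
    apply Ideal.add_mem
    · exact Ideal.mem_of_dvd _ h1 (Ideal.subset_span (by simp))
    · exact Ideal.mem_of_dvd _ h2 (Ideal.subset_span (by simp))
  · rw [Ideal.span_le]
    rintro z hz
    rw [Set.mem_insert_iff, Set.mem_singleton_iff] at hz
    change killV i j z = 0
    ext u
    rw [coeff_kill, coeff_zero]
    split_ifs with h
    · rcases hz with rfl | rfl
      · rw [coeff_X, if_neg]
        rintro rfl
        simp at h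
      · rw [coeff_X, if_neg]
        rintro rfl
        simp at h
    · rfl

lemma prime_span_X (i j : Fin d) :
    (Ideal.span {X i, X j} : Ideal (MvPowerSeries (Fin d) k)).IsPrime := by
  rw [← ker_kill]
  exact RingHom.ker_isPrime _

lemma prime_X (i : Fin d) : Prime (X i : MvPowerSeries (Fin d) k) := by
  have h := prime_span_X (k := k) i i
  have e : (Ideal.span {X i, X i} : Ideal (MvPowerSeries (Fin d) k)) = Ideal.span {X i} := by
    rw [Set.pair_eq_singleton]
  rw [e, Ideal.span_singleton_prime] at h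
  · exact h
  · intro h0
    have := congrArg (coeff (Finsupp.single i 1)) h0
    rw [coeff_index_single_self_X, coeff_zero] at this
    exact one_ne_zero this

lemma X_mem_oF (i : Fin d) : (X i : MvPowerSeries (Fin d) k) ∈ (oF k d).F 1 := by
  rw [mem_oF1, constantCoeff_X]

/-- elements of order one are prime -/
lemma prime_of_order {x : MvPowerSeries (Fin d) k} (hx : x ∈ (oF k d).F 1)
    (hx2 : x ∉ (oF k d).F 2) : Prime x := by
  obtain ⟨i, hi⟩ := exists_lin hx hx2
  obtain ⟨σ, hσ, _⟩ := exists_aut i hx hi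
  rw [← hσ]
  exact (MulEquiv.prime_iff σ.toMulEquiv).2 (prime_X i)

/-- independence of linear parts -/
def Indep (x y : MvPowerSeries (Fin d) k) : Prop :=
  ∀ s t : MvPowerSeries (Fin d) k, s * x + t * y ∈ (oF k d).F 2 →
    s ∈ (oF k d).F 1 ∧ t ∈ (oF k d).F 1

/-- a common automorphism -/
lemma exists_aut2 {x y : MvPowerSeries (Fin d) k} (hx : x ∈ (oF k d).F 1) (hy : y ∈ (oF k d).F 1)
    (h : Indep x y) : ∃ (σ : MvPowerSeries (Fin d) k ≃+* MvPowerSeries (Fin d) k) (i j : Fin d),
      i ≠ j ∧ σ (X i) = x ∧ σ (X j) = y := by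
  classical
  have h1 : (1 : MvPowerSeries (Fin d) k) ∉ (oF k d).F 1 := by
    rw [not_mem_oF1_iff]; exact isUnit_one
  have hx2 : x ∉ (oF k d).F 2 := by
    intro hx2
    exact h1 (h 1 0 (by rw [one_mul, zero_mul, add_zero]; exact hx2)).1
  obtain ⟨i, hi⟩ := exists_lin hx hx2
  obtain ⟨σ1, hσ1, _⟩ := exists_aut i hx hi
  obtain ⟨y1, hy1⟩ : ∃ y1, y1 = σ1.symm y := ⟨_, rfl⟩
  have hy1' : σ1 y1 = y := by rw [hy1, RingEquiv.apply_symm_apply]
  have hy1m : y1 ∈ (oF k d).F 1 := by
    rw [← aut_mem_oF_iff σ1, hy1']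
    exact hy
  obtain ⟨j, hj, hji⟩ : ∃ j, coeff (Finsupp.single j 1) y1 ≠ 0 ∧ j ≠ i := by
    by_contra hc
    push Not at hc
    obtain ⟨c, hc'⟩ : ∃ c, c = coeff (Finsupp.single i 1) y1 := ⟨_, rfl⟩
    have h2 : -C c * X i + 1 * y1 ∈ (oF k d).F 2 := by
      rw [mem_oF]
      intro u hu
      by_contra hcon
      push Not at hcon
      apply hu
      rw [map_add, neg_mul, map_neg, coeff_C_mul, coeff_X, one_mul]
      rcases Nat.lt_or_ge u.degree 1 with h0 | h0
      · have h0' : u.degree = 0 := by omega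
        rw [Finsupp.degree_eq_zero_iff] at h0'
        subst h0'
        rw [coeff_zero_eq_constantCoeff_apply, mem_oF1.1 hy1m, if_neg, mul_zero, neg_zero, add_zero]
        intro h
        have := congrArg (fun f => f i) h
        simp at this
      · obtain ⟨l, rfl⟩ := degree_one (show u.degree = 1 by omega)
        by_cases hl : l = i
        · subst hl
          rw [if_pos rfl, mul_one, ← hc', neg_add_cancel]
        · rw [if_neg, mul_zero, neg_zero, zero_add]
          · by_contra hcl
            exact hl (hc l hcl)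
          · intro h
            rw [Finsupp.single_left_inj one_ne_zero] at h
            exact hl h
    have h3 := aut_mem_oF σ1 h2
    rw [map_add, map_mul, map_mul, map_one, hσ1, hy1'] at h3
    exact h1 (h _ _ h3).2
  obtain ⟨σ2, hσ2, hσ2'⟩ := exists_aut j hy1m hj
  refine ⟨σ2.trans σ1, i, j, hji.symm, ?_, ?_⟩
  · rw [RingEquiv.trans_apply, hσ2' i hji.symm, hσ1]
  · rw [RingEquiv.trans_apply, hσ2, hy1']

lemma indep_prime {x y : MvPowerSeries (Fin d) k} (hx : x ∈ (oF k d).F 1)
    (hy : y ∈ (oF k d).F 1) (h : Indep x y) : (Ideal.span {x, y}).IsPrime := by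
  obtain ⟨σ, i, j, hij, h1, h2⟩ := exists_aut2 hx hy h
  have h3 := prime_span_X (k := k) i j
  have e : Ideal.span {x, y} = Ideal.map σ.toRingHom (Ideal.span {X i, X j}) := by
    rw [Ideal.map_span, Set.image_pair]
    congr 1
    rw [← h1, ← h2]
    rfl
  rw [e]
  exact Ideal.map_isPrime_of_equiv σ

lemma Indep.symm {x y : MvPowerSeries (Fin d) k} (h : Indep x y) : Indep y x := by
  intro s t hst
  rw [add_comm] at hst
  exact (h t s hst).symm

lemma Indep.not_dvd {x y : MvPowerSeries (Fin d) k} (hx : x ∈ (oF k d).F 1)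
    (h : Indep x y) : ¬ x ∣ y := by
  rintro ⟨c, hc⟩
  have h1 : (1 : MvPowerSeries (Fin d) k) ∉ (oF k d).F 1 := by
    rw [not_mem_oF1_iff]; exact isUnit_one
  apply h1
  refine (h (-c) 1 ?_).2
  rw [hc]
  have : -c * x + 1 * (x * c) = 0 := by ring
  rw [this]
  exact Ideal.zero_mem _

lemma Indep.not_mem {x y : MvPowerSeries (Fin d) k} (h : Indep x y) : x ∉ (oF k d).F 2 := by
  intro hx
  have h1 : (1 : MvPowerSeries (Fin d) k) ∉ (oF k d).F 1 := by
    rw [not_mem_oF1_iff]; exact isUnit_one
  exact h1 (h 1 0 (by rw [one_mul, zero_mul, add_zero]; exact hx)).1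

/-- Hensel's lemma -/
lemma hensel (f : Polynomial (MvPowerSeries (Fin d) k)) (hf : f.Monic)
    (a0 : MvPowerSeries (Fin d) k) (h0 : f.eval a0 ∈ (oF k d).F 1)
    (h1 : f.derivative.eval a0 ∉ (oF k d).F 1) :
    ∃ a, f.eval a = 0 ∧ a - a0 ∈ (oF k d).F 1 := by
  haveI : HenselianRing (MvPowerSeries (Fin d) k) (maximalIdeal (MvPowerSeries (Fin d) k)) :=
    IsAdicComplete.henselianRing _ _
  rw [oF1_eq] at h0
  rw [not_mem_oF1_iff] at h1
  obtain ⟨a, ha, ha'⟩ := HenselianRing.is_henselian (I := maximalIdeal (MvPowerSeries (Fin d) k)) f hf a0 h0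
    (h1.map (Ideal.Quotient.mk _))
  exact ⟨a, ha, by rw [oF1_eq]; exact ha'⟩

/-- limits of Cauchy sequences -/
lemma exists_limit (f : ℕ → MvPowerSeries (Fin d) k)
    (hf : ∀ n, f (n + 1) - f n ∈ (oF k d).F n) :
    ∃ a, ∀ n, a - f n ∈ (oF k d).F n := by
  have h1 : ∀ {m n}, m ≤ n → f m ≡ f n
      [SMOD (maximalIdeal (MvPowerSeries (Fin d) k) ^ m • ⊤ :
        Submodule (MvPowerSeries (Fin d) k) (MvPowerSeries (Fin d) k))] := by
    intro m n hmn
    rw [SModEq.sub_mem, smul_eq_mul, Ideal.mul_top, ← oF_eq_pow, ← neg_sub]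
    apply neg_mem
    induction n, hmn using Nat.le_induction with
    | base => rw [sub_self]; exact Ideal.zero_mem _
    | succ n hmn ih =>
      have e : f (n + 1) - f m = (f (n + 1) - f n) + (f n - f m) := by ring
      rw [e]
      exact Ideal.add_mem _ ((oF k d).mem_le (hf n) hmn) ih
  obtain ⟨a, ha⟩ := IsPrecomplete.prec' (I := maximalIdeal (MvPowerSeries (Fin d) k)) f h1
  refine ⟨a, fun n => ?_⟩
  have := ha n
  rw [SModEq.sub_mem, smul_eq_mul, Ideal.mul_top, ← oF_eq_pow] at this
  rw [← neg_sub]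
  exact neg_mem this

end ps

end Run7.h889
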