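import Pool.Agent.Run7.h889.CubM4
import Pool.Agent.Run7.h889.NormA

set_option autoImplicit false
set_option linter.unusedSimpArgs false
set_option linter.unusedVariables false
set_option linter.unusedSectionVars false
set_option linter.deprecated false

namespace Run7.h889

open Module nonZeroDivisors Polynomial

universe u v

section hartgen

variable {S : Type u} [CommRing S] {x y χ : S}

/-- General Hartogs-type lemma. -/
theorem hart_gen (hy : ∀ a b, y ∣ a * b → y ∣ a ∨ y ∣ b) (hreg : ∀ a b, y * a = y * b → a = b)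
    (hyx : ¬ y ∣ x) (hP : (Ideal.span {x, y}).IsPrime)
    (hχ : χ ∉ Ideal.span {x, y}) (r k : ℕ) : ∀ {G Q H : S},
    (y ^ k * G = x ^ r * Q + χ * H) → ∃ Q' H' : S, G = x ^ r * Q' + χ * H' := by
  have mx : x ∈ Ideal.span {x, y} := Ideal.subset_span (by simp)
  have my : y ∈ Ideal.span {x, y} := Ideal.subset_span (by simp)
  have step : ∀ {f f1 h : S}, x * f = y * f1 + χ * h → ∃ f2 h2, f = y * f2 + χ * h2 := by
    intro f f1 h e
    have h1 : χ * h ∈ Ideal.span {x, y} := by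
      have : χ * h = x * f - y * f1 := by rw [e]; ring
      rw [this]
      exact Ideal.sub_mem _ (Ideal.mul_mem_right _ _ mx) (Ideal.mul_mem_right _ _ my)
    have h2 := (hP.mem_or_mem h1).resolve_left hχ
    rw [Ideal.mem_span_pair] at h2
    obtain ⟨a, b, hab⟩ := h2
    have e2 : x * (f - χ * a) = y * (f1 + χ * b) := by
      rw [← hab] at e
      linear_combination e
    rcases hy _ _ ⟨_, e2⟩ with h3 | h3
    · exact absurd h3 hyx
    · obtain ⟨f2, hf2⟩ := h3
      exact ⟨f2, a, by rw [← hf2]; ring⟩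
  have steps : ∀ (r : ℕ) {f f1 h : S}, x ^ r * f = y * f1 + χ * h →
      ∃ f2 h2, f = y * f2 + χ * h2 := by
    intro r
    induction r with
    | zero =>
      intro f f1 h e
      rw [pow_zero, one_mul] at e
      exact ⟨f1, h, e⟩
    | succ r ih =>
      intro f f1 h e
      have e1 : x * (x ^ r * f) = y * f1 + χ * h := by rw [← e]; ring
      obtain ⟨f2, h2, e2⟩ := step e1
      exact ih e2
  have hyχ : ¬ y ∣ χ := by
    rintro ⟨c, hc⟩
    apply hχ
    rw [hc]
    exact Ideal.mul_mem_right _ _ my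
  induction k with
  | zero =>
    intro G Q H e
    rw [pow_zero, one_mul] at e
    exact ⟨Q, H, e⟩
  | succ k ih =>
    intro G Q H e
    have e1 : x ^ r * Q = y * (y ^ k * G) + χ * (-H) := by
      rw [pow_succ] at e
      linear_combination -e
    obtain ⟨Q1, H1, e2⟩ := steps r e1
    have e3 : y * (y ^ k * G - x ^ r * Q1) = χ * (H + x ^ r * H1) := by
      rw [e2] at e1
      linear_combination -e1
    obtain ⟨H2, hH2⟩ := (hy _ _ ⟨_, e3.symm⟩).resolve_left hyχ
    have e4 : y * (y ^ k * G) = y * (x ^ r * Q1 + χ * H2) := by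
      rw [hH2] at e3
      linear_combination e3
    exact ih (hreg _ _ e4)

end hartgen

section polyanis

variable {A : Type u} [CommRing A]

/-- anisotropy for polynomials over a domain -/
lemma poly_anis_dom {D : Type u} [CommRing D] [IsDomain D] {b c : D}
    (h : ∀ r0 r1 : D, r0 ^ 2 - b * r0 * r1 + c * r1 ^ 2 = 0 → r0 = 0 ∧ r1 = 0)
    {f0 f1 : D[X]} (hf : f0 ^ 2 - C b * f0 * f1 + C c * f1 ^ 2 = 0) : f0 = 0 ∧ f1 = 0 := by
  classical
  obtain ⟨n, hn⟩ : ∃ n, n = max f0.natDegree f1.natDegree := ⟨_, rfl⟩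
  have h0 : f0.natDegree ≤ n := by rw [hn]; exact le_max_left _ _
  have h1 : f1.natDegree ≤ n := by rw [hn]; exact le_max_right _ _
  have e := congrArg (fun f => f.coeff (n + n)) hf
  simp only [coeff_add, coeff_sub, pow_two, mul_assoc, coeff_C_mul, coeff_zero] at e
  rw [coeff_mul_add_eq_of_natDegree_le h0 h0, coeff_mul_add_eq_of_natDegree_le h0 h1,
    coeff_mul_add_eq_of_natDegree_le h1 h1] at e
  obtain ⟨g0, g1⟩ := h (f0.coeff n) (f1.coeff n) (by linear_combination e)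
  rcases max_cases f0.natDegree f1.natDegree with hc | hc
  · have h2 : f0 = 0 := by
      rw [← leadingCoeff_eq_zero, leadingCoeff, ← hc.1, ← hn, g0]
    have h3 : n = 0 := by rw [hn, hc.1, h2, natDegree_zero]
    rw [h3] at g1 h1
    refine ⟨h2, ?_⟩
    rw [eq_C_of_natDegree_le_zero h1, g1, C_0]
  · have h2 : f1 = 0 := by
      rw [← leadingCoeff_eq_zero, leadingCoeff, ← hc.1, ← hn, g1]
    have h3 : n = 0 := by rw [hn, hc.1, h2, natDegree_zero]
    rw [h3] at g0 h0
    refine ⟨?_, h2⟩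
    rw [eq_C_of_natDegree_le_zero h0, g0, C_0]

/-- anisotropy for polynomials modulo an ideal -/
lemma poly_anis {I : Ideal A} (hI : I.IsPrime) {b c : A}
    (h : ∀ r0 r1 : A, r0 ^ 2 - b * r0 * r1 + c * r1 ^ 2 ∈ I → r0 ∈ I ∧ r1 ∈ I)
    {f0 f1 : A[X]} (hf : f0 ^ 2 - C b * f0 * f1 + C c * f1 ^ 2 ∈ I.map C) :
    f0 ∈ I.map C ∧ f1 ∈ I.map C := by
  have hker : ∀ f : A[X], f ∈ I.map C ↔ f.map (Ideal.Quotient.mk I) = 0 := by
    intro f
    rw [← coe_mapRingHom, ← RingHom.mem_ker, ker_mapRingHom, Ideal.mk_ker]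
  rw [hker] at hf
  rw [hker, hker]
  simp only [Polynomial.map_add, Polynomial.map_sub, Polynomial.map_mul, Polynomial.map_pow,
    Polynomial.map_C] at hf
  refine poly_anis_dom ?_ hf
  intro r0 r1 hr
  obtain ⟨r0, rfl⟩ := Ideal.Quotient.mk_surjective r0
  obtain ⟨r1, rfl⟩ := Ideal.Quotient.mk_surjective r1
  rw [← map_pow, ← map_pow, ← map_mul, ← map_mul, ← map_mul, ← map_sub, ← map_add,
    Ideal.Quotient.eq_zero_iff_mem] at hr
  rw [Ideal.Quotient.eq_zero_iff_mem, Ideal.Quotient.eq_zero_iff_mem]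
  exact h _ _ hr

end polyanis

section qring

variable {A : Type u} [CommRing A] [IsDomain A] (y b' c' : A)

/-- The ring `A[Z][ω]/(ω² + b' ω + c' - y Z)`. -/
abbrev QS := QuadraticAlgebra A[X] (C y * X - C c') (-C b')

variable {y b' c'}

/-- membership of both coordinates in the extension of an ideal -/
def QM (I : Ideal A) (u : QS y b' c') : Prop := u.re ∈ I.map C ∧ u.im ∈ I.map C

lemma QM_mul {I : Ideal A} (hI : I.IsPrime) (hy : y ∈ I)
    (h : ∀ r0 r1 : A, r0 ^ 2 - b' * r0 * r1 + c' * r1 ^ 2 ∈ I → r0 ∈ I ∧ r1 ∈ I)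
    {u v : QS y b' c'} (huv : QM I (u * v)) : QM I u ∨ QM I v := by
  have hprime : (Ideal.map (C : A →+* A[X]) I).IsPrime := Ideal.isPrime_map_C_of_isPrime
  have key : ∀ w : QS y b' c', QuadraticAlgebra.norm w ∈ I.map C → QM I w := by
    intro w hw
    apply poly_anis hI h
    have e : w.re ^ 2 - C b' * w.re * w.im + C c' * w.im ^ 2 =
        QuadraticAlgebra.norm w + C y * (X * w.im ^ 2) := by
      rw [QuadraticAlgebra.norm_def]; ring
    rw [e]
    exact Ideal.add_mem _ hw (Ideal.mul_mem_right _ _ (Ideal.mem_map_of_mem _ hy))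
  have h1 : QuadraticAlgebra.norm (u * v) ∈ I.map C := by
    rw [QuadraticAlgebra.norm_def]
    refine Ideal.sub_mem _ (Ideal.add_mem _ ?_ ?_) ?_
    · exact Ideal.mul_mem_left _ _ huv.1
    · exact Ideal.mul_mem_left _ _ huv.2
    · exact Ideal.mul_mem_left _ _ huv.2
  rw [map_mul] at h1
  rcases hprime.mem_or_mem h1 with h2 | h2
  · exact Or.inl (key _ h2)
  · exact Or.inr (key _ h2)

lemma qs_ext {u v : QS y b' c'} (h1 : u.re = v.re) (h2 : u.im = v.im) : u = v :=
  QuadraticAlgebra.ext h1 h2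

/-- constants -/
noncomputable def qc (a : A) : QS y b' c' := ⟨C a, 0⟩

lemma qc_mul_re (a : A) (u : QS y b' c') : (qc a * u).re = C a * u.re := by
  simp [qc]

lemma qc_mul_im (a : A) (u : QS y b' c') : (qc a * u).im = C a * u.im := by
  simp [qc]

lemma QM_iff_one {a : A} {u : QS y b' c'} : QM (Ideal.span {a}) u ↔ ∃ v, u = qc a * v := by
  unfold QM
  rw [Ideal.map_span, Set.image_singleton, Ideal.mem_span_singleton, Ideal.mem_span_singleton]
  constructor
  · rintro ⟨⟨s, hs⟩, t, ht⟩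
    exact ⟨⟨s, t⟩, qs_ext (by rw [qc_mul_re, hs]) (by rw [qc_mul_im, ht])⟩
  · rintro ⟨v, rfl⟩
    exact ⟨⟨v.re, qc_mul_re a v⟩, ⟨v.im, qc_mul_im a v⟩⟩

lemma QM_iff_two {a e : A} {u : QS y b' c'} :
    QM (Ideal.span {a, e}) u ↔ u ∈ Ideal.span {(qc a : QS y b' c'), qc e} := by
  unfold QM
  rw [Ideal.map_span, Set.image_pair, Ideal.mem_span_pair, Ideal.mem_span_pair,
    Ideal.mem_span_pair]
  constructor
  · rintro ⟨⟨s, t, hs⟩, s', t', ht⟩
    refine ⟨⟨s, s'⟩, ⟨t, t'⟩, qs_ext ?_ ?_⟩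
    · rw [QuadraticAlgebra.re_add, mul_comm _ (qc a), mul_comm _ (qc e), qc_mul_re, qc_mul_re, ← hs]
      ring
    · rw [QuadraticAlgebra.im_add, mul_comm _ (qc a), mul_comm _ (qc e), qc_mul_im, qc_mul_im, ← ht]
      ring
  · rintro ⟨v, w, rfl⟩
    rw [QuadraticAlgebra.re_add, QuadraticAlgebra.im_add, mul_comm _ (qc a), mul_comm _ (qc e),
      qc_mul_re, qc_mul_re, qc_mul_im, qc_mul_im]
    exact ⟨⟨v.re, w.re, by ring⟩, ⟨v.im, w.im, by ring⟩⟩

end qring

namespace Cub

variable {A : Type u} {R : Type v} [CommRing A] [IsDomain A] [CommRing R] [IsDomain R] [Algebra A R]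
variable (C' : Cub A R) {F : Fil A} (b' b'' c' c'' : A)

/-- representing element in the quadratic chart -/
noncomputable def qG (z : R) : QS C'.d b' c' :=
  ⟨C (C'.B.repr z 0) + C (C'.B.repr z 2 * C'.d) * (C C'.a * X + C c''),
    C (C'.B.repr z 1 * C'.a + C'.B.repr z 2 * C'.d * b'')⟩

lemma qG_el (z0 z1 z2 : A) : C'.qG b' b'' c' c'' (C'.el z0 z1 z2) =
    ⟨C z0 + C (z2 * C'.d) * (C C'.a * X + C c''), C (z1 * C'.a + z2 * C'.d * b'')⟩ := by
  rw [qG, repr_el0, repr_el1, repr_el2]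

/-- the element `χ` of the quadratic chart -/
noncomputable def qχ : QS C'.d b' c' :=
  ⟨C (b'' * C'.d) * X + C (1 - b'' * c'), C C'.a * X + C (c'' - b'' * b')⟩

lemma qG_mul (hbe : C'.b = C'.a * b' + C'.d * b'') (hce : C'.c = C'.a * c' + C'.d * c'') (z w : R) :
    ∃ H, C'.qG b' b'' c' c'' (z * w) = C'.qG b' b'' c' c'' z * C'.qG b' b'' c' c'' w +
      C'.qχ b' b'' c' c'' * H := by
  rw [C'.eq_el z, C'.eq_el w, el_mul, qG_el, qG_el, qG_el]
  set z0 := C'.B.repr z 0
  set z1 := C'.B.repr z 1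
  set z2 := C'.B.repr z 2
  set w0 := C'.B.repr w 0
  set w1 := C'.B.repr w 1
  set w2 := C'.B.repr w 2
  refine ⟨-⟨C (z1 * w2 + z2 * w1) * C (C'.a * C'.d) + C (z2 * w2 * C'.d * C'.b),
    C (z2 * w2 * C'.d * C'.a)⟩, ?_⟩
  apply QuadraticAlgebra.ext
  · simp only [qχ, QuadraticAlgebra.re_add, QuadraticAlgebra.re_mul, QuadraticAlgebra.re_neg,
      QuadraticAlgebra.im_neg]
    rw [hbe, hce]
    simp only [map_add, map_sub, map_mul, map_one]
    ring
  · simp only [qχ, QuadraticAlgebra.im_add, QuadraticAlgebra.im_mul, QuadraticAlgebra.re_neg,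
      QuadraticAlgebra.im_neg]
    rw [hbe, hce]
    simp only [map_add, map_sub, map_mul, map_one]
    ring

end Cub

end Run7.h889
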