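import Pool.Agent.Run7.h889.Quad

set_option autoImplicit false
set_option linter.unusedSimpArgs false
set_option linter.unusedVariables false
set_option linter.unusedSectionVars false
set_option linter.deprecated false

namespace Run7.h889

open Module nonZeroDivisors Polynomial

universe u v

namespace Cub

variable {A : Type u} {R : Type v} [CommRing A] [IsDomain A] [CommRing R] [IsDomain R] [Algebra A R]
variable (C' : Cub A R) {F : Fil A} {b' b'' c' c'' : A}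

section ev

variable {L : Type v} [Field L] [Algebra R L] [IsFractionRing R L] [Algebra A L]
  [IsScalarTower A R L]

/-- evaluation on the quadratic chart -/
noncomputable def qE (ζ θ : L) (u : QS C'.d b' c') : L := evζ ζ u.re + evζ ζ u.im * θ

variable {ζ θ : L} (hζ : algebraMap A L C'.d * ζ = θ ^ 2 + algebraMap A L b' * θ + algebraMap A L c')

omit [IsDomain A] [IsDomain R] [IsFractionRing R L] [IsScalarTower A R L] in
include hζ in
lemma qE_mul (u v : QS C'.d b' c') : C'.qE ζ θ (u * v) = C'.qE ζ θ u * C'.qE ζ θ v := by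
  simp only [qE, QuadraticAlgebra.re_mul, QuadraticAlgebra.im_mul, map_add, map_mul, map_sub,
    map_neg, evζ_C, evζ_X]
  linear_combination (evζ ζ u.im * evζ ζ v.im) * hζ

omit [IsDomain A] [IsDomain R] [IsFractionRing R L] [IsScalarTower A R L] in
lemma qE_add (u v : QS C'.d b' c') : C'.qE ζ θ (u + v) = C'.qE ζ θ u + C'.qE ζ θ v := by
  simp only [qE, QuadraticAlgebra.re_add, QuadraticAlgebra.im_add, map_add]
  ring

omit [IsDomain A] [IsDomain R] [IsFractionRing R L] [IsScalarTower A R L] in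
lemma qE_qc (a : A) : C'.qE ζ θ (qc a : QS C'.d b' c') = algebraMap A L a := by
  simp only [qE, qc, evζ_C, map_zero, zero_mul, add_zero]

variable (hx0 : C'.a ≠ 0) (hθ : algebraMap A L C'.a * θ = algebraMap R L (C'.B 1))
  (hbe : C'.b = C'.a * b' + C'.d * b'') (hce : C'.c = C'.a * c' + C'.d * c'')

include hζ hx0 hθ hbe hce in
lemma qE_qG (z : R) : C'.qE ζ θ (C'.qG b' b'' c' c'' z) = algebraMap R L z := by
  have hxy' : C'.a * (1 : A) ^ 0 ≠ 0 := by rw [pow_zero, mul_one]; exact hx0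
  have hθ' : algebraMap A L (C'.a * (1 : A) ^ 0) * θ = algebraMap R L (C'.B 1) := by
    rw [pow_zero, mul_one]; exact hθ
  have hβ := C'.ev_pV hxy' hθ'
  simp only [pV, map_add, map_mul, map_pow, pow_zero, mul_one, mul_zero, evζ_C, evζ_X,
      map_one, one_pow, hbe, hce] at hβ
  conv_rhs => rw [C'.eq_el z, el]
  rw [qG, qE]
  simp only [map_add, map_mul, evζ_C, evζ_X, ← IsScalarTower.algebraMap_apply A R L]
  rw [← hθ, ← hβ]
  linear_combination (algebraMap A L (C'.B.repr z 2) * algebraMap A L C'.a) * hζ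

include hζ hx0 hθ hbe hce in
lemma qE_qχ (hd0 : C'.d ≠ 0) : C'.qE ζ θ (C'.qχ b' b'' c' c'') = 0 := by
  have hxy' : C'.a * (1 : A) ^ 0 ≠ 0 := by rw [pow_zero, mul_one]; exact hx0
  have hθ' : algebraMap A L (C'.a * (1 : A) ^ 0) * θ = algebraMap R L (C'.B 1) := by
    rw [pow_zero, mul_one]; exact hθ
  have hφ := C'.ev_pχ (ρ := C'.d) hxy' hθ' (by rw [pow_zero, one_mul])
  have hdL := C'.algL_ne (L := L) hxy' hd0
  simp only [pχ, pV, map_add, map_mul, map_pow, pow_zero, mul_one, mul_zero, evζ_C, evζ_X,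
      map_one, one_pow, hbe, hce] at hφ
  apply mul_left_cancel₀ hdL
  simp only [qχ, qE, map_add, map_sub, map_mul, map_one, evζ_C, evζ_X]
  linear_combination hφ + (algebraMap A L b'' * algebraMap A L C'.d +
    algebraMap A L C'.a * θ) * hζ

/-- `ψ = a θ + b'' y` -/
noncomputable def qΨ (b'' : A) : R := C'.el (b'' * C'.d) 1 0

include hθ in
omit [IsDomain A] [IsDomain R] [IsFractionRing R L] in
lemma qΨ_eq : algebraMap R L (C'.qΨ b'') = algebraMap A L C'.a * θ +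
    algebraMap A L b'' * algebraMap A L C'.d := by
  rw [qΨ, el, hθ]
  simp only [map_add, map_mul, map_zero, map_one, zero_mul, add_zero, one_mul,
    ← IsScalarTower.algebraMap_apply A R L]
  ring

variable (ha : C'.a ∈ F.F 1) (hb : C'.b ∈ F.F 1) (hc : C'.c ∈ F.F 1) (hd' : C'.d ∈ F.F 1)
  (hr0 : 1 - b'' * c' ∈ F.F 1) (hr1 : c'' - b'' * b' ∈ F.F 1)

include hx0 hθ hbe hce hc in
lemma qΨ_θ : ∃ z1 ∈ GF C'.B F (Wc 1) 1, algebraMap R L (C'.qΨ b'') * θ = algebraMap R L z1 := by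
  have hxy' : C'.a * (1 : A) ^ 0 ≠ 0 := by rw [pow_zero, mul_one]; exact hx0
  have hθ' : algebraMap A L (C'.a * (1 : A) ^ 0) * θ = algebraMap R L (C'.B 1) := by
    rw [pow_zero, mul_one]; exact hθ
  have hβ := C'.ev_pV hxy' hθ'
  simp only [pV, map_add, map_mul, map_pow, pow_zero, mul_one, mul_zero, evζ_C, evζ_X,
      map_one, one_pow] at hβ
  refine ⟨C'.el (-C'.c) (-b') 1, ?_, ?_⟩
  · rw [el_mem]
    exact ⟨neg_mem hc, F.mem_zero _, F.mem_zero _⟩
  · rw [C'.qΨ_eq hθ, el]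
    simp only [map_add, map_mul, map_neg, map_one, ← IsScalarTower.algebraMap_apply A R L]
    rw [← hθ, ← hβ, hbe]
    simp only [map_add, map_mul]
    ring

include hζ hx0 hθ hbe hce ha hb hc hd' hr0 hr1 in
lemma qE_clear (hd0 : C'.d ≠ 0) (Q : QS C'.d b' c') :
    ∃ N, ∃ s ∈ GF C'.B F (Wc 1) N, algebraMap R L (C'.qΨ b'') ^ N * C'.qE ζ θ Q =
      algebraMap R L s := by
  have hb' := C'.hb ha hb hc hd'
  obtain ⟨z1, hz1, hz1'⟩ := C'.qΨ_θ (F := F) hx0 hθ hbe hce hc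
  have hΨ : C'.qΨ b'' ∈ GF C'.B F (Wc 1) 1 := by
    rw [qΨ, el_mem]
    exact ⟨Ideal.mul_mem_left _ _ hd', F.mem_zero _, F.mem_zero _⟩
  obtain ⟨z2, hz2, hz2'⟩ : ∃ z2 ∈ GF C'.B F (Wc 1) 2,
      algebraMap R L (C'.qΨ b'') ^ 2 * ζ = algebraMap R L z2 := by
    refine ⟨-(algebraMap A R (c'' - b'' * b') * z1 + algebraMap A R (1 - b'' * c') * C'.qΨ b''),
      ?_, ?_⟩
    · apply Submodule.neg_mem
      apply Submodule.add_mem
      · exact mul_le_GF C'.B F (Wc 1) hb' (C'.algebraMap_mem F 1 hr1) hz1 (by omega)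
      · exact mul_le_GF C'.B F (Wc 1) hb' (C'.algebraMap_mem F 1 hr0) hΨ (by omega)
    · have h1 := C'.qE_qχ hζ hx0 hθ hbe hce hd0
      simp only [qχ, qE, map_add, map_sub, map_mul, map_one, evζ_C, evζ_X] at h1
      have h2 := C'.qΨ_eq (b'' := b'') hθ
      simp only [map_neg, map_add, map_sub, map_mul, map_one,
        ← IsScalarTower.algebraMap_apply A R L]
      rw [← hz1']
      linear_combination (algebraMap R L (C'.qΨ b'')) * h1 +
        (algebraMap R L (C'.qΨ b'') * ζ) * h2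
  have key : ∀ (f : A[X]) (N : ℕ), 2 * f.natDegree ≤ N → ∃ s ∈ GF C'.B F (Wc 1) N,
      algebraMap R L (C'.qΨ b'') ^ N * evζ ζ f = algebraMap R L s := by
    intro f N hN
    refine ⟨∑ i ∈ Finset.range (f.natDegree + 1), algebraMap A R (f.coeff i) *
      (C'.qΨ b'' ^ (N - 2 * i) * z2 ^ i), ?_, ?_⟩
    · apply Submodule.sum_mem
      intro i hi
      rw [Finset.mem_range] at hi
      apply mul_le_GF C'.B F (Wc 1) hb' (mem_GF_zero C'.B F (Wc 1) _)
        (mul_mem_GF C'.B F (Wc 1) hb' (pow_mem_GF C'.B F (Wc 1) hb' hΨ _)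
          (pow_mem_GF C'.B F (Wc 1) hb' hz2 i))
      omega
    · rw [evζ, coe_eval₂RingHom, eval₂_eq_sum_range, Finset.mul_sum, map_sum]
      apply Finset.sum_congr rfl
      intro i hi
      rw [Finset.mem_range] at hi
      have e1 : algebraMap R L (C'.qΨ b'') ^ N = algebraMap R L (C'.qΨ b'') ^ (N - 2 * i) *
          (algebraMap R L (C'.qΨ b'') ^ 2) ^ i := by
        rw [← pow_mul, ← pow_add]; congr 1; omega
      have e2 : (algebraMap R L (C'.qΨ b'') ^ 2) ^ i * ζ ^ i = algebraMap R L z2 ^ i := by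
        rw [← mul_pow, hz2']
      rw [map_mul, ← IsScalarTower.algebraMap_apply A R L, map_mul, map_pow, map_pow, ← e2, e1]
      ring
  obtain ⟨M, hM⟩ : ∃ M, M = 2 * max Q.re.natDegree Q.im.natDegree := ⟨_, rfl⟩
  have m1 : 2 * Q.re.natDegree ≤ M := by
    rw [hM]; exact Nat.mul_le_mul_left _ (le_max_left _ _)
  have m2 : 2 * Q.im.natDegree ≤ M := by
    rw [hM]; exact Nat.mul_le_mul_left _ (le_max_right _ _)
  obtain ⟨s1, hs1, hs1'⟩ := key Q.re (M + 1) (by omega)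
  obtain ⟨s2, hs2, hs2'⟩ := key Q.im M m2
  refine ⟨M + 1, s1 + s2 * z1, Submodule.add_mem _ hs1
    (mul_mem_GF C'.B F (Wc 1) hb' hs2 hz1), ?_⟩
  rw [map_add, map_mul, ← hs1', ← hs2', ← hz1', qE, pow_succ]
  ring

end ev

/-- **The bound for the quadratic chart.** -/
theorem quad_bound {L : Type v} [Field L] [Algebra R L] [IsFractionRing R L] [Algebra A L]
    [IsScalarTower A R L] (ha : C'.a ∈ F.F 1) (hb : C'.b ∈ F.F 1) (hc : C'.c ∈ F.F 1)
    (hd' : C'.d ∈ F.F 1) (hx0 : C'.a ≠ 0) (hd0 : C'.d ≠ 0)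
    (hbe : C'.b = C'.a * b' + C'.d * b'') (hce : C'.c = C'.a * c' + C'.d * c'')
    (hr0 : 1 - b'' * c' ∈ F.F 1) (hr1 : c'' - b'' * b' ∈ F.F 1)
    (hI1 : (Ideal.span {C'.d}).IsPrime)
    (hA1 : ∀ r0 r1 : A, r0 ^ 2 - b' * r0 * r1 + c' * r1 ^ 2 ∈ Ideal.span {C'.d} →
      r0 ∈ Ideal.span {C'.d} ∧ r1 ∈ Ideal.span {C'.d})
    (hI2 : (Ideal.span {C'.a, C'.d}).IsPrime)
    (hA2 : ∀ r0 r1 : A, r0 ^ 2 - b' * r0 * r1 + c' * r1 ^ 2 ∈ Ideal.span {C'.a, C'.d} →
      r0 ∈ Ideal.span {C'.a, C'.d} ∧ r1 ∈ Ideal.span {C'.a, C'.d})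
    (hyx : ¬ C'.d ∣ C'.a)
    (hP : ¬ (1 - b'' * c' ∈ Ideal.span {C'.a, C'.d} ∧
      c'' - b'' * b' ∈ Ideal.span {C'.a, C'.d}))
    {r : ℕ} {g : R} (hg : g ≠ 0) {θ : L} (hθ : algebraMap A L C'.a * θ = algebraMap R L (C'.B 1))
    (hdiv : ∀ l : A, ∃ h : R, algebraMap A R C'.a ^ r * h = g * (C'.el (-(C'.a * l)) 1 0) ^ r)
    {n0 n1 : ℕ} (hn0 : Algebra.norm A g ∉ F.F (n0 + 1)) {g0 g1 g2 : A} (hge : g = C'.el g0 g1 g2)
    (hn1 : C'.sh g0 g1 g2 ∈ GF C'.B F (Wc 1) n1) (h1F : (1 : A) ∉ F.F 1)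
    (hbt : ∀ n z, z ∈ GF C'.B F (Wc 1) n → z * z ∈ GF C'.B F (Wc 1) (2 * n + 1) →
      z ∈ GF C'.B F (Wc 1) (n + 1)) : 2 * n1 + r ≤ 2 * n0 := by
  classical
  have hb' := C'.hb ha hb hc hd'
  obtain ⟨g', hg'⟩ : ∃ g', g' = C'.sh g0 g1 g2 := ⟨_, rfl⟩
  obtain ⟨ν, hν⟩ : ∃ ν, ν = Algebra.norm A g := ⟨_, rfl⟩
  have hgg : g * g' = algebraMap A R ν := by
    rw [hg', hge, mul_sh, ← norm_el, ← hge, hν]
  have hyd : ∀ u v : QS C'.d b' c', qc C'.d ∣ u * v → qc C'.d ∣ u ∨ qc C'.d ∣ v := by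
    intro u v huv
    have h1 : QM (Ideal.span {C'.d}) (u * v) := QM_iff_one.2 huv
    rcases QM_mul hI1 (Ideal.subset_span rfl) hA1 h1 with h | h
    · exact Or.inl (QM_iff_one.1 h)
    · exact Or.inr (QM_iff_one.1 h)
  have hreg : ∀ u v : QS C'.d b' c', qc C'.d * u = qc C'.d * v → u = v := by
    intro u v huv
    have h1 := congrArg (fun w => w.re) huv
    have h2 := congrArg (fun w => w.im) huv
    simp only [qc_mul_re, qc_mul_im] at h1 h2
    exact qs_ext (mul_left_cancel₀ (C_ne_zero.2 hd0) h1) (mul_left_cancel₀ (C_ne_zero.2 hd0) h2)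
  have hyx' : ¬ (qc C'.d : QS C'.d b' c') ∣ qc C'.a := by
    intro h
    have h1 : QM (Ideal.span {C'.d}) (qc C'.a : QS C'.d b' c') := QM_iff_one.2 h
    have h2 := h1.1
    change C C'.a ∈ _ at h2
    rw [Ideal.mem_map_C_iff] at h2
    have h3 := h2 0
    rw [coeff_C_zero, Ideal.mem_span_singleton] at h3
    exact hyx h3
  have hone : ¬ QM (Ideal.span {C'.a, C'.d}) (1 : QS C'.d b' c') := by
    intro h
    have h2 := h.1
    rw [Ideal.mem_map_C_iff] at h2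
    have h3 := h2 0
    have e : ((1 : QS C'.d b' c').re).coeff 0 = 1 := by
      change (1 : A[X]).coeff 0 = 1
      simp
    rw [e] at h3
    exact hI2.ne_top ((Ideal.eq_top_iff_one _).2 h3)
  have hP2 : (Ideal.span {(qc C'.a : QS C'.d b' c'), qc C'.d}).IsPrime := by
    refine ⟨?_, ?_⟩
    · intro h
      rw [Ideal.eq_top_iff_one, ← QM_iff_two] at h
      exact hone h
    · intro u v huv
      rw [← QM_iff_two] at huv
      rw [← QM_iff_two, ← QM_iff_two]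
      exact QM_mul hI2 (Ideal.subset_span (by simp)) hA2 huv
  have hχ : C'.qχ b' b'' c' c'' ∉ Ideal.span {(qc C'.a : QS C'.d b' c'), qc C'.d} := by
    intro h
    rw [← QM_iff_two] at h
    obtain ⟨h1, h2⟩ := h
    rw [Ideal.mem_map_C_iff] at h1 h2
    have h3 := h1 0
    have h4 := h2 0
    simp only [qχ, coeff_add, mul_coeff_zero, coeff_X_zero, mul_zero, zero_add,
      coeff_C_zero] at h3 h4
    exact hP ⟨h3, h4⟩
  -- the key relation
  obtain ⟨h, hh⟩ := hdiv 0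
  obtain ⟨s, hs⟩ := C'.rel_w hg hx0 0 hh hge
  have hph : C'.ph 0 = C'.d := by rw [ph]; ring
  rw [hph, ← hg'] at hs
  obtain ⟨H1, hH1⟩ := C'.qG_mul b' b'' c' c'' hbe hce (algebraMap A R (-C'.d) ^ r) g'
  obtain ⟨H2, hH2⟩ := C'.qG_mul b' b'' c' c'' hbe hce ((C'.el (-(C'.a * 0)) 1 0) ^ r) s
  have hpow : ∀ n, ∃ H, C'.qG b' b'' c' c'' ((C'.el (-(C'.a * 0)) 1 0) ^ n) =
      (qc C'.a) ^ n * (⟨0, 1⟩ : QS C'.d b' c') ^ n + C'.qχ b' b'' c' c'' * H := by
    intro n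
    induction n with
    | zero =>
      refine ⟨0, ?_⟩
      have e : (1 : R) = C'.el 1 0 0 := by simp [el]
      rw [pow_zero, pow_zero, pow_zero, e, qG_el, mul_zero, add_zero, mul_one]
      apply QuadraticAlgebra.ext
      · change _ = (1 : A[X])
        simp
      · change _ = (0 : A[X])
        simp
    | succ n ih =>
      obtain ⟨H, hH⟩ := ih
      obtain ⟨H', hH'⟩ := C'.qG_mul b' b'' c' c'' hbe hce ((C'.el (-(C'.a * 0)) 1 0) ^ n)
        (C'.el (-(C'.a * 0)) 1 0)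
      have e : C'.qG b' b'' c' c'' (C'.el (-(C'.a * 0)) 1 0) =
          qc C'.a * (⟨0, 1⟩ : QS C'.d b' c') := by
        rw [qG_el]
        apply QuadraticAlgebra.ext
        · rw [qc_mul_re]; simp
        · rw [qc_mul_im]; simp
      rw [e] at hH'
      refine ⟨H * (qc C'.a * (⟨0, 1⟩ : QS C'.d b' c')) + H', ?_⟩
      rw [pow_succ, hH', hH, pow_succ, pow_succ]
      ring
  obtain ⟨H3, hH3⟩ := hpow r
  have hconst : ∀ a : A, C'.qG b' b'' c' c'' (algebraMap A R a) = qc a := by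
    intro a
    have e : algebraMap A R a = C'.el a 0 0 := by simp [el]
    rw [e, qG_el]
    apply QuadraticAlgebra.ext
    · simp [qc]
    · simp [qc]
  have hqcpow : ∀ (a : A) (n : ℕ), (qc (a ^ n) : QS C'.d b' c') = qc a ^ n := by
    intro a n
    induction n with
    | zero =>
      rw [pow_zero, pow_zero]
      apply QuadraticAlgebra.ext
      · change C 1 = (1 : A[X]); simp
      · rfl
    | succ n ih =>
      rw [pow_succ, pow_succ, ← ih]
      apply QuadraticAlgebra.ext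
      · rw [qc_mul_re]; simp [qc]
      · rw [qc_mul_im]; simp [qc]
  have hneg : (qc ((-C'.d) ^ r) : QS C'.d b' c') = (-1) ^ r * qc C'.d ^ r := by
    rw [hqcpow, ← mul_pow]
    congr 1
    apply QuadraticAlgebra.ext
    · simp [qc]
    · simp [qc]
  rw [hs, hH2, hH3, ← map_pow, hconst, hneg] at hH1
  have hkey : qc C'.d ^ r * C'.qG b' b'' c' c'' g' = qc C'.a ^ r * ((-1) ^ r *
      (⟨0, 1⟩ : QS C'.d b' c') ^ r * C'.qG b' b'' c' c'' s) + C'.qχ b' b'' c' c'' *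
      ((-1) ^ r * (H3 * C'.qG b' b'' c' c'' s + H2 - H1)) := by
    have e : ((-1 : QS C'.d b' c') ^ r) * (-1) ^ r = 1 := by
      rw [← mul_pow]; simp
    linear_combination (-((-1) ^ r)) * hH1 - (qc C'.d ^ r * C'.qG b' b'' c' c'' g') * e
  obtain ⟨Q', H', hQ'⟩ := hart_gen hyd hreg hyx' hP2 hχ r r hkey
  -- evaluation
  have hdL : algebraMap A L C'.d ≠ 0 :=
    C'.algL_ne (o := 0) (y := 1) (by rw [one_pow, mul_one]; exact hx0) hd0
  obtain ⟨ζ, hζ⟩ : ∃ ζ : L, algebraMap A L C'.d * ζ = θ ^ 2 + algebraMap A L b' * θ +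
      algebraMap A L c' := by
    refine ⟨(θ ^ 2 + algebraMap A L b' * θ + algebraMap A L c') / algebraMap A L C'.d, ?_⟩
    rw [mul_div_cancel₀ _ hdL]
  obtain ⟨N, t, ht, ht'⟩ := C'.qE_clear (F := F) hζ hx0 hθ hbe hce ha hb hc hd' hr0 hr1 hd0 Q'
  have e1 : (C'.qΨ b'') ^ N * g' = algebraMap A R (C'.a ^ r) * t := by
    apply IsFractionRing.injective R L
    have h1 := congrArg (C'.qE ζ θ) hQ'
    rw [C'.qE_add, C'.qE_mul hζ, C'.qE_mul hζ, C'.qE_qχ hζ hx0 hθ hbe hce hd0, zero_mul, add_zero,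
      C'.qE_qG hζ hx0 hθ hbe hce, ← hqcpow, C'.qE_qc] at h1
    rw [map_mul, map_mul, map_pow, h1, ← ht', ← IsScalarTower.algebraMap_apply A R L]
    ring
  have m1 : (C'.qΨ b'') ^ N * g' ∈ GF C'.B F (Wc 1) (r + N) := by
    rw [e1]
    apply mul_mem_GF C'.B F (Wc 1) hb' _ ht
    apply C'.algebraMap_mem
    have := F.pow_mem ha r
    rwa [mul_one] at this
  have m2 := C'.nu_g_mem ha hb hc hd' hg hge hn1
  rw [← hν] at m2 hn0
  by_contra hcon
  push Not at hcon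
  have m3 := mul_mem_GF C'.B F (Wc 1) hb' m2 m1
  have e2 : algebraMap A R ν * g * ((C'.qΨ b'') ^ N * g') = (ν ^ 2) • (C'.qΨ b'') ^ N := by
    rw [Algebra.smul_def, map_pow, pow_two, ← hgg]
    ring
  rw [e2] at m3
  have hν2 : ν ^ 2 ∉ F.F (2 * n0 + 1) := by
    have := F.not_mem hn0 hn0
    rw [pow_two]
    have e : n0 + n0 + 1 = 2 * n0 + 1 := by ring
    rwa [e] at this
  have hΨ : C'.qΨ b'' ∈ GF C'.B F (Wc 1) 1 := by
    rw [qΨ, el_mem]
    exact ⟨Ideal.mul_mem_left _ _ hd', F.mem_zero _, F.mem_zero _⟩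
  have hΨ' : C'.qΨ b'' ∉ GF C'.B F (Wc 1) (1 + 1) := by
    rw [qΨ, el_mem]
    rintro ⟨_, h, _⟩
    exact h1F h
  have := pow_not_mem_GF C'.B F (Wc 1) hb' hbt hΨ hΨ' N
  rw [mul_one] at this
  apply this
  refine cancel_GF C'.B F (Wc 1) hν2 (m := N + 1) ?_
  exact GF_le C'.B F (Wc 1) m3 (by omega)

end Cub

section main

variable {k : Type u} [Field k] {d : ℕ} {p : ℕ} [hp : Fact p.Prime] [CharP k p]
  {R : Type v} [CommRing R] [IsDomain R] [IsLocalRing R] [IsIntegrallyClosed R] [CharP R p]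
  [Algebra (MvPowerSeries (Fin d) k) R]
  (K : Type u) (L : Type v) [Field K] [Algebra (MvPowerSeries (Fin d) k) K]
  [IsFractionRing (MvPowerSeries (Fin d) k) K]
  [Field L] [Algebra R L] [IsFractionRing R L] [Algebra K L] [Algebra (MvPowerSeries (Fin d) k) L]
  [IsScalarTower (MvPowerSeries (Fin d) k) R L] [IsScalarTower (MvPowerSeries (Fin d) k) K L]

include K L in
/-- The quadratic chart case. -/
theorem quadCase (hT : ∀ E, Nonempty (FTr (p ^ E) k)) (hB : Big p d R) (hd : 2 ≤ d) :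
    QuadCase p k d R := by
  intro C' hC hI b' b'' c' c'' hbe hce hr0 hr1 hroot hP
  have ha2 : C'.a ∉ (oF k d).F 2 := hI.not_mem
  have ha0 : C'.a ≠ 0 := by
    intro h
    rw [h] at ha2
    exact ha2 (Ideal.zero_mem _)
  have hd2 : C'.d ∉ (oF k d).F 2 := hI.symm.not_mem
  have hd0 : C'.d ≠ 0 := by
    intro h
    rw [h] at hd2
    exact hd2 (Ideal.zero_mem _)
  obtain ⟨θ, hθ⟩ := C'.exists_θ L ha0
  obtain ⟨r, g, g0, g1, g2, n0, n1, N, hg, hge, hn0, hn1, hest, hN, hGT⟩ :=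
    hC.pkg1 K L hT hB ha2 hθ
  obtain ⟨σ, i, j, hij, h1, h2⟩ := exists_aut2 hC.a hC.d hI
  have hA1 : ∀ r0 r1 : MvPowerSeries (Fin d) k,
      r0 ^ 2 - b' * r0 * r1 + c' * r1 ^ 2 ∈ Ideal.span {C'.d} →
      r0 ∈ Ideal.span {C'.d} ∧ r1 ∈ Ideal.span {C'.d} := by
    intro r0 r1 h
    have e : Ideal.span {C'.d} = Ideal.span {σ (MvPowerSeries.X j), σ (MvPowerSeries.X j)} := by
      rw [Set.pair_eq_singleton, h2]
    rw [e] at h ⊢
    exact anis hT hroot σ j j h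
  have hA2 : ∀ r0 r1 : MvPowerSeries (Fin d) k,
      r0 ^ 2 - b' * r0 * r1 + c' * r1 ^ 2 ∈ Ideal.span {C'.a, C'.d} →
      r0 ∈ Ideal.span {C'.a, C'.d} ∧ r1 ∈ Ideal.span {C'.a, C'.d} := by
    intro r0 r1 h
    rw [← h1, ← h2] at h ⊢
    exact anis hT hroot σ i j h
  have h3 := C'.quad_bound (L := L) hC.a hC.b hC.c hC.d ha0 hd0 hbe hce hr0 hr1
    ((Ideal.span_singleton_prime hd0).2 (prime_of_order hC.d hd2)) hA1
    (indep_prime hC.a hC.d hI) hA2 (hI.symm.not_dvd hC.d) hP hg hθ (C'.hdiv_of_GT hθ hGT) hn0 hge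
    hn1 one_not_mem (hC.bt hT hB hd)
  obtain ⟨e, rfl⟩ : ∃ e, d = e + 2 := ⟨d - 2, by omega⟩
  have e1 : 2 * (e + 2) - 3 = 2 * e + 1 := by omega
  rw [e1] at hN
  have e2 : (2 * e + 1) * r = 2 * (e * r) + r := by ring
  have e3 : (e + 2) * r = e * r + 2 * r := by ring
  rw [e2] at hN
  rw [e3] at hest
  omega

include K L in
/-- **The cubic case, in general.** -/
theorem Cub.Pos.cubic' [Infinite k] {C' : Cub (MvPowerSeries (Fin d) k) R} (hC : C'.Pos)
    (hT : ∀ E, Nonempty (FTr (p ^ E) k)) (hB : Big p d R) (hd : 2 ≤ d) : IsQGorenstein p R :=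
  hC.cubic K L hT hB hd (quadCase K L hT hB hd)

end main

end Run7.h889
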