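import Pool.Agent.Run7.h889.Min

set_option autoImplicit false
set_option linter.unusedSimpArgs false
set_option linter.unusedVariables false
set_option linter.unusedSectionVars false
set_option linter.deprecated false

namespace Run7.h889

open Module nonZeroDivisors IsLocalRing

universe u v

section gram

variable {A : Type u} {R : Type v} [CommRing A] [IsDomain A] [CommRing R] [IsDomain R] [Algebra A R]
variable (K : Type u) (L : Type v) [Field K] [Algebra A K] [IsFractionRing A K]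
  [Field L] [Algebra R L] [IsFractionRing R L] [Algebra K L] [Algebra A L]
  [IsScalarTower A R L] [IsScalarTower A K L]
variable {ι : Type} [Fintype ι] [Nonempty ι] (b : Basis ι A R) {ε : R →ₗ[A] A}
  (hε : ∃ x, ε x ≠ 0)

include K L hε in
/-- If the form `ε(xy)` is unimodular then `R` is quasi-Gorenstein. -/
theorem gram_qgor [IsIntegrallyClosed R] {p : ℕ} [hp : Fact p.Prime] [CharP R p]
    (T : FTr (p ^ 1) A) (hG : ∀ a : ι → A, ∃ r : R, ∀ j, ε (r * b j) = a j) :
    IsQGorenstein p R := by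
  classical
  have hW : ∀ z ∈ WW K L b ε, ∃ r : R, z = algebraMap R L r := by
    intro z hz
    choose a ha using fun j => hz (b j)
    obtain ⟨r, hr⟩ := hG a
    refine ⟨r, ?_⟩
    rw [← sub_eq_zero]
    apply eL_nondeg K L b hε
    intro x
    rw [← b.sum_repr x, map_sum, Finset.mul_sum, map_sum]
    apply Finset.sum_eq_zero
    intro j _
    rw [Algebra.smul_def, map_mul (algebraMap R L), ← IsScalarTower.algebraMap_apply A R L,
      mul_left_comm, eL_smul_A, sub_mul, map_sub, ha, ← map_mul (algebraMap R L), eL_algebraMap, hr,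
      sub_self, mul_zero]
  have hW1 : ∀ n, ∀ z ∈ (WW K L b ε) ^ n, ∃ r : R, z = algebraMap R L r := by
    have hle : WW K L b ε ≤ 1 := by
      intro z hz
      obtain ⟨r, hr⟩ := hW z hz
      rw [Submodule.mem_one]
      exact ⟨r, hr.symm⟩
    intro n z hz
    have h1 : (WW K L b ε) ^ n ≤ 1 := by
      calc (WW K L b ε) ^ n ≤ 1 ^ n := pow_le_pow_left' hle n
        _ = 1 := one_pow n
    have h2 := h1 hz
    rw [Submodule.mem_one] at h2
    obtain ⟨r, hr⟩ := h2
    exact ⟨r, hr.symm⟩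
  have h1W : ∀ n, (1 : L) ∈ (WW K L b ε) ^ n := by
    intro n
    have := Submodule.pow_mem_pow _ (one_mem_WW K L b ε) n
    rwa [one_pow] at this
  refine qgor_criterion K L b hε p T 1 le_rfl 1 one_ne_zero ⟨1, one_ne_zero, ?_⟩ ?_ ?_
  · intro z hz
    obtain ⟨r, hr⟩ := hW1 _ z hz
    exact ⟨r, by rw [one_mul, hr]⟩
  · intro g hg
    obtain ⟨r, hr⟩ := hg 0 1 (h1W _)
    refine ⟨r, ?_⟩
    rw [Fin.prod_univ_one, one_mul, ← hr, mul_one]
  · intro h hh
    obtain ⟨r, hr⟩ := hh (fun _ => 1) (by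
      intro i z hz
      obtain ⟨r, hr⟩ := hW1 _ z hz
      exact ⟨r, by rw [one_mul, hr]⟩)
    refine ⟨r, ?_⟩
    rw [← hr, Fin.prod_univ_one, mul_one, one_mul]

end gram

section small

variable {A : Type u} {R : Type v} [CommRing A] [IsDomain A] [CommRing R] [IsDomain R] [Algebra A R]
variable (K : Type u) (L : Type v) [Field K] [Algebra A K] [IsFractionRing A K]
  [Field L] [Algebra R L] [IsFractionRing R L] [Algebra K L] [Algebra A L]
  [IsScalarTower A R L] [IsScalarTower A K L]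
  [IsIntegrallyClosed R] {p : ℕ} [hp : Fact p.Prime] [CharP R p]

include K L in
/-- multiplicity one -/
theorem one_qgor (T : FTr (p ^ 1) A) (b : Basis (Fin 1) A R) (hb : b 0 = 1) : IsQGorenstein p R := by
  have hε : ∃ x, b.coord 0 x ≠ 0 := ⟨b 0, by simp⟩
  refine gram_qgor K L b hε T ?_
  intro a
  refine ⟨a 0 • b 0, ?_⟩
  intro j
  fin_cases j
  change b.coord 0 (a 0 • b 0 * b 0) = a 0
  rw [smul_mul_assoc, map_smul, hb, one_mul, ← hb]
  simp

include K L in
/-- multiplicity two -/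
theorem two_qgor (T : FTr (p ^ 1) A) (b : Basis (Fin 2) A R) (hb : b 0 = 1) : IsQGorenstein p R := by
  have hε : ∃ x, b.coord 1 x ≠ 0 := ⟨b 1, by simp⟩
  refine gram_qgor K L b hε T ?_
  intro a
  obtain ⟨c, hc⟩ : ∃ c, c = b.repr (b 1 * b 1) 1 := ⟨_, rfl⟩
  refine ⟨(a 1 - a 0 * c) • b 0 + a 0 • b 1, ?_⟩
  intro j
  fin_cases j
  · change b.coord 1 (((a 1 - a 0 * c) • b 0 + a 0 • b 1) * b 0) = a 0
    rw [add_mul, smul_mul_assoc, smul_mul_assoc, map_add, map_smul, map_smul, hb, one_mul, mul_one,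
      ← hb]
    simp
  · change b.coord 1 (((a 1 - a 0 * c) • b 0 + a 0 • b 1) * b 1) = a 1
    rw [add_mul, smul_mul_assoc, smul_mul_assoc, map_add, map_smul, map_smul, hb, one_mul]
    have : b.coord 1 (b 1 * b 1) = c := by rw [hc, Basis.coord_apply]
    rw [this]
    simp

end small

section three

variable {k : Type u} [Field k] {d : ℕ} {p : ℕ} [hp : Fact p.Prime] [CharP k p]
  {R : Type v} [CommRing R] [IsDomain R] [IsLocalRing R] [IsIntegrallyClosed R] [CharP R p]
  [Algebra (MvPowerSeries (Fin d) k) R]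
  (K : Type u) (L : Type v) [Field K] [Algebra (MvPowerSeries (Fin d) k) K]
  [IsFractionRing (MvPowerSeries (Fin d) k) K]
  [Field L] [Algebra R L] [IsFractionRing R L] [Algebra K L] [Algebra (MvPowerSeries (Fin d) k) L]
  [IsScalarTower (MvPowerSeries (Fin d) k) R L] [IsScalarTower (MvPowerSeries (Fin d) k) K L]

include K L in
/-- multiplicity three -/
theorem three_qgor [Infinite k] (B : Basis (Fin 3) (MvPowerSeries (Fin d) k) R) (hB0 : B 0 = 1)
    (hBm : ∀ i, i ≠ 0 → B i ∈ maximalIdeal R) (hR : Red k d R)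
    (hT : ∀ E, Nonempty (FTr (p ^ E) k)) (hB : Big p d R) (hd : 2 ≤ d) : IsQGorenstein p R := by
  classical
  have hb := hb_of_red (n := 2) B hB0 hBm hR hB hd
  have expand : ∀ z : R, z = algebraMap _ R (B.repr z 0) + algebraMap _ R (B.repr z 1) * B 1 +
      algebraMap _ R (B.repr z 2) * B 2 := by
    intro z
    conv_lhs => rw [← B.sum_repr z, Fin.sum_univ_three]
    rw [Algebra.smul_def, Algebra.smul_def, Algebra.smul_def, hB0, mul_one]
  have m : ∀ i j l : Fin 3, i ≠ 0 → j ≠ 0 → l ≠ 0 → B.repr (B i * B j) l ∈ (oF k d).F 1 := by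
    intro i j l hi hj hl
    have := hb i j l
    rw [W1_ne 2 hi, W1_ne 2 hj, W1_ne 2 hl] at this
    exact this
  obtain ⟨C', h1, h2, h3, h4, h5, h6⟩ := exists_cub B hB0 _ _ _ _ _ _ _ _ _ (expand (B 1 * B 2))
    (expand (B 1 * B 1)) (expand (B 2 * B 2))
  have n1 : (1 : Fin 3) ≠ 0 := by decide
  have n2 : (2 : Fin 3) ≠ 0 := by decide
  have hC : C'.Pos := by
    refine ⟨?_, ?_, ?_, ?_⟩
    · rw [h1]; exact m _ _ _ n1 n1 n2
    · rw [h2]
      exact Ideal.sub_mem _ (Ideal.mul_mem_left _ _ (m _ _ _ n1 n2 n2)) (m _ _ _ n1 n1 n1)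
    · rw [h3]
      exact Ideal.sub_mem _ (m _ _ _ n2 n2 n2) (Ideal.mul_mem_left _ _ (m _ _ _ n1 n2 n1))
    · rw [h4]; exact neg_mem (m _ _ _ n2 n2 n1)
  exact hC.cubic' K L hT hB hd

end three

end Run7.h889
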