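import Pool.Agent.Run7.h889.WQ

set_option autoImplicit false
set_option linter.unusedSimpArgs false
set_option linter.unusedVariables false
set_option linter.unusedSectionVars false
set_option linter.deprecated false

namespace Run7.h889

open MvPowerSeries
open scoped TensorProduct

universe u

section

variable {m : ℕ} {K : Type u} [Field K]

lemma X_prime' (s : Fin m) : Prime (X s : MvPowerSeries (Fin m) K) := by
  classical
  have hdom := dom_mv (m := m) K
  refine ⟨?_, ?_, ?_⟩
  · rw [X_def]
    exact mono_ne_zero _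
  · intro h
    have h1 := h.map (constantCoeff (σ := Fin m) (R := K))
    rw [constantCoeff_X] at h1
    exact not_isUnit_zero h1
  · intro f g hfg
    have key : ∀ h : MvPowerSeries (Fin m) K, X s ∣ h ↔
        rescale (fun i => if i = s then (0 : K) else 1) h = 0 := by
      intro h
      rw [X_dvd_iff]
      constructor
      · intro h1
        ext w
        rw [coeff_rescale, coeff_zero]
        by_cases hw : w s = 0
        · rw [h1 w hw, mul_zero]
        · rw [Finsupp.prod_fintype _ _ (by simp), Finset.prod_eq_zero (Finset.mem_univ s),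
            zero_mul]
          simp [hw]
      · intro h1 w hw
        have h2 := congrArg (coeff w) h1
        rw [coeff_rescale, coeff_zero, Finsupp.prod_fintype _ _ (by simp),
          Finset.prod_eq_one, one_mul] at h2
        · exact h2
        · intro i _
          by_cases hi : i = s
          · rw [hi, hw, pow_zero]
          · simp [hi]
    rw [key] at hfg ⊢
    rw [key]
    rw [map_mul] at hfg
    exact mul_eq_zero.1 hfg

variable (ep : Fin m → ℤ)

lemma split_mono (f : MvPowerSeries (Fin m) K) (v : Fin m →₀ ℕ) :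
    f = monomial v 1 * shift v f + restr {u | ¬ v ≤ u} f := by
  classical
  ext u
  rw [map_add, coeff_monomial_mul, coeff_restr, one_mul, coeff_shift]
  simp only [Set.mem_ofPred_eq]
  by_cases h : v ≤ u
  · rw [if_pos h, if_neg (not_not.2 h), add_zero, tsub_add_cancel_of_le h]
  · rw [if_neg h, if_pos h, zero_add]

lemma mem_of_mono (P : Ideal (WR ep K)) (T : Finset (Fin m →₀ ℕ))
    (hT : ∀ v ∈ T, ∃ hv : wt ep v = 0, Mon ep v hv ∈ P) :
    ∀ f : WR ep K, (∀ u, coeff u f.1 ≠ 0 → ∃ v ∈ T, v ≤ u) → f ∈ P := by
  classical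
  induction T using Finset.induction_on with
  | empty =>
    intro f hf
    have : f = 0 := by
      apply Subtype.ext
      ext u
      by_contra h
      obtain ⟨i, hi, _⟩ := hf u h
      simp at hi
    rw [this]
    exact P.zero_mem
  | insert v T _ ih =>
    intro f hf
    obtain ⟨hv, hvP⟩ := hT v (Finset.mem_insert_self _ _)
    have h1 := split_mono f.1 v
    have h2 : HasWt ep 0 (shift v f.1) := by
      have := hasWt_shift f.2 v
      rwa [hv, sub_zero] at this
    have h3 : f = Mon ep v hv * ⟨_, h2⟩ + ⟨restr {u | ¬ v ≤ u} f.1, hasWt_restr f.2 _⟩ :=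
      Subtype.ext h1
    rw [h3]
    apply P.add_mem (P.mul_mem_right _ hvP)
    apply ih (fun w hw => hT w (Finset.mem_insert_of_mem hw))
    intro u hu
    change coeff u (restr {u | ¬ v ≤ u} f.1) ≠ 0 at hu
    rw [coeff_restr] at hu
    split_ifs at hu with h
    · obtain ⟨w, hw, hw'⟩ := hf u hu
      rw [Finset.mem_insert] at hw
      rcases hw with rfl | hw
      · exact absurd hw' h
      · exact ⟨w, hw, hw'⟩
    · exact absurd rfl hu

lemma Mon_mem_max (v : Fin m →₀ ℕ) (hv : wt ep v = 0) (h0 : v ≠ 0) :
    Mon ep v hv ∈ IsLocalRing.maximalIdeal (WR ep K) := by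
  classical
  rw [mem_max]
  change constantCoeff (monomial v (1 : K)) = 0
  rw [← coeff_zero_eq_constantCoeff_apply, coeff_monomial, if_neg (Ne.symm h0)]

/-- setting variables to `0` -/
noncomputable def kill (a : Fin m → K) : WR ep K →+* MvPowerSeries (Fin m) K :=
  (rescale a).comp (wring ep K).subtype

lemma kill_apply (a : Fin m → K) (f : WR ep K) (u : Fin m →₀ ℕ) :
    coeff u (kill ep a f) = (∏ i, a i ^ u i) * coeff u f.1 := by
  change coeff u (rescale a f.1) = _
  rw [coeff_rescale, Finsupp.prod_fintype _ _ (by simp)]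

lemma kill_Mon (a : Fin m → K) (v : Fin m →₀ ℕ) (hv : wt ep v = 0) :
    Mon ep v hv ∈ RingHom.ker (kill ep a) ↔ ∏ i, a i ^ v i = 0 := by
  classical
  rw [RingHom.mem_ker]
  constructor
  · intro h1
    have h2 := congrArg (coeff v) h1
    rw [kill_apply] at h2
    change _ * coeff v (monomial v (1 : K)) = _ at h2
    rw [coeff_monomial_same, mul_one, coeff_zero] at h2
    exact h2
  · intro h1
    ext u
    rw [kill_apply]
    change _ * coeff u (monomial v (1 : K)) = _
    rw [coeff_monomial, coeff_zero]
    split_ifs with h3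
    · rw [h3, h1, zero_mul]
    · rw [mul_zero]

lemma kill_le (a b : Fin m → K) (h : ∀ i, b i = 0 ∨ b i = a i) :
    RingHom.ker (kill ep a) ≤ RingHom.ker (kill ep b) := by
  intro f hf
  rw [RingHom.mem_ker] at hf ⊢
  ext u
  have h1 := congrArg (coeff u) hf
  rw [kill_apply, coeff_zero] at h1
  rw [kill_apply, coeff_zero]
  by_cases h2 : ∀ i, b i = a i
  · rw [Finset.prod_congr rfl (fun i _ => by rw [h2 i])]
    exact h1
  · by_cases h3 : ∃ i, b i = 0 ∧ u i ≠ 0
    · obtain ⟨i, h4, h5⟩ := h3
      rw [Finset.prod_eq_zero (Finset.mem_univ i) (by rw [h4, zero_pow h5]), zero_mul]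
    · push Not at h3
      have : ∀ i ∈ Finset.univ, b i ^ u i = a i ^ u i := by
        intro i _
        rcases h i with h4 | h4
        · rw [h3 i h4, pow_zero, pow_zero]
        · rw [h4]
      rw [Finset.prod_congr rfl this]
      exact h1

lemma kill_prime (a : Fin m → K) : (RingHom.ker (kill ep a)).IsPrime := by
  have : IsDomain (MvPowerSeries (Fin m) K) := NoZeroDivisors.to_isDomain _
  exact RingHom.ker_isPrime _

variable (K) in
/-- lower bound for the dimension -/
lemma dim_ge (r : ℕ) (rank : Fin m → ℕ) (w : Fin r → (Fin m →₀ ℕ)) (hw : ∀ k, wt ep (w k) = 0)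
    (h1 : ∀ k i, w k i ≠ 0 → k.val ≤ rank i) (h2 : ∀ k, ∃ i, w k i ≠ 0 ∧ rank i = k.val) :
    ((r : ℕ) : WithBot ℕ∞) ≤ ringKrullDim (WR ep K) := by
  let a : ℕ → Fin m → K := fun k i => if rank i < k then 0 else 1
  let chn : Fin (r + 1) → PrimeSpectrum (WR ep K) := fun k => ⟨_, kill_prime ep (a k.val)⟩
  have hlt : ∀ i : Fin r, chn i.castSucc < chn i.succ := by
    intro k
    refine lt_of_le_of_ne (kill_le ep _ _ ?_) ?_
    · intro i
      simp only [a, Fin.val_succ, Fin.val_castSucc]
      by_cases h : rank i < k.val + 1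
      · left
        rw [if_pos h]
      · right
        rw [if_neg h, if_neg (by omega)]
    · intro h4
      have h5 : RingHom.ker (kill ep (a k.castSucc.val)) = RingHom.ker (kill ep (a k.succ.val)) :=
        congrArg PrimeSpectrum.asIdeal h4
      have h6 : Mon ep (w k) (hw k) ∈ RingHom.ker (kill ep (a k.succ.val)) := by
        rw [kill_Mon]
        obtain ⟨i, hi, hr⟩ := h2 k
        apply Finset.prod_eq_zero (Finset.mem_univ i)
        simp only [a, Fin.val_succ]
        rw [if_pos (by omega), zero_pow hi]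
      rw [← h5, kill_Mon] at h6
      apply one_ne_zero (α := K)
      rw [← h6]
      symm
      apply Finset.prod_eq_one
      intro i _
      simp only [a, Fin.val_castSucc]
      by_cases h : rank i < k.val
      · rw [if_pos h]
        have : w k i = 0 := by
          by_contra hc
          exact absurd (h1 k i hc) (by omega)
        rw [this, pow_zero]
      · rw [if_neg h, one_pow]
  unfold ringKrullDim
  rw [Order.le_krullDim_iff]
  exact ⟨⟨r, chn, hlt⟩, rfl⟩

variable (K) in
/-- upper bound for the dimension -/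
lemma dim_le (r : ℕ) (θ : Fin r → WR ep K)
    (hθ : ∀ k, θ k ∈ IsLocalRing.maximalIdeal (WR ep K))
    (hP : ∀ P : Ideal (WR ep K), P.IsPrime → (∀ k, θ k ∈ P) →
      IsLocalRing.maximalIdeal (WR ep K) ≤ P) :
    ringKrullDim (WR ep K) ≤ ((r : ℕ) : WithBot ℕ∞) := by
  rw [← IsLocalRing.maximalIdeal_height_eq_ringKrullDim (R := WR ep K)]
  have h1 : IsLocalRing.maximalIdeal (WR ep K) ∈ (Ideal.span (Set.range θ)).minimalPrimes := by
    refine ⟨⟨(IsLocalRing.maximalIdeal.isMaximal _).isPrime, ?_⟩, ?_⟩
    · rw [Ideal.span_le]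
      rintro _ ⟨i, rfl⟩
      exact hθ i
    · intro P hP' _
      exact hP P hP'.1 (fun k => hP'.2 (Ideal.subset_span ⟨k, rfl⟩))
  have h3 := Ideal.height_le_card_of_mem_minimalPrimes_span (Set.toFinite _) h1
  have h4 : (Set.range θ).ncard ≤ r := by
    rw [← Set.image_univ]
    refine (Set.ncard_image_le Set.finite_univ).trans ?_
    simp
  have h5 : (IsLocalRing.maximalIdeal (WR ep K)).height ≤ ((r : ℕ) : ℕ∞) :=
    h3.trans (by exact_mod_cast h4)
  exact WithBot.coe_le_coe.2 h5

end

end Run7.h889
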