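import Pool.Agent.Run7.h889.WEx

set_option autoImplicit false
set_option linter.unusedSimpArgs false
set_option linter.unusedVariables false
set_option linter.unusedSectionVars false
set_option linter.deprecated false

namespace Run7.h889

open MvPowerSeries
open scoped TensorProduct

universe u

/-- The weights `1, 1, -2, -1, 0, …, 0` of the variables. -/
def exw (n : ℕ) (i : Fin (n + 4)) : ℤ :=
  if i.val = 0 then 1 else if i.val = 1 then 1 else if i.val = 2 then -2
    else if i.val = 3 then -1 else 0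

section

variable (n : ℕ)

def vs : Fin (n + 4) := ⟨0, by omega⟩
def vt : Fin (n + 4) := ⟨1, by omega⟩
def vx : Fin (n + 4) := ⟨2, by omega⟩
def vy : Fin (n + 4) := ⟨3, by omega⟩

lemma cases_v (i : Fin (n + 4)) : i = vs n ∨ i = vt n ∨ i = vx n ∨ i = vy n ∨ 4 ≤ i.val := by
  rcases i with ⟨k, hk⟩
  simp only [vs, vt, vx, vy, Fin.mk.injEq]
  omega

lemma exw_s : exw n (vs n) = 1 := by simp [exw, vs]
lemma exw_t : exw n (vt n) = 1 := by simp [exw, vt]
lemma exw_x : exw n (vx n) = -2 := by simp [exw, vx]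
lemma exw_y : exw n (vy n) = -1 := by simp [exw, vy]
lemma exw_z {i : Fin (n + 4)} (h : 4 ≤ i.val) : exw n i = 0 := by
  unfold exw
  rw [if_neg (by omega), if_neg (by omega), if_neg (by omega), if_neg (by omega)]

lemma sum_ex (F : Fin (n + 4) → ℤ) : ∑ i, F i * exw n i =
    F (vs n) + F (vt n) - 2 * F (vx n) - F (vy n) := by
  rw [Fin.sum_univ_succ, Fin.sum_univ_succ, Fin.sum_univ_succ, Fin.sum_univ_succ,
    Finset.sum_eq_zero]
  · have e0 : (0 : Fin (n + 3 + 1)) = vs n := rfl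
    have e1 : (Fin.succ (0 : Fin (n + 2 + 1)) : Fin (n + 3 + 1)) = vt n := rfl
    have e2 : (Fin.succ (Fin.succ (0 : Fin (n + 1 + 1))) : Fin (n + 3 + 1)) = vx n := rfl
    have e3 : (Fin.succ (Fin.succ (Fin.succ (0 : Fin (n + 1)))) : Fin (n + 3 + 1)) = vy n := rfl
    rw [e0, e1, e2, e3, exw_s, exw_t, exw_x, exw_y]
    ring
  · intro i _
    rw [exw_z, mul_zero]
    simp only [Fin.val_succ]
    omega

lemma wt_ex (u : Fin (n + 4) →₀ ℕ) :
    wt (exw n) u = u (vs n) + u (vt n) - 2 * u (vx n) - u (vy n) := by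
  unfold wt
  rw [sum_ex n (fun i => (u i : ℤ))]

lemma tot_ex : tot (exw n) = -1 := by
  have := sum_ex n (fun _ => 1)
  simp only [one_mul] at this
  rw [tot, this]
  norm_num

lemma ne_st : vs n ≠ vt n := by simp [vs, vt]
lemma ne_sx : vs n ≠ vx n := by simp [vs, vx]
lemma ne_sy : vs n ≠ vy n := by simp [vs, vy]
lemma ne_tx : vt n ≠ vx n := by simp [vt, vx]
lemma ne_ty : vt n ≠ vy n := by simp [vt, vy]
lemma ne_xy : vx n ≠ vy n := by simp [vx, vy]

/-- `s^a t^b x^c y^e` -/
noncomputable def mo (a b c e : ℕ) : Fin (n + 4) →₀ ℕ :=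
  Finsupp.single (vs n) a + Finsupp.single (vt n) b + Finsupp.single (vx n) c +
    Finsupp.single (vy n) e

lemma mo_s (a b c e : ℕ) : mo n a b c e (vs n) = a := by
  simp [mo, Finsupp.single_apply, (ne_st n).symm, (ne_sx n).symm, (ne_sy n).symm]
lemma mo_t (a b c e : ℕ) : mo n a b c e (vt n) = b := by
  simp [mo, Finsupp.single_apply, ne_st n, (ne_tx n).symm, (ne_ty n).symm]
lemma mo_x (a b c e : ℕ) : mo n a b c e (vx n) = c := by
  simp [mo, Finsupp.single_apply, ne_sx n, ne_tx n, (ne_xy n).symm]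
lemma mo_y (a b c e : ℕ) : mo n a b c e (vy n) = e := by
  simp [mo, Finsupp.single_apply, ne_sy n, ne_ty n, ne_xy n]
lemma mo_z (a b c e : ℕ) {i : Fin (n + 4)} (h : 4 ≤ i.val) : mo n a b c e i = 0 := by
  have h0 : vs n ≠ i := by intro h'; rw [← h'] at h; simp [vs] at h
  have h1 : vt n ≠ i := by intro h'; rw [← h'] at h; simp [vt] at h
  have h2 : vx n ≠ i := by intro h'; rw [← h'] at h; simp [vx] at h
  have h3 : vy n ≠ i := by intro h'; rw [← h'] at h; simp [vy] at h
  simp [mo, h0, h1, h2, h3]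

lemma wt_mo (a b c e : ℕ) : wt (exw n) (mo n a b c e) = a + b - 2 * c - e := by
  rw [wt_ex, mo_s, mo_t, mo_x, mo_y]

lemma mo_ne (a b c e : ℕ) (h : 0 < a + b + c + e) : mo n a b c e ≠ 0 := by
  intro h0
  have h1 := mo_s n a b c e
  have h2 := mo_t n a b c e
  have h3 := mo_x n a b c e
  have h4 := mo_y n a b c e
  rw [h0, Finsupp.coe_zero, Pi.zero_apply] at h1 h2 h3 h4
  omega

lemma mo_le (a b c e : ℕ) (u : Fin (n + 4) →₀ ℕ) (h0 : a ≤ u (vs n)) (h1 : b ≤ u (vt n))
    (h2 : c ≤ u (vx n)) (h3 : e ≤ u (vy n)) : mo n a b c e ≤ u := by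
  intro i
  rcases cases_v n i with rfl | rfl | rfl | rfl | h
  · rwa [mo_s]
  · rwa [mo_t]
  · rwa [mo_x]
  · rwa [mo_y]
  · rw [mo_z n a b c e h]
    exact Nat.zero_le _

lemma enough_ex : Enough (exw n) := by
  intro j
  rcases le_total 0 j with hj | hj
  · obtain ⟨k, rfl⟩ := Int.eq_ofNat_of_zero_le hj
    refine ⟨mo n 0 0 0 k, mo n k 0 k 0, mo n k 0 0 0, ?_, ?_, ?_, ?_⟩
    · rw [wt_mo]; push_cast; ring
    · rw [wt_mo]; push_cast; ring
    · rw [wt_mo]; push_cast; ring
    · intro i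
      rcases cases_v n i with rfl | rfl | rfl | rfl | h
      · right; rw [mo_s]
      · right; rw [mo_t]
      · right; rw [mo_x]
      · left; rw [mo_y]
      · left; rw [mo_z n _ _ _ _ h]
  · obtain ⟨k, hk⟩ := Int.eq_ofNat_of_zero_le (neg_nonneg.2 hj)
    have hk' : j = -k := by rw [← hk, neg_neg]
    subst hk'
    refine ⟨mo n k 0 0 0, mo n 0 k 0 0, mo n 0 0 0 k, ?_, ?_, ?_, ?_⟩
    · rw [wt_mo]; push_cast; ring
    · rw [wt_mo]; push_cast; ring
    · rw [wt_mo]; push_cast; ring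
    · intro i
      rcases cases_v n i with rfl | rfl | rfl | rfl | h
      · left; rw [mo_s]
      · right; rw [mo_t]
      · right; rw [mo_x]
      · right; rw [mo_y]
      · left; rw [mo_z n _ _ _ _ h]

lemma hPO_ex (i : Fin (n + 4)) : ∃ P O : Fin (n + 4) →₀ ℕ,
    wt (exw n) P = exw n i ∧ P i = 0 ∧ wt (exw n) O = - exw n i := by
  rcases cases_v n i with rfl | rfl | rfl | rfl | h
  · refine ⟨mo n 0 1 0 0, mo n 0 0 0 1, ?_, ?_, ?_⟩
    · rw [wt_mo, exw_s]; norm_num
    · rw [mo_s]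
    · rw [wt_mo, exw_s]; norm_num
  · refine ⟨mo n 1 0 0 0, mo n 0 0 0 1, ?_, ?_, ?_⟩
    · rw [wt_mo, exw_t]; norm_num
    · rw [mo_t]
    · rw [wt_mo, exw_t]; norm_num
  · refine ⟨mo n 0 0 0 2, mo n 2 0 0 0, ?_, ?_, ?_⟩
    · rw [wt_mo, exw_x]; norm_num
    · rw [mo_x]
    · rw [wt_mo, exw_x]; norm_num
  · refine ⟨mo n 1 0 1 0, mo n 1 0 0 0, ?_, ?_, ?_⟩
    · rw [wt_mo, exw_y]; norm_num
    · rw [mo_y]
    · rw [wt_mo, exw_y]; norm_num
  · refine ⟨0, 0, ?_, ?_, ?_⟩
    · rw [wt_zero, exw_z n h]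
    · rfl
    · rw [wt_zero, exw_z n h, neg_zero]

/-- the order of a monomial of `R` -/
def od (u : Fin (n + 4) →₀ ℕ) : ℕ := ∑ i, if 2 ≤ i.val then u i else 0

lemma od_add (u v : Fin (n + 4) →₀ ℕ) : od n (u + v) = od n u + od n v := by
  unfold od
  rw [← Finset.sum_add_distrib]
  apply Finset.sum_congr rfl
  intro i _
  split_ifs
  · rw [Finsupp.add_apply]
  · rfl

lemma le_od (u : Fin (n + 4) →₀ ℕ) (i : Fin (n + 4)) (hi : 2 ≤ i.val) : u i ≤ od n u := by
  have := Finset.single_le_sum (f := fun i : Fin (n + 4) => if 2 ≤ i.val then u i else 0)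
    (fun i _ => Nat.zero_le _) (Finset.mem_univ i)
  simp only [if_pos hi] at this
  exact this

lemma eq_zero_of_od (u : Fin (n + 4) →₀ ℕ) (hu : wt (exw n) u = 0) (h : od n u = 0) : u = 0 := by
  have h1 : ∀ i : Fin (n + 4), 2 ≤ i.val → u i = 0 := by
    intro i hi
    have := le_od n u i hi
    omega
  have h2 := h1 (vx n) (by simp [vx])
  have h3 := h1 (vy n) (by simp [vy])
  rw [wt_ex, h2, h3] at hu
  ext i
  rcases cases_v n i with rfl | rfl | rfl | rfl | h'
  · simp only [Finsupp.coe_zero, Pi.zero_apply]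
    omega
  · simp only [Finsupp.coe_zero, Pi.zero_apply]
    omega
  · exact h2
  · exact h3
  · exact h1 i (by omega)

lemma od_bound (u : Fin (n + 4) →₀ ℕ) (hu : wt (exw n) u = 0) (Q : ℕ) (h : ∀ i, u i ≤ Q) :
    2 * od n u ≤ (2 * n + 3) * Q := by
  have h1 : od n u ≤ u (vx n) + u (vy n) + n * Q := by
    unfold od
    rw [Fin.sum_univ_succ, Fin.sum_univ_succ, Fin.sum_univ_succ, Fin.sum_univ_succ]
    have e2 : (Fin.succ (Fin.succ (0 : Fin (n + 1 + 1))) : Fin (n + 3 + 1)) = vx n := rfl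
    have e3 : (Fin.succ (Fin.succ (Fin.succ (0 : Fin (n + 1)))) : Fin (n + 3 + 1)) = vy n := rfl
    have h5 : ∑ i : Fin n, (if 2 ≤ (i.succ.succ.succ.succ : Fin (n + 3 + 1)).val then
        u i.succ.succ.succ.succ else 0) ≤ ∑ i : Fin n, Q := by
      apply Finset.sum_le_sum
      intro i _
      split_ifs
      · exact h _
      · exact Nat.zero_le _
    rw [Finset.sum_const, Finset.card_univ, Fintype.card_fin, smul_eq_mul] at h5
    rw [e2, e3]
    have e4 : ¬ (2 ≤ (0 : Fin (n + 3 + 1)).val) := by simp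
    have e5 : ¬ (2 ≤ (Fin.succ (0 : Fin (n + 2 + 1)) : Fin (n + 3 + 1)).val) := by simp
    have e6 : 2 ≤ (vx n).val := by simp [vx]
    have e7 : 2 ≤ (vy n).val := by simp [vy]
    rw [if_neg e4, if_neg e5, if_pos e6, if_pos e7]
    omega
  have h2 := h (vs n)
  have h3 := h (vt n)
  have h4 := h (vy n)
  rw [wt_ex] at hu
  have h5 : (2 * n + 3) * Q = 2 * (n * Q) + 3 * Q := by ring
  rw [h5]
  omega

end

section

variable (n : ℕ) (K : Type u) [Field K]

/-- the ideal of the elements of order at least `N` -/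
def JJ (N : ℕ) : Ideal (WR (exw n) K) where
  carrier := {f | ∀ u, coeff u f.1 ≠ 0 → N ≤ od n u}
  zero_mem' := by
    intro u hu
    exact absurd (coeff_zero u) hu
  add_mem' := by
    intro f g hf hg u hu
    change coeff u (f.1 + g.1) ≠ 0 at hu
    rw [map_add] at hu
    by_cases h : coeff u f.1 = 0
    · rw [h, zero_add] at hu
      exact hg u hu
    · exact hf u h
  smul_mem' := by
    classical
    intro c f hf u hu
    change coeff u (c.1 * f.1) ≠ 0 at hu
    rw [coeff_mul] at hu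
    obtain ⟨x, hx, hx'⟩ := Finset.exists_ne_zero_of_sum_ne_zero hu
    rw [Finset.HasAntidiagonal.mem_antidiagonal] at hx
    have := hf _ (right_ne_zero_of_mul hx')
    rw [← hx, od_add]
    omega

lemma JJ_mul (a b : ℕ) : JJ n K a * JJ n K b ≤ JJ n K (a + b) := by
  classical
  rw [Ideal.mul_le]
  intro f hf g hg u hu
  change coeff u (f.1 * g.1) ≠ 0 at hu
  rw [coeff_mul] at hu
  obtain ⟨x, hx, hx'⟩ := Finset.exists_ne_zero_of_sum_ne_zero hu
  rw [Finset.HasAntidiagonal.mem_antidiagonal] at hx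
  have h1 := hf _ (left_ne_zero_of_mul hx')
  have h2 := hg _ (right_ne_zero_of_mul hx')
  rw [← hx, od_add]
  omega

lemma max_pow_le (N : ℕ) : IsLocalRing.maximalIdeal (WR (exw n) K) ^ N ≤ JJ n K N := by
  have h1 : IsLocalRing.maximalIdeal (WR (exw n) K) ≤ JJ n K 1 := by
    intro f hf u hu
    rw [mem_max] at hf
    by_contra hc
    have h2 := eq_zero_of_od n u (f.2 u hu) (by omega)
    rw [h2] at hu
    exact hu hf
  induction N with
  | zero =>
    intro f _ u _
    exact Nat.zero_le _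
  | succ N ih =>
    rw [pow_succ]
    exact (Ideal.mul_mono ih h1).trans (JJ_mul n K N 1)

variable (p : ℕ) [hp : Fact p.Prime] [CharP K p] [PerfectRing K p]

/-- Upper bound: if `φ(f) = 1` with `f ∈ 𝔪^N`, then `2 N ≤ (2 n + 3) (q - 1)`. -/
lemma upper_ex (e N : ℕ) (f : WR (exw n) K) (hf : f ∈ IsLocalRing.maximalIdeal (WR (exw n) K) ^ N)
    (φ : FHom p e (WR (exw n) K)) (h1 : φ.1 f = 1) : 2 * N ≤ (2 * n + 3) * (p ^ e - 1) := by
  by_contra hc
  have hf' := max_pow_le n K N hf
  have h2 := phi_mem (exw n) p e φ (hPO_ex n) Finset.univ f (by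
    intro u hu
    by_contra hc'
    push Not at hc'
    have h3 := od_bound n u (f.2 u hu) (p ^ e - 1) (by
      intro i
      have := hc' i (Finset.mem_univ i)
      omega)
    have h4 := hf' u hu
    omega)
  rw [h1] at h2
  have h3 : constantCoeff ((1 : WR (exw n) K).1) = (1 : K) := map_one _
  rw [h3] at h2
  exact one_ne_zero h2

variable {m : ℕ} (ep : Fin m → ℤ) in
lemma Mon_mul (u v : Fin m →₀ ℕ) (hu : wt ep u = 0) (hv : wt ep v = 0) (h : wt ep (u + v) = 0) :
    (Mon ep (u + v) h : WR ep K) = Mon ep u hu * Mon ep v hv := by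
  apply Subtype.ext
  change monomial (u + v) (1 : K) = monomial u 1 * monomial v 1
  rw [monomial_mul_monomial, one_mul]

variable {m : ℕ} (ep : Fin m → ℤ) in
lemma Mon_pow_mem (u : Fin m →₀ ℕ) (hu : wt ep u = 0) (h0 : u ≠ 0) (c : ℕ)
    (h : wt ep (c • u) = 0) :
    (Mon ep (c • u) h : WR ep K) ∈ IsLocalRing.maximalIdeal (WR ep K) ^ c := by
  have h1 : (Mon ep (c • u) h : WR ep K) = Mon ep u hu ^ c := by
    apply Subtype.ext
    change monomial (c • u) (1 : K) = (monomial u 1) ^ c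
    rw [monomial_pow, one_pow]
  rw [h1]
  exact Ideal.pow_mem_pow (Mon_mem_max ep u hu h0) c

/-- monomials in the `z_i` lie in high powers of the maximal ideal -/
lemma Mon_z_mem (c : ℕ) (T : Finset (Fin (n + 4))) (hT : ∀ i ∈ T, 4 ≤ i.val)
    (h : wt (exw n) (∑ i ∈ T, Finsupp.single i c) = 0) :
    (Mon (exw n) (∑ i ∈ T, Finsupp.single i c) h : WR (exw n) K) ∈
      IsLocalRing.maximalIdeal (WR (exw n) K) ^ (T.card * c) := by
  classical
  induction T using Finset.induction_on with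
  | empty => simp
  | insert i T hi ih =>
    have hi4 := hT i (Finset.mem_insert_self _ _)
    have hw1 : wt (exw n) (Finsupp.single i 1) = 0 := by
      rw [wt_single, exw_z n hi4, mul_zero]
    have hw2 : wt (exw n) (c • Finsupp.single i 1) = 0 := by
      rw [wt_smul, hw1, mul_zero]
    have hs : c • (Finsupp.single i 1 : Fin (n + 4) →₀ ℕ) = Finsupp.single i c := by
      rw [Finsupp.smul_single, smul_eq_mul, mul_one]
    have hw3 : wt (exw n) (∑ i ∈ T, Finsupp.single i c) = 0 := by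
      have := h
      rw [Finset.sum_insert hi, wt_add, ← hs, hw2, zero_add] at this
      exact this
    have h1 : (Mon (exw n) (∑ i ∈ insert i T, Finsupp.single i c) h : WR (exw n) K) =
        Mon (exw n) (c • Finsupp.single i 1) hw2 * Mon (exw n) (∑ i ∈ T, Finsupp.single i c) hw3 := by
      apply Subtype.ext
      change monomial (∑ i ∈ insert i T, Finsupp.single i c) (1 : K) =
        monomial (c • Finsupp.single i 1) 1 * monomial (∑ i ∈ T, Finsupp.single i c) 1
      rw [monomial_mul_monomial, one_mul, Finset.sum_insert hi, hs]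
    rw [h1, Finset.card_insert_of_notMem hi]
    have h2 := Mon_pow_mem K (exw n) (Finsupp.single i 1) hw1 (by
      intro h
      have := DFunLike.congr_fun h i
      simp at this) c hw2
    have h3 := ih (fun j hj => hT j (Finset.mem_insert_of_mem hj)) hw3
    have e : (T.card + 1) * c = c + T.card * c := by ring
    rw [e, pow_add]
    exact Ideal.mul_mem_mul h2 h3

/-- Lower bound. -/
lemma lower_ex (e : ℕ) : ∃ f ∈ IsLocalRing.maximalIdeal (WR (exw n) K) ^
    ((n + 1) * (p ^ e - 1) + (p ^ e - 1) / 2), ∃ φ : FHom p e (WR (exw n) K), φ.1 f = 1 := by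
  classical
  obtain ⟨Q, hQ⟩ : ∃ Q, Q = p ^ e - 1 := ⟨_, rfl⟩
  have hq := q_pos p e
  obtain ⟨c, hc⟩ : ∃ c, c = Q / 2 := ⟨_, rfl⟩
  have hc2 : 2 * c ≤ Q := by omega
  let T : Finset (Fin (n + 4)) := Finset.univ.filter (fun i => 4 ≤ i.val)
  have hT : ∀ i ∈ T, 4 ≤ i.val := by
    intro i hi
    exact (Finset.mem_filter.1 hi).2
  have hcard : T.card = n := by
    have h1 : T = (Finset.univ : Finset (Fin n)).map
        ⟨fun i => (⟨i.val + 4, by omega⟩ : Fin (n + 4)), fun a b h => by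
          simp only [Fin.mk.injEq] at h
          exact Fin.ext (by omega)⟩ := by
      ext i
      simp only [T, Finset.mem_filter, Finset.mem_univ, true_and, Finset.mem_map,
        Function.Embedding.coeFn_mk]
      constructor
      · intro h
        exact ⟨⟨i.val - 4, by omega⟩, Fin.ext (by simp only; omega)⟩
      · rintro ⟨a, rfl⟩
        simp
    rw [h1, Finset.card_map, Finset.card_univ, Fintype.card_fin]
  have hw1 : wt (exw n) (mo n 1 0 0 1) = 0 := by rw [wt_mo]; norm_num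
  have hw2 : wt (exw n) (mo n 0 2 1 0) = 0 := by rw [wt_mo]; norm_num
  have hw3 : wt (exw n) (Q • mo n 1 0 0 1) = 0 := by rw [wt_smul, hw1, mul_zero]
  have hw4 : wt (exw n) (c • mo n 0 2 1 0) = 0 := by rw [wt_smul, hw2, mul_zero]
  have hz : ∀ i : Fin (n + 4), (∑ i ∈ T, (Finsupp.single i Q : Fin (n + 4) →₀ ℕ)) i =
      if 4 ≤ i.val then Q else 0 := by
    intro i
    rw [Finsupp.finsetSum_apply]
    split_ifs with h
    · rw [Finset.sum_eq_single i]
      · simp
      · intro j _ hj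
        simp [hj]
      · intro h'
        exact absurd (show i ∈ T by
          simp only [T, Finset.mem_filter, Finset.mem_univ, true_and]
          exact h) h'
    · apply Finset.sum_eq_zero
      intro j hj
      have := hT j hj
      have hne : j ≠ i := by
        intro h'
        rw [h'] at this
        exact h this
      simp [hne]
  have hw5 : wt (exw n) (∑ i ∈ T, Finsupp.single i Q) = 0 := by
    rw [wt_ex, hz, hz, hz, hz]
    simp [vs, vt, vx, vy]
  have hw6 : wt (exw n) (Q • mo n 1 0 0 1 + c • mo n 0 2 1 0) = 0 := by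
    rw [wt_add, hw3, hw4, add_zero]
  have hw7 : wt (exw n) (Q • mo n 1 0 0 1 + c • mo n 0 2 1 0 +
      ∑ i ∈ T, Finsupp.single i Q) = 0 := by
    rw [wt_add, hw6, hw5, add_zero]
  refine ⟨Mon (exw n) _ hw7, ?_, ?_⟩
  · rw [Mon_mul K (exw n) _ _ hw6 hw5 hw7, Mon_mul K (exw n) _ _ hw3 hw4 hw6]
    have h1 := Mon_pow_mem K (exw n) _ hw1 (mo_ne n 1 0 0 1 (by norm_num)) Q hw3
    have h2 := Mon_pow_mem K (exw n) _ hw2 (mo_ne n 0 2 1 0 (by norm_num)) c hw4
    have h3 := Mon_z_mem n K Q T hT hw5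
    rw [hcard] at h3
    rw [← hQ, ← hc]
    have e : (n + 1) * Q + c = Q + c + n * Q := by ring
    rw [e, pow_add, pow_add]
    exact Ideal.mul_mem_mul (Ideal.mul_mem_mul h1 h2) h3
  · apply exists_phi_one
    intro i
    rw [Finsupp.add_apply, Finsupp.add_apply, hz, Finsupp.smul_apply, Finsupp.smul_apply,
      smul_eq_mul, smul_eq_mul]
    rcases cases_v n i with rfl | rfl | rfl | rfl | h
    · rw [mo_s, mo_s]
      simp [vs]
      omega
    · rw [mo_t, mo_t]
      simp [vt]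
      omega
    · rw [mo_x, mo_x]
      simp [vx]
      omega
    · rw [mo_y, mo_y]
      simp [vy]
      omega
    · rw [mo_z n _ _ _ _ h, mo_z n _ _ _ _ h, if_pos h]
      omega

end

end Run7.h889
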