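import Pool.Agent.Run7.h889.WRing
import Pool.Agent.Run7.h889.Defs

set_option autoImplicit false
set_option linter.unusedSimpArgs false
set_option linter.unusedVariables false
set_option linter.unusedSectionVars false
set_option linter.deprecated false

namespace Run7.h889

open MvPowerSeries

universe u

section

variable {m : ℕ} (ep : Fin m → ℤ) (K : Type u) [Field K]

/-- the weight `j` part of `S`, as an `R`-module -/
def SubW (j : ℤ) : Submodule (WR ep K) (MvPowerSeries (Fin m) K) where
  carrier := {f | HasWt ep j f}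
  add_mem' := fun hf hg => hasWt_add hf hg
  zero_mem' := hasWt_zero ep j
  smul_mem' := by
    intro c f hf
    have := hasWt_mul c.2 hf
    rw [zero_add] at this
    exact this

lemma isNoetherian_SubW (j : ℤ) (u : Fin m →₀ ℕ) (hu : wt ep u = -j) :
    IsNoetherian (WR ep K) (SubW ep K j) := by
  have hdom : IsDomain (MvPowerSeries (Fin m) K) := NoZeroDivisors.to_isDomain _
  let F : SubW ep K j →ₗ[WR ep K] WR ep K :=
    { toFun := fun f => ⟨monomial u 1 * f.1, by
        have := hasWt_mul (hasWt_monomial (K := K) ep u 1) f.2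
        rw [hu, neg_add_cancel] at this
        exact this⟩
      map_add' := by
        intro f g
        apply Subtype.ext
        change monomial u 1 * (f.1 + g.1) = monomial u 1 * f.1 + monomial u 1 * g.1
        rw [mul_add]
      map_smul' := by
        intro c f
        apply Subtype.ext
        change monomial u 1 * (c.1 * f.1) = c.1 * (monomial u 1 * f.1)
        ring }
  refine isNoetherian_of_injective F ?_
  intro f g hfg
  apply Subtype.ext
  have h1 := congrArg Subtype.val hfg
  change monomial u 1 * f.1 = monomial u 1 * g.1 at h1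
  exact mul_left_cancel₀ (mono_ne_zero u) h1

variable (p : ℕ) [hp : Fact p.Prime] [CharP K p] [PerfectRing K p]

variable {K} in
lemma hasWt_dig {f : MvPowerSeries (Fin m) K} (hf : HasWt ep 0 f) (e : ℕ) (v : Fin m →₀ ℕ) (j : ℤ)
    (hj : wt ep v = ((p ^ e : ℕ) : ℤ) * j) : HasWt ep (-j) (dig p e v f) := by
  intro w hw
  rw [coeff_dig] at hw
  have h1 : coeff (p ^ e • w + v) f ≠ 0 := by
    intro h
    rw [h, map_zero] at hw
    exact hw rfl
  have h2 := hf _ h1
  rw [wt_add, wt_smul, hj] at h2
  have h3 : ((p ^ e : ℕ) : ℤ) * (wt ep w + j) = 0 := by linarith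
  have h4 : ((p ^ e : ℕ) : ℤ) ≠ 0 := by exact_mod_cast (q_pos p e).ne'
  have := (mul_eq_zero.1 h3).resolve_left h4
  linarith

variable {K} in
lemma dig_eq_zero {f : MvPowerSeries (Fin m) K} (hf : HasWt ep 0 f) (e : ℕ) (v : Fin m →₀ ℕ)
    (hj : ¬ ((p ^ e : ℕ) : ℤ) ∣ wt ep v) : dig p e v f = 0 := by
  ext w
  rw [coeff_dig, coeff_zero]
  by_contra hc
  have h1 : coeff (p ^ e • w + v) f ≠ 0 := by
    intro h
    rw [h, map_zero] at hc
    exact hc rfl
  have h2 := hf _ h1
  rw [wt_add, wt_smul] at h2
  apply hj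
  refine ⟨- wt ep w, ?_⟩
  linarith

/-- `R` is F-finite, if there are monomials of every weight. -/
theorem isFFinite_WR (hmon : ∀ j : ℤ, ∃ u : Fin m →₀ ℕ, wt ep u = j) : IsFFinite p (WR ep K) := by
  classical
  have hch := charP_mv (m := m) (K := K) p
  have hch' := charP_WR (K := K) ep p
  have hfg : ∀ j : ℤ, ∃ G : Finset (MvPowerSeries (Fin m) K),
      SubW ep K j = Submodule.span (WR ep K) (G : Set (MvPowerSeries (Fin m) K)) := by
    intro j
    obtain ⟨u, hu⟩ := hmon (-j)
    have := isNoetherian_SubW ep K j u hu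
    have h1 : (SubW ep K j).FG := Module.Finite.iff_fg.1 inferInstance
    obtain ⟨G, hG⟩ := h1
    exact ⟨G, hG.symm⟩
  choose G hG using hfg
  let U : Finset (WR ep K) := Finset.univ.biUnion fun v : Fin m → Fin (p ^ 1) =>
    (G (-(wt ep (bx p 1 v) / p))).image fun g => rho ep (g ^ p * monomial (bx p 1 v) 1)
  -- the span
  let N : AddSubgroup (WR ep K) :=
    { carrier := {x | ∃ a : WR ep K → WR ep K, x = ∑ y ∈ U, a y ^ p * y}
      zero_mem' := ⟨fun _ => 0, by simp [hp.out.ne_zero]⟩
      add_mem' := by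
        rintro x y ⟨a, rfl⟩ ⟨b, rfl⟩
        refine ⟨fun z => a z + b z, ?_⟩
        rw [← Finset.sum_add_distrib]
        apply Finset.sum_congr rfl
        intro z _
        rw [add_pow_char, add_mul]
      neg_mem' := by
        rintro x ⟨a, rfl⟩
        refine ⟨fun z => - a z, ?_⟩
        rw [← Finset.sum_neg_distrib]
        apply Finset.sum_congr rfl
        intro z _
        have : (-a z) ^ p = - a z ^ p := by
          have h1 : a z ^ p + (-a z) ^ p = 0 := by
            rw [← add_pow_char, add_neg_cancel, zero_pow hp.out.ne_zero]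
          exact (neg_eq_of_add_eq_zero_right h1).symm
        rw [this, neg_mul] }
  have hNU : ∀ y ∈ U, y ∈ N := by
    intro y hy
    refine ⟨fun z => if z = y then 1 else 0, ?_⟩
    rw [Finset.sum_eq_single y]
    · simp
    · intro z _ hz
      simp [hz, hp.out.ne_zero]
    · intro h
      exact absurd hy h
  have hNs : ∀ c x : WR ep K, x ∈ N → c ^ p * x ∈ N := by
    rintro c x ⟨a, rfl⟩
    refine ⟨fun z => c * a z, ?_⟩
    rw [Finset.mul_sum]
    apply Finset.sum_congr rfl
    intro z _
    rw [mul_pow, mul_assoc]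
  refine ⟨U, fun x => ?_⟩
  change x ∈ N
  have h1 := digit_sum p 1 x.1
  have h2 : x = ∑ v : Fin m → Fin (p ^ 1),
      rho ep ((dig p 1 (bx p 1 v) x.1) ^ p ^ 1 * monomial (bx p 1 v) 1) :=
    (rho_coe ep x).symm.trans ((congrArg (rho ep) h1).trans (rho_sum ep _ _))
  rw [h2]
  apply N.sum_mem
  intro v _
  rw [pow_one]
  by_cases hdv : ((p ^ 1 : ℕ) : ℤ) ∣ wt ep (bx p 1 v)
  · obtain ⟨j, hj⟩ := hdv
    have hj' : wt ep (bx p 1 v) / p = j := by
      rw [hj, pow_one, Int.mul_ediv_cancel_left]
      exact_mod_cast hp.out.ne_zero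
    have h3 := hasWt_dig ep p x.2 1 (bx p 1 v) j hj
    have h4 : dig p 1 (bx p 1 v) x.1 ∈ SubW ep K (-j) := h3
    rw [hG] at h4
    have key : ∀ g ∈ Submodule.span (WR ep K) (G (-j) : Set (MvPowerSeries (Fin m) K)),
        rho ep (g ^ p * monomial (bx p 1 v) 1) ∈ N := by
      intro g hg
      induction hg using Submodule.span_induction with
      | mem g hg =>
        apply hNU
        simp only [U, Finset.mem_biUnion, Finset.mem_image]
        refine ⟨v, Finset.mem_univ _, g, ?_, rfl⟩
        rw [hj']
        exact hg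
      | zero =>
        rw [zero_pow hp.out.ne_zero, zero_mul, rho_zero]
        exact N.zero_mem
      | add g g' _ _ h1 h2 =>
        rw [add_pow_char, add_mul, rho_add]
        exact N.add_mem h1 h2
      | smul c g _ h1 =>
        have h5 : (c • g) ^ p * monomial (bx p 1 v) 1 =
            ((c ^ p : WR ep K) : MvPowerSeries (Fin m) K) * (g ^ p * monomial (bx p 1 v) 1) := by
          change (c.1 * g) ^ p * _ = c.1 ^ p * _
          rw [mul_pow, mul_assoc]
        rw [h5, rho_mul]
        exact hNs _ _ h1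
    exact key _ h4
  · rw [dig_eq_zero ep p x.2 1 _ hdv, zero_pow hp.out.ne_zero, zero_mul, rho_zero]
    exact N.zero_mem

end

end Run7.h889
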