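import Pool.Agent.Run7.h889.WFin

set_option autoImplicit false
set_option linter.unusedSimpArgs false
set_option linter.unusedVariables false
set_option linter.unusedSectionVars false
set_option linter.deprecated false

namespace Run7.h889

open MvPowerSeries

universe u

section

variable {m : ℕ} (ep : Fin m → ℤ) (K : Type u) [Field K]

lemma dom_mv : IsDomain (MvPowerSeries (Fin m) K) := NoZeroDivisors.to_isDomain _

variable {K}

lemma mono_dvd {u u' : Fin m →₀ ℕ} (hdis : ∀ i, u i = 0 ∨ u' i = 0)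
    {f g : MvPowerSeries (Fin m) K} (h : monomial u 1 * f = monomial u' 1 * g) :
    f = monomial u' 1 * shift u' f := by
  classical
  ext w
  rw [coeff_monomial_mul]
  split_ifs with h1
  · rw [coeff_shift, one_mul, tsub_add_cancel_of_le h1]
  · have h2 := congrArg (coeff (u + w)) h
    rw [coeff_add_monomial_mul, one_mul, coeff_monomial_mul, if_neg] at h2
    · exact h2
    · intro h3
      apply h1
      intro i
      have h4 := h3 i
      rw [Finsupp.add_apply] at h4
      rcases hdis i with h5 | h5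
      · omega
      · omega

variable (p : ℕ) [hp : Fact p.Prime] [CharP K p]

/-- The key vanishing: a `p^{-e}`-linear map sends `R ∩ X_i^q S` into the maximal ideal. -/
lemma star (e : ℕ) (φ : FHom p e (WR ep K)) (i : Fin m) (P O : Fin m →₀ ℕ)
    (hP : wt ep P = ep i) (hPi : P i = 0) (hO : wt ep O = - ep i) (f : MvPowerSeries (Fin m) K)
    (hf : HasWt ep (-((p ^ e : ℕ) : ℤ) * ep i) f) (a : WR ep K) (ha : a.1 = X i ^ p ^ e * f) :
    constantCoeff (φ.1 a).1 = 0 := by
  classical
  have hdom := dom_mv (m := m) K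
  have w1 : HasWt ep 0 ((monomial P (1 : K)) ^ p ^ e * f) := by
    have := hasWt_mul (hasWt_pow (hasWt_monomial (K := K) ep P 1) (p ^ e)) hf
    rw [hP] at this
    have h0 : ((p ^ e : ℕ) : ℤ) * ep i + -((p ^ e : ℕ) : ℤ) * ep i = 0 := by ring
    rwa [h0] at this
  set a' : WR ep K := ⟨_, w1⟩
  have h1 : HasWt ep 0 (monomial P (1 : K) * monomial O 1) := by
    have := hasWt_mul (hasWt_monomial (K := K) ep P 1) (hasWt_monomial (K := K) ep O 1)
    rwa [hP, hO, add_neg_cancel] at this
  have h2 : HasWt ep 0 ((X i : MvPowerSeries (Fin m) K) * monomial O 1) := by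
    have := hasWt_mul (hasWt_X (K := K) ep i) (hasWt_monomial (K := K) ep O 1)
    rwa [hO, add_neg_cancel] at this
  set u : WR ep K := ⟨_, h1⟩
  set v : WR ep K := ⟨_, h2⟩
  have h3 : u ^ p ^ e * a = v ^ p ^ e * a' := by
    apply Subtype.ext
    change (monomial P (1 : K) * monomial O 1) ^ p ^ e * a.1 =
      (X i * monomial O 1) ^ p ^ e * ((monomial P (1 : K)) ^ p ^ e * f)
    rw [ha]
    ring
  have h4 : u * φ.1 a = v * φ.1 a' := by rw [← φ.2, h3, φ.2]
  have h5 : monomial P 1 * (φ.1 a).1 = X i * (φ.1 a').1 := by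
    have h6 := congrArg Subtype.val h4
    change monomial P 1 * monomial O 1 * (φ.1 a).1 = X i * monomial O 1 * (φ.1 a').1 at h6
    apply mul_left_cancel₀ (mono_ne_zero (K := K) O)
    linear_combination h6
  have h7 := congrArg (coeff P) h5
  rw [coeff_monomial_mul, if_pos le_rfl, tsub_self, one_mul, X_def, coeff_monomial_mul,
    if_neg] at h7
  · exact h7
  · intro h
    have := h i
    rw [Finsupp.single_eq_same, hPi] at this
    exact absurd this (by norm_num)

/-- If every monomial of `f ∈ R` has an exponent `≥ q`, then `φ(f)` lies in the maximal ideal. -/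
lemma phi_mem (e : ℕ) (φ : FHom p e (WR ep K))
    (hPO : ∀ i : Fin m, ∃ P O : Fin m →₀ ℕ, wt ep P = ep i ∧ P i = 0 ∧ wt ep O = - ep i)
    (T : Finset (Fin m)) :
    ∀ f : WR ep K, (∀ u, coeff u f.1 ≠ 0 → ∃ i ∈ T, p ^ e ≤ u i) →
      constantCoeff (φ.1 f).1 = 0 := by
  classical
  induction T using Finset.induction_on with
  | empty =>
    intro f hf
    have : f = 0 := by
      apply Subtype.ext
      ext u
      by_contra h
      obtain ⟨i, hi, _⟩ := hf u h
      simp at hi
    rw [this, map_zero]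
    exact map_zero _
  | insert i T _ ih =>
    intro f hf
    have h1 := split f.1 i (p ^ e)
    have h2 : HasWt ep (-((p ^ e : ℕ) : ℤ) * ep i) (shift (Finsupp.single i (p ^ e)) f.1) := by
      have := hasWt_shift f.2 (Finsupp.single i (p ^ e))
      rw [wt_single] at this
      have h0 : (0 : ℤ) - ((p ^ e : ℕ) : ℤ) * ep i = -((p ^ e : ℕ) : ℤ) * ep i := by ring
      rwa [h0] at this
    have h2' : HasWt ep 0 (X i ^ p ^ e * shift (Finsupp.single i (p ^ e)) f.1) := by
      have := hasWt_mul (hasWt_X_pow (K := K) ep i (p ^ e)) h2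
      have h0 : ((p ^ e : ℕ) : ℤ) * ep i + -((p ^ e : ℕ) : ℤ) * ep i = 0 := by ring
      rwa [h0] at this
    have h3 : f = ⟨X i ^ p ^ e * shift (Finsupp.single i (p ^ e)) f.1, h2'⟩ +
        ⟨restr {u | u i < p ^ e} f.1, hasWt_restr f.2 _⟩ := Subtype.ext h1
    obtain ⟨P, O, hP, hPi, hO⟩ := hPO i
    rw [h3, map_add]
    change constantCoeff ((φ.1 _).1 + (φ.1 _).1) = 0
    rw [map_add, star ep p e φ i P O hP hPi hO _ h2 _ rfl, zero_add]
    apply ih
    intro u hu
    change coeff u (restr {u | u i < p ^ e} f.1) ≠ 0 at hu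
    rw [coeff_restr] at hu
    split_ifs at hu with h
    · obtain ⟨j, hj, hj'⟩ := hf u hu
      rw [Finset.mem_insert] at hj
      rcases hj with rfl | hj
      · exact absurd h (not_lt.2 hj')
      · exact ⟨j, hj, hj'⟩
    · exact absurd rfl hu

end

section

variable {m : ℕ} (ep : Fin m → ℤ) {K : Type u} [Field K]
variable (p : ℕ) [hp : Fact p.Prime] [CharP K p] [PerfectRing K p]

/-- the total weight of the variables -/
def tot : ℤ := ∑ i, ep i

omit [CharP K p] [PerfectRing K p] [Field K] hp in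
lemma wt_topv (e : ℕ) : wt ep (topv p e m) = ((p ^ e - 1 : ℕ) : ℤ) * tot ep := by
  simp only [wt, topv_apply, tot, Finset.mul_sum]

lemma hasWt_Tr {e : ℕ} {j : ℤ} {F : MvPowerSeries (Fin m) K}
    (hF : HasWt ep (((p ^ e - 1 : ℕ) : ℤ) * tot ep + ((p ^ e : ℕ) : ℤ) * j) F) :
    HasWt ep j (Tr p e F) := by
  intro w hw
  rw [Tr, coeff_dig] at hw
  have h1 : coeff (p ^ e • w + topv p e m) F ≠ 0 := by
    intro h
    rw [h, map_zero] at hw
    exact hw rfl
  have h2 := hF _ h1
  rw [wt_add, wt_smul, wt_topv] at h2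
  have h3 : ((p ^ e : ℕ) : ℤ) * (wt ep w - j) = 0 := by linarith
  have h4 : ((p ^ e : ℕ) : ℤ) ≠ 0 := by exact_mod_cast (q_pos p e).ne'
  have := (mul_eq_zero.1 h3).resolve_left h4
  linarith

/-- The map `f ↦ Tr (G f)`. -/
noncomputable def phiG (e : ℕ) (G : MvPowerSeries (Fin m) K)
    (hG : HasWt ep (((p ^ e - 1 : ℕ) : ℤ) * tot ep) G) : FHom p e (WR ep K) where
  val :=
    { toFun := fun f => ⟨Tr p e (G * f.1), by
        apply hasWt_Tr ep p
        rw [mul_zero]
        exact hasWt_mul hG f.2⟩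
      map_zero' := by
        apply Subtype.ext
        change Tr p e (G * 0) = 0
        rw [mul_zero, map_zero]
      map_add' := by
        intro f g
        apply Subtype.ext
        change Tr p e (G * (f.1 + g.1)) = Tr p e (G * f.1) + Tr p e (G * g.1)
        rw [mul_add, map_add] }
  property := by
    intro r x
    apply Subtype.ext
    change Tr p e (G * (r.1 ^ p ^ e * x.1)) = r.1 * Tr p e (G * x.1)
    rw [mul_left_comm, Tr_pow_mul]

lemma phiG_apply (e : ℕ) (G : MvPowerSeries (Fin m) K)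
    (hG : HasWt ep (((p ^ e - 1 : ℕ) : ℤ) * tot ep) G) (f : WR ep K) :
    ((phiG ep p e G hG).1 f).1 = Tr p e (G * f.1) := rfl

/-- A monomial with exponents `< q` is sent to `1` by some map. -/
lemma exists_phi_one (e : ℕ) (u : Fin m →₀ ℕ) (hu : wt ep u = 0) (hu' : ∀ i, u i < p ^ e) :
    ∃ φ : FHom p e (WR ep K), φ.1 (Mon ep u hu) = 1 := by
  classical
  let v : Fin m → Fin (p ^ e) := fun i => ⟨u i, hu' i⟩
  have hv : bx p e v = u := by
    ext i
    rfl
  have h1 : HasWt ep (((p ^ e - 1 : ℕ) : ℤ) * tot ep) (monomial (cmp p e v) (1 : K)) := by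
    have := hasWt_monomial (K := K) ep (cmp p e v) 1
    have h2 : wt ep (bx p e v + cmp p e v) = wt ep (topv p e m) := by rw [cmp_add]
    rw [wt_add, hv, hu, zero_add, wt_topv] at h2
    rwa [h2] at this
  refine ⟨phiG ep p e _ h1, ?_⟩
  apply Subtype.ext
  rw [phiG_apply]
  change Tr p e (monomial (cmp p e v) 1 * monomial u 1) = 1
  rw [monomial_mul_monomial, one_mul]
  have := Tr_cmp_bx (K := K) p e v v
  rw [if_pos rfl, hv] at this
  exact this

/-- uniqueness of the representing power series -/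
lemma G_unique (e : ℕ) (hmon : ∀ j : ℤ, ∃ u : Fin m →₀ ℕ, wt ep u = j)
    (D : MvPowerSeries (Fin m) K)
    (hD : HasWt ep (((p ^ e - 1 : ℕ) : ℤ) * tot ep) D)
    (h : ∀ f : WR ep K, Tr p e (D * f.1) = 0) : D = 0 := by
  classical
  have hdom := dom_mv (m := m) K
  rw [digit_sum p e D]
  apply Finset.sum_eq_zero
  intro v _
  have key : dig p e (bx p e v) D = 0 := by
    by_cases hdv : ((p ^ e : ℕ) : ℤ) ∣ wt ep (cmp p e v)
    · obtain ⟨j, hj⟩ := hdv
      obtain ⟨u, hu⟩ := hmon (-j)
      have h1 : HasWt ep 0 ((monomial u (1 : K)) ^ p ^ e * monomial (cmp p e v) 1) := by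
        have := hasWt_mul (hasWt_pow (hasWt_monomial (K := K) ep u 1) (p ^ e))
          (hasWt_monomial (K := K) ep (cmp p e v) 1)
        rw [hu, hj] at this
        have h0 : ((p ^ e : ℕ) : ℤ) * -j + ((p ^ e : ℕ) : ℤ) * j = 0 := by ring
        rwa [h0] at this
      have h2 := h ⟨_, h1⟩
      have h3 : D * ((monomial u (1 : K)) ^ p ^ e * monomial (cmp p e v) 1) =
          (monomial u (1 : K)) ^ p ^ e * (D * monomial (cmp p e v) 1) := by ring
      simp only at h2
      rw [h3, Tr_pow_mul, Tr_mul_monomial] at h2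
      exact (mul_eq_zero.1 h2).resolve_left (mono_ne_zero u)
    · ext w
      rw [coeff_dig, coeff_zero]
      by_contra hc
      have h1 : coeff (p ^ e • w + bx p e v) D ≠ 0 := by
        intro h
        rw [h, map_zero] at hc
        exact hc rfl
      have h2 := hD _ h1
      have h3 : wt ep (bx p e v + cmp p e v) = wt ep (topv p e m) := by rw [cmp_add]
      rw [wt_add, wt_topv] at h3
      rw [wt_add, wt_smul] at h2
      apply hdv
      refine ⟨wt ep w, ?_⟩
      linarith
  rw [key, zero_pow (q_pos p e).ne', zero_mul]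

/-- there are enough monomials of every weight -/
def Enough : Prop := ∀ j : ℤ, ∃ a b c : Fin m →₀ ℕ, wt ep a = -j ∧ wt ep b = -j ∧
  wt ep c = j ∧ ∀ i, b i = 0 ∨ a i = 0

omit [CharP K p] [PerfectRing K p] [Field K] hp in
lemma Enough.mon {ep : Fin m → ℤ} (h : Enough ep) : ∀ j : ℤ, ∃ u : Fin m →₀ ℕ, wt ep u = j := by
  intro j
  obtain ⟨a, b, c, ha, hb, hc, hab⟩ := h j
  exact ⟨c, hc⟩

omit [PerfectRing K p] in
/-- extension of a `q^{-1}`-linear map to `S_{qj}` -/
lemma exists_ext (hE : Enough ep) (e : ℕ) (φ : FHom p e (WR ep K)) (j : ℤ)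
    (F : MvPowerSeries (Fin m) K) (hF : HasWt ep (((p ^ e : ℕ) : ℤ) * j) F) :
    ∃ y : MvPowerSeries (Fin m) K, HasWt ep j y ∧
      ∀ (g : MvPowerSeries (Fin m) K) (x : WR ep K), HasWt ep (-j) g → x.1 = g ^ p ^ e * F →
        (φ.1 x).1 = g * y := by
  classical
  have hdom := dom_mv (m := m) K
  obtain ⟨a, b, c, ha, hb, hc, hab⟩ := hE j
  have hgF : ∀ g : MvPowerSeries (Fin m) K, HasWt ep (-j) g → HasWt ep 0 (g ^ p ^ e * F) := by
    intro g hg
    have := hasWt_mul (hasWt_pow hg (p ^ e)) hF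
    have h0 : ((p ^ e : ℕ) : ℤ) * -j + ((p ^ e : ℕ) : ℤ) * j = 0 := by ring
    rwa [h0] at this
  have hcg : ∀ g : MvPowerSeries (Fin m) K, HasWt ep (-j) g → HasWt ep 0 (monomial c 1 * g) := by
    intro g hg
    have := hasWt_mul (hasWt_monomial (K := K) ep c 1) hg
    rwa [hc, add_neg_cancel] at this
  -- cross relation
  have cross : ∀ (g g' : MvPowerSeries (Fin m) K) (hg : HasWt ep (-j) g) (hg' : HasWt ep (-j) g'),
      g' * (φ.1 ⟨_, hgF g hg⟩).1 = g * (φ.1 ⟨_, hgF g' hg'⟩).1 := by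
    intro g g' hg hg'
    have h1 : (⟨_, hcg g' hg'⟩ : WR ep K) ^ p ^ e * ⟨_, hgF g hg⟩ =
        (⟨_, hcg g hg⟩ : WR ep K) ^ p ^ e * ⟨_, hgF g' hg'⟩ := by
      apply Subtype.ext
      change (monomial c 1 * g') ^ p ^ e * (g ^ p ^ e * F) =
        (monomial c 1 * g) ^ p ^ e * (g' ^ p ^ e * F)
      ring
    have h2 := congrArg φ.1 h1
    rw [φ.2, φ.2] at h2
    have h3 := congrArg Subtype.val h2
    change monomial c 1 * g' * (φ.1 ⟨_, hgF g hg⟩).1 =
      monomial c 1 * g * (φ.1 ⟨_, hgF g' hg'⟩).1 at h3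
    apply mul_left_cancel₀ (mono_ne_zero (K := K) c)
    linear_combination h3
  have wa : HasWt ep (-j) (monomial a (1 : K)) := by
    rw [← ha]
    exact hasWt_monomial ep a 1
  have wb : HasWt ep (-j) (monomial b (1 : K)) := by
    rw [← hb]
    exact hasWt_monomial ep b 1
  have h1 := mono_dvd hab (cross _ _ wa wb)
  refine ⟨shift a (φ.1 ⟨_, hgF _ wa⟩).1, ?_, ?_⟩
  · have := hasWt_shift (φ.1 ⟨_, hgF _ wa⟩).2 a
    rw [ha, zero_sub, neg_neg] at this
    exact this
  · intro g x hg hx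
    have h2 : x = ⟨_, hgF g hg⟩ := Subtype.ext hx
    rw [h2]
    have h3 := cross g _ hg wa
    apply mul_left_cancel₀ (mono_ne_zero (K := K) a)
    rw [h3]
    conv_lhs => rw [h1]
    ring

/-- Every `q^{-1}`-linear map of `R` is of the form `f ↦ Tr (G f)`. -/
theorem exists_G (hE : Enough ep) (e : ℕ) (φ : FHom p e (WR ep K)) :
    ∃ (G : MvPowerSeries (Fin m) K), HasWt ep (((p ^ e - 1 : ℕ) : ℤ) * tot ep) G ∧
      ∀ f : WR ep K, (φ.1 f).1 = Tr p e (G * f.1) := by
  classical
  have hv : ∀ v : Fin m → Fin (p ^ e), ∃ y : MvPowerSeries (Fin m) K,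
      (HasWt ep (((p ^ e - 1 : ℕ) : ℤ) * tot ep) (y ^ p ^ e * monomial (cmp p e v) 1)) ∧
      ∀ (f x : WR ep K), x.1 = (dig p e (bx p e v) f.1) ^ p ^ e * monomial (bx p e v) 1 →
        (φ.1 x).1 = dig p e (bx p e v) f.1 * y := by
    intro v
    by_cases hdv : ((p ^ e : ℕ) : ℤ) ∣ wt ep (bx p e v)
    · obtain ⟨j, hj⟩ := hdv
      have hF : HasWt ep (((p ^ e : ℕ) : ℤ) * j) (monomial (bx p e v) (1 : K)) := by
        rw [← hj]
        exact hasWt_monomial ep _ 1
      obtain ⟨y, hy1, hy2⟩ := exists_ext ep p hE e φ j _ hF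
      refine ⟨y, ?_, ?_⟩
      · have h1 := hasWt_mul (hasWt_pow hy1 (p ^ e)) (hasWt_monomial (K := K) ep (cmp p e v) 1)
        have h3 : wt ep (bx p e v + cmp p e v) = wt ep (topv p e m) := by rw [cmp_add]
        rw [wt_add, wt_topv, hj] at h3
        rwa [h3] at h1
      · intro f x hx
        exact hy2 _ x (hasWt_dig ep p f.2 e (bx p e v) j hj) hx
    · refine ⟨0, ?_, ?_⟩
      · rw [zero_pow (q_pos p e).ne', zero_mul]
        exact hasWt_zero ep _
      · intro f x hx
        have h0 := dig_eq_zero ep p f.2 e _ hdv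
        rw [h0, zero_pow (q_pos p e).ne', zero_mul] at hx
        have : x = 0 := Subtype.ext hx
        rw [this, map_zero, h0, zero_mul]
        rfl
  choose y hy1 hy2 using hv
  refine ⟨∑ v, y v ^ p ^ e * monomial (cmp p e v) 1, ?_, ?_⟩
  · have : ∀ s : Finset (Fin m → Fin (p ^ e)), HasWt ep (((p ^ e - 1 : ℕ) : ℤ) * tot ep)
        (∑ v ∈ s, y v ^ p ^ e * monomial (cmp p e v) 1) := by
      intro s
      induction s using Finset.induction_on with
      | empty => simpa using hasWt_zero ep _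
      | insert a s ha ih =>
        rw [Finset.sum_insert ha]
        exact hasWt_add (hy1 a) ih
    exact this _
  · intro f
    have h1 := digit_sum p e f.1
    have hw : ∀ v : Fin m → Fin (p ^ e), HasWt ep 0
        ((dig p e (bx p e v) f.1) ^ p ^ e * monomial (bx p e v) 1) := by
      intro v
      by_cases hdv : ((p ^ e : ℕ) : ℤ) ∣ wt ep (bx p e v)
      · obtain ⟨j, hj⟩ := hdv
        have := hasWt_mul (hasWt_pow (hasWt_dig ep p f.2 e (bx p e v) j hj) (p ^ e))
          (hasWt_monomial (K := K) ep (bx p e v) 1)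
        rw [hj] at this
        have h0 : ((p ^ e : ℕ) : ℤ) * -j + ((p ^ e : ℕ) : ℤ) * j = 0 := by ring
        rwa [h0] at this
      · rw [dig_eq_zero ep p f.2 e _ hdv, zero_pow (q_pos p e).ne', zero_mul]
        exact hasWt_zero ep 0
    have h2 : f = ∑ v : Fin m → Fin (p ^ e), (⟨_, hw v⟩ : WR ep K) := by
      apply Subtype.ext
      have h3 : ((∑ v : Fin m → Fin (p ^ e), (⟨_, hw v⟩ : WR ep K) : WR ep K) :
          MvPowerSeries (Fin m) K) =
          ∑ v : Fin m → Fin (p ^ e), (dig p e (bx p e v) f.1) ^ p ^ e * monomial (bx p e v) 1 :=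
        map_sum (wring ep K).subtype _ _
      rw [h3]
      exact h1
    have h3 : (φ.1 f).1 = ∑ v : Fin m → Fin (p ^ e), dig p e (bx p e v) f.1 * y v := by
      conv_lhs => rw [h2, map_sum]
      have h4 : ((∑ v : Fin m → Fin (p ^ e), φ.1 (⟨_, hw v⟩ : WR ep K) : WR ep K) :
          MvPowerSeries (Fin m) K) = ∑ v : Fin m → Fin (p ^ e), (φ.1 (⟨_, hw v⟩ : WR ep K)).1 :=
        map_sum (wring ep K).subtype _ _
      rw [h4]
      apply Finset.sum_congr rfl
      intro v _
      exact hy2 v f _ rfl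
    rw [h3]
    conv_rhs => rw [h1]
    rw [Finset.mul_sum, map_sum]
    apply Finset.sum_congr rfl
    intro v _
    rw [Finset.sum_mul, map_sum, Finset.sum_eq_single v]
    · have h5 : y v ^ p ^ e * monomial (cmp p e v) 1 *
          ((dig p e (bx p e v) f.1) ^ p ^ e * monomial (bx p e v) 1) =
          (y v * dig p e (bx p e v) f.1) ^ p ^ e *
            (monomial (cmp p e v) 1 * monomial (bx p e v) 1) := by ring
      rw [h5, Tr_pow_mul, monomial_mul_monomial, one_mul, Tr_cmp_bx, if_pos rfl]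
      ring
    · intro u _ hu
      have h5 : y u ^ p ^ e * monomial (cmp p e u) 1 *
          ((dig p e (bx p e v) f.1) ^ p ^ e * monomial (bx p e v) 1) =
          (y u * dig p e (bx p e v) f.1) ^ p ^ e *
            (monomial (cmp p e u) 1 * monomial (bx p e v) 1) := by ring
      rw [h5, Tr_pow_mul, monomial_mul_monomial, one_mul, Tr_cmp_bx, if_neg (Ne.symm hu),
        mul_zero]
    · intro h
      exact absurd (Finset.mem_univ _) h

end

end Run7.h889
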