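import Pool.Agent.Run7.h889.WMap

set_option autoImplicit false
set_option linter.unusedSimpArgs false
set_option linter.unusedVariables false
set_option linter.unusedSectionVars false
set_option linter.deprecated false

namespace Run7.h889

open MvPowerSeries
open scoped TensorProduct

universe u

section

variable {m : ℕ} (ep : Fin m → ℤ) {K : Type u} [Field K]
variable (p : ℕ) [hp : Fact p.Prime] [CharP K p] [PerfectRing K p]

/-- the power series attached to a map -/
noncomputable def Gof (hE : Enough ep) (e : ℕ) (φ : FHom p e (WR ep K)) :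
    MvPowerSeries (Fin m) K := (exists_G ep p hE e φ).choose

lemma Gof_wt (hE : Enough ep) (e : ℕ) (φ : FHom p e (WR ep K)) :
    HasWt ep (((p ^ e - 1 : ℕ) : ℤ) * tot ep) (Gof ep p hE e φ) :=
  (exists_G ep p hE e φ).choose_spec.1

lemma Gof_spec (hE : Enough ep) (e : ℕ) (φ : FHom p e (WR ep K)) (f : WR ep K) :
    (φ.1 f).1 = Tr p e (Gof ep p hE e φ * f.1) :=
  (exists_G ep p hE e φ).choose_spec.2 f

lemma hasWt_sub {j : ℤ} {f g : MvPowerSeries (Fin m) K} (hf : HasWt ep j f)
    (hg : HasWt ep j g) : HasWt ep j (f - g) := by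
  rw [sub_eq_add_neg]
  exact hasWt_add hf (hasWt_neg hg)

lemma Gof_eq (hE : Enough ep) (e : ℕ) (φ : FHom p e (WR ep K)) (G : MvPowerSeries (Fin m) K)
    (hG : HasWt ep (((p ^ e - 1 : ℕ) : ℤ) * tot ep) G)
    (h : ∀ f : WR ep K, (φ.1 f).1 = Tr p e (G * f.1)) : Gof ep p hE e φ = G := by
  rw [← sub_eq_zero]
  refine G_unique ep p e hE.mon _ (hasWt_sub ep (Gof_wt ep p hE e φ) hG) ?_
  intro f
  rw [sub_mul, map_sub, ← Gof_spec, ← h, sub_self]

/-- `φ ↦ G_φ` as a linear map. -/
noncomputable def Glin (hE : Enough ep) (e : ℕ) :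
    FHom p e (WR ep K) →ₗ[WR ep K] MvPowerSeries (Fin m) K where
  toFun := Gof ep p hE e
  map_add' := by
    intro φ ψ
    refine Gof_eq ep p hE e _ _ (hasWt_add (Gof_wt ep p hE e φ) (Gof_wt ep p hE e ψ)) ?_
    intro f
    rw [add_mul, map_add, ← Gof_spec, ← Gof_spec]
    rfl
  map_smul' := by
    intro c φ
    refine Gof_eq ep p hE e _ _ ?_ ?_
    · have := hasWt_mul c.2 (Gof_wt ep p hE e φ)
      rw [zero_add] at this
      exact this
    · intro f
      rw [FHom_smul_apply, Gof_spec ep p hE]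
      change Tr p e (Gof ep p hE e φ * (c.1 * f.1)) = Tr p e (c.1 * Gof ep p hE e φ * f.1)
      congr 1
      ring

/-- the retraction as a linear map -/
noncomputable def rhoLin : MvPowerSeries (Fin m) K →ₗ[WR ep K] WR ep K where
  toFun := rho ep
  map_add' := rho_add ep
  map_smul' := fun c f => rho_mul ep c f

/-- the multilinear form attached to `H` -/
noncomputable def mform (hE : Enough ep) (n : ℕ) (H : MvPowerSeries (Fin m) K) :
    MultilinearMap (WR ep K) (fun _ : Fin n => FHom p 1 (WR ep K)) (WR ep K) :=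
  ((rhoLin ep).comp (LinearMap.mulLeft (WR ep K) H)).compMultilinearMap
    ((MultilinearMap.mkPiAlgebra (WR ep K) (Fin n) (MvPowerSeries (Fin m) K)).compLinearMap
      (fun _ => Glin ep p hE 1))

lemma mform_apply (hE : Enough ep) (n : ℕ) (H : MvPowerSeries (Fin m) K)
    (φ : Fin n → FHom p 1 (WR ep K)) :
    mform ep p hE n H φ = rho ep (H * ∏ i, Gof ep p hE 1 (φ i)) := rfl

/-- If `R` is `ℚ`-Gorenstein then all the forms are multiples of one form. -/
lemma qgor_form (hE : Enough ep) (hQ : IsQGorenstein p (WR ep K)) :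
    ∃ n : ℕ, 1 ≤ n ∧ ∃ l : (Fin n → FHom p 1 (WR ep K)) → WR ep K,
      ∀ H : MvPowerSeries (Fin m) K, ∃ c : WR ep K, ∀ φ : Fin n → FHom p 1 (WR ep K),
        rho ep (H * ∏ i, Gof ep p hE 1 (φ i)) = c * l φ := by
  obtain ⟨n, hn, ⟨E⟩⟩ := hQ
  refine ⟨n, hn, fun φ => (E.symm 1) (PiTensorProduct.tprod _ φ), ?_⟩
  intro H
  refine ⟨E (PiTensorProduct.lift (mform ep p hE n H)), ?_⟩
  intro φ
  have h1 : PiTensorProduct.lift (mform ep p hE n H) =
      E (PiTensorProduct.lift (mform ep p hE n H)) • E.symm 1 := by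
    rw [← map_smul, smul_eq_mul, mul_one, LinearEquiv.symm_apply_apply]
  have h2 := congrArg (fun L => L (PiTensorProduct.tprod _ φ)) h1
  simp only [PiTensorProduct.lift.tprod, mform_apply, LinearMap.smul_apply, smul_eq_mul] at h2
  exact h2

end

end Run7.h889
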