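import Pool.Agent.Run7.h889.Dig
import Pool.Agent.Helper819.DC.MVN1

set_option autoImplicit false
set_option linter.unusedSimpArgs false
set_option linter.unusedVariables false
set_option linter.unusedSectionVars false
set_option linter.deprecated false

namespace Run7.h889

open MvPowerSeries

universe u

section

variable {m : ℕ} (ep : Fin m → ℤ)

/-- The weight of an exponent vector, for the weights `ep i` of the variables. -/
def wt (u : Fin m →₀ ℕ) : ℤ := ∑ i, (u i : ℤ) * ep i

lemma wt_add (u v : Fin m →₀ ℕ) : wt ep (u + v) = wt ep u + wt ep v := by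
  simp only [wt, Finsupp.add_apply, ← Finset.sum_add_distrib]
  apply Finset.sum_congr rfl
  intro i _
  push_cast
  ring

lemma wt_smul (n : ℕ) (u : Fin m →₀ ℕ) : wt ep (n • u) = n * wt ep u := by
  simp only [wt, Finsupp.smul_apply, smul_eq_mul, Finset.mul_sum]
  apply Finset.sum_congr rfl
  intro i _
  push_cast
  ring

lemma wt_zero : wt ep 0 = 0 := by simp [wt]

lemma wt_single (i : Fin m) (n : ℕ) : wt ep (Finsupp.single i n) = n * ep i := by
  unfold wt
  rw [Finset.sum_eq_single i]
  · simp
  · intro j _ hj
    simp [Ne.symm hj]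
  · simp

variable {K : Type u} [Field K]

/-- `f` is homogeneous of weight `j`. -/
def HasWt (j : ℤ) (f : MvPowerSeries (Fin m) K) : Prop := ∀ u, coeff u f ≠ 0 → wt ep u = j

lemma hasWt_zero (j : ℤ) : HasWt ep j (0 : MvPowerSeries (Fin m) K) := by
  intro u hu
  exact absurd (coeff_zero u) hu

variable {ep} in
lemma hasWt_add {j : ℤ} {f g : MvPowerSeries (Fin m) K} (hf : HasWt ep j f) (hg : HasWt ep j g) :
    HasWt ep j (f + g) := by
  intro u hu
  rw [map_add] at hu
  by_cases h : coeff u f = 0
  · rw [h, zero_add] at hu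
    exact hg u hu
  · exact hf u h

variable {ep} in
lemma hasWt_neg {j : ℤ} {f : MvPowerSeries (Fin m) K} (hf : HasWt ep j f) : HasWt ep j (-f) := by
  intro u hu
  rw [map_neg, neg_ne_zero] at hu
  exact hf u hu

variable {ep} in
lemma hasWt_mul {i j : ℤ} {f g : MvPowerSeries (Fin m) K} (hf : HasWt ep i f)
    (hg : HasWt ep j g) : HasWt ep (i + j) (f * g) := by
  classical
  intro u hu
  rw [coeff_mul] at hu
  obtain ⟨x, hx, hx'⟩ := Finset.exists_ne_zero_of_sum_ne_zero hu
  rw [Finset.HasAntidiagonal.mem_antidiagonal] at hx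
  rw [← hx, wt_add, hf _ (left_ne_zero_of_mul hx'), hg _ (right_ne_zero_of_mul hx')]

lemma hasWt_one : HasWt ep 0 (1 : MvPowerSeries (Fin m) K) := by
  classical
  intro u hu
  rw [coeff_one] at hu
  split_ifs at hu with h
  · subst h
    simp [wt]
  · exact absurd rfl hu

variable {ep} in
lemma hasWt_pow {j : ℤ} {f : MvPowerSeries (Fin m) K} (hf : HasWt ep j f) (n : ℕ) :
    HasWt ep (n * j) (f ^ n) := by
  induction n with
  | zero => simpa using hasWt_one ep
  | succ n ih =>
    have := hasWt_mul ih hf
    rw [pow_succ]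
    have e : ((n + 1 : ℕ) : ℤ) * j = n * j + j := by push_cast; ring
    rw [e]
    exact this

lemma hasWt_monomial (u : Fin m →₀ ℕ) (a : K) : HasWt ep (wt ep u) (monomial u a) := by
  classical
  intro v hv
  rw [coeff_monomial] at hv
  split_ifs at hv with h
  · rw [h]
  · exact absurd rfl hv

lemma hasWt_X_pow (i : Fin m) (n : ℕ) : HasWt ep (n * ep i) ((X i : MvPowerSeries (Fin m) K) ^ n) := by
  rw [X_pow_eq, ← wt_single]
  exact hasWt_monomial _ _ _

lemma hasWt_X (i : Fin m) : HasWt ep (ep i) (X i : MvPowerSeries (Fin m) K) := by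
  have := hasWt_X_pow (K := K) ep i 1
  simpa using this

lemma hasWt_C (a : K) : HasWt ep 0 (C a : MvPowerSeries (Fin m) K) := by
  rw [← monomial_zero_eq_C_apply]
  have := hasWt_monomial (K := K) ep (0 : Fin m →₀ ℕ) a
  rwa [wt_zero] at this

variable {ep} in
lemma hasWt_unique {i j : ℤ} {f : MvPowerSeries (Fin m) K} (hf : HasWt ep i f)
    (hg : HasWt ep j f) (h0 : f ≠ 0) : i = j := by
  obtain ⟨u, hu⟩ : ∃ u, coeff u f ≠ 0 := by
    by_contra hc
    push Not at hc
    exact h0 (MvPowerSeries.ext hc)
  rw [← hf u hu, ← hg u hu]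

/-- cancelling a homogeneous factor -/
lemma hasWt_of_mul {i j : ℤ} {f g : MvPowerSeries (Fin m) K} (hf : HasWt ep i f) (h0 : f ≠ 0)
    (u : Fin m →₀ ℕ) (hfu : f = monomial u 1) (hg : HasWt ep (i + j) (f * g)) : HasWt ep j g := by
  classical
  intro w hw
  have h1 : coeff (u + w) (f * g) ≠ 0 := by
    rw [hfu, coeff_add_monomial_mul, one_mul]
    exact hw
  have h2 := hg _ h1
  rw [wt_add] at h2
  have h3 : wt ep u = i := by
    apply hf
    rw [hfu, coeff_monomial_same]
    exact one_ne_zero
  linarith

/-- restriction to a set of exponents -/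
noncomputable def restr (A : Set (Fin m →₀ ℕ)) (f : MvPowerSeries (Fin m) K) :
    MvPowerSeries (Fin m) K := by
  classical
  exact fun u => if u ∈ A then coeff u f else 0

lemma coeff_restr (A : Set (Fin m →₀ ℕ)) [DecidablePred (· ∈ A)] (f : MvPowerSeries (Fin m) K)
    (u : Fin m →₀ ℕ) :
    coeff u (restr A f) = if u ∈ A then coeff u f else 0 := by
  by_cases h : u ∈ A
  · rw [if_pos h]
    exact if_pos h
  · rw [if_neg h]
    exact if_neg h

/-- the component of weight `0` -/
noncomputable def comp0 (f : MvPowerSeries (Fin m) K) : MvPowerSeries (Fin m) K :=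
  restr {u | wt ep u = 0} f

lemma coeff_comp0 (f : MvPowerSeries (Fin m) K) (u : Fin m →₀ ℕ) :
    coeff u (comp0 ep f) = if wt ep u = 0 then coeff u f else 0 := by
  classical
  unfold comp0
  rw [coeff_restr]
  rfl

lemma hasWt_comp0 (f : MvPowerSeries (Fin m) K) : HasWt ep 0 (comp0 ep f) := by
  intro u hu
  rw [coeff_comp0] at hu
  split_ifs at hu with h
  · exact h
  · exact absurd rfl hu

lemma comp0_of_hasWt {f : MvPowerSeries (Fin m) K} (hf : HasWt ep 0 f) : comp0 ep f = f := by
  ext u
  rw [coeff_comp0]
  split_ifs with h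
  · rfl
  · by_contra hc
    exact h (hf u (Ne.symm hc))

lemma comp0_add (f g : MvPowerSeries (Fin m) K) :
    comp0 ep (f + g) = comp0 ep f + comp0 ep g := by
  ext u
  rw [map_add, coeff_comp0, coeff_comp0, coeff_comp0, map_add]
  split_ifs
  · rfl
  · rw [add_zero]

lemma comp0_mul {f : MvPowerSeries (Fin m) K} (hf : HasWt ep 0 f) (g : MvPowerSeries (Fin m) K) :
    comp0 ep (f * g) = f * comp0 ep g := by
  classical
  ext u
  rw [coeff_comp0, coeff_mul, coeff_mul]
  split_ifs with h
  · apply Finset.sum_congr rfl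
    intro x hx
    rw [Finset.HasAntidiagonal.mem_antidiagonal] at hx
    by_cases h0 : coeff x.1 f = 0
    · rw [h0, zero_mul, zero_mul]
    · rw [coeff_comp0, if_pos]
      have h1 := hf _ h0
      rw [← hx, wt_add, h1, zero_add] at h
      exact h
  · symm
    apply Finset.sum_eq_zero
    intro x hx
    rw [Finset.HasAntidiagonal.mem_antidiagonal] at hx
    by_cases h0 : coeff x.1 f = 0
    · rw [h0, zero_mul]
    · rw [coeff_comp0, if_neg, mul_zero]
      have h1 := hf _ h0
      intro h2
      apply h
      rw [← hx, wt_add, h1, h2, add_zero]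

variable (K) in
/-- The weight-`0` part of the power series ring. -/
def wring : Subring (MvPowerSeries (Fin m) K) where
  carrier := {f | HasWt ep 0 f}
  mul_mem' := by
    intro f g hf hg
    have := hasWt_mul hf hg
    rwa [add_zero] at this
  one_mem' := hasWt_one ep
  add_mem' := fun hf hg => hasWt_add hf hg
  zero_mem' := hasWt_zero ep 0
  neg_mem' := fun hf => hasWt_neg hf

variable (K) in
/-- The ring `R`, as a type. -/
abbrev WR : Type u := wring ep K

lemma mem_wring (f : MvPowerSeries (Fin m) K) : f ∈ wring ep K ↔ HasWt ep 0 f := Iff.rfl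

/-- the retraction `S → R` -/
noncomputable def rho (f : MvPowerSeries (Fin m) K) : WR ep K := ⟨comp0 ep f, hasWt_comp0 ep f⟩

lemma rho_mul (a : WR ep K) (f : MvPowerSeries (Fin m) K) : rho ep (a.1 * f) = a * rho ep f :=
  Subtype.ext (comp0_mul ep a.2 f)

lemma rho_add (f g : MvPowerSeries (Fin m) K) : rho ep (f + g) = rho ep f + rho ep g :=
  Subtype.ext (comp0_add ep f g)

lemma rho_coe (a : WR ep K) : rho ep a.1 = a := Subtype.ext (comp0_of_hasWt ep a.2)

lemma rho_zero : rho ep (0 : MvPowerSeries (Fin m) K) = 0 := rho_coe ep 0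

lemma rho_sum {ι : Type*} (s : Finset ι) (F : ι → MvPowerSeries (Fin m) K) :
    rho ep (∑ v ∈ s, F v) = ∑ v ∈ s, rho ep (F v) := by
  classical
  induction s using Finset.induction_on with
  | empty => simp [rho_zero]
  | insert a s ha ih => rw [Finset.sum_insert ha, Finset.sum_insert ha, rho_add, ih]

instance : IsDomain (WR ep K) := by
  have : IsDomain (MvPowerSeries (Fin m) K) := NoZeroDivisors.to_isDomain _
  infer_instance

lemma comap_map (I : Ideal (WR ep K)) :
    (I.map (wring ep K).subtype).comap (wring ep K).subtype = I := by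
  apply le_antisymm
  · intro x hx
    have key : ∀ y ∈ I.map (wring ep K).subtype, ∀ s : MvPowerSeries (Fin m) K,
        rho ep (s * y) ∈ I := by
      intro y hy
      unfold Ideal.map at hy
      induction hy using Submodule.span_induction with
      | mem y hy =>
        obtain ⟨a, ha, rfl⟩ := hy
        intro s
        have : s * (wring ep K).subtype a = a.1 * s := mul_comm _ _
        rw [this, rho_mul]
        exact Ideal.mul_mem_right _ _ ha
      | zero =>
        intro s
        rw [mul_zero, rho_zero]
        exact I.zero_mem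
      | add y z _ _ h1 h2 =>
        intro s
        rw [mul_add, rho_add]
        exact Ideal.add_mem _ (h1 s) (h2 s)
      | smul a y _ h1 =>
        intro s
        rw [smul_eq_mul, ← mul_assoc]
        exact h1 _
    have := key _ hx 1
    rw [one_mul] at this
    have h2 : rho ep ((wring ep K).subtype x) = x := rho_coe ep x
    rwa [h2] at this
  · exact Ideal.le_comap_map

instance : IsNoetherianRing (WR ep K) := by
  have h1 : WellFoundedGT (Ideal (MvPowerSeries (Fin m) K)) := (isNoetherian_iff').1 inferInstance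
  have h2 : WellFoundedGT (Ideal (WR ep K)) := by
    let F : Ideal (WR ep K) ↪o Ideal (MvPowerSeries (Fin m) K) := OrderEmbedding.ofMapLEIff
      (fun I => I.map (wring ep K).subtype) (by
        intro I J
        constructor
        · intro h
          rw [← comap_map ep I, ← comap_map ep J]
          exact Ideal.comap_mono h
        · intro h
          exact Ideal.map_mono h)
    exact F.wellFoundedGT
  exact (isNoetherian_iff').2 h2

lemma isUnit_iff (f : WR ep K) : IsUnit f ↔ constantCoeff f.1 ≠ 0 := by
  constructor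
  · intro h
    have := (h.map (wring ep K).subtype).map (constantCoeff (σ := Fin m) (R := K))
    exact this.ne_zero
  · intro h
    have h1 : IsUnit f.1 := by
      rw [MvPowerSeries.isUnit_iff_constantCoeff]
      exact isUnit_iff_ne_zero.2 h
    obtain ⟨g, hg⟩ := h1.exists_right_inv
    refine IsUnit.of_mul_eq_one (rho ep g) ?_
    rw [← rho_mul, hg]
    exact rho_coe ep 1

instance : IsLocalRing (WR ep K) := by
  refine IsLocalRing.of_isUnit_or_isUnit_one_sub_self ?_
  intro f
  rw [isUnit_iff, isUnit_iff]
  by_cases h : constantCoeff f.1 = 0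
  · right
    have : ((1 - f : WR ep K) : MvPowerSeries (Fin m) K) = 1 - f.1 := rfl
    rw [this, map_sub, h, map_one, sub_zero]
    exact one_ne_zero
  · left
    exact h

lemma mem_max (f : WR ep K) : f ∈ IsLocalRing.maximalIdeal (WR ep K) ↔ constantCoeff f.1 = 0 := by
  rw [IsLocalRing.mem_maximalIdeal, mem_nonunits_iff, isUnit_iff, not_not]

lemma charP_mv (p : ℕ) [CharP K p] : CharP (MvPowerSeries (Fin m) K) p := by
  refine charP_of_injective_ringHom (f := (C : K →+* MvPowerSeries (Fin m) K)) ?_ p
  exact C_injective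

lemma charP_WR (p : ℕ) [CharP K p] : CharP (WR ep K) p := by
  have := charP_mv (m := m) (K := K) p
  have : Function.Injective (wring ep K).subtype := Subtype.val_injective
  refine ⟨fun x => ?_⟩
  rw [← CharP.cast_eq_zero_iff (MvPowerSeries (Fin m) K) p, ← map_natCast (wring ep K).subtype,
    map_eq_zero_iff _ this]

instance : IsIntegrallyClosed (WR ep K) := by
  have hdom : IsDomain (MvPowerSeries (Fin m) K) := NoZeroDivisors.to_isDomain _
  have hic : IsIntegrallyClosed (MvPowerSeries (Fin m) K) :=
    (Pool.Agent.Helper819.DC.MVN1.mv_integrallyClosed (m := m) (K := K)).2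
  rw [isIntegrallyClosed_iff (FractionRing (WR ep K))]
  intro x hx
  have hinj : Function.Injective
      ((algebraMap (MvPowerSeries (Fin m) K) (FractionRing (MvPowerSeries (Fin m) K))).comp
        (wring ep K).subtype) := by
    rw [RingHom.coe_comp]
    exact (IsFractionRing.injective _ _).comp Subtype.val_injective
  let F : FractionRing (WR ep K) →+* FractionRing (MvPowerSeries (Fin m) K) :=
    IsFractionRing.lift hinj
  have hF : ∀ a : WR ep K, F (algebraMap (WR ep K) (FractionRing (WR ep K)) a) =
      algebraMap (MvPowerSeries (Fin m) K) (FractionRing (MvPowerSeries (Fin m) K)) a.1 := fun a =>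
    IsFractionRing.lift_algebraMap hinj a
  have h1 : IsIntegral (MvPowerSeries (Fin m) K) (F x) := by
    refine hx.map_of_comp_eq (wring ep K).subtype F ?_
    ext a
    exact (hF a).symm
  obtain ⟨s, hs⟩ := (isIntegrallyClosed_iff (FractionRing (MvPowerSeries (Fin m) K))).1 hic h1
  obtain ⟨a, b, hb, hab⟩ := IsFractionRing.div_surjective (A := WR ep K) x
  have hb0 : b ≠ 0 := nonZeroDivisors.ne_zero hb
  have hb0' : algebraMap (WR ep K) (FractionRing (WR ep K)) b ≠ 0 := by
    intro h
    exact hb0 (IsFractionRing.injective (WR ep K) (FractionRing (WR ep K)) (by rw [h, map_zero]))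
  have h2 : a.1 = b.1 * s := by
    apply IsFractionRing.injective (MvPowerSeries (Fin m) K) (FractionRing (MvPowerSeries (Fin m) K))
    rw [map_mul, hs, ← hF, ← hF, ← map_mul, ← hab]
    congr 1
    field_simp
  refine ⟨rho ep s, ?_⟩
  have h3 : a = b * rho ep s := by
    rw [← rho_mul, ← h2, rho_coe]
  rw [← hab, h3, map_mul]
  field_simp

/-- shift of exponents -/
noncomputable def shift (v : Fin m →₀ ℕ) (f : MvPowerSeries (Fin m) K) : MvPowerSeries (Fin m) K :=
  fun w => coeff (w + v) f

lemma coeff_shift (v : Fin m →₀ ℕ) (f : MvPowerSeries (Fin m) K) (w : Fin m →₀ ℕ) :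
    coeff w (shift v f) = coeff (w + v) f := rfl

variable {ep} in
lemma hasWt_shift {j : ℤ} {f : MvPowerSeries (Fin m) K} (hf : HasWt ep j f) (v : Fin m →₀ ℕ) :
    HasWt ep (j - wt ep v) (shift v f) := by
  intro w hw
  rw [coeff_shift] at hw
  have := hf _ hw
  rw [wt_add] at this
  linarith

variable {ep} in
lemma hasWt_restr {j : ℤ} {f : MvPowerSeries (Fin m) K} (hf : HasWt ep j f)
    (A : Set (Fin m →₀ ℕ)) : HasWt ep j (restr A f) := by
  classical
  intro w hw
  rw [coeff_restr] at hw
  split_ifs at hw with h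
  · exact hf w hw
  · exact absurd rfl hw

lemma split (f : MvPowerSeries (Fin m) K) (i : Fin m) (n : ℕ) :
    f = X i ^ n * shift (Finsupp.single i n) f + restr {u | u i < n} f := by
  classical
  ext u
  rw [map_add, X_pow_eq, coeff_monomial_mul, coeff_restr, one_mul, coeff_shift]
  simp only [Finsupp.single_le_iff, Set.mem_setOf_eq]
  by_cases h : n ≤ u i
  · rw [if_pos h, if_neg (not_lt.2 h), add_zero]
    congr 2
    ext j
    by_cases hj : i = j
    · subst hj
      simp
      omega
    · simp [Finsupp.single_apply, hj]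
  · rw [if_neg h, if_pos (not_le.1 h), zero_add]

/-- a monomial as an element of `R` -/
noncomputable def Mon (u : Fin m →₀ ℕ) (hu : wt ep u = 0) : WR ep K :=
  ⟨monomial u 1, by rw [mem_wring, ← hu]; exact hasWt_monomial ep u 1⟩

/-- a constant as an element of `R` -/
noncomputable def Cst (a : K) : WR ep K := ⟨C a, hasWt_C ep a⟩

lemma mono_ne_zero (u : Fin m →₀ ℕ) : (monomial u (1 : K) : MvPowerSeries (Fin m) K) ≠ 0 := by
  intro h
  have := congrArg (coeff u) h
  rw [coeff_monomial_same, coeff_zero] at this
  exact one_ne_zero this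

end

end Run7.h889
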